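import Mathlib
import Pool.Agent.LR3.Near

/-!
Lonely runner with speeds at most `2 n`: the exact accounting at an odd modulus `M = 2 n + K`.

`Cex n V` : `V` is a set of `n` speeds in `[1, 2 n]` for which the lonely runner statement fails.
For `1 ≤ X ≤ (M - 1) / 2` the pair of `X` is `{X, M - X}` and its double is `{2 X, M - 2 X}`.
`exact`: if `K ≤ X ≤ n` and both elements of the pair are missing speeds, then both elements of the
double are speeds. `acct` : the number of pairs whose double consists of speeds while they do not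
consist of missing speeds is at most the number of even missing speeds `≤ K - 3` minus one.
-/

namespace Pool.Agent.LR4

open Finset Pool.Agent.LR2 Pool.Agent.LR3

/-- `V` is a counterexample to the lonely runner statement with speeds at most `2 n`. -/
structure Cex (n : ℕ) (V : Finset ℕ) : Prop where
  mem : ∀ x ∈ V, 1 ≤ x ∧ x ≤ 2 * n
  card : V.card = n
  no : ∀ t : ℝ, ∃ x ∈ V, ∃ k : ℤ, |t * (x : ℝ) - (k : ℝ)| < (1 : ℝ) / ((n : ℝ) + 1)

section edges

variable {n : ℕ} {V : Finset ℕ} (h : Cex n V)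
include h

theorem Cex.one : 1 ∈ V := by
  obtain ⟨x, hx, k, hk⟩ := CONS_rat h.no 1 (2 * n + 2) 2 (by positivity) (by linarith)
  obtain ⟨hx1, hx2⟩ := h.mem x hx
  rw [abs_lt] at hk
  have hk0 : k = 0 := by
    rcases lt_trichotomy k 0 with h | h | h
    · exfalso; nlinarith
    · exact h
    · exfalso; nlinarith
  subst hk0
  have : x = 1 := by omega
  exact this ▸ hx

theorem Cex.pos : 1 ≤ n := by
  have := h.mem 1 h.one
  omega

theorem Cex.two : 2 ≤ n := by
  have h1 := h.pos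
  by_contra hc
  have h2 : n = 1 := by omega
  subst h2
  have hV : V = {1} := by
    obtain ⟨a, ha⟩ := Finset.card_eq_one.1 h.card
    have := h.one
    rw [ha, mem_singleton] at this
    rw [ha, this]
  obtain ⟨x, hx, k, hk⟩ := CONS_rat h.no 1 2 1 (by norm_num) (by norm_num)
  rw [hV, mem_singleton] at hx
  subst hx
  rw [abs_lt] at hk
  push_cast at hk
  omega

theorem Cex.sys : Sys n ((Icc 1 (2 * n)) \ V) :=
  CONS n V h.two h.mem h.card h.no

theorem Cex.succ : n + 1 ∈ V := by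
  have h1 := h.sys.succ
  have h2 := h.pos
  by_contra hc
  exact h1 (mem_sdiff.2 ⟨mem_Icc.2 ⟨by omega, by omega⟩, hc⟩)

/-- Edges with sum `2 n + 1`. -/
theorem Cex.refl1 {x y : ℕ} (hx0 : 0 < x) (hy0 : 0 < y) (hxy : x + y = 2 * n + 1)
    (hc : Nat.Coprime x y) (hx : x ∉ V) : y ∈ V := by
  by_contra hy
  exact h.sys.refl x y hxy hc (mem_sdiff.2 ⟨mem_Icc.2 ⟨by omega, by omega⟩, hx⟩)
    (mem_sdiff.2 ⟨mem_Icc.2 ⟨by omega, by omega⟩, hy⟩)

/-- Edges with sum `2 n + 2`. -/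
theorem Cex.refl2 {x y : ℕ} (hx0 : 0 < x) (hy0 : 0 < y) (hxy : x + y = 2 * n + 2)
    (hc : Nat.Coprime x y) (hx : x ∉ V) : y ∈ V := by
  have hcs : Nat.Coprime x (2 * n + 2) := by
    rw [← hxy]; simpa using hc
  obtain ⟨a, m, ham⟩ := CONS_bez hcs
  push_cast at ham
  obtain ⟨z, hz, k, hk⟩ := CONS_rat h.no a (2 * n + 2) 2 (by positivity) (by linarith)
  obtain ⟨hz1, hz2⟩ := h.mem z hz
  obtain ⟨ρ, hρ⟩ : ∃ ρ : ℤ, a * z - k * (2 * n + 2) = ρ := ⟨_, rfl⟩
  have hd := CONS_inv ham hρ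
  rw [hρ, abs_lt] at hk
  have h3 : ρ = 0 ∨ ρ = 1 ∨ ρ = -1 := by omega
  have hs0 : (0 : ℤ) < 2 * n + 2 := by positivity
  rcases h3 with rfl | rfl | rfl
  · have := CONS_mul hs0 hd (by omega) (by omega)
    omega
  · have := CONS_mul hs0 hd (by omega) (by omega)
    have h5 : z = x := by omega
    exact absurd (h5 ▸ hz) hx
  · have hd2 : (2 * (n : ℤ) + 2) ∣ (z : ℤ) - y := by
      have h4 : (z : ℤ) - y = (z - -1 * x) - (2 * n + 2) := by
        have : (x : ℤ) + y = 2 * n + 2 := by exact_mod_cast hxy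
        linarith
      rw [h4]
      exact dvd_sub_self_right.2 hd
    have := CONS_mul hs0 hd2 (by omega) (by omega)
    have h5 : z = y := by omega
    exact h5 ▸ hz

/-- Doubling of small missing speeds. -/
theorem Cex.dbl {q z : ℕ} (hq : 0 < q) (hc : Nat.Coprime z q) (h1 : 2 * n + 1 ≤ z)
    (h2 : z + 2 * q ≤ 3 * n + 3) (hqV : q ∉ V) : 2 * q ∈ V := by
  have h3 := h.pos
  by_contra hc2
  exact h.sys.dbl q z hq hc h1 h2 (mem_sdiff.2 ⟨mem_Icc.2 ⟨by omega, by omega⟩, hqV⟩)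
    (mem_sdiff.2 ⟨mem_Icc.2 ⟨by omega, by omega⟩, hc2⟩)

/-- Doubling of missing speeds between `2 n / 3` and `n`. -/
theorem Cex.dblHigh {q : ℕ} (h1 : 2 * n < 3 * q) (h2 : q ≤ n) (hqV : q ∉ V) : 2 * q ∈ V := by
  have h3 := h.pos
  by_contra hc2
  exact h.sys.dblHigh q h1 h2 (mem_sdiff.2 ⟨mem_Icc.2 ⟨by omega, by omega⟩, hqV⟩)
    (mem_sdiff.2 ⟨mem_Icc.2 ⟨by omega, by omega⟩, hc2⟩)

/-- Triples `{x, y, x + y}`. -/
theorem Cex.tri {x y : ℕ} (hx0 : 0 < x) (hxy : x < y) (hc : Nat.Coprime x y) (hn : n < x + y)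
    (h2n : x + y ≤ 2 * n)
    (h3 : (y ≤ n ∧ 2 * n < x + 2 * y) ∨ (n < y ∧ (2 * n < 2 * x + y ∨ x + 2 * y ≤ 3 * n + 3)))
    (hx : x ∉ V) (hy : y ∉ V) : x + y ∈ V := by
  by_contra hs
  exact h.sys.tri x y hxy hc hn h2n h3 (mem_sdiff.2 ⟨mem_Icc.2 ⟨by omega, by omega⟩, hx⟩)
    (mem_sdiff.2 ⟨mem_Icc.2 ⟨by omega, by omega⟩, hy⟩)
    (mem_sdiff.2 ⟨mem_Icc.2 ⟨by omega, by omega⟩, hs⟩)

/-- Exactness, first half. -/
theorem Cex.exactA {K M X : ℕ} (hM : M = 2 * n + K) (hK3 : 3 ≤ K) (hc : Nat.Coprime X M)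
    (hX0 : 0 < X) (hKX : K ≤ X) (hXn : X ≤ n) (h1 : X ∉ V) (h2 : M - X ∉ V) : M - 2 * X ∈ V := by
  have h3 := h.pos
  have hcc : Nat.Coprime X (M - 2 * X) := by
    have h8 : M = (M - 2 * X) + 2 * X := by omega
    rw [h8] at hc
    exact (Nat.coprime_add_mul_right_right X (M - 2 * X) 2).1 hc
  by_contra h4
  rcases lt_trichotomy X (M - 2 * X) with h5 | h5 | h5
  · have h6 : X + (M - 2 * X) ∈ V := by
      refine h.tri hX0 h5 hcc (by omega) (by omega) ?_ h1 h4
      by_cases h7 : M - 2 * X ≤ n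
      · left; omega
      · right; omega
    have h7 : X + (M - 2 * X) = M - X := by omega
    rw [h7] at h6
    exact h2 h6
  · have h7 : X = 1 := by
      rw [← h5] at hcc
      simpa using hcc
    subst h7
    have := h.one
    exact h1 this
  · have h6 : (M - 2 * X) + X ∈ V := by
      exact h.tri (by omega) h5 (Nat.coprime_comm.1 hcc) (by omega) (by omega)
        (Or.inl ⟨by omega, by omega⟩) h4 h1
    have h7 : (M - 2 * X) + X = M - X := by omega
    rw [h7] at h6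
    exact h2 h6

/-- Exactness, second half. -/
theorem Cex.exactB {K M X : ℕ} (hM : M = 2 * n + K) (hK3 : 3 ≤ K) (hKn : 4 * K ≤ n + 8)
    (hc : Nat.Coprime X M) (hX0 : 0 < X) (hKX : K ≤ X) (hXn : X ≤ n) (h1 : X ∉ V)
    (h2 : M - X ∉ V) : 2 * X ∈ V := by
  have h3 := h.pos
  by_cases h4 : M + 2 * X ≤ 3 * n + 3
  · exact h.dbl hX0 (Nat.coprime_comm.1 hc) (by omega) h4 h1
  by_cases h5 : 2 * n < 3 * X
  · exact h.dblHigh h5 hXn h1
  push Not at h4 h5
  have hr : 2 * (M - X) % M = M - 2 * X := by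
    have h7 : 2 * (M - X) = (M - 2 * X) + M := by omega
    rw [h7, Nat.add_mod_right, Nat.mod_eq_of_lt (by omega)]
  have h6 := bohr h.mem h.no (M := M) (K := M - 2 * X) (X := M - X) (by omega) (by omega) ?_
    ((Nat.coprime_self_sub_left (by omega)).2 hc) (by omega) (by omega) h2 ?_ ?_
  · rw [hr] at h6
    have h7 : M - (M - 2 * X) = 2 * X := by omega
    rwa [h7] at h6
  · obtain ⟨r, hr2⟩ : ∃ r, r = M - 2 * X := ⟨_, rfl⟩
    obtain ⟨s, hs⟩ : ∃ s, s = 3 * (n + 1) - M := ⟨_, rfl⟩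
    obtain ⟨d, hd⟩ : ∃ d, d = M - 2 * (n + 1) := ⟨_, rfl⟩
    rw [← hr2, ← hs, ← hd]
    have e1 : s + d = n + 1 := by omega
    have e2 : M = 2 * (n + 1) + d := by omega
    have e3 : 4 * d ≤ n := by omega
    have e4 : 2 * n ≤ 3 * r := by omega
    have e5 : 2 * n + 3 * K ≤ 3 * r := by omega
    have e6 : K = d + 2 := by omega
    have e7 : 3 * d ≤ s := by omega
    have e8 : M * d ≤ r * (3 * d) := by
      have : M ≤ r * 3 := by omega
      calc M * d ≤ (r * 3) * d := Nat.mul_le_mul_right _ this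
        _ = r * (3 * d) := by ring
    exact e8.trans (Nat.mul_le_mul_left _ e7)
  · have : M - (M - X) = X := by omega
    rwa [this]
  · rw [hr]

/-- Exactness: if both elements of the pair of `X` are missing then both elements of its double
are speeds. -/
theorem Cex.exact {K M X : ℕ} (hM : M = 2 * n + K) (hK3 : 3 ≤ K) (hKn : 4 * K ≤ n + 8)
    (hc : Nat.Coprime X M) (hX0 : 0 < X) (hKX : K ≤ X) (hXn : X ≤ n) (h1 : X ∉ V)
    (h2 : M - X ∉ V) : 2 * X ∈ V ∧ M - 2 * X ∈ V :=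
  ⟨h.exactB hM hK3 hKn hc hX0 hKX hXn h1 h2, h.exactA hM hK3 hc hX0 hKX hXn h1 h2⟩

end edges

/-! ### Sums over pairs -/

/-- The units `X` modulo `M` in `[1, (M - 1) / 2]`. -/
def Iu (M : ℕ) : Finset ℕ := (Icc 1 ((M - 1) / 2)).filter (fun X => Nat.Coprime X M)

/-- The units in `[1, M - 1]`. -/
def Gu (M : ℕ) : Finset ℕ := (Ico 1 M).filter (fun X => Nat.Coprime X M)

lemma mem_Iu {M X : ℕ} (hodd : Odd M) : X ∈ Iu M ↔ (1 ≤ X ∧ 2 * X < M) ∧ Nat.Coprime X M := by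
  obtain ⟨r, hr⟩ := hodd
  rw [Iu, mem_filter, mem_Icc]
  constructor
  · rintro ⟨⟨h1, h2⟩, h3⟩
    exact ⟨⟨h1, by omega⟩, h3⟩
  · rintro ⟨⟨h1, h2⟩, h3⟩
    exact ⟨⟨h1, by omega⟩, h3⟩

lemma mem_Gu {M X : ℕ} : X ∈ Gu M ↔ (1 ≤ X ∧ X < M) ∧ Nat.Coprime X M := by
  rw [Gu, mem_filter, mem_Ico]

lemma card_Gu {M : ℕ} (hM : 1 < M) : (Gu M).card = M.totient := by
  have : Gu M = (range M).filter (fun X => Nat.Coprime M X) := by
    ext X
    rw [mem_Gu, mem_filter, mem_range, Nat.coprime_comm]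
    constructor
    · rintro ⟨⟨h1, h2⟩, h3⟩
      exact ⟨h2, h3⟩
    · rintro ⟨h2, h3⟩
      refine ⟨⟨?_, h2⟩, h3⟩
      rcases Nat.eq_zero_or_pos X with h4 | h4
      · rw [h4, Nat.coprime_zero_right] at h3
        omega
      · exact h4
  rw [this]
  rfl

lemma cop_sub {M X : ℕ} (h : Nat.Coprime X M) (hX : X ≤ M) : Nat.Coprime (M - X) M :=
  (Nat.coprime_self_sub_left hX).2 h

lemma cop_sub2 {M X : ℕ} (hodd : Odd M) (h : Nat.Coprime X M) (hX : 2 * X ≤ M) :
    Nat.Coprime (M - 2 * X) M :=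
  (Nat.coprime_self_sub_left hX).2 (Nat.Coprime.mul_left (Nat.coprime_two_left.2 hodd) h)

/-- Every unit is in exactly one pair. -/
lemma sum_pairs {M : ℕ} (hodd : Odd M) (f : ℕ → ℕ) :
    ∑ X ∈ Iu M, (f X + f (M - X)) = ∑ x ∈ Gu M, f x := by
  rw [Finset.sum_add_distrib]
  have h1 : ∑ x ∈ Gu M, f x = ∑ x ∈ (Gu M).filter (fun x => 2 * x < M), f x +
      ∑ x ∈ (Gu M).filter (fun x => ¬ 2 * x < M), f x :=
    (Finset.sum_filter_add_sum_filter_not _ _ _).symm
  rw [h1]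
  obtain ⟨r, hr⟩ := id hodd
  congr 1
  · refine Finset.sum_congr ?_ fun _ _ => rfl
    ext X
    rw [mem_filter, mem_Gu, mem_Iu hodd]
    constructor
    · rintro ⟨⟨h1, h2⟩, h3⟩
      exact ⟨⟨⟨h1, by omega⟩, h3⟩, h2⟩
    · rintro ⟨⟨⟨h1, h2⟩, h3⟩, h4⟩
      exact ⟨⟨h1, h4⟩, h3⟩
  · refine Finset.sum_bij' (fun X _ => M - X) (fun X _ => M - X) ?_ ?_ ?_ ?_ ?_
    · intro X hX
      obtain ⟨⟨h1, h2⟩, h3⟩ := (mem_Iu hodd).1 hX
      rw [mem_filter, mem_Gu]
      exact ⟨⟨⟨by omega, by omega⟩, cop_sub h3 (by omega)⟩, by omega⟩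
    · intro X hX
      rw [mem_filter, mem_Gu] at hX
      obtain ⟨⟨⟨h1, h2⟩, h3⟩, h4⟩ := hX
      rw [mem_Iu hodd]
      exact ⟨⟨by omega, by omega⟩, cop_sub h3 (by omega)⟩
    · intro X hX
      obtain ⟨⟨h1, h2⟩, h3⟩ := (mem_Iu hodd).1 hX
      omega
    · intro X hX
      rw [mem_filter, mem_Gu] at hX
      omega
    · intro X hX
      rfl

/-- Every unit is in exactly one double. -/
lemma sum_dbl {M : ℕ} (hodd : Odd M) (f : ℕ → ℕ) :
    ∑ X ∈ Iu M, (f (2 * X) + f (M - 2 * X)) = ∑ x ∈ Gu M, f x := by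
  rw [Finset.sum_add_distrib]
  have h1 : ∑ x ∈ Gu M, f x = ∑ x ∈ (Gu M).filter (fun x => Even x), f x +
      ∑ x ∈ (Gu M).filter (fun x => ¬ Even x), f x :=
    (Finset.sum_filter_add_sum_filter_not _ _ _).symm
  rw [h1]
  obtain ⟨r, hr⟩ := id hodd
  have h2M : Nat.Coprime 2 M := Nat.coprime_two_left.2 hodd
  congr 1
  · refine Finset.sum_bij' (fun X _ => 2 * X) (fun X _ => X / 2) ?_ ?_ ?_ ?_ ?_
    · intro X hX
      obtain ⟨⟨h1, h2⟩, h3⟩ := (mem_Iu hodd).1 hX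
      rw [mem_filter, mem_Gu]
      exact ⟨⟨⟨by omega, by omega⟩, Nat.Coprime.mul_left h2M h3⟩, even_two_mul X⟩
    · intro X hX
      rw [mem_filter, mem_Gu] at hX
      obtain ⟨⟨⟨h1, h2⟩, h3⟩, h4⟩ := hX
      obtain ⟨y, hy⟩ := h4
      rw [mem_Iu hodd]
      refine ⟨⟨by omega, by omega⟩, ?_⟩
      have : X / 2 = y := by omega
      rw [this]
      have h5 : y ∣ X := ⟨2, by omega⟩
      exact Nat.Coprime.coprime_dvd_left h5 h3
    · intro X hX
      omega
    · intro X hX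
      rw [mem_filter, mem_Gu] at hX
      obtain ⟨⟨⟨h1, h2⟩, h3⟩, h4⟩ := hX
      obtain ⟨y, hy⟩ := h4
      omega
    · intro X hX
      rfl
  · refine Finset.sum_bij' (fun X _ => M - 2 * X) (fun X _ => (M - X) / 2) ?_ ?_ ?_ ?_ ?_
    · intro X hX
      obtain ⟨⟨h1, h2⟩, h3⟩ := (mem_Iu hodd).1 hX
      rw [mem_filter, mem_Gu]
      refine ⟨⟨⟨by omega, by omega⟩, cop_sub2 hodd h3 (by omega)⟩, ?_⟩
      rw [Nat.not_even_iff_odd]
      exact ⟨r - X, by omega⟩
    · intro X hX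
      rw [mem_filter, mem_Gu] at hX
      obtain ⟨⟨⟨h1, h2⟩, h3⟩, h4⟩ := hX
      rw [Nat.not_even_iff_odd] at h4
      obtain ⟨y, hy⟩ := h4
      rw [mem_Iu hodd]
      refine ⟨⟨by omega, by omega⟩, ?_⟩
      have h5 : (M - X) / 2 ∣ M - X := ⟨2, by omega⟩
      exact Nat.Coprime.coprime_dvd_left h5 (cop_sub h3 (by omega))
    · intro X hX
      obtain ⟨⟨h1, h2⟩, h3⟩ := (mem_Iu hodd).1 hX
      omega
    · intro X hX
      rw [mem_filter, mem_Gu] at hX
      obtain ⟨⟨⟨h1, h2⟩, h3⟩, h4⟩ := hX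
      rw [Nat.not_even_iff_odd] at h4
      obtain ⟨y, hy⟩ := h4
      omega
    · intro X hX
      rfl

/-! ### The exact accounting -/

/-- Lossy labels: the double of `X` consists of speeds, the pair of `X` does not consist of missing
speeds. -/
def labL (M : ℕ) (V : Finset ℕ) : Finset ℕ :=
  (Iu M).filter (fun X => (2 * X ∈ V ∧ M - 2 * X ∈ V) ∧ ¬ (X ∉ V ∧ M - X ∉ V))

/-- Odd `d ≤ K - 4` which are speeds such that `(M - d) / 2`, `(M + d) / 2` are not both missing. -/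
def labD (M K : ℕ) (V : Finset ℕ) : Finset ℕ :=
  (Icc 1 (K - 4)).filter (fun d => (Odd d ∧ Nat.Coprime d M) ∧ d ∈ V ∧
    ¬ ((M - d) / 2 ∉ V ∧ (M + d) / 2 ∉ V))

/-- Missing `x ≤ K - 3` such that `M - 2 x` is a speed. -/
def labB (M K : ℕ) (V : Finset ℕ) : Finset ℕ :=
  (Icc 1 (K - 3)).filter (fun x => Nat.Coprime x M ∧ x ∉ V ∧ M - 2 * x ∈ V)

/-- Even missing `e ≤ K - 3`. -/
def evs (M K : ℕ) (V : Finset ℕ) : Finset ℕ :=
  (Icc 1 (K - 3)).filter (fun e => (Even e ∧ Nat.Coprime e M) ∧ e ∉ V)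

/-- **Exact accounting.** -/
theorem acct {n K M : ℕ} {V : Finset ℕ} (h : Cex n V) (hM : M = 2 * n + K) (hodd : Odd M)
    (hK3 : 3 ≤ K) (hKn : 4 * K ≤ n + 8) :
    2 * ((labL M V).card + (labD M K V).card + (labB M K V).card + 1) + (M.totient + 1) ≤
      M + 2 * (evs M K V).card := by
  classical
  obtain ⟨r, hr⟩ := id hodd
  have hn2 := h.two
  have h2M : Nat.Coprime 2 M := Nat.coprime_two_left.2 hodd
  -- the four sets
  set Bad := (Iu M).filter (fun X => (X ∉ V ∧ M - X ∉ V) ∧ ¬ (2 * X ∈ V ∧ M - 2 * X ∈ V)) with hBad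
  -- step 1 : the identity
  have hid : 2 * (labL M V).card + M.totient ≤ 2 * Bad.card + 2 * n := by
    have e1 : ∑ X ∈ Iu M, ((if X ∈ V then 1 else 0) + (if M - X ∈ V then 1 else 0)) =
        ∑ x ∈ Gu M, (if x ∈ V then 1 else 0) := sum_pairs hodd (fun x => if x ∈ V then 1 else 0)
    have e2 : ∑ x ∈ Gu M, (if x ∈ V then 1 else 0) ≤ n := by
      rw [← Finset.card_filter, ← h.card]
      exact Finset.card_le_card fun x hx => (mem_filter.1 hx).2
    obtain ⟨g, hg⟩ : ∃ g : ℕ → ℕ, g = fun x => if (x ∈ V ∧ M - x ∈ V) then 1 else 0 := ⟨_, rfl⟩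
    have e3 := sum_pairs hodd g
    have e4 := sum_dbl hodd g
    have e5 : ∑ X ∈ Iu M, (1 : ℕ) + ∑ X ∈ Iu M, 1 = M.totient := by
      have := sum_pairs hodd (fun _ => 1)
      rw [Finset.sum_add_distrib] at this
      rw [this, ← Finset.card_eq_sum_ones, card_Gu (by omega)]
    have e6 : ∑ X ∈ Iu M, (g X + g (M - X)) = 2 * ∑ X ∈ Iu M, g X := by
      rw [Finset.mul_sum]
      refine Finset.sum_congr rfl fun X hX => ?_
      obtain ⟨⟨h1, h2⟩, h3⟩ := (mem_Iu hodd).1 hX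
      have h4 : M - (M - X) = X := by omega
      rw [hg]
      simp only [h4]
      by_cases ha : X ∈ V <;> by_cases hb : M - X ∈ V <;> simp [ha, hb]
    have e7 : ∑ X ∈ Iu M, (g (2 * X) + g (M - 2 * X)) = 2 * ∑ X ∈ Iu M, g (2 * X) := by
      rw [Finset.mul_sum]
      refine Finset.sum_congr rfl fun X hX => ?_
      obtain ⟨⟨h1, h2⟩, h3⟩ := (mem_Iu hodd).1 hX
      have h4 : M - (M - 2 * X) = 2 * X := by omega
      rw [hg]
      simp only [h4]
      by_cases ha : 2 * X ∈ V <;> by_cases hb : M - 2 * X ∈ V <;> simp [ha, hb]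
    have e8 : ∑ X ∈ Iu M, g X = ∑ X ∈ Iu M, g (2 * X) := by omega
    have e9 : ∑ X ∈ Iu M, (if (X ∉ V ∧ M - X ∉ V) then 1 else 0) +
        ∑ X ∈ Iu M, ((if X ∈ V then 1 else 0) + (if M - X ∈ V then 1 else 0)) =
        ∑ X ∈ Iu M, 1 + ∑ X ∈ Iu M, g X := by
      rw [← Finset.sum_add_distrib, ← Finset.sum_add_distrib]
      refine Finset.sum_congr rfl fun X hX => ?_
      rw [hg]
      by_cases ha : X ∈ V <;> by_cases hb : M - X ∈ V <;> simp [ha, hb]
    have e10 : Bad.card + ∑ X ∈ Iu M, g (2 * X) =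
        (labL M V).card + ∑ X ∈ Iu M, (if (X ∉ V ∧ M - X ∉ V) then 1 else 0) := by
      rw [hBad, labL, Finset.card_filter, Finset.card_filter, ← Finset.sum_add_distrib,
        ← Finset.sum_add_distrib]
      refine Finset.sum_congr rfl fun X hX => ?_
      obtain ⟨⟨h1, h2⟩, h3⟩ := (mem_Iu hodd).1 hX
      have h4 : M - (M - 2 * X) = 2 * X := by omega
      rw [hg]
      by_cases ha : (X ∉ V ∧ M - X ∉ V) <;> by_cases hb : (2 * X ∈ V ∧ M - 2 * X ∈ V) <;>
        simp [ha, hb]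
    omega
  -- step 2 : the bad pairs
  set B1 := (Icc 1 (K - 3)).filter (fun X => Nat.Coprime X M ∧ X ∉ V ∧ M - 2 * X ∉ V) with hB1
  set B2 := (Icc 1 (K - 4)).filter (fun d => (Odd d ∧ Nat.Coprime d M) ∧
    ((M - d) / 2 ∉ V ∧ (M + d) / 2 ∉ V)) with hB2
  set Od := (Icc 1 (K - 4)).filter (fun d => (Odd d ∧ Nat.Coprime d M) ∧ d ∉ V) with hOd
  have hbad : Bad ⊆ B1 ∪ B2.image (fun d => (M - d) / 2) := by
    intro X hX
    obtain ⟨hXI, ⟨hX1, hX2⟩, hX3⟩ := mem_filter.1 hX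
    obtain ⟨⟨h1, h2⟩, h3⟩ := (mem_Iu hodd).1 hXI
    rw [mem_union]
    by_cases hXK : X < K
    · left
      have hd : 2 * X ∈ V := h.dbl (by omega) (Nat.coprime_comm.1 h3) (z := M) (by omega)
        (by omega) hX1
      have h4 : M - 2 * X ∉ V := fun hc => hX3 ⟨hd, hc⟩
      refine mem_filter.2 ⟨mem_Icc.2 ⟨h1, ?_⟩, h3, hX1, h4⟩
      by_contra hc
      push Not at hc
      have hcc : Nat.Coprime X (M - 2 * X) := by
        have h8 : M = (M - 2 * X) + 2 * X := by omega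
        rw [h8] at h3
        exact (Nat.coprime_add_mul_right_right X (M - 2 * X) 2).1 h3
      have h5 : X = K - 1 ∨ X = K - 2 := by omega
      rcases h5 with h5 | h5
      · exact h4 (h.refl1 (by omega) (by omega) (by omega) hcc hX1)
      · exact h4 (h.refl2 (by omega) (by omega) (by omega) hcc hX1)
    · right
      by_cases hXn : X ≤ n
      · exact absurd (h.exact hM hK3 hKn h3 (by omega) (by omega) hXn hX1 hX2) hX3
      · have h4 : X ≠ n + 1 := by
          intro hc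
          rw [hc] at hX1
          exact hX1 h.succ
        refine mem_image.2 ⟨M - 2 * X, mem_filter.2 ⟨mem_Icc.2 ⟨by omega, by omega⟩,
          ⟨⟨r - X, by omega⟩, cop_sub2 hodd h3 (by omega)⟩, ?_, ?_⟩, by omega⟩
        · have : (M - (M - 2 * X)) / 2 = X := by omega
          rwa [this]
        · have : (M + (M - 2 * X)) / 2 = M - X := by omega
          rwa [this]
  have hbc : Bad.card ≤ B1.card + B2.card := by
    have h1 := Finset.card_le_card hbad
    have h2 := Finset.card_union_le B1 (B2.image (fun d => (M - d) / 2))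
    have h3 : (B2.image (fun d => (M - d) / 2)).card ≤ B2.card := Finset.card_image_le
    omega
  -- step 3 : B1
  have hb1 : B1.card + (labB M K V).card ≤ (evs M K V).card + Od.card := by
    have hd : Disjoint B1 (labB M K V) := by
      rw [Finset.disjoint_left]
      intro X h1 h2
      exact (mem_filter.1 h1).2.2.2 (mem_filter.1 h2).2.2.2
    rw [← Finset.card_union_of_disjoint hd]
    refine (Finset.card_le_card ?_).trans (Finset.card_union_le _ _)
    intro X hX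
    have hX2 : (1 ≤ X ∧ X ≤ K - 3) ∧ Nat.Coprime X M ∧ X ∉ V := by
      rcases mem_union.1 hX with h1 | h1
      · obtain ⟨h2, h3, h4, h5⟩ := mem_filter.1 h1
        exact ⟨mem_Icc.1 h2, h3, h4⟩
      · obtain ⟨h2, h3, h4, h5⟩ := mem_filter.1 h1
        exact ⟨mem_Icc.1 h2, h3, h4⟩
    obtain ⟨⟨h1, h2⟩, h3, h4⟩ := hX2
    rw [mem_union]
    rcases Nat.even_or_odd X with h5 | h5
    · left
      exact mem_filter.2 ⟨mem_Icc.2 ⟨h1, h2⟩, ⟨h5, h3⟩, h4⟩
    · right
      refine mem_filter.2 ⟨mem_Icc.2 ⟨h1, ?_⟩, ⟨h5, h3⟩, h4⟩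
      obtain ⟨y, hy⟩ := h5
      omega
  -- step 4 : the odd part
  have hb2 : 2 * (Od.card + B2.card + (labD M K V).card) ≤ K - 3 := by
    have hd1 : Disjoint Od B2 := by
      rw [Finset.disjoint_left]
      intro e h1 h2
      obtain ⟨h3, ⟨h4, h5⟩, h6⟩ := mem_filter.1 h1
      obtain ⟨-, -, h7, h8⟩ := mem_filter.1 h2
      obtain ⟨h9, h10⟩ := mem_Icc.1 h3
      obtain ⟨y, hy⟩ := h4
      have h11 : e + (M - e) / 2 = (M + e) / 2 := by omega
      have hcc : Nat.Coprime e ((M - e) / 2) := by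
        have h12 : Nat.Coprime e (M - e) := by
          have h8 : M = (M - e) + e := by omega
          rw [h8] at h5
          exact Nat.coprime_add_self_right.1 h5
        exact Nat.Coprime.coprime_dvd_right ⟨2, by omega⟩ h12
      have h13 := h.tri (x := e) (y := (M - e) / 2) (by omega) (by omega) hcc (by omega)
        (by omega) ?_ h6 h7
      · rw [h11] at h13
        exact h8 h13
      · right
        exact ⟨by omega, Or.inr (by omega)⟩
    have hd2 : Disjoint (Od ∪ B2) (labD M K V) := by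
      rw [Finset.disjoint_left]
      intro e h1 h2
      obtain ⟨-, -, h3, h4⟩ := mem_filter.1 h2
      rcases mem_union.1 h1 with h5 | h5
      · exact (mem_filter.1 h5).2.2 h3
      · exact h4 (mem_filter.1 h5).2.2
    rw [← Finset.card_union_of_disjoint hd1, ← Finset.card_union_of_disjoint hd2]
    have hsub : (Od ∪ B2) ∪ labD M K V ⊆ (range ((K - 3) / 2)).image (fun i => 2 * i + 1) := by
      intro e he
      have h1 : e ∈ Icc 1 (K - 4) ∧ Odd e := by
        rcases mem_union.1 he with h5 | h5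
        · rcases mem_union.1 h5 with h6 | h6
          · exact ⟨(mem_filter.1 h6).1, (mem_filter.1 h6).2.1.1⟩
          · exact ⟨(mem_filter.1 h6).1, (mem_filter.1 h6).2.1.1⟩
        · exact ⟨(mem_filter.1 h5).1, (mem_filter.1 h5).2.1.1⟩
      obtain ⟨h2, y, hy⟩ := h1
      obtain ⟨h3, h4⟩ := mem_Icc.1 h2
      refine mem_image.2 ⟨y, mem_range.2 (by omega), by omega⟩
    have h1 : ((Od ∪ B2) ∪ labD M K V).card ≤ (range ((K - 3) / 2)).card :=
      (Finset.card_le_card hsub).trans Finset.card_image_le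
    rw [card_range] at h1
    omega
  omega

/-- Exact accounting, prime modulus. -/
theorem acct_prime {n K M : ℕ} {V : Finset ℕ} (h : Cex n V) (hM : M = 2 * n + K)
    (hp : Nat.Prime M) (hK3 : 3 ≤ K) (hKn : 4 * K ≤ n + 8) :
    (labL M V).card + (labD M K V).card + (labB M K V).card + 1 ≤ (evs M K V).card := by
  have h2 := h.two
  have h1 := acct h hM (hp.odd_of_ne_two (by omega)) hK3 hKn
  rw [Nat.totient_prime hp] at h1
  omega

/-- The lonely runner statement with speeds at most `2 n` holds if `2 n + 3` is prime. -/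
theorem no_of_prime3 {n : ℕ} {V : Finset ℕ} (h : Cex n V) (hp : Nat.Prime (2 * n + 3)) (hn : 4 ≤ n) :
    False := by
  have h1 := acct_prime h rfl hp le_rfl (by omega)
  have h2 : (evs (2 * n + 3) 3 V).card = 0 := by
    rw [Finset.card_eq_zero, evs]
    simp
  omega

end Pool.Agent.LR4
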