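import Mathlib
import Pool.Agent.LR4.Acct

/-!
Lonely runner with speeds at most `2 n`, large `n`: common definitions.

`Exc M V`: exceptional labels (lossy labels and nonunits). `InJ u M`: the window of the table.
`F1 M V Z`: at most `Z` odd speeds in the window. `Cnt M T1 T2`: the counting facts.
-/

namespace Pool.Agent.LR4

open Finset

/-- Nonunits modulo `M` in `[1, (M - 1) / 2]`. -/
def nuS (M : ℕ) : Finset ℕ := (Icc 1 ((M - 1) / 2)).filter (fun X => ¬ Nat.Coprime X M)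

/-- Exceptional labels. -/
def Exc (M : ℕ) (V : Finset ℕ) : Finset ℕ := labL M V ∪ nuS M

/-- `u / M` is in the window `J` of the table. -/
def InJ (u M : ℕ) : Prop :=
  (509 * M ≤ 1000 * u ∧ 1000 * u < 523 * M) ∨ (525 * M ≤ 1000 * u ∧ 1000 * u < 529 * M) ∨
  (530 * M ≤ 1000 * u ∧ 1000 * u < 537 * M) ∨ (539 * M ≤ 1000 * u ∧ 1000 * u < 555 * M) ∨
  (557 * M ≤ 1000 * u ∧ 1000 * u < 564 * M) ∨ (566 * M ≤ 1000 * u ∧ 1000 * u < 578 * M) ∨
  (587 * M ≤ 1000 * u ∧ 1000 * u < 599 * M) ∨ (601 * M ≤ 1000 * u ∧ 1000 * u < 612 * M) ∨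
  (613 * M ≤ 1000 * u ∧ 1000 * u < 635 * M) ∨ (652 * M ≤ 1000 * u ∧ 1000 * u < 666 * M) ∨
  (668 * M ≤ 1000 * u ∧ 1000 * u < 677 * M) ∨ (716 * M ≤ 1000 * u ∧ 1000 * u < 733 * M)

/-- There are at most `Z` odd speeds `u` in the window with `u + M` not divisible by `105`. -/
def F1 (M : ℕ) (V : Finset ℕ) (Z : ℕ) : Prop :=
  ∀ U : Finset ℕ, (∀ u ∈ U, u ∈ V ∧ u % 2 = 1 ∧ InJ u M ∧ ¬ 105 ∣ u + M) → U.card ≤ Z

/-- Numbers in a class modulo `8`, coprime to `m`, avoiding two classes modulo `7`. -/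
def cn1 (A B r m c d : ℕ) : Finset ℕ :=
  (Ico A B).filter (fun u => u % 8 = r % 8 ∧ Nat.Coprime u m ∧ u % 7 ≠ c ∧ u % 7 ≠ d)

/-- Numbers `u` in a class modulo `8`, coprime to `x`, with `S - u` coprime to `N`. -/
def cn2 (A B r x S N : ℕ) : Finset ℕ :=
  (Ico A B).filter (fun u => u % 8 = r % 8 ∧ Nat.Coprime u x ∧ Nat.Coprime (S - u) N)

/-- The counting facts: `T1` for one class per prime and intervals of length `0.0049 M`,
`T2` for two classes per prime and intervals of length `0.05 M`. -/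
structure Cnt (M T1 T2 : ℕ) : Prop where
  one : ∀ m r c d A B : ℕ, 0 < m → m ≤ M * M → (7 ∣ m → c = d) → r % 2 = 1 →
    10000 * A + 49 * M ≤ 10000 * B → B ≤ M → T1 ≤ (cn1 A B r m c d).card
  two : ∀ x N r S A B : ℕ, 0 < x → x < M → 0 < N → N < M → r % 2 = 1 → S % 2 = 0 → B ≤ S →
    S ≤ M → 100 * A + 5 * M ≤ 100 * B → T2 ≤ (cn2 A B r x S N).card

/-- The rule for labels which are not exceptional. -/
theorem exc_rule {M X : ℕ} {V : Finset ℕ} (hX1 : 1 ≤ X) (hX2 : 2 * X < M)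
    (h1 : 2 * X ∈ V) (h2 : M - 2 * X ∈ V) (h3 : X ∉ Exc M V) : X ∉ V ∧ M - X ∉ V := by
  rw [Exc, mem_union, not_or] at h3
  obtain ⟨h4, h5⟩ := h3
  by_contra h6
  apply h4
  rw [labL, mem_filter]
  refine ⟨?_, ⟨h1, h2⟩, h6⟩
  rw [Iu, mem_filter, mem_Icc]
  refine ⟨⟨hX1, by omega⟩, ?_⟩
  by_contra h7
  apply h5
  rw [nuS, mem_filter, mem_Icc]
  exact ⟨⟨hX1, by omega⟩, h7⟩

/-- A finite set covered by preimages of `Ex` under two injections. -/
theorem cover2 {S Ex : Finset ℕ} {f g : ℕ → ℕ} (hf : Set.InjOn f S) (hg : Set.InjOn g S)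
    (h : ∀ u ∈ S, f u ∈ Ex ∨ g u ∈ Ex) : S.card ≤ 2 * Ex.card := by
  classical
  have h1 : (S.filter (fun u => f u ∈ Ex)).card ≤ Ex.card :=
    Finset.card_le_card_of_injOn f (fun u hu => (mem_filter.1 hu).2)
      (hf.mono (fun u hu => (mem_filter.1 hu).1))
  have h2 : (S.filter (fun u => g u ∈ Ex)).card ≤ Ex.card :=
    Finset.card_le_card_of_injOn g (fun u hu => (mem_filter.1 hu).2)
      (hg.mono (fun u hu => (mem_filter.1 hu).1))
  have h3 : S ⊆ S.filter (fun u => f u ∈ Ex) ∪ S.filter (fun u => g u ∈ Ex) := by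
    intro u hu
    rw [mem_union, mem_filter, mem_filter]
    rcases h u hu with h4 | h4
    · exact Or.inl ⟨hu, h4⟩
    · exact Or.inr ⟨hu, h4⟩
  have h4 := (Finset.card_le_card h3).trans (Finset.card_union_le _ _)
  omega

/-- A finite set covered by preimages of `Ex` under three injections. -/
theorem cover3 {S Ex : Finset ℕ} {f g k : ℕ → ℕ} (hf : Set.InjOn f S) (hg : Set.InjOn g S)
    (hk : Set.InjOn k S) (h : ∀ u ∈ S, f u ∈ Ex ∨ g u ∈ Ex ∨ k u ∈ Ex) :
    S.card ≤ 3 * Ex.card := by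
  classical
  have h1 : (S.filter (fun u => f u ∈ Ex)).card ≤ Ex.card :=
    Finset.card_le_card_of_injOn f (fun u hu => (mem_filter.1 hu).2)
      (hf.mono (fun u hu => (mem_filter.1 hu).1))
  have h2 : (S.filter (fun u => g u ∈ Ex)).card ≤ Ex.card :=
    Finset.card_le_card_of_injOn g (fun u hu => (mem_filter.1 hu).2)
      (hg.mono (fun u hu => (mem_filter.1 hu).1))
  have h5 : (S.filter (fun u => k u ∈ Ex)).card ≤ Ex.card :=
    Finset.card_le_card_of_injOn k (fun u hu => (mem_filter.1 hu).2)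
      (hk.mono (fun u hu => (mem_filter.1 hu).1))
  have h3 : S ⊆ (S.filter (fun u => f u ∈ Ex) ∪ S.filter (fun u => g u ∈ Ex)) ∪
      S.filter (fun u => k u ∈ Ex) := by
    intro u hu
    rw [mem_union, mem_union, mem_filter, mem_filter, mem_filter]
    rcases h u hu with h4 | h4 | h4
    · exact Or.inl (Or.inl ⟨hu, h4⟩)
    · exact Or.inl (Or.inr ⟨hu, h4⟩)
    · exact Or.inr ⟨hu, h4⟩
  have h4 := (Finset.card_le_card h3).trans (Finset.card_union_le _ _)
  have h6 := Finset.card_union_le (S.filter (fun u => f u ∈ Ex)) (S.filter (fun u => g u ∈ Ex))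
  omega

end Pool.Agent.LR4
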