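import Mathlib
import Pool.Agent.LR4.R3Defs

/-!
Lonely runner with speeds at most `2 n`, large `n`: all even numbers up to `0.48 M` are speeds.

`stepA`: even numbers up to `0.21 M`; `stepF`: multiples of four; `stepB`: even numbers up to
`0.48 M`; `ab`: the conclusion.
-/

namespace Pool.Agent.LR4

open Finset

section ab

variable {n K M : ℕ} {V : Finset ℕ}

theorem stepA (h : Cex n V) (hM : M = 2 * n + K) (hKM : 1000 * K ≤ M) (hM0 : 10 ^ 6 ≤ M)
    {Z T1 T2 : ℕ} (hF : F1 M V Z) (hC : Cnt M T1 T2) (h1 : Z < 2 * T1) (a b c d : ℕ)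
    (hJ1 : ∀ u, a * M ≤ 1000 * u → 1000 * u < b * M → InJ u M)
    (hJ2 : ∀ u, c * M ≤ 1000 * u → 1000 * u < d * M → InJ u M) (ha : 508 ≤ a) (hb : b ≤ 733)
    (hd : d ≤ 733) (hab : a + 5 ≤ b) (hcd : c + 5 ≤ d) {q : ℕ} (hq0 : 0 < q) (hq2 : q % 2 = 0)
    (hq3 : c * M + 5 * M ≤ b * M + 1000 * q) (hq4 : a * M + 5 * M + 1000 * q ≤ d * M) :
    q ∈ V := by
  by_contra hqV
  have i1 : 508 * M ≤ a * M := Nat.mul_le_mul_right _ ha
  have i2 : b * M ≤ 733 * M := Nat.mul_le_mul_right _ hb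
  have i3 : d * M ≤ 733 * M := Nat.mul_le_mul_right _ hd
  have i4 : a * M + 5 * M ≤ b * M := by
    rw [← Nat.add_mul]; exact Nat.mul_le_mul_right _ hab
  have i5 : c * M + 5 * M ≤ d * M := by
    rw [← Nat.add_mul]; exact Nat.mul_le_mul_right _ hcd
  obtain ⟨Pa, hPa⟩ : ∃ P, P = a * M := ⟨_, rfl⟩
  obtain ⟨Pb, hPb⟩ : ∃ P, P = b * M := ⟨_, rfl⟩
  obtain ⟨Pc, hPc⟩ : ∃ P, P = c * M := ⟨_, rfl⟩
  obtain ⟨Pd, hPd⟩ : ∃ P, P = d * M := ⟨_, rfl⟩
  rw [← hPa] at hJ1 hq4 i1 i4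
  rw [← hPb] at hJ1 hq3 i2 i4
  rw [← hPc] at hJ2 hq3 i5
  rw [← hPd] at hJ2 hq4 i3 i5
  obtain ⟨A, hA⟩ : ∃ A, A = max (Pa / 1000 + 1) (Pc / 1000 + 1 - q) := ⟨_, rfl⟩
  obtain ⟨B, hB⟩ : ∃ B, B = min (Pb / 1000) (Pd / 1000 - q) := ⟨_, rfl⟩
  have hlen : 10000 * A + 49 * M ≤ 10000 * B := by omega
  have hBM : B ≤ M := by omega
  obtain ⟨S, hS⟩ : ∃ S, S = (Ico A B).filter (fun u => u % 2 = 1 ∧ Nat.Coprime u q ∧
    u % 7 ≠ (6 * M) % 7 ∧ u % 7 ≠ (6 * M + 6 * q) % 7) := ⟨_, rfl⟩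
  have hMM : q ≤ M * M := by
    have : M * 1 ≤ M * M := Nat.mul_le_mul_left _ (by omega)
    omega
  have hone : ∀ r, r % 2 = 1 → r < 8 → T1 ≤ (S.filter (fun u => u % 8 = r)).card := by
    intro r hr hr8
    have h2 := hC.one q r ((6 * M) % 7) ((6 * M + 6 * q) % 7) A B hq0 hMM
      (by rintro ⟨k, hk⟩; omega) hr hlen hBM
    refine h2.trans (Finset.card_le_card ?_)
    intro u hu
    rw [cn1, mem_filter] at hu
    obtain ⟨h3, h4, h5, h6, h7⟩ := hu
    rw [mem_filter, hS, mem_filter]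
    exact ⟨⟨h3, by omega, h5, h6, h7⟩, by omega⟩
  have hcard : 4 * T1 ≤ S.card := by
    have h2 : S.card = ∑ r ∈ range 8, (S.filter (fun u => u % 8 = r)).card :=
      Finset.card_eq_sum_card_fiberwise (fun u _ => Finset.mem_coe.2 (mem_range.2
        (Nat.mod_lt _ (by norm_num))))
    rw [h2]
    simp only [Finset.sum_range_succ, Finset.sum_range_zero]
    have g1 := hone 1 (by norm_num) (by norm_num)
    have g3 := hone 3 (by norm_num) (by norm_num)
    have g5 := hone 5 (by norm_num) (by norm_num)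
    have g7 := hone 7 (by norm_num) (by norm_num)
    omega
  have hmem : ∀ u ∈ S, (A ≤ u ∧ u < B) ∧ u % 2 = 1 ∧ Nat.Coprime u q ∧
      u % 7 ≠ (6 * M) % 7 ∧ u % 7 ≠ (6 * M + 6 * q) % 7 := by
    intro u hu
    rw [hS, mem_filter, mem_Ico] at hu
    exact hu
  have hs1 : (S.filter (fun u => u ∈ V)).card ≤ Z := by
    refine hF _ ?_
    intro u hu
    obtain ⟨h2, h3⟩ := mem_filter.1 hu
    obtain ⟨h4, h5, h6, h7, h8⟩ := hmem u h2
    refine ⟨h3, h5, hJ1 u (by omega) (by omega), ?_⟩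
    rintro ⟨k, hk⟩
    omega
  have hs2 : (S.filter (fun u => u + q ∈ V)).card ≤ Z := by
    have h2 : ((S.filter (fun u => u + q ∈ V)).image (fun u => u + q)).card =
        (S.filter (fun u => u + q ∈ V)).card :=
      Finset.card_image_of_injective _ (add_left_injective q)
    rw [← h2]
    refine hF _ ?_
    intro w hw
    obtain ⟨u, hu, rfl⟩ := mem_image.1 hw
    obtain ⟨h2, h3⟩ := mem_filter.1 hu
    obtain ⟨h4, h5, h6, h7, h8⟩ := hmem u h2
    refine ⟨h3, by omega, hJ2 (u + q) (by omega) (by omega), ?_⟩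
    rintro ⟨k, hk⟩
    omega
  have hsub : S ⊆ S.filter (fun u => u ∈ V) ∪ S.filter (fun u => u + q ∈ V) := by
    intro u hu
    rw [mem_union, mem_filter, mem_filter]
    by_cases h2 : u ∈ V
    · exact Or.inl ⟨hu, h2⟩
    · refine Or.inr ⟨hu, ?_⟩
      obtain ⟨h4, h5, h6, h7, h8⟩ := hmem u hu
      have h9 := h.tri (x := q) (y := u) hq0 (by omega) (Nat.coprime_comm.1 h6) (by omega)
        (by omega) (Or.inr ⟨by omega, Or.inr (by omega)⟩) hqV h2
      rwa [Nat.add_comm] at h9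
  have hle := (Finset.card_le_card hsub).trans (Finset.card_union_le _ _)
  omega

theorem stepA_all (h : Cex n V) (hM : M = 2 * n + K) (hKM : 1000 * K ≤ M) (hM0 : 10 ^ 6 ≤ M)
    {Z T1 T2 : ℕ} (hF : F1 M V Z) (hC : Cnt M T1 T2) (h1 : Z < 2 * T1) {q : ℕ} (hq0 : 0 < q)
    (hq2 : q % 2 = 0) (hq : 1000 * q ≤ 210 * M) : q ∈ V := by
  have j1 : ∀ u, 509 * M ≤ 1000 * u → 1000 * u < 523 * M → InJ u M := by
    intro u h2 h3; unfold InJ; omega
  have j2 : ∀ u, 530 * M ≤ 1000 * u → 1000 * u < 537 * M → InJ u M := by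
    intro u h2 h3; unfold InJ; omega
  have j3 : ∀ u, 539 * M ≤ 1000 * u → 1000 * u < 555 * M → InJ u M := by
    intro u h2 h3; unfold InJ; omega
  have j4 : ∀ u, 557 * M ≤ 1000 * u → 1000 * u < 564 * M → InJ u M := by
    intro u h2 h3; unfold InJ; omega
  have j5 : ∀ u, 566 * M ≤ 1000 * u → 1000 * u < 578 * M → InJ u M := by
    intro u h2 h3; unfold InJ; omega
  have j6 : ∀ u, 587 * M ≤ 1000 * u → 1000 * u < 599 * M → InJ u M := by
    intro u h2 h3; unfold InJ; omega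
  have j7 : ∀ u, 601 * M ≤ 1000 * u → 1000 * u < 612 * M → InJ u M := by
    intro u h2 h3; unfold InJ; omega
  have j8 : ∀ u, 613 * M ≤ 1000 * u → 1000 * u < 635 * M → InJ u M := by
    intro u h2 h3; unfold InJ; omega
  have j9 : ∀ u, 652 * M ≤ 1000 * u → 1000 * u < 666 * M → InJ u M := by
    intro u h2 h3; unfold InJ; omega
  have j10 : ∀ u, 668 * M ≤ 1000 * u → 1000 * u < 677 * M → InJ u M := by
    intro u h2 h3; unfold InJ; omega
  have j11 : ∀ u, 716 * M ≤ 1000 * u → 1000 * u < 733 * M → InJ u M := by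
    intro u h2 h3; unfold InJ; omega
  by_cases c1 : 1000 * q ≤ 17 * M
  · exact stepA h hM hKM hM0 hF hC h1 613 635 613 635 j8 j8 (by norm_num) (by norm_num)
      (by norm_num) (by norm_num) (by norm_num) hq0 hq2 (by omega) (by omega)
  by_cases c2 : 1000 * q ≤ 34 * M
  · exact stepA h hM hKM hM0 hF hC h1 539 555 566 578 j3 j5 (by norm_num) (by norm_num)
      (by norm_num) (by norm_num) (by norm_num) hq0 hq2 (by omega) (by omega)
  by_cases c3 : 1000 * q ≤ 48 * M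
  · exact stepA h hM hKM hM0 hF hC h1 613 635 652 666 j8 j9 (by norm_num) (by norm_num)
      (by norm_num) (by norm_num) (by norm_num) hq0 hq2 (by omega) (by omega)
  by_cases c4 : 1000 * q ≤ 64 * M
  · exact stepA h hM hKM hM0 hF hC h1 566 578 613 635 j5 j8 (by norm_num) (by norm_num)
      (by norm_num) (by norm_num) (by norm_num) hq0 hq2 (by omega) (by omega)
  by_cases c5 : 1000 * q ≤ 91 * M
  · exact stepA h hM hKM hM0 hF hC h1 539 555 613 635 j3 j8 (by norm_num) (by norm_num)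
      (by norm_num) (by norm_num) (by norm_num) hq0 hq2 (by omega) (by omega)
  by_cases c6 : 1000 * q ≤ 115 * M
  · exact stepA h hM hKM hM0 hF hC h1 613 635 716 733 j8 j11 (by norm_num) (by norm_num)
      (by norm_num) (by norm_num) (by norm_num) hq0 hq2 (by omega) (by omega)
  by_cases c7 : 1000 * q ≤ 127 * M
  · exact stepA h hM hKM hM0 hF hC h1 601 612 716 733 j7 j11 (by norm_num) (by norm_num)
      (by norm_num) (by norm_num) (by norm_num) hq0 hq2 (by omega) (by omega)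
  by_cases c8 : 1000 * q ≤ 141 * M
  · exact stepA h hM hKM hM0 hF hC h1 587 599 716 733 j6 j11 (by norm_num) (by norm_num)
      (by norm_num) (by norm_num) (by norm_num) hq0 hq2 (by omega) (by omega)
  by_cases c9 : 1000 * q ≤ 152 * M
  · exact stepA h hM hKM hM0 hF hC h1 509 523 652 666 j1 j9 (by norm_num) (by norm_num)
      (by norm_num) (by norm_num) (by norm_num) hq0 hq2 (by omega) (by omega)
  by_cases c10 : 1000 * q ≤ 163 * M
  · exact stepA h hM hKM hM0 hF hC h1 509 523 668 677 j1 j10 (by norm_num) (by norm_num)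
      (by norm_num) (by norm_num) (by norm_num) hq0 hq2 (by omega) (by omega)
  by_cases c11 : 1000 * q ≤ 171 * M
  · exact stepA h hM hKM hM0 hF hC h1 557 564 716 733 j4 j11 (by norm_num) (by norm_num)
      (by norm_num) (by norm_num) (by norm_num) hq0 hq2 (by omega) (by omega)
  by_cases c12 : 1000 * q ≤ 189 * M
  · exact stepA h hM hKM hM0 hF hC h1 539 555 716 733 j3 j11 (by norm_num) (by norm_num)
      (by norm_num) (by norm_num) (by norm_num) hq0 hq2 (by omega) (by omega)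
  by_cases c13 : 1000 * q ≤ 198 * M
  · exact stepA h hM hKM hM0 hF hC h1 530 537 716 733 j2 j11 (by norm_num) (by norm_num)
      (by norm_num) (by norm_num) (by norm_num) hq0 hq2 (by omega) (by omega)
  exact stepA h hM hKM hM0 hF hC h1 509 523 716 733 j1 j11 (by norm_num) (by norm_num)
    (by norm_num) (by norm_num) (by norm_num) hq0 hq2 (by omega) (by omega)

theorem stepF (hM0 : 10 ^ 6 ≤ M) (hA : ∀ q, q % 2 = 0 → 0 < q → 1000 * q ≤ 210 * M → q ∈ V)
    {z : ℕ} (hz4 : z % 4 = 0) (hz0 : 0 < z) (hz : 1000 * z ≤ 210 * M) (hzE : z / 2 ∉ Exc M V) :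
    M - z ∉ V := by
  intro h1
  have e1 : 2 * (z / 2) = z := by omega
  have h2 := exc_rule (V := V) (X := z / 2) (by omega) (by omega)
    (by rw [e1]; exact hA z (by omega) hz0 hz) (by rw [e1]; exact h1) hzE
  exact h2.1 (hA _ (by omega) (by omega) (by omega))

theorem stepB (h : Cex n V) (hM : M = 2 * n + K) (hKM : 1000 * K ≤ M) (hodd : M % 2 = 1)
    (hM0 : 10 ^ 6 ≤ M) {Z E T1 T2 : ℕ} (hF : F1 M V Z) (hE : (Exc M V).card ≤ E)
    (hC : Cnt M T1 T2) (h1 : Z + E < 2 * T1)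
    (hA : ∀ q, q % 2 = 0 → 0 < q → 1000 * q ≤ 210 * M → q ∈ V) (a b : ℕ)
    (hJ1 : ∀ u, a * M ≤ 1000 * u → 1000 * u < b * M → InJ u M) (ha : 508 ≤ a) (hab : a + 7 ≤ b)
    {q : ℕ} (hq0 : 0 < q) (hq2 : q % 2 = 0) (_hq480 : 1000 * q ≤ 480 * M)
    (hq3 : b * M + 1000 * q ≤ 999 * M) (hq4 : 790 * M ≤ a * M + 1000 * q)
    (hq5 : 1001 * M ≤ a * M + 2000 * q) : q ∈ V := by
  by_contra hqV
  have i1 : 508 * M ≤ a * M := Nat.mul_le_mul_right _ ha
  have i4 : a * M + 7 * M ≤ b * M := by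
    rw [← Nat.add_mul]; exact Nat.mul_le_mul_right _ hab
  obtain ⟨Pa, hPa⟩ : ∃ P, P = a * M := ⟨_, rfl⟩
  obtain ⟨Pb, hPb⟩ : ∃ P, P = b * M := ⟨_, rfl⟩
  rw [← hPa] at hJ1 hq4 hq5 i1 i4
  rw [← hPb] at hJ1 hq3 i4
  obtain ⟨A, hA'⟩ : ∃ A, A = Pa / 1000 + 1 := ⟨_, rfl⟩
  obtain ⟨B, hB⟩ : ∃ B, B = Pb / 1000 := ⟨_, rfl⟩
  have hlen : 10000 * A + 49 * M ≤ 10000 * B := by omega
  have hBM : B ≤ M := by omega
  obtain ⟨S, hS⟩ : ∃ S, S = (Ico A B).filter (fun u => u % 4 = (M + 3 * q) % 4 ∧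
    Nat.Coprime u q ∧ u % 7 ≠ (6 * M) % 7) := ⟨_, rfl⟩
  have hMM : q ≤ M * M := by
    have : M * 1 ≤ M * M := Nat.mul_le_mul_left _ (by omega)
    omega
  have hone : ∀ r, r % 4 = (M + 3 * q) % 4 → r < 8 →
      T1 ≤ (S.filter (fun u => u % 8 = r)).card := by
    intro r hr hr8
    have h2 := hC.one q r ((6 * M) % 7) ((6 * M) % 7) A B hq0 hMM (fun _ => rfl)
      (by omega) hlen hBM
    refine h2.trans (Finset.card_le_card ?_)
    intro u hu
    rw [cn1, mem_filter] at hu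
    obtain ⟨h3, h4, h5, h6, h7⟩ := hu
    rw [mem_filter, hS, mem_filter]
    exact ⟨⟨h3, by omega, h5, h6⟩, by omega⟩
  have hcard : 2 * T1 ≤ S.card := by
    obtain ⟨r, hr⟩ : ∃ r, r = (M + 3 * q) % 4 := ⟨_, rfl⟩
    have g1 := hone r (by omega) (by omega)
    have g2 := hone (r + 4) (by omega) (by omega)
    have g3 : Disjoint (S.filter (fun u => u % 8 = r)) (S.filter (fun u => u % 8 = r + 4)) := by
      rw [Finset.disjoint_left]
      intro u hu hv
      have h2 := (mem_filter.1 hu).2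
      have h3 := (mem_filter.1 hv).2
      omega
    have g4 : (S.filter (fun u => u % 8 = r)) ∪ (S.filter (fun u => u % 8 = r + 4)) ⊆ S :=
      Finset.union_subset (Finset.filter_subset _ _) (Finset.filter_subset _ _)
    have g5 := Finset.card_le_card g4
    rw [Finset.card_union_of_disjoint g3] at g5
    omega
  have hmem : ∀ u ∈ S, (A ≤ u ∧ u < B) ∧ u % 4 = (M + 3 * q) % 4 ∧ Nat.Coprime u q ∧
      u % 7 ≠ (6 * M) % 7 := by
    intro u hu
    rw [hS, mem_filter, mem_Ico] at hu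
    exact hu
  have hs1 : (S.filter (fun u => u ∈ V)).card ≤ Z := by
    refine hF _ ?_
    intro u hu
    obtain ⟨h2, h3⟩ := mem_filter.1 hu
    obtain ⟨h4, h5, h6, h7⟩ := hmem u h2
    refine ⟨h3, by omega, hJ1 u (by omega) (by omega), ?_⟩
    rintro ⟨k, hk⟩
    omega
  have hs2 : (S.filter (fun u => (M - q - u) / 2 ∈ Exc M V)).card ≤ (Exc M V).card := by
    refine Finset.card_le_card_of_injOn (fun u => (M - q - u) / 2)
      (fun u hu => (mem_filter.1 hu).2) ?_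
    intro u hu v hv huv
    obtain ⟨h3, h4, -⟩ := hmem u (mem_filter.1 hu).1
    obtain ⟨h5, h6, -⟩ := hmem v (mem_filter.1 hv).1
    simp only at huv
    omega
  have hsub : S ⊆ S.filter (fun u => u ∈ V) ∪
      S.filter (fun u => (M - q - u) / 2 ∈ Exc M V) := by
    intro u hu
    rw [mem_union, mem_filter, mem_filter]
    by_cases h2 : u ∈ V
    · exact Or.inl ⟨hu, h2⟩
    · refine Or.inr ⟨hu, ?_⟩
      obtain ⟨h4, h5, h6, h7⟩ := hmem u hu
      have h9 := h.tri (x := q) (y := u) hq0 (by omega) (Nat.coprime_comm.1 h6) (by omega)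
        (by omega) (Or.inr ⟨by omega, Or.inl (by omega)⟩) hqV h2
      by_contra h10
      have h11 := stepF (z := M - q - u) hM0 hA (by omega) (by omega) (by omega) h10
      have e1 : M - (M - q - u) = q + u := by omega
      rw [e1] at h11
      exact h11 h9
  have hle := (Finset.card_le_card hsub).trans (Finset.card_union_le _ _)
  omega

/-- All even numbers up to `0.48 M` are speeds. -/
theorem ab (h : Cex n V) (hM : M = 2 * n + K) (hodd : Odd M) (_hK3 : 3 ≤ K)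
    (hKM : 1000 * K ≤ M) (hM0 : 10 ^ 6 ≤ M) {Z E T1 T2 : ℕ} (hF : F1 M V Z)
    (hE : (Exc M V).card ≤ E) (hC : Cnt M T1 T2) (h1 : Z + E < 2 * T1) :
    ∀ q, q % 2 = 0 → 0 < q → 100 * q ≤ 48 * M → q ∈ V := by
  have hodd2 : M % 2 = 1 := Nat.odd_iff.1 hodd
  have hA : ∀ q, q % 2 = 0 → 0 < q → 1000 * q ≤ 210 * M → q ∈ V := fun q h2 h3 h4 =>
    stepA_all h hM (by omega) hM0 hF hC (by omega) h3 h2 h4
  intro q hq2 hq0 hq
  by_cases c1 : 1000 * q ≤ 210 * M
  · exact hA q hq2 hq0 c1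
  by_cases c2 : 1000 * q ≤ 360 * M
  · exact stepB h hM (by omega) hodd2 hM0 hF hE hC h1 hA 613 630
      (by intro u h2 h3; unfold InJ; omega) (by norm_num) (by norm_num) hq0 hq2 (by omega)
      (by omega) (by omega) (by omega)
  · exact stepB h hM (by omega) hodd2 hM0 hF hE hC h1 hA 509 519
      (by intro u h2 h3; unfold InJ; omega) (by norm_num) (by norm_num) hq0 hq2 (by omega)
      (by omega) (by omega) (by omega)

end ab

end Pool.Agent.LR4
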