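import Mathlib
import Pool.Agent.LR3.Bohr

/-!
Lonely runner with speeds at most `2 n`: exact accounting at a prime `M = 2 n + K`. `L` is the set
of the even `y` such that `y` and `M - y` are speeds but not both halves (`y / 2` and `M - y / 2`)
are non-speeds, `R` is the set of the non-speeds `x ≤ K - 3` such that `M - 2 x` is a speed, `D` is
the set of the odd speeds `e ≤ K - 4` such that `(M - e) / 2` or `(M + e) / 2` is a speed, and `E`
is the set of the even non-speeds `≤ K - 3`. Then `card L + card R + card D + 1 ≤ card E`.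
-/

namespace Pool.Agent.LR4

open Finset Pool.Agent.LR2 Pool.Agent.LR3

/-- Two coprime non-speeds do not add up to `2 n + 2`. -/
theorem refl2 {n : ℕ} {V : Finset ℕ} (hV : ∀ x ∈ V, 1 ≤ x ∧ x ≤ 2 * n)
    (hno : ∀ t : ℝ, ∃ x ∈ V, ∃ k : ℤ, |t * (x : ℝ) - (k : ℝ)| < (1 : ℝ) / ((n : ℝ) + 1))
    {x y : ℕ} (hxy : x + y = 2 * n + 2) (hc : Nat.Coprime x y) (hx : x ∉ V) : y ∈ V := by
  have hcs : Nat.Coprime x (2 * n + 2) := by
    rw [← hxy]; simpa using hc
  obtain ⟨a, m, ham⟩ := CONS_bez hcs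
  push_cast at ham
  obtain ⟨z, hz, k, hk⟩ := CONS_rat hno a (2 * n + 2) 2 (by positivity) (by linarith)
  obtain ⟨hz1, hz2⟩ := hV z hz
  obtain ⟨ρ, hρ⟩ : ∃ ρ : ℤ, a * z - k * (2 * n + 2) = ρ := ⟨_, rfl⟩
  have hd := CONS_inv ham hρ
  rw [hρ, abs_lt] at hk
  have h3 : ρ = 0 ∨ ρ = 1 ∨ ρ = -1 := by omega
  have hs0 : (0 : ℤ) < 2 * n + 2 := by positivity
  have hx2 : x ≤ 2 * n + 2 := by omega
  rcases h3 with rfl | rfl | rfl
  · exfalso
    have := CONS_mul hs0 hd (by omega) (by omega)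
    omega
  · exfalso
    have := CONS_mul hs0 hd (by omega) (by omega)
    have h5 : z = x := by omega
    exact hx (h5 ▸ hz)
  · have hd2 : (2 * (n : ℤ) + 2) ∣ (z : ℤ) - y := by
      have h4 : (z : ℤ) - y = (z - -1 * x) - (2 * n + 2) := by
        have : (x : ℤ) + y = 2 * n + 2 := by exact_mod_cast hxy
        linarith
      rw [h4]
      exact dvd_sub_self_right.2 hd
    have := CONS_mul hs0 hd2 (by omega) (by omega)
    have h5 : z = y := by omega
    exact h5 ▸ hz

/-- Doubling at `M`: if `x ≤ n` and `M - x` are non-speeds then `2 x` is a speed. -/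
theorem dblM {n : ℕ} {V : Finset ℕ} (hn : 2 ≤ n) (hV : ∀ x ∈ V, 1 ≤ x ∧ x ≤ 2 * n)
    (hcard : V.card = n)
    (hno : ∀ t : ℝ, ∃ x ∈ V, ∃ k : ℤ, |t * (x : ℝ) - (k : ℝ)| < (1 : ℝ) / ((n : ℝ) + 1))
    {M K x : ℕ} (hM : M.Prime) (hMK : M = 2 * n + K) (hK1 : 3 ≤ K) (hK2 : K ≤ n)
    (hKn : 3 * ((2 * n + K) * (K - 2)) ≤ (2 * n + 3 * K) * (n + 3 - K))
    (h0 : 0 < x) (hxn : x ≤ n) (hx : x ∉ V) (hx' : M - x ∉ V) : 2 * x ∈ V := by
  have hcop : Nat.Coprime x M :=
    (Nat.Prime.coprime_iff_not_dvd hM |>.2 (Nat.not_dvd_of_pos_of_lt h0 (by omega))).symm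
  by_cases h3 : 2 * n < 3 * x
  · have hS := CONS n V hn hV hcard hno
    have hxW : x ∈ (Icc 1 (2 * n)) \ V := by
      rw [mem_sdiff, mem_Icc]; exact ⟨⟨by omega, by omega⟩, hx⟩
    have h4 := hS.dblHigh x h3 hxn hxW
    rw [mem_sdiff, mem_Icc] at h4
    by_contra hc
    exact h4 ⟨⟨by omega, by omega⟩, hc⟩
  · push Not at h3
    have hodd : 2 * (M - x) % M = M - 2 * x := by
      have h5 : 2 * (M - x) = (M - 2 * x) + M := by omega
      rw [h5, Nat.add_mod_right, Nat.mod_eq_of_lt (by omega)]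
    have hKK : M * (M - 2 * (n + 1)) ≤ (M - 2 * x) * (3 * (n + 1) - M) := by
      have e1 : M - 2 * (n + 1) = K - 2 := by omega
      have e2 : 3 * (n + 1) - M = n + 3 - K := by omega
      rw [e1, e2]
      have hu2 : 2 * n + 3 * K ≤ 3 * (M - 2 * x) := by omega
      have h7 : 3 * (M * (K - 2)) ≤ 3 * ((M - 2 * x) * (n + 3 - K)) := by
        calc 3 * (M * (K - 2)) = 3 * ((2 * n + K) * (K - 2)) := by rw [hMK]
          _ ≤ (2 * n + 3 * K) * (n + 3 - K) := hKn
          _ ≤ (3 * (M - 2 * x)) * (n + 3 - K) := Nat.mul_le_mul_right _ hu2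
          _ = 3 * ((M - 2 * x) * (n + 3 - K)) := by ring
      omega
    have h6 := bohr hV hno (M := M) (K := M - 2 * x) (X := M - x) (by omega) (by omega) hKK
      ((Nat.coprime_self_sub_left (by omega)).2 hcop) (by omega) (by omega) hx'
      (by rwa [Nat.sub_sub_self (by omega)]) (by rw [hodd])
    rw [hodd, Nat.sub_sub_self (by omega)] at h6
    exact h6

/-- If `x` and `M - x` are non-speeds, `x ≤ n`, then `M - 2 x` is a speed (for `x ≥ K`). -/
theorem triM {n : ℕ} {V : Finset ℕ} (hn : 2 ≤ n) (hV : ∀ x ∈ V, 1 ≤ x ∧ x ≤ 2 * n)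
    (hcard : V.card = n)
    (hno : ∀ t : ℝ, ∃ x ∈ V, ∃ k : ℤ, |t * (x : ℝ) - (k : ℝ)| < (1 : ℝ) / ((n : ℝ) + 1))
    {M K x : ℕ} (hM : M.Prime) (hMK : M = 2 * n + K)
    (h0 : K ≤ x) (hK1 : 3 ≤ K) (hxn : x ≤ n) (hx : x ∉ V) (hx' : M - x ∉ V) :
    M - 2 * x ∈ V := by
  have hS := CONS n V hn hV hcard hno
  have hmem : ∀ z, z ∈ (Icc 1 (2 * n)) \ V ↔ (1 ≤ z ∧ z ≤ 2 * n) ∧ z ∉ V := by
    intro z; simp
  have hcop : Nat.Coprime x M :=
    (Nat.Prime.coprime_iff_not_dvd hM |>.2
      (Nat.not_dvd_of_pos_of_lt (by omega) (by omega))).symm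
  have hc2 : Nat.Coprime x (M - 2 * x) := by
    have h1 : Nat.Coprime x (M - 2 * x + 2 * x) := by
      rw [Nat.sub_add_cancel (by omega)]; exact hcop
    have h2 : Nat.gcd x (M - 2 * x + 2 * x) = Nat.gcd x (M - 2 * x) :=
      Nat.gcd_add_mul_right_right x (M - 2 * x) 2
    unfold Nat.Coprime at h1 ⊢
    rw [← h2]; exact h1
  have hsum : x + (M - 2 * x) = M - x := by omega
  by_contra hc
  have hxW := (hmem x).2 ⟨⟨by omega, by omega⟩, hx⟩
  have hyW := (hmem (M - 2 * x)).2 ⟨⟨by omega, by omega⟩, hc⟩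
  have hsW := (hmem (M - x)).2 ⟨⟨by omega, by omega⟩, hx'⟩
  rcases lt_trichotomy x (M - 2 * x) with h | h | h
  · refine hS.tri x (M - 2 * x) h hc2 (by omega) (by omega) ?_ hxW hyW (by rw [hsum]; exact hsW)
    omega
  · rw [← h] at hc2
    rw [Nat.coprime_self] at hc2
    omega
  · refine hS.tri (M - 2 * x) x h hc2.symm (by omega) (by omega) ?_ hyW hxW
      (by rw [add_comm, hsum]; exact hsW)
    omega

/-- If the central pair `(M - e) / 2`, `(M + e) / 2` consists of non-speeds then `e` is a speed,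
for odd `e ≤ K - 4`. -/
theorem ctrM {n : ℕ} {V : Finset ℕ} (hn : 2 ≤ n) (hV : ∀ x ∈ V, 1 ≤ x ∧ x ≤ 2 * n)
    (hcard : V.card = n)
    (hno : ∀ t : ℝ, ∃ x ∈ V, ∃ k : ℤ, |t * (x : ℝ) - (k : ℝ)| < (1 : ℝ) / ((n : ℝ) + 1))
    {M K e x : ℕ} (hM : M.Prime) (hMK : M = 2 * n + K) (hK2 : K ≤ n) (he0 : 0 < e)
    (heK : e < K) (hxe : 2 * x + e = M) (hx : x ∉ V) (hx' : x + e ∉ V) : e ∈ V := by
  have hS := CONS n V hn hV hcard hno
  have hmem : ∀ z, z ∈ (Icc 1 (2 * n)) \ V ↔ (1 ≤ z ∧ z ≤ 2 * n) ∧ z ∉ V := by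
    intro z; simp
  have hcop : Nat.Coprime e M :=
    (Nat.Prime.coprime_iff_not_dvd hM |>.2
      (Nat.not_dvd_of_pos_of_lt (by omega) (by omega))).symm
  have hc2 : Nat.Coprime e x := by
    have h1 : Nat.Coprime e (2 * x) := by
      rw [← hxe] at hcop
      have h2 : Nat.gcd e (2 * x + e) = Nat.gcd e (2 * x) := Nat.gcd_add_self_right e (2 * x)
      unfold Nat.Coprime at hcop ⊢
      rw [← h2]; exact hcop
    exact Nat.Coprime.coprime_mul_left_right h1
  by_contra hc
  refine hS.tri e x (by omega) hc2 (by omega) (by omega) ?_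
    ((hmem e).2 ⟨⟨by omega, by omega⟩, hc⟩) ((hmem x).2 ⟨⟨by omega, by omega⟩, hx⟩)
    ((hmem (e + x)).2 ⟨⟨by omega, by omega⟩, by rwa [add_comm]⟩)
  right
  constructor
  · omega
  · right; omega

/-- The even labels `y` with `y`, `M - y` speeds whose halves are not both non-speeds. -/
def LS (M : ℕ) (V : Finset ℕ) : Finset ℕ :=
  (Icc 1 M).filter (fun y => y % 2 = 0 ∧ y ∈ V ∧ M - y ∈ V ∧ (y / 2 ∈ V ∨ M - y / 2 ∈ V))

/-- The small non-speeds `x` such that `M - 2 x` is a speed. -/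
def RS (M K : ℕ) (V : Finset ℕ) : Finset ℕ :=
  (Icc 1 (K - 3)).filter (fun x => x ∉ V ∧ M - 2 * x ∈ V)

/-- The small odd speeds `e` such that `(M - e) / 2` or `(M + e) / 2` is a speed. -/
def DS (M K : ℕ) (V : Finset ℕ) : Finset ℕ :=
  (Icc 1 (K - 4)).filter (fun e => e % 2 = 1 ∧ e ∈ V ∧ ((M - e) / 2 ∈ V ∨ (M + e) / 2 ∈ V))

/-- The even non-speeds at most `K - 3`. -/
def ES (K : ℕ) (V : Finset ℕ) : Finset ℕ :=
  (Icc 1 (K - 3)).filter (fun x => x % 2 = 0 ∧ x ∉ V)

lemma card_odd (m : ℕ) : ((Icc 1 (2 * m)).filter (fun e => e % 2 = 1)).card = m := by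
  induction m with
  | zero => simp
  | succ m ih =>
    have h : (Icc 1 (2 * (m + 1))).filter (fun e => e % 2 = 1) =
        insert (2 * m + 1) ((Icc 1 (2 * m)).filter (fun e => e % 2 = 1)) := by
      ext e
      simp only [mem_filter, mem_Icc, mem_insert]
      omega
    rw [h, card_insert_of_notMem, ih]
    simp only [mem_filter, mem_Icc, not_and]
    omega

/-- Counting: pairs of non-speeds versus pairs of speeds. -/
theorem pairs {n : ℕ} {V : Finset ℕ} (hV : ∀ x ∈ V, 1 ≤ x ∧ x ≤ 2 * n) (hcard : V.card = n)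
    {M K H : ℕ} (hMK : M = 2 * n + K) (hH : M = 2 * H + 1) (hK : 2 ≤ K) :
    2 * ((Icc 1 H).filter (fun x => x ∉ V ∧ M - x ∉ V)).card + 1 =
      2 * ((Icc 1 H).filter (fun x => 2 * x ∈ V ∧ M - 2 * x ∈ V)).card + K := by
  classical
  obtain ⟨G, hG⟩ : ∃ G : Finset ℕ, G = Icc 1 (2 * H) := ⟨_, rfl⟩
  have hGc : G.card = 2 * H := by rw [hG, Nat.card_Icc]; omega
  set T2 := G.filter (fun X => X ∉ V ∧ M - X ∉ V) with hT2
  set T0 := G.filter (fun X => X ∈ V ∧ M - X ∈ V) with hT0
  set A := G.filter (fun X => X ∈ V) with hA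
  set B := G.filter (fun X => M - X ∈ V) with hB
  have hid : G.card + T0.card = T2.card + A.card + B.card := by
    rw [hT0, hT2, hA, hB, Finset.card_filter, Finset.card_filter, Finset.card_filter,
      Finset.card_filter, Finset.card_eq_sum_ones, ← Finset.sum_add_distrib,
      ← Finset.sum_add_distrib, ← Finset.sum_add_distrib]
    refine Finset.sum_congr rfl fun X _ => ?_
    by_cases ha : X ∈ V <;> by_cases hb : M - X ∈ V <;> simp [ha, hb]
  have hAc : A.card = n := by
    rw [← hcard]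
    congr 1
    ext x
    rw [hA, mem_filter, hG, mem_Icc]
    constructor
    · exact fun h => h.2
    · intro h
      have := hV x h
      exact ⟨by omega, h⟩
  have hBc : B.card = n := by
    rw [← hAc]
    refine Finset.card_nbij' (fun X => M - X) (fun X => M - X) ?_ ?_ ?_ ?_
    · intro X hX
      rw [hB, mem_coe, mem_filter, hG, mem_Icc] at hX
      rw [hA, mem_coe, mem_filter, hG, mem_Icc]
      refine ⟨?_, hX.2⟩
      show 1 ≤ M - X ∧ M - X ≤ 2 * H
      omega
    · intro X hX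
      rw [hA, mem_coe, mem_filter, hG, mem_Icc] at hX
      rw [hB, mem_coe, mem_filter, hG, mem_Icc, Nat.sub_sub_self (by omega)]
      refine ⟨?_, hX.2⟩
      show 1 ≤ M - X ∧ M - X ≤ 2 * H
      omega
    · intro X hX
      rw [hB, mem_coe, mem_filter, hG, mem_Icc] at hX
      exact Nat.sub_sub_self (by omega)
    · intro X hX
      rw [hA, mem_coe, mem_filter, hG, mem_Icc] at hX
      exact Nat.sub_sub_self (by omega)
  have h2 : T2.card = 2 * ((Icc 1 H).filter (fun x => x ∉ V ∧ M - x ∉ V)).card := by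
    have e1 : T2 = ((Icc 1 H).filter (fun x => x ∉ V ∧ M - x ∉ V)) ∪
        ((Icc 1 H).filter (fun x => x ∉ V ∧ M - x ∉ V)).image (fun x => M - x) := by
      ext X
      rw [hT2, mem_filter, hG, mem_Icc, mem_union, mem_filter, mem_Icc, mem_image]
      constructor
      · rintro ⟨h, h3, h4⟩
        by_cases h5 : X ≤ H
        · exact Or.inl ⟨⟨h.1, h5⟩, h3, h4⟩
        · refine Or.inr ⟨M - X, ?_, by omega⟩
          rw [mem_filter, mem_Icc, Nat.sub_sub_self (by omega)]
          exact ⟨⟨by omega, by omega⟩, h4, h3⟩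
      · rintro (⟨h, h3, h4⟩ | ⟨x, hx, rfl⟩)
        · exact ⟨⟨h.1, by omega⟩, h3, h4⟩
        · rw [mem_filter, mem_Icc] at hx
          rw [Nat.sub_sub_self (by omega)]
          exact ⟨⟨by omega, by omega⟩, hx.2.2, hx.2.1⟩
    rw [e1, card_union_of_disjoint, card_image_of_injOn]
    · omega
    · intro X hX Y hY h
      rw [mem_coe, mem_filter, mem_Icc] at hX hY
      simp only at h
      omega
    · rw [Finset.disjoint_left]
      intro X hX hX'
      obtain ⟨x, hx, rfl⟩ := mem_image.1 hX'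
      rw [mem_filter, mem_Icc] at hX hx
      omega
  have h0 : T0.card = 2 * ((Icc 1 H).filter (fun x => 2 * x ∈ V ∧ M - 2 * x ∈ V)).card := by
    have e1 : T0 = ((Icc 1 H).filter (fun x => 2 * x ∈ V ∧ M - 2 * x ∈ V)).image (fun x => 2 * x) ∪
        ((Icc 1 H).filter (fun x => 2 * x ∈ V ∧ M - 2 * x ∈ V)).image (fun x => M - 2 * x) := by
      ext X
      rw [hT0, mem_filter, hG, mem_Icc, mem_union, mem_image, mem_image]
      constructor
      · rintro ⟨h, h3, h4⟩
        rcases Nat.even_or_odd' X with ⟨x, hx | hx⟩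
        · refine Or.inl ⟨x, ?_, hx.symm⟩
          rw [mem_filter, mem_Icc, ← hx]
          exact ⟨⟨by omega, by omega⟩, h3, h4⟩
        · refine Or.inr ⟨H - x, ?_, by omega⟩
          rw [mem_filter, mem_Icc]
          have e2 : 2 * (H - x) = M - X := by omega
          rw [e2, Nat.sub_sub_self (by omega)]
          exact ⟨⟨by omega, by omega⟩, h4, h3⟩
      · rintro (⟨x, hx, rfl⟩ | ⟨x, hx, rfl⟩)
        · rw [mem_filter, mem_Icc] at hx
          exact ⟨⟨by omega, by omega⟩, hx.2⟩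
        · rw [mem_filter, mem_Icc] at hx
          rw [Nat.sub_sub_self (by omega)]
          exact ⟨⟨by omega, by omega⟩, hx.2.2, hx.2.1⟩
    rw [e1, card_union_of_disjoint, card_image_of_injOn, card_image_of_injOn]
    · omega
    · intro X hX Y hY h
      rw [mem_coe, mem_filter, mem_Icc] at hX hY
      simp only at h
      omega
    · intro X hX Y hY h
      simp only at h
      omega
    · rw [Finset.disjoint_left]
      intro X hX hX'
      obtain ⟨x, hx, rfl⟩ := mem_image.1 hX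
      obtain ⟨y, hy, h⟩ := mem_image.1 hX'
      rw [mem_filter, mem_Icc] at hx hy
      omega
  omega

/-- Exact accounting at a prime `M = 2 n + K`. -/
theorem acc' {n : ℕ} {V : Finset ℕ} (hV : ∀ x ∈ V, 1 ≤ x ∧ x ≤ 2 * n) (hcard : V.card = n)
    (hno : ∀ t : ℝ, ∃ x ∈ V, ∃ k : ℤ, |t * (x : ℝ) - (k : ℝ)| < (1 : ℝ) / ((n : ℝ) + 1))
    {M K : ℕ} (hM : M.Prime) (hMK : M = 2 * n + K) (hK1 : 3 ≤ K) (hK2 : K ≤ n)
    (hKn : 3 * ((2 * n + K) * (K - 2)) ≤ (2 * n + 3 * K) * (n + 3 - K)) :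
    (LS M V).card + (RS M K V).card + (DS M K V).card + 1 ≤ (ES K V).card := by
  classical
  have hn : 2 ≤ n := by omega
  have hodd : M % 2 = 1 := by
    rcases hM.eq_two_or_odd with h | h
    · omega
    · exact h
  obtain ⟨H, hH⟩ : ∃ H, M = 2 * H + 1 := ⟨M / 2, by omega⟩
  obtain ⟨m, hm⟩ : ∃ m, K = 2 * m + 3 := ⟨(K - 3) / 2, by omega⟩
  have hp := pairs hV hcard hMK hH (by omega)
  set BB := (Icc 1 H).filter (fun x => x ∉ V ∧ M - x ∉ V) with hBB
  set Q := (Icc 1 H).filter (fun x => 2 * x ∈ V ∧ M - 2 * x ∈ V) with hQ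
  have h1 : (BB \ Q).card + (BB ∩ Q).card = BB.card := by
    exact card_sdiff_add_card_inter BB Q
  have h2 : (Q \ BB).card + (Q ∩ BB).card = Q.card := by
    exact card_sdiff_add_card_inter Q BB
  rw [inter_comm] at h2
  have hL : (LS M V).card = (Q \ BB).card := by
    have e1 : LS M V = (Q \ BB).image (fun x => 2 * x) := by
      ext y
      rw [LS, mem_filter, mem_Icc, mem_image]
      constructor
      · rintro ⟨h3, h4, h5, h6, h7⟩
        have h8 := hV y h5
        have h9 := hV _ h6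
        refine ⟨y / 2, ?_, by omega⟩
        have e2 : 2 * (y / 2) = y := by omega
        rw [mem_sdiff, hQ, hBB, mem_filter, mem_filter, mem_Icc, e2]
        refine ⟨⟨⟨by omega, by omega⟩, h5, h6⟩, ?_⟩
        rintro ⟨-, h10, h11⟩
        rcases h7 with h7 | h7
        · exact h10 h7
        · exact h11 h7
      · rintro ⟨x, hx, rfl⟩
        rw [mem_sdiff, hQ, hBB, mem_filter, mem_filter, mem_Icc] at hx
        obtain ⟨⟨h3, h4, h5⟩, h6⟩ := hx
        have e2 : 2 * x / 2 = x := by omega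
        rw [e2]
        refine ⟨⟨by omega, by omega⟩, by omega, h4, h5, ?_⟩
        by_contra hc
        push Not at hc
        exact h6 ⟨h3, hc.1, hc.2⟩
    rw [e1, card_image_of_injOn]
    intro X _ Y _ h
    simp only at h
    omega
  -- the exceptional forward labels
  set X1 := (Icc 1 (K - 3)).filter (fun x => x ∉ V ∧ M - 2 * x ∉ V) with hX1
  set S1 := (Icc 1 (K - 4)).filter
    (fun e => e % 2 = 1 ∧ (M - e) / 2 ∉ V ∧ (M + e) / 2 ∉ V) with hS1
  have hsub : BB \ Q ⊆ X1 ∪ S1.image (fun e => (M - e) / 2) := by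
    intro x hx
    rw [mem_sdiff, hBB, hQ, mem_filter, mem_filter, mem_Icc] at hx
    obtain ⟨⟨h3, h4, h5⟩, h6⟩ := hx
    rw [mem_union, mem_image]
    by_cases h7 : x ≤ K - 3
    · left
      rw [hX1, mem_filter, mem_Icc]
      refine ⟨⟨h3.1, h7⟩, h4, ?_⟩
      intro h8
      exact h6 ⟨h3, dblM hn hV hcard hno hM hMK (by omega) hK2 hKn h3.1 (by omega) h4 h5, h8⟩
    · push Not at h7
      by_cases h8 : M - 2 * x ≤ K - 4
      · right
        refine ⟨M - 2 * x, ?_, by omega⟩
        rw [hS1, mem_filter, mem_Icc]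
        have e1 : (M - (M - 2 * x)) / 2 = x := by omega
        have e2 : (M + (M - 2 * x)) / 2 = M - x := by omega
        rw [e1, e2]
        exact ⟨⟨by omega, by omega⟩, by omega, h4, h5⟩
      · exfalso
        push Not at h8
        have hxn1 : x ≠ n + 1 := by
          rintro rfl
          have hS := CONS n V hn hV hcard hno
          refine hS.succ ?_
          rw [mem_sdiff, mem_Icc]
          exact ⟨⟨by omega, by omega⟩, h4⟩
        have hxn : x ≤ n := by omega
        have h9 := dblM hn hV hcard hno hM hMK (by omega) hK2 hKn h3.1 hxn h4 h5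
        refine h6 ⟨h3, h9, ?_⟩
        by_cases h10 : K ≤ x
        · exact triM hn hV hcard hno hM hMK h10 (by omega) hxn h4 h5
        · have hcop : Nat.Coprime x M :=
            (Nat.Prime.coprime_iff_not_dvd hM |>.2
              (Nat.not_dvd_of_pos_of_lt (by omega) (by omega))).symm
          have hc2 : Nat.Coprime x (M - 2 * x) := by
            have h1 : Nat.Coprime x (M - 2 * x + 2 * x) := by
              rw [Nat.sub_add_cancel (by omega)]; exact hcop
            have h2 : Nat.gcd x (M - 2 * x + 2 * x) = Nat.gcd x (M - 2 * x) :=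
              Nat.gcd_add_mul_right_right x (M - 2 * x) 2
            unfold Nat.Coprime at h1 ⊢
            rw [← h2]; exact h1
          have h11 : x = K - 2 ∨ x = K - 1 := by omega
          rcases h11 with h11 | h11
          · exact refl2 hV hno (x := x) (y := M - 2 * x) (by omega) hc2 h4
          · have hS := CONS n V hn hV hcard hno
            have h12 := hS.refl x (M - 2 * x) (by omega) hc2
              (by rw [mem_sdiff, mem_Icc]; exact ⟨⟨by omega, by omega⟩, h4⟩)
            rw [mem_sdiff, mem_Icc] at h12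
            by_contra hc
            exact h12 ⟨⟨by omega, by omega⟩, hc⟩
  have h3 : (BB \ Q).card ≤ X1.card + S1.card := by
    have h6 := card_le_card hsub
    have h7 := card_union_le X1 (S1.image (fun e => (M - e) / 2))
    have h8 : (S1.image (fun e => (M - e) / 2)).card ≤ S1.card := card_image_le
    omega
  -- small elements
  set Y := (Icc 1 (K - 3)).filter (fun x => x % 2 = 1 ∧ x ∉ V) with hY
  have h4 : X1.card + (RS M K V).card = (ES K V).card + Y.card := by
    have e1 : X1.card + (RS M K V).card = ((Icc 1 (K - 3)).filter (fun x => x ∉ V)).card := by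
      rw [RS, hX1, Finset.card_filter, Finset.card_filter, Finset.card_filter,
        ← Finset.sum_add_distrib]
      refine Finset.sum_congr rfl fun x _ => ?_
      by_cases ha : x ∈ V <;> by_cases hb : M - 2 * x ∈ V <;> simp [ha, hb]
    have e2 : (ES K V).card + Y.card = ((Icc 1 (K - 3)).filter (fun x => x ∉ V)).card := by
      rw [ES, hY, Finset.card_filter, Finset.card_filter, Finset.card_filter,
        ← Finset.sum_add_distrib]
      refine Finset.sum_congr rfl fun x _ => ?_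
      rcases Nat.mod_two_eq_zero_or_one x with hb | hb <;> by_cases ha : x ∈ V <;>
        simp [ha, hb]
    rw [e1, e2]
  have h5 : Y.card + S1.card + (DS M K V).card ≤ m := by
    have e0 : K - 4 ≤ 2 * m := by omega
    calc Y.card + S1.card + (DS M K V).card
        = (Y ∪ S1 ∪ DS M K V).card := by
          rw [card_union_of_disjoint, card_union_of_disjoint]
          · rw [Finset.disjoint_left]
            intro e he he'
            rw [hY, mem_filter, mem_Icc] at he
            rw [hS1, mem_filter, mem_Icc] at he'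
            refine he.2.2 (ctrM hn hV hcard hno hM hMK hK2 (x := (M - e) / 2) he'.1.1
              (by omega) (by omega) he'.2.2.1 ?_)
            have e1 : (M - e) / 2 + e = (M + e) / 2 := by omega
            rw [e1]
            exact he'.2.2.2
          · rw [Finset.disjoint_left]
            intro e he he'
            rw [DS, mem_filter, mem_Icc] at he'
            rw [mem_union, hY, hS1, mem_filter, mem_filter] at he
            rcases he with he | he
            · exact he.2.2 he'.2.2.1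
            · rcases he'.2.2.2 with h | h
              · exact he.2.2.1 h
              · exact he.2.2.2 h
      _ ≤ ((Icc 1 (2 * m)).filter (fun e => e % 2 = 1)).card := by
          refine card_le_card ?_
          intro e he
          rw [mem_union, mem_union, hY, hS1, DS, mem_filter, mem_filter, mem_filter, mem_Icc,
            mem_Icc] at he
          rw [mem_filter, mem_Icc]
          omega
      _ = m := card_odd m
  omega

/-- Exact accounting at a prime `M = 2 n + K` with `5 K ≤ n`. -/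
theorem acc {n : ℕ} {V : Finset ℕ} (hV : ∀ x ∈ V, 1 ≤ x ∧ x ≤ 2 * n) (hcard : V.card = n)
    (hno : ∀ t : ℝ, ∃ x ∈ V, ∃ k : ℤ, |t * (x : ℝ) - (k : ℝ)| < (1 : ℝ) / ((n : ℝ) + 1))
    {M K : ℕ} (hM : M.Prime) (hMK : M = 2 * n + K) (hK1 : 3 ≤ K) (hK2 : 5 * K ≤ n) :
    (LS M V).card + (RS M K V).card + (DS M K V).card + 1 ≤ (ES K V).card := by
  refine acc' hV hcard hno hM hMK hK1 (by omega) ?_
  obtain ⟨k, hk⟩ : ∃ k, K = k + 2 := ⟨K - 2, by omega⟩
  obtain ⟨w, hw⟩ : ∃ w, n + 3 - K = w := ⟨_, rfl⟩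
  have e3 : K - 2 = k := by omega
  have hw2 : 4 * n + 15 ≤ 5 * w := by omega
  rw [hw, e3]
  have h15 : 5 * (3 * ((2 * n + K) * k)) ≤ 5 * ((2 * n + 3 * K) * w) := by
    calc 5 * (3 * ((2 * n + K) * k)) ≤ (2 * n + 3 * K) * (4 * n + 15) := by
          rw [hk] at hK2 ⊢
          nlinarith
      _ ≤ (2 * n + 3 * K) * (5 * w) := Nat.mul_le_mul_left _ hw2
      _ = 5 * ((2 * n + 3 * K) * w) := by ring
  omega

end Pool.Agent.LR4
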