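import Mathlib
import Pool.Agent.LR4.Acct

/-!
Lonely runner with speeds at most `2 n`: further sharp edges, in the form
`missing, missing, ... → speed`. Together with `Cex.one`, `Cex.succ`, `Cex.refl1`, `Cex.refl2`,
`Cex.dbl`, `Cex.dblHigh`, `Cex.tri` (file `Acct`) these are all minimal Bohr sets.

`T4` : `{x, y, x + y, 2 x + y}`; `D2` : `{q, 2 q, y}`; `D3` : `{q, 2 q, 3 q}`.
-/

namespace Pool.Agent.LR4

open Finset Pool.Agent.LR2

variable {n : ℕ} {V : Finset ℕ} (h : Cex n V)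
include h

/-- Quadruples `{x, y, x + y, 2 x + y}` (no order between `x` and `y`). -/
theorem Cex.T4 {x y : ℕ} (hx0 : 0 < x) (hy0 : 0 < y) (hc : Nat.Coprime x y) (hn : n < x + y)
    (h2n : x + y ≤ 2 * n) (h2 : 2 * n < x + 2 * y) (hx : x ∉ V) (hy : y ∉ V)
    (hs : x + y ∉ V) : 2 * x + y ∈ V := by
  have hcs : Nat.Coprime x (x + y) := by simpa using hc
  obtain ⟨a, m, ham⟩ := CONS_bez hcs
  push_cast at ham
  obtain ⟨z, hz, k, hk⟩ := CONS_rat h.no a ((x : ℤ) + y) 2 (by positivity) (by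
    have : ((x : ℤ) + y) ≤ 2 * n := by exact_mod_cast h2n
    linarith)
  obtain ⟨hz1, hz2⟩ := h.mem z hz
  obtain ⟨ρ, hρ⟩ : ∃ ρ : ℤ, a * z - k * ((x : ℤ) + y) = ρ := ⟨_, rfl⟩
  have hd := CONS_inv ham hρ
  rw [hρ, abs_lt] at hk
  have h3 : ρ = 0 ∨ ρ = 1 ∨ ρ = -1 := by omega
  have hs0 : (0 : ℤ) < (x : ℤ) + y := by positivity
  rcases h3 with rfl | rfl | rfl
  · have hd2 : ((x : ℤ) + y) ∣ (z : ℤ) - ((x : ℤ) + y) := by
      have h4 : (z : ℤ) - ((x : ℤ) + y) = (z - 0 * x) - ((x : ℤ) + y) := by ring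
      rw [h4]
      exact dvd_sub_self_right.2 hd
    have := CONS_mul hs0 hd2 (by omega) (by omega)
    have h5 : z = x + y := by omega
    exact absurd (h5 ▸ hz) hs
  · -- `z = x` or `z = 2 x + y`
    obtain ⟨e, he⟩ := hd
    have he1 : e < 2 := by
      by_contra hh
      push Not at hh
      nlinarith
    have he2 : -1 < e := by
      by_contra hh
      push Not at hh
      nlinarith
    have he3 : e = 0 ∨ e = 1 := by omega
    rcases he3 with rfl | rfl
    · have h5 : z = x := by omega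
      exact absurd (h5 ▸ hz) hx
    · have h5 : z = 2 * x + y := by omega
      exact h5 ▸ hz
  · have hd2 : ((x : ℤ) + y) ∣ (z : ℤ) - y := by
      have h4 : (z : ℤ) - y = (z - -1 * x) - ((x : ℤ) + y) := by ring
      rw [h4]
      exact dvd_sub_self_right.2 hd
    have := CONS_mul hs0 hd2 (by omega) (by omega)
    have h5 : z = y := by omega
    exact absurd (h5 ▸ hz) hy

/-- Triples `{q, 2 q, y}`. -/
theorem Cex.D2 {q y : ℕ} (hq : 0 < q) (hqn : q ≤ n) (hc : Nat.Coprime y q) (h1 : 2 * n < y + q)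
    (h2 : y + 2 * q ≤ 3 * n + 3) (hqV : q ∉ V) (h2qV : 2 * q ∉ V) : y ∈ V := by
  obtain ⟨c, m, hcm⟩ := CONS_bez hc
  obtain ⟨x, hx, k, hk⟩ := CONS_rat h.no (3 * (n + 1) * (-c) + 1) (3 * q * (n + 1)) (3 * q)
    (by positivity) le_rfl
  obtain ⟨hx1, hx2⟩ := h.mem x hx
  obtain ⟨ρ, hρ⟩ : ∃ ρ : ℤ, (-c) * x - k * q = ρ := ⟨_, rfl⟩
  have hval : (3 * ((n : ℤ) + 1) * (-c) + 1) * x - k * (3 * q * (n + 1)) =
      3 * (n + 1) * ρ + x := by rw [← hρ]; ring
  rw [hval, abs_lt] at hk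
  obtain ⟨hk1, hk2⟩ := hk
  have hρ1 : ρ < 1 := by
    by_contra hh
    push Not at hh
    have : 3 * ((n : ℤ) + 1) * 1 ≤ 3 * (n + 1) * ρ := mul_le_mul_of_nonneg_left hh (by positivity)
    omega
  have hρ2 : -2 < ρ := by
    by_contra hh
    push Not at hh
    have : 3 * ((n : ℤ) + 1) * ρ ≤ 3 * (n + 1) * (-2) :=
      mul_le_mul_of_nonneg_left hh (by positivity)
    omega
  have hd : (q : ℤ) ∣ x + ρ * y := by
    refine ⟨-(x * m) - k * y, ?_⟩
    rw [← hρ]
    linear_combination (-(x : ℤ)) * hcm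
  have hρ3 : ρ = 0 ∨ ρ = -1 := by omega
  rcases hρ3 with rfl | rfl
  · exfalso
    rw [zero_mul, add_zero] at hd
    obtain ⟨e, he⟩ := hd
    have he1 : e < 3 := by
      by_contra hh
      push Not at hh
      nlinarith
    have he2 : 0 < e := by
      by_contra hh
      push Not at hh
      nlinarith
    have he3 : e = 1 ∨ e = 2 := by omega
    rcases he3 with rfl | rfl
    · have : x = q := by omega
      exact hqV (this ▸ hx)
    · have : x = 2 * q := by omega
      exact h2qV (this ▸ hx)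
  · obtain ⟨e, he⟩ := hd
    have he0 : e ≤ 0 := by
      by_contra hh
      push Not at hh
      nlinarith
    rcases eq_or_lt_of_le he0 with he1 | he1
    · have : x = y := by
        rw [he1] at he
        omega
      exact this ▸ hx
    · exfalso
      have he2 : (q : ℤ) * e ≤ q * (-1) := mul_le_mul_of_nonneg_left (by omega) (by positivity)
      have hz2' : (y : ℤ) + 2 * q ≤ 3 * n + 3 := by exact_mod_cast h2
      linarith

/-- Triples `{q, 2 q, 3 q}`. -/
theorem Cex.D3 {q z : ℕ} (hq : 0 < q) (hc : Nat.Coprime z q) (h1 : 2 * n + 1 ≤ z)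
    (h2 : z + 3 * q ≤ 4 * n + 4) (hqV : q ∉ V) (h2qV : 2 * q ∉ V) : 3 * q ∈ V := by
  obtain ⟨c, m, hcm⟩ := CONS_bez hc
  obtain ⟨x, hx, k, hk⟩ := CONS_rat h.no (4 * (n + 1) * (-c) + 1) (4 * q * (n + 1)) (4 * q)
    (by positivity) le_rfl
  obtain ⟨hx1, hx2⟩ := h.mem x hx
  obtain ⟨ρ, hρ⟩ : ∃ ρ : ℤ, (-c) * x - k * q = ρ := ⟨_, rfl⟩
  have hval : (4 * ((n : ℤ) + 1) * (-c) + 1) * x - k * (4 * q * (n + 1)) =
      4 * (n + 1) * ρ + x := by rw [← hρ]; ring
  rw [hval, abs_lt] at hk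
  obtain ⟨hk1, hk2⟩ := hk
  have hρ1 : ρ < 1 := by
    by_contra hh
    push Not at hh
    have : 4 * ((n : ℤ) + 1) * 1 ≤ 4 * (n + 1) * ρ := mul_le_mul_of_nonneg_left hh (by positivity)
    omega
  have hρ2 : -2 < ρ := by
    by_contra hh
    push Not at hh
    have : 4 * ((n : ℤ) + 1) * ρ ≤ 4 * (n + 1) * (-2) :=
      mul_le_mul_of_nonneg_left hh (by positivity)
    omega
  have hd : (q : ℤ) ∣ x + ρ * z := by
    refine ⟨-(x * m) - k * z, ?_⟩
    rw [← hρ]
    linear_combination (-(x : ℤ)) * hcm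
  have hρ3 : ρ = 0 ∨ ρ = -1 := by omega
  rcases hρ3 with rfl | rfl
  · rw [zero_mul, add_zero] at hd
    obtain ⟨e, he⟩ := hd
    have he1 : e < 4 := by
      by_contra hh
      push Not at hh
      nlinarith
    have he2 : 0 < e := by
      by_contra hh
      push Not at hh
      nlinarith
    have he3 : e = 1 ∨ e = 2 ∨ e = 3 := by omega
    rcases he3 with rfl | rfl | rfl
    · have : x = q := by omega
      exact absurd (this ▸ hx) hqV
    · have : x = 2 * q := by omega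
      exact absurd (this ▸ hx) h2qV
    · have : x = 3 * q := by omega
      exact this ▸ hx
  · exfalso
    obtain ⟨e, he⟩ := hd
    have he1 : e ≤ -1 := by
      by_contra hh
      push Not at hh
      nlinarith
    have he2 : (q : ℤ) * e ≤ q * (-1) := mul_le_mul_of_nonneg_left he1 (by positivity)
    have hz2' : (z : ℤ) + 3 * q ≤ 4 * n + 4 := by exact_mod_cast h2
    linarith

end Pool.Agent.LR4
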