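import Mathlib
import Pool.Agent.LR4.ApCert
import Pool.Agent.LR4.Edges

/-!
Lonely runner with speeds at most `2 n`: the arithmetic progression lemma. Let `V` be a
counterexample and `M > 2 n` be coprime to `30`. If `u` is coprime to `M`, `M - 2 n ≤ u ≤ n / 300`
and none of the pairs `u t`, `M - u t` (`t ≤ 100`) is exceptional, then `4 u` is a speed.
-/

namespace Pool.Agent.LR4

private theorem ap_beq {a b : ℕ} (h : Nat.beq a b = false) : a ≠ b := by
  intro hab
  rw [(Nat.beq_eq.symm ▸ hab : Nat.beq a b = true)] at h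
  exact absurd h (by simp)

private theorem ap_cop {M u x v c3 c5 : ℕ} (hc3 : c3 < 3) (hc5 : c5 < 5)
    (h30 : Nat.Coprime M 30) (hc : Nat.Coprime u M) (huv : u * v ≤ M)
    (h3 : ¬ 3 ∣ u → M % 3 = c3 * u % 3) (h5 : ¬ 5 ∣ u → M % 5 = c5 * u % 5)
    (hok : apOK c3 c5 x v = true) : Nat.Coprime (u * x) (M - u * v) := by
  unfold apOK at hok
  simp only [Bool.and_eq_true, Bool.or_eq_true, Bool.not_eq_true'] at hok
  obtain ⟨⟨⟨e1, e2⟩, e3⟩, e5⟩ := hok
  have hx : x ∣ 1296000 := Nat.dvd_of_mod_eq_zero (Nat.eq_of_beq_eq_true e1)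
  refine Nat.coprime_of_dvd fun p hp hpx hpM => ?_
  have hMp : p ∣ u * v → p ∣ M := fun hh => by
    have h1 : M = (M - u * v) + u * v := by omega
    rw [h1]
    exact dvd_add hpM hh
  have hM30 : p ∣ 30 → ¬ p ∣ M := fun hp30 hpM' => by
    have h1 := Nat.dvd_gcd hpM' hp30
    rw [h30] at h1
    exact hp.one_lt.ne' (Nat.dvd_one.1 h1)
  by_cases hpu : p ∣ u
  · have h1 := Nat.dvd_gcd hpu (hMp (hpu.mul_right v))
    rw [hc] at h1
    exact hp.one_lt.ne' (Nat.dvd_one.1 h1)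
  have hpx' : p ∣ x := ((Nat.Prime.dvd_mul hp).1 hpx).resolve_left hpu
  have hp2 : p = 2 ∨ p = 3 ∨ p = 5 := by
    have h1 : p ∣ 2 ^ 7 * 3 ^ 4 * 5 ^ 3 := by
      have : (2 : ℕ) ^ 7 * 3 ^ 4 * 5 ^ 3 = 1296000 := by norm_num
      rw [this]
      exact hpx'.trans hx
    rcases (Nat.Prime.dvd_mul hp).1 h1 with h1 | h1
    · rcases (Nat.Prime.dvd_mul hp).1 h1 with h1 | h1
      · exact Or.inl ((Nat.prime_dvd_prime_iff_eq hp Nat.prime_two).1 (hp.dvd_of_dvd_pow h1))
      · exact Or.inr (Or.inl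
          ((Nat.prime_dvd_prime_iff_eq hp Nat.prime_three).1 (hp.dvd_of_dvd_pow h1)))
    · exact Or.inr (Or.inr
        ((Nat.prime_dvd_prime_iff_eq hp Nat.prime_five).1 (hp.dvd_of_dvd_pow h1)))
  rcases hp2 with rfl | rfl | rfl
  · have h6 : v % 2 = 0 := by
      rcases e2 with e2 | e2
      · have e2' : x % 2 = 1 := Nat.eq_of_beq_eq_true e2
        omega
      · exact Nat.eq_of_beq_eq_true e2
    exact hM30 (by norm_num) (hMp ((Nat.dvd_of_mod_eq_zero h6).mul_left u))
  · have h6 : ¬ v % 3 = c3 := by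
      rcases e3 with e3 | e3
      · have e3' : ¬ x % 3 = 0 := ap_beq e3
        omega
      · exact ap_beq e3
    have h7 := h3 hpu
    have h8 : (M - u * v) % 3 = 0 := Nat.mod_eq_zero_of_dvd hpM
    have h9 : M % 3 = (u * v) % 3 := by omega
    rw [h7] at h9
    have h10 : c3 * u ≡ v * u [MOD 3] := by
      unfold Nat.ModEq
      rw [h9, mul_comm]
    have h11 : c3 ≡ v [MOD 3] := Nat.ModEq.cancel_right_of_coprime
      ((Nat.Prime.coprime_iff_not_dvd Nat.prime_three).2 hpu) h10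
    unfold Nat.ModEq at h11
    omega
  · have h6 : ¬ v % 5 = c5 := by
      rcases e5 with e5 | e5
      · have e5' : ¬ x % 5 = 0 := ap_beq e5
        omega
      · exact ap_beq e5
    have h7 := h5 hpu
    have h8 : (M - u * v) % 5 = 0 := Nat.mod_eq_zero_of_dvd hpM
    have h9 : M % 5 = (u * v) % 5 := by omega
    rw [h7] at h9
    have h10 : c5 * u ≡ v * u [MOD 5] := by
      unfold Nat.ModEq
      rw [h9, mul_comm]
    have h11 : c5 ≡ v [MOD 5] := Nat.ModEq.cancel_right_of_coprime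
      ((Nat.Prime.coprime_iff_not_dvd Nat.prime_five).2 hpu) h10
    unfold Nat.ModEq at h11
    omega

private theorem ap_not_dvd {M p : ℕ} (h30 : Nat.Coprime M 30) (hp : p ∣ 30) (hp1 : 1 < p) :
    ¬ p ∣ M := fun hpM => by
  have h1 := Nat.dvd_gcd hpM hp
  rw [h30] at h1
  exact hp1.ne' (Nat.dvd_one.1 h1)

/-- The arithmetic progression lemma. -/
theorem ap4 {n : ℕ} {V : Finset ℕ} (h : Cex n V) {M u : ℕ} (hM : 2 * n < M)
    (hMu : M ≤ 2 * n + u) (h30 : Nat.Coprime M 30) (hc : Nat.Coprime u M) (hun : 300 * u ≤ n)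
    (hlab : ∀ t : ℕ, 1 ≤ t → t ≤ 100 → u * (2 * t) ∈ V → M - u * (2 * t) ∈ V →
      u * t ∉ V ∧ M - u * t ∉ V) : u * 4 ∈ V := by
  have hu : 0 < u := by omega
  have m3 : ¬ 3 ∣ M := ap_not_dvd h30 (by norm_num) (by norm_num)
  have m5 : ¬ 5 ∣ M := ap_not_dvd h30 (by norm_num) (by norm_num)
  obtain ⟨c3, hc3, h3⟩ : ∃ c3 : ℕ, (c3 = 1 ∨ c3 = 2) ∧ (¬ 3 ∣ u → M % 3 = c3 * u % 3) := by
    by_cases h1 : M % 3 = u % 3
    · exact ⟨1, Or.inl rfl, fun _ => by omega⟩
    · exact ⟨2, Or.inr rfl, fun _ => by omega⟩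
  obtain ⟨c5, hc5, h5⟩ : ∃ c5 : ℕ, (c5 = 1 ∨ c5 = 2 ∨ c5 = 3 ∨ c5 = 4) ∧
      (¬ 5 ∣ u → M % 5 = c5 * u % 5) := by
    by_cases h1 : M % 5 = u % 5
    · exact ⟨1, Or.inl rfl, fun _ => by omega⟩
    · by_cases h2 : M % 5 = 2 * u % 5
      · exact ⟨2, Or.inr (Or.inl rfl), fun _ => by omega⟩
      · by_cases h3 : M % 5 = 3 * u % 5
        · exact ⟨3, Or.inr (Or.inr (Or.inl rfl)), fun _ => by omega⟩
        · refine ⟨4, Or.inr (Or.inr (Or.inr rfl)), fun hu5 => ?_⟩
          have a1 : u % 5 = 1 ∨ u % 5 = 2 ∨ u % 5 = 3 ∨ u % 5 = 4 := by omega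
          have a2 : M % 5 = 1 ∨ M % 5 = 2 ∨ M % 5 = 3 ∨ M % 5 = 4 := by omega
          rcases a1 with a1 | a1 | a1 | a1 <;> rcases a2 with a2 | a2 | a2 | a2 <;> omega
  have hc3' : c3 < 3 := by omega
  have hc5' : c5 < 5 := by omega
  have hf : ApFacts c3 c5 (fun t => u * t ∉ V) (fun t => M - u * t ∉ V) := by
    constructor
    · -- doubling
      intro t ht1 ht2 h1 h2
      have hq0 : 0 < u * t := Nat.mul_pos hu ht1
      have hq1 : u * t ≤ u * 100 := Nat.mul_le_mul_left u ht2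
      have hdm := Nat.div_add_mod (2 * n) (u * t)
      have hmod := Nat.mod_lt (2 * n) hq0
      have h3 := h.dbl (q := u * t) (z := (u * t) * (2 * n / (u * t) + 1) + 1) hq0 (by
        rw [Nat.coprime_comm]
        exact (Nat.coprime_mul_left_add_right _ _ _).2 (Nat.coprime_one_right _)) (by
        rw [mul_add, mul_one]; omega) (by rw [mul_add, mul_one]; omega) h1
      apply h2
      have h4 : u * (2 * t) = 2 * (u * t) := by ring
      rw [h4]
      exact h3
    · intro t ht1 ht2 h1 h2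
      exact (hlab t ht1 ht2 (not_not.1 h1) (not_not.1 h2)).1
    · intro t ht1 ht2 h1 h2
      exact (hlab t ht1 ht2 (not_not.1 h1) (not_not.1 h2)).2
    · intro x v hx hv hvx hvx2 hok h1 h2 h6
      have e1 : u * (v + x) = u * v + u * x := by ring
      have e2 : u * (v + x) ≤ u * 200 := Nat.mul_le_mul_left u hvx2
      have e3 : u * v ≤ u * x := Nat.mul_le_mul_left u hvx
      have e4 : u * 1 ≤ u * v := Nat.mul_le_mul_left u hv
      have e5 : u * 1 ≤ u * x := Nat.mul_le_mul_left u hx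
      have hcop := ap_cop hc3' hc5' h30 hc (by omega : u * v ≤ M) h3 h5 hok
      have e6 : M - u * v = u * x + (M - u * (v + x)) := by omega
      rw [e6] at hcop h2
      exact h2 (h.tri (by omega) (by omega) (by simpa using hcop) (by omega) (by omega)
        (Or.inr ⟨by omega, Or.inl (by omega)⟩) h1 h6)
    · intro x v hx hv hvx2 hok h1 h2 h6 h7
      have e1 : u * (v + x) = u * v + u * x := by ring
      have e7 : u * (v + 2 * x) = u * v + 2 * (u * x) := by ring
      have e2 : u * (v + 2 * x) ≤ u * 200 := Nat.mul_le_mul_left u hvx2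
      have e4 : u * 1 ≤ u * v := Nat.mul_le_mul_left u hv
      have e5 : u * 1 ≤ u * x := Nat.mul_le_mul_left u hx
      have hcop := ap_cop hc3' hc5' h30 hc (by omega : u * v ≤ M) h3 h5 hok
      have e6 : M - u * v = 2 * (u * x) + (M - u * (v + 2 * x)) := by omega
      have e8 : M - u * (v + x) = u * x + (M - u * (v + 2 * x)) := by omega
      rw [e6] at hcop h2
      rw [e8] at h6
      refine h2 (h.T4 (by omega) (by omega) ?_ (by omega) (by omega) (by omega) h1 h7 h6)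
      have : Nat.Coprime (u * x) (M - u * (v + 2 * x) + (u * x) * 2) := by
        rw [add_comm, mul_comm (u * x) 2]
        exact hcop
      simpa using this
  exact not_not.1 (ap_core hc3 hc5 hf)

/-- The points `8 u` below `M` are missing speeds. -/
theorem ap8 {n : ℕ} {V : Finset ℕ} (h : Cex n V) {M u : ℕ} (hM : 2 * n < M)
    (hMu : M ≤ 2 * n + u) (h30 : Nat.Coprime M 30) (hc : Nat.Coprime u M) (hun : 600 * u ≤ n)
    (hlab : ∀ t : ℕ, 1 ≤ t → t ≤ 200 → u * (2 * t) ∈ V → M - u * (2 * t) ∈ V →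
      u * t ∉ V ∧ M - u * t ∉ V) : M - u * 8 ∉ V := by
  intro h8
  have h2M : Nat.Coprime 2 M := by
    have h1 : Nat.Coprime 30 M := h30.symm
    exact Nat.Coprime.coprime_dvd_left (by norm_num) h1
  have h4 := ap4 h hM hMu h30 hc (by omega) fun t h1 h2 => hlab t h1 (by omega)
  have h5 := ap4 h (u := u * 2) hM (by omega) h30 (Nat.Coprime.mul_left hc h2M) (by omega)
    fun t h1 h2 h3 h4 => by
      have e1 : u * 2 * (2 * t) = u * (2 * (2 * t)) := by ring
      have e2 : u * 2 * t = u * (2 * t) := by ring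
      rw [e1] at h3 h4
      rw [e2]
      exact hlab (2 * t) (by omega) (by omega) h3 h4
  exact (hlab 4 (by norm_num) (by norm_num) (by
    have : u * (2 * 4) = u * 2 * 4 := by ring
    rw [this]
    exact h5) h8).1 h4

end Pool.Agent.LR4
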