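import Mathlib

/-!
Lonely runner with speeds at most `2 n`: a kernel checker for one value of `n`. A certificate is a
stream of instructions. Three masks: `T` (known non-speeds), `F` (known speeds), `U` (labels used).
The labels are: an even `y` (the pair `y`, `M - y` against its halves), an odd `e ≤ K - 4` (the
central pair), `M + x` with `x ≤ K - 3` (the pair `x`, `M - 2 x`), `M + K + x` with `x` even
(`x` is a non-speed).
-/

namespace Pool.Agent.LR4

/-- The parameters: `a = 2 n`, `b = 3 n + 3`, `M = 2 n + K`, `g = K - 3`, `u = 4 + w`,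
`v = 4 + 2 w`, `r = 2 ^ w - 1`, where `w` is the width of the arguments of an instruction. -/
structure Par where
  (n a b M K g u v r : ℕ)

/-- Conjunction, evaluated lazily. -/
def an (x y : Bool) : Bool := Bool.rec false y x

/-- Disjunction, evaluated lazily. -/
def ro (x y : Bool) : Bool := Bool.rec y true x

/-- Evaluate the natural number `m` before passing it on. -/
def force (m : ℕ) (k : ℕ → Bool) : Bool :=
  Nat.rec (motive := fun _ => Bool) (k 0) (fun i _ => k (Nat.succ i)) m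

/-- The bit `i` of `m`. -/
def tb (m i : ℕ) : Bool := Nat.beq (Nat.land (Nat.shiftRight m i) (nat_lit 1)) (nat_lit 1)

/-- Set the bit `i` of `m`. -/
def sb (m i : ℕ) : ℕ := Nat.lor m (Nat.shiftLeft (nat_lit 1) i)

/-- The side conditions of the triangle `x`, `y`, `x + y`. -/
def triOK (n a b x y : ℕ) : Bool :=
  an (Nat.ble (Nat.succ x) y) (an (Nat.beq (Nat.gcd x y) (nat_lit 1))
    (an (Nat.ble (Nat.succ n) (Nat.add x y)) (an (Nat.ble (Nat.add x y) a)
      (ro (an (Nat.ble y n) (Nat.ble (Nat.succ a) (Nat.add (Nat.add x y) y)))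
        (an (Nat.ble (Nat.succ n) y)
          (ro (Nat.ble (Nat.succ a) (Nat.add (Nat.add x y) x))
            (Nat.ble (Nat.add (Nat.add x y) y) b)))))))

/-- The side conditions of the edge `q`, `2 q`, `z` (of `q`, `2 q` when `2 n < z`). -/
def dblOK (a b q z : ℕ) : Bool :=
  an (Nat.ble (nat_lit 1) q) (an (Nat.beq (Nat.gcd z q) (nat_lit 1))
    (an (Nat.ble (Nat.succ a) (Nat.add z q)) (Nat.ble (Nat.add (Nat.add z q) q) b)))

/-- The rest of the stream: `s T F U k`. -/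
abbrev Ih := ℕ → ℕ → ℕ → ℕ → (ℕ → ℕ → Bool) → Bool

/-- Add `z` to `F`; a conflict closes the branch. -/
def goF (z : ℕ) (ih : Ih) (s T F U : ℕ) (k : ℕ → ℕ → Bool) : Bool :=
  Bool.rec (force (sb F z) fun F' => ih s T F' U k) (k s U) (tb T z)

/-- Add `z` to `T`; a conflict closes the branch. -/
def goT (z : ℕ) (ih : Ih) (s T F U : ℕ) (k : ℕ → ℕ → Bool) : Bool :=
  Bool.rec (force (sb T z) fun T' => ih s T' F U k) (k s U) (tb F z)

/-- Add `z` and `z'` to `T`; a conflict closes the branch. -/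
def goT2 (z z' : ℕ) (ih : Ih) (s T F U : ℕ) (k : ℕ → ℕ → Bool) : Bool :=
  Bool.rec (Bool.rec (force (sb (sb T z) z') fun T' => ih s T' F U k) (k s U) (tb F z'))
    (k s U) (tb F z)

/-- 0 : decision. -/
def op0 (_p : Par) (x _y : ℕ) (ih : Ih) (s T F U : ℕ) (k : ℕ → ℕ → Bool) : Bool :=
  force (sb T x) fun T' => ih s T' F U fun s' U' => force (sb F x) fun F' => ih s' T F' U' k

/-- 1 : triangle, forces `x + y`. -/
def op1 (p : Par) (x y : ℕ) (ih : Ih) (s T F U : ℕ) (k : ℕ → ℕ → Bool) : Bool :=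
  an (tb T x) (an (tb T y) (an (triOK p.n p.a p.b x y) (goF (Nat.add x y) ih s T F U k)))

/-- 2 : triangle, forces `y`. -/
def op2 (p : Par) (x y : ℕ) (ih : Ih) (s T F U : ℕ) (k : ℕ → ℕ → Bool) : Bool :=
  an (tb T x) (an (tb T (Nat.add x y)) (an (triOK p.n p.a p.b x y) (goF y ih s T F U k)))

/-- 3 : triangle, forces `x`. -/
def op3 (p : Par) (x y : ℕ) (ih : Ih) (s T F U : ℕ) (k : ℕ → ℕ → Bool) : Bool :=
  an (tb T y) (an (tb T (Nat.add x y)) (an (triOK p.n p.a p.b x y) (goF x ih s T F U k)))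

/-- 4 : doubling above `2 n / 3`, forces `2 x`. -/
def op4 (p : Par) (x _y : ℕ) (ih : Ih) (s T F U : ℕ) (k : ℕ → ℕ → Bool) : Bool :=
  an (tb T x) (an (Nat.ble (Nat.succ p.a) (Nat.add (Nat.add x x) x)) (an (Nat.ble x p.n)
    (goF (Nat.add x x) ih s T F U k)))

/-- 5 : doubling above `2 n / 3`, forces `x`. -/
def op5 (p : Par) (x _y : ℕ) (ih : Ih) (s T F U : ℕ) (k : ℕ → ℕ → Bool) : Bool :=
  an (tb T (Nat.add x x)) (an (Nat.ble (Nat.succ p.a) (Nat.add (Nat.add x x) x))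
    (an (Nat.ble x p.n) (goF x ih s T F U k)))

/-- 6 : sum `2 n + 1` or `2 n + 2`, forces `y`. -/
def op6 (p : Par) (x y : ℕ) (ih : Ih) (s T F U : ℕ) (k : ℕ → ℕ → Bool) : Bool :=
  an (tb T x) (an (ro (Nat.beq (Nat.add x y) (Nat.succ p.a))
    (Nat.beq (Nat.add x y) (Nat.succ (Nat.succ p.a)))) (an (Nat.beq (Nat.gcd x y) (nat_lit 1))
    (goF y ih s T F U k)))

/-- 7 : doubling, forces `y`. -/
def op7 (p : Par) (x y : ℕ) (ih : Ih) (s T F U : ℕ) (k : ℕ → ℕ → Bool) : Bool :=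
  an (tb T x) (an (tb T (Nat.add x x)) (an (dblOK p.a p.b x y) (goF y ih s T F U k)))

/-- 8 : doubling, forces `2 x`. -/
def op8 (p : Par) (x y : ℕ) (ih : Ih) (s T F U : ℕ) (k : ℕ → ℕ → Bool) : Bool :=
  an (tb T x) (an (ro (Nat.ble (Nat.succ p.a) y) (tb T y)) (an (dblOK p.a p.b x y)
    (goF (Nat.add x x) ih s T F U k)))

/-- 9 : doubling, forces `x`. -/
def op9 (p : Par) (x y : ℕ) (ih : Ih) (s T F U : ℕ) (k : ℕ → ℕ → Bool) : Bool :=
  an (tb T (Nat.add x x)) (an (ro (Nat.ble (Nat.succ p.a) y) (tb T y)) (an (dblOK p.a p.b x y)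
    (goF x ih s T F U k)))

/-- 10 : label `x` even, `x` and `M - x` speeds, forces `x / 2` and `M - x / 2`. -/
def op10 (p : Par) (x _y : ℕ) (ih : Ih) (s T F U : ℕ) (k : ℕ → ℕ → Bool) : Bool :=
  an (tb F x) (an (tb F (Nat.sub p.M x)) (an (Nat.beq (Nat.land x (nat_lit 1)) (nat_lit 0))
    (an (Nat.ble (nat_lit 1) x) (an (Nat.ble (Nat.succ x) p.M)
    (goT2 (Nat.shiftRight x (nat_lit 1)) (Nat.sub p.M (Nat.shiftRight x (nat_lit 1)))
      ih s T F (sb U x) k)))))

/-- 11 : label `x` even, a half is a speed and `M - y` is a speed, forces `y`,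
where `y = x` or `y = M - x`. -/
def op11 (p : Par) (x y : ℕ) (ih : Ih) (s T F U : ℕ) (k : ℕ → ℕ → Bool) : Bool :=
  an (tb F (Nat.sub p.M y)) (an (ro (tb F (Nat.shiftRight x (nat_lit 1)))
    (tb F (Nat.sub p.M (Nat.shiftRight x (nat_lit 1)))))
    (an (ro (Nat.beq y x) (Nat.beq y (Nat.sub p.M x)))
    (an (Nat.beq (Nat.land x (nat_lit 1)) (nat_lit 0))
    (an (Nat.ble (nat_lit 1) x) (an (Nat.ble (Nat.succ x) p.M) (goT y ih s T F (sb U x) k))))))

/-- 12 : label `M + x`, `x` non-speed, forces `M - 2 x` non-speed. -/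
def op12 (p : Par) (x _y : ℕ) (ih : Ih) (s T F U : ℕ) (k : ℕ → ℕ → Bool) : Bool :=
  an (Nat.ble (nat_lit 1) x) (an (Nat.ble x p.g) (an (tb T x)
    (goT (Nat.sub p.M (Nat.add x x)) ih s T F (sb U (Nat.add p.M x)) k)))

/-- 13 : label `M + x`, `M - 2 x` speed, forces `x` speed. -/
def op13 (p : Par) (x _y : ℕ) (ih : Ih) (s T F U : ℕ) (k : ℕ → ℕ → Bool) : Bool :=
  an (Nat.ble (nat_lit 1) x) (an (Nat.ble x p.g) (an (tb F (Nat.sub p.M (Nat.add x x)))
    (goF x ih s T F (sb U (Nat.add p.M x)) k)))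

/-- 14 : label `x` odd at most `K - 4`; `y = 0`: `x` speed, forces the central pair;
`y > 0` : a member of the central pair is a speed, forces `x` non-speed. -/
def op14 (p : Par) (x y : ℕ) (ih : Ih) (s T F U : ℕ) (k : ℕ → ℕ → Bool) : Bool :=
  an (Nat.beq (Nat.land x (nat_lit 1)) (nat_lit 1)) (an (Nat.ble (Nat.succ x) p.g)
    (Nat.rec (motive := fun _ => Bool)
      (an (tb F x) (goT2 (Nat.shiftRight (Nat.sub p.M x) (nat_lit 1))
        (Nat.shiftRight (Nat.add p.M x) (nat_lit 1)) ih s T F (sb U x) k))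
      (fun _ _ => an (ro (tb F (Nat.shiftRight (Nat.sub p.M x) (nat_lit 1)))
        (tb F (Nat.shiftRight (Nat.add p.M x) (nat_lit 1)))) (goT x ih s T F (sb U x) k)) y))

/-- 15 : label `M + K + x`, `x` even at most `K - 3` : forces `x` non-speed. -/
def op15 (p : Par) (x _y : ℕ) (ih : Ih) (s T F U : ℕ) (k : ℕ → ℕ → Bool) : Bool :=
  an (Nat.beq (Nat.land x (nat_lit 1)) (nat_lit 0)) (an (Nat.ble (nat_lit 1) x)
    (an (Nat.ble x p.g) (goT x ih s T F (sb U (Nat.add (Nat.add p.M p.K) x)) k)))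

/-- Select one of four. -/
def sel (α : Type) (c0 c1 c2 c3 : α) (i : ℕ) : α :=
  Nat.rec (motive := fun _ => α) c0 (fun i _ => Nat.rec (motive := fun _ => α) c1
    (fun i _ => Nat.rec (motive := fun _ => α) c2 (fun _ _ => c3) i) i) i

/-- The type of the instructions. -/
abbrev Op := Par → ℕ → ℕ → Ih → ℕ → ℕ → ℕ → ℕ → (ℕ → ℕ → Bool) → Bool

/-- The instruction with a given number. -/
def ops (i j : ℕ) : Op :=
  sel Op (sel Op op0 op1 op2 op3 i) (sel Op op4 op5 op6 op7 i) (sel Op op8 op9 op10 op11 i)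
    (sel Op op12 op13 op14 op15 i) j

/-- One instruction. -/
def step (p : Par) (ih : Ih) (s T F U : ℕ) (k : ℕ → ℕ → Bool) : Bool :=
  force (Nat.land (Nat.shiftRight s (nat_lit 4)) p.r) fun x =>
  force (Nat.land (Nat.shiftRight s p.u) p.r) fun y =>
  force (Nat.shiftRight s p.v) fun s' =>
  ops (Nat.land s (nat_lit 3)) (Nat.land (Nat.shiftRight s (nat_lit 2)) (nat_lit 3))
    p x y ih s' T F U k

/-- Run the stream. -/
def run (p : Par) (fuel : ℕ) : Ih :=
  Nat.rec (motive := fun _ => Ih) (fun _ _ _ _ _ => false) (fun _ ih => step p ih) fuel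

/-- `c` disjoint cores, disjoint from `A`. -/
def cores (p : Par) (fuel F c : ℕ) : ℕ → ℕ → Bool :=
  Nat.rec (motive := fun _ => ℕ → ℕ → Bool) (fun _ _ => true)
    (fun _ ih s A => run p fuel s (nat_lit 0) F (nat_lit 0) fun s' U =>
      an (Nat.beq (Nat.land U A) (nat_lit 0)) (force (Nat.lor A U) fun A' => ih s' A')) c

/-- The certificate for `n` at the prime `M = 2 n + K`. -/
def chk (n K w fuel s : ℕ) : Bool :=
  force (2 * n) fun a => force (3 * n + 3) fun b => force (2 * n + K) fun M =>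
  force (K - 3) fun g => force (4 + w) fun u => force (4 + 2 * w) fun v =>
  force (2 ^ w - 1) fun r => force (sb 2 (n + 1)) fun F => force ((K - 3) / 2) fun c =>
    cores ⟨n, a, b, M, K, g, u, v, r⟩ fuel F c s 0

end Pool.Agent.LR4
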