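import Mathlib
import Pool.Agent.LR4.Chk

/-!
Lonely runner with speeds at most `2 n`: the finite core of the arithmetic progression lemma.

`A t` means that `u t` is not a speed, `B t` means that `M - u t` is not a speed. A certificate is a
binary decision tree, encoded as a stream of 19 bit instructions: the operations `0`, `1` split on
`A x`, `B x`; the others are leaves, each names a violated constraint.
-/

namespace Pool.Agent.LR4

/-- The condition under which `u x` and `M - u v` are coprime (`u` coprime to `M`, `M` coprime to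
`30`, `M ≡ c3 u` mod `3`, `M ≡ c5 u` mod `5`). -/
def apOK (c3 c5 x v : ℕ) : Bool :=
  Nat.beq (Nat.mod 1296000 x) 0 &&
    (Nat.beq (Nat.mod x 2) 1 || Nat.beq (Nat.mod v 2) 0) &&
    (!(Nat.beq (Nat.mod x 3) 0) || !(Nat.beq (Nat.mod v 3) c3)) &&
    (!(Nat.beq (Nat.mod x 5) 0) || !(Nat.beq (Nat.mod v 5) c5))

/-- The leaves of a certificate. -/
def apLeaf (c3 c5 P N op x v : ℕ) : Bool :=
  bif Nat.beq op 2 then
    Nat.ble 1 x && Nat.ble x 100 && tb P (2 * x) && tb P (4 * x)
  else bif Nat.beq op 3 then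
    Nat.ble 1 x && Nat.ble x 100 && tb N (4 * x) && tb N (4 * x + 1) && tb N (2 * x)
  else bif Nat.beq op 4 then
    Nat.ble 1 x && Nat.ble x 100 && tb N (4 * x) && tb N (4 * x + 1) && tb N (2 * x + 1)
  else bif Nat.beq op 6 then
    Nat.ble 1 x && Nat.ble 1 v && Nat.ble v x && Nat.ble (v + x) 200 && apOK c3 c5 x v &&
      tb P (2 * x) && tb P (2 * v + 1) && tb P (2 * (v + x) + 1)
  else bif Nat.beq op 7 then
    Nat.ble 1 x && Nat.ble 1 v && Nat.ble (v + 2 * x) 200 && apOK c3 c5 x v &&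
      tb P (2 * x) && tb P (2 * v + 1) && tb P (2 * (v + x) + 1) && tb P (2 * (v + 2 * x) + 1)
  else false

/-- One instruction. -/
def apStep (c3 c5 : ℕ) (ih : ℕ → ℕ → ℕ → (ℕ → Bool) → Bool)
    (s P N : ℕ) (k : ℕ → Bool) : Bool :=
  force (Nat.land s 7) fun op =>
  force (Nat.land (Nat.shiftRight s 3) 255) fun x =>
  force (Nat.land (Nat.shiftRight s 11) 255) fun v =>
  force (Nat.shiftRight s 19) fun s' =>
  bif Nat.beq op 0 then
    force (sb P (2 * x)) fun P' => ih s' P' N fun s'' => force (sb N (2 * x)) fun N' => ih s'' P N' k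
  else bif Nat.beq op 1 then
    force (sb P (2 * x + 1)) fun P' => ih s' P' N fun s'' =>
      force (sb N (2 * x + 1)) fun N' => ih s'' P N' k
  else apLeaf c3 c5 P N op x v && k s'

/-- Run the stream. -/
def apRun (c3 c5 fuel : ℕ) : ℕ → ℕ → ℕ → (ℕ → Bool) → Bool :=
  Nat.rec (motive := fun _ => ℕ → ℕ → ℕ → (ℕ → Bool) → Bool)
    (fun _ _ _ _ => false) (fun _ ih => apStep c3 c5 ih) fuel

/-- The certificate `s` refutes `A 4`. -/
def apChk (c3 c5 fuel s : ℕ) : Bool := apRun c3 c5 fuel s 256 0 fun _ => true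

/-- The constraints satisfied by the missing speeds among `u t` and `M - u t`. -/
structure ApFacts (c3 c5 : ℕ) (A B : ℕ → Prop) : Prop where
  dbl : ∀ t : ℕ, 1 ≤ t → t ≤ 100 → A t → ¬ A (2 * t)
  labA : ∀ t : ℕ, 1 ≤ t → t ≤ 100 → ¬ A (2 * t) → ¬ B (2 * t) → A t
  labB : ∀ t : ℕ, 1 ≤ t → t ≤ 100 → ¬ A (2 * t) → ¬ B (2 * t) → B t
  tri : ∀ x v : ℕ, 1 ≤ x → 1 ≤ v → v ≤ x → v + x ≤ 200 → apOK c3 c5 x v = true →
    A x → B v → ¬ B (v + x)
  quad : ∀ x v : ℕ, 1 ≤ x → 1 ≤ v → v + 2 * x ≤ 200 → apOK c3 c5 x v = true →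
    A x → B v → B (v + x) → ¬ B (v + 2 * x)

theorem force_eq (m : ℕ) (k : ℕ → Bool) : force m k = k m := by
  cases m <;> rfl

theorem tb_eq (m i : ℕ) : tb m i = m.testBit i := by
  have h1 : Nat.land (Nat.shiftRight m i) 1 = (m >>> i) % 2 := Nat.and_one_is_mod _
  unfold tb
  rw [h1, Nat.testBit_eq_decide_div_mod_eq, Nat.shiftRight_eq_div_pow]
  rcases Nat.mod_two_eq_zero_or_one (m / 2 ^ i) with h | h <;> rw [h] <;> rfl

theorem sb_testBit (m i j : ℕ) : (sb m i).testBit j = (m.testBit j || decide (i = j)) := by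
  have h1 : sb m i = m ||| (1 <<< i) := rfl
  rw [h1, Nat.testBit_or, Nat.one_shiftLeft, Nat.testBit_two_pow]

/-- The value of a variable. -/
private def apVal (A B : ℕ → Prop) (i : ℕ) : Prop := if i % 2 = 0 then A (i / 2) else B (i / 2)

private theorem apVal_even (A B : ℕ → Prop) (x : ℕ) : apVal A B (2 * x) ↔ A x := by
  unfold apVal
  rw [if_pos (by omega)]
  have : 2 * x / 2 = x := by omega
  rw [this]

private theorem apVal_odd (A B : ℕ → Prop) (x : ℕ) : apVal A B (2 * x + 1) ↔ B x := by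
  unfold apVal
  rw [if_neg (by omega)]
  have : (2 * x + 1) / 2 = x := by omega
  rw [this]

private theorem apLeaf_sound {c3 c5 : ℕ} {A B : ℕ → Prop} (hf : ApFacts c3 c5 A B)
    (P N op x v : ℕ) (h : apLeaf c3 c5 P N op x v = true)
    (hP : ∀ i, P.testBit i = true → apVal A B i) (hN : ∀ i, N.testBit i = true → ¬ apVal A B i) :
    False := by
  have h4 : 4 * x = 2 * (2 * x) := by ring
  unfold apLeaf at h
  by_cases h2 : Nat.beq op 2 = true
  · rw [h2, cond_true] at h
    simp only [Bool.and_eq_true, Nat.ble_eq, tb_eq] at h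
    obtain ⟨⟨⟨h1, h3⟩, h5⟩, h6⟩ := h
    have a1 := (apVal_even A B x).1 (hP _ h5)
    rw [h4] at h6
    have a2 := (apVal_even A B _).1 (hP _ h6)
    exact hf.dbl x h1 h3 a1 a2
  · rw [Bool.not_eq_true] at h2
    rw [h2, cond_false] at h
    by_cases h2 : Nat.beq op 3 = true
    · rw [h2, cond_true] at h
      simp only [Bool.and_eq_true, Nat.ble_eq, tb_eq] at h
      obtain ⟨⟨⟨⟨h1, h3⟩, h5⟩, h6⟩, h7⟩ := h
      rw [h4] at h5 h6
      have a1 := fun hh => hN _ h5 ((apVal_even A B _).2 hh)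
      have a2 := fun hh => hN _ h6 ((apVal_odd A B _).2 hh)
      have a3 := fun hh => hN _ h7 ((apVal_even A B _).2 hh)
      exact a3 (hf.labA x h1 h3 a1 a2)
    · rw [Bool.not_eq_true] at h2
      rw [h2, cond_false] at h
      by_cases h2 : Nat.beq op 4 = true
      · rw [h2, cond_true] at h
        simp only [Bool.and_eq_true, Nat.ble_eq, tb_eq] at h
        obtain ⟨⟨⟨⟨h1, h3⟩, h5⟩, h6⟩, h7⟩ := h
        rw [h4] at h5 h6
        have a1 := fun hh => hN _ h5 ((apVal_even A B _).2 hh)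
        have a2 := fun hh => hN _ h6 ((apVal_odd A B _).2 hh)
        have a3 := fun hh => hN _ h7 ((apVal_odd A B _).2 hh)
        exact a3 (hf.labB x h1 h3 a1 a2)
      · rw [Bool.not_eq_true] at h2
        rw [h2, cond_false] at h
        by_cases h2 : Nat.beq op 6 = true
        · rw [h2, cond_true] at h
          simp only [Bool.and_eq_true, Nat.ble_eq, tb_eq] at h
          obtain ⟨⟨⟨⟨⟨⟨⟨h1, h3⟩, h5⟩, h6⟩, h7⟩, h8⟩, h9⟩, h10⟩ := h
          exact hf.tri x v h1 h3 h5 h6 h7 ((apVal_even A B _).1 (hP _ h8))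
            ((apVal_odd A B _).1 (hP _ h9)) ((apVal_odd A B _).1 (hP _ h10))
        · rw [Bool.not_eq_true] at h2
          rw [h2, cond_false] at h
          by_cases h2 : Nat.beq op 7 = true
          · rw [h2, cond_true] at h
            simp only [Bool.and_eq_true, Nat.ble_eq, tb_eq] at h
            obtain ⟨⟨⟨⟨⟨⟨⟨h1, h3⟩, h6⟩, h7⟩, h8⟩, h9⟩, h10⟩, h11⟩ := h
            exact hf.quad x v h1 h3 h6 h7 ((apVal_even A B _).1 (hP _ h8))
              ((apVal_odd A B _).1 (hP _ h9)) ((apVal_odd A B _).1 (hP _ h10))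
              ((apVal_odd A B _).1 (hP _ h11))
          · rw [Bool.not_eq_true] at h2
            rw [h2, cond_false] at h
            exact Bool.false_ne_true h

private theorem apVal_split {A B : ℕ → Prop} {P N i : ℕ}
    (hP : ∀ j, P.testBit j = true → apVal A B j) (hN : ∀ j, N.testBit j = true → ¬ apVal A B j)
    (h1 : (∀ j, (sb P i).testBit j = true → apVal A B j) →
      (∀ j, N.testBit j = true → ¬ apVal A B j) → False)
    (h2 : (∀ j, P.testBit j = true → apVal A B j) →
      (∀ j, (sb N i).testBit j = true → ¬ apVal A B j) → False) : False := by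
  by_cases hv : apVal A B i
  · refine h1 (fun j hj => ?_) hN
    rw [sb_testBit, Bool.or_eq_true, decide_eq_true_eq] at hj
    rcases hj with hj | rfl
    · exact hP j hj
    · exact hv
  · refine h2 hP (fun j hj => ?_)
    rw [sb_testBit, Bool.or_eq_true, decide_eq_true_eq] at hj
    rcases hj with hj | rfl
    · exact hN j hj
    · exact hv

private theorem apRun_sound {c3 c5 : ℕ} {A B : ℕ → Prop} (hf : ApFacts c3 c5 A B) :
    ∀ (fuel s P N : ℕ) (k : ℕ → Bool), apRun c3 c5 fuel s P N k = true →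
      (∃ s', k s' = true) ∧ ((∀ i, P.testBit i = true → apVal A B i) →
        (∀ i, N.testBit i = true → ¬ apVal A B i) → False) := by
  intro fuel
  induction fuel with
  | zero =>
    intro s P N k h
    exact absurd h Bool.false_ne_true
  | succ fuel ih =>
    intro s P N k h
    change apStep c3 c5 (apRun c3 c5 fuel) s P N k = true at h
    unfold apStep at h
    simp only [force_eq] at h
    generalize Nat.land s 7 = op at h
    generalize Nat.land (Nat.shiftRight s 3) 255 = x at h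
    generalize Nat.land (Nat.shiftRight s 11) 255 = v at h
    generalize Nat.shiftRight s 19 = s' at h
    by_cases h2 : Nat.beq op 0 = true
    · rw [h2, cond_true] at h
      obtain ⟨⟨s1, hs1⟩, hl⟩ := ih _ _ _ _ h
      obtain ⟨⟨s2, hs2⟩, hr⟩ := ih _ _ _ _ hs1
      exact ⟨⟨s2, hs2⟩, fun hP hN => apVal_split hP hN hl hr⟩
    · rw [Bool.not_eq_true] at h2
      rw [h2, cond_false] at h
      by_cases h2 : Nat.beq op 1 = true
      · rw [h2, cond_true] at h
        obtain ⟨⟨s1, hs1⟩, hl⟩ := ih _ _ _ _ h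
        obtain ⟨⟨s2, hs2⟩, hr⟩ := ih _ _ _ _ hs1
        exact ⟨⟨s2, hs2⟩, fun hP hN => apVal_split hP hN hl hr⟩
      · rw [Bool.not_eq_true] at h2
        rw [h2, cond_false, Bool.and_eq_true] at h
        exact ⟨⟨s', h.2⟩, apLeaf_sound hf P N op x v h.1⟩

/-- Soundness of the checker. -/
theorem apChk_sound {c3 c5 fuel s : ℕ} {A B : ℕ → Prop} (hf : ApFacts c3 c5 A B)
    (h : apChk c3 c5 fuel s = true) : ¬ A 4 := by
  intro h4
  refine (apRun_sound hf fuel s 256 0 _ h).2 (fun i hi => ?_) (fun i hi => ?_)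
  · have h1 : (256 : ℕ) = 2 ^ 8 := by norm_num
    rw [h1, Nat.testBit_two_pow, decide_eq_true_eq] at hi
    subst hi
    exact (apVal_even A B 4).2 h4
  · rw [Nat.zero_testBit] at hi
    exact absurd hi Bool.false_ne_true

end Pool.Agent.LR4
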