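import Mathlib
import Pool.Agent.LR4.ApDefs
import Pool.Agent.LR4.Edges

/-!
Lonely runner with speeds at most `2 n`: the arithmetic progression lemma for multiples of `210`.
Let `V` be a counterexample and `M > 2 n` be coprime to `210`. If `j` is coprime to `M`,
`M - 2 n ≤ 210 j`, `12600 j ≤ n` and none of the 15 pairs `210 j t`, `M - 210 j t` (`t ∈ apLab`) is
exceptional, then `M - 1680 j` is not a speed.
-/

namespace Pool.Agent.LR4

/-- The labels used. -/
def apLab : Finset ℕ := {1, 2, 3, 4, 5, 6, 7, 8, 9, 10, 12, 14, 16, 18, 20}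

private def asLab (t : ℕ) : Bool :=
  Nat.ble 1 t && (Nat.ble t 10 || (Nat.ble t 20 && Nat.beq (Nat.mod t 2) 0))

/-- The leaves of the certificate. -/
private def asLeaf (P N op x v : ℕ) : Bool :=
  bif Nat.beq op 2 then
    Nat.ble 1 x && Nat.ble x 20 && tb P (2 * x) && tb P (4 * x)
  else bif Nat.beq op 3 then
    asLab x && tb N (4 * x) && tb N (4 * x + 1) && tb N (2 * x)
  else bif Nat.beq op 4 then
    asLab x && tb N (4 * x) && tb N (4 * x + 1) && tb N (2 * x + 1)
  else bif Nat.beq op 6 then
    Nat.ble 1 x && Nat.ble 1 v && Nat.ble v x && Nat.ble (v + x) 40 &&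
      Nat.beq (Nat.mod 151200 x) 0 &&
      tb P (2 * x) && tb P (2 * v + 1) && tb P (2 * (v + x) + 1)
  else bif Nat.beq op 7 then
    Nat.ble 1 x && Nat.ble 1 v && Nat.ble (v + 2 * x) 40 && Nat.beq (Nat.mod 151200 x) 0 &&
      tb P (2 * x) && tb P (2 * v + 1) && tb P (2 * (v + x) + 1) && tb P (2 * (v + 2 * x) + 1)
  else false

/-- One instruction. -/
private def asStep (ih : ℕ → ℕ → ℕ → (ℕ → Bool) → Bool)
    (s P N : ℕ) (k : ℕ → Bool) : Bool :=
  force (Nat.land s 7) fun op =>
  force (Nat.land (Nat.shiftRight s 3) 255) fun x =>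
  force (Nat.land (Nat.shiftRight s 11) 255) fun v =>
  force (Nat.shiftRight s 19) fun s' =>
  bif Nat.beq op 0 then
    force (sb P (2 * x)) fun P' => ih s' P' N fun s'' => force (sb N (2 * x)) fun N' => ih s'' P N' k
  else bif Nat.beq op 1 then
    force (sb P (2 * x + 1)) fun P' => ih s' P' N fun s'' =>
      force (sb N (2 * x + 1)) fun N' => ih s'' P N' k
  else asLeaf P N op x v && k s'

/-- Run the stream. -/
private def asRun (fuel : ℕ) : ℕ → ℕ → ℕ → (ℕ → Bool) → Bool :=
  Nat.rec (motive := fun _ => ℕ → ℕ → ℕ → (ℕ → Bool) → Bool)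
    (fun _ _ _ _ => false) (fun _ ih => asStep ih) fuel

/-- The constraints satisfied by the missing speeds among `u t` and `M - u t`. -/
private structure AsFacts (A B : ℕ → Prop) : Prop where
  dbl : ∀ t : ℕ, 1 ≤ t → t ≤ 20 → A t → ¬ A (2 * t)
  labA : ∀ t : ℕ, asLab t = true → ¬ A (2 * t) → ¬ B (2 * t) → A t
  labB : ∀ t : ℕ, asLab t = true → ¬ A (2 * t) → ¬ B (2 * t) → B t
  tri : ∀ x v : ℕ, 1 ≤ x → 1 ≤ v → v ≤ x → v + x ≤ 40 → x ∣ 151200 →
    A x → B v → ¬ B (v + x)
  quad : ∀ x v : ℕ, 1 ≤ x → 1 ≤ v → v + 2 * x ≤ 40 → x ∣ 151200 →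
    A x → B v → B (v + x) → ¬ B (v + 2 * x)

/-- The value of a variable. -/
private def asVal (A B : ℕ → Prop) (i : ℕ) : Prop := if i % 2 = 0 then A (i / 2) else B (i / 2)

private theorem asVal_even (A B : ℕ → Prop) (x : ℕ) : asVal A B (2 * x) ↔ A x := by
  unfold asVal
  rw [if_pos (by omega)]
  have : 2 * x / 2 = x := by omega
  rw [this]

private theorem asVal_odd (A B : ℕ → Prop) (x : ℕ) : asVal A B (2 * x + 1) ↔ B x := by
  unfold asVal
  rw [if_neg (by omega)]
  have : (2 * x + 1) / 2 = x := by omega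
  rw [this]

private theorem asLeaf_sound {A B : ℕ → Prop} (hf : AsFacts A B)
    (P N op x v : ℕ) (h : asLeaf P N op x v = true)
    (hP : ∀ i, P.testBit i = true → asVal A B i) (hN : ∀ i, N.testBit i = true → ¬ asVal A B i) :
    False := by
  have h4 : 4 * x = 2 * (2 * x) := by ring
  unfold asLeaf at h
  by_cases h2 : Nat.beq op 2 = true
  · rw [h2, cond_true] at h
    simp only [Bool.and_eq_true, Nat.ble_eq, tb_eq] at h
    obtain ⟨⟨⟨h1, h3⟩, h5⟩, h6⟩ := h
    have a1 := (asVal_even A B x).1 (hP _ h5)
    rw [h4] at h6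
    have a2 := (asVal_even A B _).1 (hP _ h6)
    exact hf.dbl x h1 h3 a1 a2
  · rw [Bool.not_eq_true] at h2
    rw [h2, cond_false] at h
    by_cases h2 : Nat.beq op 3 = true
    · rw [h2, cond_true] at h
      simp only [Bool.and_eq_true, tb_eq] at h
      obtain ⟨⟨⟨h1, h5⟩, h6⟩, h7⟩ := h
      rw [h4] at h5 h6
      have a1 := fun hh => hN _ h5 ((asVal_even A B _).2 hh)
      have a2 := fun hh => hN _ h6 ((asVal_odd A B _).2 hh)
      have a3 := fun hh => hN _ h7 ((asVal_even A B _).2 hh)
      exact a3 (hf.labA x h1 a1 a2)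
    · rw [Bool.not_eq_true] at h2
      rw [h2, cond_false] at h
      by_cases h2 : Nat.beq op 4 = true
      · rw [h2, cond_true] at h
        simp only [Bool.and_eq_true, tb_eq] at h
        obtain ⟨⟨⟨h1, h5⟩, h6⟩, h7⟩ := h
        rw [h4] at h5 h6
        have a1 := fun hh => hN _ h5 ((asVal_even A B _).2 hh)
        have a2 := fun hh => hN _ h6 ((asVal_odd A B _).2 hh)
        have a3 := fun hh => hN _ h7 ((asVal_odd A B _).2 hh)
        exact a3 (hf.labB x h1 a1 a2)
      · rw [Bool.not_eq_true] at h2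
        rw [h2, cond_false] at h
        by_cases h2 : Nat.beq op 6 = true
        · rw [h2, cond_true] at h
          simp only [Bool.and_eq_true, Nat.ble_eq, tb_eq] at h
          obtain ⟨⟨⟨⟨⟨⟨⟨h1, h3⟩, h5⟩, h6⟩, h7⟩, h8⟩, h9⟩, h10⟩ := h
          exact hf.tri x v h1 h3 h5 h6 (Nat.dvd_of_mod_eq_zero (Nat.eq_of_beq_eq_true h7))
            ((asVal_even A B _).1 (hP _ h8))
            ((asVal_odd A B _).1 (hP _ h9)) ((asVal_odd A B _).1 (hP _ h10))
        · rw [Bool.not_eq_true] at h2
          rw [h2, cond_false] at h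
          by_cases h2 : Nat.beq op 7 = true
          · rw [h2, cond_true] at h
            simp only [Bool.and_eq_true, Nat.ble_eq, tb_eq] at h
            obtain ⟨⟨⟨⟨⟨⟨⟨h1, h3⟩, h6⟩, h7⟩, h8⟩, h9⟩, h10⟩, h11⟩ := h
            exact hf.quad x v h1 h3 h6 (Nat.dvd_of_mod_eq_zero (Nat.eq_of_beq_eq_true h7))
              ((asVal_even A B _).1 (hP _ h8))
              ((asVal_odd A B _).1 (hP _ h9)) ((asVal_odd A B _).1 (hP _ h10))
              ((asVal_odd A B _).1 (hP _ h11))
          · rw [Bool.not_eq_true] at h2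
            rw [h2, cond_false] at h
            exact Bool.false_ne_true h

private theorem asVal_split {A B : ℕ → Prop} {P N i : ℕ}
    (hP : ∀ j, P.testBit j = true → asVal A B j) (hN : ∀ j, N.testBit j = true → ¬ asVal A B j)
    (h1 : (∀ j, (sb P i).testBit j = true → asVal A B j) →
      (∀ j, N.testBit j = true → ¬ asVal A B j) → False)
    (h2 : (∀ j, P.testBit j = true → asVal A B j) →
      (∀ j, (sb N i).testBit j = true → ¬ asVal A B j) → False) : False := by
  by_cases hv : asVal A B i
  · refine h1 (fun j hj => ?_) hN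
    rw [sb_testBit, Bool.or_eq_true, decide_eq_true_eq] at hj
    rcases hj with hj | rfl
    · exact hP j hj
    · exact hv
  · refine h2 hP (fun j hj => ?_)
    rw [sb_testBit, Bool.or_eq_true, decide_eq_true_eq] at hj
    rcases hj with hj | rfl
    · exact hN j hj
    · exact hv

private theorem asRun_sound {A B : ℕ → Prop} (hf : AsFacts A B) :
    ∀ (fuel s P N : ℕ) (k : ℕ → Bool), asRun fuel s P N k = true →
      (∃ s', k s' = true) ∧ ((∀ i, P.testBit i = true → asVal A B i) →
        (∀ i, N.testBit i = true → ¬ asVal A B i) → False) := by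
  intro fuel
  induction fuel with
  | zero =>
    intro s P N k h
    exact absurd h Bool.false_ne_true
  | succ fuel ih =>
    intro s P N k h
    change asStep (asRun fuel) s P N k = true at h
    unfold asStep at h
    simp only [force_eq] at h
    generalize Nat.land s 7 = op at h
    generalize Nat.land (Nat.shiftRight s 3) 255 = x at h
    generalize Nat.land (Nat.shiftRight s 11) 255 = v at h
    generalize Nat.shiftRight s 19 = s' at h
    by_cases h2 : Nat.beq op 0 = true
    · rw [h2, cond_true] at h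
      obtain ⟨⟨s1, hs1⟩, hl⟩ := ih _ _ _ _ h
      obtain ⟨⟨s2, hs2⟩, hr⟩ := ih _ _ _ _ hs1
      exact ⟨⟨s2, hs2⟩, fun hP hN => asVal_split hP hN hl hr⟩
    · rw [Bool.not_eq_true] at h2
      rw [h2, cond_false] at h
      by_cases h2 : Nat.beq op 1 = true
      · rw [h2, cond_true] at h
        obtain ⟨⟨s1, hs1⟩, hl⟩ := ih _ _ _ _ h
        obtain ⟨⟨s2, hs2⟩, hr⟩ := ih _ _ _ _ hs1
        exact ⟨⟨s2, hs2⟩, fun hP hN => asVal_split hP hN hl hr⟩
      · rw [Bool.not_eq_true] at h2
        rw [h2, cond_false, Bool.and_eq_true] at h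
        exact ⟨⟨s', h.2⟩, asLeaf_sound hf P N op x v h.1⟩

/-- The certificate. -/
private def asCert : ℕ :=
  0x9000098001400088000f0001580054000960425800480801700122002840029000a0000a0040b800140384e00090000e4001a01066000c01805c00308304600062001c4082300051020ec001c0004080011000200010800400002200040001000022000840004600290004a00073000c83009c006086086000c2083180060000e1040ec001c00048900270024208498009000141000a6001d000320c02700182182180030820c60018000384102b00071000a000288005000140041cc0038000100010100084001001043000a10010400400004000053001480018c4063000c000282082980060800a2002800028000118003300068000ac00060082e00012000a00813000110406c001440018800300c04e0018400090001000040000cc001a0002b0001800130004a0007400106083980080800e00420c004005023800e100242002480090000901002e0024400080003c0205c000e4083b0007000022020b800048202e00092000a01823000710406c001440018800300408c001840020020860010000284001a000230001800150000d820360006002078000c00051000121809c0050800120002000080082b000110408c001000030830560006200148005000050040cc00180004080021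

private theorem asCert_ok : asRun 200 asCert 0 131072 (fun _ => true) = true := by
  decide +kernel

private theorem as_core {A B : ℕ → Prop} (hf : AsFacts A B) : B 8 := by
  by_contra h8
  refine (asRun_sound hf 200 asCert 0 131072 _ asCert_ok).2 (fun i hi => ?_) (fun i hi => ?_)
  · rw [Nat.zero_testBit] at hi
    exact absurd hi Bool.false_ne_true
  · have h1 : (131072 : ℕ) = 2 ^ 17 := by norm_num
    rw [h1, Nat.testBit_two_pow, decide_eq_true_eq] at hi
    subst hi
    exact fun h => h8 ((asVal_odd A B 8).1 h)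

private theorem as_lab {t : ℕ} (h : asLab t = true) : t ∈ apLab := by
  unfold asLab at h
  simp only [Bool.and_eq_true, Bool.or_eq_true, Nat.ble_eq] at h
  obtain ⟨h1, h2⟩ := h
  have h3 : t ≤ 20 := by
    rcases h2 with h2 | h2
    · omega
    · exact h2.1
  have h4 : t ≤ 10 ∨ t % 2 = 0 := by
    rcases h2 with h2 | h2
    · exact Or.inl h2
    · exact Or.inr (Nat.eq_of_beq_eq_true h2.2)
  unfold apLab
  simp only [Finset.mem_insert, Finset.mem_singleton]
  omega

private theorem as_cop {M j x v : ℕ} (h210 : Nat.Coprime M 210) (hj : Nat.Coprime j M)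
    (hx : x ∣ 151200) (huv : 210 * j * v ≤ M) : Nat.Coprime (210 * j * x) (M - 210 * j * v) := by
  refine Nat.coprime_of_dvd fun p hp hpx hpM => ?_
  have hpM' : p ∣ 210 * j * v → False := fun hh => by
    have h1 : M = (M - 210 * j * v) + 210 * j * v := by omega
    have h2 : p ∣ M := by
      rw [h1]
      exact dvd_add hpM hh
    have h3 : Nat.Coprime (210 * j) M := Nat.Coprime.mul_left h210.symm hj
    have h5 : p ∣ 210 * j := by
      rcases (Nat.Prime.dvd_mul hp).1 hpx with h6 | h6
      · exact h6
      · have h7 : p ∣ 2 ^ 5 * 3 ^ 3 * (5 ^ 2 * 7) := by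
          have : (2 : ℕ) ^ 5 * 3 ^ 3 * (5 ^ 2 * 7) = 151200 := by norm_num
          rw [this]
          exact h6.trans hx
        have h8 : p ∣ 210 := by
          rcases (Nat.Prime.dvd_mul hp).1 h7 with h7 | h7
          · rcases (Nat.Prime.dvd_mul hp).1 h7 with h7 | h7
            · exact (hp.dvd_of_dvd_pow h7).trans (by norm_num)
            · exact (hp.dvd_of_dvd_pow h7).trans (by norm_num)
          · rcases (Nat.Prime.dvd_mul hp).1 h7 with h7 | h7
            · exact (hp.dvd_of_dvd_pow h7).trans (by norm_num)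
            · exact h7.trans (by norm_num)
        exact h8.mul_right j
    have h9 := Nat.dvd_gcd h5 h2
    rw [h3] at h9
    exact hp.one_lt.ne' (Nat.dvd_one.1 h9)
  rcases (Nat.Prime.dvd_mul hp).1 hpx with h6 | h6
  · exact hpM' (h6.mul_right v)
  · have h7 : p ∣ 2 ^ 5 * 3 ^ 3 * (5 ^ 2 * 7) := by
      have : (2 : ℕ) ^ 5 * 3 ^ 3 * (5 ^ 2 * 7) = 151200 := by norm_num
      rw [this]
      exact h6.trans hx
    have h8 : p ∣ 210 := by
      rcases (Nat.Prime.dvd_mul hp).1 h7 with h7 | h7
      · rcases (Nat.Prime.dvd_mul hp).1 h7 with h7 | h7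
        · exact (hp.dvd_of_dvd_pow h7).trans (by norm_num)
        · exact (hp.dvd_of_dvd_pow h7).trans (by norm_num)
      · rcases (Nat.Prime.dvd_mul hp).1 h7 with h7 | h7
        · exact (hp.dvd_of_dvd_pow h7).trans (by norm_num)
        · exact h7.trans (by norm_num)
    exact hpM' ((h8.mul_right j).mul_right v)

/-- The arithmetic progression lemma for multiples of `210`. -/
theorem apS {n : ℕ} {V : Finset ℕ} (h : Cex n V) {M j : ℕ} (hM : 2 * n < M)
    (hMj : M ≤ 2 * n + 210 * j) (h210 : Nat.Coprime M 210) (hj : Nat.Coprime j M)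
    (hjn : 12600 * j ≤ n)
    (hlab : ∀ t ∈ apLab, 210 * j * (2 * t) ∈ V → M - 210 * j * (2 * t) ∈ V →
      210 * j * t ∉ V ∧ M - 210 * j * t ∉ V) : M - 1680 * j ∉ V := by
  have hj0 : 0 < j := by omega
  have hf : AsFacts (fun t => 210 * j * t ∉ V) (fun t => M - 210 * j * t ∉ V) := by
    constructor
    · -- doubling
      intro t ht1 ht2 h1 h2
      have hq0 : 0 < 210 * j * t := Nat.mul_pos (by omega) ht1
      have hq1 : 210 * j * t ≤ 210 * j * 20 := Nat.mul_le_mul_left _ ht2
      have hdm := Nat.div_add_mod (2 * n) (210 * j * t)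
      have hmod := Nat.mod_lt (2 * n) hq0
      have h3 := h.dbl (q := 210 * j * t) (z := (210 * j * t) * (2 * n / (210 * j * t) + 1) + 1) hq0
        (by
          rw [Nat.coprime_comm]
          exact (Nat.coprime_mul_left_add_right _ _ _).2 (Nat.coprime_one_right _)) (by
        rw [mul_add, mul_one]; omega) (by rw [mul_add, mul_one]; omega) h1
      apply h2
      have h4 : 210 * j * (2 * t) = 2 * (210 * j * t) := by ring
      rw [h4]
      exact h3
    · intro t ht h1 h2
      exact (hlab t (as_lab ht) (not_not.1 h1) (not_not.1 h2)).1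
    · intro t ht h1 h2
      exact (hlab t (as_lab ht) (not_not.1 h1) (not_not.1 h2)).2
    · intro x v hx hv hvx hvx2 hok h1 h2 h6
      have e1 : 210 * j * (v + x) = 210 * j * v + 210 * j * x := by ring
      have e2 : 210 * j * (v + x) ≤ 210 * j * 40 := Nat.mul_le_mul_left _ hvx2
      have e3 : 210 * j * v ≤ 210 * j * x := Nat.mul_le_mul_left _ hvx
      have e4 : 210 * j * 1 ≤ 210 * j * v := Nat.mul_le_mul_left _ hv
      have e5 : 210 * j * 1 ≤ 210 * j * x := Nat.mul_le_mul_left _ hx
      have hcop := as_cop (v := v) h210 hj hok (by omega)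
      have e6 : M - 210 * j * v = 210 * j * x + (M - 210 * j * (v + x)) := by omega
      rw [e6] at hcop h2
      exact h2 (h.tri (by omega) (by omega) (by simpa using hcop) (by omega) (by omega)
        (Or.inr ⟨by omega, Or.inl (by omega)⟩) h1 h6)
    · intro x v hx hv hvx2 hok h1 h2 h6 h7
      have e1 : 210 * j * (v + x) = 210 * j * v + 210 * j * x := by ring
      have e7 : 210 * j * (v + 2 * x) = 210 * j * v + 2 * (210 * j * x) := by ring
      have e2 : 210 * j * (v + 2 * x) ≤ 210 * j * 40 := Nat.mul_le_mul_left _ hvx2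
      have e4 : 210 * j * 1 ≤ 210 * j * v := Nat.mul_le_mul_left _ hv
      have e5 : 210 * j * 1 ≤ 210 * j * x := Nat.mul_le_mul_left _ hx
      have hcop := as_cop (v := v) h210 hj hok (by omega)
      have e6 : M - 210 * j * v = 2 * (210 * j * x) + (M - 210 * j * (v + 2 * x)) := by omega
      have e8 : M - 210 * j * (v + x) = 210 * j * x + (M - 210 * j * (v + 2 * x)) := by omega
      rw [e6] at hcop h2
      rw [e8] at h6
      refine h2 (h.T4 (by omega) (by omega) ?_ (by omega) (by omega) (by omega) h1 h7 h6)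
      have : Nat.Coprime (210 * j * x) (M - 210 * j * (v + 2 * x) + (210 * j * x) * 2) := by
        rw [add_comm, mul_comm (210 * j * x) 2]
        exact hcop
      simpa using this
  have h8 := as_core hf
  have e : 210 * j * 8 = 1680 * j := by ring
  rw [← e]
  exact h8

end Pool.Agent.LR4
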