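import Mathlib
import Pool.Agent.LR4.Acc
import Pool.Agent.LR4.Chk

/-!
Lonely runner with speeds at most `2 n`: the facts used by the kernel checker and the meaning of
its labels.
-/

namespace Pool.Agent.LR4

open Finset

/-- The facts about a counterexample `V` used by the checker. -/
structure Fct (n : ℕ) (V : Finset ℕ) : Prop where
  one : 1 ∈ V
  succ : n + 1 ∈ V
  tri : ∀ x y : ℕ, x < y → Nat.gcd x y = 1 → n < x + y → x + y ≤ 2 * n →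
    ((y ≤ n ∧ 2 * n < x + 2 * y) ∨ (n < y ∧ (2 * n < 2 * x + y ∨ x + 2 * y ≤ 3 * n + 3))) →
    x ∉ V → y ∉ V → x + y ∈ V
  dh : ∀ x : ℕ, 2 * n < 3 * x → x ≤ n → x ∉ V → 2 * x ∈ V
  pr : ∀ x y : ℕ, (x + y = 2 * n + 1 ∨ x + y = 2 * n + 2) → Nat.gcd x y = 1 → x ∉ V → y ∈ V
  db : ∀ q z : ℕ, 1 ≤ q → Nat.gcd z q = 1 → 2 * n < z + q → z + 2 * q ≤ 3 * n + 3 →
    q ∉ V → 2 * q ∉ V → z ∉ V → False
  out : ∀ x : ℕ, 2 * n < x → x ∉ V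

/-- The label `c` is a defect of `V`. -/
def Dfc (M K : ℕ) (V : Finset ℕ) (c : ℕ) : Prop :=
  (c % 2 = 0 ∧ 0 < c ∧ c < M ∧ c ∈ V ∧ M - c ∈ V ∧ (c / 2 ∈ V ∨ M - c / 2 ∈ V)) ∨
  (c % 2 = 1 ∧ c ≤ K - 4 ∧ c ∈ V ∧ ((M - c) / 2 ∈ V ∨ (M + c) / 2 ∈ V)) ∨
  (∃ x, c = M + x ∧ 0 < x ∧ x ≤ K - 3 ∧ x ∉ V ∧ M - 2 * x ∈ V) ∨
  (∃ x, c = M + K + x ∧ x % 2 = 0 ∧ 0 < x ∧ x ≤ K - 3 ∧ x ∈ V)

end Pool.Agent.LR4
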