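import Pool.Agent.LR4.Chk

/-!
Lonely runner with speeds at most `2 n`: a kernel checker for all `n` of a range `m ≤ n ≤ n'` with
the same prime `M = 2 n + K`. The cores belong to the even numbers `g = 2, 4, ...`; the core of
`g` is used for the `n` with `g ≤ K - 3`. Labels: an even `y` (the pair `y`, `M - y` against its
halves), an odd `e < g` (the central pair), `M + x` with `x ≤ g` (the pair `x`, `M - 2 x`),
`2 M + x` with `x ≤ g` even (`x` is a non-speed). The instructions are those of the module `Chk`.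
-/

namespace Pool.Agent.LR4.R

/-- The parameters: `a = 2 m`, `a' = 2 n'`, `b = 3 m + 3`, `M`, `g`, `u = 4 + w`,
`v = 4 + 2 w`, `r = 2 ^ w - 1`, where `w` is the width of the arguments of an instruction. -/
structure Par where
  (m n' a a' b M g u v r : ℕ)

/-- The side conditions of the triangle `x`, `y`, `x + y`. -/
def triOK (p : Par) (x y : ℕ) : Bool :=
  an (Nat.ble (Nat.succ x) y) (an (Nat.beq (Nat.gcd x y) (nat_lit 1))
    (an (Nat.ble (Nat.succ p.n') (Nat.add x y)) (an (Nat.ble (Nat.add x y) p.a)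
      (an (ro (Nat.ble (Nat.succ p.a') (Nat.add (Nat.add x y) y)) (Nat.ble (Nat.succ p.n') y))
        (ro (Nat.ble y p.m) (ro (Nat.ble (Nat.succ p.a') (Nat.add (Nat.add x y) x))
          (Nat.ble (Nat.add (Nat.add x y) y) p.b)))))))

/-- The side conditions of the edge `q`, `2 q`, `z` (of `q`, `2 q` when `2 n' < z`). -/
def dblOK (p : Par) (q z : ℕ) : Bool :=
  an (Nat.ble (nat_lit 1) q) (an (Nat.beq (Nat.gcd z q) (nat_lit 1))
    (an (Nat.ble (Nat.succ p.a') (Nat.add z q)) (Nat.ble (Nat.add (Nat.add z q) q) p.b)))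

/-- 0 : decision. -/
def op0 (_p : Par) (x _y : ℕ) (ih : Ih) (s T F U : ℕ) (k : ℕ → ℕ → Bool) : Bool :=
  force (sb T x) fun T' => ih s T' F U fun s' U' => force (sb F x) fun F' => ih s' T F' U' k

/-- 1 : triangle, forces `x + y`. -/
def op1 (p : Par) (x y : ℕ) (ih : Ih) (s T F U : ℕ) (k : ℕ → ℕ → Bool) : Bool :=
  an (tb T x) (an (tb T y) (an (triOK p x y) (goF (Nat.add x y) ih s T F U k)))

/-- 2 : triangle, forces `y`. -/
def op2 (p : Par) (x y : ℕ) (ih : Ih) (s T F U : ℕ) (k : ℕ → ℕ → Bool) : Bool :=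
  an (tb T x) (an (tb T (Nat.add x y)) (an (triOK p x y) (goF y ih s T F U k)))

/-- 3 : triangle, forces `x`. -/
def op3 (p : Par) (x y : ℕ) (ih : Ih) (s T F U : ℕ) (k : ℕ → ℕ → Bool) : Bool :=
  an (tb T y) (an (tb T (Nat.add x y)) (an (triOK p x y) (goF x ih s T F U k)))

/-- 4 : doubling above `2 n / 3`, forces `2 x`. -/
def op4 (p : Par) (x _y : ℕ) (ih : Ih) (s T F U : ℕ) (k : ℕ → ℕ → Bool) : Bool :=
  an (tb T x) (an (Nat.ble (Nat.succ p.a') (Nat.add (Nat.add x x) x)) (an (Nat.ble x p.m)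
    (goF (Nat.add x x) ih s T F U k)))

/-- 5 : doubling above `2 n / 3`, forces `x`. -/
def op5 (p : Par) (x _y : ℕ) (ih : Ih) (s T F U : ℕ) (k : ℕ → ℕ → Bool) : Bool :=
  an (tb T (Nat.add x x)) (an (Nat.ble (Nat.succ p.a') (Nat.add (Nat.add x x) x))
    (an (Nat.ble x p.m) (goF x ih s T F U k)))

/-- 6 : not used. -/
def op6 (_p : Par) (_x _y : ℕ) (_ih : Ih) (_s _T _F _U : ℕ) (_k : ℕ → ℕ → Bool) : Bool := false

/-- 7 : doubling, forces `y`. -/
def op7 (p : Par) (x y : ℕ) (ih : Ih) (s T F U : ℕ) (k : ℕ → ℕ → Bool) : Bool :=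
  an (tb T x) (an (tb T (Nat.add x x)) (an (dblOK p x y) (goF y ih s T F U k)))

/-- 8 : doubling, forces `2 x`. -/
def op8 (p : Par) (x y : ℕ) (ih : Ih) (s T F U : ℕ) (k : ℕ → ℕ → Bool) : Bool :=
  an (tb T x) (an (ro (Nat.ble (Nat.succ p.a') y) (tb T y)) (an (dblOK p x y)
    (goF (Nat.add x x) ih s T F U k)))

/-- 9 : doubling, forces `x`. -/
def op9 (p : Par) (x y : ℕ) (ih : Ih) (s T F U : ℕ) (k : ℕ → ℕ → Bool) : Bool :=
  an (tb T (Nat.add x x)) (an (ro (Nat.ble (Nat.succ p.a') y) (tb T y)) (an (dblOK p x y)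
    (goF x ih s T F U k)))

/-- 10 : label `x` even, `x` and `M - x` speeds, forces `x / 2` and `M - x / 2`. -/
def op10 (p : Par) (x _y : ℕ) (ih : Ih) (s T F U : ℕ) (k : ℕ → ℕ → Bool) : Bool :=
  an (tb F x) (an (tb F (Nat.sub p.M x)) (an (Nat.beq (Nat.land x (nat_lit 1)) (nat_lit 0))
    (an (Nat.ble (nat_lit 1) x) (an (Nat.ble (Nat.succ x) p.M)
    (goT2 (Nat.shiftRight x (nat_lit 1)) (Nat.sub p.M (Nat.shiftRight x (nat_lit 1)))
      ih s T F (sb U x) k)))))

/-- 11 : label `x` even, a half is a speed and `M - y` is a speed, forces `y`,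
where `y = x` or `y = M - x`. -/
def op11 (p : Par) (x y : ℕ) (ih : Ih) (s T F U : ℕ) (k : ℕ → ℕ → Bool) : Bool :=
  an (tb F (Nat.sub p.M y)) (an (ro (tb F (Nat.shiftRight x (nat_lit 1)))
    (tb F (Nat.sub p.M (Nat.shiftRight x (nat_lit 1)))))
    (an (ro (Nat.beq y x) (Nat.beq y (Nat.sub p.M x)))
    (an (Nat.beq (Nat.land x (nat_lit 1)) (nat_lit 0))
    (an (Nat.ble (nat_lit 1) x) (an (Nat.ble (Nat.succ x) p.M) (goT y ih s T F (sb U x) k))))))

/-- 12 : label `M + x`, `x ≤ g` non-speed, forces `M - 2 x` non-speed. -/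
def op12 (p : Par) (x _y : ℕ) (ih : Ih) (s T F U : ℕ) (k : ℕ → ℕ → Bool) : Bool :=
  an (Nat.ble (nat_lit 1) x) (an (Nat.ble x p.g) (an (tb T x)
    (goT (Nat.sub p.M (Nat.add x x)) ih s T F (sb U (Nat.add p.M x)) k)))

/-- 13 : label `M + x`, `M - 2 x` speed, forces `x` speed. -/
def op13 (p : Par) (x _y : ℕ) (ih : Ih) (s T F U : ℕ) (k : ℕ → ℕ → Bool) : Bool :=
  an (Nat.ble (nat_lit 1) x) (an (Nat.ble x p.g) (an (tb F (Nat.sub p.M (Nat.add x x)))
    (goF x ih s T F (sb U (Nat.add p.M x)) k)))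

/-- 14 : label `x` odd, `x < g`; `y = 0`: `x` speed, forces the central pair;
`y > 0` : a member of the central pair is a speed, forces `x` non-speed. -/
def op14 (p : Par) (x y : ℕ) (ih : Ih) (s T F U : ℕ) (k : ℕ → ℕ → Bool) : Bool :=
  an (Nat.beq (Nat.land x (nat_lit 1)) (nat_lit 1)) (an (Nat.ble (Nat.succ x) p.g)
    (Nat.rec (motive := fun _ => Bool)
      (an (tb F x) (goT2 (Nat.shiftRight (Nat.sub p.M x) (nat_lit 1))
        (Nat.shiftRight (Nat.add p.M x) (nat_lit 1)) ih s T F (sb U x) k))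
      (fun _ _ => an (ro (tb F (Nat.shiftRight (Nat.sub p.M x) (nat_lit 1)))
        (tb F (Nat.shiftRight (Nat.add p.M x) (nat_lit 1)))) (goT x ih s T F (sb U x) k)) y))

/-- 15 : label `2 M + x`, `x ≤ g` even : forces `x` non-speed. -/
def op15 (p : Par) (x _y : ℕ) (ih : Ih) (s T F U : ℕ) (k : ℕ → ℕ → Bool) : Bool :=
  an (Nat.beq (Nat.land x (nat_lit 1)) (nat_lit 0)) (an (Nat.ble (nat_lit 1) x)
    (an (Nat.ble x p.g) (goT x ih s T F (sb U (Nat.add (Nat.add p.M p.M) x)) k)))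

/-- Select one of four. -/
def sel (α : Type) (c0 c1 c2 c3 : α) (i : ℕ) : α :=
  Nat.rec (motive := fun _ => α) c0 (fun i _ => Nat.rec (motive := fun _ => α) c1
    (fun i _ => Nat.rec (motive := fun _ => α) c2 (fun _ _ => c3) i) i) i

/-- The type of the instructions. -/
abbrev Op := Par → ℕ → ℕ → Ih → ℕ → ℕ → ℕ → ℕ → (ℕ → ℕ → Bool) → Bool

/-- The instruction with a given number. -/
def ops (i j : ℕ) : Op :=
  sel Op (sel Op op0 op1 op2 op3 i) (sel Op op4 op5 op6 op7 i) (sel Op op8 op9 op10 op11 i)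
    (sel Op op12 op13 op14 op15 i) j

/-- One instruction. -/
def step (p : Par) (ih : Ih) (s T F U : ℕ) (k : ℕ → ℕ → Bool) : Bool :=
  force (Nat.land (Nat.shiftRight s (nat_lit 4)) p.r) fun x =>
  force (Nat.land (Nat.shiftRight s p.u) p.r) fun y =>
  force (Nat.shiftRight s p.v) fun s' =>
  ops (Nat.land s (nat_lit 3)) (Nat.land (Nat.shiftRight s (nat_lit 2)) (nat_lit 3))
    p x y ih s' T F U k

/-- Run the stream. -/
def run (p : Par) (fuel : ℕ) : Ih :=
  Nat.rec (motive := fun _ => Ih) (fun _ _ _ _ _ => false) (fun _ ih => step p ih) fuel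

/-- `c` disjoint cores, disjoint from `A`, for `g + 2`, `g + 4`, ... -/
def cores (p : Par) (fuel c : ℕ) : ℕ → ℕ → ℕ → Bool :=
  Nat.rec (motive := fun _ => ℕ → ℕ → ℕ → Bool) (fun _ _ _ => true)
    (fun _ ih g s A => force (Nat.add g (nat_lit 2)) fun g' =>
      run ⟨p.m, p.n', p.a, p.a', p.b, p.M, g', p.u, p.v, p.r⟩ fuel s (nat_lit 0) (nat_lit 2)
        (nat_lit 0) fun s' U => an (Nat.beq (Nat.land U A) (nat_lit 0))
          (force (Nat.lor A U) fun A' => ih g' s' A')) c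

/-- The certificate for the `n` with `m ≤ n ≤ n'` at the prime `M`; `c` cores. -/
def chk (M m n' c w fuel s : ℕ) : Bool :=
  force (2 * m) fun a => force (2 * n') fun a' => force (3 * m + 3) fun b =>
  force (4 + w) fun u => force (4 + 2 * w) fun v => force (2 ^ w - 1) fun r =>
    cores ⟨m, n', a, a', b, M, 0, u, v, r⟩ fuel c 0 s 0

end Pool.Agent.LR4.R
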