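import Pool.Agent.LR4.ChkSound
import Pool.Agent.LR4.ChkR

/-!
Lonely runner with speeds at most `2 n`: the kernel checker for ranges is sound.
-/

namespace Pool.Agent.LR4.R

open Finset

/-! ### Semantics of the states -/

/-- The label `c` is a defect of `V` (codes of the range version). -/
def Dfc (M K : ℕ) (V : Finset ℕ) (c : ℕ) : Prop :=
  (c % 2 = 0 ∧ 0 < c ∧ c < M ∧ c ∈ V ∧ M - c ∈ V ∧ (c / 2 ∈ V ∨ M - c / 2 ∈ V)) ∨
  (c % 2 = 1 ∧ c ≤ K - 4 ∧ c ∈ V ∧ ((M - c) / 2 ∈ V ∨ (M + c) / 2 ∈ V)) ∨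
  (∃ x, c = M + x ∧ 0 < x ∧ x ≤ K - 3 ∧ x ∉ V ∧ M - 2 * x ∈ V) ∨
  (∃ x, c = M + M + x ∧ x % 2 = 0 ∧ 0 < x ∧ x ≤ K - 3 ∧ x ∈ V)

section sem

variable {n M K w : ℕ} {V : Finset ℕ}

/-- Some label in `U` is a defect. -/
def Dft (M K : ℕ) (V : Finset ℕ) (U : ℕ) : Prop := ∃ c, U.testBit c = true ∧ Dfc M K V c

/-- The meaning of a run with the result `b`. -/
def Res (M K : ℕ) (V : Finset ℕ) (k : ℕ → ℕ → Bool) (T F U : ℕ) (b : Bool) : Prop :=
  b = true → ∃ s' U', (∀ c, U.testBit c = true → U'.testBit c = true) ∧ k s' U' = true ∧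
    (Msk V T F → Dft M K V U')

theorem Dft.mono {U U' : ℕ} (h : Dft M K V U)
    (hU : ∀ c, U.testBit c = true → U'.testBit c = true) : Dft M K V U' := by
  obtain ⟨c, h1, h2⟩ := h
  exact ⟨c, hU c h1, h2⟩

theorem Res.mono {k : ℕ → ℕ → Bool} {T F U U₁ : ℕ} {b : Bool} (h : Res M K V k T F U₁ b)
    (hU : ∀ c, U.testBit c = true → U₁.testBit c = true) : Res M K V k T F U b := by
  intro hb
  obtain ⟨s', U', h1, h2, h3⟩ := h hb
  exact ⟨s', U', fun c hc => h1 c (hU c hc), h2, h3⟩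

theorem Res.sb {k : ℕ → ℕ → Bool} {T F U c : ℕ} {b : Bool} (h : Res M K V k T F (LR4.sb U c) b) :
    Res M K V k T F U b :=
  h.mono fun d hd => (sb_bit U c d).2 (Or.inl hd)

/-- Forcing a speed. -/
theorem goF_res {ih : Ih} (hih : ∀ s T F U k, Res M K V k T F U (ih s T F U k)) {s T F U z : ℕ}
    {k : ℕ → ℕ → Bool} (hz : Msk V T F → Dft M K V U ∨ z ∈ V) :
    Res M K V k T F U (goF z ih s T F U k) := by
  intro hb
  unfold goF at hb
  rw [force_eq] at hb
  cases h : tb T z with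
  | true =>
    rw [h] at hb
    refine ⟨s, U, fun c hc => hc, hb, fun hm => ?_⟩
    rcases hz hm with h1 | h1
    · exact h1
    · exact absurd h1 (hm.ofT h)
  | false =>
    rw [h] at hb
    obtain ⟨s', U', h1, h2, h3⟩ := hih _ _ _ _ _ hb
    refine ⟨s', U', h1, h2, fun hm => ?_⟩
    rcases hz hm with h4 | h4
    · exact h4.mono h1
    · exact h3 (hm.sbF h4)

/-- Forcing a non-speed. -/
theorem goT_res {ih : Ih} (hih : ∀ s T F U k, Res M K V k T F U (ih s T F U k)) {s T F U z : ℕ}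
    {k : ℕ → ℕ → Bool} (hz : Msk V T F → Dft M K V U ∨ z ∉ V) :
    Res M K V k T F U (goT z ih s T F U k) := by
  intro hb
  unfold goT at hb
  rw [force_eq] at hb
  cases h : tb F z with
  | true =>
    rw [h] at hb
    refine ⟨s, U, fun c hc => hc, hb, fun hm => ?_⟩
    rcases hz hm with h1 | h1
    · exact h1
    · exact absurd (hm.ofF h) h1
  | false =>
    rw [h] at hb
    obtain ⟨s', U', h1, h2, h3⟩ := hih _ _ _ _ _ hb
    refine ⟨s', U', h1, h2, fun hm => ?_⟩
    rcases hz hm with h4 | h4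
    · exact h4.mono h1
    · exact h3 (hm.sbT h4)

/-- Forcing two non-speeds. -/
theorem goT2_res {ih : Ih} (hih : ∀ s T F U k, Res M K V k T F U (ih s T F U k))
    {s T F U z z' : ℕ} {k : ℕ → ℕ → Bool} (hz : Msk V T F → Dft M K V U ∨ (z ∉ V ∧ z' ∉ V)) :
    Res M K V k T F U (goT2 z z' ih s T F U k) := by
  intro hb
  unfold goT2 at hb
  rw [force_eq] at hb
  cases h : tb F z with
  | true =>
    rw [h] at hb
    refine ⟨s, U, fun c hc => hc, hb, fun hm => ?_⟩
    rcases hz hm with h1 | h1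
    · exact h1
    · exact absurd (hm.ofF h) h1.1
  | false =>
    rw [h] at hb
    cases h' : tb F z' with
    | true =>
      rw [h'] at hb
      refine ⟨s, U, fun c hc => hc, hb, fun hm => ?_⟩
      rcases hz hm with h1 | h1
      · exact h1
      · exact absurd (hm.ofF h') h1.2
    | false =>
      rw [h'] at hb
      obtain ⟨s', U', h1, h2, h3⟩ := hih _ _ _ _ _ hb
      refine ⟨s', U', h1, h2, fun hm => ?_⟩
      rcases hz hm with h4 | h4
      · exact h4.mono h1
      · exact h3 ((hm.sbT h4.1).sbT h4.2)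

/-- A label which is used is a defect, or it gives a fact. -/
theorem Dft.or {U c : ℕ} {P : Prop} (h : ¬ Dfc M K V c → P) : Dft M K V (LR4.sb U c) ∨ P := by
  by_cases hc : Dfc M K V c
  · exact Or.inl ⟨c, (sb_bit U c c).2 (Or.inr rfl), hc⟩
  · exact Or.inr (h hc)

/-- A side condition. -/
theorem Res.an {k : ℕ → ℕ → Bool} {T F U : ℕ} {a b : Bool}
    (h : a = true → Res M K V k T F U b) : Res M K V k T F U (LR4.an a b) := by
  intro hb
  rw [an_eq, Bool.and_eq_true] at hb
  exact h hb.1 hb.2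

end sem

/-- The parameters for the range `m ≤ n ≤ n'` and the core of `g`. -/
abbrev par (m n' M g u v r : ℕ) : Par := ⟨m, n', 2 * m, 2 * n', 3 * m + 3, M, g, u, v, r⟩

/-- The meaning of the side conditions of a triangle. -/
theorem triOK_spec {m n n' M g u v r : ℕ} {V : Finset ℕ} (hF : Fct n V) (h1 : m ≤ n)
    (h2 : n ≤ n') {x y : ℕ} (h : triOK (par m n' M g u v r) x y = true) (hx : x ∉ V)
    (hy : y ∉ V) : x + y ∈ V := by
  unfold triOK at h
  obtain ⟨e1, h⟩ := an_and h
  obtain ⟨e2, h⟩ := an_and h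
  obtain ⟨e3, h⟩ := an_and h
  obtain ⟨e4, h⟩ := an_and h
  obtain ⟨e5, e6⟩ := an_and h
  have g1 : x < y := Nat.le_of_ble_eq_true e1
  have g2 : Nat.gcd x y = 1 := Nat.eq_of_beq_eq_true e2
  have g3 : n' < x + y := Nat.le_of_ble_eq_true e3
  have g4 : x + y ≤ 2 * m := Nat.le_of_ble_eq_true e4
  have g5 : 2 * n' < x + y + y ∨ n' < y :=
    (ro_or e5).imp (fun h => Nat.le_of_ble_eq_true h) (fun h => Nat.le_of_ble_eq_true h)
  have g6 : y ≤ m ∨ (2 * n' < x + y + x ∨ x + y + y ≤ 3 * m + 3) :=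
    (ro_or e6).imp (fun h => Nat.le_of_ble_eq_true h)
      (fun h => (ro_or h).imp (fun h => Nat.le_of_ble_eq_true h)
        (fun h => Nat.le_of_ble_eq_true h))
  refine hF.tri x y g1 g2 (by omega) (by omega) ?_ hx hy
  omega

/-- The meaning of the side conditions of a doubling edge. -/
theorem dblOK_spec {m n n' M g u v r : ℕ} {V : Finset ℕ} (hF : Fct n V) (h1 : m ≤ n)
    (h2 : n ≤ n') {q z : ℕ} (h : dblOK (par m n' M g u v r) q z = true) (hq : q ∉ V)
    (hqq : q + q ∉ V) (hz : z ∉ V) : False := by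
  unfold dblOK at h
  obtain ⟨e1, h⟩ := an_and h
  obtain ⟨e2, h⟩ := an_and h
  obtain ⟨e3, e4⟩ := an_and h
  have g1 : 1 ≤ q := Nat.le_of_ble_eq_true e1
  have g2 : Nat.gcd z q = 1 := Nat.eq_of_beq_eq_true e2
  have g3 : 2 * n' < z + q := Nat.le_of_ble_eq_true e3
  have g4 : z + q + q ≤ 3 * m + 3 := Nat.le_of_ble_eq_true e4
  exact hF.db q z g1 g2 (by omega) (by omega) hq (by rwa [two_mul]) hz

section stepsec

variable {m n n' M K g u v r : ℕ} {V : Finset ℕ}

/-- The instruction `o` is sound. -/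
def Snd (m n' M K g u v r : ℕ) (V : Finset ℕ) (o : Op) : Prop :=
  ∀ (x y : ℕ) (ih : Ih) (s T F U : ℕ) (k : ℕ → ℕ → Bool),
    (∀ s T F U k, Res M K V k T F U (ih s T F U k)) →
      Res M K V k T F U (o (par m n' M g u v r) x y ih s T F U k)

theorem snd0 : Snd m n' M K g u v r V op0 := by
  intro x y ih s T F U k hih hb
  unfold op0 at hb
  rw [force_eq] at hb
  obtain ⟨s1, U1, h1, h2, h3⟩ := hih _ _ _ _ _ hb
  dsimp only at h2
  rw [force_eq] at h2
  obtain ⟨s2, U2, h4, h5, h6⟩ := hih _ _ _ _ _ h2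
  refine ⟨s2, U2, fun c hc => h4 c (h1 c hc), h5, fun hm => ?_⟩
  by_cases hx : x ∈ V
  · exact h6 (hm.sbF hx)
  · exact (h3 (hm.sbT hx)).mono h4

theorem snd1 (hF : Fct n V) (hm : m ≤ n) (hn : n ≤ n') : Snd m n' M K g u v r V op1 := by
  intro x y ih s T F U k hih
  refine Res.an fun h1 => Res.an fun h2 => Res.an fun h3 => goF_res hih fun hM => Or.inr ?_
  exact triOK_spec hF hm hn h3 (hM.ofT h1) (hM.ofT h2)

theorem snd2 (hF : Fct n V) (hm : m ≤ n) (hn : n ≤ n') : Snd m n' M K g u v r V op2 := by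
  intro x y ih s T F U k hih
  refine Res.an fun h1 => Res.an fun h2 => Res.an fun h3 => goF_res hih fun hM => Or.inr ?_
  by_contra hy
  exact hM.ofT h2 (triOK_spec hF hm hn h3 (hM.ofT h1) hy)

theorem snd3 (hF : Fct n V) (hm : m ≤ n) (hn : n ≤ n') : Snd m n' M K g u v r V op3 := by
  intro x y ih s T F U k hih
  refine Res.an fun h1 => Res.an fun h2 => Res.an fun h3 => goF_res hih fun hM => Or.inr ?_
  by_contra hx
  exact hM.ofT h2 (triOK_spec hF hm hn h3 hx (hM.ofT h1))

theorem snd4 (hF : Fct n V) (hm : m ≤ n) (hn : n ≤ n') : Snd m n' M K g u v r V op4 := by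
  intro x y ih s T F U k hih
  refine Res.an fun h1 => Res.an fun h2 => Res.an fun h3 => goF_res hih fun hM => Or.inr ?_
  have g2 : 2 * n' < x + x + x := Nat.le_of_ble_eq_true h2
  have g3 : x ≤ m := Nat.le_of_ble_eq_true h3
  have h4 := hF.dh x (by omega) (by omega) (hM.ofT h1)
  rw [two_mul] at h4
  exact h4

theorem snd5 (hF : Fct n V) (hm : m ≤ n) (hn : n ≤ n') : Snd m n' M K g u v r V op5 := by
  intro x y ih s T F U k hih
  refine Res.an fun h1 => Res.an fun h2 => Res.an fun h3 => goF_res hih fun hM => Or.inr ?_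
  have g2 : 2 * n' < x + x + x := Nat.le_of_ble_eq_true h2
  have g3 : x ≤ m := Nat.le_of_ble_eq_true h3
  by_contra hx
  have h4 := hF.dh x (by omega) (by omega) hx
  rw [two_mul] at h4
  exact hM.ofT h1 h4

theorem snd6 : Snd m n' M K g u v r V op6 := by
  intro x y ih s T F U k hih hb
  exact absurd hb (by simp [op6])

theorem snd7 (hF : Fct n V) (hm : m ≤ n) (hn : n ≤ n') : Snd m n' M K g u v r V op7 := by
  intro x y ih s T F U k hih
  refine Res.an fun h1 => Res.an fun h2 => Res.an fun h3 => goF_res hih fun hM => Or.inr ?_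
  by_contra hy
  exact dblOK_spec hF hm hn h3 (hM.ofT h1) (hM.ofT h2) hy

theorem out_or (hF : Fct n V) (hn : n ≤ n') {T F y : ℕ} (hm : Msk V T F)
    (h : ro (Nat.ble (Nat.succ (2 * n')) y) (tb T y) = true) : y ∉ V := by
  rcases ro_or h with h | h
  · have h1 : 2 * n' < y := Nat.le_of_ble_eq_true h
    exact hF.out y (by omega)
  · exact hm.ofT h

theorem snd8 (hF : Fct n V) (hm : m ≤ n) (hn : n ≤ n') : Snd m n' M K g u v r V op8 := by
  intro x y ih s T F U k hih
  refine Res.an fun h1 => Res.an fun h2 => Res.an fun h3 => goF_res hih fun hM => Or.inr ?_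
  by_contra hx
  exact dblOK_spec hF hm hn h3 (hM.ofT h1) hx (out_or hF hn hM h2)

theorem snd9 (hF : Fct n V) (hm : m ≤ n) (hn : n ≤ n') : Snd m n' M K g u v r V op9 := by
  intro x y ih s T F U k hih
  refine Res.an fun h1 => Res.an fun h2 => Res.an fun h3 => goF_res hih fun hM => Or.inr ?_
  by_contra hx
  exact dblOK_spec hF hm hn h3 hx (hM.ofT h1) (out_or hF hn hM h2)

theorem snd10 : Snd m n' M K g u v r V op10 := by
  intro x y ih s T F U k hih
  refine Res.an fun h1 => Res.an fun h2 => Res.an fun h3 => Res.an fun h4 => Res.an fun h5 => ?_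
  have g3 : x % 2 = 0 := ev_spec h3
  have g4 : 0 < x := Nat.le_of_ble_eq_true h4
  have g5 : x < M := Nat.le_of_ble_eq_true h5
  refine Res.sb (c := x) (goT2_res hih fun hm => Dft.or fun hd => ⟨?_, ?_⟩)
  · intro hx
    exact hd (Or.inl ⟨g3, g4, g5, hm.ofF h1, hm.ofF h2, Or.inl hx⟩)
  · intro hx
    exact hd (Or.inl ⟨g3, g4, g5, hm.ofF h1, hm.ofF h2, Or.inr hx⟩)

theorem snd11 : Snd m n' M K g u v r V op11 := by
  intro x y ih s T F U k hih
  refine Res.an fun h1 => Res.an fun h2 => Res.an fun h3 => Res.an fun h4 => Res.an fun h5 =>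
    Res.an fun h6 => ?_
  have g4 : x % 2 = 0 := ev_spec h4
  have g5 : 0 < x := Nat.le_of_ble_eq_true h5
  have g6 : x < M := Nat.le_of_ble_eq_true h6
  refine Res.sb (c := x) (goT_res hih fun hm => Dft.or fun hd hy => ?_)
  have h7 : x / 2 ∈ V ∨ M - x / 2 ∈ V := (ro_or h2).imp (fun h => hm.ofF h) (fun h => hm.ofF h)
  have h8 : M - y ∈ V := hm.ofF h1
  rcases ro_or h3 with h9 | h9
  · have g9 : y = x := Nat.eq_of_beq_eq_true h9
    subst g9
    exact hd (Or.inl ⟨g4, g5, g6, hy, h8, h7⟩)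
  · have g9 : y = M - x := Nat.eq_of_beq_eq_true h9
    subst g9
    rw [show M - (M - x) = x by omega] at h8
    exact hd (Or.inl ⟨g4, g5, g6, h8, hy, h7⟩)

theorem snd12 (hg : g ≤ K - 3) : Snd m n' M K g u v r V op12 := by
  intro x y ih s T F U k hih
  refine Res.an fun h1 => Res.an fun h2 => Res.an fun h3 => ?_
  have g1 : 0 < x := Nat.le_of_ble_eq_true h1
  have g2 : x ≤ g := Nat.le_of_ble_eq_true h2
  refine Res.sb (c := M + x) (goT_res hih fun hm => Dft.or fun hd hy => ?_)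
  have hy' : M - 2 * x ∈ V := by
    rw [two_mul]
    exact hy
  exact hd (Or.inr (Or.inr (Or.inl ⟨x, rfl, g1, g2.trans hg, hm.ofT h3, hy'⟩)))

theorem snd13 (hg : g ≤ K - 3) : Snd m n' M K g u v r V op13 := by
  intro x y ih s T F U k hih
  refine Res.an fun h1 => Res.an fun h2 => Res.an fun h3 => ?_
  have g1 : 0 < x := Nat.le_of_ble_eq_true h1
  have g2 : x ≤ g := Nat.le_of_ble_eq_true h2
  refine Res.sb (c := M + x) (goF_res hih fun hm => Dft.or fun hd => ?_)
  by_contra hx
  have hy' : M - 2 * x ∈ V := by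
    rw [two_mul]
    exact hm.ofF h3
  exact hd (Or.inr (Or.inr (Or.inl ⟨x, rfl, g1, g2.trans hg, hx, hy'⟩)))

theorem snd14 (hg : g ≤ K - 3) : Snd m n' M K g u v r V op14 := by
  intro x y ih s T F U k hih
  refine Res.an fun h1 => Res.an fun h2 => ?_
  have g1 : x % 2 = 1 := by
    have h3 : Nat.beq (Nat.land x 1) 1 = true := h1
    rw [land_one] at h3
    exact Nat.eq_of_beq_eq_true h3
  have g2' : x + 1 ≤ g := Nat.le_of_ble_eq_true h2
  have g2 : x ≤ K - 4 := by omega
  cases y with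
  | zero =>
    refine Res.an fun h3 => Res.sb (c := x) (goT2_res hih fun hm => Dft.or fun hd => ⟨?_, ?_⟩)
    · intro hx
      exact hd (Or.inr (Or.inl ⟨g1, g2, hm.ofF h3, Or.inl hx⟩))
    · intro hx
      exact hd (Or.inr (Or.inl ⟨g1, g2, hm.ofF h3, Or.inr hx⟩))
  | succ y =>
    refine Res.an fun h3 => Res.sb (c := x) (goT_res hih fun hm => Dft.or fun hd hx => ?_)
    have h7 : (M - x) / 2 ∈ V ∨ (M + x) / 2 ∈ V :=
      (ro_or h3).imp (fun h => hm.ofF h) (fun h => hm.ofF h)
    exact hd (Or.inr (Or.inl ⟨g1, g2, hx, h7⟩))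

theorem snd15 (hg : g ≤ K - 3) : Snd m n' M K g u v r V op15 := by
  intro x y ih s T F U k hih
  refine Res.an fun h1 => Res.an fun h2 => Res.an fun h3 => ?_
  have g1 : x % 2 = 0 := ev_spec h1
  have g2 : 0 < x := Nat.le_of_ble_eq_true h2
  have g3 : x ≤ g := Nat.le_of_ble_eq_true h3
  refine Res.sb (c := M + M + x) (goT_res hih fun hm => Dft.or fun hd hx => ?_)
  exact hd (Or.inr (Or.inr (Or.inr ⟨x, rfl, g1, g2, g3.trans hg, hx⟩)))

/-- Every instruction is one of the sixteen. -/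
theorem ops_cases (P : Op → Prop) (h0 : P op0) (h1 : P op1) (h2 : P op2) (h3 : P op3)
    (h4 : P op4) (h5 : P op5) (h6 : P op6) (h7 : P op7) (h8 : P op8) (h9 : P op9)
    (h10 : P op10) (h11 : P op11) (h12 : P op12) (h13 : P op13) (h14 : P op14)
    (h15 : P op15) (i j : ℕ) : P (ops i j) := by
  rcases j with _ | _ | _ | j <;> rcases i with _ | _ | _ | i
  · exact h0
  · exact h1
  · exact h2
  · exact h3
  · exact h4
  · exact h5
  · exact h6
  · exact h7
  · exact h8
  · exact h9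
  · exact h10
  · exact h11
  · exact h12
  · exact h13
  · exact h14
  · exact h15

/-- One instruction is sound. -/
theorem step_res (hF : Fct n V) (hm : m ≤ n) (hn : n ≤ n') (hg : g ≤ K - 3) {ih : Ih}
    (hih : ∀ s T F U k, Res M K V k T F U (ih s T F U k)) (s T F U : ℕ) (k : ℕ → ℕ → Bool) :
    Res M K V k T F U (step (par m n' M g u v r) ih s T F U k) := by
  unfold step
  simp only [force_eq]
  exact ops_cases (Snd m n' M K g u v r V) snd0 (snd1 hF hm hn) (snd2 hF hm hn) (snd3 hF hm hn)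
    (snd4 hF hm hn) (snd5 hF hm hn) snd6 (snd7 hF hm hn) (snd8 hF hm hn) (snd9 hF hm hn) snd10
    snd11 (snd12 hg) (snd13 hg) (snd14 hg) (snd15 hg) _ _ _ _ ih _ T F U k hih

/-- A run is sound. -/
theorem run_res (hF : Fct n V) (hm : m ≤ n) (hn : n ≤ n') (hg : g ≤ K - 3) (fuel : ℕ) :
    ∀ s T F U k, Res M K V k T F U (run (par m n' M g u v r) fuel s T F U k) := by
  induction fuel with
  | zero =>
    intro s T F U k hb
    exact absurd hb (by simp [run])
  | succ fuel ih =>
    intro s T F U k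
    exact step_res hF hm hn hg ih s T F U k

end stepsec

section main

variable {m n n' M K u v r : ℕ} {V : Finset ℕ}

theorem msk_init (hF : Fct n V) : Msk V 0 2 := by
  refine ⟨fun x hx => ?_, fun x hx => ?_⟩
  · simp at hx
  · have h2 : (2 : ℕ) = 2 ^ 1 := rfl
    rw [h2, Nat.testBit_two_pow, decide_eq_true_iff] at hx
    exact hx ▸ hF.one

theorem Dfc.lt {c : ℕ} (h : Dfc M K V c) : c < 2 * M + K := by
  rcases h with ⟨h1, h2, h3, -⟩ | ⟨h1, h2, -⟩ | ⟨x, h1, h2, h3, -⟩ | ⟨x, h1, -, h2, h3, -⟩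
  all_goals omega

open Classical in
/-- The cores contain as many defects. -/
theorem cores_sound (hF : Fct n V) (hm : m ≤ n) (hn : n ≤ n') (g0 fuel c : ℕ) :
    ∀ g s A j : ℕ, cores (par m n' M g0 u v r) fuel c g s A = true → j ≤ c →
      g + 2 * j ≤ K - 3 →
      j ≤ ((range (2 * M + K)).filter
        (fun d => Dfc M K V d ∧ ¬ A.testBit d = true)).card := by
  induction c with
  | zero =>
    intro g s A j _ hj _
    omega
  | succ c ih =>
    intro g s A j h hj hgj
    rcases j with _ | j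
    · exact Nat.zero_le _
    have h0 : force (g + 2) (fun g' => run ⟨m, n', 2 * m, 2 * n', 3 * m + 3, M, g', u, v, r⟩
      fuel s 0 2 0 (fun s' U => an (Nat.beq (Nat.land U A) 0) (force (Nat.lor A U) fun A' =>
        cores (par m n' M g0 u v r) fuel c g' s' A'))) = true := h
    rw [force_eq] at h0
    obtain ⟨s', U, -, h2, h3⟩ := run_res (M := M) (K := K) (u := u) (v := v) (r := r)
      (g := g + 2) hF hm hn (by omega) fuel s 0 2 0 _ h0
    obtain ⟨d, hd1, hd2⟩ := h3 (msk_init hF)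
    dsimp only at h2
    rw [force_eq] at h2
    obtain ⟨h4, h5⟩ := an_and h2
    have h6 := ih (g + 2) s' _ j h5 (by omega) (by omega)
    have h4' : U &&& A = 0 := Nat.eq_of_beq_eq_true h4
    have hdA : ¬ A.testBit d = true := by
      intro hA
      have h7 : (U &&& A).testBit d = true := by
        rw [Nat.testBit_and, hd1, hA]; rfl
      rw [h4'] at h7
      simp at h7
    have hbit : ∀ e, (Nat.lor A U).testBit e = true ↔ A.testBit e = true ∨ U.testBit e = true := by
      intro e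
      have h7 : Nat.lor A U = A ||| U := rfl
      rw [h7, Nat.testBit_or, Bool.or_eq_true]
    have hsub : insert d ((range (2 * M + K)).filter
        (fun e => Dfc M K V e ∧ ¬ (Nat.lor A U).testBit e = true)) ⊆
        (range (2 * M + K)).filter (fun e => Dfc M K V e ∧ ¬ A.testBit e = true) := by
      intro e he
      rw [mem_insert] at he
      rw [mem_filter, mem_range]
      rcases he with rfl | he
      · exact ⟨hd2.lt, hd2, hdA⟩
      · rw [mem_filter, mem_range] at he
        exact ⟨he.1, he.2.1, fun h7 => he.2.2 ((hbit e).2 (Or.inl h7))⟩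
    have hnot : d ∉ (range (2 * M + K)).filter
        (fun e => Dfc M K V e ∧ ¬ (Nat.lor A U).testBit e = true) := by
      intro hd
      rw [mem_filter] at hd
      exact hd.2.2 ((hbit d).2 (Or.inr hd1))
    have h7 := card_le_card hsub
    rw [card_insert_of_notMem hnot] at h7
    omega

open Classical in
/-- A counterexample passes no certificate. -/
theorem chk_sound {M m n' c w fuel s n K : ℕ} {V : Finset ℕ} (hF : Fct n V) (h1 : m ≤ n)
    (h2 : n ≤ n') (hMK : M = 2 * n + K) (hK1 : 5 ≤ K) (hKodd : K % 2 = 1) (_hK2 : K ≤ n)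
    (hc : (K - 3) / 2 ≤ c)
    (hacc : (LS (2 * n + K) V).card + (RS (2 * n + K) K V).card +
      (DS (2 * n + K) K V).card + 1 ≤ (ES K V).card)
    (h : chk M m n' c w fuel s = true) : False := by
  rw [← hMK] at hacc
  unfold chk at h
  simp only [force_eq] at h
  have h1 := cores_sound (M := M) (K := K) hF h1 h2 0 fuel c 0 s 0 ((K - 3) / 2) h hc (by omega)
  clear h
  have hev : (ES K V).card + ((Icc 1 (K - 3)).filter (fun x => x % 2 = 0 ∧ x ∈ V)).card =
      (K - 3) / 2 := by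
    have h2 : ES K V = ((Icc 1 (K - 3)).filter (fun x => x % 2 = 0)).filter (fun x => x ∉ V) := by
      unfold ES
      rw [filter_filter]
    have h3 : (Icc 1 (K - 3)).filter (fun x => x % 2 = 0 ∧ x ∈ V) =
        ((Icc 1 (K - 3)).filter (fun x => x % 2 = 0)).filter (fun x => x ∈ V) := by
      rw [filter_filter]
    have h4 : K - 3 = 2 * ((K - 3) / 2) := by omega
    have h5 : ((Icc 1 (K - 3)).filter (fun x => x % 2 = 0)).card = (K - 3) / 2 := by
      conv_lhs => rw [h4]
      exact card_evens _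
    rw [h2, h3, ← h5, add_comm]
    exact card_filter_add_card_filter_not _
  have hsub : (range (2 * M + K)).filter (fun d => Dfc M K V d ∧ ¬ (0 : ℕ).testBit d = true) ⊆
      ((LS M V ∪ DS M K V) ∪ (RS M K V).image (fun x => M + x)) ∪
        ((Icc 1 (K - 3)).filter (fun x => x % 2 = 0 ∧ x ∈ V)).image (fun x => M + M + x) := by
    intro d hd
    rw [mem_filter] at hd
    obtain ⟨-, hd, -⟩ := hd
    rw [mem_union, mem_union, mem_union]
    rcases hd with ⟨g1, g2, g3, g4⟩ | ⟨g1, g2, g3⟩ | ⟨x, rfl, g2, g3, g4⟩ | ⟨x, rfl, g1, g2, g3, g4⟩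
    · left; left; left
      unfold LS
      rw [mem_filter, mem_Icc]
      exact ⟨⟨g2, g3.le⟩, g1, g4⟩
    · left; left; right
      unfold DS
      rw [mem_filter, mem_Icc]
      exact ⟨⟨by omega, g2⟩, g1, g3⟩
    · left; right
      refine mem_image_of_mem _ ?_
      unfold RS
      rw [mem_filter, mem_Icc]
      exact ⟨⟨g2, g3⟩, g4⟩
    · right
      refine mem_image_of_mem _ ?_
      rw [mem_filter, mem_Icc]
      exact ⟨⟨g2, g3⟩, g1, g4⟩
  have h2 := card_le_card hsub
  have h3 := card_union_le ((LS M V ∪ DS M K V) ∪ (RS M K V).image (fun x => M + x))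
    (((Icc 1 (K - 3)).filter (fun x => x % 2 = 0 ∧ x ∈ V)).image (fun x => M + M + x))
  have h4 := card_union_le (LS M V ∪ DS M K V) ((RS M K V).image (fun x => M + x))
  have h5 := card_union_le (LS M V) (DS M K V)
  have h6 : ((RS M K V).image (fun x => M + x)).card ≤ (RS M K V).card := card_image_le
  have h7 : (((Icc 1 (K - 3)).filter (fun x => x % 2 = 0 ∧ x ∈ V)).image
    (fun x => M + M + x)).card ≤ ((Icc 1 (K - 3)).filter (fun x => x % 2 = 0 ∧ x ∈ V)).card :=
    card_image_le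
  omega

end main

end Pool.Agent.LR4.R
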