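import Pool.Agent.LR4.ChkDefs

/-!
Lonely runner with speeds at most `2 n`: the kernel checker is sound.
-/

namespace Pool.Agent.LR4

open Finset

/-! ### Bits -/

theorem force_eq (m : ℕ) (k : ℕ → Bool) : force m k = k m := by
  cases m <;> rfl

theorem an_eq (x y : Bool) : an x y = (x && y) := by
  cases x <;> rfl

theorem ro_eq (x y : Bool) : ro x y = (x || y) := by
  cases x <;> rfl

theorem tb_eq (m i : ℕ) : tb m i = m.testBit i := by
  have h1 : tb m i = Nat.beq ((m >>> i) &&& 1) 1 := rfl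
  rw [h1, Nat.and_one_is_mod, Nat.testBit_eq_decide_div_mod_eq, Nat.shiftRight_eq_div_pow]
  rw [Bool.eq_iff_iff, Nat.beq_eq, decide_eq_true_iff]

theorem sb_bit (m i j : ℕ) : (sb m i).testBit j = true ↔ m.testBit j = true ∨ i = j := by
  have h1 : sb m i = m ||| (1 <<< i) := rfl
  rw [h1, Nat.testBit_or, Nat.one_shiftLeft, Nat.testBit_two_pow, Bool.or_eq_true,
    decide_eq_true_iff]

/-! ### Semantics of the states -/

section sem

variable {n M K w : ℕ} {V : Finset ℕ}

/-- The masks `T` and `F` are correct. -/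
def Msk (V : Finset ℕ) (T F : ℕ) : Prop :=
  (∀ x, T.testBit x = true → x ∉ V) ∧ ∀ x, F.testBit x = true → x ∈ V

/-- Some label in `U` is a defect. -/
def Dft (M K : ℕ) (V : Finset ℕ) (U : ℕ) : Prop := ∃ c, U.testBit c = true ∧ Dfc M K V c

/-- The meaning of a run with the result `b`. -/
def Res (M K : ℕ) (V : Finset ℕ) (k : ℕ → ℕ → Bool) (T F U : ℕ) (b : Bool) : Prop :=
  b = true → ∃ s' U', (∀ c, U.testBit c = true → U'.testBit c = true) ∧ k s' U' = true ∧
    (Msk V T F → Dft M K V U')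

theorem Dft.mono {U U' : ℕ} (h : Dft M K V U)
    (hU : ∀ c, U.testBit c = true → U'.testBit c = true) : Dft M K V U' := by
  obtain ⟨c, h1, h2⟩ := h
  exact ⟨c, hU c h1, h2⟩

theorem Res.mono {k : ℕ → ℕ → Bool} {T F U U₁ : ℕ} {b : Bool} (h : Res M K V k T F U₁ b)
    (hU : ∀ c, U.testBit c = true → U₁.testBit c = true) : Res M K V k T F U b := by
  intro hb
  obtain ⟨s', U', h1, h2, h3⟩ := h hb
  exact ⟨s', U', fun c hc => h1 c (hU c hc), h2, h3⟩

theorem Res.sb {k : ℕ → ℕ → Bool} {T F U c : ℕ} {b : Bool} (h : Res M K V k T F (sb U c) b) :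
    Res M K V k T F U b :=
  h.mono fun d hd => (sb_bit U c d).2 (Or.inl hd)

theorem Msk.sbT {T F z : ℕ} (h : Msk V T F) (hz : z ∉ V) : Msk V (LR4.sb T z) F := by
  refine ⟨fun x hx => ?_, h.2⟩
  rcases (sb_bit T z x).1 hx with h1 | h1
  · exact h.1 x h1
  · exact h1 ▸ hz

theorem Msk.sbF {T F z : ℕ} (h : Msk V T F) (hz : z ∈ V) : Msk V T (LR4.sb F z) := by
  refine ⟨h.1, fun x hx => ?_⟩
  rcases (sb_bit F z x).1 hx with h1 | h1
  · exact h.2 x h1
  · exact h1 ▸ hz

theorem Msk.ofT {T F z : ℕ} (h : Msk V T F) (hz : tb T z = true) : z ∉ V := by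
  rw [tb_eq] at hz
  exact h.1 z hz

theorem Msk.ofF {T F z : ℕ} (h : Msk V T F) (hz : tb F z = true) : z ∈ V := by
  rw [tb_eq] at hz
  exact h.2 z hz

theorem Msk.unsb {T F z : ℕ} (h : Msk V (LR4.sb T z) F) : Msk V T F :=
  ⟨fun x hx => h.1 x ((sb_bit T z x).2 (Or.inl hx)), h.2⟩

/-- Forcing a speed. -/
theorem goF_res {ih : Ih} (hih : ∀ s T F U k, Res M K V k T F U (ih s T F U k)) {s T F U z : ℕ}
    {k : ℕ → ℕ → Bool} (hz : Msk V T F → Dft M K V U ∨ z ∈ V) :
    Res M K V k T F U (goF z ih s T F U k) := by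
  intro hb
  unfold goF at hb
  rw [force_eq] at hb
  cases h : tb T z with
  | true =>
    rw [h] at hb
    refine ⟨s, U, fun c hc => hc, hb, fun hm => ?_⟩
    rcases hz hm with h1 | h1
    · exact h1
    · exact absurd h1 (hm.ofT h)
  | false =>
    rw [h] at hb
    obtain ⟨s', U', h1, h2, h3⟩ := hih _ _ _ _ _ hb
    refine ⟨s', U', h1, h2, fun hm => ?_⟩
    rcases hz hm with h4 | h4
    · exact h4.mono h1
    · exact h3 (hm.sbF h4)

/-- Forcing a non-speed. -/
theorem goT_res {ih : Ih} (hih : ∀ s T F U k, Res M K V k T F U (ih s T F U k)) {s T F U z : ℕ}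
    {k : ℕ → ℕ → Bool} (hz : Msk V T F → Dft M K V U ∨ z ∉ V) :
    Res M K V k T F U (goT z ih s T F U k) := by
  intro hb
  unfold goT at hb
  rw [force_eq] at hb
  cases h : tb F z with
  | true =>
    rw [h] at hb
    refine ⟨s, U, fun c hc => hc, hb, fun hm => ?_⟩
    rcases hz hm with h1 | h1
    · exact h1
    · exact absurd (hm.ofF h) h1
  | false =>
    rw [h] at hb
    obtain ⟨s', U', h1, h2, h3⟩ := hih _ _ _ _ _ hb
    refine ⟨s', U', h1, h2, fun hm => ?_⟩
    rcases hz hm with h4 | h4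
    · exact h4.mono h1
    · exact h3 (hm.sbT h4)

/-- Forcing two non-speeds. -/
theorem goT2_res {ih : Ih} (hih : ∀ s T F U k, Res M K V k T F U (ih s T F U k))
    {s T F U z z' : ℕ} {k : ℕ → ℕ → Bool} (hz : Msk V T F → Dft M K V U ∨ (z ∉ V ∧ z' ∉ V)) :
    Res M K V k T F U (goT2 z z' ih s T F U k) := by
  intro hb
  unfold goT2 at hb
  rw [force_eq] at hb
  cases h : tb F z with
  | true =>
    rw [h] at hb
    refine ⟨s, U, fun c hc => hc, hb, fun hm => ?_⟩
    rcases hz hm with h1 | h1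
    · exact h1
    · exact absurd (hm.ofF h) h1.1
  | false =>
    rw [h] at hb
    cases h' : tb F z' with
    | true =>
      rw [h'] at hb
      refine ⟨s, U, fun c hc => hc, hb, fun hm => ?_⟩
      rcases hz hm with h1 | h1
      · exact h1
      · exact absurd (hm.ofF h') h1.2
    | false =>
      rw [h'] at hb
      obtain ⟨s', U', h1, h2, h3⟩ := hih _ _ _ _ _ hb
      refine ⟨s', U', h1, h2, fun hm => ?_⟩
      rcases hz hm with h4 | h4
      · exact h4.mono h1
      · exact h3 ((hm.sbT h4.1).sbT h4.2)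

/-- A label which is used is a defect, or it gives a fact. -/
theorem Dft.or {U c : ℕ} {P : Prop} (h : ¬ Dfc M K V c → P) : Dft M K V (LR4.sb U c) ∨ P := by
  by_cases hc : Dfc M K V c
  · exact Or.inl ⟨c, (sb_bit U c c).2 (Or.inr rfl), hc⟩
  · exact Or.inr (h hc)

/-- A side condition. -/
theorem Res.an {k : ℕ → ℕ → Bool} {T F U : ℕ} {a b : Bool}
    (h : a = true → Res M K V k T F U b) : Res M K V k T F U (LR4.an a b) := by
  intro hb
  rw [an_eq, Bool.and_eq_true] at hb
  exact h hb.1 hb.2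

end sem

theorem shr_one (x : ℕ) : Nat.shiftRight x 1 = x / 2 := rfl

theorem land_one (x : ℕ) : Nat.land x 1 = x % 2 := Nat.and_one_is_mod x

theorem ro_or {a b : Bool} (h : ro a b = true) : a = true ∨ b = true := by
  rwa [ro_eq, Bool.or_eq_true] at h

theorem an_and {a b : Bool} (h : an a b = true) : a = true ∧ b = true := by
  rwa [an_eq, Bool.and_eq_true] at h

/-- The meaning of the side conditions of a triangle. -/
theorem triOK_spec {n V} (hF : Fct n V) {x y : ℕ}
    (h : triOK n (2 * n) (3 * n + 3) x y = true) (hx : x ∉ V) (hy : y ∉ V) : x + y ∈ V := by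
  unfold triOK at h
  obtain ⟨h1, h⟩ := an_and h
  obtain ⟨h2, h⟩ := an_and h
  obtain ⟨h3, h⟩ := an_and h
  obtain ⟨h4, h⟩ := an_and h
  have g1 : x < y := Nat.le_of_ble_eq_true h1
  have g2 : Nat.gcd x y = 1 := Nat.eq_of_beq_eq_true h2
  have g3 : n < x + y := Nat.le_of_ble_eq_true h3
  have g4 : x + y ≤ 2 * n := Nat.le_of_ble_eq_true h4
  refine hF.tri x y g1 g2 g3 g4 ?_ hx hy
  rcases ro_or h with h | h
  · obtain ⟨h5, h6⟩ := an_and h
    have g5 : y ≤ n := Nat.le_of_ble_eq_true h5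
    have g6 : 2 * n < x + y + y := Nat.le_of_ble_eq_true h6
    exact Or.inl ⟨g5, by omega⟩
  · obtain ⟨h5, h6⟩ := an_and h
    have g5 : n < y := Nat.le_of_ble_eq_true h5
    refine Or.inr ⟨g5, ?_⟩
    rcases ro_or h6 with h6 | h6
    · have g6 : 2 * n < x + y + x := Nat.le_of_ble_eq_true h6
      exact Or.inl (by omega)
    · have g6 : x + y + y ≤ 3 * n + 3 := Nat.le_of_ble_eq_true h6
      exact Or.inr (by omega)

/-- The meaning of the side conditions of a doubling edge. -/
theorem dblOK_spec {n V} (hF : Fct n V) {q z : ℕ}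
    (h : dblOK (2 * n) (3 * n + 3) q z = true) (h1 : q ∉ V) (h2 : q + q ∉ V) (h3 : z ∉ V) :
    False := by
  unfold dblOK at h
  obtain ⟨h4, h⟩ := an_and h
  obtain ⟨h5, h⟩ := an_and h
  obtain ⟨h6, h7⟩ := an_and h
  have g1 : 1 ≤ q := Nat.le_of_ble_eq_true h4
  have g2 : Nat.gcd z q = 1 := Nat.eq_of_beq_eq_true h5
  have g3 : 2 * n < z + q := Nat.le_of_ble_eq_true h6
  have g4 : z + q + q ≤ 3 * n + 3 := Nat.le_of_ble_eq_true h7
  exact hF.db q z g1 g2 g3 (by omega) h1 (by rwa [two_mul]) h3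

section stepsec

variable {n M K u v r : ℕ} {V : Finset ℕ}

/-- The instruction `o` is sound. -/
def Snd (n M K u v r : ℕ) (V : Finset ℕ) (o : Op) : Prop :=
  ∀ (x y : ℕ) (ih : Ih) (s T F U : ℕ) (k : ℕ → ℕ → Bool),
    (∀ s T F U k, Res M K V k T F U (ih s T F U k)) →
      Res M K V k T F U (o ⟨n, 2 * n, 3 * n + 3, M, K, K - 3, u, v, r⟩ x y ih s T F U k)

theorem snd0 : Snd n M K u v r V op0 := by
  intro x y ih s T F U k hih hb
  unfold op0 at hb
  rw [force_eq] at hb
  obtain ⟨s1, U1, h1, h2, h3⟩ := hih _ _ _ _ _ hb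
  dsimp only at h2
  rw [force_eq] at h2
  obtain ⟨s2, U2, h4, h5, h6⟩ := hih _ _ _ _ _ h2
  refine ⟨s2, U2, fun c hc => h4 c (h1 c hc), h5, fun hm => ?_⟩
  by_cases hx : x ∈ V
  · exact h6 (hm.sbF hx)
  · exact (h3 (hm.sbT hx)).mono h4

theorem snd1 (hF : Fct n V) : Snd n M K u v r V op1 := by
  intro x y ih s T F U k hih
  refine Res.an fun h1 => Res.an fun h2 => Res.an fun h3 => goF_res hih fun hm => Or.inr ?_
  exact triOK_spec hF h3 (hm.ofT h1) (hm.ofT h2)

theorem snd2 (hF : Fct n V) : Snd n M K u v r V op2 := by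
  intro x y ih s T F U k hih
  refine Res.an fun h1 => Res.an fun h2 => Res.an fun h3 => goF_res hih fun hm => Or.inr ?_
  by_contra hy
  exact hm.ofT h2 (triOK_spec hF h3 (hm.ofT h1) hy)

theorem snd3 (hF : Fct n V) : Snd n M K u v r V op3 := by
  intro x y ih s T F U k hih
  refine Res.an fun h1 => Res.an fun h2 => Res.an fun h3 => goF_res hih fun hm => Or.inr ?_
  by_contra hx
  exact hm.ofT h2 (triOK_spec hF h3 hx (hm.ofT h1))

theorem snd4 (hF : Fct n V) : Snd n M K u v r V op4 := by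
  intro x y ih s T F U k hih
  refine Res.an fun h1 => Res.an fun h2 => Res.an fun h3 => goF_res hih fun hm => Or.inr ?_
  have g2 : 2 * n < x + x + x := Nat.le_of_ble_eq_true h2
  have g3 : x ≤ n := Nat.le_of_ble_eq_true h3
  have h4 := hF.dh x (by omega) g3 (hm.ofT h1)
  rw [two_mul] at h4
  exact h4

theorem snd5 (hF : Fct n V) : Snd n M K u v r V op5 := by
  intro x y ih s T F U k hih
  refine Res.an fun h1 => Res.an fun h2 => Res.an fun h3 => goF_res hih fun hm => Or.inr ?_
  have g2 : 2 * n < x + x + x := Nat.le_of_ble_eq_true h2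
  have g3 : x ≤ n := Nat.le_of_ble_eq_true h3
  by_contra hx
  have h4 := hF.dh x (by omega) g3 hx
  rw [two_mul] at h4
  exact hm.ofT h1 h4

theorem snd6 (hF : Fct n V) : Snd n M K u v r V op6 := by
  intro x y ih s T F U k hih
  refine Res.an fun h1 => Res.an fun h2 => Res.an fun h3 => goF_res hih fun hm => Or.inr ?_
  have g3 : Nat.gcd x y = 1 := Nat.eq_of_beq_eq_true h3
  refine hF.pr x y ?_ g3 (hm.ofT h1)
  rcases ro_or h2 with h2 | h2
  · exact Or.inl (Nat.eq_of_beq_eq_true h2)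
  · exact Or.inr (Nat.eq_of_beq_eq_true h2)

theorem snd7 (hF : Fct n V) : Snd n M K u v r V op7 := by
  intro x y ih s T F U k hih
  refine Res.an fun h1 => Res.an fun h2 => Res.an fun h3 => goF_res hih fun hm => Or.inr ?_
  by_contra hy
  exact dblOK_spec hF h3 (hm.ofT h1) (hm.ofT h2) hy

theorem out_or (hF : Fct n V) {T F y : ℕ} (hm : Msk V T F)
    (h : ro (Nat.ble (Nat.succ (2 * n)) y) (tb T y) = true) : y ∉ V := by
  rcases ro_or h with h | h
  · have h1 : 2 * n < y := Nat.le_of_ble_eq_true h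
    exact hF.out y h1
  · exact hm.ofT h

theorem snd8 (hF : Fct n V) : Snd n M K u v r V op8 := by
  intro x y ih s T F U k hih
  refine Res.an fun h1 => Res.an fun h2 => Res.an fun h3 => goF_res hih fun hm => Or.inr ?_
  by_contra hx
  exact dblOK_spec hF h3 (hm.ofT h1) hx (out_or hF hm h2)

theorem snd9 (hF : Fct n V) : Snd n M K u v r V op9 := by
  intro x y ih s T F U k hih
  refine Res.an fun h1 => Res.an fun h2 => Res.an fun h3 => goF_res hih fun hm => Or.inr ?_
  by_contra hx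
  exact dblOK_spec hF h3 hx (hm.ofT h1) (out_or hF hm h2)

theorem ev_spec {x : ℕ} (h : Nat.beq (Nat.land x 1) 0 = true) : x % 2 = 0 := by
  rw [land_one] at h
  exact Nat.eq_of_beq_eq_true h

theorem snd10 : Snd n M K u v r V op10 := by
  intro x y ih s T F U k hih
  refine Res.an fun h1 => Res.an fun h2 => Res.an fun h3 => Res.an fun h4 => Res.an fun h5 => ?_
  have g3 : x % 2 = 0 := ev_spec h3
  have g4 : 0 < x := Nat.le_of_ble_eq_true h4
  have g5 : x < M := Nat.le_of_ble_eq_true h5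
  refine Res.sb (c := x) (goT2_res hih fun hm => Dft.or fun hd => ⟨?_, ?_⟩)
  · intro hx
    exact hd (Or.inl ⟨g3, g4, g5, hm.ofF h1, hm.ofF h2, Or.inl hx⟩)
  · intro hx
    exact hd (Or.inl ⟨g3, g4, g5, hm.ofF h1, hm.ofF h2, Or.inr hx⟩)

theorem snd11 : Snd n M K u v r V op11 := by
  intro x y ih s T F U k hih
  refine Res.an fun h1 => Res.an fun h2 => Res.an fun h3 => Res.an fun h4 => Res.an fun h5 =>
    Res.an fun h6 => ?_
  have g4 : x % 2 = 0 := ev_spec h4
  have g5 : 0 < x := Nat.le_of_ble_eq_true h5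
  have g6 : x < M := Nat.le_of_ble_eq_true h6
  refine Res.sb (c := x) (goT_res hih fun hm => Dft.or fun hd hy => ?_)
  have h7 : x / 2 ∈ V ∨ M - x / 2 ∈ V := (ro_or h2).imp (fun h => hm.ofF h) (fun h => hm.ofF h)
  have h8 : M - y ∈ V := hm.ofF h1
  rcases ro_or h3 with h9 | h9
  · have g9 : y = x := Nat.eq_of_beq_eq_true h9
    subst g9
    exact hd (Or.inl ⟨g4, g5, g6, hy, h8, h7⟩)
  · have g9 : y = M - x := Nat.eq_of_beq_eq_true h9
    subst g9
    rw [show M - (M - x) = x by omega] at h8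
    exact hd (Or.inl ⟨g4, g5, g6, h8, hy, h7⟩)

theorem snd12 : Snd n M K u v r V op12 := by
  intro x y ih s T F U k hih
  refine Res.an fun h1 => Res.an fun h2 => Res.an fun h3 => ?_
  have g1 : 0 < x := Nat.le_of_ble_eq_true h1
  have g2 : x ≤ K - 3 := Nat.le_of_ble_eq_true h2
  refine Res.sb (c := M + x) (goT_res hih fun hm => Dft.or fun hd hy => ?_)
  have hy' : M - 2 * x ∈ V := by
    rw [two_mul]
    exact hy
  exact hd (Or.inr (Or.inr (Or.inl ⟨x, rfl, g1, g2, hm.ofT h3, hy'⟩)))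

theorem snd13 : Snd n M K u v r V op13 := by
  intro x y ih s T F U k hih
  refine Res.an fun h1 => Res.an fun h2 => Res.an fun h3 => ?_
  have g1 : 0 < x := Nat.le_of_ble_eq_true h1
  have g2 : x ≤ K - 3 := Nat.le_of_ble_eq_true h2
  refine Res.sb (c := M + x) (goF_res hih fun hm => Dft.or fun hd => ?_)
  by_contra hx
  have hy' : M - 2 * x ∈ V := by
    rw [two_mul]
    exact hm.ofF h3
  exact hd (Or.inr (Or.inr (Or.inl ⟨x, rfl, g1, g2, hx, hy'⟩)))

theorem snd14 : Snd n M K u v r V op14 := by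
  intro x y ih s T F U k hih
  refine Res.an fun h1 => Res.an fun h2 => ?_
  have g1 : x % 2 = 1 := by
    have h3 : Nat.beq (Nat.land x 1) 1 = true := h1
    rw [land_one] at h3
    exact Nat.eq_of_beq_eq_true h3
  have g2' : x + 1 ≤ K - 3 := Nat.le_of_ble_eq_true h2
  have g2 : x ≤ K - 4 := by omega
  cases y with
  | zero =>
    refine Res.an fun h3 => Res.sb (c := x) (goT2_res hih fun hm => Dft.or fun hd => ⟨?_, ?_⟩)
    · intro hx
      exact hd (Or.inr (Or.inl ⟨g1, g2, hm.ofF h3, Or.inl hx⟩))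
    · intro hx
      exact hd (Or.inr (Or.inl ⟨g1, g2, hm.ofF h3, Or.inr hx⟩))
  | succ y =>
    refine Res.an fun h3 => Res.sb (c := x) (goT_res hih fun hm => Dft.or fun hd hx => ?_)
    have h7 : (M - x) / 2 ∈ V ∨ (M + x) / 2 ∈ V :=
      (ro_or h3).imp (fun h => hm.ofF h) (fun h => hm.ofF h)
    exact hd (Or.inr (Or.inl ⟨g1, g2, hx, h7⟩))

theorem snd15 : Snd n M K u v r V op15 := by
  intro x y ih s T F U k hih
  refine Res.an fun h1 => Res.an fun h2 => Res.an fun h3 => ?_
  have g1 : x % 2 = 0 := ev_spec h1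
  have g2 : 0 < x := Nat.le_of_ble_eq_true h2
  have g3 : x ≤ K - 3 := Nat.le_of_ble_eq_true h3
  refine Res.sb (c := M + K + x) (goT_res hih fun hm => Dft.or fun hd hx => ?_)
  exact hd (Or.inr (Or.inr (Or.inr ⟨x, rfl, g1, g2, g3, hx⟩)))

/-- Every instruction is one of the sixteen. -/
theorem ops_cases (P : Op → Prop) (h0 : P op0) (h1 : P op1) (h2 : P op2) (h3 : P op3)
    (h4 : P op4) (h5 : P op5) (h6 : P op6) (h7 : P op7) (h8 : P op8) (h9 : P op9)
    (h10 : P op10) (h11 : P op11) (h12 : P op12) (h13 : P op13) (h14 : P op14)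
    (h15 : P op15) (i j : ℕ) : P (ops i j) := by
  rcases j with _ | _ | _ | j <;> rcases i with _ | _ | _ | i
  · exact h0
  · exact h1
  · exact h2
  · exact h3
  · exact h4
  · exact h5
  · exact h6
  · exact h7
  · exact h8
  · exact h9
  · exact h10
  · exact h11
  · exact h12
  · exact h13
  · exact h14
  · exact h15

/-- One instruction is sound. -/
theorem step_res (hF : Fct n V) {ih : Ih}
    (hih : ∀ s T F U k, Res M K V k T F U (ih s T F U k)) (s T F U : ℕ) (k : ℕ → ℕ → Bool) :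
    Res M K V k T F U
      (step ⟨n, 2 * n, 3 * n + 3, M, K, K - 3, u, v, r⟩ ih s T F U k) := by
  unfold step
  simp only [force_eq]
  exact ops_cases (Snd n M K u v r V) snd0 (snd1 hF) (snd2 hF) (snd3 hF) (snd4 hF) (snd5 hF)
    (snd6 hF) (snd7 hF) (snd8 hF) (snd9 hF) snd10 snd11 snd12 snd13 snd14 snd15 _ _
    _ _ ih _ T F U k hih

/-- A run is sound. -/
theorem run_res (hF : Fct n V) (fuel : ℕ) : ∀ s T F U k, Res M K V k T F U
    (run ⟨n, 2 * n, 3 * n + 3, M, K, K - 3, u, v, r⟩ fuel s T F U k) := by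
  induction fuel with
  | zero =>
    intro s T F U k hb
    exact absurd hb (by simp [run])
  | succ fuel ih =>
    intro s T F U k
    exact step_res hF ih s T F U k

end stepsec

section main

variable {n M K u v r : ℕ} {V : Finset ℕ}

/-- The invariant of a run: if no used label is a defect, the masks are correct. -/
def Inv (M K : ℕ) (V : Finset ℕ) (T F U : ℕ) : Prop :=
  (∀ c, U.testBit c = true → ¬ Dfc M K V c) →
    (∀ x, T.testBit x = true → x ∉ V) ∧ ∀ x, F.testBit x = true → x ∈ V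

/-- A run is sound: its labels contain a defect. -/
theorem run_sound {p : Par} (hF : Fct p.n V) (ha : p.a = 2 * p.n)
    (hb : p.b = 3 * p.n + 3) (hg : p.g = p.K - 3)
    (fuel s T F U : ℕ) (k : ℕ → ℕ → Bool) (h : run p fuel s T F U k = true) :
    ∃ s' U', (∀ c, U.testBit c = true → U'.testBit c = true) ∧ k s' U' = true ∧
      (Inv p.M p.K V T F U → ∃ c, U'.testBit c = true ∧ Dfc p.M p.K V c) := by
  obtain ⟨n, a, b, M, K, g, u, v, r⟩ := p
  dsimp only at hF ha hb hg ⊢
  subst ha hb hg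
  obtain ⟨s', U', h1, h2, h3⟩ := run_res hF fuel s T F U k h
  refine ⟨s', U', h1, h2, fun hi => ?_⟩
  by_cases hU : ∀ c, U.testBit c = true → ¬ Dfc M K V c
  · exact h3 (hi hU)
  · push Not at hU
    obtain ⟨c, hc1, hc2⟩ := hU
    exact ⟨c, h1 c hc1, hc2⟩

theorem msk_init (hF : Fct n V) : Msk V 0 (sb 2 (n + 1)) := by
  refine ⟨fun x hx => ?_, fun x hx => ?_⟩
  · simp at hx
  · rcases (sb_bit 2 (n + 1) x).1 hx with h1 | h1
    · have h2 : (2 : ℕ) = 2 ^ 1 := rfl
      rw [h2, Nat.testBit_two_pow, decide_eq_true_iff] at h1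
      exact h1 ▸ hF.one
    · exact h1 ▸ hF.succ

theorem Dfc.lt {c : ℕ} (h : Dfc M K V c) : c < M + 2 * K := by
  rcases h with ⟨h1, h2, h3, -⟩ | ⟨h1, h2, -⟩ | ⟨x, h1, h2, h3, -⟩ | ⟨x, h1, -, h2, h3, -⟩
  all_goals omega

open Classical in
/-- The cores contain as many defects. -/
theorem cores_sound (hF : Fct n V) (fuel c : ℕ) : ∀ s A : ℕ,
    cores ⟨n, 2 * n, 3 * n + 3, M, K, K - 3, u, v, r⟩ fuel (sb 2 (n + 1)) c s A = true →
      c ≤ ((range (M + 2 * K)).filter
        (fun d => Dfc M K V d ∧ ¬ A.testBit d = true)).card := by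
  induction c with
  | zero => intro s A _; exact Nat.zero_le _
  | succ c ih =>
    intro s A h
    have h' : run ⟨n, 2 * n, 3 * n + 3, M, K, K - 3, u, v, r⟩ fuel s 0 (sb 2 (n + 1)) 0
      (fun s' U => an (Nat.beq (Nat.land U A) 0) (force (Nat.lor A U) fun A' =>
        cores ⟨n, 2 * n, 3 * n + 3, M, K, K - 3, u, v, r⟩ fuel (sb 2 (n + 1)) c s' A')) =
        true := h
    obtain ⟨s', U, -, h2, h3⟩ := run_res (M := M) (K := K) hF fuel s 0 _ 0 _ h'
    obtain ⟨d, hd1, hd2⟩ := h3 (msk_init hF)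
    dsimp only at h2
    rw [force_eq] at h2
    obtain ⟨h4, h5⟩ := an_and h2
    have h6 := ih s' _ h5
    have h4' : U &&& A = 0 := Nat.eq_of_beq_eq_true h4
    have hdA : ¬ A.testBit d = true := by
      intro hA
      have h7 : (U &&& A).testBit d = true := by
        rw [Nat.testBit_and, hd1, hA]; rfl
      rw [h4'] at h7
      simp at h7
    have hbit : ∀ e, (Nat.lor A U).testBit e = true ↔ A.testBit e = true ∨ U.testBit e = true := by
      intro e
      have h7 : Nat.lor A U = A ||| U := rfl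
      rw [h7, Nat.testBit_or, Bool.or_eq_true]
    have hsub : insert d ((range (M + 2 * K)).filter
        (fun e => Dfc M K V e ∧ ¬ (Nat.lor A U).testBit e = true)) ⊆
        (range (M + 2 * K)).filter (fun e => Dfc M K V e ∧ ¬ A.testBit e = true) := by
      intro e he
      rw [mem_insert] at he
      rw [mem_filter, mem_range]
      rcases he with rfl | he
      · exact ⟨hd2.lt, hd2, hdA⟩
      · rw [mem_filter, mem_range] at he
        exact ⟨he.1, he.2.1, fun h7 => he.2.2 ((hbit e).2 (Or.inl h7))⟩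
    have hnot : d ∉ (range (M + 2 * K)).filter
        (fun e => Dfc M K V e ∧ ¬ (Nat.lor A U).testBit e = true) := by
      intro hd
      rw [mem_filter] at hd
      exact hd.2.2 ((hbit d).2 (Or.inr hd1))
    have h7 := card_le_card hsub
    rw [card_insert_of_notMem hnot] at h7
    omega

/-- The number of even numbers from `1` to `2 m`. -/
theorem card_evens (m : ℕ) : ((Icc 1 (2 * m)).filter (fun e => e % 2 = 0)).card = m := by
  have h : (Icc 1 (2 * m)).filter (fun e => e % 2 = 0) = (Icc 1 m).image (fun i => 2 * i) := by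
    ext e
    simp only [mem_filter, mem_Icc, mem_image]
    constructor
    · rintro ⟨⟨h1, h2⟩, h3⟩
      exact ⟨e / 2, by omega, by omega⟩
    · rintro ⟨i, h1, h2⟩
      omega
  rw [h, card_image_of_injective _ (fun a b hab => by simpa using hab), Nat.card_Icc]
  omega

open Classical in
/-- A counterexample passes no certificate. -/
theorem chk_sound {w fuel s : ℕ} (hF : Fct n V) (hK1 : 5 ≤ K) (hKodd : K % 2 = 1)
    (_hK2 : K ≤ n) (hacc : (LS (2 * n + K) V).card + (RS (2 * n + K) K V).card +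
      (DS (2 * n + K) K V).card + 1 ≤ (ES K V).card)
    (h : chk n K w fuel s = true) : False := by
  unfold chk at h
  simp only [force_eq] at h
  have h1 := cores_sound (M := 2 * n + K) (K := K) hF fuel ((K - 3) / 2) s 0 h
  clear h
  generalize 2 * n + K = M at *
  have hev : (ES K V).card + ((Icc 1 (K - 3)).filter (fun x => x % 2 = 0 ∧ x ∈ V)).card =
      (K - 3) / 2 := by
    have h2 : ES K V = ((Icc 1 (K - 3)).filter (fun x => x % 2 = 0)).filter (fun x => x ∉ V) := by
      unfold ES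
      rw [filter_filter]
    have h3 : (Icc 1 (K - 3)).filter (fun x => x % 2 = 0 ∧ x ∈ V) =
        ((Icc 1 (K - 3)).filter (fun x => x % 2 = 0)).filter (fun x => x ∈ V) := by
      rw [filter_filter]
    have h4 : K - 3 = 2 * ((K - 3) / 2) := by omega
    have h5 : ((Icc 1 (K - 3)).filter (fun x => x % 2 = 0)).card = (K - 3) / 2 := by
      conv_lhs => rw [h4]
      exact card_evens _
    rw [h2, h3, ← h5, add_comm]
    exact card_filter_add_card_filter_not _
  have hsub : (range (M + 2 * K)).filter (fun d => Dfc M K V d ∧ ¬ (0 : ℕ).testBit d = true) ⊆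
      ((LS M V ∪ DS M K V) ∪ (RS M K V).image (fun x => M + x)) ∪
        ((Icc 1 (K - 3)).filter (fun x => x % 2 = 0 ∧ x ∈ V)).image (fun x => M + K + x) := by
    intro d hd
    rw [mem_filter] at hd
    obtain ⟨-, hd, -⟩ := hd
    rw [mem_union, mem_union, mem_union]
    rcases hd with ⟨g1, g2, g3, g4⟩ | ⟨g1, g2, g3⟩ | ⟨x, rfl, g2, g3, g4⟩ | ⟨x, rfl, g1, g2, g3, g4⟩
    · left; left; left
      unfold LS
      rw [mem_filter, mem_Icc]
      exact ⟨⟨g2, g3.le⟩, g1, g4⟩
    · left; left; right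
      unfold DS
      rw [mem_filter, mem_Icc]
      exact ⟨⟨by omega, g2⟩, g1, g3⟩
    · left; right
      refine mem_image_of_mem _ ?_
      unfold RS
      rw [mem_filter, mem_Icc]
      exact ⟨⟨g2, g3⟩, g4⟩
    · right
      refine mem_image_of_mem _ ?_
      rw [mem_filter, mem_Icc]
      exact ⟨⟨g2, g3⟩, g1, g4⟩
  have h2 := card_le_card hsub
  have h3 := card_union_le ((LS M V ∪ DS M K V) ∪ (RS M K V).image (fun x => M + x))
    (((Icc 1 (K - 3)).filter (fun x => x % 2 = 0 ∧ x ∈ V)).image (fun x => M + K + x))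
  have h4 := card_union_le (LS M V ∪ DS M K V) ((RS M K V).image (fun x => M + x))
  have h5 := card_union_le (LS M V) (DS M K V)
  have h6 : ((RS M K V).image (fun x => M + x)).card ≤ (RS M K V).card := card_image_le
  have h7 : (((Icc 1 (K - 3)).filter (fun x => x % 2 = 0 ∧ x ∈ V)).image
    (fun x => M + K + x)).card ≤ ((Icc 1 (K - 3)).filter (fun x => x % 2 = 0 ∧ x ∈ V)).card :=
    card_image_le
  omega

end main

end Pool.Agent.LR4
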