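import Mathlib
import Pool.Agent.LR4.Acct
import Pool.Agent.LR2.Cop

/-!
Lonely runner with speeds at most `2 n`: the counting part of the macro cores.

`mac_hits` : every hit `(b, X)` determines `u`.
`mac_pair` : an even missing speed `f` puts one of `u`, `u + f` into `V`.
`mac_main` : the counting inequality.
-/

namespace Pool.Agent.LR4

open Finset Pool.Agent.LR2 Pool.Agent.LR3

/-- Each pair of a multiplier `b` and a label `X` is hit by at most one `u` in `(M / 2, M)`. -/
theorem mac_hits {M : ℕ} {Z L Y : Finset ℕ} (hZ : ∀ u ∈ Z, M < 2 * u ∧ u < M)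
    (hY : ∀ b ∈ Y, Nat.Coprime b M)
    (h : ∀ u ∈ Z, ∃ b ∈ Y, ∃ X ∈ L, (8 * X) % M = (b * u) % M ∨ (8 * X + b * u) % M = 0) :
    Z.card ≤ Y.card * L.card := by
  classical
  choose! b hb X hX hbX using h
  rw [← Finset.card_product]
  refine Finset.card_le_card_of_injOn (fun u => (b u, X u)) ?_ ?_
  · intro u hu
    exact Finset.mem_coe.2 (Finset.mem_product.2 ⟨hb u hu, hX u hu⟩)
  · intro u hu v hv huv
    have hu' := Finset.mem_coe.1 hu
    have hv' := Finset.mem_coe.1 hv
    simp only [Prod.mk.injEq] at huv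
    obtain ⟨h1, h2⟩ := huv
    have e1 := hbX u hu'
    have e2 := hbX v hv'
    rw [← h1, ← h2] at e2
    have hc : Nat.Coprime (b u) M := hY _ (hb u hu')
    obtain ⟨hu1, hu2⟩ := hZ u hu'
    obtain ⟨hv1, hv2⟩ := hZ v hv'
    generalize b u = β at *
    generalize X u = ξ at *
    have hc' : Nat.Coprime M β := Nat.coprime_comm.1 hc
    have hsame : (β * u) % M = (β * v) % M → u = v := by
      intro h3
      have h4 : u ≡ v [MOD M] := Nat.ModEq.cancel_left_of_coprime hc'.gcd_eq_one h3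
      have h5 : u % M = v % M := h4
      rwa [Nat.mod_eq_of_lt hu2, Nat.mod_eq_of_lt hv2] at h5
    have hopp : (β * u + β * v) % M ≠ 0 := by
      intro h3
      have h4 : M ∣ β * (u + v) := by
        rw [mul_add]; exact Nat.dvd_of_mod_eq_zero h3
      have h5 : M ∣ u + v := hc'.dvd_of_dvd_mul_left h4
      obtain ⟨c, hc⟩ := h5
      have h6 : c < 2 := by
        by_contra h7
        push Not at h7
        have : M * 2 ≤ M * c := Nat.mul_le_mul_left _ h7
        omega
      have h7 : 1 < c := by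
        by_contra h8
        push Not at h8
        have : M * c ≤ M * 1 := Nat.mul_le_mul_left _ h8
        omega
      omega
    rcases e1 with e1 | e1 <;> rcases e2 with e2 | e2
    · exact hsame (e1.symm.trans e2)
    · exfalso
      apply hopp
      have : (8 * ξ + β * v) % M = ((8 * ξ) % M + β * v) % M := by
        rw [Nat.mod_add_mod]
      rw [this, e1, Nat.mod_add_mod] at e2
      exact e2
    · exfalso
      apply hopp
      have : (8 * ξ + β * u) % M = ((8 * ξ) % M + β * u) % M := by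
        rw [Nat.mod_add_mod]
      rw [this, e2, Nat.mod_add_mod, add_comm] at e1
      exact e1
    · apply hsame
      have h3 : (8 * ξ + β * u) ≡ (8 * ξ + β * v) [MOD M] := by
        unfold Nat.ModEq; rw [e1, e2]
      exact Nat.ModEq.add_left_cancel' _ h3

/-- A missing `f` puts one of `u`, `u + f` into `V`. -/
theorem mac_pair {n f u : ℕ} {V : Finset ℕ} (h : Cex n V) (hf0 : 0 < f) (hf : f ∉ V)
    (hc : Nat.Coprime u f) (h1 : n < u) (h2 : f + 2 * u ≤ 3 * n + 3) (h3 : f < u)
    (h4 : u + f ≤ 2 * n) : u ∈ V ∨ u + f ∈ V := by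
  by_contra hcon
  push Not at hcon
  have := h.tri hf0 h3 (Nat.coprime_comm.1 hc) (by omega) (by omega)
    (Or.inr ⟨h1, Or.inr h2⟩) hf hcon.1
  rw [add_comm] at this
  exact hcon.2 this

/-- Doubling of small missing speeds, without side conditions. -/
theorem mac_dbl {n e : ℕ} {V : Finset ℕ} (h : Cex n V) (he0 : 0 < e) (he : 3 * e ≤ n + 2)
    (hV : e ∉ V) : 2 * e ∈ V := by
  refine h.dbl (z := e * ((2 * n) / e + 1) + 1) he0 ?_ ?_ ?_ hV
  · rw [add_comm]
    simp
  · have h1 := Nat.lt_mul_div_succ (2 * n) he0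
    omega
  · have h1 := Nat.mul_div_le (2 * n) e
    have h2 : e * (2 * n / e + 1) = e * (2 * n / e) + e := by ring
    omega

/-- `u` lies in the window. -/
def inJ (J : List (ℕ × ℕ)) (M u : ℕ) : Prop := ∃ a ∈ J, a.1 * M ≤ 1000 * u ∧ 1000 * u ≤ a.2 * M

/-- `u` and `u + f` lie in the same interval of the window. -/
def inJ2 (J : List (ℕ × ℕ)) (M f u : ℕ) : Prop :=
  ∃ a ∈ J, a.1 * M ≤ 1000 * u ∧ 1000 * (u + f) ≤ a.2 * M

instance (J : List (ℕ × ℕ)) (M u : ℕ) : Decidable (inJ J M u) := by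
  unfold inJ; infer_instance

instance (J : List (ℕ × ℕ)) (M f u : ℕ) : Decidable (inJ2 J M f u) := by
  unfold inJ2; infer_instance

/-- Total length of the window, in units of `1 / 1000`. -/
def jlen (J : List (ℕ × ℕ)) : ℕ := (J.map (fun a => a.2 - a.1)).sum

theorem mac_div_aux (a : ℕ) : a < (a / 1000 + 1) * 1000 := by omega

theorem mac_one (M f p q : ℕ) (hf : 0 < f) (hM : 0 < M) (hp : 0 < p) (hpq : p < q) (hq : q < 1000) :
    (((q : ℝ) - p) * M / 1000 - f - 1) * ((f.totient : ℝ) / f) - 2 ^ f.primeFactors.card ≤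
      (((range M).filter (fun u => (p * M ≤ 1000 * u ∧ 1000 * (u + f) ≤ q * M) ∧
        Nat.Coprime u f)).card : ℝ) := by
  have hφ : 0 ≤ (f.totient : ℝ) / f := by positivity
  have h2ω : (0 : ℝ) ≤ 2 ^ f.primeFactors.card := by positivity
  obtain ⟨A, hA⟩ : ∃ A, A = (p * M - 1) / 1000 := ⟨_, rfl⟩
  obtain ⟨B, hB⟩ : ∃ B, B = q * M / 1000 - f := ⟨_, rfl⟩
  have hpM : 0 < p * M := Nat.mul_pos hp hM
  have hA1 : (A : ℝ) ≤ p * M / 1000 := by
    have h1 : A * 1000 ≤ p * M := by
      rw [hA]; exact (Nat.div_mul_le_self _ _).trans (Nat.sub_le _ _)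
    have h2 : ((A * 1000 : ℕ) : ℝ) ≤ ((p * M : ℕ) : ℝ) := Nat.cast_le.2 h1
    push_cast at h2
    linarith
  have hB1 : (q : ℝ) * M / 1000 - 1 - f ≤ B := by
    have h1 : q * M / 1000 ≤ B + f := by omega
    have h2 : q * M < (q * M / 1000 + 1) * 1000 := mac_div_aux (q * M)
    have h3 : q * M < (B + f + 1) * 1000 :=
      h2.trans_le (Nat.mul_le_mul_right _ (Nat.add_le_add_right h1 1))
    have h4 : ((q * M : ℕ) : ℝ) < (((B + f + 1) * 1000 : ℕ) : ℝ) := Nat.cast_lt.2 h3
    push_cast at h4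
    linarith
  rcases le_total A B with hAB | hAB
  · have h1 := COP f A B hf hAB
    have h2 : ((Ioc A B).filter (fun x : ℕ => Nat.Coprime x f)).card ≤
        ((range M).filter (fun u => (p * M ≤ 1000 * u ∧ 1000 * (u + f) ≤ q * M) ∧
          Nat.Coprime u f)).card := by
      refine Finset.card_le_card ?_
      intro u hu
      simp only [mem_filter, mem_Ioc, mem_range] at hu ⊢
      obtain ⟨⟨h3, h4⟩, h5⟩ := hu
      have h6 : p * M ≤ 1000 * u := by omega
      have h7 : 1000 * (u + f) ≤ q * M := by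
        have : 0 < B := by omega
        omega
      have h8 : q * M < 1000 * M := Nat.mul_lt_mul_of_pos_right hq hM
      refine ⟨by omega, ⟨h6, h7⟩, h5⟩
    have h3 : (((Ioc A B).filter (fun x : ℕ => Nat.Coprime x f)).card : ℝ) ≤
        (((range M).filter (fun u => (p * M ≤ 1000 * u ∧ 1000 * (u + f) ≤ q * M) ∧
          Nat.Coprime u f)).card : ℝ) := by exact_mod_cast h2
    refine le_trans ?_ (h1.trans h3)
    have h4 : ((q : ℝ) - p) * M / 1000 - f - 1 ≤ (B : ℝ) - A := by
      have : ((q : ℝ) - p) * M / 1000 = q * M / 1000 - p * M / 1000 := by ring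
      linarith
    have := mul_le_mul_of_nonneg_right h4 hφ
    linarith
  · have h4 : ((q : ℝ) - p) * M / 1000 - f - 1 ≤ 0 := by
      have h5 : (B : ℝ) ≤ A := by exact_mod_cast hAB
      have : ((q : ℝ) - p) * M / 1000 = q * M / 1000 - p * M / 1000 := by ring
      linarith
    have h5 := mul_nonpos_of_nonpos_of_nonneg h4 hφ
    have h6 : (0 : ℝ) ≤ (((range M).filter (fun u => (p * M ≤ 1000 * u ∧ 1000 * (u + f) ≤ q * M) ∧
        Nat.Coprime u f)).card : ℝ) := by positivity
    linarith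

/-- One residue class in an interval. -/
theorem mac_class (M p q r v : ℕ) (hr : 0 < r) (hpq : p ≤ q) :
    (((range M).filter (fun u => (p * M ≤ 1000 * u ∧ 1000 * u ≤ q * M) ∧ r ∣ u + v)).card : ℝ) ≤
      ((q : ℝ) - p) * M / (1000 * r) + 1 := by
  classical
  obtain ⟨S, hS⟩ : ∃ S, S = (range M).filter (fun u => (p * M ≤ 1000 * u ∧ 1000 * u ≤ q * M) ∧
    r ∣ u + v) := ⟨_, rfl⟩
  rw [← hS]
  have hr' : (0 : ℝ) < r := by exact_mod_cast hr
  have hpq' : (p : ℝ) ≤ q := by exact_mod_cast hpq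
  rcases S.eq_empty_or_nonempty with he | hne
  · rw [he]
    simp only [card_empty, Nat.cast_zero]
    have : (0 : ℝ) ≤ ((q : ℝ) - p) * M / (1000 * r) :=
      div_nonneg (mul_nonneg (by linarith) (by positivity)) (by positivity)
    linarith
  · obtain ⟨m, hm⟩ : ∃ m, m = S.min' hne := ⟨_, rfl⟩
    have hmS : m ∈ S := hm ▸ S.min'_mem hne
    have hmin : ∀ x ∈ S, m ≤ x := fun x hx => hm ▸ S.min'_le x hx
    have key : ∀ x ∈ S, ∃ k, x = m + r * k := by
      intro x hx
      have h1 := hmin x hx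
      rw [hS] at hx hmS
      obtain ⟨-, -, h2⟩ := mem_filter.1 hx
      obtain ⟨-, -, h3⟩ := mem_filter.1 hmS
      have h4 : r ∣ (x + v) - (m + v) := Nat.dvd_sub h2 h3
      obtain ⟨k, hk⟩ := h4
      exact ⟨k, by omega⟩
    obtain ⟨T, hT⟩ : ∃ T, T = (q - p) * M / (1000 * r) := ⟨_, rfl⟩
    have hcard : S.card ≤ T + 1 := by
      have h1 : S ⊆ (range (T + 1)).image (fun k => m + r * k) := by
        intro x hx
        obtain ⟨k, hk⟩ := key x hx
        rw [mem_image]
        refine ⟨k, ?_, hk.symm⟩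
        rw [mem_range, Nat.lt_succ_iff, hT, Nat.le_div_iff_mul_le (by positivity)]
        rw [hS] at hx hmS
        obtain ⟨-, ⟨-, h2⟩, -⟩ := mem_filter.1 hx
        obtain ⟨-, ⟨h3, -⟩, -⟩ := mem_filter.1 hmS
        have h4 : (q - p) * M + p * M = q * M := by
          rw [← add_mul, Nat.sub_add_cancel hpq]
        have h5 : k * (1000 * r) = 1000 * (r * k) := by ring
        omega
      calc S.card ≤ ((range (T + 1)).image (fun k => m + r * k)).card := Finset.card_le_card h1
        _ ≤ (range (T + 1)).card := Finset.card_image_le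
        _ = T + 1 := card_range _
    have h1 : (T : ℝ) ≤ ((q : ℝ) - p) * M / (1000 * r) := by
      rw [le_div_iff₀ (by positivity)]
      have h2 : T * (1000 * r) ≤ (q - p) * M := by rw [hT]; exact Nat.div_mul_le_self _ _
      have h3 : ((T * (1000 * r) : ℕ) : ℝ) ≤ (((q - p) * M : ℕ) : ℝ) := by exact_mod_cast h2
      rw [Nat.cast_mul, Nat.cast_mul, Nat.cast_mul, Nat.cast_sub hpq] at h3
      exact_mod_cast h3
    have h2 : (S.card : ℝ) ≤ T + 1 := by exact_mod_cast hcard
    linarith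

/-- Lower bound for the union over a list of disjoint intervals. -/
theorem mac_list (M f : ℕ) (hf : 0 < f) (hM : 0 < M) : ∀ J : List (ℕ × ℕ),
    (∀ a ∈ J, 0 < a.1 ∧ a.1 < a.2 ∧ a.2 < 1000) → J.Pairwise (fun a b => a.2 < b.1) →
    ((jlen J : ℝ) * M / 1000 - J.length * (f + 1)) * ((f.totient : ℝ) / f) -
      J.length * 2 ^ f.primeFactors.card ≤
      (((range M).filter (fun u => inJ2 J M f u ∧ Nat.Coprime u f)).card : ℝ)
  | [], _, _ => by
    simp [jlen]
  | a :: l, h, hp => by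
    classical
    have h1 := mac_list M f hf hM l (fun b hb => h b (List.mem_cons_of_mem _ hb)) hp.of_cons
    obtain ⟨ha1, ha2, ha3⟩ := h a List.mem_cons_self
    have h2 := mac_one M f a.1 a.2 hf hM ha1 ha2 ha3
    have hdisj : Disjoint ((range M).filter (fun u => (a.1 * M ≤ 1000 * u ∧
        1000 * (u + f) ≤ a.2 * M) ∧ Nat.Coprime u f))
        ((range M).filter (fun u => inJ2 l M f u ∧ Nat.Coprime u f)) := by
      rw [Finset.disjoint_left]
      intro u hu hv
      simp only [mem_filter] at hu hv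
      obtain ⟨-, ⟨-, h3⟩, -⟩ := hu
      obtain ⟨-, ⟨b, hb, h4, -⟩, -⟩ := hv
      have h5 : a.2 < b.1 := (List.pairwise_cons.1 hp).1 b hb
      have h6 : a.2 * M < b.1 * M := Nat.mul_lt_mul_of_pos_right h5 hM
      omega
    have hun : ((range M).filter (fun u => inJ2 (a :: l) M f u ∧ Nat.Coprime u f)) =
        ((range M).filter (fun u => (a.1 * M ≤ 1000 * u ∧
          1000 * (u + f) ≤ a.2 * M) ∧ Nat.Coprime u f)) ∪
        ((range M).filter (fun u => inJ2 l M f u ∧ Nat.Coprime u f)) := by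
      ext u
      simp only [mem_union, mem_filter, inJ2, List.mem_cons, exists_eq_or_imp]
      tauto
    rw [hun, Finset.card_union_of_disjoint hdisj, Nat.cast_add]
    have h3 : (jlen (a :: l) : ℝ) = ((a.2 : ℝ) - a.1) + jlen l := by
      rw [jlen, List.map_cons, List.sum_cons, ← jlen, Nat.cast_add, Nat.cast_sub ha2.le]
    have h4 : ((a :: l).length : ℝ) = 1 + l.length := by
      rw [List.length_cons]; push_cast; ring
    rw [h3, h4]
    have h5 : (((a.2 : ℝ) - a.1 + jlen l) * M / 1000 - (1 + l.length) * (f + 1)) *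
        ((f.totient : ℝ) / f) - (1 + l.length) * 2 ^ f.primeFactors.card =
        ((((a.2 : ℝ) - a.1) * M / 1000 - f - 1) * ((f.totient : ℝ) / f) -
          2 ^ f.primeFactors.card) +
        (((jlen l : ℝ) * M / 1000 - l.length * (f + 1)) * ((f.totient : ℝ) / f) -
          l.length * 2 ^ f.primeFactors.card) := by ring
    rw [h5]
    exact add_le_add h2 h1

/-- Upper bound for one class in the union. -/
theorem mac_list_class (M r v : ℕ) (hr : 0 < r) : ∀ J : List (ℕ × ℕ),
    (∀ a ∈ J, a.1 ≤ a.2) →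
    (((range M).filter (fun u => inJ J M u ∧ r ∣ u + v)).card : ℝ) ≤
      (jlen J : ℝ) * M / (1000 * r) + J.length
  | [], _ => by
    simp [jlen, inJ]
  | a :: l, h => by
    classical
    have h1 := mac_list_class M r v hr l (fun b hb => h b (List.mem_cons_of_mem _ hb))
    have ha := h a List.mem_cons_self
    have h2 := mac_class M a.1 a.2 r v hr ha
    have hun : ((range M).filter (fun u => inJ (a :: l) M u ∧ r ∣ u + v)) =
        ((range M).filter (fun u => (a.1 * M ≤ 1000 * u ∧ 1000 * u ≤ a.2 * M) ∧ r ∣ u + v)) ∪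
        ((range M).filter (fun u => inJ l M u ∧ r ∣ u + v)) := by
      ext u
      simp only [mem_union, mem_filter, inJ, List.mem_cons, exists_eq_or_imp]
      tauto
    rw [hun]
    have h3 : ((((range M).filter (fun u => (a.1 * M ≤ 1000 * u ∧ 1000 * u ≤ a.2 * M) ∧
        r ∣ u + v)) ∪ ((range M).filter (fun u => inJ l M u ∧ r ∣ u + v))).card : ℝ) ≤
        (((range M).filter (fun u => (a.1 * M ≤ 1000 * u ∧ 1000 * u ≤ a.2 * M) ∧
        r ∣ u + v)).card : ℝ) + (((range M).filter (fun u => inJ l M u ∧ r ∣ u + v)).card : ℝ) := by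
      exact_mod_cast Finset.card_union_le _ _
    refine h3.trans ?_
    have h4 : (jlen (a :: l) : ℝ) = ((a.2 : ℝ) - a.1) + jlen l := by
      rw [jlen, List.map_cons, List.sum_cons, ← jlen, Nat.cast_add, Nat.cast_sub ha]
    have h5 : ((a :: l).length : ℝ) = 1 + l.length := by
      rw [List.length_cons]; push_cast; ring
    rw [h4, h5]
    have h6 : ((a.2 : ℝ) - a.1 + jlen l) * M / (1000 * r) + (1 + l.length) =
        (((a.2 : ℝ) - a.1) * M / (1000 * r) + 1) + ((jlen l : ℝ) * M / (1000 * r) + l.length) := by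
      ring
    rw [h6]
    exact add_le_add h2 h1

/-- The table statement: an odd speed `u` in the window (outside the class `-M` mod `105`) loses a
label. -/
def Tab (M : ℕ) (V Y : Finset ℕ) (J : List (ℕ × ℕ)) : Prop :=
  ∀ u, Odd u → Nat.Coprime u M → u ∈ V → inJ J M u → ¬ 105 ∣ u + M →
    ∃ b ∈ Y, ∃ X ∈ labL M V, (8 * X) % M = (b * u) % M ∨ (8 * X + b * u) % M = 0

/-- **The counting inequality.** -/
theorem mac_main {n K M : ℕ} {V : Finset ℕ} (h : Cex n V) (hM : M = 2 * n + K) (hp : M.Prime)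
    (hK3 : 3 ≤ K) (hK : 700 * K ≤ M) {Y : Finset ℕ} {J : List (ℕ × ℕ)}
    (hY : ∀ b ∈ Y, 0 < b ∧ b < M) (hJ : ∀ a ∈ J, 501 ≤ a.1 ∧ a.1 < a.2 ∧ a.2 ≤ 747)
    (hJp : J.Pairwise (fun a b => a.2 < b.1)) (tab : Tab M V Y J) {f : ℕ} (hf : f ∈ evs M K V) :
    ((jlen J : ℝ) * M / 1000 - J.length * (f + 1)) * ((f.totient : ℝ) / f) -
      J.length * 2 ^ f.primeFactors.card - 2 * ((jlen J : ℝ) * M / 210000 + J.length) ≤
      2 * Y.card * (((evs M K V).card : ℝ) - 1) := by
  classical
  obtain ⟨hfI, ⟨hfe, hfc⟩, hfV⟩ := mem_filter.1 hf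
  obtain ⟨hf1, hf2⟩ := mem_Icc.1 hfI
  have hn2 := h.two
  have hodd : Odd M := hp.odd_of_ne_two (by omega)
  have hM0 : 0 < M := hp.pos
  have h4K : 4 * K ≤ n + 8 := by omega
  have hacc := acct_prime h hM hp hK3 h4K
  obtain ⟨S, hS⟩ : ∃ S, S = (range M).filter (fun u => inJ2 J M f u ∧ Nat.Coprime u f) := ⟨_, rfl⟩
  obtain ⟨B1, hB1⟩ : ∃ B, B = (range M).filter (fun u => inJ J M u ∧ 210 ∣ u + M) := ⟨_, rfl⟩
  obtain ⟨B2, hB2⟩ : ∃ B, B = (range M).filter (fun u => inJ J M u ∧ 210 ∣ u + (f + M)) := ⟨_, rfl⟩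
  obtain ⟨Z, hZ⟩ : ∃ Z, Z = (range M).filter (fun u => (Odd u ∧ u ∈ V) ∧ inJ J M u ∧
    ¬ 105 ∣ u + M) := ⟨_, rfl⟩
  have hS1 := mac_list M f hf1 hM0 J (fun a ha => ⟨by have := hJ a ha; omega, (hJ a ha).2.1,
    by have := hJ a ha; omega⟩) hJp
  rw [← hS] at hS1
  have hB1c := mac_list_class M 210 M (by norm_num) J (fun a ha => (hJ a ha).2.1.le)
  rw [← hB1] at hB1c
  have hB2c := mac_list_class M 210 (f + M) (by norm_num) J (fun a ha => (hJ a ha).2.1.le)
  rw [← hB2] at hB2c
  -- bounds for elements of the window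
  have hwin : ∀ u, inJ J M u → M < 2 * u ∧ 1000 * u ≤ 747 * M := by
    rintro u ⟨a, ha, h1, h2⟩
    obtain ⟨h3, h4, h5⟩ := hJ a ha
    have h6 : 501 * M ≤ a.1 * M := Nat.mul_le_mul_right _ h3
    have h7 : a.2 * M ≤ 747 * M := Nat.mul_le_mul_right _ h5
    omega
  have hcopM : ∀ u, inJ J M u → Nat.Coprime u M := by
    intro u hu
    have h1 := hwin u hu
    exact (Nat.coprime_of_lt_prime (by omega) (by omega) hp).symm
  -- hits
  have hhit : Z.card ≤ Y.card * (labL M V).card := by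
    refine mac_hits (M := M) ?_ ?_ ?_
    · intro u hu
      rw [hZ] at hu
      obtain ⟨-, -, h2, -⟩ := mem_filter.1 hu
      have := hwin u h2
      omega
    · intro b hb
      obtain ⟨h1, h2⟩ := hY b hb
      exact (Nat.coprime_of_lt_prime (by omega) h2 hp).symm
    · intro u hu
      rw [hZ] at hu
      obtain ⟨-, ⟨h1, h2⟩, h3, h4⟩ := mem_filter.1 hu
      exact tab u h1 (hcopM u h3) h2 h3 h4
  -- pairs
  have hpairs : S ⊆ (B1 ∪ B2) ∪ (Z ∪ (Z.image (fun u => u - f))) := by
    intro u hu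
    rw [hS] at hu
    obtain ⟨huM, ⟨a, ha, h1, h2⟩, h3⟩ := mem_filter.1 hu
    rw [mem_range] at huM
    obtain ⟨h4, h5, h6⟩ := hJ a ha
    have hinJu : inJ J M u := ⟨a, ha, h1, by omega⟩
    have hinJf : inJ J M (u + f) := ⟨a, ha, by omega, h2⟩
    have hwu := hwin u hinJu
    have hwf := hwin (u + f) hinJf
    have huo : Odd u := by
      by_contra hc
      rw [Nat.not_odd_iff_even] at hc
      have h7 : 2 ∣ Nat.gcd u f := Nat.dvd_gcd hc.two_dvd hfe.two_dvd
      rw [h3] at h7
      omega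
    have hufo : Odd (u + f) := huo.add_even hfe
    simp only [mem_union, mem_image]
    by_cases hb1 : 105 ∣ u + M
    · left; left
      rw [hB1, mem_filter]
      refine ⟨mem_range.2 huM, hinJu, ?_⟩
      have h8 : 2 ∣ u + M := (huo.add_odd hodd).two_dvd
      have h9 : (2 * 105) ∣ u + M := Nat.Coprime.mul_dvd_of_dvd_of_dvd (by norm_num) h8 hb1
      simpa using h9
    by_cases hb2 : 105 ∣ u + f + M
    · left; right
      rw [hB2, mem_filter]
      refine ⟨mem_range.2 huM, hinJu, ?_⟩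
      have h8 : 2 ∣ u + f + M := (hufo.add_odd hodd).two_dvd
      have h9 : (2 * 105) ∣ u + f + M := Nat.Coprime.mul_dvd_of_dvd_of_dvd (by norm_num) h8 hb2
      rw [add_assoc] at h9
      simpa using h9
    right
    rcases mac_pair h hf1 hfV h3 (by omega) (by omega) (by omega) (by omega) with h7 | h7
    · left
      rw [hZ, mem_filter]
      exact ⟨mem_range.2 huM, ⟨huo, h7⟩, hinJu, hb1⟩
    · right
      refine ⟨u + f, ?_, by omega⟩
      rw [hZ, mem_filter]
      exact ⟨mem_range.2 (by omega), ⟨hufo, h7⟩, hinJf, hb2⟩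
  have hc1 : S.card ≤ (B1.card + B2.card) + (Z.card + Z.card) := by
    refine (Finset.card_le_card hpairs).trans ((Finset.card_union_le _ _).trans ?_)
    refine add_le_add (Finset.card_union_le _ _) ((Finset.card_union_le _ _).trans ?_)
    exact add_le_add le_rfl Finset.card_image_le
  have hc2 : (S.card : ℝ) ≤ (B1.card + B2.card) + (Z.card + Z.card) := by exact_mod_cast hc1
  have hc3 : (Z.card : ℝ) ≤ Y.card * (labL M V).card := by exact_mod_cast hhit
  have hc4 : ((labL M V).card : ℝ) ≤ ((evs M K V).card : ℝ) - 1 := by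
    have h1 : (labL M V).card + 1 ≤ (evs M K V).card := by omega
    have h2 : ((labL M V).card : ℝ) + 1 ≤ ((evs M K V).card : ℝ) := by exact_mod_cast h1
    linarith
  have hc5 : (Y.card : ℝ) * (labL M V).card ≤ Y.card * (((evs M K V).card : ℝ) - 1) :=
    mul_le_mul_of_nonneg_left hc4 (by positivity)
  have e1 : (jlen J : ℝ) * M / (1000 * (210 : ℕ)) = (jlen J : ℝ) * M / 210000 := by norm_num
  rw [e1] at hB1c hB2c
  linarith

end Pool.Agent.LR4
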