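import Mathlib
import Pool.Agent.LR4.Mac

/-!
Lonely runner with speeds at most `2 n`: few odd speeds in the window (composite modulus).
-/

namespace Pool.Agent.LR4

open Finset Pool.Agent.LR2 Pool.Agent.LR3

/-- Number of non-units in `(0, M / 2)`. -/
def nonu (M : ℕ) : ℕ := ((Icc 1 ((M - 1) / 2)).filter (fun X => ¬ Nat.Coprime X M)).card

/-- **F1.** There are few odd speeds in the window. -/
theorem few_odd {M : ℕ} {V Y : Finset ℕ} {J : List (ℕ × ℕ)}
    (hJ : ∀ a ∈ J, 501 ≤ a.1 ∧ a.1 < a.2 ∧ a.2 ≤ 747) (hY : ∀ b ∈ Y, Nat.Coprime b M)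
    (tab : Tab M V Y J) (hM0 : 0 < M) (U : Finset ℕ)
    (hU : ∀ u ∈ U, Odd u ∧ u ∈ V ∧ inJ J M u ∧ ¬ 105 ∣ u + M) :
    U.card ≤ Y.card * (labL M V).card + nonu M := by
  classical
  have hwin : ∀ u, inJ J M u → M < 2 * u ∧ u < M := by
    rintro u ⟨a, ha, h1, h2⟩
    obtain ⟨h3, h4, h5⟩ := hJ a ha
    have h6 : 501 * M ≤ a.1 * M := Nat.mul_le_mul_right _ h3
    have h7 : a.2 * M ≤ 747 * M := Nat.mul_le_mul_right _ h5
    omega
  have h1 : (U.filter (fun u => Nat.Coprime u M)).card ≤ Y.card * (labL M V).card := by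
    refine mac_hits (M := M) ?_ hY ?_
    · intro u hu
      obtain ⟨h2, -⟩ := mem_filter.1 hu
      exact hwin u (hU u h2).2.2.1
    · intro u hu
      obtain ⟨h2, h3⟩ := mem_filter.1 hu
      obtain ⟨h4, h5, h6, h7⟩ := hU u h2
      exact tab u h4 h3 h5 h6 h7
  have h2 : (U.filter (fun u => ¬ Nat.Coprime u M)).card ≤ nonu M := by
    refine Finset.card_le_card_of_injOn (fun u => M - u) ?_ ?_
    · intro u hu
      obtain ⟨h3, h4⟩ := mem_filter.1 (Finset.mem_coe.1 hu)
      obtain ⟨h5, h6⟩ := hwin u (hU u h3).2.2.1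
      have h7 : ¬ Nat.Coprime (M - u) M := by
        intro hc
        apply h4
        have e1 := (Nat.coprime_sub_self_left (Nat.sub_le M u)).2 (Nat.coprime_comm.1 hc)
        rw [Nat.sub_sub_self h6.le] at e1
        exact (Nat.coprime_sub_self_right h6.le).1 e1
      exact Finset.mem_coe.2 (mem_filter.2 ⟨mem_Icc.2 ⟨by show 1 ≤ M - u; omega,
        by show M - u ≤ (M - 1) / 2; omega⟩, h7⟩)
    · intro u hu v hv huv
      obtain ⟨h3, -⟩ := mem_filter.1 (Finset.mem_coe.1 hu)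
      obtain ⟨h4, -⟩ := mem_filter.1 (Finset.mem_coe.1 hv)
      have h5 := hwin u (hU u h3).2.2.1
      have h6 := hwin v (hU v h4).2.2.1
      have h7 : M - u = M - v := huv
      omega
  rw [← Finset.card_filter_add_card_filter_not (s := U) (fun u => Nat.Coprime u M)]
  exact add_le_add h1 h2

end Pool.Agent.LR4
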