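import Mathlib

/-!
Overlap of the labels hit by the cores.

`Hit M X b u` : `8 X = ± b u` modulo `M`. For odd `u` with `M < 2 u`, `4 u < 3 M`, a label `X` cannot
be hit both by `(b, u)` and `(2 b, u')`, nor by `(b, u)` and `(3 b, u')`, and for given `b` it is hit
by at most one `u`.
-/

namespace Pool.Agent.LR4.Ovl72

open Finset

/-- `8 X` is `b u` or `- b u` modulo `M`. -/
def Hit (M X b u : ℕ) : Prop :=
  (M : ℤ) ∣ 8 * (X : ℤ) - (b : ℤ) * u ∨ (M : ℤ) ∣ 8 * (X : ℤ) + (b : ℤ) * u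

lemma hit_cmp {M X b c u v : ℕ} (h1 : Hit M X b u) (h2 : Hit M X c v) :
    (M : ℤ) ∣ (b : ℤ) * u - c * v ∨ (M : ℤ) ∣ (b : ℤ) * u + c * v := by
  rcases h1 with h1 | h1 <;> rcases h2 with h2 | h2
  · left
    have := dvd_sub h2 h1
    have e : (8 * (X : ℤ) - (c : ℤ) * v) - (8 * (X : ℤ) - (b : ℤ) * u) = b * u - c * v := by ring
    rwa [e] at this
  · right
    have := dvd_sub h2 h1
    have e : (8 * (X : ℤ) + (c : ℤ) * v) - (8 * (X : ℤ) - (b : ℤ) * u) = b * u + c * v := by ring
    rwa [e] at this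
  · right
    have := dvd_sub h1 h2
    have e : (8 * (X : ℤ) + (b : ℤ) * u) - (8 * (X : ℤ) - (c : ℤ) * v) = b * u + c * v := by ring
    rwa [e] at this
  · left
    have := dvd_sub h1 h2
    have e : (8 * (X : ℤ) + (b : ℤ) * u) - (8 * (X : ℤ) + (c : ℤ) * v) = b * u - c * v := by ring
    rwa [e] at this

lemma hit_fac {M X b k u v : ℕ} (hb : Nat.Coprime b M) (h1 : Hit M X b u)
    (h2 : Hit M X (k * b) v) : (M : ℤ) ∣ (u : ℤ) - k * v ∨ (M : ℤ) ∣ (u : ℤ) + k * v := by
  have hc : IsCoprime (M : ℤ) (b : ℤ) := (Nat.isCoprime_iff_coprime.2 hb).symm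
  rcases hit_cmp h1 h2 with h | h
  · left
    have e : (b : ℤ) * u - ((k * b : ℕ) : ℤ) * v = b * ((u : ℤ) - k * v) := by push_cast; ring
    rw [e] at h
    exact hc.dvd_of_dvd_mul_left h
  · right
    have e : (b : ℤ) * u + ((k * b : ℕ) : ℤ) * v = b * ((u : ℤ) + k * v) := by push_cast; ring
    rw [e] at h
    exact hc.dvd_of_dvd_mul_left h

/-- For given `b` at most one `u` in `(M/2, M)`. -/
lemma hit_one {M X b u v : ℕ} (hb : Nat.Coprime b M) (hu : M < 2 * u) (hu2 : u < M)
    (hv : M < 2 * v) (hv2 : v < M) (h1 : Hit M X b u) (h2 : Hit M X b v) : u = v := by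
  have h3 : Hit M X (1 * b) v := by rwa [one_mul]
  rcases hit_fac hb h1 h3 with ⟨c, hc⟩ | ⟨c, hc⟩
  · have hc1 : -1 < c := by
      by_contra h
      have h4 : c ≤ -1 := by omega
      have h5 : (M : ℤ) * c ≤ M * (-1) := mul_le_mul_of_nonneg_left h4 (by positivity)
      push_cast at hc
      omega
    have hc2 : c < 1 := by
      by_contra h
      have h4 : 1 ≤ c := by omega
      have h5 : (M : ℤ) * 1 ≤ M * c := mul_le_mul_of_nonneg_left h4 (by positivity)
      push_cast at hc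
      omega
    have : c = 0 := by omega
    subst this
    push_cast at hc
    omega
  · exfalso
    have hc1 : 1 < c := by
      by_contra h
      have h4 : c ≤ 1 := by omega
      have h5 : (M : ℤ) * c ≤ M * 1 := mul_le_mul_of_nonneg_left h4 (by positivity)
      push_cast at hc
      omega
    have hc2 : c < 2 := by
      by_contra h
      have h4 : 2 ≤ c := by omega
      have h5 : (M : ℤ) * 2 ≤ M * c := mul_le_mul_of_nonneg_left h4 (by positivity)
      push_cast at hc
      omega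
    omega

/-- `b` and `2 b` exclude each other. -/
lemma hit_two {M X b u v : ℕ} (hb : Nat.Coprime b M) (hou : Odd u)
    (hu : M < 2 * u) (hu2 : 4 * u < 3 * M) (hv : M < 2 * v) (hv2 : 4 * v < 3 * M)
    (h1 : Hit M X b u) (h2 : Hit M X (2 * b) v) : False := by
  obtain ⟨i, hi⟩ := hou
  rcases hit_fac hb h1 h2 with ⟨c, hc⟩ | ⟨c, hc⟩
  · have hc1 : -1 < c := by
      by_contra h
      have h4 : c ≤ -1 := by omega
      have h5 : (M : ℤ) * c ≤ M * (-1) := mul_le_mul_of_nonneg_left h4 (by positivity)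
      push_cast at hc
      omega
    have hc2 : c < 0 := by
      by_contra h
      have h4 : 0 ≤ c := by omega
      have h5 : (M : ℤ) * 0 ≤ M * c := mul_le_mul_of_nonneg_left h4 (by positivity)
      push_cast at hc
      omega
    omega
  · have hc1 : 1 < c := by
      by_contra h
      have h4 : c ≤ 1 := by omega
      have h5 : (M : ℤ) * c ≤ M * 1 := mul_le_mul_of_nonneg_left h4 (by positivity)
      push_cast at hc
      omega
    have hc2 : c < 3 := by
      by_contra h
      have h4 : 3 ≤ c := by omega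
      have h5 : (M : ℤ) * 3 ≤ M * c := mul_le_mul_of_nonneg_left h4 (by positivity)
      push_cast at hc
      omega
    have : c = 2 := by omega
    subst this
    push_cast at hc
    omega

/-- `b` and `3 b` exclude each other. -/
lemma hit_three {M X b u v : ℕ} (hM : Odd M) (hb : Nat.Coprime b M) (hou : Odd u) (hov : Odd v)
    (hu : M < 2 * u) (hu2 : 4 * u < 3 * M) (hv : M < 2 * v) (hv2 : 4 * v < 3 * M)
    (h1 : Hit M X b u) (h2 : Hit M X (3 * b) v) : False := by
  obtain ⟨i, hi⟩ := hou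
  obtain ⟨j, hj⟩ := hov
  obtain ⟨r, hr⟩ := hM
  rcases hit_fac hb h1 h2 with ⟨c, hc⟩ | ⟨c, hc⟩
  · have hc1 : -2 < c := by
      by_contra h
      have h4 : c ≤ -2 := by omega
      have h5 : (M : ℤ) * c ≤ M * (-2) := mul_le_mul_of_nonneg_left h4 (by positivity)
      push_cast at hc
      omega
    have hc2 : c < 0 := by
      by_contra h
      have h4 : 0 ≤ c := by omega
      have h5 : (M : ℤ) * 0 ≤ M * c := mul_le_mul_of_nonneg_left h4 (by positivity)
      push_cast at hc
      omega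
    have : c = -1 := by omega
    subst this
    push_cast at hc
    omega
  · have hc1 : 2 < c := by
      by_contra h
      have h4 : c ≤ 2 := by omega
      have h5 : (M : ℤ) * c ≤ M * 2 := mul_le_mul_of_nonneg_left h4 (by positivity)
      push_cast at hc
      omega
    have hc2 : c < 3 := by
      by_contra h
      have h4 : 3 ≤ c := by omega
      have h5 : (M : ℤ) * 3 ≤ M * c := mul_le_mul_of_nonneg_left h4 (by positivity)
      push_cast at hc
      omega
    omega

/-- **Overlap.** If `rep` identifies only pairs `b, 2 b` or `b, 3 b` of `Y`, then the number of `u`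
hitting some lost label is at most the number of values of `rep` on `Y` times the number of lost
labels. -/
theorem overlap {M : ℕ} (hM : Odd M) (Y : Finset ℕ) (hY : ∀ b ∈ Y, Nat.Coprime b M)
    (rep : ℕ → ℕ)
    (hrep : ∀ x ∈ Y, ∀ y ∈ Y, rep x = rep y → x = y ∨ x = 2 * y ∨ y = 2 * x ∨ x = 3 * y ∨ y = 3 * x)
    (Z : Finset ℕ) (hZ : ∀ u ∈ Z, Odd u ∧ M < 2 * u ∧ 4 * u < 3 * M) (Lost : Finset ℕ)
    (h : ∀ u ∈ Z, ∃ b ∈ Y, ∃ X ∈ Lost, Hit M X b u) :
    Z.card ≤ (Y.image rep).card * Lost.card := by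
  classical
  have h1 : Z ⊆ Lost.biUnion (fun X => Z.filter (fun u => ∃ b ∈ Y, Hit M X b u)) := by
    intro u hu
    obtain ⟨b, hb, X, hX, hh⟩ := h u hu
    exact mem_biUnion.2 ⟨X, hX, mem_filter.2 ⟨hu, b, hb, hh⟩⟩
  refine (card_le_card h1).trans ?_
  rw [mul_comm]
  refine card_biUnion_le_card_mul _ _ _ ?_
  intro X _
  choose! g hg hgh using fun u (hu : ∃ b ∈ Y, Hit M X b u) => hu
  refine card_le_card_of_injOn (fun u => rep (g u)) ?_ ?_
  · intro u hu
    rw [mem_coe, mem_filter] at hu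
    exact mem_coe.2 (mem_image_of_mem _ (hg u hu.2))
  · intro u hu v hv huv
    rw [mem_coe, mem_filter] at hu hv
    dsimp only at huv
    obtain ⟨hu1, hu2⟩ := hu
    obtain ⟨hv1, hv2⟩ := hv
    obtain ⟨ou, u1, u2⟩ := hZ u hu1
    obtain ⟨ov, v1, v2⟩ := hZ v hv1
    have hhu := hgh u hu2
    have hhv := hgh v hv2
    have hcu := hY _ (hg u hu2)
    have hcv := hY _ (hg v hv2)
    rcases hrep _ (hg u hu2) _ (hg v hv2) huv with h3 | h3 | h3 | h3 | h3
    · rw [← h3] at hhv
      exact hit_one hcu u1 (by omega) v1 (by omega) hhu hhv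
    · rw [h3] at hhu
      exact (hit_two hcv ov v1 v2 u1 u2 hhv hhu).elim
    · rw [h3] at hhv
      exact (hit_two hcu ou u1 u2 v1 v2 hhu hhv).elim
    · rw [h3] at hhu
      exact (hit_three hM hcv ov ou v1 v2 u1 u2 hhv hhu).elim
    · rw [h3] at hhv
      exact (hit_three hM hcu ou ov u1 u2 v1 v2 hhu hhv).elim

/-! ### The 90 labels -/

/-- `1..50`, even to `100`, multiples of 4 to `160`. -/
def Y90 : Finset ℕ :=
  (range 161).filter (fun b => 1 ≤ b ∧ (b ≤ 50 ∨ (b ≤ 100 ∧ 2 ∣ b) ∨ 4 ∣ b))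

/-- Matched pairs `(b, 2 b)` or `(b, 3 b)`. -/
def prs90 : List (ℕ × ℕ) :=
  [(1, 2), (3, 6), (4, 8), (5, 10), (7, 21), (9, 27), (11, 22), (12, 24), (13, 26), (14, 28),
    (15, 30), (16, 32), (17, 34), (18, 36), (19, 38), (20, 40), (23, 46), (25, 50), (29, 58),
    (31, 62), (35, 70), (37, 74), (41, 82), (42, 84), (43, 86), (44, 88), (45, 90), (47, 94),
    (48, 96), (49, 98), (52, 104), (54, 108), (56, 112), (60, 120), (64, 128), (66, 132), (68,
    136), (72, 144), (76, 152), (78, 156), (80, 160)]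

/-- The representative of the matched pair. -/
def rep90 (b : ℕ) : ℕ := ((prs90.find? (fun t => t.2 == b)).map (fun t => t.1)).getD b

lemma rep90_ok : ∀ x ∈ Y90, ∀ y ∈ Y90, rep90 x = rep90 y →
    x = y ∨ x = 2 * y ∨ y = 2 * x ∨ x = 3 * y ∨ y = 3 * x := by
  decide +kernel

lemma rep90_card : (Y90.image rep90).card = 49 := by
  decide +kernel

/-- The 90 labels have overlap at most 49. -/
theorem overlap90 {M : ℕ} (hM : Odd M) (hY : ∀ b ∈ Y90, Nat.Coprime b M)
    (Z : Finset ℕ) (hZ : ∀ u ∈ Z, Odd u ∧ M < 2 * u ∧ 4 * u < 3 * M) (Lost : Finset ℕ)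
    (h : ∀ u ∈ Z, ∃ b ∈ Y90, ∃ X ∈ Lost, Hit M X b u) : Z.card ≤ 49 * Lost.card := by
  have := overlap hM Y90 hY rep90 rep90_ok Z hZ Lost h
  rwa [rep90_card] at this

end Pool.Agent.LR4.Ovl72
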