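import Mathlib
import Pool.Agent.LR4.Mac
import Pool.Agent.LR4.Ovl72

/-!
The counting inequality of the macro cores with the overlap bound of `Ovl72`.
-/

namespace Pool.Agent.LR4

open Finset Pool.Agent.LR2 Pool.Agent.LR3

theorem hit_of_mod {M X b u : ℕ} (h : (8 * X) % M = (b * u) % M ∨ (8 * X + b * u) % M = 0) :
    Ovl72.Hit M X b u := by
  rcases h with h | h
  · left
    have h1 : ((8 * X : ℕ) : ℤ) ≡ ((b * u : ℕ) : ℤ) [ZMOD M] := by
      exact_mod_cast (Int.natCast_modEq_iff.2 h)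
    have h2 := h1.symm.dvd
    push_cast at h2
    exact h2
  · right
    have h1 := Nat.dvd_of_mod_eq_zero h
    have h2 : (M : ℤ) ∣ ((8 * X + b * u : ℕ) : ℤ) := Int.natCast_dvd_natCast.2 h1
    push_cast at h2
    exact h2

/-- **The counting inequality**, with the overlap bound: `rep` identifies only pairs `b, 2 b` or
`b, 3 b` of `Y`, and `Y.card` is replaced by the number of values of `rep` on `Y`. -/
theorem mac_main_rep {n K M : ℕ} {V : Finset ℕ} (h : Cex n V) (hM : M = 2 * n + K) (hp : M.Prime)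
    (hK3 : 3 ≤ K) (hK : 700 * K ≤ M) {Y : Finset ℕ} {J : List (ℕ × ℕ)}
    (hY : ∀ b ∈ Y, 0 < b ∧ b < M) (hJ : ∀ a ∈ J, 501 ≤ a.1 ∧ a.1 < a.2 ∧ a.2 ≤ 747)
    (hJp : J.Pairwise (fun a b => a.2 < b.1)) (tab : Tab M V Y J) (rep : ℕ → ℕ)
    (hrep : ∀ x ∈ Y, ∀ y ∈ Y, rep x = rep y → x = y ∨ x = 2 * y ∨ y = 2 * x ∨ x = 3 * y ∨ y = 3 * x)
    {f : ℕ} (hf : f ∈ evs M K V) :
    ((jlen J : ℝ) * M / 1000 - J.length * (f + 1)) * ((f.totient : ℝ) / f) -
      J.length * 2 ^ f.primeFactors.card - 2 * ((jlen J : ℝ) * M / 210000 + J.length) ≤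
      2 * (Y.image rep).card * (((evs M K V).card : ℝ) - 1) := by
  classical
  obtain ⟨hfI, ⟨hfe, hfc⟩, hfV⟩ := mem_filter.1 hf
  obtain ⟨hf1, hf2⟩ := mem_Icc.1 hfI
  have hn2 := h.two
  have hodd : Odd M := hp.odd_of_ne_two (by omega)
  have hM0 : 0 < M := hp.pos
  have h4K : 4 * K ≤ n + 8 := by omega
  have hacc := acct_prime h hM hp hK3 h4K
  obtain ⟨S, hS⟩ : ∃ S, S = (range M).filter (fun u => inJ2 J M f u ∧ Nat.Coprime u f) := ⟨_, rfl⟩
  obtain ⟨B1, hB1⟩ : ∃ B, B = (range M).filter (fun u => inJ J M u ∧ 210 ∣ u + M) := ⟨_, rfl⟩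
  obtain ⟨B2, hB2⟩ : ∃ B, B = (range M).filter (fun u => inJ J M u ∧ 210 ∣ u + (f + M)) := ⟨_, rfl⟩
  obtain ⟨Z, hZ⟩ : ∃ Z, Z = (range M).filter (fun u => (Odd u ∧ u ∈ V) ∧ inJ J M u ∧
    ¬ 105 ∣ u + M) := ⟨_, rfl⟩
  have hS1 := mac_list M f hf1 hM0 J (fun a ha => ⟨by have := hJ a ha; omega, (hJ a ha).2.1,
    by have := hJ a ha; omega⟩) hJp
  rw [← hS] at hS1
  have hB1c := mac_list_class M 210 M (by norm_num) J (fun a ha => (hJ a ha).2.1.le)
  rw [← hB1] at hB1c
  have hB2c := mac_list_class M 210 (f + M) (by norm_num) J (fun a ha => (hJ a ha).2.1.le)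
  rw [← hB2] at hB2c
  -- bounds for elements of the window
  have hwin : ∀ u, inJ J M u → M < 2 * u ∧ 1000 * u ≤ 747 * M := by
    rintro u ⟨a, ha, h1, h2⟩
    obtain ⟨h3, h4, h5⟩ := hJ a ha
    have h6 : 501 * M ≤ a.1 * M := Nat.mul_le_mul_right _ h3
    have h7 : a.2 * M ≤ 747 * M := Nat.mul_le_mul_right _ h5
    omega
  have hcopM : ∀ u, inJ J M u → Nat.Coprime u M := by
    intro u hu
    have h1 := hwin u hu
    exact (Nat.coprime_of_lt_prime (by omega) (by omega) hp).symm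
  -- hits
  have hhit : Z.card ≤ (Y.image rep).card * (labL M V).card := by
    refine Ovl72.overlap hodd Y ?_ rep hrep Z ?_ _ ?_
    · intro b hb
      obtain ⟨h1, h2⟩ := hY b hb
      exact (Nat.coprime_of_lt_prime (by omega) h2 hp).symm
    · intro u hu
      rw [hZ] at hu
      obtain ⟨-, ⟨h1, -⟩, h2, -⟩ := mem_filter.1 hu
      have := hwin u h2
      exact ⟨h1, by omega, by omega⟩
    · intro u hu
      rw [hZ] at hu
      obtain ⟨-, ⟨h1, h2⟩, h3, h4⟩ := mem_filter.1 hu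
      obtain ⟨b, hb, X, hX, hh⟩ := tab u h1 (hcopM u h3) h2 h3 h4
      exact ⟨b, hb, X, hX, hit_of_mod hh⟩
  -- pairs
  have hpairs : S ⊆ (B1 ∪ B2) ∪ (Z ∪ (Z.image (fun u => u - f))) := by
    intro u hu
    rw [hS] at hu
    obtain ⟨huM, ⟨a, ha, h1, h2⟩, h3⟩ := mem_filter.1 hu
    rw [mem_range] at huM
    obtain ⟨h4, h5, h6⟩ := hJ a ha
    have hinJu : inJ J M u := ⟨a, ha, h1, by omega⟩
    have hinJf : inJ J M (u + f) := ⟨a, ha, by omega, h2⟩
    have hwu := hwin u hinJu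
    have hwf := hwin (u + f) hinJf
    have huo : Odd u := by
      by_contra hc
      rw [Nat.not_odd_iff_even] at hc
      have h7 : 2 ∣ Nat.gcd u f := Nat.dvd_gcd hc.two_dvd hfe.two_dvd
      rw [h3] at h7
      omega
    have hufo : Odd (u + f) := huo.add_even hfe
    simp only [mem_union, mem_image]
    by_cases hb1 : 105 ∣ u + M
    · left; left
      rw [hB1, mem_filter]
      refine ⟨mem_range.2 huM, hinJu, ?_⟩
      have h8 : 2 ∣ u + M := (huo.add_odd hodd).two_dvd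
      have h9 : (2 * 105) ∣ u + M := Nat.Coprime.mul_dvd_of_dvd_of_dvd (by norm_num) h8 hb1
      simpa using h9
    by_cases hb2 : 105 ∣ u + f + M
    · left; right
      rw [hB2, mem_filter]
      refine ⟨mem_range.2 huM, hinJu, ?_⟩
      have h8 : 2 ∣ u + f + M := (hufo.add_odd hodd).two_dvd
      have h9 : (2 * 105) ∣ u + f + M := Nat.Coprime.mul_dvd_of_dvd_of_dvd (by norm_num) h8 hb2
      rw [add_assoc] at h9
      simpa using h9
    right
    rcases mac_pair h hf1 hfV h3 (by omega) (by omega) (by omega) (by omega) with h7 | h7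
    · left
      rw [hZ, mem_filter]
      exact ⟨mem_range.2 huM, ⟨huo, h7⟩, hinJu, hb1⟩
    · right
      refine ⟨u + f, ?_, by omega⟩
      rw [hZ, mem_filter]
      exact ⟨mem_range.2 (by omega), ⟨hufo, h7⟩, hinJf, hb2⟩
  have hc1 : S.card ≤ (B1.card + B2.card) + (Z.card + Z.card) := by
    refine (Finset.card_le_card hpairs).trans ((Finset.card_union_le _ _).trans ?_)
    refine add_le_add (Finset.card_union_le _ _) ((Finset.card_union_le _ _).trans ?_)
    exact add_le_add le_rfl Finset.card_image_le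
  have hc2 : (S.card : ℝ) ≤ (B1.card + B2.card) + (Z.card + Z.card) := by exact_mod_cast hc1
  have hc3 : (Z.card : ℝ) ≤ (Y.image rep).card * (labL M V).card := by
    exact_mod_cast hhit
  have hc4 : ((labL M V).card : ℝ) ≤ ((evs M K V).card : ℝ) - 1 := by
    have h1 : (labL M V).card + 1 ≤ (evs M K V).card := by omega
    have h2 : ((labL M V).card : ℝ) + 1 ≤ ((evs M K V).card : ℝ) := by exact_mod_cast h1
    linarith
  have hc5 : ((Y.image rep).card : ℝ) * (labL M V).card ≤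
      (Y.image rep).card * (((evs M K V).card : ℝ) - 1) :=
    mul_le_mul_of_nonneg_left hc4 (by positivity)
  have e1 : (jlen J : ℝ) * M / (1000 * (210 : ℕ)) = (jlen J : ℝ) * M / 210000 := by norm_num
  rw [e1] at hB1c hB2c
  linarith

end Pool.Agent.LR4
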