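import Mathlib
import Pool.Agent.LR4.F1
import Pool.Agent.LR4.Mac72
import Pool.Agent.LR4.R3Defs

/-!
Few odd speeds in the window, with the overlap bound (composite modulus).
-/

namespace Pool.Agent.LR4

open Finset Pool.Agent.LR2 Pool.Agent.LR3

/-- **F1** with the overlap bound: `rep` identifies only pairs `b, 2 b` or `b, 3 b` of `Y`. -/
theorem few_odd_rep {M : ℕ} {V Y : Finset ℕ} {J : List (ℕ × ℕ)} (hodd : Odd M)
    (hJ : ∀ a ∈ J, 501 ≤ a.1 ∧ a.1 < a.2 ∧ a.2 ≤ 747) (hY : ∀ b ∈ Y, Nat.Coprime b M)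
    (rep : ℕ → ℕ)
    (hrep : ∀ x ∈ Y, ∀ y ∈ Y, rep x = rep y → x = y ∨ x = 2 * y ∨ y = 2 * x ∨ x = 3 * y ∨ y = 3 * x)
    (tab : Tab M V Y J) (hM0 : 0 < M) (U : Finset ℕ)
    (hU : ∀ u ∈ U, Odd u ∧ u ∈ V ∧ inJ J M u ∧ ¬ 105 ∣ u + M) :
    U.card ≤ (Y.image rep).card * (labL M V).card + nonu M := by
  classical
  have hwin : ∀ u, inJ J M u → M < 2 * u ∧ 4 * u < 3 * M := by
    rintro u ⟨a, ha, h1, h2⟩
    obtain ⟨h3, h4, h5⟩ := hJ a ha
    have h6 : 501 * M ≤ a.1 * M := Nat.mul_le_mul_right _ h3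
    have h7 : a.2 * M ≤ 747 * M := Nat.mul_le_mul_right _ h5
    omega
  have h1 : (U.filter (fun u => Nat.Coprime u M)).card ≤
      (Y.image rep).card * (labL M V).card := by
    refine Ovl72.overlap hodd Y hY rep hrep _ ?_ _ ?_
    · intro u hu
      obtain ⟨h2, -⟩ := mem_filter.1 hu
      obtain ⟨h3, -, h4, -⟩ := hU u h2
      exact ⟨h3, hwin u h4⟩
    · intro u hu
      obtain ⟨h2, h3⟩ := mem_filter.1 hu
      obtain ⟨h4, h5, h6, h7⟩ := hU u h2
      obtain ⟨b, hb, X, hX, hh⟩ := tab u h4 h3 h5 h6 h7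
      exact ⟨b, hb, X, hX, hit_of_mod hh⟩
  have h2 : (U.filter (fun u => ¬ Nat.Coprime u M)).card ≤ nonu M := by
    refine Finset.card_le_card_of_injOn (fun u => M - u) ?_ ?_
    · intro u hu
      obtain ⟨h3, h4⟩ := mem_filter.1 (Finset.mem_coe.1 hu)
      obtain ⟨h5, h6⟩ := hwin u (hU u h3).2.2.1
      have h7 : ¬ Nat.Coprime (M - u) M := by
        intro hc
        apply h4
        have e1 := (Nat.coprime_sub_self_left (Nat.sub_le M u)).2 (Nat.coprime_comm.1 hc)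
        rw [Nat.sub_sub_self (by omega)] at e1
        exact (Nat.coprime_sub_self_right (by omega)).1 e1
      exact Finset.mem_coe.2 (mem_filter.2 ⟨mem_Icc.2 ⟨by show 1 ≤ M - u; omega,
        by show M - u ≤ (M - 1) / 2; omega⟩, h7⟩)
    · intro u hu v hv huv
      obtain ⟨h3, -⟩ := mem_filter.1 (Finset.mem_coe.1 hu)
      obtain ⟨h4, -⟩ := mem_filter.1 (Finset.mem_coe.1 hv)
      have h5 := hwin u (hU u h3).2.2.1
      have h6 := hwin v (hU v h4).2.2.1
      have h7 : M - u = M - v := huv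
      omega
  rw [← Finset.card_filter_add_card_filter_not (s := U) (fun u => Nat.Coprime u M)]
  exact add_le_add h1 h2

/-- The window of `R3Defs`. -/
def J0 : List (ℕ × ℕ) :=
  [(509, 523), (525, 529), (530, 537), (539, 555), (557, 564), (566, 578), (587, 599), (601, 612),
    (613, 635), (652, 666), (668, 677), (716, 733)]

lemma J0_ok : ∀ a ∈ J0, 501 ≤ a.1 ∧ a.1 < a.2 ∧ a.2 ≤ 747 := by decide

lemma inJ_of_InJ {u M : ℕ} (h : InJ u M) : inJ J0 M u := by
  unfold InJ at h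
  unfold inJ J0
  rcases h with h | h | h | h | h | h | h | h | h | h | h | h
  · exact ⟨(509, 523), by simp, by omega⟩
  · exact ⟨(525, 529), by simp, by omega⟩
  · exact ⟨(530, 537), by simp, by omega⟩
  · exact ⟨(539, 555), by simp, by omega⟩
  · exact ⟨(557, 564), by simp, by omega⟩
  · exact ⟨(566, 578), by simp, by omega⟩
  · exact ⟨(587, 599), by simp, by omega⟩
  · exact ⟨(601, 612), by simp, by omega⟩
  · exact ⟨(613, 635), by simp, by omega⟩
  · exact ⟨(652, 666), by simp, by omega⟩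
  · exact ⟨(668, 677), by simp, by omega⟩
  · exact ⟨(716, 733), by simp, by omega⟩

/-- The hypothesis `F1` of `r3_main` from the table, with the overlap bound. -/
theorem f1_of_tab {M : ℕ} {V Y : Finset ℕ} (hodd : Odd M) (hM0 : 0 < M)
    (hY : ∀ b ∈ Y, Nat.Coprime b M) (rep : ℕ → ℕ)
    (hrep : ∀ x ∈ Y, ∀ y ∈ Y, rep x = rep y → x = y ∨ x = 2 * y ∨ y = 2 * x ∨ x = 3 * y ∨ y = 3 * x)
    (tab : Tab M V Y J0) : F1 M V ((Y.image rep).card * (labL M V).card + (nuS M).card) := by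
  intro U hU
  refine few_odd_rep hodd J0_ok hY rep hrep tab hM0 U ?_
  intro u hu
  obtain ⟨h1, h2, h3, h4⟩ := hU u hu
  exact ⟨Nat.odd_iff.2 h2, h1, inJ_of_InJ h3, h4⟩

/-- The same for the 90 labels: at most 49 hits per lossy label. -/
theorem f1_of_tab90 {M : ℕ} {V : Finset ℕ} (hodd : Odd M) (hM0 : 0 < M)
    (hY : ∀ b ∈ Ovl72.Y90, Nat.Coprime b M)
    (tab : Tab M V Ovl72.Y90 J0) : F1 M V (49 * (labL M V).card + (nuS M).card) := by
  have := f1_of_tab hodd hM0 hY Ovl72.rep90 Ovl72.rep90_ok tab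
  rwa [Ovl72.rep90_card] at this

end Pool.Agent.LR4
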