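import Mathlib
import Pool.Agent.LR4.Edges
import Pool.Agent.LR4.ChkDefs

/-!
Lonely runner with speeds at most `2 n`: the facts used by the kernel checker hold for a
counterexample.
-/

namespace Pool.Agent.LR4

open Finset Pool.Agent.LR2

/-- The facts used by the checker. -/
theorem Cex.fct {n : ℕ} {V : Finset ℕ} (h : Cex n V) : Fct n V := by
  have hn := h.two
  refine ⟨h.one, h.succ, ?_, fun x h1 h2 hx => h.dblHigh h1 h2 hx, ?_, ?_, ?_⟩
  · intro x y h1 h2 h3 h4 h5 hx hy
    have hx0 : 0 < x := by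
      rcases Nat.eq_zero_or_pos x with h0 | h0
      · exfalso
        rw [h0, Nat.gcd_zero_left] at h2
        omega
      · exact h0
    exact h.tri hx0 h1 h2 h3 h4 h5 hx hy
  · intro x y hxy hg hx
    have hc : Nat.Coprime x y := hg
    have hx0 : 0 < x := by
      rcases Nat.eq_zero_or_pos x with h0 | h0
      · exfalso
        rw [h0, Nat.gcd_zero_left] at hg
        omega
      · exact h0
    have hy0 : 0 < y := by
      rcases Nat.eq_zero_or_pos y with h0 | h0
      · exfalso
        rw [h0, Nat.gcd_zero_right] at hg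
        omega
      · exact h0
    rcases hxy with hxy | hxy
    · exact h.refl1 hx0 hy0 hxy hc hx
    · exact h.refl2 hx0 hy0 hxy hc hx
  · intro q z h1 h2 h3 h4 hq h2q hz
    have hc : Nat.Coprime z q := h2
    by_cases h5 : 2 * n + 1 ≤ z
    · exact h2q (h.dbl h1 hc h5 h4 hq)
    · by_cases h6 : q ≤ n
      · exact hz (h.D2 h1 h6 hc h3 h4 hq h2q)
      · by_cases h7 : q = n + 1
        · exact hq (h7 ▸ h.succ)
        · exact hz (h.refl1 h1 (by omega) (by omega) (Nat.coprime_comm.1 hc) hq)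
  · intro x hx hxV
    have := (h.mem x hxV).2
    omega

/-- The facts used by the checker, unbundled. -/
theorem fct {n : ℕ} {V : Finset ℕ} (_hn : 2 ≤ n) (hV : ∀ x ∈ V, 1 ≤ x ∧ x ≤ 2 * n)
    (hcard : V.card = n)
    (hno : ∀ t : ℝ, ∃ x ∈ V, ∃ k : ℤ, |t * (x : ℝ) - (k : ℝ)| < (1 : ℝ) / ((n : ℝ) + 1)) :
    Fct n V :=
  Cex.fct ⟨hV, hcard, hno⟩

end Pool.Agent.LR4
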