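import Pool.Agent.LR4.R1Cov
import Pool.Agent.LR4.PrW
import Pool.Agent.LR4.PrP1
import Pool.Agent.LR4.PrP2
import Pool.Agent.LR4.PrP3
import Pool.Agent.LR4.PrP4
import Pool.Agent.LR4.PrP5
import Pool.Agent.LR4.PrP6

/-!
Lonely runner with speeds at most `2 n`: for `2600 ≤ n < 10 ^ 21` there is a prime slightly above
`2 n`, or `n` is in an exceptional range.
-/

set_option autoImplicit false

namespace Pool.Agent.LR4

open PT

/-- First part: gaps at most `y / 700`. -/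
theorem cov_low : Cov 700 35802 873991 := cov_w1

/-- Second part: gaps at most `y / 1000`. -/
theorem cov_high : Cov 1000 873991 2066085656848223961089 :=
  ((((((((cov_w2.trans cov_w3).trans cov_w4).trans cov_p1).trans cov_p2).trans cov_p3).trans
    cov_p4).trans cov_p5).trans cov_p6)

theorem tabP_of {n s : ℕ} (h : ∃ p, Nat.Prime p ∧ 2 * n < p ∧ p ≤ 2 * n + 2 * n / (2 * s))
    (hn : 2 ≤ n) (hs : 0 < s) :
    ∃ K, Nat.Prime (2 * n + K) ∧ s * K ≤ n ∧ (K = 1 ∨ K = 3 ∨ 5 ≤ K) := by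
  obtain ⟨p, hp, h1, h2⟩ := h
  obtain ⟨K, rfl⟩ : ∃ K, p = 2 * n + K := ⟨p - 2 * n, by omega⟩
  refine ⟨K, hp, ?_, ?_⟩
  · have h3 : K ≤ 2 * n / (2 * s) := by omega
    have h4 := (Nat.le_div_iff_mul_le (by omega)).1 h3
    have h5 : K * (2 * s) = 2 * (s * K) := by ring
    omega
  · have h3 : (2 * n + K) % 2 = 1 := Nat.odd_iff.1 (hp.odd_of_ne_two (by omega))
    omega

/-- The prime table, with `500 K ≤ n` for `n ≥ 436996`. -/
theorem tabQ : ∀ n : ℕ, 2600 ≤ n → n < 10 ^ 21 → (∃ e ∈ EX, e.2.1 ≤ n ∧ n ≤ e.2.2) ∨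
    ∃ K, Nat.Prime (2 * n + K) ∧ (K = 1 ∨ K = 3 ∨
      (5 ≤ K ∧ 350 * K ≤ n ∧ (n < 436996 ∨ 500 * K ≤ n))) := by
  intro n h1 h2
  rcases Nat.lt_or_ge n 17901 with h3 | h3
  · rcases r1cov h1 (by omega) with h4 | ⟨K, h4, h5, h6⟩ | h4
    · exact Or.inr ⟨1, h4, Or.inl rfl⟩
    · refine Or.inr ⟨K, h5, ?_⟩
      have h7 : (2 * n + K) % 2 = 1 := Nat.odd_iff.1 (h5.odd_of_ne_two (by omega))
      have h8 : K = 3 ∨ 5 ≤ K := by omega
      rcases h8 with h8 | h8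
      · exact Or.inr (Or.inl h8)
      · exact Or.inr (Or.inr ⟨h8, h6, Or.inl (by omega)⟩)
    · exact Or.inl h4
  right
  rcases Nat.lt_or_ge (2 * n) 873991 with h4 | h4
  · obtain ⟨K, h5, h6, h7⟩ := tabP_of (s := 350) (cov_low (2 * n) (by omega) h4) (by omega)
      (by omega)
    exact ⟨K, h5, by omega⟩
  · have h8 : (10 : ℕ) ^ 21 = 1000000000000000000000 := by norm_num
    obtain ⟨K, h5, h6, h7⟩ := tabP_of (s := 500) (cov_high (2 * n) (by omega) (by omega))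
      (by omega) (by omega)
    exact ⟨K, h5, by omega⟩

/-- The prime table. -/
theorem tabP : ∀ n : ℕ, 2600 ≤ n → n < 10 ^ 21 → (∃ e ∈ EX, e.2.1 ≤ n ∧ n ≤ e.2.2) ∨
    ∃ K, Nat.Prime (2 * n + K) ∧ (K = 1 ∨ K = 3 ∨
      (5 ≤ K ∧ 350 * K ≤ n ∧ (K < 10 ^ 8 ∨ 400 * K ≤ n))) := by
  intro n h1 h2
  rcases tabQ n h1 h2 with h | ⟨K, h3, h4⟩
  · exact Or.inl h
  · refine Or.inr ⟨K, h3, ?_⟩
    rcases h4 with h4 | h4 | ⟨h4, h5, h6⟩
    · exact Or.inl h4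
    · exact Or.inr (Or.inl h4)
    · refine Or.inr (Or.inr ⟨h4, h5, ?_⟩)
      rcases h6 with h6 | h6
      · exact Or.inl (by omega)
      · exact Or.inr (by omega)

end Pool.Agent.LR4
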