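import Pool.Agent.LR4.R1b

/-!
Lonely runner with speeds at most `2 n`: the finite part (all `n < 2600`, module `R1a`, and the
exceptional ranges above it, module `R1b`).
-/
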