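import Pool.Agent.LR4.R1Gen
import Pool.Agent.LR4.R1.C001
import Pool.Agent.LR4.R1.C002
import Pool.Agent.LR4.R1.C003
import Pool.Agent.LR4.R1.C004
import Pool.Agent.LR4.R1.C005
import Pool.Agent.LR4.R1.C006
import Pool.Agent.LR4.R1.C007
import Pool.Agent.LR4.R1.C008
import Pool.Agent.LR4.R1.C009
import Pool.Agent.LR4.R1.C010
import Pool.Agent.LR4.R1.C011
import Pool.Agent.LR4.R1.C012
import Pool.Agent.LR4.R1.C013
import Pool.Agent.LR4.R1.C014
import Pool.Agent.LR4.R1.C015
import Pool.Agent.LR4.R1.C016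
import Pool.Agent.LR4.R1.C017
import Pool.Agent.LR4.R1.C018
import Pool.Agent.LR4.R1.C019
import Pool.Agent.LR4.R1.C020
import Pool.Agent.LR4.R1.C021
import Pool.Agent.LR4.R1.C022
import Pool.Agent.LR4.R1.C023
import Pool.Agent.LR4.R1.C024
import Pool.Agent.LR4.R1.C025
import Pool.Agent.LR4.R1.C026
import Pool.Agent.LR4.R1.C027
import Pool.Agent.LR4.R1.C028
import Pool.Agent.LR4.R1.C029
import Pool.Agent.LR4.R1.C030
import Pool.Agent.LR4.R1.C031
import Pool.Agent.LR4.R1.C032
import Pool.Agent.LR4.R1.C033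
import Pool.Agent.LR4.R1.C034

/-!
Lonely runner with speeds at most `2 n`: the finite part for all `n < 2600`.
-/

namespace Pool.Agent.LR4

/-- All certificates for one `n`. -/
def CL : List (ℕ × ℕ × ℕ × ℕ × ℕ) :=
  C001 ++ C002 ++ C003 ++ C004 ++ C005 ++ C006 ++ C007 ++ C008 ++ C009 ++ C010 ++ C011 ++
  C012 ++ C013 ++ C014 ++ C015 ++ C016 ++ C017 ++ C018 ++ C019 ++ C020 ++ C021 ++ C022 ++
  C023 ++ C024 ++ C025 ++ C026 ++ C027 ++ C028 ++ C029 ++ C030 ++ C031 ++ C032 ++ C033 ++
  C034

theorem all_app {α : Type} {p : α → Bool} {l l' : List α} (h : l.all p = true)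
    (h' : l'.all p = true) : (l ++ l').all p = true := by
  rw [List.all_append, h, h']
  rfl

theorem CL_ok : CL.all chkC = true :=
  all_app (all_app (all_app (all_app (all_app (all_app (all_app (all_app (all_app (all_app
    (all_app (all_app (all_app (all_app (all_app (all_app (all_app (all_app (all_app (all_app
    (all_app (all_app (all_app (all_app (all_app (all_app (all_app (all_app (all_app (all_app
    (all_app (all_app (all_app C001_ok C002_ok) C003_ok) C004_ok) C005_ok) C006_ok) C007_ok)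
    C008_ok) C009_ok) C010_ok) C011_ok) C012_ok) C013_ok) C014_ok) C015_ok) C016_ok) C017_ok)
    C018_ok) C019_ok) C020_ok) C021_ok) C022_ok) C023_ok) C024_ok) C025_ok) C026_ok) C027_ok)
    C028_ok) C029_ok) C030_ok) C031_ok) C032_ok) C033_ok) C034_ok

theorem CL_w : walkC 2596 4 CL = true := by decide +kernel

/-- No counterexample with `n < 2600`. -/
theorem r1small (n : ℕ) (V : Finset ℕ) (h : Cex n V) (hn : n < 2600) : False := by
  rcases Nat.lt_or_ge n 4 with h1 | h1
  · exact small_lt4 h h1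
  · exact small_of CL_ok CL_w le_rfl h h1 (by omega)

end Pool.Agent.LR4
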