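import Mathlib
import Pool.Agent.LR4.Mac

/-!
Numerical part of the macro cores: bounds for `φ(f) / f`, for the number of prime factors of `f` and
for the number of even missing speeds.
-/

namespace Pool.Agent.LR4

open Finset

/-- Exchange lemma for products of `1 - 1 / p`. -/
theorem mac_exch {S F : Finset ℕ} {N : ℕ} (hN : 1 < N) (hS : ∀ p ∈ S, 1 < p)
    (hF : ∀ p ∈ F, 1 < p ∧ p ≤ N) (hSF : ∀ p ∈ S, p ∉ F → N ≤ p) (hc : S.card ≤ F.card) :
    ∏ p ∈ F, (1 - (p : ℝ)⁻¹) ≤ ∏ p ∈ S, (1 - (p : ℝ)⁻¹) := by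
  have hN' : (1 : ℝ) < N := by exact_mod_cast hN
  have g0 : ∀ p : ℕ, 1 < p → (0 : ℝ) ≤ 1 - (p : ℝ)⁻¹ := by
    intro p hp
    have h1 : (1 : ℝ) < p := by exact_mod_cast hp
    have h2 : (p : ℝ)⁻¹ < 1 := inv_lt_one_of_one_lt₀ h1
    linarith
  have hγ0 : (0 : ℝ) ≤ 1 - (N : ℝ)⁻¹ := g0 N hN
  have hγ1 : (1 : ℝ) - (N : ℝ)⁻¹ ≤ 1 := by
    have : (0 : ℝ) ≤ (N : ℝ)⁻¹ := by positivity
    linarith
  have h1 : ∏ p ∈ F, (1 - (p : ℝ)⁻¹) = (∏ p ∈ F ∩ S, (1 - (p : ℝ)⁻¹)) *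
      ∏ p ∈ F \ S, (1 - (p : ℝ)⁻¹) := (Finset.prod_inter_mul_prod_sdiff F S _).symm
  have h2 : ∏ p ∈ S, (1 - (p : ℝ)⁻¹) = (∏ p ∈ S ∩ F, (1 - (p : ℝ)⁻¹)) *
      ∏ p ∈ S \ F, (1 - (p : ℝ)⁻¹) := (Finset.prod_inter_mul_prod_sdiff S F _).symm
  rw [h1, h2, Finset.inter_comm]
  have h3 : ∏ p ∈ F \ S, (1 - (p : ℝ)⁻¹) ≤ (1 - (N : ℝ)⁻¹) ^ (F \ S).card := by
    rw [← Finset.prod_const]
    refine Finset.prod_le_prod (fun p hp => g0 p (hF p (mem_sdiff.1 hp).1).1) (fun p hp => ?_)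
    obtain ⟨h4, h5⟩ := hF p (mem_sdiff.1 hp).1
    have h6 : (0 : ℝ) < p := by exact_mod_cast (by omega : 0 < p)
    have h7 : (p : ℝ) ≤ N := by exact_mod_cast h5
    have h8 : (N : ℝ)⁻¹ ≤ (p : ℝ)⁻¹ := inv_anti₀ h6 h7
    linarith
  have h4 : (1 - (N : ℝ)⁻¹) ^ (S \ F).card ≤ ∏ p ∈ S \ F, (1 - (p : ℝ)⁻¹) := by
    rw [← Finset.prod_const]
    refine Finset.prod_le_prod (fun p _ => hγ0) (fun p hp => ?_)
    obtain ⟨h4, h5⟩ := mem_sdiff.1 hp
    have h6 : N ≤ p := hSF p h4 h5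
    have h7 : (N : ℝ) ≤ p := by exact_mod_cast h6
    have h8 : (p : ℝ)⁻¹ ≤ (N : ℝ)⁻¹ := inv_anti₀ (by linarith) h7
    linarith
  have h5 : (S \ F).card ≤ (F \ S).card := by
    have e1 := Finset.card_sdiff_add_card_inter S F
    have e2 := Finset.card_sdiff_add_card_inter F S
    rw [Finset.inter_comm] at e2
    omega
  have h6 : (1 - (N : ℝ)⁻¹) ^ (F \ S).card ≤ (1 - (N : ℝ)⁻¹) ^ (S \ F).card :=
    pow_le_pow_of_le_one hγ0 hγ1 h5
  refine mul_le_mul_of_nonneg_left (h3.trans (h6.trans h4)) ?_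
  exact Finset.prod_nonneg (fun p hp => g0 p (hS p (mem_inter.1 hp).1))

/-- Exchange lemma for products of primes. -/
theorem mac_exch2 {S F : Finset ℕ} {N : ℕ} (hN : 0 < N) (hF : ∀ p ∈ F, p ≤ N)
    (hSF : ∀ p ∈ S, p ∉ F → N ≤ p) (hc : F.card ≤ S.card) :
    ∏ p ∈ F, p ≤ ∏ p ∈ S, p := by
  have h1 : ∏ p ∈ F, p = (∏ p ∈ F ∩ S, p) * ∏ p ∈ F \ S, p :=
    (Finset.prod_inter_mul_prod_sdiff F S _).symm
  have h2 : ∏ p ∈ S, p = (∏ p ∈ S ∩ F, p) * ∏ p ∈ S \ F, p :=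
    (Finset.prod_inter_mul_prod_sdiff S F _).symm
  rw [h1, h2, Finset.inter_comm]
  have h3 : ∏ p ∈ F \ S, p ≤ N ^ (F \ S).card := by
    rw [← Finset.prod_const]
    exact Finset.prod_le_prod' (fun p hp => hF p (mem_sdiff.1 hp).1)
  have h4 : N ^ (S \ F).card ≤ ∏ p ∈ S \ F, p := by
    rw [← Finset.prod_const]
    exact Finset.prod_le_prod' (fun p hp => hSF p (mem_sdiff.1 hp).1 (mem_sdiff.1 hp).2)
  have h5 : (F \ S).card ≤ (S \ F).card := by
    have e1 := Finset.card_sdiff_add_card_inter S F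
    have e2 := Finset.card_sdiff_add_card_inter F S
    rw [Finset.inter_comm] at e2
    omega
  exact Nat.mul_le_mul_left _ (h3.trans ((Nat.pow_le_pow_right hN h5).trans h4))

/-- `φ(f) / f` as a product. -/
theorem mac_tot (f : ℕ) (hf : 0 < f) :
    (f.totient : ℝ) / f = ∏ p ∈ f.primeFactors, (1 - (p : ℝ)⁻¹) := by
  have h4 := Nat.totient_eq_mul_prod_factors f
  have h5 : (f.totient : ℝ) = f * ∏ p ∈ f.primeFactors, (1 - (p : ℝ)⁻¹) := by
    have := congrArg (fun t : ℚ => (t : ℝ)) h4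
    push_cast at this
    exact this
  have hm' : (f : ℝ) ≠ 0 := by exact_mod_cast hf.ne'
  rw [h5, mul_div_cancel_left₀ _ hm']

/-- If `f` is smaller than the product of the primes `≤ N'` then `φ(f) / f` is at least the product of
`1 - 1 / p` over the primes `≤ N`, `N` the prime before `N'`; and `f` has at most `k` primes. -/
theorem mac_phi {f N N' k : ℕ} (F F' : Finset ℕ) (hf : 0 < f) (hN : 1 < N)
    (hF : F = (range (N + 1)).filter Nat.Prime) (hF' : F' = (range (N' + 1)).filter Nat.Prime)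
    (hk : F.card = k) (hk' : F'.card = k + 1) (hlt : f < ∏ p ∈ F', p) :
    f.primeFactors.card ≤ k ∧ ∏ p ∈ F, (1 - (p : ℝ)⁻¹) ≤ (f.totient : ℝ) / f := by
  have hN'0 : 0 < N' := by
    rcases Nat.eq_zero_or_pos N' with h | h
    · subst h
      rw [hF'] at hk'
      have : ((range (0 + 1)).filter Nat.Prime).card = 0 := by decide
      omega
    · exact h
  have h1 : f.primeFactors.card ≤ k := by
    by_contra hc
    push Not at hc
    have h2 := mac_exch2 (S := f.primeFactors) (F := F') (N := N') hN'0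
      (fun p hp => by rw [hF'] at hp; have := mem_range.1 (mem_filter.1 hp).1; omega)
      (fun p hp hpF => by
        by_contra hlt2
        apply hpF
        rw [hF', mem_filter]
        exact ⟨mem_range.2 (by omega), Nat.prime_of_mem_primeFactors hp⟩)
      (by omega)
    have h3 : ∏ p ∈ f.primeFactors, p ≤ f := Nat.le_of_dvd hf (Nat.prod_primeFactors_dvd f)
    omega
  refine ⟨h1, ?_⟩
  rw [mac_tot f hf]
  refine mac_exch (N := N) hN (fun p hp => (Nat.prime_of_mem_primeFactors hp).one_lt) ?_ ?_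
    (by omega)
  · intro p hp
    rw [hF] at hp
    obtain ⟨h2, h3⟩ := mem_filter.1 hp
    exact ⟨h3.one_lt, by have := mem_range.1 h2; omega⟩
  · intro p hp hpF
    by_contra hlt2
    apply hpF
    rw [hF, mem_filter]
    exact ⟨mem_range.2 (by omega), Nat.prime_of_mem_primeFactors hp⟩

/-- The maximal number of elements of a double free subset of `[1, t]`. -/
def amx : ℕ → ℕ → ℕ
  | 0, _ => 0
  | k + 1, t => (t - t / 2) + amx k (t / 4)

theorem mac_amx : ∀ (k t : ℕ) (S : Finset ℕ), t < 4 ^ k → (∀ j ∈ S, 1 ≤ j ∧ j ≤ t) →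
    (∀ j ∈ S, 2 * j ∉ S) → S.card ≤ amx k t
  | 0, t, S, ht, hS, _ => by
    have : S = ∅ := by
      rw [Finset.eq_empty_iff_forall_notMem]
      intro j hj
      have := hS j hj
      simp at ht
      omega
    rw [this]; simp
  | k + 1, t, S, ht, hS, hd => by
    classical
    obtain ⟨S1, h1⟩ : ∃ T, T = S.filter (fun j => j ≤ t / 4) := ⟨_, rfl⟩
    obtain ⟨S2, h2⟩ : ∃ T, T = S.filter (fun j => t / 4 < j ∧ j ≤ t / 2) := ⟨_, rfl⟩
    obtain ⟨S3, h3⟩ : ∃ T, T = S.filter (fun j => t / 2 < j) := ⟨_, rfl⟩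
    have e1 : S ⊆ S1 ∪ (S2 ∪ S3) := by
      intro j hj
      rw [h1, h2, h3]
      simp only [mem_union, mem_filter]
      by_cases c1 : j ≤ t / 4
      · exact Or.inl ⟨hj, c1⟩
      · by_cases c2 : j ≤ t / 2
        · exact Or.inr (Or.inl ⟨hj, by omega, c2⟩)
        · exact Or.inr (Or.inr ⟨hj, by omega⟩)
    have e2 : S1.card ≤ amx k (t / 4) := by
      refine mac_amx k (t / 4) S1 ?_ ?_ ?_
      · rw [pow_succ] at ht; omega
      · intro j hj
        rw [h1] at hj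
        obtain ⟨h4, h5⟩ := mem_filter.1 hj
        exact ⟨(hS j h4).1, h5⟩
      · intro j hj hj2
        rw [h1] at hj hj2
        exact hd j (mem_filter.1 hj).1 (mem_filter.1 hj2).1
    have e3 : (S2.image (fun j => 2 * j)) ∪ S3 ⊆ Ioc (t / 2) t := by
      intro j hj
      rw [mem_Ioc]
      rcases mem_union.1 hj with hj | hj
      · obtain ⟨i, hi, rfl⟩ := mem_image.1 hj
        rw [h2] at hi
        obtain ⟨h4, h5, h6⟩ := mem_filter.1 hi
        omega
      · rw [h3] at hj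
        obtain ⟨h4, h5⟩ := mem_filter.1 hj
        exact ⟨h5, (hS j h4).2⟩
    have e4 : Disjoint (S2.image (fun j => 2 * j)) S3 := by
      rw [Finset.disjoint_left]
      intro j hj hj3
      obtain ⟨i, hi, rfl⟩ := mem_image.1 hj
      rw [h2] at hi
      rw [h3] at hj3
      exact hd i (mem_filter.1 hi).1 (mem_filter.1 hj3).1
    have e5 : (S2.image (fun j => 2 * j)).card = S2.card :=
      Finset.card_image_of_injective _ (fun a b hab => by simpa using hab)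
    have e6 : S2.card + S3.card ≤ t - t / 2 := by
      have := Finset.card_le_card e3
      rw [Finset.card_union_of_disjoint e4, e5, Nat.card_Ioc] at this
      exact this
    have e7 : S.card ≤ S1.card + (S2.card + S3.card) :=
      (Finset.card_le_card e1).trans ((Finset.card_union_le _ _).trans
        (add_le_add le_rfl (Finset.card_union_le _ _)))
    rw [amx]
    omega

/-- Number of even missing speeds `≤ K - 3`. -/
theorem mac_evs {n K M k : ℕ} {V : Finset ℕ} (h : Cex n V) (hK : 3 * K ≤ n)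
    (hk : (K - 3) / 2 < 4 ^ k) : (evs M K V).card ≤ amx k ((K - 3) / 2) := by
  classical
  have hinj : Set.InjOn (fun e => e / 2) (evs M K V) := by
    intro a ha b hb hab
    obtain ⟨-, ⟨h1, -⟩, -⟩ := mem_filter.1 (Finset.mem_coe.1 ha)
    obtain ⟨-, ⟨h2, -⟩, -⟩ := mem_filter.1 (Finset.mem_coe.1 hb)
    have h3 : a / 2 = b / 2 := hab
    obtain ⟨c, hc⟩ := h1
    obtain ⟨d, hd⟩ := h2
    omega
  rw [← Finset.card_image_of_injOn hinj]
  refine mac_amx k _ _ hk ?_ ?_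
  · intro j hj
    obtain ⟨e, he, rfl⟩ := mem_image.1 hj
    obtain ⟨h0, ⟨h1, -⟩, -⟩ := mem_filter.1 he
    obtain ⟨h2, h3⟩ := mem_Icc.1 h0
    obtain ⟨c, hc⟩ := h1
    show 1 ≤ e / 2 ∧ e / 2 ≤ (K - 3) / 2
    omega
  · intro j hj hj2
    obtain ⟨e, he, rfl⟩ := mem_image.1 hj
    obtain ⟨e', he', h4⟩ := mem_image.1 hj2
    obtain ⟨h0, ⟨h1, -⟩, h5⟩ := mem_filter.1 he
    obtain ⟨h0', ⟨h1', -⟩, h5'⟩ := mem_filter.1 he'
    obtain ⟨h2, h3⟩ := mem_Icc.1 h0
    obtain ⟨c, hc⟩ := h1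
    obtain ⟨c', hc'⟩ := h1'
    have h6 : e' = 2 * e := by
      have h7 : e' / 2 = 2 * (e / 2) := h4
      omega
    have h7 := mac_dbl h (by omega) (by omega) h5
    rw [← h6] at h7
    exact h5' h7

/-- `amx` is about `2 t / 3`. -/
theorem amx_le : ∀ k t : ℕ, 6 * amx k t ≤ 4 * t + 3 * k
  | 0, t => by simp [amx]
  | k + 1, t => by
    have h := amx_le k (t / 4)
    rw [amx]
    have h1 : 4 * (t / 4) ≤ t := by omega
    omega

end Pool.Agent.LR4
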