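import Mathlib
import Pool.Agent.LR4.MacNum
import Pool.Agent.LR4.Mac72

/-!
Numerical end of the macro cores.
-/

namespace Pool.Agent.LR4

open Finset Pool.Agent.LR2 Pool.Agent.LR3

/-- `φ(f) / f ≤ 1 / 2` for even `f`. -/
theorem mac_half {f : ℕ} (hf : 0 < f) (he : Even f) : (f.totient : ℝ) / f ≤ 1 / 2 := by
  rw [mac_tot f hf]
  have h2 : 2 ∈ f.primeFactors := Nat.mem_primeFactors.2 ⟨Nat.prime_two, he.two_dvd, hf.ne'⟩
  rw [← Finset.mul_prod_erase _ _ h2]
  have h3 : ∏ p ∈ f.primeFactors.erase 2, (1 - (p : ℝ)⁻¹) ≤ 1 := by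
    refine Finset.prod_le_one (fun p hp => ?_) (fun p hp => ?_)
    · have h4 : p.Prime := Nat.prime_of_mem_primeFactors (Finset.mem_of_mem_erase hp)
      have h5 : (1 : ℝ) < p := by exact_mod_cast h4.one_lt
      have h6 : (p : ℝ)⁻¹ < 1 := inv_lt_one_of_one_lt₀ h5
      linarith
    · have : (0 : ℝ) ≤ (p : ℝ)⁻¹ := by positivity
      linarith
  have h4 : (1 : ℝ) - ((2 : ℕ) : ℝ)⁻¹ = 1 / 2 := by norm_num
  rw [h4]
  linarith

/-- `rep` identifies only pairs `b, 2 b` or `b, 3 b` of `Y`. -/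
def RepOK (Y : Finset ℕ) (rep : ℕ → ℕ) : Prop :=
  ∀ x ∈ Y, ∀ y ∈ Y, rep x = rep y → x = y ∨ x = 2 * y ∨ y = 2 * x ∨ x = 3 * y ∨ y = 3 * x

/-- The numerical condition. -/
def numOK (Λ I y C a b w A K : ℕ) : Prop :=
  105000 * b * (4 * y * A + I * K + 2 * I * w + 4 * I) < 2 * Λ * (2 * C + 1) * K * (105 * a - b) +
    105000 * b * (4 * y)

theorem mac_contra {n K M : ℕ} {V : Finset ℕ} (h : Cex n V) (hM : M = 2 * n + K) (hp : M.Prime)
    (hK3 : 3 ≤ K) {C : ℕ} (hC : 350 ≤ C) (hK : C * K ≤ n) {Y : Finset ℕ} {J : List (ℕ × ℕ)}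
    (hY : ∀ b ∈ Y, 0 < b ∧ b < M) (hJ : ∀ a ∈ J, 501 ≤ a.1 ∧ a.1 < a.2 ∧ a.2 ≤ 747)
    (hJp : J.Pairwise (fun a b => a.2 < b.1)) (tab : Tab M V Y J) {rep : ℕ → ℕ}
    (hrep : RepOK Y rep) {Λ I y a b w A f : ℕ} (hΛ : Λ ≤ jlen J) (hI : J.length ≤ I) (hy : (Y.image rep).card ≤ y) (hf : f ∈ evs M K V)
    (hb : 0 < b) (hab : b ≤ 105 * a) (hr : (a : ℝ) / b ≤ (f.totient : ℝ) / f)
    (hw : 2 ^ f.primeFactors.card ≤ w) (hA : (evs M K V).card ≤ A)
    (hnum : numOK Λ I y C a b w A K) : False := by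
  have hCK : 350 * K ≤ C * K := Nat.mul_le_mul_right _ hC
  have h1 := mac_main_rep h hM hp hK3 (by omega) hY hJ hJp tab rep hrep hf
  obtain ⟨hfI, ⟨hfe, hfc⟩, hfV⟩ := mem_filter.1 hf
  obtain ⟨hf1, hf2⟩ := mem_Icc.1 hfI
  have hr2 := mac_half hf1 hfe
  obtain ⟨r, hr'⟩ : ∃ r, r = (f.totient : ℝ) / f := ⟨_, rfl⟩
  obtain ⟨L, hL⟩ : ∃ L, L = jlen J := ⟨_, rfl⟩
  obtain ⟨i, hi⟩ : ∃ i, i = J.length := ⟨_, rfl⟩
  obtain ⟨W, hW⟩ : ∃ W, W = 2 ^ f.primeFactors.card := ⟨_, rfl⟩
  obtain ⟨E, hE⟩ : ∃ E, E = (evs M K V).card := ⟨_, rfl⟩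
  rw [← hr', ← hL, ← hi, ← hE] at h1
  rw [← hr'] at hr hr2
  rw [← hW] at hw
  rw [← hL] at hΛ
  rw [← hi] at hI
  rw [← hE] at hA
  have hWr : (2 : ℝ) ^ f.primeFactors.card = W := by rw [hW]; push_cast; rfl
  rw [hWr] at h1
  have hE1 : 1 ≤ E := by rw [hE]; exact Finset.card_pos.2 ⟨f, hf⟩
  -- real versions
  have hb' : (0 : ℝ) < b := by exact_mod_cast hb
  have hab' : (b : ℝ) ≤ 105 * a := by exact_mod_cast hab
  have hL' : (Λ : ℝ) ≤ L := by exact_mod_cast hΛ
  have hi' : (i : ℝ) ≤ I := by exact_mod_cast hI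
  have hy' : ((Y.image rep).card : ℝ) ≤ y := by exact_mod_cast hy
  have hw' : (W : ℝ) ≤ w := by exact_mod_cast hw
  have hA' : (E : ℝ) ≤ A := by exact_mod_cast hA
  have hE1' : (1 : ℝ) ≤ E := by exact_mod_cast hE1
  have hfK : (f : ℝ) + 1 ≤ K := by
    have : f + 1 ≤ K := by omega
    exact_mod_cast this
  have hMK : (2 * C + 1) * K ≤ M := by
    have : (2 * C + 1) * K = 2 * (C * K) + K := by ring
    omega
  have hMK' : (2 * (C : ℝ) + 1) * K ≤ M := by exact_mod_cast hMK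
  have hΛ0 : (0 : ℝ) ≤ Λ := by positivity
  have hi0 : (0 : ℝ) ≤ i := by positivity
  have hf0 : (0 : ℝ) ≤ f := by positivity
  have hM0 : (0 : ℝ) ≤ M := by positivity
  have hK0 : (0 : ℝ) ≤ K := by positivity
  -- the density
  have hd : (0 : ℝ) ≤ (a : ℝ) / b - 1 / 105 := by
    rw [sub_nonneg, div_le_div_iff₀ (by norm_num) hb']
    linarith
  have hd2 : (a : ℝ) / b - 1 / 105 ≤ r - 1 / 105 := by linarith
  have e1 : (Λ : ℝ) * ((2 * C + 1) * K) * ((a : ℝ) / b - 1 / 105) ≤ L * M * (r - 1 / 105) := by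
    refine mul_le_mul (mul_le_mul hL' hMK' (by positivity) (by positivity)) hd2 hd (by positivity)
  have e2 : (i : ℝ) * (f + 1) * r ≤ I * K * (1 / 2) := by
    have h3 : (0 : ℝ) ≤ r := by
      have : (0 : ℝ) ≤ (a : ℝ) / b := by positivity
      linarith
    refine mul_le_mul (mul_le_mul hi' hfK (by positivity) (by positivity)) hr2 h3 (by positivity)
  have e3 : (i : ℝ) * W ≤ I * w := mul_le_mul hi' hw' (by positivity) (by positivity)
  have e4 : 2 * ((Y.image rep).card : ℝ) * (E - 1) ≤ 2 * y * (A - 1) := by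
    refine mul_le_mul (by linarith) (by linarith) (by linarith) (by positivity)
  have e5 : (Λ : ℝ) * ((2 * C + 1) * K) * ((a : ℝ) / b - 1 / 105) / 1000 ≤
      2 * y * (A - 1) + I * K * (1 / 2) + I * w + 2 * I := by
    have h4 : ((L : ℝ) * M / 1000 - i * (f + 1)) * r - i * W - 2 * ((L : ℝ) * M / 210000 + i) =
        L * M * (r - 1 / 105) / 1000 - i * (f + 1) * r - i * W - 2 * i := by ring
    rw [h4] at h1
    have h5 : L * M * (r - 1 / 105) / 1000 ≤
        2 * y * (A - 1) + I * K * (1 / 2) + I * w + 2 * I := by linarith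
    have h6 : (Λ : ℝ) * ((2 * C + 1) * K) * ((a : ℝ) / b - 1 / 105) / 1000 ≤
        L * M * (r - 1 / 105) / 1000 := div_le_div_of_nonneg_right e1 (by norm_num)
    linarith
  -- clear denominators
  have e6 : (Λ : ℝ) * ((2 * C + 1) * K) * ((a : ℝ) / b - 1 / 105) / 1000 * (210000 * b) =
      2 * Λ * (2 * C + 1) * K * (105 * a - b) := by
    field_simp
    ring
  have e7 := mul_le_mul_of_nonneg_right e5 (by positivity : (0 : ℝ) ≤ 210000 * b)
  rw [e6] at e7
  unfold numOK at hnum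
  have e8 : ((105000 * b * (4 * y * A + I * K + 2 * I * w + 4 * I) : ℕ) : ℝ) <
      ((2 * Λ * (2 * C + 1) * K * (105 * a - b) + 105000 * b * (4 * y) : ℕ) : ℝ) := by
    exact_mod_cast hnum
  rw [Nat.cast_add, Nat.cast_mul, Nat.cast_mul (2 * Λ * (2 * C + 1) * K), Nat.cast_sub hab] at e8
  push_cast at e8
  linarith

/-- Data of the primes up to `N` (`N'` is the next prime, `P` the product up to `N'`). -/
def PD (N N' k P : ℕ) (R : ℝ) : Prop :=
  1 < N ∧ ((range (N + 1)).filter Nat.Prime).card = k ∧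
    ((range (N' + 1)).filter Nat.Prime).card = k + 1 ∧
    ∏ p ∈ (range (N' + 1)).filter Nat.Prime, p = P ∧
    R ≤ ∏ p ∈ (range (N + 1)).filter Nat.Prime, (1 - (p : ℝ)⁻¹)

/-- `φ(f) / f` for `f` coprime to `m`. -/
theorem mac_lev {m f N N' k P s φm : ℕ} {R : ℝ} (hd : PD N N' k P R) (hm : 0 < m)
    (hf : 0 < f) (hc : Nat.Coprime m f) (hs : m.primeFactors.card = s) (hφ : m.totient = φm)
    (hlt : m * f < P) :
    f.primeFactors.card + s ≤ k ∧ R * m / φm ≤ (f.totient : ℝ) / f := by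
  obtain ⟨h1, h2, h3, h4, h5⟩ := hd
  have hmf : 0 < m * f := Nat.mul_pos hm hf
  obtain ⟨h6, h7⟩ := mac_phi (f := m * f) (N := N) (N' := N') (k := k) _ _ hmf h1 rfl rfl h2 h3
    (by rw [h4]; exact hlt)
  constructor
  · rw [hc.primeFactors_mul, Finset.card_union_of_disjoint hc.disjoint_primeFactors, hs] at h6
    omega
  · have h8 := h5.trans h7
    rw [Nat.totient_mul hc, hφ] at h8
    have hφ0 : 0 < φm := by rw [← hφ]; exact Nat.totient_pos.2 hm
    have hφ' : (0 : ℝ) < φm := by exact_mod_cast hφ0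
    have hm' : (0 : ℝ) < m := by exact_mod_cast hm
    have hf' : (0 : ℝ) < f := by exact_mod_cast hf
    have h9 : ((φm * f.totient : ℕ) : ℝ) / ((m * f : ℕ) : ℝ) =
        (φm : ℝ) / m * ((f.totient : ℝ) / f) := by
      push_cast
      field_simp
    rw [h9] at h8
    rw [div_le_iff₀ hφ']
    calc R * m ≤ (φm : ℝ) / m * ((f.totient : ℝ) / f) * m := mul_le_mul_of_nonneg_right h8 hm'.le
      _ = (f.totient : ℝ) / f * φm := by field_simp

theorem pd5 : PD 5 7 3 210 (26666 / 100000) := by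
  refine ⟨by norm_num, by decide +kernel, by decide +kernel, by decide +kernel, ?_⟩
  rw [show (range (5 + 1)).filter Nat.Prime =
    {2, 3, 5} by decide +kernel]
  norm_num

theorem pd7 : PD 7 11 4 2310 (22857 / 100000) := by
  refine ⟨by norm_num, by decide +kernel, by decide +kernel, by decide +kernel, ?_⟩
  rw [show (range (7 + 1)).filter Nat.Prime =
    {2, 3, 5, 7} by decide +kernel]
  norm_num

theorem pd11 : PD 11 13 5 30030 (20779 / 100000) := by
  refine ⟨by norm_num, by decide +kernel, by decide +kernel, by decide +kernel, ?_⟩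
  rw [show (range (11 + 1)).filter Nat.Prime =
    {2, 3, 5, 7, 11} by decide +kernel]
  norm_num

theorem pd13 : PD 13 17 6 510510 (19180 / 100000) := by
  refine ⟨by norm_num, by decide +kernel, by decide +kernel, by decide +kernel, ?_⟩
  rw [show (range (13 + 1)).filter Nat.Prime =
    {2, 3, 5, 7, 11, 13} by decide +kernel]
  norm_num

theorem pd17 : PD 17 19 7 9699690 (18052 / 100000) := by
  refine ⟨by norm_num, by decide +kernel, by decide +kernel, by decide +kernel, ?_⟩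
  rw [show (range (17 + 1)).filter Nat.Prime =
    {2, 3, 5, 7, 11, 13, 17} by decide +kernel]
  norm_num

theorem pd19 : PD 19 23 8 223092870 (17102 / 100000) := by
  refine ⟨by norm_num, by decide +kernel, by decide +kernel, by decide +kernel, ?_⟩
  rw [show (range (19 + 1)).filter Nat.Prime =
    {2, 3, 5, 7, 11, 13, 17, 19} by decide +kernel]
  norm_num

theorem pd23 : PD 23 29 9 6469693230 (16358 / 100000) := by
  refine ⟨by norm_num, by decide +kernel, by decide +kernel, by decide +kernel, ?_⟩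
  rw [show (range (23 + 1)).filter Nat.Prime =
    {2, 3, 5, 7, 11, 13, 17, 19, 23} by decide +kernel]
  norm_num

theorem pd29 : PD 29 31 10 200560490130 (15794 / 100000) := by
  refine ⟨by norm_num, by decide +kernel, by decide +kernel, by decide +kernel, ?_⟩
  rw [show (range (29 + 1)).filter Nat.Prime =
    {2, 3, 5, 7, 11, 13, 17, 19, 23, 29} by decide +kernel]
  norm_num

theorem pd47 : PD 47 53 15 32589158477190044730 (13870 / 100000) := by
  refine ⟨by norm_num, by decide +kernel, by decide +kernel, by decide +kernel, ?_⟩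
  rw [show (range (47 + 1)).filter Nat.Prime =
    {2, 3, 5, 7, 11, 13, 17, 19, 23, 29, 31, 37, 41, 43, 47} by decide +kernel]
  norm_num

theorem pd53 : PD 53 59 16 1922760350154212639070 (13608 / 100000) := by
  refine ⟨by norm_num, by decide +kernel, by decide +kernel, by decide +kernel, ?_⟩
  rw [show (range (53 + 1)).filter Nat.Prime =
    {2, 3, 5, 7, 11, 13, 17, 19, 23, 29, 31, 37, 41, 43, 47, 53} by decide +kernel]
  norm_num

theorem pd59 : PD 59 61 17 117288381359406970983270 (13378 / 100000) := by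
  refine ⟨by norm_num, by decide +kernel, by decide +kernel, by decide +kernel, ?_⟩
  rw [show (range (59 + 1)).filter Nat.Prime =
    {2, 3, 5, 7, 11, 13, 17, 19, 23, 29, 31, 37, 41, 43, 47, 53, 59} by decide +kernel]
  norm_num

/-- Missing even speeds divisible by an odd number. -/
theorem mac_evs_div {n K M k p : ℕ} {V : Finset ℕ} (h : Cex n V) (hK : 3 * K ≤ n) (hp : Odd p)
    (hk : (K - 3) / 2 < 4 ^ k) :
    ((evs M K V).filter (fun e => p ∣ e)).card ≤ amx k ((K - 3) / 2 / p) := by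
  classical
  have hp0 : 0 < p := hp.pos
  have key : ∀ e ∈ (evs M K V).filter (fun e => p ∣ e), ∃ i, e = 2 * p * i ∧ 1 ≤ i ∧
      i ≤ (K - 3) / 2 / p ∧ e ∉ V ∧ 1 ≤ e ∧ e ≤ K - 3 := by
    intro e he
    obtain ⟨he1, hpe⟩ := mem_filter.1 he
    obtain ⟨h0, ⟨h1, -⟩, h2⟩ := mem_filter.1 he1
    obtain ⟨h3, h4⟩ := mem_Icc.1 h0
    have h5 : 2 * p ∣ e := (Nat.coprime_two_left.2 hp).mul_dvd_of_dvd_of_dvd h1.two_dvd hpe
    obtain ⟨i, hi⟩ := h5
    refine ⟨i, hi, ?_, ?_, h2, h3, h4⟩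
    · rcases Nat.eq_zero_or_pos i with hi0 | hi0
      · subst hi0; omega
      · exact hi0
    · rw [Nat.le_div_iff_mul_le hp0, Nat.le_div_iff_mul_le (by norm_num)]
      have : i * p * 2 = 2 * p * i := by ring
      omega
  have hinj : Set.InjOn (fun e => e / (2 * p)) ((evs M K V).filter (fun e => p ∣ e)) := by
    intro a ha b hb hab
    obtain ⟨i, hi, -⟩ := key a (Finset.mem_coe.1 ha)
    obtain ⟨j, hj, -⟩ := key b (Finset.mem_coe.1 hb)
    have h3 : a / (2 * p) = b / (2 * p) := hab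
    rw [hi, hj, Nat.mul_div_cancel_left _ (by omega), Nat.mul_div_cancel_left _ (by omega)] at h3
    rw [hi, hj, h3]
  rw [← Finset.card_image_of_injOn hinj]
  refine mac_amx k _ _ (lt_of_le_of_lt (Nat.div_le_self _ _) hk) ?_ ?_
  · intro j hj
    obtain ⟨e, he, rfl⟩ := mem_image.1 hj
    obtain ⟨i, hi, h1, h2, -⟩ := key e he
    show 1 ≤ e / (2 * p) ∧ e / (2 * p) ≤ _
    rw [hi, Nat.mul_div_cancel_left _ (by omega)]
    exact ⟨h1, h2⟩
  · intro j hj hj2
    obtain ⟨e, he, rfl⟩ := mem_image.1 hj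
    obtain ⟨e', he', h4⟩ := mem_image.1 hj2
    obtain ⟨i, hi, -, -, h5, h6, h7⟩ := key e he
    obtain ⟨j, hj, -, -, h5', -, -⟩ := key e' he'
    have h8 : e' / (2 * p) = 2 * (e / (2 * p)) := h4
    rw [hi, hj, Nat.mul_div_cancel_left _ (by omega), Nat.mul_div_cancel_left _ (by omega)] at h8
    have h9 : e' = 2 * e := by rw [hi, hj, h8]; ring
    have h10 := mac_dbl h (by omega) (by omega) h5
    rw [← h9] at h10
    exact h5' h10

/-- Number of missing even speeds if all are divisible by an element of the list. -/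
theorem mac_evs_cov {n K M k : ℕ} {V : Finset ℕ} (h : Cex n V) (hK : 3 * K ≤ n)
    (hk : (K - 3) / 2 < 4 ^ k) : ∀ (L : List ℕ), (∀ p ∈ L, Odd p) → ∀ S ⊆ evs M K V,
    (∀ f ∈ S, ∃ p ∈ L, p ∣ f) → S.card ≤ (L.map (fun p => amx k ((K - 3) / 2 / p))).sum
  | [], _, S, _, hcov => by
    have : S = ∅ := by
      rw [Finset.eq_empty_iff_forall_notMem]
      intro f hf
      obtain ⟨p, hp, -⟩ := hcov f hf
      simp at hp
    rw [this]; simp
  | p :: l, hL, S, hS, hcov => by
    classical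
    have h1 := mac_evs_cov h hK hk l (fun q hq => hL q (List.mem_cons_of_mem _ hq))
      (S.filter (fun f => ¬ p ∣ f)) ((Finset.filter_subset _ _).trans hS) (by
        intro f hf
        obtain ⟨h2, h3⟩ := mem_filter.1 hf
        obtain ⟨q, hq, hqf⟩ := hcov f h2
        rcases List.mem_cons.1 hq with rfl | hq
        · exact absurd hqf h3
        · exact ⟨q, hq, hqf⟩)
    have h2 : (S.filter (fun f => p ∣ f)).card ≤ amx k ((K - 3) / 2 / p) :=
      (Finset.card_le_card (Finset.filter_subset_filter _ hS)).trans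
        (mac_evs_div h hK (hL p List.mem_cons_self) hk)
    rw [List.map_cons, List.sum_cons,
      ← Finset.card_filter_add_card_filter_not (s := S) (fun f => p ∣ f)]
    exact add_le_add h2 h1

/-- One case of the final count. -/
theorem mac_use {n K M : ℕ} {V : Finset ℕ} (h : Cex n V) (hM : M = 2 * n + K) (hp : M.Prime)
    (hK5 : 5 ≤ K) {C : ℕ} (hC : 350 ≤ C) (hK : C * K ≤ n) {Y : Finset ℕ} {J : List (ℕ × ℕ)}
    (hY : ∀ b ∈ Y, 0 < b ∧ b < M) (hJ : ∀ a ∈ J, 501 ≤ a.1 ∧ a.1 < a.2 ∧ a.2 ≤ 747)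
    (hJp : J.Pairwise (fun a b => a.2 < b.1)) (tab : Tab M V Y J) {rep : ℕ → ℕ}
    (hrep : RepOK Y rep) (hΛ : 142 ≤ jlen J) (hI : J.length ≤ 12)
    (hy : (Y.image rep).card ≤ 50) {m N N' k P s φm a w kk : ℕ} {R : ℝ} (L : List ℕ)
    (hd : PD N N' k P R) (hm : 0 < m) (hs : m.primeFactors.card = s) (hφ : m.totient = φm)
    (hlt : m * K ≤ P) (hab : (a : ℝ) / (10000 : ℕ) ≤ R * m / φm) (hab2 : 10000 ≤ 105 * a)
    (hw : 2 ^ (k - s) ≤ w) (hkk : (K - 3) / 2 < 4 ^ kk) (hL : ∀ p ∈ L, Odd p)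
    (hnum : numOK 142 12 50 C a 10000 w (L.map (fun p => amx kk ((K - 3) / 2 / p))).sum K)
    {f : ℕ} (hf : f ∈ evs M K V) (hc : Nat.Coprime m f)
    (hcov : ∀ f ∈ evs M K V, ∃ p ∈ L, p ∣ f) : False := by
  obtain ⟨hfI, -⟩ := mem_filter.1 hf
  obtain ⟨hf1, hf2⟩ := mem_Icc.1 hfI
  have hfm : m * f < P := by
    have : m * f < m * K := Nat.mul_lt_mul_of_pos_left (by omega) hm
    omega
  obtain ⟨h1, h2⟩ := mac_lev hd hm hf1 hc hs hφ hfm
  have hCK : 350 * K ≤ C * K := Nat.mul_le_mul_right _ hC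
  refine mac_contra h hM hp (by omega) hC hK hY hJ hJp tab hrep hΛ hI hy hf (by norm_num) hab2
    (hab.trans h2) ((Nat.pow_le_pow_right (by norm_num) (by omega)).trans hw)
    (mac_evs_cov h (by omega) hkk L hL _ (Finset.Subset.refl _) hcov) hnum

instance (Λ I y C a b w A K : ℕ) : Decidable (numOK Λ I y C a b w A K) := by
  unfold numOK; infer_instance

theorem num10 : ∀ K < 200, 5 ≤ K → numOK 142 12 50 350 2666 10000 8
    (([3] : List ℕ).map (fun p => amx 4 ((K - 3) / 2 / p))).sum K := by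
  decide +kernel

theorem num11 : ∀ K < 200, 5 ≤ K → numOK 142 12 50 350 3428 10000 8
    (([3, 5] : List ℕ).map (fun p => amx 4 ((K - 3) / 2 / p))).sum K := by
  decide +kernel

theorem num12 : ∀ K < 200, 5 ≤ K → numOK 142 12 50 350 3896 10000 8
    (([3, 5, 7] : List ℕ).map (fun p => amx 4 ((K - 3) / 2 / p))).sum K := by
  decide +kernel

theorem num13 : ∀ K < 200, 5 ≤ K → numOK 142 12 50 350 4545 10000 4
    (([1] : List ℕ).map (fun p => amx 4 ((K - 3) / 2 / p))).sum K := by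
  decide +kernel

theorem num20 : ∀ K < 2000, 200 ≤ K → numOK 142 12 50 350 2285 10000 16
    (([3] : List ℕ).map (fun p => amx 5 ((K - 3) / 2 / p))).sum K := by
  decide +kernel

theorem num21 : ∀ K < 2000, 200 ≤ K → numOK 142 12 50 350 3116 10000 16
    (([3, 5] : List ℕ).map (fun p => amx 5 ((K - 3) / 2 / p))).sum K := by
  decide +kernel

theorem num22 : ∀ K < 2000, 200 ≤ K → numOK 142 12 50 350 3896 10000 8
    (([3, 5, 7] : List ℕ).map (fun p => amx 5 ((K - 3) / 2 / p))).sum K := by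
  decide +kernel

theorem num23 : ∀ K < 2000, 200 ≤ K → numOK 142 12 50 350 4195 10000 8
    (([1] : List ℕ).map (fun p => amx 5 ((K - 3) / 2 / p))).sum K := by
  decide +kernel

theorem num30 (K : ℕ) (h1 : 2000 ≤ K) : numOK 142 12 50 500 1918 10000 64
    (([3] : List ℕ).map (fun p => amx 9 ((K - 3) / 2 / p))).sum K := by
  have b3 := amx_le 9 ((K - 3) / 2 / 3)
  simp only [List.map_cons, List.map_nil, List.sum_cons, List.sum_nil, numOK]
  generalize amx 9 ((K - 3) / 2 / 3) = x3 at *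
  omega

theorem num31 (K : ℕ) (h1 : 2000 ≤ K) : numOK 142 12 50 500 2707 10000 64
    (([3, 5] : List ℕ).map (fun p => amx 9 ((K - 3) / 2 / p))).sum K := by
  have b3 := amx_le 9 ((K - 3) / 2 / 3)
  have b5 := amx_le 9 ((K - 3) / 2 / 5)
  simp only [List.map_cons, List.map_nil, List.sum_cons, List.sum_nil, numOK]
  generalize amx 9 ((K - 3) / 2 / 3) = x3 at *
  generalize amx 9 ((K - 3) / 2 / 5) = x5 at *
  omega

theorem num32 (K : ℕ) (h1 : 2000 ≤ K) : numOK 142 12 50 500 3384 10000 32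
    (([3, 5, 7] : List ℕ).map (fun p => amx 9 ((K - 3) / 2 / p))).sum K := by
  have b3 := amx_le 9 ((K - 3) / 2 / 3)
  have b5 := amx_le 9 ((K - 3) / 2 / 5)
  have b7 := amx_le 9 ((K - 3) / 2 / 7)
  simp only [List.map_cons, List.map_nil, List.sum_cons, List.sum_nil, numOK]
  generalize amx 9 ((K - 3) / 2 / 3) = x3 at *
  generalize amx 9 ((K - 3) / 2 / 5) = x5 at *
  generalize amx 9 ((K - 3) / 2 / 7) = x7 at *
  omega

theorem num33 (K : ℕ) (h1 : 2000 ≤ K) : numOK 142 12 50 500 3741 10000 32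
    (([1] : List ℕ).map (fun p => amx 9 ((K - 3) / 2 / p))).sum K := by
  have b1 := amx_le 9 ((K - 3) / 2 / 1)
  simp only [List.map_cons, List.map_nil, List.sum_cons, List.sum_nil, numOK]
  generalize amx 9 ((K - 3) / 2 / 1) = x1 at *
  omega

theorem num40 (K : ℕ) (h1 : 190000 ≤ K) : numOK 142 12 50 500 1710 10000 256
    (([3] : List ℕ).map (fun p => amx 13 ((K - 3) / 2 / p))).sum K := by
  have b3 := amx_le 13 ((K - 3) / 2 / 3)
  simp only [List.map_cons, List.map_nil, List.sum_cons, List.sum_nil, numOK]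
  generalize amx 13 ((K - 3) / 2 / 3) = x3 at *
  omega

theorem num41 (K : ℕ) (h1 : 190000 ≤ K) : numOK 142 12 50 500 2453 10000 256
    (([3, 5] : List ℕ).map (fun p => amx 13 ((K - 3) / 2 / p))).sum K := by
  have b3 := amx_le 13 ((K - 3) / 2 / 3)
  have b5 := amx_le 13 ((K - 3) / 2 / 5)
  simp only [List.map_cons, List.map_nil, List.sum_cons, List.sum_nil, numOK]
  generalize amx 13 ((K - 3) / 2 / 3) = x3 at *
  generalize amx 13 ((K - 3) / 2 / 5) = x5 at *
  omega

theorem num42 (K : ℕ) (h1 : 190000 ≤ K) : numOK 142 12 50 500 3067 10000 128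
    (([3, 5, 7] : List ℕ).map (fun p => amx 13 ((K - 3) / 2 / p))).sum K := by
  have b3 := amx_le 13 ((K - 3) / 2 / 3)
  have b5 := amx_le 13 ((K - 3) / 2 / 5)
  have b7 := amx_le 13 ((K - 3) / 2 / 7)
  simp only [List.map_cons, List.map_nil, List.sum_cons, List.sum_nil, numOK]
  generalize amx 13 ((K - 3) / 2 / 3) = x3 at *
  generalize amx 13 ((K - 3) / 2 / 5) = x5 at *
  generalize amx 13 ((K - 3) / 2 / 7) = x7 at *
  omega

theorem num43 (K : ℕ) (h1 : 190000 ≤ K) : numOK 142 12 50 500 3454 10000 128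
    (([3, 5, 7, 11] : List ℕ).map (fun p => amx 13 ((K - 3) / 2 / p))).sum K := by
  have b3 := amx_le 13 ((K - 3) / 2 / 3)
  have b5 := amx_le 13 ((K - 3) / 2 / 5)
  have b7 := amx_le 13 ((K - 3) / 2 / 7)
  have b11 := amx_le 13 ((K - 3) / 2 / 11)
  simp only [List.map_cons, List.map_nil, List.sum_cons, List.sum_nil, numOK]
  generalize amx 13 ((K - 3) / 2 / 3) = x3 at *
  generalize amx 13 ((K - 3) / 2 / 5) = x5 at *
  generalize amx 13 ((K - 3) / 2 / 7) = x7 at *
  generalize amx 13 ((K - 3) / 2 / 11) = x11 at *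
  omega

theorem num44 (K : ℕ) (h1 : 190000 ≤ K) : numOK 142 12 50 500 3800 10000 64
    (([1] : List ℕ).map (fun p => amx 13 ((K - 3) / 2 / p))).sum K := by
  have b1 := amx_le 13 ((K - 3) / 2 / 1)
  simp only [List.map_cons, List.map_nil, List.sum_cons, List.sum_nil, numOK]
  generalize amx 13 ((K - 3) / 2 / 1) = x1 at *
  omega

theorem num50 (K : ℕ) (h1 : 100000000 ≤ K) : numOK 142 12 50 500 1387 10000 32768
    (([3] : List ℕ).map (fun p => amx 32 ((K - 3) / 2 / p))).sum K := by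
  have b3 := amx_le 32 ((K - 3) / 2 / 3)
  simp only [List.map_cons, List.map_nil, List.sum_cons, List.sum_nil, numOK]
  generalize amx 32 ((K - 3) / 2 / 3) = x3 at *
  omega

theorem num51 (K : ℕ) (h1 : 100000000 ≤ K) : numOK 142 12 50 500 2080 10000 16384
    (([3, 5] : List ℕ).map (fun p => amx 32 ((K - 3) / 2 / p))).sum K := by
  have b3 := amx_le 32 ((K - 3) / 2 / 3)
  have b5 := amx_le 32 ((K - 3) / 2 / 5)
  simp only [List.map_cons, List.map_nil, List.sum_cons, List.sum_nil, numOK]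
  generalize amx 32 ((K - 3) / 2 / 3) = x3 at *
  generalize amx 32 ((K - 3) / 2 / 5) = x5 at *
  omega

theorem num52 (K : ℕ) (h1 : 100000000 ≤ K) : numOK 142 12 50 500 2551 10000 16384
    (([3, 5, 7] : List ℕ).map (fun p => amx 32 ((K - 3) / 2 / p))).sum K := by
  have b3 := amx_le 32 ((K - 3) / 2 / 3)
  have b5 := amx_le 32 ((K - 3) / 2 / 5)
  have b7 := amx_le 32 ((K - 3) / 2 / 7)
  simp only [List.map_cons, List.map_nil, List.sum_cons, List.sum_nil, numOK]
  generalize amx 32 ((K - 3) / 2 / 3) = x3 at *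
  generalize amx 32 ((K - 3) / 2 / 5) = x5 at *
  generalize amx 32 ((K - 3) / 2 / 7) = x7 at *
  omega

theorem num53 (K : ℕ) (h1 : 100000000 ≤ K) : numOK 142 12 50 500 2976 10000 8192
    (([3, 5, 7, 11] : List ℕ).map (fun p => amx 32 ((K - 3) / 2 / p))).sum K := by
  have b3 := amx_le 32 ((K - 3) / 2 / 3)
  have b5 := amx_le 32 ((K - 3) / 2 / 5)
  have b7 := amx_le 32 ((K - 3) / 2 / 7)
  have b11 := amx_le 32 ((K - 3) / 2 / 11)
  simp only [List.map_cons, List.map_nil, List.sum_cons, List.sum_nil, numOK]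
  generalize amx 32 ((K - 3) / 2 / 3) = x3 at *
  generalize amx 32 ((K - 3) / 2 / 5) = x5 at *
  generalize amx 32 ((K - 3) / 2 / 7) = x7 at *
  generalize amx 32 ((K - 3) / 2 / 11) = x11 at *
  omega

theorem num54 (K : ℕ) (h1 : 100000000 ≤ K) : numOK 142 12 50 500 3219 10000 8192
    (([1] : List ℕ).map (fun p => amx 32 ((K - 3) / 2 / p))).sum K := by
  have b1 := amx_le 32 ((K - 3) / 2 / 1)
  simp only [List.map_cons, List.map_nil, List.sum_cons, List.sum_nil, numOK]
  generalize amx 32 ((K - 3) / 2 / 1) = x1 at *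
  omega

theorem not_cop {L : List ℕ} {m : ℕ} (hL : L.prod = m) : ∀ {f : ℕ},
    (∀ p ∈ L, p.Prime) → ¬ Nat.Coprime m f → ∃ p ∈ L, p ∣ f := by
  intro f hp hc
  by_contra hcon
  push Not at hcon
  apply hc
  rw [← hL]
  refine Nat.coprime_list_prod_left_iff.2 ?_
  intro p hpL
  exact (Nat.Prime.coprime_iff_not_dvd (hp p hpL)).2 (hcon p hpL)

/-- **R2.** The count for a prime `M = 2 n + K`, part a. -/
theorem mac_R2a {n K M : ℕ} {V : Finset ℕ} (h : Cex n V) (hM : M = 2 * n + K) (hp : M.Prime)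
    (hK5 : 5 ≤ K) (hKb : K < 190000) (hKn : 350 * K ≤ n) (hKn2 : K < 2000 ∨ 500 * K ≤ n)
    {Y : Finset ℕ} {J : List (ℕ × ℕ)} (hY : ∀ b ∈ Y, 0 < b ∧ b < M)
    (hJ : ∀ a ∈ J, 501 ≤ a.1 ∧ a.1 < a.2 ∧ a.2 ≤ 747) (hJp : J.Pairwise (fun a b => a.2 < b.1))
    (tab : Tab M V Y J) {rep : ℕ → ℕ} (hrep : RepOK Y rep) (hΛ : 142 ≤ jlen J)
    (hI : J.length ≤ 12) (hy : (Y.image rep).card ≤ 50) : False := by
  have hne : (evs M K V).Nonempty := by
    rw [← Finset.card_pos]
    have := acct_prime h hM hp (by omega) (by omega)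
    omega
  obtain ⟨g, hg⟩ := hne
  have o1 : ∀ p ∈ ([1] : List ℕ), Odd p := by decide
  have o3 : ∀ p ∈ ([3] : List ℕ), Odd p := by decide
  have q3 : ∀ p ∈ ([3] : List ℕ), p.Prime := by simp; norm_num
  have o15 : ∀ p ∈ ([3, 5] : List ℕ), Odd p := by decide
  have q15 : ∀ p ∈ ([3, 5] : List ℕ), p.Prime := by simp; norm_num
  have o105 : ∀ p ∈ ([3, 5, 7] : List ℕ), Odd p := by decide
  have q105 : ∀ p ∈ ([3, 5, 7] : List ℕ), p.Prime := by simp; norm_num
  have s1 : (1 : ℕ).primeFactors.card = 0 := by decide +kernel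
  have t1 : (1 : ℕ).totient = 1 := by decide +kernel
  have s3 : (3 : ℕ).primeFactors.card = 1 := by decide +kernel
  have t3 : (3 : ℕ).totient = 2 := by decide +kernel
  have s15 : (15 : ℕ).primeFactors.card = 2 := by decide +kernel
  have t15 : (15 : ℕ).totient = 8 := by decide +kernel
  have s105 : (105 : ℕ).primeFactors.card = 3 := by decide +kernel
  have t105 : (105 : ℕ).totient = 48 := by decide +kernel
  by_cases c105 : ∃ f ∈ evs M K V, Nat.Coprime 105 f
  · obtain ⟨f, hf, hc⟩ := c105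
    have hcov : ∀ f ∈ evs M K V, ∃ p ∈ ([1] : List ℕ), p ∣ f :=
      fun f _ => ⟨1, by simp, one_dvd _⟩
    rcases lt_or_ge K 200 with k1 | k1
    · exact mac_use h hM hp hK5 (C := 350) (by norm_num) (by omega) hY hJ hJp tab hrep hΛ hI hy
        (kk := 4) (w := 4) (a := 4545) [1] pd11 (by norm_num) s105 t105 (by omega) (by norm_num)
        (by norm_num) (by norm_num) (by norm_num; omega) o1 (num13 K k1 hK5) hf hc hcov
    rcases lt_or_ge K 2000 with k2 | k2
    · exact mac_use h hM hp hK5 (C := 350) (by norm_num) (by omega) hY hJ hJp tab hrep hΛ hI hy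
        (kk := 5) (w := 8) (a := 4195) [1] pd13 (by norm_num) s105 t105 (by omega) (by norm_num)
        (by norm_num) (by norm_num) (by norm_num; omega) o1 (num23 K k2 k1) hf hc hcov
    · exact mac_use h hM hp hK5 (C := 500) (by norm_num) (by omega) hY hJ hJp tab hrep hΛ hI hy
        (kk := 9) (w := 32) (a := 3741) [1] pd19 (by norm_num) s105 t105 (by omega) (by norm_num)
        (by norm_num) (by norm_num) (by norm_num; omega) o1 (num33 K k2) hf hc hcov
  by_cases c15 : ∃ f ∈ evs M K V, Nat.Coprime 15 f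
  · obtain ⟨f, hf, hc⟩ := c15
    have hcov : ∀ f ∈ evs M K V, ∃ p ∈ ([3, 5, 7] : List ℕ), p ∣ f :=
      fun f hf => not_cop (m := 105) (by norm_num) q105 (fun hc => c105 ⟨f, hf, hc⟩)
    rcases lt_or_ge K 200 with k1 | k1
    · exact mac_use h hM hp hK5 (C := 350) (by norm_num) (by omega) hY hJ hJp tab hrep hΛ hI hy
        (kk := 4) (w := 8) (a := 3896) [3, 5, 7] pd11 (by norm_num) s15 t15 (by omega) (by norm_num)
        (by norm_num) (by norm_num) (by norm_num; omega) o105 (num12 K k1 hK5) hf hc hcov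
    rcases lt_or_ge K 2000 with k2 | k2
    · exact mac_use h hM hp hK5 (C := 350) (by norm_num) (by omega) hY hJ hJp tab hrep hΛ hI hy
        (kk := 5) (w := 8) (a := 3896) [3, 5, 7] pd11 (by norm_num) s15 t15 (by omega) (by norm_num)
        (by norm_num) (by norm_num) (by norm_num; omega) o105 (num22 K k2 k1) hf hc hcov
    · exact mac_use h hM hp hK5 (C := 500) (by norm_num) (by omega) hY hJ hJp tab hrep hΛ hI hy
        (kk := 9) (w := 32) (a := 3384) [3, 5, 7] pd17 (by norm_num) s15 t15 (by omega) (by norm_num)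
        (by norm_num) (by norm_num) (by norm_num; omega) o105 (num32 K k2) hf hc hcov
  by_cases c3 : ∃ f ∈ evs M K V, Nat.Coprime 3 f
  · obtain ⟨f, hf, hc⟩ := c3
    have hcov : ∀ f ∈ evs M K V, ∃ p ∈ ([3, 5] : List ℕ), p ∣ f :=
      fun f hf => not_cop (m := 15) (by norm_num) q15 (fun hc => c15 ⟨f, hf, hc⟩)
    rcases lt_or_ge K 200 with k1 | k1
    · exact mac_use h hM hp hK5 (C := 350) (by norm_num) (by omega) hY hJ hJp tab hrep hΛ hI hy
        (kk := 4) (w := 8) (a := 3428) [3, 5] pd7 (by norm_num) s3 t3 (by omega) (by norm_num)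
        (by norm_num) (by norm_num) (by norm_num; omega) o15 (num11 K k1 hK5) hf hc hcov
    rcases lt_or_ge K 2000 with k2 | k2
    · exact mac_use h hM hp hK5 (C := 350) (by norm_num) (by omega) hY hJ hJp tab hrep hΛ hI hy
        (kk := 5) (w := 16) (a := 3116) [3, 5] pd11 (by norm_num) s3 t3 (by omega) (by norm_num)
        (by norm_num) (by norm_num) (by norm_num; omega) o15 (num21 K k2 k1) hf hc hcov
    · exact mac_use h hM hp hK5 (C := 500) (by norm_num) (by omega) hY hJ hJp tab hrep hΛ hI hy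
        (kk := 9) (w := 64) (a := 2707) [3, 5] pd17 (by norm_num) s3 t3 (by omega) (by norm_num)
        (by norm_num) (by norm_num) (by norm_num; omega) o15 (num31 K k2) hf hc hcov
  have hcov : ∀ f ∈ evs M K V, ∃ p ∈ ([3] : List ℕ), p ∣ f :=
    fun f hf => not_cop (m := 3) (by norm_num) q3 (fun hc => c3 ⟨f, hf, hc⟩)
  rcases lt_or_ge K 200 with k1 | k1
  · exact mac_use h hM hp hK5 (C := 350) (by norm_num) (by omega) hY hJ hJp tab hrep hΛ hI hy
      (kk := 4) (w := 8) (a := 2666) [3] pd5 (by norm_num) s1 t1 (by omega) (by norm_num)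
      (by norm_num) (by norm_num) (by norm_num; omega) o3 (num10 K k1 hK5) hg (Nat.coprime_one_left g) hcov
  rcases lt_or_ge K 2000 with k2 | k2
  · exact mac_use h hM hp hK5 (C := 350) (by norm_num) (by omega) hY hJ hJp tab hrep hΛ hI hy
      (kk := 5) (w := 16) (a := 2285) [3] pd7 (by norm_num) s1 t1 (by omega) (by norm_num)
      (by norm_num) (by norm_num) (by norm_num; omega) o3 (num20 K k2 k1) hg (Nat.coprime_one_left g) hcov
  · exact mac_use h hM hp hK5 (C := 500) (by norm_num) (by omega) hY hJ hJp tab hrep hΛ hI hy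
      (kk := 9) (w := 64) (a := 1918) [3] pd13 (by norm_num) s1 t1 (by omega) (by norm_num)
      (by norm_num) (by norm_num) (by norm_num; omega) o3 (num30 K k2) hg (Nat.coprime_one_left g) hcov

/-- **R2.** The count for a prime `M = 2 n + K`, part b. -/
theorem mac_R2b {n K M : ℕ} {V : Finset ℕ} (h : Cex n V) (hM : M = 2 * n + K) (hp : M.Prime)
    (hKa : 190000 ≤ K) (hKb : K ≤ 10 ^ 19) (hKn : 350 * K ≤ n)
    (hKn2 : K < 2000 ∨ 500 * K ≤ n)
    {Y : Finset ℕ} {J : List (ℕ × ℕ)} (hY : ∀ b ∈ Y, 0 < b ∧ b < M)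
    (hJ : ∀ a ∈ J, 501 ≤ a.1 ∧ a.1 < a.2 ∧ a.2 ≤ 747) (hJp : J.Pairwise (fun a b => a.2 < b.1))
    (tab : Tab M V Y J) {rep : ℕ → ℕ} (hrep : RepOK Y rep) (hΛ : 142 ≤ jlen J)
    (hI : J.length ≤ 12) (hy : (Y.image rep).card ≤ 50) : False := by
  have hne : (evs M K V).Nonempty := by
    rw [← Finset.card_pos]
    have := acct_prime h hM hp (by omega) (by omega)
    omega
  obtain ⟨g, hg⟩ := hne
  have hK5 : 5 ≤ K := by omega
  have o1 : ∀ p ∈ ([1] : List ℕ), Odd p := by decide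
  have o3 : ∀ p ∈ ([3] : List ℕ), Odd p := by decide
  have q3 : ∀ p ∈ ([3] : List ℕ), p.Prime := by simp; norm_num
  have o15 : ∀ p ∈ ([3, 5] : List ℕ), Odd p := by decide
  have q15 : ∀ p ∈ ([3, 5] : List ℕ), p.Prime := by simp; norm_num
  have o105 : ∀ p ∈ ([3, 5, 7] : List ℕ), Odd p := by decide
  have q105 : ∀ p ∈ ([3, 5, 7] : List ℕ), p.Prime := by simp; norm_num
  have o1155 : ∀ p ∈ ([3, 5, 7, 11] : List ℕ), Odd p := by decide
  have q1155 : ∀ p ∈ ([3, 5, 7, 11] : List ℕ), p.Prime := by simp; norm_num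
  have s1 : (1 : ℕ).primeFactors.card = 0 := by decide +kernel
  have t1 : (1 : ℕ).totient = 1 := by decide +kernel
  have s3 : (3 : ℕ).primeFactors.card = 1 := by decide +kernel
  have t3 : (3 : ℕ).totient = 2 := by decide +kernel
  have s15 : (15 : ℕ).primeFactors.card = 2 := by decide +kernel
  have t15 : (15 : ℕ).totient = 8 := by decide +kernel
  have s105 : (105 : ℕ).primeFactors.card = 3 := by decide +kernel
  have t105 : (105 : ℕ).totient = 48 := by decide +kernel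
  have s1155 : (1155 : ℕ).primeFactors.card = 4 := by decide +kernel
  have t1155 : (1155 : ℕ).totient = 480 := by decide +kernel
  by_cases c1155 : ∃ f ∈ evs M K V, Nat.Coprime 1155 f
  · obtain ⟨f, hf, hc⟩ := c1155
    have hcov : ∀ f ∈ evs M K V, ∃ p ∈ ([1] : List ℕ), p ∣ f :=
      fun f _ => ⟨1, by simp, one_dvd _⟩
    rcases lt_or_ge K 100000000 with k4 | k4
    · exact mac_use h hM hp hK5 (C := 500) (by norm_num) (by omega) hY hJ hJp tab hrep hΛ hI hy
        (kk := 13) (w := 64) (a := 3800) [1] pd29 (by norm_num) s1155 t1155 (by omega) (by norm_num)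
        (by norm_num) (by norm_num) (by norm_num; omega) o1 (num44 K hKa) hf hc hcov
    · exact mac_use h hM hp hK5 (C := 500) (by norm_num) (by omega) hY hJ hJp tab hrep hΛ hI hy
        (kk := 32) (w := 8192) (a := 3219) [1] pd59 (by norm_num) s1155 t1155 (by omega) (by norm_num)
        (by norm_num) (by norm_num) (by norm_num; omega) o1 (num54 K k4) hf hc hcov
  by_cases c105 : ∃ f ∈ evs M K V, Nat.Coprime 105 f
  · obtain ⟨f, hf, hc⟩ := c105
    have hcov : ∀ f ∈ evs M K V, ∃ p ∈ ([3, 5, 7, 11] : List ℕ), p ∣ f :=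
      fun f hf => not_cop (m := 1155) (by norm_num) q1155 (fun hc => c1155 ⟨f, hf, hc⟩)
    rcases lt_or_ge K 100000000 with k4 | k4
    · exact mac_use h hM hp hK5 (C := 500) (by norm_num) (by omega) hY hJ hJp tab hrep hΛ hI hy
        (kk := 13) (w := 128) (a := 3454) [3, 5, 7, 11] pd29 (by norm_num) s105 t105 (by omega) (by norm_num)
        (by norm_num) (by norm_num) (by norm_num; omega) o1155 (num43 K hKa) hf hc hcov
    · exact mac_use h hM hp hK5 (C := 500) (by norm_num) (by omega) hY hJ hJp tab hrep hΛ hI hy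
        (kk := 32) (w := 8192) (a := 2976) [3, 5, 7, 11] pd53 (by norm_num) s105 t105 (by omega) (by norm_num)
        (by norm_num) (by norm_num) (by norm_num; omega) o1155 (num53 K k4) hf hc hcov
  by_cases c15 : ∃ f ∈ evs M K V, Nat.Coprime 15 f
  · obtain ⟨f, hf, hc⟩ := c15
    have hcov : ∀ f ∈ evs M K V, ∃ p ∈ ([3, 5, 7] : List ℕ), p ∣ f :=
      fun f hf => not_cop (m := 105) (by norm_num) q105 (fun hc => c105 ⟨f, hf, hc⟩)
    rcases lt_or_ge K 100000000 with k4 | k4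
    · exact mac_use h hM hp hK5 (C := 500) (by norm_num) (by omega) hY hJ hJp tab hrep hΛ hI hy
        (kk := 13) (w := 128) (a := 3067) [3, 5, 7] pd23 (by norm_num) s15 t15 (by omega) (by norm_num)
        (by norm_num) (by norm_num) (by norm_num; omega) o105 (num42 K hKa) hf hc hcov
    · exact mac_use h hM hp hK5 (C := 500) (by norm_num) (by omega) hY hJ hJp tab hrep hΛ hI hy
        (kk := 32) (w := 16384) (a := 2551) [3, 5, 7] pd53 (by norm_num) s15 t15 (by omega) (by norm_num)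
        (by norm_num) (by norm_num) (by norm_num; omega) o105 (num52 K k4) hf hc hcov
  by_cases c3 : ∃ f ∈ evs M K V, Nat.Coprime 3 f
  · obtain ⟨f, hf, hc⟩ := c3
    have hcov : ∀ f ∈ evs M K V, ∃ p ∈ ([3, 5] : List ℕ), p ∣ f :=
      fun f hf => not_cop (m := 15) (by norm_num) q15 (fun hc => c15 ⟨f, hf, hc⟩)
    rcases lt_or_ge K 100000000 with k4 | k4
    · exact mac_use h hM hp hK5 (C := 500) (by norm_num) (by omega) hY hJ hJp tab hrep hΛ hI hy
        (kk := 13) (w := 256) (a := 2453) [3, 5] pd23 (by norm_num) s3 t3 (by omega) (by norm_num)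
        (by norm_num) (by norm_num) (by norm_num; omega) o15 (num41 K hKa) hf hc hcov
    · exact mac_use h hM hp hK5 (C := 500) (by norm_num) (by omega) hY hJ hJp tab hrep hΛ hI hy
        (kk := 32) (w := 16384) (a := 2080) [3, 5] pd47 (by norm_num) s3 t3 (by omega) (by norm_num)
        (by norm_num) (by norm_num) (by norm_num; omega) o15 (num51 K k4) hf hc hcov
  have hcov : ∀ f ∈ evs M K V, ∃ p ∈ ([3] : List ℕ), p ∣ f :=
    fun f hf => not_cop (m := 3) (by norm_num) q3 (fun hc => c3 ⟨f, hf, hc⟩)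
  rcases lt_or_ge K 100000000 with k4 | k4
  · exact mac_use h hM hp hK5 (C := 500) (by norm_num) (by omega) hY hJ hJp tab hrep hΛ hI hy
      (kk := 13) (w := 256) (a := 1710) [3] pd19 (by norm_num) s1 t1 (by omega) (by norm_num)
      (by norm_num) (by norm_num) (by norm_num; omega) o3 (num40 K hKa) hg (Nat.coprime_one_left g) hcov
  · exact mac_use h hM hp hK5 (C := 500) (by norm_num) (by omega) hY hJ hJp tab hrep hΛ hI hy
      (kk := 32) (w := 32768) (a := 1387) [3] pd47 (by norm_num) s1 t1 (by omega) (by norm_num)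
      (by norm_num) (by norm_num) (by norm_num; omega) o3 (num50 K k4) hg (Nat.coprime_one_left g) hcov

/-- **R2.** The count for a prime `M = 2 n + K`. -/
theorem mac_R2 {n K M : ℕ} {V : Finset ℕ} (h : Cex n V) (hM : M = 2 * n + K) (hp : M.Prime)
    (hK5 : 5 ≤ K) (hKb : K ≤ 10 ^ 19) (hKn : 350 * K ≤ n) (hKn2 : K < 2000 ∨ 500 * K ≤ n)
    {Y : Finset ℕ} {J : List (ℕ × ℕ)} (hY : ∀ b ∈ Y, 0 < b ∧ b < M)
    (hJ : ∀ a ∈ J, 501 ≤ a.1 ∧ a.1 < a.2 ∧ a.2 ≤ 747) (hJp : J.Pairwise (fun a b => a.2 < b.1))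
    (tab : Tab M V Y J) {rep : ℕ → ℕ} (hrep : RepOK Y rep) (hΛ : 142 ≤ jlen J)
    (hI : J.length ≤ 12) (hy : (Y.image rep).card ≤ 50) : False := by
  rcases lt_or_ge K 190000 with hK | hK
  · exact mac_R2a h hM hp hK5 hK hKn hKn2 hY hJ hJp tab hrep hΛ hI hy
  · exact mac_R2b h hM hp hK hKb hKn hKn2 hY hJ hJp tab hrep hΛ hI hy

end Pool.Agent.LR4
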