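import Mathlib
import Pool.Agent.LR4.Acct

/-!
Lonely runner with speeds at most `2 n`: the case `2 n + 1` prime.
-/

namespace Pool.Agent.LR4

open Finset

/-- There is no counterexample if `2 n + 1` is prime. -/
theorem no_of_prime1 {n : ℕ} {V : Finset ℕ} (h : Cex n V) (hp : Nat.Prime (2 * n + 1)) :
    False := by
  have hn := h.two
  have hrefl : ∀ x, 1 ≤ x → x ≤ n → x ∉ V → 2 * n + 1 - x ∈ V := by
    intro x h1 h2 hx
    refine h.refl1 (x := x) (y := 2 * n + 1 - x) (by omega) (by omega) (by omega) ?_ hx
    rw [Nat.coprime_sub_self_right (by omega)]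
    rw [Nat.coprime_comm, Nat.Prime.coprime_iff_not_dvd hp]
    intro hd
    have := Nat.le_of_dvd (by omega) hd
    omega
  -- exactly one element of each pair
  have hcount : ∀ z ∈ V, (∀ x, 1 ≤ x → x ≤ n → z ≠ if x ∈ V then x else 2 * n + 1 - x) →
      False := by
    intro z hz hz2
    have h3 : (Icc 1 n).card ≤ (V.erase z).card := by
      refine Finset.card_le_card_of_injOn (fun x => if x ∈ V then x else 2 * n + 1 - x) ?_ ?_
      · intro x hx
        rw [Finset.mem_coe, mem_Icc] at hx
        rw [Finset.mem_coe, mem_erase]
        refine ⟨fun hc => hz2 x hx.1 hx.2 hc.symm, ?_⟩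
        by_cases h4 : x ∈ V
        · simp only [h4, if_true]
        · simp only [h4, if_false]
          exact hrefl x hx.1 hx.2 h4
      · intro x hx y hy hxy
        rw [Finset.mem_coe, mem_Icc] at hx hy
        simp only at hxy
        by_cases h4 : x ∈ V <;> by_cases h5 : y ∈ V
        · simpa only [h4, h5, if_true] using hxy
        · simp only [h4, h5, if_true, if_false] at hxy
          omega
        · simp only [h4, h5, if_true, if_false] at hxy
          omega
        · simp only [h4, h5, if_false] at hxy
          omega
    rw [Finset.card_erase_of_mem hz, h.card, Nat.card_Icc] at h3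
    omega
  have hnV : n ∉ V := by
    intro hc
    refine hcount (n + 1) h.succ ?_
    intro x h1 h2
    by_cases h4 : x ∈ V
    · simp only [h4, if_true]
      omega
    · simp only [h4, if_false]
      intro h5
      have : x = n := by omega
      rw [this] at h4
      exact h4 hc
  have h2n : 2 * n ∈ V := h.dblHigh (by omega) le_rfl hnV
  refine hcount (2 * n) h2n ?_
  intro x h1 h2
  by_cases h4 : x ∈ V
  · simp only [h4, if_true]
    omega
  · simp only [h4, if_false]
    intro h5
    have : x = 1 := by omega
    rw [this] at h4
    exact h4 h.one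

end Pool.Agent.LR4
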