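import Mathlib
import Pool.Agent.LR4.MacFin
import Pool.Agent.LR4.Prime1

/-!
Lonely runner with speeds at most `2 n`: the three ranges of `n` together.
-/

namespace Pool.Agent.LR4

open Finset

/-- The statement of the table: a window `J`, labels `Y`. -/
def TabAll (Y : Finset ℕ) (J : List (ℕ × ℕ)) : Prop :=
  ∀ n K M : ℕ, ∀ V : Finset ℕ, Cex n V → M = 2 * n + K → Odd M → 3 ≤ K → 700 * K ≤ M →
    (∀ p, p.Prime → p ∣ M → 320 < p) → Tab M V Y J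

/-- All three ranges. -/
theorem no_cex_of {Y : Finset ℕ} {J : List (ℕ × ℕ)} {rep : ℕ → ℕ} {EX : List (ℕ × ℕ × ℕ)}
    (hY : ∀ b ∈ Y, 0 < b ∧ b ≤ 320)
    (hJ : ∀ a ∈ J, 501 ≤ a.1 ∧ a.1 < a.2 ∧ a.2 ≤ 747) (hJp : J.Pairwise (fun a b => a.2 < b.1))
    (tab : TabAll Y J) (hrep : RepOK Y rep) (hL : 142 ≤ jlen J) (hI : J.length ≤ 12)
    (hy : (Y.image rep).card ≤ 50)
    (r1small : ∀ n : ℕ, ∀ V : Finset ℕ, Cex n V → n < 2600 → False)
    (r1big : ∀ n : ℕ, ∀ V : Finset ℕ, Cex n V → ∀ e ∈ EX, e.2.1 ≤ n → n ≤ e.2.2 → False)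
    (tabP : ∀ n : ℕ, 2600 ≤ n → n < 10 ^ 21 → (∃ e ∈ EX, e.2.1 ≤ n ∧ n ≤ e.2.2) ∨
      ∃ K, Nat.Prime (2 * n + K) ∧ (K = 1 ∨ K = 3 ∨
        (5 ≤ K ∧ 350 * K ≤ n ∧ (n < 436996 ∨ 500 * K ≤ n))))
    (r3 : ∀ n : ℕ, ∀ V : Finset ℕ, Cex n V → 10 ^ 21 ≤ n → False) :
    ∀ n : ℕ, ∀ V : Finset ℕ, ¬ Cex n V := by
  intro n V h
  rcases Nat.lt_or_ge n 2600 with h1 | h1
  · exact r1small n V h h1
  rcases Nat.lt_or_ge n (10 ^ 21) with h2 | h2
  · rcases tabP n h1 h2 with ⟨e, he, h3, h4⟩ | ⟨K, hp, hK⟩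
    · exact r1big n V h e he h3 h4
    · rcases hK with rfl | rfl | ⟨h5, h6, h7⟩
      · exact no_of_prime1 h hp
      · exact no_of_prime3 h hp (by omega)
      · have hodd : Odd (2 * n + K) := hp.odd_of_ne_two (by omega)
        have ht : Tab (2 * n + K) V Y J := tab n K _ V h rfl hodd (by omega) (by omega) (by
          intro p hp2 hd
          rcases (Nat.dvd_prime hp).1 hd with h8 | h8
          · rw [h8] at hp2
            exact absurd hp2 (by norm_num)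
          · omega)
        refine mac_R2 h rfl hp h5 ?_ h6 (by omega) (fun b hb => ⟨(hY b hb).1, ?_⟩) hJ hJp ht hrep hL hI hy
        · have h9 : (10 : ℕ) ^ 21 = 100 * 10 ^ 19 := by norm_num
          omega
        · have := (hY b hb).2
          omega
  · exact r3 n V h h2

end Pool.Agent.LR4
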