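import Mathlib
import Pool.Agent.LR4.R3Defs

/-!
Lonely runner with speeds at most `2 n`, large `n`: if all even numbers up to `0.48 M` are speeds
then the counting facts give a contradiction.

`gx_one`, `gx_two`, `gx_three`: an odd speed `u` between `0.52 M` and `M - 2 K` has `(M - u) / 2`
exceptional. `gx_X`: every odd number up to `0.334 M` is a speed. `gx`: the contradiction.
-/

namespace Pool.Agent.LR4

open Finset

section gx

variable {n K M : ℕ} {V : Finset ℕ}

theorem gx_one (hodd : M % 2 = 1) (hev : ∀ q, q % 2 = 0 → 0 < q → 100 * q ≤ 48 * M → q ∈ V)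
    {u : ℕ} (hu4 : u % 4 = M % 4) (h52 : 52 * M ≤ 100 * u) (huM : u < M) (huV : u ∈ V) :
    (M - u) / 2 ∈ Exc M V := by
  by_contra hc
  have h1 : M - 2 * ((M - u) / 2) = u := by omega
  have h2 := exc_rule (V := V) (X := (M - u) / 2) (by omega) (by omega)
    (hev _ (by omega) (by omega) (by omega)) (by rw [h1]; exact huV) hc
  exact h2.1 (hev _ (by omega) (by omega) (by omega))

theorem g_pair (h : Cex n V) (hM : M = 2 * n + K) (hKM : 1000 * K ≤ M) (hK3 : 3 ≤ K) {a u : ℕ}
    (ha : a ∉ V) (hz : M - a ∉ V) (haK : K ≤ a) (ha24 : 100 * a ≤ 24 * M)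
    (hu52 : 52 * M ≤ 100 * u) (hu60 : 100 * u ≤ 60 * M) (huV : u ∉ V) (hc1 : Nat.Coprime u a)
    (hc2 : Nat.Coprime u (M - a)) : a + u ∈ V ∧ M - a - u ∈ V := by
  constructor
  · exact h.tri (by omega) (by omega) (Nat.coprime_comm.1 hc1) (by omega) (by omega)
      (Or.inr ⟨by omega, Or.inr (by omega)⟩) ha huV
  · by_contra h1
    have hcc : Nat.Coprime (M - a - u) u :=
      (Nat.coprime_sub_self_left (by omega)).2 (Nat.coprime_comm.1 hc2)
    have h3 : (M - a - u) + u = M - a := by omega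
    have h2 := h.tri (x := M - a - u) (y := u) (by omega) (by omega) hcc (by omega) (by omega)
      (Or.inr ⟨by omega, by
        by_cases h4 : 100 * (M - a) ≤ 89 * M
        · right; omega
        · left; omega⟩) h1 huV
    rw [h3] at h2
    exact hz h2

theorem gx_two (h : Cex n V) (hM : M = 2 * n + K) (hKM : 1000 * K ≤ M) (hK3 : 3 ≤ K)
    (hodd : M % 2 = 1) (hM0 : 10 ^ 6 ≤ M)
    (hev : ∀ q, q % 2 = 0 → 0 < q → 100 * q ≤ 48 * M → q ∈ V) {E T1 T2 : ℕ}
    (hE : (Exc M V).card ≤ E) (hC : Cnt M T1 T2) (h1 : 2 * E < T1) {a : ℕ} (ha2 : a % 2 = 1)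
    (ha4 : a % 4 ≠ M % 4) (haK : K ≤ a) (ha24 : 100 * a ≤ 24 * M) (huV : M - 2 * a ∈ V) :
    a ∈ Exc M V := by
  by_contra hc
  obtain ⟨haV, hzV⟩ := exc_rule (V := V) (X := a) (by omega) (by omega)
    (hev _ (by omega) (by omega) (by omega)) huV hc
  have hcard := hC.one (a * (M - a)) M 7 7 (52 * M / 100 + 1) (60 * M / 100)
    (Nat.mul_pos (by omega) (by omega)) (Nat.mul_le_mul (by omega) (by omega)) (fun _ => rfl)
    (by omega) (by omega) (by omega)
  obtain ⟨S, hS⟩ : ∃ S, S = cn1 (52 * M / 100 + 1) (60 * M / 100) M (a * (M - a)) 7 7 := ⟨_, rfl⟩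
  rw [← hS] at hcard
  have hmem : ∀ u ∈ S, (52 * M / 100 + 1 ≤ u ∧ u < 60 * M / 100) ∧ u % 8 = M % 8 ∧
      Nat.Coprime u a ∧ Nat.Coprime u (M - a) := by
    intro u hu
    rw [hS, cn1, mem_filter, mem_Ico] at hu
    obtain ⟨h2, h3, h4, -, -⟩ := hu
    exact ⟨h2, h3, (Nat.coprime_mul_iff_right.1 h4).1, (Nat.coprime_mul_iff_right.1 h4).2⟩
  have h2 : S.card ≤ 2 * (Exc M V).card := by
    refine cover2 (f := fun u => (M - u) / 2) (g := fun u => (a + u) / 2) ?_ ?_ ?_
    · intro u hu v hv huv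
      obtain ⟨h3, h4, -⟩ := hmem u hu
      obtain ⟨h5, h6, -⟩ := hmem v hv
      simp only at huv
      omega
    · intro u hu v hv huv
      obtain ⟨h3, h4, -⟩ := hmem u hu
      obtain ⟨h5, h6, -⟩ := hmem v hv
      simp only at huv
      omega
    · intro u hu
      obtain ⟨h3, h4, h5, h6⟩ := hmem u hu
      by_cases h7 : u ∈ V
      · left
        exact gx_one hodd hev (by omega) (by omega) (by omega) h7
      · right
        by_contra h8
        obtain ⟨h9, h10⟩ := g_pair h hM hKM hK3 haV hzV haK ha24 (by omega) (by omega) h7 h5 h6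
        have e1 : 2 * ((a + u) / 2) = a + u := by omega
        have e2 : M - 2 * ((a + u) / 2) = M - a - u := by omega
        have h11 := exc_rule (V := V) (X := (a + u) / 2) (by omega) (by omega)
          (by rw [e1]; exact h9) (by rw [e2]; exact h10) h8
        exact h11.1 (hev _ (by omega) (by omega) (by omega))
  omega

theorem gx_three (h : Cex n V) (hM : M = 2 * n + K) (hKM : 1000 * K ≤ M) (hK3 : 3 ≤ K)
    (hodd : M % 2 = 1) (hM0 : 10 ^ 6 ≤ M)
    (hev : ∀ q, q % 2 = 0 → 0 < q → 100 * q ≤ 48 * M → q ∈ V) {E T1 T2 : ℕ}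
    (hE : (Exc M V).card ≤ E) (hC : Cnt M T1 T2) (h1 : 2 * E < T1) {a : ℕ} (ha2 : a % 2 = 1)
    (ha4 : a % 4 = M % 4) (haK : K ≤ a) (ha24 : 100 * a ≤ 24 * M) (huV : M - 2 * a ∈ V) :
    a ∈ Exc M V := by
  by_contra hc
  obtain ⟨haV, hzV⟩ := exc_rule (V := V) (X := a) (by omega) (by omega)
    (hev _ (by omega) (by omega) (by omega)) huV hc
  -- first choice
  obtain ⟨u, hu1, hu2, hu3, hu4, hu5, hu6⟩ : ∃ u, (52 * M / 100 + 1 ≤ u ∧ u < 58 * M / 100) ∧
      u % 8 = (6 * M + 7 * a) % 8 ∧ Nat.Coprime u a ∧ Nat.Coprime u (M - a) ∧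
      (M - u) / 2 ∉ Exc M V ∧ (a + u) / 2 ∉ Exc M V := by
    have hcard := hC.one (a * (M - a)) (6 * M + 7 * a) 7 7 (52 * M / 100 + 1) (58 * M / 100)
      (Nat.mul_pos (by omega) (by omega)) (Nat.mul_le_mul (by omega) (by omega)) (fun _ => rfl)
      (by omega) (by omega) (by omega)
    obtain ⟨S, hS⟩ : ∃ S, S = cn1 (52 * M / 100 + 1) (58 * M / 100) (6 * M + 7 * a)
      (a * (M - a)) 7 7 := ⟨_, rfl⟩
    rw [← hS] at hcard
    have hmem : ∀ u ∈ S, (52 * M / 100 + 1 ≤ u ∧ u < 58 * M / 100) ∧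
        u % 8 = (6 * M + 7 * a) % 8 ∧ Nat.Coprime u a ∧ Nat.Coprime u (M - a) := by
      intro u hu
      rw [hS, cn1, mem_filter, mem_Ico] at hu
      obtain ⟨h2, h3, h4, -, -⟩ := hu
      exact ⟨h2, h3, (Nat.coprime_mul_iff_right.1 h4).1, (Nat.coprime_mul_iff_right.1 h4).2⟩
    by_contra hno
    push Not at hno
    have h2 : S.card ≤ 2 * (Exc M V).card := by
      refine cover2 (f := fun u => (M - u) / 2) (g := fun u => (a + u) / 2) ?_ ?_ ?_
      · intro u hu v hv huv
        obtain ⟨h3, h4, -⟩ := hmem u hu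
        obtain ⟨h5, h6, -⟩ := hmem v hv
        simp only at huv
        omega
      · intro u hu v hv huv
        obtain ⟨h3, h4, -⟩ := hmem u hu
        obtain ⟨h5, h6, -⟩ := hmem v hv
        simp only at huv
        omega
      · intro u hu
        obtain ⟨h3, h4, h5, h6⟩ := hmem u hu
        by_cases h7 : (M - u) / 2 ∈ Exc M V
        · exact Or.inl h7
        · exact Or.inr (hno u h3 h4 h5 h6 h7)
    omega
  have hu7 : u ∉ V := fun h2 => hu5 (gx_one hodd hev (by omega) (by omega) (by omega) h2)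
  obtain ⟨h9, h10⟩ := g_pair h hM hKM hK3 haV hzV haK ha24 (by omega) (by omega) hu7 hu3 hu4
  obtain ⟨X, hX⟩ : ∃ X, X = (a + u) / 2 := ⟨_, rfl⟩
  rw [← hX] at hu6
  have e1 : 2 * X = a + u := by omega
  have e2 : M - 2 * X = M - a - u := by omega
  obtain ⟨hXV, hsV⟩ := exc_rule (V := V) (X := X) (by omega) (by omega)
    (by rw [e1]; exact h9) (by rw [e2]; exact h10) hu6
  have hX4 : X % 4 = (3 * M) % 4 := by omega
  have hX1 : 26 * M ≤ 100 * X := by omega
  have hX2 : 100 * X ≤ 41 * M := by omega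
  -- second choice
  have hcard := hC.one (X * (M - X)) M 7 7 (52 * M / 100 + 1) (55 * M / 100)
    (Nat.mul_pos (by omega) (by omega)) (Nat.mul_le_mul (by omega) (by omega)) (fun _ => rfl)
    (by omega) (by omega) (by omega)
  obtain ⟨S, hS⟩ : ∃ S, S = cn1 (52 * M / 100 + 1) (55 * M / 100) M (X * (M - X)) 7 7 := ⟨_, rfl⟩
  rw [← hS] at hcard
  have hmem : ∀ v ∈ S, (52 * M / 100 + 1 ≤ v ∧ v < 55 * M / 100) ∧ v % 8 = M % 8 ∧
      Nat.Coprime v X ∧ Nat.Coprime v (M - X) := by
    intro v hv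
    rw [hS, cn1, mem_filter, mem_Ico] at hv
    obtain ⟨h2, h3, h4, -, -⟩ := hv
    exact ⟨h2, h3, (Nat.coprime_mul_iff_right.1 h4).1, (Nat.coprime_mul_iff_right.1 h4).2⟩
  have h2 : S.card ≤ 2 * (Exc M V).card := by
    refine cover2 (f := fun v => (M - v) / 2) (g := fun v => (X + v) / 2) ?_ ?_ ?_
    · intro u' hu' v hv huv
      obtain ⟨h3, h4, -⟩ := hmem u' hu'
      obtain ⟨h5, h6, -⟩ := hmem v hv
      simp only at huv
      omega
    · intro u' hu' v hv huv
      obtain ⟨h3, h4, -⟩ := hmem u' hu'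
      obtain ⟨h5, h6, -⟩ := hmem v hv
      simp only at huv
      omega
    · intro v hv
      obtain ⟨h3, h4, h5, h6⟩ := hmem v hv
      by_cases h7 : v ∈ V
      · left
        exact gx_one hodd hev (by omega) (by omega) (by omega) h7
      · right
        by_contra h8
        have t1 : X + v ∈ V := h.tri (by omega) (by omega) (Nat.coprime_comm.1 h5) (by omega)
          (by omega) (Or.inr ⟨by omega, Or.inl (by omega)⟩) hXV h7
        have t2 : M - X - v ∈ V := by
          by_contra h12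
          have hcc : Nat.Coprime (M - X - v) v :=
            (Nat.coprime_sub_self_left (by omega)).2 (Nat.coprime_comm.1 h6)
          have h13 : (M - X - v) + v = M - X := by omega
          have h14 := h.tri (x := M - X - v) (y := v) (by omega) (by omega) hcc (by omega)
            (by omega) (Or.inr ⟨by omega, Or.inr (by omega)⟩) h12 h7
          rw [h13] at h14
          exact hsV h14
        have e3 : 2 * ((X + v) / 2) = X + v := by omega
        have e4 : M - 2 * ((X + v) / 2) = M - X - v := by omega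
        have h11 := exc_rule (V := V) (X := (X + v) / 2) (by omega) (by omega)
          (by rw [e3]; exact t1) (by rw [e4]; exact t2) h8
        exact h11.1 (hev _ (by omega) (by omega) (by omega))
  omega

theorem gx_G (h : Cex n V) (hM : M = 2 * n + K) (hKM : 1000 * K ≤ M) (hK3 : 3 ≤ K)
    (hodd : M % 2 = 1) (hM0 : 10 ^ 6 ≤ M)
    (hev : ∀ q, q % 2 = 0 → 0 < q → 100 * q ≤ 48 * M → q ∈ V) {E T1 T2 : ℕ}
    (hE : (Exc M V).card ≤ E) (hC : Cnt M T1 T2) (h1 : 2 * E < T1) {u : ℕ} (hu2 : u % 2 = 1)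
    (h52 : 52 * M ≤ 100 * u) (huM : u + 2 * K ≤ M) (huV : u ∈ V) :
    (M - u) / 2 ∈ Exc M V := by
  by_cases hu4 : u % 4 = M % 4
  · exact gx_one hodd hev hu4 h52 (by omega) huV
  · have e1 : M - 2 * ((M - u) / 2) = u := by omega
    by_cases ha : ((M - u) / 2) % 4 = M % 4
    · exact gx_three h hM hKM hK3 hodd hM0 hev hE hC h1 (by omega) ha (by omega) (by omega)
        (by rw [e1]; exact huV)
    · exact gx_two h hM hKM hK3 hodd hM0 hev hE hC h1 (by omega) ha (by omega) (by omega)
        (by rw [e1]; exact huV)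

theorem gx_X (h : Cex n V) (hM : M = 2 * n + K) (hKM : 1000 * K ≤ M) (hK3 : 3 ≤ K)
    (hodd : M % 2 = 1) (hM0 : 10 ^ 6 ≤ M)
    (hev : ∀ q, q % 2 = 0 → 0 < q → 100 * q ≤ 48 * M → q ∈ V) {E T1 T2 : ℕ}
    (hE : (Exc M V).card ≤ E) (hC : Cnt M T1 T2) (h1 : 2 * E < T1) (h2 : 3 * E < T2) {x : ℕ}
    (hx2 : x % 2 = 1) (hx : 1000 * x ≤ 334 * M) : x ∈ V := by
  by_contra hxV
  have hcard := hC.two x (n + 1) (7 * x) (M - x) (521 * M / 1000 + 1) (58 * M / 100)
    (by omega) (by omega) (by omega) (by omega) (by omega) (by omega) (by omega) (by omega)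
    (by omega)
  obtain ⟨S, hS⟩ : ∃ S, S = cn2 (521 * M / 1000 + 1) (58 * M / 100) (7 * x) x (M - x) (n + 1) :=
    ⟨_, rfl⟩
  rw [← hS] at hcard
  have hmem : ∀ u ∈ S, (521 * M / 1000 + 1 ≤ u ∧ u < 58 * M / 100) ∧ u % 8 = (7 * x) % 8 ∧
      Nat.Coprime u x ∧ Nat.Coprime (M - x - u) (n + 1) := by
    intro u hu
    rw [hS, cn2, mem_filter, mem_Ico] at hu
    exact hu
  have h3 : S.card ≤ 3 * (Exc M V).card := by
    refine cover3 (f := fun u => (M - u) / 2) (g := fun u => (x + u) / 2)
      (k := fun u => (M - (x + u + 2 - K)) / 2) ?_ ?_ ?_ ?_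
    · intro u hu v hv huv
      obtain ⟨h3, h4, -⟩ := hmem u hu
      obtain ⟨h5, h6, -⟩ := hmem v hv
      simp only at huv
      omega
    · intro u hu v hv huv
      obtain ⟨h3, h4, -⟩ := hmem u hu
      obtain ⟨h5, h6, -⟩ := hmem v hv
      simp only at huv
      omega
    · intro u hu v hv huv
      obtain ⟨h3, h4, -⟩ := hmem u hu
      obtain ⟨h5, h6, -⟩ := hmem v hv
      simp only at huv
      omega
    · intro u hu
      obtain ⟨h3, h4, h5, h6⟩ := hmem u hu
      by_cases h7 : u ∈ V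
      · left
        exact gx_G h hM hKM hK3 hodd hM0 hev hE hC h1 (by omega) (by omega) (by omega) h7
      · right
        have t1 : x + u ∈ V := h.tri (by omega) (by omega) (Nat.coprime_comm.1 h5) (by omega)
          (by omega) (Or.inr ⟨by omega, Or.inr (by omega)⟩) hxV h7
        by_cases h8 : (x + u) / 2 ∈ Exc M V
        · exact Or.inl h8
        · right
          have e1 : 2 * ((x + u) / 2) = x + u := by omega
          have e2 : M - 2 * ((x + u) / 2) = M - x - u := by omega
          have hx1 : M - x - u ∉ V := by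
            intro h9
            have h11 := exc_rule (V := V) (X := (x + u) / 2) (by omega) (by omega)
              (by rw [e1]; exact t1) (by rw [e2]; exact h9) h8
            exact h11.1 (hev _ (by omega) (by omega) (by omega))
          have hp : x + u + 2 - K ∈ V := by
            refine h.refl2 (x := M - x - u) (y := x + u + 2 - K) (by omega) (by omega) (by omega)
              ?_ hx1
            have e3 : x + u + 2 - K = (2 * n + 2) - (M - x - u) := by omega
            rw [e3, Nat.coprime_sub_self_right (by omega)]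
            have e4 : 2 * n + 2 = 2 * (n + 1) := by ring
            rw [e4]
            exact Nat.Coprime.mul_right (Nat.coprime_comm.1 (Nat.coprime_two_left.2
              (Nat.odd_iff.2 (by omega)))) h6
          exact gx_G h hM hKM hK3 hodd hM0 hev hE hC h1 (by omega) (by omega) (by omega) hp
  omega

theorem gx (h : Cex n V) (hM : M = 2 * n + K) (hodd : Odd M) (hK3 : 3 ≤ K)
    (hKM : 1000 * K ≤ M) (hM0 : 10 ^ 6 ≤ M) {E T1 T2 : ℕ} (hE : (Exc M V).card ≤ E)
    (hC : Cnt M T1 T2) (h1 : 2 * E < T1) (h2 : 3 * E < T2)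
    (hev : ∀ q, q % 2 = 0 → 0 < q → 100 * q ≤ 48 * M → q ∈ V) : False := by
  have hodd2 : M % 2 = 1 := Nat.odd_iff.1 hodd
  have hsmall : ∀ x, 0 < x → 3 * x ≤ 2 * n → x ∈ V := by
    intro x hx0 hx
    rcases Nat.mod_two_eq_zero_or_one x with h3 | h3
    · exact hev x h3 hx0 (by omega)
    · exact gx_X h hM (by omega) hK3 hodd2 hM0 hev hE hC h1 h2 h3 (by omega)
  have h3 : (Icc 1 (n + 1)).card ≤ V.card := by
    refine Finset.card_le_card_of_injOn (fun j => if j ∈ V then j else 2 * j) ?_ ?_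
    · intro j hj
      rw [Finset.mem_coe, mem_Icc] at hj
      rw [Finset.mem_coe]
      by_cases h4 : j ∈ V
      · simp only [h4, if_true]
      · simp only [h4, if_false]
        have h5 : j ≠ n + 1 := by
          rintro rfl
          exact h4 h.succ
        have h6 : 2 * n < 3 * j := by
          by_contra h7
          exact h4 (hsmall j (by omega) (by omega))
        exact h.dblHigh h6 (by omega) h4
    · intro i hi j hj hij
      rw [Finset.mem_coe, mem_Icc] at hi hj
      simp only at hij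
      by_cases h4 : i ∈ V <;> by_cases h5 : j ∈ V
      · simpa only [h4, h5, if_true] using hij
      · simp only [h4, h5, if_true, if_false] at hij
        have h6 : 2 * n < 3 * j := by
          by_contra h7
          exact h5 (hsmall j (by omega) (by omega))
        omega
      · simp only [h4, h5, if_true, if_false] at hij
        have h6 : 2 * n < 3 * i := by
          by_contra h7
          exact h4 (hsmall i (by omega) (by omega))
        omega
      · simp only [h4, h5, if_false] at hij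
        omega
  rw [Nat.card_Icc, h.card] at h3
  omega

end gx

end Pool.Agent.LR4
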