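import Mathlib
import Pool.Agent.LR4.AB
import Pool.Agent.LR4.GX

/-!
Lonely runner with speeds at most `2 n`, large `n`: the contradiction from few odd speeds in the
window (`F1`) and the counting facts (`Cnt`).
-/

namespace Pool.Agent.LR4

open Finset

theorem r3_core {n K M E Z T1 T2 : ℕ} {V : Finset ℕ} (h : Cex n V) (hM : M = 2 * n + K)
    (hodd : Odd M) (hK3 : 3 ≤ K) (hKM : 1000 * K ≤ M) (hM0 : 10 ^ 6 ≤ M) (hF : F1 M V Z)
    (hE : (Exc M V).card ≤ E) (hC : Cnt M T1 T2) (h1 : Z + E < 2 * T1) (h2 : 2 * E < T1)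
    (h3 : 3 * E < T2) : False :=
  gx h hM hodd hK3 hKM hM0 hE hC h2 h3 (ab h hM hodd hK3 hKM hM0 hF hE hC h1)

/-- The number of lossy labels, from the exact accounting. -/
theorem labL_le {n K M D : ℕ} {V : Finset ℕ} (h : Cex n V) (hM : M = 2 * n + K)
    (hodd : Odd M) (hK3 : 3 ≤ K) (hKM : 1000 * K ≤ M) (_hM1 : 1 < M)
    (hD : ((range M).filter (fun x => ¬ Nat.Coprime x M)).card ≤ D) :
    2 * (labL M V).card + 6 ≤ D + K := by
  have h1 := acct h hM hodd hK3 (by omega)
  have h2 : 2 * (evs M K V).card ≤ K - 3 := by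
    have h3 : evs M K V ⊆ (Icc 1 ((K - 3) / 2)).image (fun i => 2 * i) := by
      intro e he
      rw [evs, mem_filter, mem_Icc] at he
      obtain ⟨⟨h4, h5⟩, ⟨⟨y, hy⟩, -⟩, -⟩ := he
      exact mem_image.2 ⟨y, mem_Icc.2 ⟨by omega, by omega⟩, by omega⟩
    have h4 := (Finset.card_le_card h3).trans Finset.card_image_le
    rw [Nat.card_Icc] at h4
    omega
  have h3 : M.totient + ((range M).filter (fun x => ¬ Nat.Coprime x M)).card = M := by
    have h4 : M.totient = ((range M).filter (fun x => Nat.Coprime x M)).card := by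
      rw [Nat.totient]
      congr 1
      ext x
      rw [mem_filter, mem_filter, Nat.coprime_comm]
    rw [h4, Finset.card_filter_add_card_filter_not, card_range]
  omega

theorem nuS_le {M D : ℕ}
    (hD : ((range M).filter (fun x => ¬ Nat.Coprime x M)).card ≤ D) : (nuS M).card ≤ D := by
  refine (Finset.card_le_card ?_).trans hD
  intro X hX
  rw [nuS, mem_filter, mem_Icc] at hX
  rw [mem_filter, mem_range]
  exact ⟨by omega, hX.2⟩

theorem r3_main {n K M D y T1 T2 : ℕ} {V : Finset ℕ} (h : Cex n V) (hM : M = 2 * n + K)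
    (hodd : Odd M) (hK3 : 3 ≤ K) (hKM : 1000 * K ≤ M) (hM0 : 10 ^ 6 ≤ M)
    (hF : F1 M V (y * (labL M V).card + (nuS M).card))
    (hD : ((range M).filter (fun x => ¬ Nat.Coprime x M)).card ≤ D)
    (hC : Cnt M T1 T2) (h1 : (y + 1) * (D + K) + 4 * D < 4 * T1) (h2 : 3 * D + K < T1)
    (h3 : 9 * D + 3 * K < 2 * T2) : False := by
  have h4 := labL_le h hM hodd hK3 hKM (by omega) hD
  have h5 := nuS_le hD
  have hE : (Exc M V).card ≤ (labL M V).card + (nuS M).card := Finset.card_union_le _ _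
  refine r3_core h hM hodd hK3 hKM hM0 hF hE hC ?_ (by omega) (by omega)
  have h6 : (y + 1) * (2 * (labL M V).card) ≤ (y + 1) * (D + K) :=
    Nat.mul_le_mul_left _ (by omega)
  have h7 : (y + 1) * (2 * (labL M V).card) =
      2 * (y * (labL M V).card) + 2 * (labL M V).card := by ring
  omega

end Pool.Agent.LR4
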