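import Mathlib

/-!
# LR4 / PhiLL: `m / φ(m) ≤ (2/13) t²` for `m < 2 ^ (2 ^ t)`, `t ≥ 10`

A lower bound for Euler's function with `(log log m)²` instead of `log log m`, elementary:
the primes of `[2^j, 2^(j+1))` are at most `2^(j+1) / j` in number (central binomial
coefficient), and `m` has fewer than `2^t / t` prime factors `≥ 2^t`.
-/

set_option autoImplicit false

namespace Pool.Agent.LR4

open Finset

/-- the primes in `[2^j, 2^(j+1))` -/
def phiDy (j : ℕ) : Finset ℕ := (Ico (2 ^ j) (2 ^ (j + 1))).filter Nat.Prime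

theorem phiDy_card (j : ℕ) (hj : 2 ≤ j) : j * (phiDy j).card ≤ 2 ^ (j + 1) := by
  have hnp : ¬ (2 ^ j).Prime := by
    intro h
    exact Nat.Prime.not_prime_pow hj h
  have h1 : ∏ p ∈ phiDy j, p ≤
      ∏ p ∈ (Ico (2 ^ j + 1) (2 ^ j + 2 ^ j + 1)).filter Nat.Prime, p := by
    apply Finset.prod_le_prod_of_subset_of_one_le'
    · intro p hp
      obtain ⟨h2, h3⟩ := mem_filter.1 hp
      obtain ⟨h4, h5⟩ := mem_Ico.1 h2
      have h6 : p ≠ 2 ^ j := fun h => hnp (h ▸ h3)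
      refine mem_filter.2 ⟨mem_Ico.2 ⟨by omega, ?_⟩, h3⟩
      rw [pow_succ] at h5
      omega
    · intro p hp _
      exact (mem_filter.1 hp).2.one_le
  have h2 : primorial (2 ^ j + 2 ^ j) ≤
      primorial (2 ^ j) * Nat.choose (2 ^ j + 2 ^ j) (2 ^ j) := primorial_add_le le_rfl
  rw [primorial_add] at h2
  have h3 := Nat.le_of_mul_le_mul_left h2 (primorial_pos _)
  have h4 : (2 ^ j) ^ (phiDy j).card ≤ ∏ p ∈ phiDy j, p := by
    rw [← Finset.prod_const]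
    exact Finset.prod_le_prod' (fun p hp => (mem_Ico.1 (mem_filter.1 hp).1).1)
  have h5 : Nat.choose (2 ^ j + 2 ^ j) (2 ^ j) ≤ 2 ^ (2 ^ j + 2 ^ j) := Nat.choose_le_two_pow _ _
  have h6 : 2 ^ (j * (phiDy j).card) ≤ 2 ^ (2 ^ (j + 1)) := by
    calc 2 ^ (j * (phiDy j).card) = (2 ^ j) ^ (phiDy j).card := by rw [pow_mul]
      _ ≤ ∏ p ∈ phiDy j, p := h4
      _ ≤ _ := h1
      _ ≤ _ := h3
      _ ≤ 2 ^ (2 ^ j + 2 ^ j) := h5
      _ = 2 ^ (2 ^ (j + 1)) := by rw [pow_succ 2 j, mul_two]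
  exact (Nat.pow_le_pow_iff_right (by norm_num)).1 h6

theorem phiDy_prod (j : ℕ) (hj : 2 ≤ j) :
    ((j : ℝ) - 1) ^ 2 / (j : ℝ) ^ 2 ≤ ∏ p ∈ phiDy j, (1 - 1 / (p : ℝ)) := by
  have hj0 : (0 : ℝ) < j := by exact_mod_cast (by omega : 0 < j)
  have h2j : (0 : ℝ) < 2 ^ j := by positivity
  set x : ℝ := 1 / 2 ^ j with hx
  have hx0 : 0 < x := by positivity
  have hx1 : x ≤ 1 / 2 := by
    rw [hx]
    apply one_div_le_one_div_of_le (by norm_num)
    calc (2 : ℝ) = 2 ^ 1 := by norm_num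
      _ ≤ 2 ^ j := pow_le_pow_right₀ (by norm_num) (by omega)
  set h : ℝ := 2 ^ j / j with hh
  have hjle : (j : ℝ) ≤ 2 ^ j := by
    have := (Nat.lt_two_pow_self (n := j)).le
    exact_mod_cast this
  have hh1 : 1 ≤ h := by
    rw [hh, le_div_iff₀ hj0, one_mul]
    exact hjle
  have hcard : ((phiDy j).card : ℝ) ≤ 2 * h := by
    have h1 : ((j * (phiDy j).card : ℕ) : ℝ) ≤ ((2 ^ (j + 1) : ℕ) : ℝ) := by
      exact_mod_cast phiDy_card j hj
    push_cast at h1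
    rw [hh, mul_div_assoc', le_div_iff₀ hj0]
    rw [pow_succ] at h1
    linarith
  have hstep : (1 - x) ^ (phiDy j).card ≤ ∏ p ∈ phiDy j, (1 - 1 / (p : ℝ)) := by
    rw [← Finset.prod_const]
    apply Finset.prod_le_prod
    · intro p _
      linarith
    · intro p hp
      have h1 : (2 : ℝ) ^ j ≤ p := by
        have := (mem_Ico.1 (mem_filter.1 hp).1).1
        exact_mod_cast this
      have h3 : 1 / (p : ℝ) ≤ x := by
        rw [hx]
        exact one_div_le_one_div_of_le h2j h1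
      linarith
  have h1x : 0 < 1 - x := by linarith
  have hpow : (1 - x) ^ ((2 : ℝ) * h) ≤ (1 - x) ^ (phiDy j).card := by
    rw [← Real.rpow_natCast]
    exact Real.rpow_le_rpow_of_exponent_ge h1x (by linarith) hcard
  have hber : 1 + h * (-x) ≤ (1 + (-x)) ^ h :=
    one_add_mul_self_le_rpow_one_add (by linarith) hh1
  have hval : 1 + h * (-x) = ((j : ℝ) - 1) / j := by
    rw [hh, hx]
    field_simp
    ring
  have hsq : ((1 - x) ^ h) ^ 2 = (1 - x) ^ ((2 : ℝ) * h) := by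
    rw [← Real.rpow_natCast, ← Real.rpow_mul h1x.le]
    congr 1
    push_cast
    ring
  have hnn : (0 : ℝ) ≤ ((j : ℝ) - 1) / j := by
    apply div_nonneg _ hj0.le
    have : (2 : ℝ) ≤ j := by exact_mod_cast hj
    linarith
  calc ((j : ℝ) - 1) ^ 2 / (j : ℝ) ^ 2 = (((j : ℝ) - 1) / j) ^ 2 := by rw [div_pow]
    _ ≤ ((1 - x) ^ h) ^ 2 := by
        apply pow_le_pow_left₀ hnn
        rw [← hval]
        simpa [sub_eq_add_neg] using hber
    _ = (1 - x) ^ ((2 : ℝ) * h) := hsq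
    _ ≤ (1 - x) ^ (phiDy j).card := hpow
    _ ≤ _ := hstep

/-- candidates: a set containing the primes below `1024` -/
def phiS : Finset ℕ :=
  (range 1024).filter (fun n => 2 ≤ n ∧ (Nat.gcd n 200560490130 = 1 ∨
    n = 2 ∨ n = 3 ∨ n = 5 ∨ n = 7 ∨ n = 11 ∨ n = 13 ∨ n = 17 ∨ n = 19 ∨ n = 23 ∨ n = 29 ∨ n = 31))

theorem phiS_prime {p : ℕ} (hp : p.Prime) (h : p < 1024) : p ∈ phiS := by
  refine mem_filter.2 ⟨mem_range.2 h, hp.two_le, ?_⟩
  by_cases hd : p ∣ 200560490130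
  · right
    have h1 : (200560490130 : ℕ) = 2 * 3 * 5 * 7 * 11 * 13 * 17 * 19 * 23 * 29 * 31 := by norm_num
    rw [h1] at hd
    have key : ∀ q : ℕ, q.Prime → p ∣ q → p = q := fun q hq hpq =>
      (Nat.prime_dvd_prime_iff_eq hp hq).1 hpq
    simp only [hp.dvd_mul] at hd
    rcases hd with (((((((((h | h) | h) | h) | h) | h) | h) | h) | h) | h) | h
    · exact Or.inl (key 2 (by norm_num) h)
    · exact Or.inr (Or.inl (key 3 (by norm_num) h))
    · exact Or.inr (Or.inr (Or.inl (key 5 (by norm_num) h)))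
    · exact Or.inr (Or.inr (Or.inr (Or.inl (key 7 (by norm_num) h))))
    · exact Or.inr (Or.inr (Or.inr (Or.inr (Or.inl (key 11 (by norm_num) h)))))
    · have := key 13 (by norm_num) h; omega
    · have := key 17 (by norm_num) h; omega
    · have := key 19 (by norm_num) h; omega
    · have := key 23 (by norm_num) h; omega
    · have := key 29 (by norm_num) h; omega
    · have := key 31 (by norm_num) h; omega
  · left
    exact (Nat.Prime.coprime_iff_not_dvd hp).2 hd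

theorem phiS_prod : 13 * ∏ s ∈ phiS, s ≤ 162 * ∏ s ∈ phiS, (s - 1) := by
  decide +kernel

theorem phi_prod_anti {A B : Finset ℕ} (h : A ⊆ B) (f : ℕ → ℝ) (h0 : ∀ i ∈ B, 0 ≤ f i)
    (h1 : ∀ i ∈ B, f i ≤ 1) : ∏ i ∈ B, f i ≤ ∏ i ∈ A, f i := by
  rw [← Finset.prod_sdiff h]
  have h2 : ∏ i ∈ B \ A, f i ≤ 1 :=
    Finset.prod_le_one (fun i hi => h0 i (mem_sdiff.1 hi).1) (fun i hi => h1 i (mem_sdiff.1 hi).1)
  have h3 : 0 ≤ ∏ i ∈ A, f i := Finset.prod_nonneg (fun i hi => h0 i (h hi))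
  nlinarith

theorem phi_fac {p : ℕ} (hp : 1 ≤ p) : (0 : ℝ) ≤ 1 - 1 / (p : ℝ) ∧ 1 - 1 / (p : ℝ) ≤ 1 := by
  have h1 : (1 : ℝ) ≤ p := by exact_mod_cast hp
  have h2 : 1 / (p : ℝ) ≤ 1 := by rw [div_le_one (by linarith)]; exact h1
  have h3 : 0 ≤ 1 / (p : ℝ) := by positivity
  constructor <;> linarith

theorem phi_base : (13 : ℝ) / 162 ≤ ∏ p ∈ (range (2 ^ 10)).filter Nat.Prime, (1 - 1 / (p : ℝ)) := by
  have hsub : (range (2 ^ 10)).filter Nat.Prime ⊆ phiS := by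
    intro p hp
    obtain ⟨h1, h2⟩ := mem_filter.1 hp
    exact phiS_prime h2 (by simpa using mem_range.1 h1)
  have hge : ∀ s ∈ phiS, 1 ≤ s := fun s hs => by
    have := (mem_filter.1 hs).2.1
    omega
  refine le_trans ?_ (phi_prod_anti hsub (fun p => 1 - 1 / (p : ℝ))
    (fun i hi => (phi_fac (hge i hi)).1) (fun i hi => (phi_fac (hge i hi)).2))
  have h1 : ∏ p ∈ phiS, (1 - 1 / (p : ℝ)) = (∏ p ∈ phiS, ((p - 1 : ℕ) : ℝ)) / ∏ p ∈ phiS, (p : ℝ) := by
    rw [← Finset.prod_div_distrib]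
    refine Finset.prod_congr rfl fun p hp => ?_
    have h2 : (1 : ℕ) ≤ p := hge p hp
    have h3 : (p : ℝ) ≠ 0 := by
      have : (0 : ℝ) < p := by exact_mod_cast h2
      exact this.ne'
    rw [Nat.cast_sub h2]
    field_simp
    simp
  rw [h1]
  have hpos : (0 : ℝ) < ∏ p ∈ phiS, (p : ℝ) := by
    apply Finset.prod_pos
    intro p hp
    exact_mod_cast hge p hp
  rw [le_div_iff₀ hpos, div_mul_eq_mul_div, div_le_iff₀ (by norm_num)]
  have h2 : ((13 * ∏ s ∈ phiS, s : ℕ) : ℝ) ≤ ((162 * ∏ s ∈ phiS, (s - 1) : ℕ) : ℝ) := by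
    exact_mod_cast phiS_prod
  rw [Nat.cast_mul, Nat.cast_mul, Nat.cast_prod, Nat.cast_prod] at h2
  calc (13 : ℝ) * ∏ p ∈ phiS, (p : ℝ) ≤ 162 * ∏ p ∈ phiS, ((p - 1 : ℕ) : ℝ) := by exact_mod_cast h2
    _ = _ := by ring

theorem phi_small (t : ℕ) (ht : 10 ≤ t) :
    (13 / 2 : ℝ) / ((t : ℝ) - 1) ^ 2 ≤
      ∏ p ∈ (range (2 ^ t)).filter Nat.Prime, (1 - 1 / (p : ℝ)) := by
  induction t, ht using Nat.le_induction with
  | base =>
    refine le_trans (le_of_eq ?_) phi_base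
    norm_num
  | succ t ht ih =>
    have hsplit : (range (2 ^ (t + 1))).filter Nat.Prime =
        (range (2 ^ t)).filter Nat.Prime ∪ phiDy t := by
      ext p
      simp only [phiDy, mem_filter, mem_range, mem_union, mem_Ico]
      have : 2 ^ t ≤ 2 ^ (t + 1) := Nat.pow_le_pow_right (by norm_num) (by omega)
      constructor
      · rintro ⟨h1, h2⟩
        rcases lt_or_ge p (2 ^ t) with h | h
        · exact Or.inl ⟨h, h2⟩
        · exact Or.inr ⟨⟨h, h1⟩, h2⟩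
      · rintro (⟨h1, h2⟩ | ⟨⟨h1, h3⟩, h2⟩)
        · exact ⟨by omega, h2⟩
        · exact ⟨h3, h2⟩
    have hdis : Disjoint ((range (2 ^ t)).filter Nat.Prime) (phiDy t) := by
      rw [Finset.disjoint_left]
      intro p hp hq
      have h1 := mem_range.1 (mem_filter.1 hp).1
      have h2 := (mem_Ico.1 (mem_filter.1 hq).1).1
      omega
    rw [hsplit, Finset.prod_union hdis]
    have hd := phiDy_prod t (by omega)
    have ht1 : (10 : ℝ) ≤ t := by exact_mod_cast ht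
    have h1 : (0 : ℝ) < (t : ℝ) - 1 := by linarith
    have h2 : (0 : ℝ) < t := by linarith
    have h3 : (13 / 2 : ℝ) / (((t + 1 : ℕ) : ℝ) - 1) ^ 2 =
        (13 / 2 : ℝ) / ((t : ℝ) - 1) ^ 2 * (((t : ℝ) - 1) ^ 2 / (t : ℝ) ^ 2) := by
      have h4 : (t : ℝ) - 1 ≠ 0 := h1.ne'
      have h5 : (t : ℝ) ≠ 0 := h2.ne'
      rw [show ((t + 1 : ℕ) : ℝ) - 1 = t by push_cast; ring]
      field_simp
    rw [h3]
    exact mul_le_mul ih hd (by positivity) (le_trans (by positivity) ih)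

/-- **Euler's function from below**: `13 m ≤ 2 t² φ(m)` for `0 < m < 2 ^ (2 ^ t)`, `10 ≤ t`. -/
theorem phiLL (m t : ℕ) (ht : 10 ≤ t) (hm0 : 0 < m) (hm : m < 2 ^ (2 ^ t)) :
    13 * m ≤ 2 * t ^ 2 * m.totient := by
  classical
  have ht1 : (10 : ℝ) ≤ t := by exact_mod_cast ht
  set A := m.primeFactors.filter (fun p => p < 2 ^ t) with hA
  set B := m.primeFactors.filter (fun p => ¬ p < 2 ^ t) with hB
  have hφ : (m.totient : ℝ) = m * ∏ p ∈ m.primeFactors, (1 - 1 / (p : ℝ)) := by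
    have h := Nat.totient_eq_mul_prod_factors m
    have h' : ((m.totient : ℚ) : ℝ) = ((m * ∏ p ∈ m.primeFactors, (1 - (p : ℚ)⁻¹) : ℚ) : ℝ) := by
      rw [h]
    push_cast at h'
    simpa [one_div] using h'
  have hsplit : ∏ p ∈ m.primeFactors, (1 - 1 / (p : ℝ)) =
      (∏ p ∈ A, (1 - 1 / (p : ℝ))) * ∏ p ∈ B, (1 - 1 / (p : ℝ)) :=
    (Finset.prod_filter_mul_prod_filter_not _ _ _).symm
  have hA1 : (13 / 2 : ℝ) / ((t : ℝ) - 1) ^ 2 ≤ ∏ p ∈ A, (1 - 1 / (p : ℝ)) := by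
    refine le_trans (phi_small t ht) (phi_prod_anti ?_ _ ?_ ?_)
    · intro p hp
      obtain ⟨h1, h2⟩ := mem_filter.1 hp
      exact mem_filter.2 ⟨mem_range.2 h2, Nat.prime_of_mem_primeFactors h1⟩
    · intro p hp
      exact (phi_fac (mem_filter.1 hp).2.one_le).1
    · intro p hp
      exact (phi_fac (mem_filter.1 hp).2.one_le).2
  have hBcard : t * B.card < 2 ^ t := by
    have h1 : (2 ^ t) ^ B.card ≤ ∏ p ∈ B, p := by
      rw [← Finset.prod_const]
      exact Finset.prod_le_prod' (fun p hp => not_lt.1 (mem_filter.1 hp).2)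
    have h2 : ∏ p ∈ B, p ≤ m := by
      refine Nat.le_of_dvd hm0 (dvd_trans (Finset.prod_dvd_prod_of_subset _ _ _ (filter_subset _ _))
        (Nat.prod_primeFactors_dvd m))
    have h3 : 2 ^ (t * B.card) < 2 ^ (2 ^ t) := by
      rw [pow_mul]
      omega
    exact (Nat.pow_lt_pow_iff_right (by norm_num)).1 h3
  have h2t : (0 : ℝ) < 2 ^ t := by positivity
  have hB1 : ((t : ℝ) - 1) / t ≤ ∏ p ∈ B, (1 - 1 / (p : ℝ)) := by
    have h1 : (1 - 1 / (2 : ℝ) ^ t) ^ B.card ≤ ∏ p ∈ B, (1 - 1 / (p : ℝ)) := by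
      rw [← Finset.prod_const]
      apply Finset.prod_le_prod
      · intro p _
        have : 1 / (2 : ℝ) ^ t ≤ 1 := by
          rw [div_le_one h2t]
          exact one_le_pow₀ (by norm_num)
        linarith
      · intro p hp
        have h3 : (2 : ℝ) ^ t ≤ p := by
          have := not_lt.1 (mem_filter.1 hp).2
          exact_mod_cast this
        have h4 := one_div_le_one_div_of_le h2t h3
        linarith
    have h2 : 1 + (B.card : ℝ) * (-(1 / (2 : ℝ) ^ t)) ≤ (1 + -(1 / (2 : ℝ) ^ t)) ^ B.card := by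
      apply one_add_mul_le_pow
      have : 1 / (2 : ℝ) ^ t ≤ 1 := by
        rw [div_le_one h2t]
        exact one_le_pow₀ (by norm_num)
      linarith
    have h3 : (t : ℝ) * B.card ≤ 2 ^ t := by
      have : ((t * B.card : ℕ) : ℝ) ≤ ((2 ^ t : ℕ) : ℝ) := by exact_mod_cast hBcard.le
      push_cast at this
      exact this
    have h4 : ((t : ℝ) - 1) / t ≤ 1 + (B.card : ℝ) * (-(1 / (2 : ℝ) ^ t)) := by
      have h5 : (B.card : ℝ) * (1 / (2 : ℝ) ^ t) ≤ 1 / t := by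
        rw [mul_one_div, div_le_div_iff₀ h2t (by linarith), one_mul, mul_comm]
        exact h3
      have h6 : ((t : ℝ) - 1) / t = 1 - 1 / t := by field_simp
      rw [h6]
      linarith
    calc ((t : ℝ) - 1) / t ≤ _ := h4
      _ ≤ _ := h2
      _ = (1 - 1 / (2 : ℝ) ^ t) ^ B.card := by rw [← sub_eq_add_neg]
      _ ≤ _ := h1
  have hprod : (13 / 2 : ℝ) / (t : ℝ) ^ 2 ≤ ∏ p ∈ m.primeFactors, (1 - 1 / (p : ℝ)) := by
    rw [hsplit]
    have h1 : (0 : ℝ) < (t : ℝ) - 1 := by linarith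
    have h2 : (0 : ℝ) < t := by linarith
    have h3 : (13 / 2 : ℝ) / (t : ℝ) ^ 2 ≤
        (13 / 2 : ℝ) / ((t : ℝ) - 1) ^ 2 * (((t : ℝ) - 1) / t) := by
      rw [div_mul_div_comm, div_le_div_iff₀ (by positivity) (by positivity)]
      have h4 : (13 / 2 : ℝ) * (((t : ℝ) - 1) ^ 2 * t) = (13 / 2 * ((t : ℝ) - 1)) * (((t : ℝ) - 1) * t) := by
        ring
      have h5 : (13 / 2 : ℝ) * ((t : ℝ) - 1) * (t : ℝ) ^ 2 = (13 / 2 * ((t : ℝ) - 1)) * (t * t) := by ring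
      rw [h4, h5]
      apply mul_le_mul_of_nonneg_left _ (by positivity)
      nlinarith
    refine le_trans h3 (mul_le_mul hA1 hB1 (by positivity) (le_trans (by positivity) hA1))
  have hmR : (0 : ℝ) < m := by exact_mod_cast hm0
  have hfin : (13 : ℝ) * m ≤ 2 * (t : ℝ) ^ 2 * m.totient := by
    rw [hφ]
    have ht2 : (0 : ℝ) < (t : ℝ) ^ 2 := by positivity
    rw [div_le_iff₀ ht2] at hprod
    nlinarith
  exact_mod_cast hfin

end Pool.Agent.LR4
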