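import Mathlib
import Pool.Agent.LR4.PhiLL

/-!
# LR4 / PB: lower bounds for products of `1 - 1/p` over prime factors
-/

set_option autoImplicit false

namespace Pool.Agent.LR4

open Finset

theorem pb_prod (m t : ℕ) (ht : 10 ≤ t) (hm0 : 0 < m) (hm : m < 2 ^ (2 ^ t)) :
    (13 / 2 : ℝ) / (t : ℝ) ^ 2 ≤ ∏ p ∈ m.primeFactors, (1 - 1 / (p : ℝ)) := by
  have h := phiLL m t ht hm0 hm
  have ht1 : (10 : ℝ) ≤ t := by exact_mod_cast ht
  have hφ : (m.totient : ℝ) = m * ∏ p ∈ m.primeFactors, (1 - 1 / (p : ℝ)) := by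
    have h := Nat.totient_eq_mul_prod_factors m
    have h' : ((m.totient : ℚ) : ℝ) = ((m * ∏ p ∈ m.primeFactors, (1 - (p : ℚ)⁻¹) : ℚ) : ℝ) := by
      rw [h]
    push_cast at h'
    simpa [one_div] using h'
  have h2 : (13 : ℝ) * m ≤ 2 * (t : ℝ) ^ 2 * m.totient := by exact_mod_cast h
  rw [hφ] at h2
  have hmR : (0 : ℝ) < m := by exact_mod_cast hm0
  have ht2 : (0 : ℝ) < (t : ℝ) ^ 2 := by positivity
  rw [div_le_iff₀ ht2]
  nlinarith

theorem pb_fac {p : ℕ} (hp : p.Prime) : (0 : ℝ) ≤ 1 - 1 / (p : ℝ) ∧ 1 - 1 / (p : ℝ) ≤ 1 :=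
  phi_fac hp.one_le

theorem pb1 (m t : ℕ) (ht : 10 ≤ t) (hm0 : 0 < m) (hm : 14 * m < 2 ^ (2 ^ t)) :
    (91 / 6 : ℝ) / (t : ℝ) ^ 2 ≤ ∏ p ∈ m.primeFactors \ {2, 7}, (1 - 1 / (p : ℝ)) := by
  have h := pb_prod (14 * m) t ht (by omega) hm
  have hpf : (14 * m).primeFactors = {2, 7} ∪ m.primeFactors := by
    rw [Nat.primeFactors_mul (by norm_num) hm0.ne']
    congr 1
    have : (14 : ℕ) = 2 * 7 := by norm_num
    rw [this, Nat.primeFactors_mul (by norm_num) (by norm_num), Nat.Prime.primeFactors Nat.prime_two,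
      Nat.Prime.primeFactors (by norm_num)]
    rfl
  have hsub : ({2, 7} : Finset ℕ) ⊆ (14 * m).primeFactors := by
    rw [hpf]; exact subset_union_left
  have hsd : (14 * m).primeFactors \ {2, 7} = m.primeFactors \ {2, 7} := by
    rw [hpf, union_sdiff_left]
  rw [← Finset.prod_sdiff hsub, hsd] at h
  have h27 : ∏ p ∈ ({2, 7} : Finset ℕ), (1 - 1 / (p : ℝ)) = 3 / 7 := by
    rw [Finset.prod_pair (by norm_num)]
    norm_num
  rw [h27] at h
  have h3 : (91 / 6 : ℝ) / (t : ℝ) ^ 2 = ((13 / 2 : ℝ) / (t : ℝ) ^ 2) * (7 / 3) := by ring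
  rw [h3]
  linarith

theorem pb_odd (m t : ℕ) (ht : 10 ≤ t) (hm0 : 0 < m) (hm : 14 * m < 2 ^ (2 ^ t)) :
    (13 : ℝ) / (t : ℝ) ^ 2 ≤ ∏ p ∈ m.primeFactors.erase 2, (1 - 1 / (p : ℝ)) := by
  have h := pb_prod (2 * m) t ht (by omega) (by omega)
  have hpf : (2 * m).primeFactors = {2} ∪ m.primeFactors := by
    rw [Nat.primeFactors_mul (by norm_num) hm0.ne', Nat.Prime.primeFactors Nat.prime_two]
  have hsub : ({2} : Finset ℕ) ⊆ (2 * m).primeFactors := by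
    rw [hpf]; exact subset_union_left
  have hsd : (2 * m).primeFactors \ {2} = m.primeFactors.erase 2 := by
    rw [hpf, union_sdiff_left, Finset.sdiff_singleton_eq_erase]
  rw [← Finset.prod_sdiff hsub, hsd, Finset.prod_singleton] at h
  have h3 : (13 : ℝ) / (t : ℝ) ^ 2 = ((13 / 2 : ℝ) / (t : ℝ) ^ 2) * 2 := by ring
  rw [h3]
  norm_num at h ⊢
  linarith

/-- a set containing the primes below `256` other than `2` and `7` -/
def pbS : Finset ℕ :=
  (range 256).filter (fun n => 2 ≤ n ∧ (Nat.gcd n 30030 = 1 ∨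
    n = 3 ∨ n = 5 ∨ n = 11 ∨ n = 13))

theorem pbS_prime {p : ℕ} (hp : p.Prime) (h : p < 256) (h2 : p ≠ 2) (h7 : p ≠ 7) : p ∈ pbS := by
  refine mem_filter.2 ⟨mem_range.2 h, hp.two_le, ?_⟩
  by_cases hd : p ∣ 30030
  · right
    have h1 : (30030 : ℕ) = 2 * 3 * 5 * 7 * 11 * 13 := by norm_num
    rw [h1] at hd
    have key : ∀ q : ℕ, q.Prime → p ∣ q → p = q := fun q hq hpq =>
      (Nat.prime_dvd_prime_iff_eq hp hq).1 hpq
    simp only [hp.dvd_mul] at hd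
    rcases hd with ((((h | h) | h) | h) | h) | h
    · exact absurd (key 2 (by norm_num) h) h2
    · exact Or.inl (key 3 (by norm_num) h)
    · exact Or.inr (Or.inl (key 5 (by norm_num) h))
    · exact absurd (key 7 (by norm_num) h) h7
    · exact Or.inr (Or.inr (Or.inl (key 11 (by norm_num) h)))
    · exact Or.inr (Or.inr (Or.inr (key 13 (by norm_num) h)))
  · left
    exact (Nat.Prime.coprime_iff_not_dvd hp).2 hd

theorem pbS_prod : 234 * ∏ s ∈ pbS, s ≤ 1000 * ∏ s ∈ pbS, (s - 1) := by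
  decide +kernel

theorem pbS_real : (234 / 1000 : ℝ) ≤ ∏ p ∈ pbS, (1 - 1 / (p : ℝ)) := by
  have hge : ∀ s ∈ pbS, 1 ≤ s := fun s hs => by
    have := (mem_filter.1 hs).2.1
    omega
  have h1 : ∏ p ∈ pbS, (1 - 1 / (p : ℝ)) =
      (∏ p ∈ pbS, ((p - 1 : ℕ) : ℝ)) / ∏ p ∈ pbS, (p : ℝ) := by
    rw [← Finset.prod_div_distrib]
    refine Finset.prod_congr rfl fun p hp => ?_
    have h2 : (1 : ℕ) ≤ p := hge p hp
    have h3 : (p : ℝ) ≠ 0 := by
      have : (0 : ℝ) < p := by exact_mod_cast h2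
      exact this.ne'
    rw [Nat.cast_sub h2]
    field_simp
    simp
  rw [h1]
  have hpos : (0 : ℝ) < ∏ p ∈ pbS, (p : ℝ) := by
    apply Finset.prod_pos
    intro p hp
    exact_mod_cast hge p hp
  rw [le_div_iff₀ hpos, div_mul_eq_mul_div, div_le_iff₀ (by norm_num)]
  have h2 : ((234 * ∏ s ∈ pbS, s : ℕ) : ℝ) ≤ ((1000 * ∏ s ∈ pbS, (s - 1) : ℕ) : ℝ) := by
    exact_mod_cast pbS_prod
  rw [Nat.cast_mul, Nat.cast_mul, Nat.cast_prod, Nat.cast_prod] at h2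
  calc (234 : ℝ) * ∏ p ∈ pbS, (p : ℝ) ≤ 1000 * ∏ p ∈ pbS, ((p - 1 : ℕ) : ℝ) := by exact_mod_cast h2
    _ = _ := by ring

set_option exponentiation.threshold 300 in
theorem pb1s (m : ℕ) (hm0 : 0 < m) (hm : m < 2 ^ 270) :
    (1 / 5 : ℝ) ≤ ∏ p ∈ m.primeFactors \ {2, 7}, (1 - 1 / (p : ℝ)) := by
  classical
  set Q := m.primeFactors \ {2, 7} with hQ
  have hQp : ∀ p ∈ Q, p.Prime ∧ p ≠ 2 ∧ p ≠ 7 := by
    intro p hp
    rw [hQ, mem_sdiff, mem_insert, mem_singleton, not_or] at hp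
    exact ⟨Nat.prime_of_mem_primeFactors hp.1, hp.2.1, hp.2.2⟩
  have hsplit : ∏ p ∈ Q, (1 - 1 / (p : ℝ)) =
      (∏ p ∈ Q.filter (fun p => p < 256), (1 - 1 / (p : ℝ))) *
        ∏ p ∈ Q.filter (fun p => ¬ p < 256), (1 - 1 / (p : ℝ)) :=
    (Finset.prod_filter_mul_prod_filter_not _ _ _).symm
  have hA : (234 / 1000 : ℝ) ≤ ∏ p ∈ Q.filter (fun p => p < 256), (1 - 1 / (p : ℝ)) := by
    refine le_trans pbS_real (phi_prod_anti ?_ _ ?_ ?_)
    · intro p hp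
      obtain ⟨h1, h2⟩ := mem_filter.1 hp
      obtain ⟨h3, h4, h5⟩ := hQp p h1
      exact pbS_prime h3 h2 h4 h5
    · intro p hp
      have := (mem_filter.1 hp).2.1
      exact (phi_fac (by omega)).1
    · intro p hp
      have := (mem_filter.1 hp).2.1
      exact (phi_fac (by omega)).2
  set B := Q.filter (fun p => ¬ p < 256) with hB
  have hBcard : 8 * B.card < 270 := by
    have h1 : (2 ^ 8) ^ B.card ≤ ∏ p ∈ B, p := by
      rw [← Finset.prod_const]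
      refine Finset.prod_le_prod' (fun p hp => ?_)
      have := not_lt.1 (mem_filter.1 hp).2
      norm_num
      exact this
    have h2 : ∏ p ∈ B, p ≤ m := by
      refine Nat.le_of_dvd hm0 (dvd_trans (Finset.prod_dvd_prod_of_subset _ _ _ ?_)
        (Nat.prod_primeFactors_dvd m))
      intro p hp
      exact (mem_sdiff.1 (mem_filter.1 hp).1).1
    have h3 : 2 ^ (8 * B.card) < 2 ^ 270 := by
      rw [pow_mul]
      exact lt_of_le_of_lt (h1.trans h2) hm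
    exact (Nat.pow_lt_pow_iff_right (by norm_num)).1 h3
  have hB1 : (223 / 256 : ℝ) ≤ ∏ p ∈ B, (1 - 1 / (p : ℝ)) := by
    have h1 : (1 - 1 / (256 : ℝ)) ^ B.card ≤ ∏ p ∈ B, (1 - 1 / (p : ℝ)) := by
      rw [← Finset.prod_const]
      apply Finset.prod_le_prod
      · intro p _
        norm_num
      · intro p hp
        have h3 : (256 : ℝ) ≤ p := by
          have := not_lt.1 (mem_filter.1 hp).2
          exact_mod_cast this
        have h4 := one_div_le_one_div_of_le (by norm_num) h3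
        linarith
    have h2 : 1 + (B.card : ℝ) * (-(1 / (256 : ℝ))) ≤ (1 + -(1 / (256 : ℝ))) ^ B.card := by
      apply one_add_mul_le_pow
      norm_num
    have h3 : (B.card : ℝ) ≤ 33 := by
      have : B.card ≤ 33 := by omega
      exact_mod_cast this
    calc (223 / 256 : ℝ) ≤ 1 + (B.card : ℝ) * (-(1 / (256 : ℝ))) := by linarith
      _ ≤ _ := h2
      _ = (1 - 1 / (256 : ℝ)) ^ B.card := by rw [← sub_eq_add_neg]
      _ ≤ _ := h1
  rw [hsplit]
  calc (1 / 5 : ℝ) ≤ (234 / 1000) * (223 / 256) := by norm_num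
    _ ≤ _ := mul_le_mul hA hB1 (by norm_num) (le_trans (by norm_num) hA)

/-- `∏ (1 - 1/k²) ≥ 1/2` over `2 ≤ k` -/
theorem pb_sq (n : ℕ) : (1 / 2 : ℝ) + 1 / (2 * ((n : ℝ) + 2)) ≤
    ∏ k ∈ Ico 2 (n + 3), (1 - 1 / (k : ℝ) ^ 2) := by
  induction n with
  | zero =>
    rw [show Ico 2 (0 + 3) = ({2} : Finset ℕ) by decide, Finset.prod_singleton]
    norm_num
  | succ n ih =>
    rw [Finset.prod_Ico_succ_top (by omega)]
    have hn : (0 : ℝ) ≤ n := Nat.cast_nonneg n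
    have h1 : (0 : ℝ) ≤ 1 - 1 / (((n + 3 : ℕ) : ℝ)) ^ 2 := by
      push_cast
      rw [sub_nonneg, div_le_one (by positivity)]
      nlinarith
    refine le_trans (le_of_eq ?_) (mul_le_mul_of_nonneg_right ih h1)
    push_cast
    field_simp
    ring

theorem pb_c {A : Finset ℕ} (hA : ∀ p ∈ A, 3 ≤ p) :
    (1 / 2 : ℝ) ≤ ∏ p ∈ A, (1 - 1 / ((p : ℝ) - 1) ^ 2) := by
  classical
  have hinj : Set.InjOn (fun p : ℕ => p - 1) A := by
    intro a ha b hb hab
    have h1 := hA a ha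
    have h2 := hA b hb
    simp only at hab
    omega
  have h1 : ∏ p ∈ A, (1 - 1 / ((p : ℝ) - 1) ^ 2) =
      ∏ k ∈ A.image (fun p : ℕ => p - 1), (1 - 1 / ((k : ℕ) : ℝ) ^ 2) := by
    rw [Finset.prod_image hinj]
    refine Finset.prod_congr rfl fun p hp => ?_
    rw [Nat.cast_sub (by have := hA p hp; omega)]
    simp
  rw [h1]
  have h2 := pb_sq (A.sup id)
  have h3 : (1 / 2 : ℝ) ≤ ∏ k ∈ Ico 2 (A.sup id + 3), (1 - 1 / (k : ℝ) ^ 2) := by
    refine le_trans ?_ h2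
    have : (0 : ℝ) ≤ 1 / (2 * (((A.sup id : ℕ) : ℝ) + 2)) := by positivity
    linarith
  refine le_trans h3 (phi_prod_anti ?_ _ ?_ ?_)
  · intro k hk
    obtain ⟨p, hp, rfl⟩ := mem_image.1 hk
    have h4 := hA p hp
    have h5 : p ≤ A.sup id := Finset.le_sup (f := id) hp
    rw [mem_Ico]
    omega
  · intro k hk
    have h4 : (2 : ℝ) ≤ k := by exact_mod_cast (mem_Ico.1 hk).1
    rw [sub_nonneg, div_le_one (by positivity)]
    nlinarith
  · intro k hk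
    have : (0 : ℝ) ≤ 1 / (k : ℝ) ^ 2 := by positivity
    linarith

theorem pb2 (x N t : ℕ) (ht : 10 ≤ t) (hx : 0 < x) (hN : 0 < N) (hxt : 14 * x < 2 ^ (2 ^ t))
    (hNt : 14 * N < 2 ^ (2 ^ t)) :
    (80 : ℝ) / (t : ℝ) ^ 4 ≤ ∏ p ∈ (x * N).primeFactors.erase 2,
      (1 - (if p ∣ x ∧ p ∣ N then 2 else 1) / (p : ℝ)) := by
  classical
  set S := (x * N).primeFactors.erase 2 with hS
  have hSp : ∀ p ∈ S, p.Prime ∧ 3 ≤ p ∧ (p ∣ x ∨ p ∣ N) := by
    intro p hp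
    rw [hS, mem_erase] at hp
    have h1 := Nat.prime_of_mem_primeFactors hp.2
    refine ⟨h1, ?_, (Nat.Prime.dvd_mul h1).1 (Nat.dvd_of_mem_primeFactors hp.2)⟩
    have := h1.two_le
    omega
  have key : ∀ p ∈ S, (if p ∣ x then (1 - 1 / (p : ℝ)) else 1) *
      (if p ∣ N then (1 - 1 / (p : ℝ)) else 1) * (1 - 1 / ((p : ℝ) - 1) ^ 2) ≤
      1 - (if p ∣ x ∧ p ∣ N then 2 else 1) / (p : ℝ) := by
    intro p hp
    obtain ⟨h1, h2, h3⟩ := hSp p hp
    have h2' : (3 : ℝ) ≤ p := by exact_mod_cast h2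
    have hf := pb_fac h1
    have hc : (1 - 1 / ((p : ℝ) - 1) ^ 2) ≤ 1 := by
      have : (0 : ℝ) ≤ 1 / ((p : ℝ) - 1) ^ 2 := by positivity
      linarith
    by_cases ha : p ∣ x
    · by_cases hb : p ∣ N
      · rw [if_pos ha, if_pos hb, if_pos ⟨ha, hb⟩]
        apply le_of_eq
        have h4 : (p : ℝ) - 1 ≠ 0 := by
          have : (0 : ℝ) < (p : ℝ) - 1 := by linarith
          exact this.ne'
        have h5 : (p : ℝ) ≠ 0 := by
          have : (0 : ℝ) < p := by linarith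
          exact this.ne'
        field_simp
        ring
      · rw [if_pos ha, if_neg hb, if_neg (fun h => hb h.2), mul_one]
        exact mul_le_of_le_one_right hf.1 hc
    · have hb : p ∣ N := by
        rcases h3 with h | h
        · exact absurd h ha
        · exact h
      rw [if_neg ha, if_pos hb, if_neg (fun h => ha h.1), one_mul]
      exact mul_le_of_le_one_right hf.1 hc
  have hnn : ∀ p ∈ S, 0 ≤ (if p ∣ x then (1 - 1 / (p : ℝ)) else 1) *
      (if p ∣ N then (1 - 1 / (p : ℝ)) else 1) * (1 - 1 / ((p : ℝ) - 1) ^ 2) := by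
    intro p hp
    obtain ⟨h1, h2, h3⟩ := hSp p hp
    have h2' : (3 : ℝ) ≤ p := by exact_mod_cast h2
    have hf := (pb_fac h1).1
    have hc : 0 ≤ (1 - 1 / ((p : ℝ) - 1) ^ 2) := by
      rw [sub_nonneg, div_le_one (by nlinarith)]
      nlinarith
    apply mul_nonneg (mul_nonneg ?_ ?_) hc
    · split_ifs
      · exact hf
      · norm_num
    · split_ifs
      · exact hf
      · norm_num
  have hprod := Finset.prod_le_prod hnn key
  rw [Finset.prod_mul_distrib, Finset.prod_mul_distrib] at hprod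
  have hfx : ∏ p ∈ S, (if p ∣ x then (1 - 1 / (p : ℝ)) else 1) =
      ∏ p ∈ x.primeFactors.erase 2, (1 - 1 / (p : ℝ)) := by
    rw [← Finset.prod_filter]
    refine Finset.prod_congr ?_ (fun _ _ => rfl)
    ext p
    rw [mem_filter, hS, mem_erase, mem_erase, Nat.mem_primeFactors, Nat.mem_primeFactors]
    constructor
    · rintro ⟨⟨h1, h2, h3, h4⟩, h5⟩
      exact ⟨h1, h2, h5, hx.ne'⟩
    · rintro ⟨h1, h2, h3, h4⟩
      exact ⟨⟨h1, h2, Dvd.dvd.mul_right h3 _, (Nat.mul_pos hx hN).ne'⟩, h3⟩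
  have hfN : ∏ p ∈ S, (if p ∣ N then (1 - 1 / (p : ℝ)) else 1) =
      ∏ p ∈ N.primeFactors.erase 2, (1 - 1 / (p : ℝ)) := by
    rw [← Finset.prod_filter]
    refine Finset.prod_congr ?_ (fun _ _ => rfl)
    ext p
    rw [mem_filter, hS, mem_erase, mem_erase, Nat.mem_primeFactors, Nat.mem_primeFactors]
    constructor
    · rintro ⟨⟨h1, h2, h3, h4⟩, h5⟩
      exact ⟨h1, h2, h5, hN.ne'⟩
    · rintro ⟨h1, h2, h3, h4⟩
      exact ⟨⟨h1, h2, Dvd.dvd.mul_left h3 _, (Nat.mul_pos hx hN).ne'⟩, h3⟩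
  rw [hfx, hfN] at hprod
  have h1 := pb_odd x t ht hx hxt
  have h2 := pb_odd N t ht hN hNt
  have h3 : (1 / 2 : ℝ) ≤ ∏ p ∈ S, (1 - 1 / ((p : ℝ) - 1) ^ 2) := pb_c (fun p hp => (hSp p hp).2.1)
  have ht1 : (10 : ℝ) ≤ t := by exact_mod_cast ht
  have hpos : (0 : ℝ) ≤ 13 / (t : ℝ) ^ 2 := by positivity
  have h4 : (13 / (t : ℝ) ^ 2) * (13 / (t : ℝ) ^ 2) * (1 / 2) ≤
      (∏ p ∈ x.primeFactors.erase 2, (1 - 1 / (p : ℝ))) *
      (∏ p ∈ N.primeFactors.erase 2, (1 - 1 / (p : ℝ))) *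
      ∏ p ∈ S, (1 - 1 / ((p : ℝ) - 1) ^ 2) :=
    mul_le_mul (mul_le_mul h1 h2 hpos (hpos.trans h1)) h3 (by norm_num)
      (mul_nonneg (hpos.trans h1) (hpos.trans h2))
  have h5 : (80 : ℝ) / (t : ℝ) ^ 4 ≤ (13 / (t : ℝ) ^ 2) * (13 / (t : ℝ) ^ 2) * (1 / 2) := by
    rw [div_mul_div_comm, div_mul_div_comm, div_le_div_iff₀ (by positivity) (by positivity)]
    have : (0 : ℝ) < (t : ℝ) ^ 4 := by positivity
    nlinarith
  exact h5.trans (h4.trans hprod)

/-- `b ^ ω(m) ≤ K m` -/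
theorem pb_pow (b K : ℕ) (S : Finset ℕ) (hS : ∀ p : ℕ, p.Prime → p < b → p ∈ S)
    (hS' : ∀ s ∈ S, 0 < s ∧ s ≤ b) (hK : b ^ S.card ≤ K * ∏ s ∈ S, s) (m : ℕ) (hm : 0 < m) :
    b ^ m.primeFactors.card ≤ K * m := by
  classical
  set A := m.primeFactors ∩ S with hA
  set B := m.primeFactors \ S with hB
  have hcard : m.primeFactors.card = A.card + B.card := by
    rw [hA, hB, Finset.card_inter_add_card_sdiff]
  have hSpos : 0 < ∏ s ∈ S, s := Finset.prod_pos (fun s hs => (hS' s hs).1)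
  have h1 : b ^ A.card ≤ K * ∏ p ∈ A, p := by
    have hAS : A ⊆ S := inter_subset_right
    have h2 : ∏ s ∈ S \ A, s ≤ b ^ (S \ A).card := by
      rw [← Finset.prod_const]
      exact Finset.prod_le_prod' (fun s hs => (hS' s (mem_sdiff.1 hs).1).2)
    have h3 : (∏ s ∈ S \ A, s) * ∏ s ∈ A, s = ∏ s ∈ S, s := Finset.prod_sdiff hAS
    have h4 : (S \ A).card + A.card = S.card := Finset.card_sdiff_add_card_eq_card hAS
    have h5 : b ^ A.card * ∏ s ∈ S, s ≤ (K * ∏ p ∈ A, p) * ∏ s ∈ S, s := by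
      calc b ^ A.card * ∏ s ∈ S, s = b ^ A.card * ((∏ s ∈ S \ A, s) * ∏ s ∈ A, s) := by rw [h3]
        _ ≤ b ^ A.card * (b ^ (S \ A).card * ∏ s ∈ A, s) := by gcongr
        _ = b ^ S.card * ∏ s ∈ A, s := by rw [← h4, pow_add]; ring
        _ ≤ (K * ∏ s ∈ S, s) * ∏ s ∈ A, s := by gcongr
        _ = (K * ∏ p ∈ A, p) * ∏ s ∈ S, s := by ring
    exact Nat.le_of_mul_le_mul_right h5 hSpos
  have h2 : b ^ B.card ≤ ∏ p ∈ B, p := by
    rw [← Finset.prod_const]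
    refine Finset.prod_le_prod' (fun p hp => ?_)
    by_contra h
    exact (mem_sdiff.1 hp).2 (hS p (Nat.prime_of_mem_primeFactors (mem_sdiff.1 hp).1) (by omega))
  have h3 : (∏ p ∈ A, p) * ∏ p ∈ B, p = ∏ p ∈ m.primeFactors, p := by
    rw [hA, hB]
    exact Finset.prod_inter_mul_prod_sdiff _ _ _
  have h4 : ∏ p ∈ m.primeFactors, p ≤ m := Nat.le_of_dvd hm (Nat.prod_primeFactors_dvd m)
  calc b ^ m.primeFactors.card = b ^ A.card * b ^ B.card := by rw [hcard, pow_add]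
    _ ≤ (K * ∏ p ∈ A, p) * ∏ p ∈ B, p := Nat.mul_le_mul h1 h2
    _ = K * ∏ p ∈ m.primeFactors, p := by rw [mul_assoc, h3]
    _ ≤ K * m := by gcongr

theorem pw2 (m : ℕ) (hm : 0 < m) : (2 ^ m.primeFactors.card) ^ 4 ≤ 625 * m := by
  have h := pb_pow 16 625 {2, 3, 5, 7, 11, 13} (by
    intro p hp h
    have := hp.two_le
    interval_cases p <;> first | decide | (exfalso; revert hp; decide)) (by decide) (by decide) m hm
  calc (2 ^ m.primeFactors.card) ^ 4 = 16 ^ m.primeFactors.card := by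
        rw [← pow_mul, mul_comm, pow_mul]; norm_num
    _ ≤ 625 * m := h

theorem pw3 (m : ℕ) (hm : 0 < m) : (3 ^ m.primeFactors.card) ^ 3 ≤ 35937 * m := by
  have h := pb_pow 27 35937 {2, 3, 5, 7, 11, 13, 17, 19, 23} (by
    intro p hp h
    have := hp.two_le
    interval_cases p <;> first | decide | (exfalso; revert hp; decide)) (by decide) (by decide) m hm
  calc (3 ^ m.primeFactors.card) ^ 3 = 27 ^ m.primeFactors.card := by
        rw [← pow_mul, mul_comm, pow_mul]; norm_num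
    _ ≤ 35937 * m := h

end Pool.Agent.LR4
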