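import Mathlib
import Pool.Agent.LR4.R3Defs

/-!
Lonely runner with speeds at most `2 n`: a sieve for one or two classes modulo each prime of a
finite set.
-/

namespace Pool.Agent.LR4

open Finset

/-- Numbers of `[A, B)` in the class of `a` modulo `q`, avoiding the classes `bad p` modulo `p`. -/
def svSet (A B q a : ℕ) (P : Finset ℕ) (bad : ℕ → Finset ℕ) : Finset ℕ :=
  (Ico A B).filter (fun u => u % q = a % q ∧ ∀ p ∈ P, u % p ∉ bad p)

private theorem sv_base {A B q : ℕ} (hAB : A ≤ B) (hq : 0 < q) (a : ℕ) :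
    |((((Ico A B).filter (fun u => u % q = a % q)).card : ℕ) : ℝ) - ((B : ℝ) - A) / q| ≤ 1 := by
  have h1 := Nat.Ico_filter_modEq_card A B hq a
  have hq' : (0 : ℚ) < q := by exact_mod_cast hq
  have h2 : ((A : ℚ) - a) / q ≤ ((B : ℚ) - a) / q := by
    have : (A : ℚ) ≤ B := by exact_mod_cast hAB
    gcongr
  rw [max_eq_left (sub_nonneg.2 (Int.ceil_le_ceil h2))] at h1
  have h3 : (Ico A B).filter (fun u => u % q = a % q) = (Ico A B).filter (· ≡ a [MOD q]) := rfl
  have h4 := Int.ceil_lt_add_one (((B : ℚ) - a) / q)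
  have h5 := Int.le_ceil (((B : ℚ) - a) / q)
  have h6 := Int.ceil_lt_add_one (((A : ℚ) - a) / q)
  have h7 := Int.le_ceil (((A : ℚ) - a) / q)
  have h8 : (((((Ico A B).filter (fun u => u % q = a % q)).card : ℕ) : ℚ)) =
      ((⌈((B : ℚ) - a) / q⌉ : ℤ) : ℚ) - ((⌈((A : ℚ) - a) / q⌉ : ℤ) : ℚ) := by
    rw [h3]
    exact_mod_cast h1
  have h9 : ((B : ℚ) - A) / q = ((B : ℚ) - a) / q - ((A : ℚ) - a) / q := by ring
  have h10 : |(((((Ico A B).filter (fun u => u % q = a % q)).card : ℕ) : ℚ)) -
      ((B : ℚ) - A) / q| ≤ 1 := by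
    rw [h8, h9, abs_le]
    constructor <;> linarith
  have h11 := (Rat.cast_le (K := ℝ)).2 h10
  push_cast at h11
  exact h11

private theorem sv_split (A B q a p : ℕ) (P : Finset ℕ) (bad : ℕ → Finset ℕ) (hp : p.Prime)
    (hpq : ¬ p ∣ q) (hbad : ∀ b ∈ bad p, b < p) :
    ∃ c : ℕ → ℕ, (svSet A B q a P bad).card = (svSet A B q a (insert p P) bad).card +
      ∑ b ∈ bad p, (svSet A B (q * p) (c b) P bad).card := by
  classical
  have hcop : Nat.Coprime q p := (Nat.coprime_comm.1 ((Nat.Prime.coprime_iff_not_dvd hp).2 hpq))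
  refine ⟨fun b => (Nat.chineseRemainder hcop a b : ℕ), ?_⟩
  have h1 : ∀ b ∈ bad p, svSet A B (q * p) (Nat.chineseRemainder hcop a b : ℕ) P bad =
      (svSet A B q a P bad).filter (fun u => u % p = b) := by
    intro b hb
    obtain ⟨k, hk1, hk2⟩ := Nat.chineseRemainder hcop a b
    change svSet A B (q * p) k P bad = _
    ext u
    unfold svSet
    rw [mem_filter, mem_filter, mem_filter]
    have h2 : u % (q * p) = k % (q * p) ↔ (u % q = a % q ∧ u % p = b) := by
      have h3 : (u ≡ k [MOD q] ∧ u ≡ k [MOD p]) ↔ u ≡ k [MOD q * p] :=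
        Nat.modEq_and_modEq_iff_modEq_mul hcop
      have h4 : u % (q * p) = k % (q * p) ↔ u ≡ k [MOD q * p] := Iff.rfl
      rw [h4, ← h3]
      constructor
      · rintro ⟨h5, h6⟩
        refine ⟨h5.trans hk1, ?_⟩
        have h7 : u % p = b % p := h6.trans hk2
        rw [h7]
        exact Nat.mod_eq_of_lt (hbad b hb)
      · rintro ⟨h5, h6⟩
        refine ⟨Nat.ModEq.trans h5 hk1.symm, Nat.ModEq.trans ?_ hk2.symm⟩
        change u % p = b % p
        rw [h6]
        exact (Nat.mod_eq_of_lt (hbad b hb)).symm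
    rw [h2]
    tauto
  rw [Finset.sum_congr rfl fun b hb => congrArg Finset.card (h1 b hb)]
  have h2 : (svSet A B q a (insert p P) bad) =
      (svSet A B q a P bad).filter (fun u => ¬ u % p ∈ bad p) := by
    ext u
    unfold svSet
    rw [mem_filter, mem_filter, mem_filter]
    simp only [mem_insert, forall_eq_or_imp]
    tauto
  have h3 : ((svSet A B q a P bad).filter (fun u => u % p ∈ bad p)).card =
      ∑ b ∈ bad p, ((svSet A B q a P bad).filter (fun u => u % p = b)).card := by
    rw [Finset.card_eq_sum_card_fiberwise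
      (s := (svSet A B q a P bad).filter (fun u => u % p ∈ bad p)) (f := fun u => u % p)
      (t := bad p) (fun u hu => (mem_filter.1 (mem_coe.1 hu)).2)]
    refine Finset.sum_congr rfl fun b hb => ?_
    congr 1
    ext u
    rw [mem_filter, mem_filter, mem_filter]
    constructor
    · rintro ⟨⟨h4, _⟩, h5⟩
      exact ⟨h4, h5⟩
    · rintro ⟨h4, h5⟩
      refine ⟨⟨h4, ?_⟩, h5⟩
      rw [h5]
      exact hb
  rw [h2, ← h3, add_comm]
  exact (Finset.card_filter_add_card_filter_not _).symm

/-- The sieve. -/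
theorem sv_gen {A B : ℕ} (hAB : A ≤ B) (bad : ℕ → Finset ℕ) (P : Finset ℕ) :
    (∀ p ∈ P, ∀ b ∈ bad p, b < p) → ∀ q a : ℕ, 0 < q → (∀ p ∈ P, p.Prime ∧ ¬ p ∣ q) →
      |((svSet A B q a P bad).card : ℝ) -
        ((B : ℝ) - A) / q * ∏ p ∈ P, (1 - ((bad p).card : ℝ) / p)| ≤
          ∏ p ∈ P, (1 + ((bad p).card : ℝ)) := by
  classical
  induction P using Finset.induction_on with
  | empty =>
    intro _ q a hq _
    have h1 : svSet A B q a ∅ bad = (Ico A B).filter (fun u => u % q = a % q) := by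
      unfold svSet
      refine Finset.filter_congr fun u _ => ?_
      simp
    rw [h1, Finset.prod_empty, Finset.prod_empty, mul_one]
    exact sv_base hAB hq a
  | insert p P hpP ih =>
    intro hbad q a hq hP
    have hp := hP p (mem_insert_self p P)
    have hbad' : ∀ p' ∈ P, ∀ b ∈ bad p', b < p' := fun p' hp' =>
      hbad p' (mem_insert_of_mem hp')
    obtain ⟨c, hc⟩ := sv_split A B q a p P bad hp.1 hp.2 (hbad p (mem_insert_self p P))
    have h1 := ih hbad' q a hq fun p' hp' => hP p' (mem_insert_of_mem hp')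
    have h2 : ∀ b ∈ bad p, |((svSet A B (q * p) (c b) P bad).card : ℝ) -
        ((B : ℝ) - A) / ((q * p : ℕ) : ℝ) * ∏ p ∈ P, (1 - ((bad p).card : ℝ) / p)| ≤
          ∏ p ∈ P, (1 + ((bad p).card : ℝ)) := fun b _ => by
      refine ih hbad' (q * p) (c b) (Nat.mul_pos hq hp.1.pos) fun p' hp' => ?_
      have hp1 := hP p' (mem_insert_of_mem hp')
      refine ⟨hp1.1, fun hd => ?_⟩
      rcases (Nat.Prime.dvd_mul hp1.1).1 hd with h3 | h3
      · exact hp1.2 h3
      · have h4 := (Nat.prime_dvd_prime_iff_eq hp1.1 hp.1).1 h3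
        exact hpP (h4 ▸ hp')
    rw [Finset.prod_insert hpP, Finset.prod_insert hpP]
    set X : ℝ := ∏ p ∈ P, (1 - ((bad p).card : ℝ) / p) with hX
    set Y : ℝ := ∏ p ∈ P, (1 + ((bad p).card : ℝ)) with hY
    have hc' : ((svSet A B q a (insert p P) bad).card : ℝ) = ((svSet A B q a P bad).card : ℝ) -
        ∑ b ∈ bad p, ((svSet A B (q * p) (c b) P bad).card : ℝ) := by
      rw [hc]
      push_cast
      ring
    have hq' : (0 : ℝ) < q := by exact_mod_cast hq
    have hp' : (0 : ℝ) < p := by exact_mod_cast hp.1.pos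
    have hsum : |∑ b ∈ bad p, (((svSet A B (q * p) (c b) P bad).card : ℝ) -
        ((B : ℝ) - A) / ((q * p : ℕ) : ℝ) * X)| ≤ (bad p).card * Y := by
      refine (Finset.abs_sum_le_sum_abs _ _).trans ?_
      refine (Finset.sum_le_sum h2).trans ?_
      rw [Finset.sum_const, nsmul_eq_mul]
    have heq : ((svSet A B q a (insert p P) bad).card : ℝ) -
        ((B : ℝ) - A) / q * ((1 - ((bad p).card : ℝ) / p) * X) =
        (((svSet A B q a P bad).card : ℝ) - ((B : ℝ) - A) / q * X) -
        ∑ b ∈ bad p, (((svSet A B (q * p) (c b) P bad).card : ℝ) -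
          ((B : ℝ) - A) / ((q * p : ℕ) : ℝ) * X) := by
      rw [hc', Finset.sum_sub_distrib, Finset.sum_const, nsmul_eq_mul]
      push_cast
      field_simp
      ring
    rw [heq]
    refine (abs_sub _ _).trans ?_
    rw [add_mul, one_mul]
    exact add_le_add h1 hsum

private theorem sv_lower {A B : ℕ} (hAB : A ≤ B) (r : ℕ) (bad : ℕ → Finset ℕ) (P T : Finset ℕ)
    (hbad : ∀ p ∈ P, ∀ b ∈ bad p, b < p) (hP : ∀ p ∈ P, p.Prime ∧ ¬ p ∣ 8)
    (hT : svSet A B 8 r P bad ⊆ T) (f g : ℕ → ℝ)
    (hf0 : ∀ p ∈ P, 0 ≤ f p) (hf : ∀ p ∈ P, f p ≤ 1 - ((bad p).card : ℝ) / p)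
    (hg : ∀ p ∈ P, 1 + ((bad p).card : ℝ) ≤ g p) :
    ((B : ℝ) - A) / 8 * ∏ p ∈ P, f p - ∏ p ∈ P, g p ≤ (T.card : ℝ) := by
  have h1 := sv_gen hAB bad P hbad 8 r (by norm_num) hP
  have h2 := (abs_le.1 h1).1
  have h3 : ((svSet A B 8 r P bad).card : ℝ) ≤ T.card := by
    exact_mod_cast Finset.card_le_card hT
  have h4 : ∏ p ∈ P, f p ≤ ∏ p ∈ P, (1 - ((bad p).card : ℝ) / p) :=
    Finset.prod_le_prod hf0 hf
  have h5 : ∏ p ∈ P, (1 + ((bad p).card : ℝ)) ≤ ∏ p ∈ P, g p :=
    Finset.prod_le_prod (fun p _ => by positivity) hg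
  have h6 : 0 ≤ ((B : ℝ) - A) / 8 := by
    have : (A : ℝ) ≤ B := by exact_mod_cast hAB
    have : 0 ≤ (B : ℝ) - A := by linarith
    positivity
  have h7 := mul_le_mul_of_nonneg_left h4 h6
  push_cast at h2
  linarith

/-- One class modulo each prime factor of `m` and two classes modulo `7`. -/
theorem sv1 {A B r m c d : ℕ} (hAB : A ≤ B) (hm : 0 < m) (h7 : 7 ∣ m → c = d)
    (hr : r % 2 = 1) :
    ((B : ℝ) - A) / 8 * (5 / 7) * ∏ p ∈ m.primeFactors \ {2, 7}, (1 - 1 / (p : ℝ)) -
      3 * 2 ^ m.primeFactors.card ≤ ((cn1 A B r m c d).card : ℝ) := by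
  classical
  set Q : Finset ℕ := m.primeFactors \ {2, 7} with hQ
  have h7Q : 7 ∉ Q := by
    rw [hQ, mem_sdiff]
    simp
  have hQp : ∀ p ∈ Q, p.Prime ∧ p ∣ m ∧ p ≠ 2 ∧ p ≠ 7 := by
    intro p hp
    rw [hQ, mem_sdiff, mem_insert, mem_singleton, not_or] at hp
    exact ⟨Nat.prime_of_mem_primeFactors hp.1, Nat.dvd_of_mem_primeFactors hp.1, hp.2.1, hp.2.2⟩
  set B7 : Finset ℕ := ((if 7 ∣ m then insert 0 {c, d} else {c, d}) : Finset ℕ).filter (· < 7)
    with hB7
  have hB7c : B7.card ≤ 2 := by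
    refine (Finset.card_filter_le _ _).trans ?_
    split_ifs with h
    · rw [h7 h, Finset.pair_eq_singleton]
      exact Finset.card_le_two
    · exact Finset.card_le_two
  have hB7c' : (B7.card : ℝ) ≤ 2 := by exact_mod_cast hB7c
  have key := sv_lower hAB r (fun p => if p = 7 then B7 else {0}) (insert 7 Q)
    (cn1 A B r m c d) (by
      intro p hp b hb
      split_ifs at hb with h
      · rw [hB7, mem_filter] at hb
        rw [h]
        exact hb.2
      · rw [mem_singleton] at hb
        rw [hb]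
        rcases mem_insert.1 hp with h1 | h1
        · exact absurd h1 h
        · exact (hQp p h1).1.pos) (by
      intro p hp
      rcases mem_insert.1 hp with h1 | h1
      · rw [h1]
        exact ⟨by norm_num, by norm_num⟩
      · obtain ⟨h2, _, h3, _⟩ := hQp p h1
        refine ⟨h2, fun h4 => h3 ?_⟩
        have h5 : p ∣ 2 ^ 3 := by
          have : (2 : ℕ) ^ 3 = 8 := by norm_num
          rw [this]
          exact h4
        exact (Nat.prime_dvd_prime_iff_eq h2 Nat.prime_two).1 (h2.dvd_of_dvd_pow h5)) (by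
      intro u hu
      unfold svSet at hu
      rw [mem_filter] at hu
      obtain ⟨hu1, hu2, hu3⟩ := hu
      have h7u : u % 7 ∉ B7 := by
        have := hu3 7 (mem_insert_self 7 Q)
        simpa using this
      unfold cn1
      rw [mem_filter]
      have hlt : u % 7 < 7 := Nat.mod_lt _ (by norm_num)
      refine ⟨hu1, hu2, ?_, ?_, ?_⟩
      · refine Nat.coprime_of_dvd fun k hk hku hkm => ?_
        by_cases hk2 : k = 2
        · subst hk2
          omega
        · by_cases hk7 : k = 7
          · subst hk7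
            apply h7u
            rw [hB7, mem_filter, if_pos hkm]
            refine ⟨?_, hlt⟩
            rw [Nat.mod_eq_zero_of_dvd hku]
            exact mem_insert_self _ _
          · have hkQ : k ∈ Q := by
              rw [hQ, mem_sdiff, mem_insert, mem_singleton, not_or]
              exact ⟨Nat.mem_primeFactors.2 ⟨hk, hkm, hm.ne'⟩, hk2, hk7⟩
            have := hu3 k (mem_insert_of_mem hkQ)
            simp only [hk7, if_false, mem_singleton] at this
            exact this (Nat.mod_eq_zero_of_dvd hku)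
      · intro hc
        apply h7u
        rw [hB7, mem_filter]
        refine ⟨?_, hlt⟩
        rw [hc]
        split_ifs <;> simp
      · intro hc
        apply h7u
        rw [hB7, mem_filter]
        refine ⟨?_, hlt⟩
        rw [hc]
        split_ifs <;> simp)
    (fun p => if p = 7 then 5 / 7 else 1 - 1 / (p : ℝ)) (fun p => if p = 7 then 3 else 2) (by
      intro p hp
      split_ifs with h
      · norm_num
      · have hp1 : (1 : ℝ) ≤ p := by
          rcases mem_insert.1 hp with h1 | h1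
          · exact absurd h1 h
          · exact_mod_cast (hQp p h1).1.one_lt.le
        rw [sub_nonneg, div_le_one (by linarith)]
        exact hp1) (by
      intro p hp
      split_ifs with h
      · rw [h]
        push_cast
        linarith
      · simp) (by
      intro p hp
      split_ifs with h
      · linarith
      · simp only [card_singleton, Nat.cast_one]
        norm_num)
  rw [Finset.prod_insert h7Q, Finset.prod_insert h7Q, if_pos rfl, if_pos rfl] at key
  have e1 : ∏ p ∈ Q, (if p = 7 then (5 / 7 : ℝ) else 1 - 1 / (p : ℝ)) =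
      ∏ p ∈ Q, (1 - 1 / (p : ℝ)) :=
    Finset.prod_congr rfl fun p hp => if_neg (hQp p hp).2.2.2
  have e2 : ∏ p ∈ Q, (if p = 7 then (3 : ℝ) else 2) = 2 ^ Q.card := by
    rw [Finset.prod_congr rfl fun p hp => if_neg (hQp p hp).2.2.2, Finset.prod_const]
  rw [e1, e2] at key
  have e3 : (2 : ℝ) ^ Q.card ≤ 2 ^ m.primeFactors.card :=
    pow_le_pow_right₀ (by norm_num) (Finset.card_le_card sdiff_subset)
  have e4 : ((B : ℝ) - A) / 8 * (5 / 7) * ∏ p ∈ Q, (1 - 1 / (p : ℝ)) =
      ((B : ℝ) - A) / 8 * (5 / 7 * ∏ p ∈ Q, (1 - 1 / (p : ℝ))) := by ring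
  rw [e4]
  linarith

/-- One class modulo each prime factor of `x` and one modulo each prime factor of `N`. -/
theorem sv2 {A B r x S N : ℕ} (hAB : A ≤ B) (hx : 0 < x) (hN : 0 < N) (hr : r % 2 = 1)
    (hS : S % 2 = 0) (hBS : B ≤ S) :
    ((B : ℝ) - A) / 8 * ∏ p ∈ (x * N).primeFactors \ {2},
      (1 - (if p ∣ x ∧ p ∣ N then 2 else 1) / (p : ℝ)) -
      3 ^ (x * N).primeFactors.card ≤ ((cn2 A B r x S N).card : ℝ) := by
  classical
  set Q : Finset ℕ := (x * N).primeFactors \ {2} with hQ
  have hQp : ∀ p ∈ Q, p.Prime ∧ p ≠ 2 ∧ (p ∣ x ∨ p ∣ N) := by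
    intro p hp
    rw [hQ, mem_sdiff, mem_singleton] at hp
    have h1 := Nat.prime_of_mem_primeFactors hp.1
    exact ⟨h1, hp.2, (Nat.Prime.dvd_mul h1).1 (Nat.dvd_of_mem_primeFactors hp.1)⟩
  have hQ3 : ∀ p ∈ Q, (3 : ℝ) ≤ p := by
    intro p hp
    have h1 := (hQp p hp).1.two_le
    have h2 := (hQp p hp).2.1
    have h3 : 3 ≤ p := by omega
    exact_mod_cast h3
  have hQm : ∀ k : ℕ, k.Prime → k ≠ 2 → (k ∣ x ∨ k ∣ N) → k ∈ Q := by
    intro k hk hk2 hk3
    rw [hQ, mem_sdiff, mem_singleton]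
    exact ⟨Nat.mem_primeFactors.2 ⟨hk, (Nat.Prime.dvd_mul hk).2 hk3,
      (Nat.mul_pos hx hN).ne'⟩, hk2⟩
  set bad : ℕ → Finset ℕ := fun p => (if p ∣ x then {0} else ∅) ∪ (if p ∣ N then {S % p} else ∅)
    with hbad
  have hcard : ∀ p ∈ Q, ((bad p).card : ℝ) ≤ (if p ∣ x ∧ p ∣ N then 2 else 1) := by
    intro p hp
    have h1 : (bad p).card ≤ (if p ∣ x ∧ p ∣ N then 2 else 1) := by
      rw [hbad]
      refine (Finset.card_union_le _ _).trans ?_
      by_cases h1 : p ∣ x <;> by_cases h2 : p ∣ N <;> simp [h1, h2]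
    split_ifs at h1 ⊢ with h2
    · exact_mod_cast h1
    · exact_mod_cast h1
  have key := sv_lower hAB r bad Q (cn2 A B r x S N) (by
      intro p hp b hb
      have hp0 := (hQp p hp).1.pos
      rw [hbad] at hb
      simp only at hb
      rcases mem_union.1 hb with hb | hb
      · split_ifs at hb with h
        · rw [mem_singleton] at hb
          rw [hb]
          exact hp0
        · exact absurd hb (notMem_empty b)
      · split_ifs at hb with h
        · rw [mem_singleton] at hb
          rw [hb]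
          exact Nat.mod_lt _ hp0
        · exact absurd hb (notMem_empty b)) (by
      intro p hp
      obtain ⟨h2, h3, _⟩ := hQp p hp
      refine ⟨h2, fun h4 => h3 ?_⟩
      have h5 : p ∣ 2 ^ 3 := by
        have : (2 : ℕ) ^ 3 = 8 := by norm_num
        rw [this]
        exact h4
      exact (Nat.prime_dvd_prime_iff_eq h2 Nat.prime_two).1 (h2.dvd_of_dvd_pow h5)) (by
      intro u hu
      unfold svSet at hu
      rw [mem_filter] at hu
      obtain ⟨hu1, hu2, hu3⟩ := hu
      have huB := (mem_Ico.1 hu1).2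
      unfold cn2
      rw [mem_filter]
      refine ⟨hu1, hu2, ?_, ?_⟩
      · refine Nat.coprime_of_dvd fun k hk hku hkm => ?_
        by_cases hk2 : k = 2
        · subst hk2
          omega
        · have := hu3 k (hQm k hk hk2 (Or.inl hkm))
          apply this
          rw [hbad]
          simp only
          refine mem_union_left _ ?_
          rw [if_pos hkm, mem_singleton]
          exact Nat.mod_eq_zero_of_dvd hku
      · refine Nat.coprime_of_dvd fun k hk hku hkm => ?_
        by_cases hk2 : k = 2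
        · subst hk2
          omega
        · have := hu3 k (hQm k hk hk2 (Or.inr hkm))
          apply this
          rw [hbad]
          simp only
          refine mem_union_right _ ?_
          rw [if_pos hkm, mem_singleton]
          have h1 : u ≡ S [MOD k] := (Nat.modEq_iff_dvd' (by omega)).2 hku
          exact h1)
    (fun p => 1 - (if p ∣ x ∧ p ∣ N then 2 else 1) / (p : ℝ)) (fun _ => 3) (by
      intro p hp
      have h3 := hQ3 p hp
      have h4 : ((if p ∣ x ∧ p ∣ N then 2 else 1) : ℝ) ≤ 2 := by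
        split_ifs <;> norm_num
      rw [sub_nonneg, div_le_one (by linarith)]
      linarith) (by
      intro p hp
      have h3 := hQ3 p hp
      have h4 := div_le_div_of_nonneg_right (hcard p hp) (by linarith : (0 : ℝ) ≤ p)
      linarith) (by
      intro p hp
      have h4 : ((if p ∣ x ∧ p ∣ N then 2 else 1) : ℝ) ≤ 2 := by
        split_ifs <;> norm_num
      have h5 := hcard p hp
      linarith)
  have e2 : ∏ _p ∈ Q, (3 : ℝ) = 3 ^ Q.card := Finset.prod_const _
  rw [e2] at key
  have e3 : (3 : ℝ) ^ Q.card ≤ 3 ^ (x * N).primeFactors.card :=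
    pow_le_pow_right₀ (by norm_num) (Finset.card_le_card sdiff_subset)
  linarith

/-- `sv2` with `erase` in place of the set difference. -/
theorem sv2e {A B r x S N : ℕ} (hAB : A ≤ B) (hx : 0 < x) (hN : 0 < N) (hr : r % 2 = 1)
    (hS : S % 2 = 0) (hBS : B ≤ S) :
    ((B : ℝ) - A) / 8 * ∏ p ∈ (x * N).primeFactors.erase 2,
      (1 - (if p ∣ x ∧ p ∣ N then 2 else 1) / (p : ℝ)) -
      3 ^ (x * N).primeFactors.card ≤ ((cn2 A B r x S N).card : ℝ) := by
  rw [← Finset.sdiff_singleton_eq_erase]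
  exact sv2 hAB hx hN hr hS hBS

end Pool.Agent.LR4
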