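import Mathlib
import Pool.Agent.LR4.R3Defs
import Pool.Agent.LR4.SV
import Pool.Agent.LR4.PB

/-!
# LR4 / R3cnt: from product bounds to the counting facts `Cnt`, and sizes of the exceptional sets
-/

set_option autoImplicit false

namespace Pool.Agent.LR4

open Finset

/-- Bound for `2 ^ ω(m)`. -/
theorem pw2_use {m M q : ℕ} (h4 : (2 ^ m.primeFactors.card) ^ 4 ≤ 625 * m) (hm : m ≤ M * M)
    (hq : q * q ≤ M) : q * 2 ^ m.primeFactors.card ≤ 5 * M := by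
  set w := 2 ^ m.primeFactors.card with hw
  have h1 : (q * w) ^ 4 ≤ (5 * M) ^ 4 := by
    calc (q * w) ^ 4 = (q * q) * (q * q) * w ^ 4 := by ring
      _ ≤ M * M * (625 * (M * M)) :=
        Nat.mul_le_mul (Nat.mul_le_mul hq hq) (h4.trans (Nat.mul_le_mul_left _ hm))
      _ = (5 * M) ^ 4 := by ring
  exact (Nat.pow_le_pow_iff_left (by norm_num)).1 h1

/-- Bound for `3 ^ ω(m)`. -/
theorem pw3_use {m M q : ℕ} (h3 : (3 ^ m.primeFactors.card) ^ 3 ≤ 35937 * m) (hm : m ≤ M * M)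
    (hq : q * q * q ≤ M) : q * 3 ^ m.primeFactors.card ≤ 33 * M := by
  set w := 3 ^ m.primeFactors.card with hw
  have h1 : (q * w) ^ 3 ≤ (33 * M) ^ 3 := by
    calc (q * w) ^ 3 = (q * q * q) * w ^ 3 := by ring
      _ ≤ M * (35937 * (M * M)) :=
        Nat.mul_le_mul hq (h3.trans (Nat.mul_le_mul_left _ hm))
      _ = (33 * M) ^ 3 := by ring
  exact (Nat.pow_le_pow_iff_left (by norm_num)).1 h1

/-- From product bounds to the counting facts. -/
theorem cnt_gen {M q2 q3 T1 T2 : ℕ} {c1 c2 : ℝ}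
    (hc1 : ∀ m : ℕ, 0 < m → m ≤ M * M →
      c1 ≤ ∏ p ∈ m.primeFactors \ {2, 7}, (1 - 1 / (p : ℝ)))
    (hc2 : ∀ x N : ℕ, 0 < x → x < M → 0 < N → N < M →
      c2 ≤ ∏ p ∈ (x * N).primeFactors.erase 2, (1 - (if p ∣ x ∧ p ∣ N then 2 else 1) / (p : ℝ)))
    (hc10 : 0 ≤ c1) (hc20 : 0 ≤ c2) (hq20 : 0 < q2) (hq30 : 0 < q3)
    (hq2 : q2 * q2 ≤ M) (hq3 : q3 * q3 * q3 ≤ M)
    (hT1 : (T1 : ℝ) ≤ 49 / 112000 * c1 * M - 15 * M / q2)
    (hT2 : (T2 : ℝ) ≤ 1 / 160 * c2 * M - 33 * M / q3) : Cnt M T1 T2 := by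
  have hM0 : (0 : ℝ) ≤ M := Nat.cast_nonneg M
  constructor
  · intro m r c d A B hm hmM h7 hr hAB hBM
    have hABn : A ≤ B := by omega
    have h1 := sv1 hABn hm h7 hr (d := d) (r := r)
    have h2 := hc1 m hm hmM
    have h3 : (q2 : ℝ) * 2 ^ m.primeFactors.card ≤ 5 * M := by
      exact_mod_cast pw2_use (pw2 m hm) hmM hq2
    have hq2r : (0 : ℝ) < q2 := by exact_mod_cast hq20
    have h4 : (2 : ℝ) ^ m.primeFactors.card ≤ 5 * M / q2 := by
      rw [le_div_iff₀ hq2r]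
      linarith
    have h5 : (10000 : ℝ) * A + 49 * M ≤ 10000 * B := by exact_mod_cast hAB
    have h6 : 49 / 10000 * (M : ℝ) ≤ (B : ℝ) - A := by linarith
    have h7' : 49 / 112000 * c1 * M ≤
        (((B : ℝ) - A) / 8) * (5 / 7) * (∏ p ∈ m.primeFactors \ {2, 7}, (1 - 1 / (p : ℝ))) := by
      have h8 : 49 / 112000 * (M : ℝ) ≤ (((B : ℝ) - A) / 8) * (5 / 7) := by linarith
      calc 49 / 112000 * c1 * M = (49 / 112000 * (M : ℝ)) * c1 := by ring
        _ ≤ (((B : ℝ) - A) / 8) * (5 / 7) *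
            (∏ p ∈ m.primeFactors \ {2, 7}, (1 - 1 / (p : ℝ))) :=
          mul_le_mul h8 h2 hc10 (le_trans (by positivity) h8)
    have h9 : (T1 : ℝ) ≤ ((cn1 A B r m c d).card : ℝ) := by
      have h10 : 3 * (2 : ℝ) ^ m.primeFactors.card ≤ 15 * M / q2 := by
        calc 3 * (2 : ℝ) ^ m.primeFactors.card ≤ 3 * (5 * M / q2) := by linarith
          _ = 15 * M / q2 := by ring
      linarith
    exact_mod_cast h9
  · intro x N r S A B hx hxM hN hNM hr hS hBS _ hAB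
    have hABn : A ≤ B := by omega
    have h1 := sv2e hABn hx hN hr hS hBS
    have h2 := hc2 x N hx hxM hN hNM
    have hxN : x * N ≤ M * M := Nat.mul_le_mul hxM.le hNM.le
    have h3 : (q3 : ℝ) * 3 ^ (x * N).primeFactors.card ≤ 33 * M := by
      exact_mod_cast pw3_use (pw3 (x * N) (Nat.mul_pos hx hN)) hxN hq3
    have hq3r : (0 : ℝ) < q3 := by exact_mod_cast hq30
    have h4 : (3 : ℝ) ^ (x * N).primeFactors.card ≤ 33 * M / q3 := by
      rw [le_div_iff₀ hq3r]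
      linarith
    have h5 : (100 : ℝ) * A + 5 * M ≤ 100 * B := by exact_mod_cast hAB
    have h6 : 1 / 20 * (M : ℝ) ≤ (B : ℝ) - A := by linarith
    have h7' : 1 / 160 * c2 * M ≤
        (((B : ℝ) - A) / 8) *
          (∏ p ∈ (x * N).primeFactors.erase 2, (1 - (if p ∣ x ∧ p ∣ N then 2 else 1) / (p : ℝ))) := by
      have h8 : 1 / 160 * (M : ℝ) ≤ (((B : ℝ) - A) / 8) := by linarith
      calc 1 / 160 * c2 * M = (1 / 160 * (M : ℝ)) * c2 := by ring
        _ ≤ _ := mul_le_mul h8 h2 hc20 (le_trans (by positivity) h8)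
    have h9 : (T2 : ℝ) ≤ ((cn2 A B r x S N).card : ℝ) := by linarith
    exact_mod_cast h9

end Pool.Agent.LR4
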