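import Mathlib

/-!
# LR4 / SupplyX: odd numbers just above `2N` without small prime factors, explicit tolerance

For `1 ≤ L` and `4 ^ (20 L) ≤ N` there is an odd `M` in `(2N, 2N + 2N/L]` all of whose prime
factors are larger than `4 L`, such that at most `M / L` numbers below `M` are not coprime to `M`.
The number `M` is found in the class of `1` modulo the primorial of `4 L`, by averaging
the sum of `1/p` over the prime factors `p` of `M`.
-/

set_option autoImplicit false

namespace Pool.Agent.LR4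

open Finset

/-- A prime not dividing `Q` divides at most `J / p + 1` of the numbers `1 + Q (j0 + j)`. -/
theorem supx_cnt (Q j0 J p : ℕ) (hp : p.Prime) (hQ : ¬ p ∣ Q) :
    ((Icc 1 J).filter (fun j => p ∣ 1 + Q * (j0 + j))).card ≤ J / p + 1 := by
  have h1 : ((Icc 1 J).filter (fun j => p ∣ 1 + Q * (j0 + j))).card ≤
      (range (J / p + 1)).card := by
    apply Finset.card_le_card_of_injOn (fun j => j / p)
    · intro j hj
      simp only [Finset.coe_filter, Set.mem_setOf_eq, mem_Icc] at hj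
      simp only [Finset.coe_range, Set.mem_Iio]
      exact Nat.lt_succ_of_le (Nat.div_le_div_right hj.1.2)
    · intro j hj i hi hji
      simp only [Finset.coe_filter, Set.mem_setOf_eq, mem_Icc] at hj hi
      simp only at hji
      have hc : Nat.Coprime p Q := (Nat.Prime.coprime_iff_not_dvd hp).2 hQ
      have e1 : 1 + Q * (j0 + j) ≡ 1 + Q * (j0 + i) [MOD p] :=
        ((Nat.modEq_zero_iff_dvd).2 hj.2).trans ((Nat.modEq_zero_iff_dvd).2 hi.2).symm
      have e2 : Q * (j0 + j) ≡ Q * (j0 + i) [MOD p] := Nat.ModEq.add_left_cancel' 1 e1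
      have e3 : j0 + j ≡ j0 + i [MOD p] := Nat.ModEq.cancel_left_of_coprime hc e2
      have e4 : j ≡ i [MOD p] := Nat.ModEq.add_left_cancel' j0 e3
      have e5 : j % p = i % p := e4
      calc j = p * (j / p) + j % p := (Nat.div_add_mod j p).symm
        _ = p * (i / p) + i % p := by rw [hji, e5]
        _ = i := Nat.div_add_mod i p
  simpa using h1

/-- Multiples of a divisor `p` of `M` below `M`. -/
theorem supx_mult (M p : ℕ) (hp : 0 < p) (hd : p ∣ M) :
    ((range M).filter (fun x => p ∣ x)).card ≤ M / p := by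
  have h1 : ((range M).filter (fun x => p ∣ x)).card ≤ (range (M / p)).card := by
    apply Finset.card_le_card_of_injOn (fun j => j / p)
    · intro j hj
      simp only [Finset.coe_filter, Set.mem_setOf_eq, mem_range] at hj
      simp only [Finset.coe_range, Set.mem_Iio]
      exact Nat.div_lt_div_of_lt_of_dvd hd hj.1
    · intro j hj i hi hji
      simp only [Finset.coe_filter, Set.mem_setOf_eq, mem_range] at hj hi
      simp only at hji
      rw [← Nat.div_mul_cancel hj.2, ← Nat.div_mul_cancel hi.2, hji]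
  simpa using h1

/-- The nonunits below `M` are at most `M` times the sum of `1/p`. -/
theorem supx_nonunits (M : ℕ) (hM : 0 < M) :
    ((((range M).filter (fun x => ¬ Nat.Coprime x M)).card : ℕ) : ℚ) ≤
      M * ∑ p ∈ M.primeFactors, (1 : ℚ) / p := by
  have h1 : ((range M).filter (fun x => ¬ Nat.Coprime x M)) ⊆
      M.primeFactors.biUnion (fun p => (range M).filter (fun x => p ∣ x)) := by
    intro x hx
    rw [mem_filter] at hx
    obtain ⟨p, hp, hpx, hpM⟩ := Nat.Prime.not_coprime_iff_dvd.1 hx.2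
    rw [mem_biUnion]
    exact ⟨p, Nat.mem_primeFactors.2 ⟨hp, hpM, hM.ne'⟩, mem_filter.2 ⟨hx.1, hpx⟩⟩
  have h2 : (((range M).filter (fun x => ¬ Nat.Coprime x M)).card) ≤
      ∑ p ∈ M.primeFactors, M / p := by
    refine (Finset.card_le_card h1).trans (Finset.card_biUnion_le.trans ?_)
    refine Finset.sum_le_sum fun p hp => ?_
    exact supx_mult M p (Nat.prime_of_mem_primeFactors hp).pos (Nat.dvd_of_mem_primeFactors hp)
  have h3 : ((((range M).filter (fun x => ¬ Nat.Coprime x M)).card : ℕ) : ℚ) ≤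
      ∑ p ∈ M.primeFactors, ((M / p : ℕ) : ℚ) := by exact_mod_cast h2
  refine h3.trans ?_
  rw [Finset.mul_sum]
  refine Finset.sum_le_sum fun p hp => ?_
  calc ((M / p : ℕ) : ℚ) ≤ (M : ℚ) / p := Nat.cast_div_le
    _ = M * (1 / p) := by ring

/-- Telescoping bound for the sum of `1/m^2`. -/
theorem supx_tel (a J : ℕ) (ha : 1 ≤ a) :
    ∑ m ∈ Ico (a + 1) J, (1 : ℚ) / (m * m) ≤ 1 / a := by
  have key : ∀ J : ℕ, a + 1 ≤ J → ∑ m ∈ Ico (a + 1) J, (1 : ℚ) / (m * m) ≤ 1 / a - 1 / (J - 1 : ℚ) := by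
    intro J hJ
    induction J, hJ using Nat.le_induction with
    | base => simp
    | succ k hk ih =>
      rw [Finset.sum_Ico_succ_top hk]
      have hk' : (2 : ℚ) ≤ k := by exact_mod_cast (by omega : 2 ≤ k)
      have h1 : (1 : ℚ) / (k * k) ≤ 1 / (k - 1 : ℚ) - 1 / k := by
        rw [div_sub_div _ _ (by linarith) (by linarith), div_le_div_iff₀ (by positivity) (by nlinarith)]
        nlinarith
      push_cast
      have h2 : ((k : ℚ) + 1 - 1) = k := by ring
      rw [h2]
      linarith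
  rcases Nat.lt_or_ge J (a + 1) with h | h
  · rw [Finset.Ico_eq_empty (by omega)]
    simp
  · refine (key J h).trans ?_
    have h2 : (1 : ℚ) ≤ J - 1 := by
      have : ((a + 1 : ℕ) : ℚ) ≤ J := by exact_mod_cast h
      have h3 : (1 : ℚ) ≤ a := by exact_mod_cast ha
      push_cast at this
      linarith
    have : (0 : ℚ) ≤ 1 / (J - 1 : ℚ) := by positivity
    linarith

/-- At most one prime factor is at least `J` if `M < J ^ 2`. -/
theorem supx_large (M J : ℕ) (hJ : 0 < J) (hM0 : 0 < M) (hM : M < J * J) :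
    ∑ p ∈ M.primeFactors.filter (fun p => J ≤ p), (1 : ℚ) / p ≤ 1 / J := by
  have hcard : (M.primeFactors.filter (fun p => J ≤ p)).card ≤ 1 := by
    rw [Finset.card_le_one]
    intro p hp q hq
    rw [mem_filter] at hp hq
    by_contra hne
    have hpp := Nat.prime_of_mem_primeFactors hp.1
    have hqp := Nat.prime_of_mem_primeFactors hq.1
    have hc : Nat.Coprime p q := (Nat.coprime_primes hpp hqp).2 hne
    have hd : p * q ∣ M := Nat.Coprime.mul_dvd_of_dvd_of_dvd hc
      (Nat.dvd_of_mem_primeFactors hp.1) (Nat.dvd_of_mem_primeFactors hq.1)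
    have h1 := Nat.le_of_dvd hM0 hd
    have h2 : J * J ≤ p * q := Nat.mul_le_mul hp.2 hq.2
    omega
  have hJq : (0 : ℚ) < J := by exact_mod_cast hJ
  calc ∑ p ∈ M.primeFactors.filter (fun p => J ≤ p), (1 : ℚ) / p
      ≤ ∑ _p ∈ M.primeFactors.filter (fun p => J ≤ p), (1 : ℚ) / J := by
        refine Finset.sum_le_sum fun p hp => ?_
        rw [mem_filter] at hp
        exact one_div_le_one_div_of_le hJq (by exact_mod_cast hp.2)
    _ = (M.primeFactors.filter (fun p => J ≤ p)).card * ((1 : ℚ) / J) := by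
        rw [Finset.sum_const, nsmul_eq_mul]
    _ ≤ 1 * ((1 : ℚ) / J) := by
        have : (((M.primeFactors.filter (fun p => J ≤ p)).card : ℕ) : ℚ) ≤ 1 := by
          exact_mod_cast hcard
        exact mul_le_mul_of_nonneg_right this (by positivity)
    _ = 1 / J := one_mul _

/-- Averaging: some `1 + Q (j0 + j)` has a small sum of `1/p`. -/
theorem supx_avg (L Q j0 J : ℕ) (hL : 1 ≤ L) (hJL : 2 * L < J)
    (hQ : ∀ p : ℕ, p.Prime → p ≤ 4 * L → p ∣ Q) (hM : 1 + Q * (j0 + J) < J * J) :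
    ∃ j ∈ Icc 1 J, ∑ p ∈ (1 + Q * (j0 + j)).primeFactors, (1 : ℚ) / p ≤ 1 / L := by
  by_contra hcon
  push Not at hcon
  have hJ0 : 0 < J := by omega
  have hLq : (0 : ℚ) < L := by exact_mod_cast hL
  have hJq : (0 : ℚ) < J := by exact_mod_cast hJ0
  -- a prime factor of `1 + Q * m` does not divide `Q`
  have hnd : ∀ (m p : ℕ), p.Prime → p ∣ 1 + Q * m → ¬ p ∣ Q := by
    intro m p hp h1 h2
    have h3 : p ∣ 1 := (Nat.dvd_add_left (Dvd.dvd.mul_right h2 m)).1 h1
    exact hp.one_lt.ne' (Nat.dvd_one.1 h3)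
  have hlow : (J : ℚ) * (1 / L) <
      ∑ j ∈ Icc 1 J, ∑ p ∈ (1 + Q * (j0 + j)).primeFactors, (1 : ℚ) / p := by
    have h1 : ∑ _j ∈ Icc 1 J, (1 : ℚ) / L <
        ∑ j ∈ Icc 1 J, ∑ p ∈ (1 + Q * (j0 + j)).primeFactors, (1 : ℚ) / p :=
      Finset.sum_lt_sum_of_nonempty ⟨1, mem_Icc.2 ⟨le_rfl, hJ0⟩⟩ (fun j hj => hcon j hj)
    rw [Finset.sum_const, Nat.card_Icc, nsmul_eq_mul] at h1
    simpa using h1
  have hup : ∀ j ∈ Icc 1 J, ∑ p ∈ (1 + Q * (j0 + j)).primeFactors, (1 : ℚ) / p ≤
      ∑ p ∈ (Ico (4 * L + 1) J).filter Nat.Prime,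
        (if p ∣ 1 + Q * (j0 + j) then (1 : ℚ) / p else 0) + 1 / J := by
    intro j hj
    rw [mem_Icc] at hj
    rw [← Finset.sum_filter_add_sum_filter_not (1 + Q * (j0 + j)).primeFactors (fun p => J ≤ p),
      add_comm]
    refine add_le_add ?_ (supx_large _ J hJ0 (by omega) ?_)
    · rw [← Finset.sum_filter]
      apply Finset.sum_le_sum_of_subset_of_nonneg
      · intro p hp
        rw [mem_filter] at hp
        have hpp := Nat.prime_of_mem_primeFactors hp.1
        have hpd := Nat.dvd_of_mem_primeFactors hp.1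
        rw [mem_filter, mem_filter, mem_Ico]
        refine ⟨⟨⟨?_, by omega⟩, hpp⟩, hpd⟩
        by_contra hlt
        exact hnd _ p hpp hpd (hQ p hpp (by omega))
      · intro p _ _
        positivity
    · have : Q * (j0 + j) ≤ Q * (j0 + J) := Nat.mul_le_mul_left Q (by omega)
      omega
  have hsum : ∑ j ∈ Icc 1 J, ∑ p ∈ (1 + Q * (j0 + j)).primeFactors, (1 : ℚ) / p ≤
      (J : ℚ) / (2 * L) + 1 := by
    calc ∑ j ∈ Icc 1 J, ∑ p ∈ (1 + Q * (j0 + j)).primeFactors, (1 : ℚ) / p
        ≤ ∑ j ∈ Icc 1 J, (∑ p ∈ (Ico (4 * L + 1) J).filter Nat.Prime,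
          (if p ∣ 1 + Q * (j0 + j) then (1 : ℚ) / p else 0) + 1 / J) := Finset.sum_le_sum hup
      _ = (∑ p ∈ (Ico (4 * L + 1) J).filter Nat.Prime, ∑ j ∈ Icc 1 J,
          (if p ∣ 1 + Q * (j0 + j) then (1 : ℚ) / p else 0)) + 1 := by
          rw [Finset.sum_add_distrib, Finset.sum_comm, Finset.sum_const, Nat.card_Icc,
            nsmul_eq_mul]
          congr 1
          simp only [Nat.add_sub_cancel]
          field_simp
      _ ≤ (∑ p ∈ Ico (4 * L + 1) J, 2 * (J : ℚ) * (1 / (p * p))) + 1 := by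
          refine add_le_add ?_ le_rfl
          refine (Finset.sum_le_sum (g := fun p : ℕ => 2 * (J : ℚ) * (1 / (p * p))) ?_).trans
            (Finset.sum_le_sum_of_subset_of_nonneg (Finset.filter_subset _ _) ?_)
          · intro p hp
            rw [mem_filter, mem_Ico] at hp
            obtain ⟨⟨hp1, hp2⟩, hpp⟩ := hp
            have hp0 : (0 : ℚ) < p := by exact_mod_cast hpp.pos
            by_cases hpQ : p ∣ Q
            · have : ∀ j ∈ Icc 1 J, (if p ∣ 1 + Q * (j0 + j) then (1 : ℚ) / p else 0) = 0 := by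
                intro j _
                rw [if_neg]
                intro h
                exact hnd _ p hpp h hpQ
              rw [Finset.sum_eq_zero this]
              positivity
            · rw [← Finset.sum_filter, Finset.sum_const, nsmul_eq_mul]
              have h1 := supx_cnt Q j0 J p hpp hpQ
              have h2 : ((((Icc 1 J).filter (fun j => p ∣ 1 + Q * (j0 + j))).card : ℕ) : ℚ) ≤
                  (J : ℚ) / p + 1 := by
                have h3 : ((((Icc 1 J).filter (fun j => p ∣ 1 + Q * (j0 + j))).card : ℕ) : ℚ) ≤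
                    ((J / p + 1 : ℕ) : ℚ) := by exact_mod_cast h1
                refine h3.trans ?_
                push_cast
                have := @Nat.cast_div_le ℚ _ _ _ J p
                linarith
              have h4 : (1 : ℚ) ≤ (J : ℚ) / p := by
                rw [le_div_iff₀ hp0, one_mul]
                exact_mod_cast hp2.le
              calc _ ≤ ((J : ℚ) / p + 1) * (1 / p) :=
                    mul_le_mul_of_nonneg_right h2 (by positivity)
                _ ≤ (2 * ((J : ℚ) / p)) * (1 / p) :=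
                    mul_le_mul_of_nonneg_right (by linarith) (by positivity)
                _ = 2 * (J : ℚ) * (1 / (p * p)) := by
                    field_simp
          · intro p _ _
            positivity
      _ ≤ 2 * (J : ℚ) * (1 / (4 * L : ℕ)) + 1 := by
          rw [← Finset.mul_sum]
          refine add_le_add (mul_le_mul_of_nonneg_left ?_ (by positivity)) le_rfl
          exact supx_tel (4 * L) J (by omega)
      _ = (J : ℚ) / (2 * L) + 1 := by
          push_cast
          field_simp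
          ring
  have h5 : (J : ℚ) * (1 / L) < (J : ℚ) / (2 * L) + 1 := lt_of_lt_of_le hlow hsum
  have h6 : (J : ℚ) * (1 / L) = 2 * ((J : ℚ) / (2 * L)) := by
    field_simp
  have h7 : (1 : ℚ) < (J : ℚ) / (2 * L) := by
    rw [lt_div_iff₀ (by positivity), one_mul]
    exact_mod_cast hJL
  linarith

/-- Explicit supply with tolerance `1 / L`. -/
theorem supplyX (L N : ℕ) (hL : 1 ≤ L) (hN : 4 ^ (20 * L) ≤ N) :
    ∃ M : ℕ, 2 * N < M ∧ L * (M - 2 * N) ≤ 2 * N ∧ Odd M ∧
      (∀ p : ℕ, p.Prime → p ∣ M → 4 * L < p) ∧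
      L * ((range M).filter (fun x => ¬ Nat.Coprime x M)).card ≤ M := by
  set Q := primorial (4 * L) with hQdef
  have hQ4 : Q ≤ 4 ^ (4 * L) := primorial_le_four_pow (4 * L)
  have hQ0 : 0 < Q := primorial_pos _
  have hQd : ∀ p : ℕ, p.Prime → p ≤ 4 * L → p ∣ Q := by
    intro p hp hpl
    rw [hQdef]
    unfold primorial
    exact Finset.dvd_prod_of_mem _ (mem_filter.2 ⟨mem_range.2 (by omega), hp⟩)
  set s := Nat.sqrt N with hs
  have hs1 : s * s ≤ N := Nat.sqrt_le N
  have hs2 : N < (s + 1) * (s + 1) := Nat.lt_succ_sqrt N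
  have hs3 : 4 ^ (10 * L) ≤ s := by
    rw [hs, Nat.le_sqrt, ← pow_add]
    have : 10 * L + 10 * L = 20 * L := by ring
    rw [this]; exact hN
  have hLp : L ≤ 4 ^ L := (Nat.lt_pow_self (by norm_num : 1 < 4)).le
  have h5L : 4 ^ (10 * L) = 4 ^ (5 * L) * 4 ^ (5 * L) := by rw [← pow_add]; congr 1; ring
  have h5L' : 4 ^ (5 * L) = 4 ^ L * 4 ^ (4 * L) := by rw [← pow_add]; congr 1; ring
  have h5b : 3 ≤ 4 ^ (5 * L) := by
    calc 3 ≤ 4 ^ 1 := by norm_num
      _ ≤ 4 ^ (5 * L) := Nat.pow_le_pow_right (by norm_num) (by omega)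
  set J := 2 * s + 2 with hJ
  have hLJ : L * (1 + Q * J) ≤ N := by
    have e1 : 1 + Q * J ≤ 4 ^ (4 * L) * (2 * s + 3) := by
      have : Q * J ≤ 4 ^ (4 * L) * J := Nat.mul_le_mul_right _ hQ4
      have h1 : 1 ≤ 4 ^ (4 * L) := Nat.one_le_pow _ _ (by norm_num)
      calc 1 + Q * J ≤ 4 ^ (4 * L) + 4 ^ (4 * L) * J := add_le_add h1 this
        _ = 4 ^ (4 * L) * (2 * s + 3) := by rw [hJ]; ring
    have hs5 : 3 * 4 ^ (5 * L) ≤ s := by
      calc 3 * 4 ^ (5 * L) ≤ 4 ^ (5 * L) * 4 ^ (5 * L) := Nat.mul_le_mul_right _ h5b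
        _ = 4 ^ (10 * L) := h5L.symm
        _ ≤ s := hs3
    have hs6 : 2 * s + 3 ≤ 3 * s := by
      have : 3 ≤ s := le_trans (by omega) hs5
      omega
    calc L * (1 + Q * J) ≤ 4 ^ L * (4 ^ (4 * L) * (2 * s + 3)) := Nat.mul_le_mul hLp e1
      _ = 4 ^ (5 * L) * (2 * s + 3) := by rw [h5L']; ring
      _ ≤ 4 ^ (5 * L) * (3 * s) := Nat.mul_le_mul_left _ hs6
      _ = (3 * 4 ^ (5 * L)) * s := by ring
      _ ≤ s * s := Nat.mul_le_mul_right _ hs5
      _ ≤ N := hs1
  have hQJ : 1 + Q * J ≤ N := le_trans (Nat.le_mul_of_pos_left _ (by omega)) hLJ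
  set j0 := 2 * N / Q with hj0
  have hj1 : Q * j0 ≤ 2 * N := Nat.mul_div_le (2 * N) Q
  have hj2 : 2 * N < Q * (j0 + 1) := Nat.lt_mul_div_succ (2 * N) hQ0
  have hup : 1 + Q * (j0 + J) ≤ 3 * N := by
    rw [mul_add]; omega
  have hJJ : 1 + Q * (j0 + J) < J * J := by
    have : 4 * N < J * J := by rw [hJ]; nlinarith
    omega
  have hJL : 2 * L < J := by
    have h1 : L ≤ 4 ^ (10 * L) := hLp.trans (Nat.pow_le_pow_right (by norm_num) (by omega))
    omega
  obtain ⟨j, hj, hR⟩ := supx_avg L Q j0 J hL hJL hQd hJJ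
  rw [mem_Icc] at hj
  have hMlow : 2 * N < 1 + Q * (j0 + j) := by
    have : Q * (j0 + 1) ≤ Q * (j0 + j) := Nat.mul_le_mul_left Q (by omega)
    omega
  have hMup : 1 + Q * (j0 + j) ≤ 2 * N + (1 + Q * J) := by
    have : Q * j ≤ Q * J := Nat.mul_le_mul_left Q hj.2
    rw [mul_add]; omega
  refine ⟨1 + Q * (j0 + j), hMlow, ?_, ?_, ?_, ?_⟩
  · calc L * (1 + Q * (j0 + j) - 2 * N) ≤ L * (1 + Q * J) := Nat.mul_le_mul_left L (by omega)
      _ ≤ N := hLJ
      _ ≤ 2 * N := by omega
  · have h2 : Even (Q * (j0 + j)) := by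
      have : 2 ∣ Q := hQd 2 Nat.prime_two (by omega)
      exact (even_iff_two_dvd.2 this).mul_right _
    exact (Even.add_one h2 : Odd (Q * (j0 + j) + 1)) |> fun h => by rwa [add_comm] at h
  · intro p hp hd
    by_contra hlt
    have h2 : p ∣ Q := hQd p hp (by omega)
    have h3 : p ∣ 1 := (Nat.dvd_add_left (Dvd.dvd.mul_right h2 _)).1 hd
    exact hp.one_lt.ne' (Nat.dvd_one.1 h3)
  · have hM0 : 0 < 1 + Q * (j0 + j) := by omega
    have h1 := supx_nonunits (1 + Q * (j0 + j)) hM0
    have hLq : (0 : ℚ) < L := by exact_mod_cast hL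
    have h2 : ((((range (1 + Q * (j0 + j))).filter
        (fun x => ¬ Nat.Coprime x (1 + Q * (j0 + j)))).card : ℕ) : ℚ) ≤
        ((1 + Q * (j0 + j) : ℕ) : ℚ) * (1 / L) :=
      h1.trans (mul_le_mul_of_nonneg_left hR (by positivity))
    have h3 : (L : ℚ) * ((((range (1 + Q * (j0 + j))).filter
        (fun x => ¬ Nat.Coprime x (1 + Q * (j0 + j)))).card : ℕ) : ℚ) ≤
        ((1 + Q * (j0 + j) : ℕ) : ℚ) := by
      calc _ ≤ (L : ℚ) * (((1 + Q * (j0 + j) : ℕ) : ℚ) * (1 / L)) :=
            mul_le_mul_of_nonneg_left h2 hLq.le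
        _ = _ := by field_simp
    exact_mod_cast h3

end Pool.Agent.LR4
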