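import Mathlib
import Pool.Agent.LR4.R3Core
import Pool.Agent.LR4.R3cnt
import Pool.Agent.LR4.Supply
import Pool.Agent.LR4.Supply9
import Pool.Agent.LR4.SupplyX

/-!
# LR4 / R3: the large range `n ≥ 10^21`

Three ranges of `n`, with the supplies of moduli `supply`, `supply9`, `supplyX`. The bound for the
odd speeds in the window (from the table) is the hypothesis `OddFew`.
-/

set_option autoImplicit false

namespace Pool.Agent.LR4

open Finset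

/-- The bound for the odd speeds in the window, for moduli without prime factors below `10^6`. -/
def OddFew (n : ℕ) (V : Finset ℕ) : Prop := ∀ M : ℕ, Odd M →
  (∀ p : ℕ, p.Prime → p ∣ M → 10 ^ 6 ≤ p) → ∀ K : ℕ, M = 2 * n + K → 3 ≤ K → 1000 * K ≤ M →
  F1 M V (50 * (labL M V).card + (nuS M).card)

/-- Range I. -/
theorem r3_rangeI {n : ℕ} {V : Finset ℕ} (h : Cex n V) (hT : OddFew n V)
    (h1 : 10 ^ 21 ≤ n) (h2 : n + 1 < 10 ^ 40) : False := by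
  obtain ⟨M, hM1, hM2, hMo, hp, hnu⟩ := supply (n + 1) (by omega)
  obtain ⟨D, hD⟩ : ∃ D, D = ((range M).filter (fun x => ¬ Nat.Coprime x M)).card := ⟨_, rfl⟩
  rw [← hD] at hnu
  obtain ⟨K, hK⟩ : ∃ K, M = 2 * n + K := ⟨M - 2 * n, by omega⟩
  have hK3 : 3 ≤ K := by omega
  have hK6 : 10 ^ 6 * K ≤ 2 * (n + 1) + 2 * 10 ^ 6 := by
    have : M - 2 * (n + 1) = K - 2 := by omega
    rw [this] at hM2
    omega
  have hMbig : 2 * 10 ^ 21 ≤ M := by omega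
  have hKM : 1000 * K ≤ M := by omega
  have hMup : M ≤ 3 * 10 ^ 40 := by omega
  have hC : Cnt M (M * 874 / 10 ^ 7) (M * 46 / 10 ^ 6) := by
    refine cnt_gen (q2 := 10 ^ 10) (q3 := 10 ^ 7) (c1 := 1 / 5) (c2 := 80 / 10 ^ 4)
      ?_ ?_ (by norm_num) (by norm_num) (by norm_num) (by norm_num) ?_ ?_ ?_ ?_
    · intro m hm hmM
      refine pb1s m hm (lt_of_le_of_lt hmM ?_)
      have h135 : 3 * 10 ^ 40 < 2 ^ 135 := by norm_num
      have hMlt : M < 2 ^ 135 := lt_of_le_of_lt hMup h135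
      calc M * M < 2 ^ 135 * 2 ^ 135 := Nat.mul_lt_mul_of_lt_of_lt hMlt hMlt
        _ = 2 ^ 270 := by rw [← pow_add]
    · intro x N hx hxM hN hNM
      have h14 : 14 * M < 2 ^ (2 ^ 10) := by
        have h139 : 14 * M < 2 ^ 139 := by
          have h140 : 14 * (3 * 10 ^ 40) < 2 ^ 139 := by norm_num
          omega
        exact lt_of_lt_of_le h139 (Nat.pow_le_pow_right (by norm_num) (by norm_num))
      have h3 := pb2 x N 10 le_rfl hx hN
        (lt_of_le_of_lt (Nat.mul_le_mul_left 14 hxM.le) h14)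
        (lt_of_le_of_lt (Nat.mul_le_mul_left 14 hNM.le) h14)
      have e : ((10 : ℕ) : ℝ) = 10 := by norm_num
      rw [e] at h3
      exact h3
    · calc 10 ^ 10 * 10 ^ 10 ≤ 2 * 10 ^ 21 := by norm_num
        _ ≤ M := hMbig
    · calc 10 ^ 7 * 10 ^ 7 * 10 ^ 7 ≤ 2 * 10 ^ 21 := by norm_num
        _ ≤ M := hMbig
    · have h3 : (((M * 874 / 10 ^ 7 : ℕ)) : ℝ) ≤ ((M * 874 : ℕ) : ℝ) / ((10 ^ 7 : ℕ) : ℝ) :=
        Nat.cast_div_le
      have h4 : (0 : ℝ) ≤ M := Nat.cast_nonneg M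
      refine h3.trans ?_
      push_cast
      have : (49 / 112000 * (1 / 5) * (M : ℝ) - 15 * M / 10 ^ 10) -
        (M : ℝ) * 874 / 10 ^ 7 = (49 / 112000 * (1 / 5) - 15 / 10 ^ 10 - 874 / 10 ^ 7) * M := by ring
      have h5 : (0 : ℝ) ≤ (49 / 112000 * (1 / 5) - 15 / 10 ^ 10 - 874 / 10 ^ 7) * M :=
        mul_nonneg (by norm_num) h4
      linarith
    · have h3 : (((M * 46 / 10 ^ 6 : ℕ)) : ℝ) ≤ ((M * 46 : ℕ) : ℝ) / ((10 ^ 6 : ℕ) : ℝ) :=
        Nat.cast_div_le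
      have h4 : (0 : ℝ) ≤ M := Nat.cast_nonneg M
      refine h3.trans ?_
      push_cast
      have : (1 / 160 * (80 / 10 ^ 4) * (M : ℝ) - 33 * M / 10 ^ 7) -
        (M : ℝ) * 46 / 10 ^ 6 = (1 / 160 * (80 / 10 ^ 4) - 33 / 10 ^ 7 - 46 / 10 ^ 6) * M := by ring
      have h5 : (0 : ℝ) ≤ (1 / 160 * (80 / 10 ^ 4) - 33 / 10 ^ 7 - 46 / 10 ^ 6) * M :=
        mul_nonneg (by norm_num) h4
      linarith
  exact r3_main h hK hMo hK3 hKM (by omega) (hT M hMo hp K hK hK3 hKM) (le_of_eq hD.symm) hC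
    (by omega) (by omega) (by omega)

/-- Sizes. -/
theorem r3_size {e M n : ℕ} (h : n + 1 < 2 ^ e) (hM : M ≤ 4 * (n + 1)) (he : 4 ≤ e) :
    14 * (M * M) < 2 ^ (4 * e) := by
  have h1 : M < 2 ^ (e + 2) := by
    rw [pow_add]
    omega
  have h2 : M * M < 2 ^ (e + 2) * 2 ^ (e + 2) := Nat.mul_lt_mul_of_lt_of_lt h1 h1
  have h3 : 14 * (2 ^ (e + 2) * 2 ^ (e + 2)) ≤ 2 ^ (4 * e) := by
    calc 14 * (2 ^ (e + 2) * 2 ^ (e + 2)) ≤ 2 ^ 4 * (2 ^ (e + 2) * 2 ^ (e + 2)) :=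
          Nat.mul_le_mul_right _ (by norm_num)
      _ = 2 ^ (4 + ((e + 2) + (e + 2))) := by rw [pow_add 2 4, pow_add 2 (e + 2) (e + 2)]
      _ ≤ 2 ^ (4 * e) := Nat.pow_le_pow_right (by norm_num) (by omega)
  omega

/-- Range II. -/
theorem r3_rangeII {n e t : ℕ} {V : Finset ℕ} (h : Cex n V) (hT : OddFew n V)
    (h1 : 10 ^ 40 ≤ n + 1) (he : 4 ≤ e) (h2 : n + 1 < 2 ^ e) (ht : 4 * e = 2 ^ t) (ht32 : t = 32) :
    False := by
  obtain ⟨M, hM1, hM2, hMo, hp, hnu⟩ := supply9 (n + 1) h1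
  obtain ⟨D, hD⟩ : ∃ D, D = ((range M).filter (fun x => ¬ Nat.Coprime x M)).card := ⟨_, rfl⟩
  rw [← hD] at hnu
  obtain ⟨K, hK⟩ : ∃ K, M = 2 * n + K := ⟨M - 2 * n, by omega⟩
  have hK3 : 3 ≤ K := by omega
  have hK9 : 10 ^ 9 * K ≤ 2 * (n + 1) + 2 * 10 ^ 9 := by
    have : M - 2 * (n + 1) = K - 2 := by omega
    rw [this] at hM2
    omega
  have hMbig : 10 ^ 40 ≤ M := by omega
  have hKM : 1000 * K ≤ M := by omega
  have hMup : M ≤ 4 * (n + 1) := by omega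
  have hMM : 14 * (M * M) < 2 ^ (2 ^ t) := by
    have h5 := r3_size h2 hMup he
    rw [ht] at h5
    exact h5
  have hM14 : 14 * M < 2 ^ (2 ^ t) :=
    lt_of_le_of_lt (Nat.mul_le_mul_left 14 (Nat.le_mul_of_pos_left M (by omega))) hMM
  have ht10 : 10 ≤ t := by omega
  have etR : (t : ℝ) = 32 := by rw [ht32]; norm_num
  have hC : Cnt M (M * 64 / 10 ^ 7) (M * 4 / 10 ^ 7) := by
    refine cnt_gen (q2 := 10 ^ 13) (q3 := 10 ^ 13) (c1 := (91 / 6) / 32 ^ 2) (c2 := 80 / 32 ^ 4)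
      ?_ ?_ (by norm_num) (by norm_num) (by norm_num) (by norm_num) ?_ ?_ ?_ ?_
    · intro m hm hmM
      have h3 := pb1 m t ht10 hm (lt_of_le_of_lt (Nat.mul_le_mul_left 14 hmM) hMM)
      rw [etR] at h3
      exact h3
    · intro x N hx hxM hN hNM
      have h3 := pb2 x N t ht10 hx hN
        (lt_of_le_of_lt (Nat.mul_le_mul_left 14 hxM.le) hM14)
        (lt_of_le_of_lt (Nat.mul_le_mul_left 14 hNM.le) hM14)
      rw [etR] at h3
      exact h3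
    · calc 10 ^ 13 * 10 ^ 13 ≤ 10 ^ 40 := by norm_num
        _ ≤ M := hMbig
    · calc 10 ^ 13 * 10 ^ 13 * 10 ^ 13 ≤ 10 ^ 40 := by norm_num
        _ ≤ M := hMbig
    · have h3 : (((M * 64 / 10 ^ 7 : ℕ)) : ℝ) ≤ ((M * 64 : ℕ) : ℝ) / ((10 ^ 7 : ℕ) : ℝ) :=
        Nat.cast_div_le
      have h4 : (0 : ℝ) ≤ M := Nat.cast_nonneg M
      refine h3.trans ?_
      push_cast
      have : (49 / 112000 * ((91 / 6) / 32 ^ 2) * (M : ℝ) - 15 * M / 10 ^ 13) -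
        (M : ℝ) * 64 / 10 ^ 7 = (49 / 112000 * ((91 / 6) / 32 ^ 2) - 15 / 10 ^ 13 - 64 / 10 ^ 7) * M := by
        ring
      have h5 : (0 : ℝ) ≤ (49 / 112000 * ((91 / 6) / 32 ^ 2) - 15 / 10 ^ 13 - 64 / 10 ^ 7) * M :=
        mul_nonneg (by norm_num) h4
      linarith
    · have h3 : (((M * 4 / 10 ^ 7 : ℕ)) : ℝ) ≤ ((M * 4 : ℕ) : ℝ) / ((10 ^ 7 : ℕ) : ℝ) :=
        Nat.cast_div_le
      have h4 : (0 : ℝ) ≤ M := Nat.cast_nonneg M
      refine h3.trans ?_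
      push_cast
      have : (1 / 160 * (80 / 32 ^ 4) * (M : ℝ) - 33 * M / 10 ^ 13) -
        (M : ℝ) * 4 / 10 ^ 7 = (1 / 160 * (80 / 32 ^ 4) - 33 / 10 ^ 13 - 4 / 10 ^ 7) * M := by ring
      have h5 : (0 : ℝ) ≤ (1 / 160 * (80 / 32 ^ 4) - 33 / 10 ^ 13 - 4 / 10 ^ 7) * M :=
        mul_nonneg (by norm_num) h4
      linarith
  exact r3_main h hK hMo hK3 hKM (by omega)
    (hT M hMo (fun p hpp hpd => le_trans (by norm_num) (hp p hpp hpd)) K hK hK3 hKM)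
    (le_of_eq hD.symm) hC (by omega) (by omega) (by omega)

/-- Powers of two against fourth powers. -/
theorem r3_pow0 (s : ℕ) : 900 * (s + 33) ^ 4 ≤ 2 ^ (s + 30) := by
  induction s with
  | zero => norm_num
  | succ s ih =>
    have h2 : (s + 1 + 33) ^ 4 ≤ 2 * (s + 33) ^ 4 := by
      have e2 : (s + 33) ^ 4 = s ^ 4 + 132 * s ^ 3 + 6534 * s ^ 2 + 143748 * s + 1185921 := by ring
      have e3 : (s + 1 + 33) ^ 4 = s ^ 4 + 136 * s ^ 3 + 6936 * s ^ 2 + 157216 * s + 1336336 := by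
        ring
      rw [e2, e3]
      nlinarith [Nat.zero_le (s ^ 4), Nat.zero_le (s ^ 3), Nat.zero_le (s ^ 2)]
    have e4 : 2 ^ (s + 1 + 30) = 2 * 2 ^ (s + 30) := by
      rw [show s + 1 + 30 = (s + 30) + 1 by omega, pow_succ, mul_comm]
    rw [e4]
    obtain ⟨P, hP⟩ : ∃ P, P = 2 ^ (s + 30) := ⟨_, rfl⟩
    obtain ⟨A, hA⟩ : ∃ A, A = (s + 33) ^ 4 := ⟨_, rfl⟩
    obtain ⟨B, hB⟩ : ∃ B, B = (s + 1 + 33) ^ 4 := ⟨_, rfl⟩
    rw [← hP, ← hA] at ih
    rw [← hA, ← hB] at h2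
    rw [← hP, ← hB]
    omega

/-- Range III. -/
theorem r3_rangeIII {n k j : ℕ} {V : Finset ℕ} (h : Cex n V) (hT : OddFew n V)
    (hk1 : 2 ^ k ≤ n + 1) (hk2 : n + 1 < 2 ^ (k + 1)) (hj1 : 2 ^ j ≤ k) (hj2 : k < 2 ^ (j + 1))
    (hj : 30 ≤ j) : False := by
  obtain ⟨t, ht⟩ : ∃ t, t = j + 3 := ⟨_, rfl⟩
  obtain ⟨s, hs⟩ : ∃ s, j = s + 30 := ⟨j - 30, by omega⟩
  have hts : t = s + 33 := by omega
  have hpow : 900 * t ^ 4 ≤ k := by
    have h1 := r3_pow0 s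
    rw [← hts, ← hs] at h1
    exact h1.trans hj1
  have ht33 : 33 ≤ t := by omega
  have ht4 : 1185921 ≤ t ^ 4 := by
    calc 1185921 = 33 ^ 4 := by norm_num
      _ ≤ t ^ 4 := Nat.pow_le_pow_left ht33 4
  have ht2 : 1089 * t ^ 2 ≤ t ^ 4 := by
    have : 33 ^ 2 ≤ t ^ 2 := Nat.pow_le_pow_left ht33 2
    calc 1089 * t ^ 2 = 33 ^ 2 * t ^ 2 := by norm_num
      _ ≤ t ^ 2 * t ^ 2 := Nat.mul_le_mul_right _ this
      _ = t ^ 4 := by ring
  have hkbig : 10 ^ 9 ≤ k := by omega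
  -- the modulus
  obtain ⟨L, hL⟩ : ∃ L, L = k / 40 := ⟨_, rfl⟩
  have hL1 : 1 ≤ L := by omega
  have hL41 : k ≤ 41 * L := by omega
  have hL20 : 4 ^ (20 * L) ≤ n + 1 := by
    have e1 : (4 : ℕ) ^ (20 * L) = 2 ^ (40 * L) := by
      rw [show (4 : ℕ) = 2 ^ 2 by norm_num, ← pow_mul]
      congr 1
      ring
    rw [e1]
    exact (Nat.pow_le_pow_right (by norm_num) (by omega)).trans hk1
  obtain ⟨M, hM1, hM2, hMo, hp, hnu⟩ := supplyX L (n + 1) hL1 hL20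
  obtain ⟨D, hD⟩ : ∃ D, D = ((range M).filter (fun x => ¬ Nat.Coprime x M)).card := ⟨_, rfl⟩
  rw [← hD] at hnu
  obtain ⟨K, hK⟩ : ∃ K, M = 2 * n + K := ⟨M - 2 * n, by omega⟩
  have hK3 : 3 ≤ K := by omega
  have hLK : L * K ≤ M + 2 * L := by
    have e1 : M - 2 * (n + 1) = K - 2 := by omega
    rw [e1] at hM2
    obtain ⟨K', hK'⟩ : ∃ K', K = K' + 2 := ⟨K - 2, by omega⟩
    subst hK'
    have e2 : L * (K' + 2) = L * K' + 2 * L := by ring
    rw [Nat.add_sub_cancel] at hM2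
    omega
  have h2k : k < 2 ^ k := Nat.lt_two_pow_self
  have hM80 : 80 * L ≤ M := by omega
  have hkM : k ≤ M := by omega
  have hLbig : 2 * 10 ^ 7 ≤ L := by omega
  have hKM : 1000 * K ≤ M := by
    have h3 : 2000 * K ≤ L * K := Nat.mul_le_mul_right _ (by omega)
    omega
  have hMup : M ≤ 4 * (n + 1) := by
    have h3 : M - 2 * (n + 1) ≤ L * (M - 2 * (n + 1)) := Nat.le_mul_of_pos_left _ (by omega)
    omega
  have hMM : 14 * (M * M) < 2 ^ (2 ^ t) := by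
    have h5 := r3_size hk2 hMup (by omega)
    refine lt_of_lt_of_le h5 (Nat.pow_le_pow_right (by norm_num) ?_)
    have h6 : 2 ^ t = 4 * 2 ^ (j + 1) := by
      rw [ht, show j + 3 = (j + 1) + 2 by omega, pow_add]
      ring
    rw [h6]
    exact Nat.mul_le_mul_left 4 hj2
  have hM14 : 14 * M < 2 ^ (2 ^ t) :=
    lt_of_le_of_lt (Nat.mul_le_mul_left 14 (Nat.le_mul_of_pos_left M (by omega))) hMM
  have ht10 : 10 ≤ t := by omega
  -- the auxiliary powers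
  obtain ⟨q2, hq2⟩ : ∃ q2, q2 = 2 ^ (k / 2) := ⟨_, rfl⟩
  obtain ⟨q3, hq3⟩ : ∃ q3, q3 = 2 ^ (k / 3) := ⟨_, rfl⟩
  have hk2' : 2 ^ k ≤ M := by omega
  have hq2M : q2 * q2 ≤ M := by
    rw [hq2, ← pow_add]
    exact (Nat.pow_le_pow_right (by norm_num) (by omega)).trans hk2'
  have hq3M : q3 * q3 * q3 ≤ M := by
    rw [hq3, ← pow_add, ← pow_add]
    exact (Nat.pow_le_pow_right (by norm_num) (by omega)).trans hk2'
  have hq2b : 200000 * t ^ 2 ≤ q2 := by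
    have h3 : k / 2 < 2 ^ (k / 2) := Nat.lt_two_pow_self
    omega
  have hq3b : 198 * t ^ 4 ≤ q3 := by
    have h3 : k / 3 < 2 ^ (k / 3) := Nat.lt_two_pow_self
    omega
  have hC : Cnt M (M / (155 * t ^ 2)) (M / (3 * t ^ 4)) := by
    have htR : (0 : ℝ) < t := by
      have : 0 < t := by omega
      exact_mod_cast this
    have hMR : (0 : ℝ) ≤ M := Nat.cast_nonneg M
    have hq2R : (200000 : ℝ) * (t : ℝ) ^ 2 ≤ q2 := by exact_mod_cast hq2b
    have hq3R : (198 : ℝ) * (t : ℝ) ^ 4 ≤ q3 := by exact_mod_cast hq3b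
    have ht2R : (0 : ℝ) < (t : ℝ) ^ 2 := by positivity
    have ht4R : (0 : ℝ) < (t : ℝ) ^ 4 := by positivity
    have hq20 : 0 < q2 := by rw [hq2]; exact Nat.pos_of_ne_zero (by positivity)
    have hq30 : 0 < q3 := by rw [hq3]; exact Nat.pos_of_ne_zero (by positivity)
    refine cnt_gen (q2 := q2) (q3 := q3) (c1 := (91 / 6) / (t : ℝ) ^ 2) (c2 := 80 / (t : ℝ) ^ 4)
      ?_ ?_ (by positivity) (by positivity) hq20 hq30 hq2M hq3M ?_ ?_
    · intro m hm hmM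
      exact pb1 m t ht10 hm (lt_of_le_of_lt (Nat.mul_le_mul_left 14 hmM) hMM)
    · intro x N hx hxM hN hNM
      exact pb2 x N t ht10 hx hN
        (lt_of_le_of_lt (Nat.mul_le_mul_left 14 hxM.le) hM14)
        (lt_of_le_of_lt (Nat.mul_le_mul_left 14 hNM.le) hM14)
    · have h3 : (((M / (155 * t ^ 2) : ℕ)) : ℝ) ≤ (M : ℝ) / ((155 * t ^ 2 : ℕ) : ℝ) :=
        Nat.cast_div_le
      refine h3.trans ?_
      push_cast
      have h4 : 15 * (M : ℝ) / q2 ≤ 15 * (M : ℝ) / (200000 * (t : ℝ) ^ 2) :=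
        div_le_div_of_nonneg_left (by positivity) (by positivity) hq2R
      have h5 : (M : ℝ) / (155 * (t : ℝ) ^ 2) = (1 / 155) * ((M : ℝ) / (t : ℝ) ^ 2) := by
        field_simp
      have h6 : 15 * (M : ℝ) / (200000 * (t : ℝ) ^ 2) = (15 / 200000) * ((M : ℝ) / (t : ℝ) ^ 2) := by
        field_simp
      have h7 : 49 / 112000 * (91 / 6 / (t : ℝ) ^ 2) * (M : ℝ) =
          (49 / 112000 * (91 / 6)) * ((M : ℝ) / (t : ℝ) ^ 2) := by
        field_simp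
      have h8 : (0 : ℝ) ≤ (M : ℝ) / (t : ℝ) ^ 2 := by positivity
      rw [h5, h7]
      rw [h6] at h4
      nlinarith
    · have h3 : (((M / (3 * t ^ 4) : ℕ)) : ℝ) ≤ (M : ℝ) / ((3 * t ^ 4 : ℕ) : ℝ) :=
        Nat.cast_div_le
      refine h3.trans ?_
      push_cast
      have h4 : 33 * (M : ℝ) / q3 ≤ 33 * (M : ℝ) / (198 * (t : ℝ) ^ 4) :=
        div_le_div_of_nonneg_left (by positivity) (by positivity) hq3R
      have h5 : (M : ℝ) / (3 * (t : ℝ) ^ 4) = (1 / 3) * ((M : ℝ) / (t : ℝ) ^ 4) := by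
        field_simp
      have h6 : 33 * (M : ℝ) / (198 * (t : ℝ) ^ 4) = (33 / 198) * ((M : ℝ) / (t : ℝ) ^ 4) := by
        field_simp
      have h7 : 1 / 160 * (80 / (t : ℝ) ^ 4) * (M : ℝ) =
          (1 / 160 * 80) * ((M : ℝ) / (t : ℝ) ^ 4) := by
        field_simp
      have h8 : (0 : ℝ) ≤ (M : ℝ) / (t : ℝ) ^ 4 := by positivity
      rw [h5, h7]
      rw [h6] at h4
      nlinarith
  obtain ⟨a, ha⟩ : ∃ a, a = 155 * t ^ 2 := ⟨_, rfl⟩
  obtain ⟨b, hb⟩ : ∃ b, b = 3 * t ^ 4 := ⟨_, rfl⟩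
  rw [← ha, ← hb] at hC
  have haL : 150 * a ≤ L := by omega
  have hbL : 7 * b ≤ L := by omega
  have ha0 : 0 < a := by
    have : 0 < t ^ 2 := by positivity
    omega
  have hb0 : 0 < b := by omega
  have h1 : M < a * (M / a + 1) := Nat.lt_mul_div_succ M ha0
  have h2 : M < b * (M / b + 1) := Nat.lt_mul_div_succ M hb0
  have haM : a ≤ M := by omega
  have hbM : 14 * b ≤ M := by omega
  have hT1pos : 1 ≤ M / a := (Nat.one_le_div_iff ha0).2 haM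
  have hT2pos : 14 ≤ M / b := (Nat.le_div_iff_mul_le hb0).2 hbM
  obtain ⟨T1, hT1⟩ : ∃ T1, T1 = M / a := ⟨_, rfl⟩
  obtain ⟨T2, hT2⟩ : ∃ T2, T2 = M / b := ⟨_, rfl⟩
  rw [← hT1] at h1 hC hT1pos
  rw [← hT2] at h2 hC hT2pos
  have hS1 : L * (55 * D + 51 * K) ≤ 108 * M := by
    have : L * (55 * D + 51 * K) = 55 * (L * D) + 51 * (L * K) := by ring
    omega
  have hS2 : L * (9 * D + 3 * K) ≤ 13 * M := by
    have : L * (9 * D + 3 * K) = 9 * (L * D) + 3 * (L * K) := by ring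
    omega
  have hA : 55 * D + 51 * K < 4 * T1 := by
    by_contra hc
    push Not at hc
    have h3 : L * (4 * T1) ≤ 108 * M := (Nat.mul_le_mul_left L hc).trans hS1
    have h4 : 150 * a * T1 ≤ L * T1 := Nat.mul_le_mul_right _ haL
    have h5 : L * (4 * T1) = 4 * (L * T1) := by ring
    have h6 : a * (T1 + 1) = a * T1 + a := by ring
    have h7 : 150 * a * T1 = 150 * (a * T1) := by ring
    have h8 : a * 1 ≤ a * T1 := Nat.mul_le_mul_left a hT1pos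
    omega
  have hB : 9 * D + 3 * K < 2 * T2 := by
    by_contra hc
    push Not at hc
    have h3 : L * (2 * T2) ≤ 13 * M := (Nat.mul_le_mul_left L hc).trans hS2
    have h4 : 7 * b * T2 ≤ L * T2 := Nat.mul_le_mul_right _ hbL
    have h5 : L * (2 * T2) = 2 * (L * T2) := by ring
    have h6 : b * (T2 + 1) = b * T2 + b := by ring
    have h7 : 7 * b * T2 = 7 * (b * T2) := by ring
    have h8 : b * 14 ≤ b * T2 := Nat.mul_le_mul_left b hT2pos
    omega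
  exact r3_main h hK hMo hK3 hKM (by omega)
    (hT M hMo (fun p hpp hpd => by have := hp p hpp hpd; omega) K hK hK3 hKM)
    (le_of_eq hD.symm) hC (by omega) (by omega) hB

/-- **The large range.** -/
theorem r3 {n : ℕ} {V : Finset ℕ} (hn : 10 ^ 21 ≤ n) (h : Cex n V) (hT : OddFew n V) : False := by
  rcases Nat.lt_or_ge (n + 1) (10 ^ 40) with h1 | h1
  · exact r3_rangeI h hT hn h1
  · obtain ⟨k, hk⟩ : ∃ k, k = Nat.log 2 (n + 1) := ⟨_, rfl⟩
    have hk1 : 2 ^ k ≤ n + 1 := by rw [hk]; exact Nat.pow_log_le_self 2 (by omega)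
    have hk2 : n + 1 < 2 ^ (k + 1) := by
      rw [hk]; exact Nat.lt_pow_succ_log_self (by norm_num) _
    obtain ⟨j, hj⟩ : ∃ j, j = Nat.log 2 k := ⟨_, rfl⟩
    rcases Nat.lt_or_ge j 30 with hj30 | hj30
    · obtain ⟨e, he⟩ : ∃ e, e = 2 ^ 30 := ⟨_, rfl⟩
      have hke : k + 1 ≤ e := by
        have h3 : k < 2 ^ (j + 1) := by
          rw [hj]; exact Nat.lt_pow_succ_log_self (by norm_num) _
        have h4 : 2 ^ (j + 1) ≤ 2 ^ 30 := Nat.pow_le_pow_right (by norm_num) (by omega)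
        omega
      refine r3_rangeII (e := e) (t := 32) h hT h1 (by omega)
        (lt_of_lt_of_le hk2 (Nat.pow_le_pow_right (by norm_num) hke)) ?_ rfl
      rw [he]
      norm_num
    · have hk0 : k ≠ 0 := by
        rintro rfl
        simp at hj
        omega
      refine r3_rangeIII (k := k) (j := j) h hT hk1 hk2 ?_ ?_ hj30
      · rw [hj]; exact Nat.pow_log_le_self 2 hk0
      · rw [hj]; exact Nat.lt_pow_succ_log_self (by norm_num) _

end Pool.Agent.LR4
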