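import Mathlib
import Pool.Agent.LR4.R3
import Pool.Agent.LR4.Main
import Pool.Agent.LR4.F1o

/-!
Lonely runner, the range `10 ^ 21 ≤ n`, from the table.
-/

namespace Pool.Agent.LR4

open Finset

/-- Few odd speeds, from the table. -/
theorem oddFew_of_tab {n : ℕ} {V : Finset ℕ} {Y : Finset ℕ} {rep : ℕ → ℕ} (h : Cex n V)
    (hY : ∀ b ∈ Y, 0 < b ∧ b ≤ 320) (hrep : RepOK Y rep) (hy : (Y.image rep).card ≤ 50)
    (tab : TabAll Y J0) : OddFew n V := by
  intro M hodd hp K hM hK3 hKM U hU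
  have hcop : ∀ b ∈ Y, Nat.Coprime b M := by
    intro b hb
    obtain ⟨h1, h2⟩ := hY b hb
    refine Nat.coprime_of_dvd ?_
    intro p hpp hpb hpM
    have h3 := hp p hpp hpM
    have h4 := Nat.le_of_dvd h1 hpb
    omega
  have ht : Tab M V Y J0 := tab n K M V h hM hodd hK3 (by omega) (by
    intro p hpp hpM
    have h3 := hp p hpp hpM
    omega)
  have h5 := f1_of_tab hodd (by omega) hcop rep hrep ht U hU
  exact h5.trans (Nat.add_le_add_right (Nat.mul_le_mul_right _ hy) _)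

/-- **The range `10 ^ 21 ≤ n`** in the shape of `no_cex_of`. -/
theorem r3_of_tab {Y : Finset ℕ} {rep : ℕ → ℕ} (hY : ∀ b ∈ Y, 0 < b ∧ b ≤ 320)
    (hrep : RepOK Y rep) (hy : (Y.image rep).card ≤ 50) (tab : TabAll Y J0) :
    ∀ n : ℕ, ∀ V : Finset ℕ, Cex n V → 10 ^ 21 ≤ n → False :=
  fun _ _ h hn => r3 hn h (oddFew_of_tab h hY hrep hy tab)

end Pool.Agent.LR4
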