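import Mathlib
import Pool.Agent.LR4.Acct

/-!
The frozen statement from the absence of counterexamples `Cex n V`.
-/

namespace Pool.Agent.LR4

open Finset

theorem top_of (H : ∀ n : ℕ, ∀ V : Finset ℕ, ¬ Cex n V) :
    ∀ n : ℕ, ∀ v : Fin n → ℕ, StrictMono v → (∀ i, 0 < v i) → (∀ i, v i ≤ 2 * n) →
      ∃ t : ℝ, ∀ i, ∀ k : ℤ, (1 : ℝ) / ((n : ℝ) + 1) ≤ |t * (v i : ℝ) - (k : ℝ)| := by
  intro n v hv hpos hle
  by_contra hcon
  push Not at hcon
  refine H n (Finset.univ.image v) ⟨?_, ?_, ?_⟩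
  · intro x hx
    obtain ⟨i, -, rfl⟩ := Finset.mem_image.1 hx
    exact ⟨hpos i, hle i⟩
  · rw [Finset.card_image_of_injective _ hv.injective]
    simp
  · intro t
    obtain ⟨i, k, hk⟩ := hcon t
    exact ⟨v i, Finset.mem_image.2 ⟨i, Finset.mem_univ _, rfl⟩, k, hk⟩

end Pool.Agent.LR4
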