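import Mathlib
import Pool.Agent.LR4.Ovl72
import Pool.Agent.LR4.MacFin
import Pool.Agent.LR4.F1o

/-!
The labels of the table: 91 labels in 50 classes, and the conditions on the window.
-/

namespace Pool.Agent.LR4

open Finset

/-- The labels of the table. -/
def YS : Finset ℕ :=
  (range 161).filter (fun b => 1 ≤ b ∧ b ≠ 124 ∧ b ≠ 148 ∧
    (b ≤ 50 ∨ (b ≤ 100 ∧ 2 ∣ b) ∨ 4 ∣ b ∨ b = 106 ∨ b = 122 ∨ b = 130))

lemma YS_rep : RepOK YS Ovl72.rep90 := by
  unfold RepOK
  decide +kernel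

lemma YS_card : (YS.image Ovl72.rep90).card ≤ 50 := by
  decide +kernel

lemma YS_bd : ∀ b ∈ YS, 0 < b ∧ b ≤ 320 := by
  decide +kernel

lemma YS_card91 : YS.card = 91 := by
  decide +kernel

lemma J0_pw : J0.Pairwise (fun a b => a.2 < b.1) := by decide

lemma J0_len : 142 ≤ jlen J0 := by decide

lemma J0_num : J0.length ≤ 12 := by decide

end Pool.Agent.LR4
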