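import Mathlib
import Pool.Agent.LR4.R3fin
import Pool.Agent.LR4.YStar
import Pool.Agent.LR4.PrT
import Pool.Agent.LR4.R1a
import Pool.Agent.LR4.R1
import Pool.Agent.LR4.Top

/-!
Lonely runner with speeds at most `2 n`: the conclusion from the table.
-/

namespace Pool.Agent.LR4

open Finset

/-- No counterexample at all, from the table. -/
theorem no_cex_tab (tab : TabAll YS J0) : ∀ n : ℕ, ∀ V : Finset ℕ, ¬ Cex n V :=
  no_cex_of YS_bd J0_ok J0_pw tab YS_rep J0_len J0_num YS_card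
    (fun n V h hn => r1small n V h hn) (fun n V h e he h1 h2 => r1big n V h e he h1 h2) tabQ
    (r3_of_tab YS_bd YS_rep YS_card tab)

/-- The frozen statement from the table. -/
theorem result_of (tab : TabAll YS J0) :
    ∀ n : ℕ, ∀ v : Fin n → ℕ, StrictMono v → (∀ i, 0 < v i) → (∀ i, v i ≤ 2 * n) →
      ∃ t : ℝ, ∀ i, ∀ k : ℤ, (1 : ℝ) / ((n : ℝ) + 1) ≤ |t * (v i : ℝ) - (k : ℝ)| :=
  top_of (no_cex_tab tab)

end Pool.Agent.LR4
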