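import Mathlib
import Pool.Agent.LR4.MacNum
import Pool.Agent.LR4.Supply2

/-!
Lonely runner with speeds at most `2 n`: the counting part of the macro cores for a composite
modulus `M`, with an even missing speed `f` that does not have to come from the accounting of `M`.
-/

namespace Pool.Agent.LR4

open Finset Pool.Agent.LR2 Pool.Agent.LR3

/-- Non-units below `M`. -/
theorem mac2_nonunits {M : ℕ} :
    ((range M).filter (fun u => ¬ Nat.Coprime u M)).card + M.totient = M := by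
  have h1 : M.totient = ((range M).filter (fun u => Nat.Coprime u M)).card := by
    rw [Nat.totient_eq_card_coprime]
    congr 1
    ext u
    rw [mem_filter, mem_filter, Nat.coprime_comm]
  rw [h1, add_comm, Finset.card_filter_add_card_filter_not, card_range]

/-- **The counting inequality**, composite modulus. -/
theorem mac_main2 {n K M : ℕ} {V : Finset ℕ} (h : Cex n V) (hM : M = 2 * n + K) (hodd : Odd M)
    (hK3 : 3 ≤ K) (hK : 700 * K ≤ M) {Y : Finset ℕ} {J : List (ℕ × ℕ)}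
    (hY : ∀ b ∈ Y, Nat.Coprime b M) (hJ : ∀ a ∈ J, 501 ≤ a.1 ∧ a.1 < a.2 ∧ a.2 ≤ 747)
    (hJp : J.Pairwise (fun a b => a.2 < b.1)) (tab : Tab M V Y J) {f : ℕ} (hf1 : 0 < f)
    (hfe : Even f) (hfV : f ∉ V) :
    ((jlen J : ℝ) * M / 1000 - J.length * (f + 1)) * ((f.totient : ℝ) / f) -
      J.length * 2 ^ f.primeFactors.card - 2 * ((jlen J : ℝ) * M / 210000 + J.length) -
      2 * ((M : ℝ) - M.totient) ≤
      2 * Y.card * (((evs M K V).card : ℝ) - 1) + Y.card * ((M : ℝ) - M.totient - 1) := by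
  classical
  have hn2 := h.two
  have hM0 : 0 < M := by omega
  have h4K : 4 * K ≤ n + 8 := by omega
  have hacc := acct h hM hodd hK3 h4K
  obtain ⟨S, hS⟩ : ∃ S, S = (range M).filter (fun u => inJ2 J M f u ∧ Nat.Coprime u f) := ⟨_, rfl⟩
  obtain ⟨B1, hB1⟩ : ∃ B, B = (range M).filter (fun u => inJ J M u ∧ 210 ∣ u + M) := ⟨_, rfl⟩
  obtain ⟨B2, hB2⟩ : ∃ B, B = (range M).filter (fun u => inJ J M u ∧ 210 ∣ u + (f + M)) := ⟨_, rfl⟩
  obtain ⟨N, hN⟩ : ∃ N, N = (range M).filter (fun u => ¬ Nat.Coprime u M) := ⟨_, rfl⟩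
  obtain ⟨Z, hZ⟩ : ∃ Z, Z = (range M).filter (fun u => (Odd u ∧ u ∈ V) ∧
    (inJ J M u ∧ Nat.Coprime u M) ∧ ¬ 105 ∣ u + M) := ⟨_, rfl⟩
  have hS1 := mac_list M f hf1 hM0 J (fun a ha => ⟨by have := hJ a ha; omega, (hJ a ha).2.1,
    by have := hJ a ha; omega⟩) hJp
  rw [← hS] at hS1
  have hB1c := mac_list_class M 210 M (by norm_num) J (fun a ha => (hJ a ha).2.1.le)
  rw [← hB1] at hB1c
  have hB2c := mac_list_class M 210 (f + M) (by norm_num) J (fun a ha => (hJ a ha).2.1.le)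
  rw [← hB2] at hB2c
  have hNc := mac2_nonunits (M := M)
  rw [← hN] at hNc
  -- bounds for elements of the window
  have hwin : ∀ u, inJ J M u → M < 2 * u ∧ 1000 * u ≤ 747 * M := by
    rintro u ⟨a, ha, h1, h2⟩
    obtain ⟨h3, h4, h5⟩ := hJ a ha
    have h6 : 501 * M ≤ a.1 * M := Nat.mul_le_mul_right _ h3
    have h7 : a.2 * M ≤ 747 * M := Nat.mul_le_mul_right _ h5
    omega
  -- hits
  have hhit : Z.card ≤ Y.card * (labL M V).card := by
    refine mac_hits (M := M) ?_ hY ?_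
    · intro u hu
      rw [hZ] at hu
      obtain ⟨-, -, ⟨h2, -⟩, -⟩ := mem_filter.1 hu
      have := hwin u h2
      omega
    · intro u hu
      rw [hZ] at hu
      obtain ⟨-, ⟨h1, h2⟩, ⟨h3, h3'⟩, h4⟩ := mem_filter.1 hu
      exact tab u h1 h3' h2 h3 h4
  -- pairs
  have hpairs : S ⊆ ((B1 ∪ B2) ∪ (N ∪ N.image (fun u => u - f))) ∪
      (Z ∪ (Z.image (fun u => u - f))) := by
    intro u hu
    rw [hS] at hu
    obtain ⟨huM, ⟨a, ha, h1, h2⟩, h3⟩ := mem_filter.1 hu
    rw [mem_range] at huM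
    obtain ⟨h4, h5, h6⟩ := hJ a ha
    have hinJu : inJ J M u := ⟨a, ha, h1, by omega⟩
    have hinJf : inJ J M (u + f) := ⟨a, ha, by omega, h2⟩
    have hwu := hwin u hinJu
    have hwf := hwin (u + f) hinJf
    have huo : Odd u := by
      by_contra hc
      rw [Nat.not_odd_iff_even] at hc
      have h7 : 2 ∣ Nat.gcd u f := Nat.dvd_gcd hc.two_dvd hfe.two_dvd
      rw [h3] at h7
      omega
    have hufo : Odd (u + f) := huo.add_even hfe
    simp only [mem_union, mem_image]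
    by_cases hb1 : 105 ∣ u + M
    · left; left; left
      rw [hB1, mem_filter]
      refine ⟨mem_range.2 huM, hinJu, ?_⟩
      have h8 : 2 ∣ u + M := (huo.add_odd hodd).two_dvd
      have h9 : (2 * 105) ∣ u + M := Nat.Coprime.mul_dvd_of_dvd_of_dvd (by norm_num) h8 hb1
      simpa using h9
    by_cases hb2 : 105 ∣ u + f + M
    · left; left; right
      rw [hB2, mem_filter]
      refine ⟨mem_range.2 huM, hinJu, ?_⟩
      have h8 : 2 ∣ u + f + M := (hufo.add_odd hodd).two_dvd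
      have h9 : (2 * 105) ∣ u + f + M := Nat.Coprime.mul_dvd_of_dvd_of_dvd (by norm_num) h8 hb2
      rw [add_assoc] at h9
      simpa using h9
    by_cases hc1 : Nat.Coprime u M
    swap
    · left; right; left
      rw [hN, mem_filter]
      exact ⟨mem_range.2 huM, hc1⟩
    by_cases hc2 : Nat.Coprime (u + f) M
    swap
    · left; right; right
      refine ⟨u + f, ?_, by omega⟩
      rw [hN, mem_filter]
      exact ⟨mem_range.2 (by omega), hc2⟩
    right
    rcases mac_pair h hf1 hfV h3 (by omega) (by omega) (by omega) (by omega) with h7 | h7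
    · left
      rw [hZ, mem_filter]
      exact ⟨mem_range.2 huM, ⟨huo, h7⟩, ⟨hinJu, hc1⟩, hb1⟩
    · right
      refine ⟨u + f, ?_, by omega⟩
      rw [hZ, mem_filter]
      exact ⟨mem_range.2 (by omega), ⟨hufo, h7⟩, ⟨hinJf, hc2⟩, hb2⟩
  have hc1 : S.card ≤ ((B1.card + B2.card) + (N.card + N.card)) + (Z.card + Z.card) := by
    refine (Finset.card_le_card hpairs).trans ((Finset.card_union_le _ _).trans ?_)
    refine add_le_add ((Finset.card_union_le _ _).trans ?_)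
      ((Finset.card_union_le _ _).trans ?_)
    · refine add_le_add (Finset.card_union_le _ _) ((Finset.card_union_le _ _).trans ?_)
      exact add_le_add le_rfl Finset.card_image_le
    · exact add_le_add le_rfl Finset.card_image_le
  have hc2 : (S.card : ℝ) ≤ ((B1.card + B2.card) + (N.card + N.card)) + (Z.card + Z.card) := by
    exact_mod_cast hc1
  have hc3 : (Z.card : ℝ) ≤ Y.card * (labL M V).card := by exact_mod_cast hhit
  have hN' : (N.card : ℝ) = (M : ℝ) - M.totient := by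
    have : (N.card : ℝ) + M.totient = M := by exact_mod_cast hNc
    linarith
  have hc4 : 2 * ((labL M V).card : ℝ) ≤
      2 * (((evs M K V).card : ℝ) - 1) + ((M : ℝ) - M.totient - 1) := by
    have h1 : 2 * ((labL M V).card + 1) + (M.totient + 1) ≤ M + 2 * (evs M K V).card := by omega
    have h2 : 2 * (((labL M V).card : ℝ) + 1) + ((M.totient : ℝ) + 1) ≤
        M + 2 * ((evs M K V).card : ℝ) := by exact_mod_cast h1
    linarith
  have hc5 : (Y.card : ℝ) * (2 * ((labL M V).card : ℝ)) ≤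
      Y.card * (2 * (((evs M K V).card : ℝ) - 1) + ((M : ℝ) - M.totient - 1)) :=
    mul_le_mul_of_nonneg_left hc4 (by positivity)
  have e1 : (jlen J : ℝ) * M / (1000 * (210 : ℕ)) = (jlen J : ℝ) * M / 210000 := by norm_num
  rw [e1] at hB1c hB2c
  linarith


/-- The primes up to `107`. -/
def mac2F : Finset ℕ := {2, 3, 5, 7, 11, 13, 17, 19, 23, 29, 31, 37, 41, 43, 47, 53, 59, 61, 67, 71,
  73, 79, 83, 89, 97, 101, 103, 107}

theorem mac2F_eq : mac2F = (range (107 + 1)).filter Nat.Prime := by decide +kernel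

theorem mac2F_prod : (1168 : ℝ) / 10000 ≤ ∏ p ∈ mac2F, (1 - (p : ℝ)⁻¹) := by
  rw [mac2F]
  simp only [Finset.prod_insert, Finset.mem_insert, Finset.mem_singleton, Finset.prod_singleton,
    Nat.reduceEqDiff, or_self, not_false_eq_true]
  norm_num

theorem mac2_phi {f : ℕ} (hf : 0 < f) (hf2 : f ≤ 10 ^ 44) :
    f.primeFactors.card ≤ 28 ∧ (1168 : ℝ) / 10000 ≤ (f.totient : ℝ) / f := by
  have hc : mac2F.card = 28 := by decide +kernel
  have h := mac_phi (N := 107) (N' := 109) (k := 28) mac2F ((range (109 + 1)).filter Nat.Prime) hf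
    (by norm_num) mac2F_eq rfl hc (by decide +kernel) (by
      have : (10 : ℕ) ^ 44 < ∏ p ∈ (range (109 + 1)).filter Nat.Prime, p := by decide +kernel
      omega)
  exact ⟨h.1, mac2F_prod.trans h.2⟩

theorem mac2_omega {f : ℕ} (hf : 0 < f) (hf2 : f ≤ 10 ^ 19) : f.primeFactors.card ≤ 15 := by
  refine (mac_phi (N := 47) (N' := 53) (k := 15) ((range (47 + 1)).filter Nat.Prime)
    ((range (53 + 1)).filter Nat.Prime) hf (by norm_num) rfl rfl (by decide +kernel)
    (by decide +kernel) (by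
      have : (10 : ℕ) ^ 19 < ∏ p ∈ (range (53 + 1)).filter Nat.Prime, p := by decide +kernel
      omega)).1

/-- The real inequality behind `mac_two`. -/
theorem mac2_real {m Λ c f R w y D P Q : ℝ} (hm : 10 ^ 11 ≤ m) (hΛ : 165 ≤ Λ) (hc : c ≤ 11) (hR : 1168 / 10000 ≤ R) (hf : 0 ≤ f) (hff : f + 1 ≤ Q * m)
    (hQ : Q ≤ 1 / 200) (hw0 : 0 ≤ w) (hw : 11 * w ≤ m / 10000) (hD0 : 0 ≤ D)
    (hD : 47000 * D ≤ m) (hy0 : 0 ≤ y) (hy : y ≤ 90)
    (hP : P ≤ (165 - 11000 * Q) * (1168 / 10000) / 1000 * m - 38 / 10000 * m)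
    (hmain : (Λ * m / 1000 - c * (f + 1)) * R - c * w - 2 * (Λ * m / 210000 + c) - 2 * D ≤
      P + y * (D - 1)) : False := by
  have hm0 : 0 < m := by linarith
  have h1 : c * (f + 1) ≤ 11 * (Q * m) := by
    calc c * (f + 1) ≤ 11 * (f + 1) := mul_le_mul_of_nonneg_right hc (by linarith)
      _ ≤ 11 * (Q * m) := by linarith
  have h2 : c * w ≤ 11 * w := mul_le_mul_of_nonneg_right hc hw0
  have h3 : y * (D - 1) ≤ 90 * D := by
    have h4 : y * D ≤ 90 * D := mul_le_mul_of_nonneg_right hy hD0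
    linarith
  have h5 : (Λ * m / 1000 - 11 * (Q * m)) * R ≤ (Λ * m / 1000 - c * (f + 1)) * R :=
    mul_le_mul_of_nonneg_right (by linarith) (by linarith)
  have h6 : 165 * (m * (R / 1000 - 1 / 105000)) ≤ Λ * (m * (R / 1000 - 1 / 105000)) :=
    mul_le_mul_of_nonneg_right hΛ (mul_nonneg hm0.le (by linarith))
  have h7 : ((165 - 11000 * Q) / 1000 * m) * (1168 / 10000) ≤ ((165 - 11000 * Q) / 1000 * m) * R := by
    refine mul_le_mul_of_nonneg_left hR (mul_nonneg ?_ hm0.le)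
    linarith
  have h8 : (Λ * m / 1000 - 11 * (Q * m)) * R - 2 * (Λ * m / 210000) =
      Λ * (m * (R / 1000 - 1 / 105000)) - 11 * (Q * m) * R := by ring
  have h9 : 165 * (m * (R / 1000 - 1 / 105000)) - 11 * (Q * m) * R =
      ((165 - 11000 * Q) / 1000 * m) * R - 165 / 105000 * m := by ring
  linarith

/-- **Two moduli**: exact accounting for `M` (a product of two large primes), the even missing speed
comes from a prime `2 n + K₁` with `100 K₁ ≤ n`. -/
theorem mac_two {n K M K1 : ℕ} {V : Finset ℕ} (h : Cex n V) (hn : 5 * 10 ^ 10 ≤ n)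
    (hn2 : n ≤ 10 ^ 44) (hM : M = 2 * n + K) (hodd : Odd M) (hK3 : 3 ≤ K) (hK : 3990 * K ≤ n)
    (hphi : 47000 * (M - M.totient) ≤ M) (hp1 : (2 * n + K1).Prime) (hK13 : 3 ≤ K1)
    (hK1 : 100 * K1 ≤ n) {Y : Finset ℕ} {J : List (ℕ × ℕ)} (hYc : Y.card ≤ 90)
    (hY : ∀ b ∈ Y, Nat.Coprime b M) (hJ : ∀ a ∈ J, 501 ≤ a.1 ∧ a.1 < a.2 ∧ a.2 ≤ 747)
    (hJp : J.Pairwise (fun a b => a.2 < b.1)) (hJ1 : 165 ≤ jlen J) (hJ2 : J.length ≤ 11)
    (tab : Tab M V Y J) : False := by
  classical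
  have hMr : (M : ℝ) = 2 * n + K := by rw [hM]; push_cast; ring
  have hnr : (5 * 10 ^ 10 : ℝ) ≤ n := by exact_mod_cast hn
  have hKr : 3990 * (K : ℝ) ≤ n := by exact_mod_cast hK
  have hK1r : 100 * (K1 : ℝ) ≤ n := by exact_mod_cast hK1
  have hK0 : (0 : ℝ) ≤ K := by positivity
  have hmr : (10 : ℝ) ^ 11 ≤ M := by rw [hMr]; linarith
  have hD : 47000 * ((M : ℝ) - M.totient) ≤ M := by
    have h1 : M.totient ≤ M := Nat.totient_le M
    have h2 : ((M - M.totient : ℕ) : ℝ) = (M : ℝ) - M.totient := by rw [Nat.cast_sub h1]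
    rw [← h2]
    exact_mod_cast hphi
  have hD0 : 0 ≤ (M : ℝ) - M.totient := by
    have h1 : (M.totient : ℝ) ≤ M := by exact_mod_cast Nat.totient_le M
    linarith
  have hgen : ∀ f : ℕ, 0 < f → 100 * f ≤ n → (1168 : ℝ) / 10000 ≤ (f.totient : ℝ) / f ∧
      (f.totient : ℝ) / f ≤ 1 ∧ 11 * (2 : ℝ) ^ f.primeFactors.card ≤ M / 10000 := by
    intro f hf hfn
    obtain ⟨h1, h2⟩ := mac2_phi hf (by omega)
    have hf' : (0 : ℝ) < f := by exact_mod_cast hf
    refine ⟨h2, ?_, ?_⟩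
    · rw [div_le_one hf']
      exact_mod_cast Nat.totient_le f
    · by_cases hc : f ≤ 10 ^ 19
      · have h3 := mac2_omega hf hc
        have h4 : (2 : ℝ) ^ f.primeFactors.card ≤ 2 ^ 15 := pow_le_pow_right₀ (by norm_num) h3
        have h5 : (10 : ℝ) ^ 11 / 10000 ≤ M / 10000 := by linarith
        refine le_trans ?_ h5
        calc 11 * (2 : ℝ) ^ f.primeFactors.card ≤ 11 * 2 ^ 15 := by linarith
          _ ≤ 10 ^ 11 / 10000 := by norm_num
      · push Not at hc
        have h4 : (2 : ℝ) ^ f.primeFactors.card ≤ 2 ^ 28 := pow_le_pow_right₀ (by norm_num) h1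
        have h5 : (10 : ℝ) ^ 19 ≤ f := by exact_mod_cast hc.le
        have h6 : 100 * (f : ℝ) ≤ n := by exact_mod_cast hfn
        have h7 : (10 : ℝ) ^ 21 / 10000 ≤ M / 10000 := by linarith
        refine le_trans ?_ h7
        calc 11 * (2 : ℝ) ^ f.primeFactors.card ≤ 11 * 2 ^ 28 := by linarith
          _ ≤ 10 ^ 21 / 10000 := by norm_num
  have hJ1r : (165 : ℝ) ≤ jlen J := by exact_mod_cast hJ1
  have hJ2r : (J.length : ℝ) ≤ 11 := by exact_mod_cast hJ2
  have hYr : (Y.card : ℝ) ≤ 90 := by exact_mod_cast hYc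
  by_cases hA : (evs M K V).Nonempty
  · -- `f` from the accounting of `M`
    obtain ⟨f, hf⟩ := id hA
    obtain ⟨hfI, ⟨hfe, -⟩, hfV⟩ := mem_filter.1 hf
    obtain ⟨hf1, hf2⟩ := mem_Icc.1 hfI
    have hmain := mac_main2 h hM hodd hK3 (by omega) hY hJ hJp tab hf1 hfe hfV
    obtain ⟨g1, g2, g3⟩ := hgen f hf1 (by omega)
    have hA1 : 3 * (evs M K V).card ≤ K + 120 := by
      have hk : (K - 3) / 2 < 4 ^ 80 := by
        have : (10 : ℕ) ^ 44 < 4 ^ 80 := by norm_num
        omega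
      have hev := mac_evs (k := 80) (M := M) h (by omega) hk
      have ham := amx_le 80 ((K - 3) / 2)
      generalize amx 80 ((K - 3) / 2) = a at hev ham
      omega
    have hA1r : 3 * ((evs M K V).card : ℝ) ≤ K + 120 := by exact_mod_cast hA1
    have hA2r : (1 : ℝ) ≤ (evs M K V).card := by exact_mod_cast hA.card_pos
    have hff : (f : ℝ) + 1 ≤ 1 / 7000 * (M : ℝ) := by
      have h1 : (f : ℝ) + 1 ≤ K := by exact_mod_cast (by omega : f + 1 ≤ K)
      rw [hMr]; linarith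
    refine mac2_real hmr hJ1r hJ2r g1 (Nat.cast_nonneg _) hff (by norm_num)
      (by positivity) g3 hD0 hD (Nat.cast_nonneg _) hYr ?_ hmain
    have h2 : 2 * (Y.card : ℝ) * (((evs M K V).card : ℝ) - 1) ≤
        180 * (((evs M K V).card : ℝ) - 1) :=
      mul_le_mul_of_nonneg_right (by linarith) (by linarith)
    rw [hMr]
    linarith
  · -- `f` from the prime `2 n + K₁`
    rw [Finset.not_nonempty_iff_eq_empty] at hA
    have hacc := acct_prime h rfl hp1 hK13 (by omega)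
    have hne : (evs (2 * n + K1) K1 V).Nonempty := by
      rw [← Finset.card_pos]
      omega
    obtain ⟨f, hf⟩ := hne
    obtain ⟨hfI, ⟨hfe, -⟩, hfV⟩ := mem_filter.1 hf
    obtain ⟨hf1, hf2⟩ := mem_Icc.1 hfI
    have hmain := mac_main2 h hM hodd hK3 (by omega) hY hJ hJp tab hf1 hfe hfV
    obtain ⟨g1, g2, g3⟩ := hgen f hf1 (by omega)
    have hff : (f : ℝ) + 1 ≤ 1 / 200 * (M : ℝ) := by
      have h1 : (f : ℝ) + 1 ≤ K1 := by exact_mod_cast (by omega : f + 1 ≤ K1)
      rw [hMr]; linarith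
    refine mac2_real hmr hJ1r hJ2r g1 (Nat.cast_nonneg _) hff le_rfl
      (by positivity) g3 hD0 hD (Nat.cast_nonneg _) hYr ?_ hmain
    rw [hA, Finset.card_empty]
    have h2 : 2 * (Y.card : ℝ) * (((0 : ℕ) : ℝ) - 1) ≤ 0 := by
      have : (0 : ℝ) ≤ Y.card := by positivity
      push_cast
      linarith
    refine h2.trans ?_
    rw [hMr]
    linarith

/-- **R2 above `5 * 10^10`**: only a coarse prime is needed. -/
theorem mac_high {n : ℕ} {V : Finset ℕ} (h : Cex n V) (hn : 5 * 10 ^ 10 ≤ n) (hn2 : n ≤ 10 ^ 44)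
    (hp : ∃ p, p.Prime ∧ 2 * n + 3 ≤ p ∧ 100 * (p - 2 * n) ≤ n)
    {Y : Finset ℕ} {J : List (ℕ × ℕ)} (hYc : Y.card ≤ 90) (hY : ∀ b ∈ Y, 0 < b ∧ b ≤ 50000)
    (hJ : ∀ a ∈ J, 501 ≤ a.1 ∧ a.1 < a.2 ∧ a.2 ≤ 747)
    (hJp : J.Pairwise (fun a b => a.2 < b.1)) (hJ1 : 165 ≤ jlen J) (hJ2 : J.length ≤ 11)
    (tab : ∀ M K : ℕ, M = 2 * n + K → Odd M → 3 ≤ K → 3990 * K ≤ n →
      (∀ t, 0 < t → t ≤ 50000 → Nat.Coprime t M) → Tab M V Y J) : False := by
  obtain ⟨q, hq, hq1, hq2⟩ := hp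
  obtain ⟨p, m, hp, hm, hp2, hm2, -, hlt, hD, hodd, hcop, hphi⟩ := supply2 (2 * n + 3) (by omega)
  have e1 : p * m = 2 * n + (p * m - 2 * n) := by omega
  have e2 : q = 2 * n + (q - 2 * n) := by omega
  refine mac_two (K := p * m - 2 * n) (K1 := q - 2 * n) h hn hn2 e1 hodd (by omega) (by omega)
    hphi (by rw [← e2]; exact hq) (by omega) (by omega) hYc
    (fun b hb => hcop b (hY b hb).1 (hY b hb).2) hJ hJp hJ1 hJ2
    (tab _ _ e1 hodd (by omega) (by omega) hcop)

end Pool.Agent.LR4
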