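import Mathlib
import Pool.Agent.LR2.Cop
import Pool.Agent.LR4.Acct

/-!
Lower bounds for `φ(f) / f` and the number of primes of `f`, for `f` below a primorial.
-/

namespace Pool.Agent.LR4.Phi72

open Finset

/-- The `i`-th prime, `pr 0 = 2`. -/
noncomputable def pr (i : ℕ) : ℕ := Nat.nth Nat.Prime i

lemma pr_prime (i : ℕ) : (pr i).Prime := Nat.prime_nth_prime i

lemma pr_le_max {S : Finset ℕ} {q : ℕ} (hS : ∀ p ∈ S, p.Prime) (hq : q.Prime)
    (hlt : ∀ p ∈ S, p < q) : pr S.card ≤ q := by
  have h1 : S.card < Nat.count Nat.Prime (q + 1) := by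
    rw [Nat.count_eq_card_filter_range]
    have h2 : insert q S ⊆ (range (q + 1)).filter Nat.Prime := by
      intro x hx
      rw [mem_filter, mem_range]
      rcases mem_insert.1 hx with h | h
      · subst h
        exact ⟨by omega, hq⟩
      · have := hlt x h
        exact ⟨by omega, hS x h⟩
    have h3 : q ∉ S := fun h => absurd (hlt q h) (lt_irrefl q)
    have h4 := card_le_card h2
    rw [card_insert_of_notMem h3] at h4
    exact h4
  have := Nat.nth_lt_of_lt_count h1
  unfold pr
  omega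

theorem prod_cmp (S : Finset ℕ) (hS : ∀ p ∈ S, p.Prime) :
    ∏ i ∈ range S.card, pr i ≤ ∏ p ∈ S, p ∧
    (∏ p ∈ S, p) * ∏ i ∈ range S.card, (pr i - 1) ≤
      (∏ p ∈ S, (p - 1)) * ∏ i ∈ range S.card, pr i := by
  induction S using Finset.induction_on_max with
  | empty => simp
  | insert q S hlt ih =>
    have hq : q.Prime := hS q (mem_insert_self _ _)
    have hS' : ∀ p ∈ S, p.Prime := fun p hp => hS p (mem_insert_of_mem hp)
    have hqS : q ∉ S := fun h => absurd (hlt q h) (lt_irrefl q)
    obtain ⟨h1, h2⟩ := ih hS'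
    have h3 := pr_le_max hS' hq hlt
    rw [card_insert_of_notMem hqS, prod_insert hqS, prod_insert hqS, prod_range_succ,
      prod_range_succ]
    refine ⟨by rw [mul_comm]; exact Nat.mul_le_mul h3 h1, ?_⟩
    have h4 : q * (pr S.card - 1) ≤ (q - 1) * pr S.card := by
      obtain ⟨a, ha⟩ : ∃ a, q = a + 1 := ⟨q - 1, by have := hq.one_lt; omega⟩
      obtain ⟨b, hb⟩ : ∃ b, pr S.card = b + 1 :=
        ⟨pr S.card - 1, by have := (pr_prime S.card).one_lt; omega⟩
      rw [hb] at h3 ⊢
      rw [ha] at h3 ⊢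
      simp only [Nat.add_sub_cancel]
      nlinarith
    calc q * (∏ p ∈ S, p) * ((∏ i ∈ range S.card, (pr i - 1)) * (pr S.card - 1))
        = (q * (pr S.card - 1)) * ((∏ p ∈ S, p) * ∏ i ∈ range S.card, (pr i - 1)) := by ring
      _ ≤ ((q - 1) * pr S.card) * ((∏ p ∈ S, (p - 1)) * ∏ i ∈ range S.card, pr i) :=
        Nat.mul_le_mul h4 h2
      _ = (q - 1) * (∏ p ∈ S, (p - 1)) * ((∏ i ∈ range S.card, pr i) * pr S.card) := by ring

/-- `f` below the `(k+1)`-st primorial has at most `k` primes, and `φ(f) / f` is at least the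
product of `1 - 1/p` over the first `k` primes. -/
theorem phi_gen (k f : ℕ) (hf : 0 < f) (h : f < ∏ i ∈ range (k + 1), pr i) :
    f.primeFactors.card ≤ k ∧
      f * ∏ i ∈ range k, (pr i - 1) ≤ f.totient * ∏ i ∈ range k, pr i := by
  obtain ⟨h1, h2⟩ := prod_cmp f.primeFactors (fun p hp => Nat.prime_of_mem_primeFactors hp)
  obtain ⟨m, hm⟩ : ∃ m, m = f.primeFactors.card := ⟨_, rfl⟩
  rw [← hm] at h1 h2 ⊢
  have h3 : ∏ p ∈ f.primeFactors, p ≤ f := Nat.le_of_dvd hf (Nat.prod_primeFactors_dvd f)
  have hpos : ∀ j, 0 < ∏ i ∈ range j, pr i := fun j =>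
    Finset.prod_pos fun i _ => (pr_prime i).pos
  have hmk : m ≤ k := by
    by_contra hc
    have h4 : k + 1 ≤ m := by omega
    have h5 : ∏ i ∈ range (k + 1), pr i ≤ ∏ i ∈ range m, pr i := by
      refine Finset.prod_le_prod_of_subset_of_one_le' (range_subset_range.2 h4) ?_
      intro i _ _
      exact (pr_prime i).one_lt.le
    omega
  refine ⟨hmk, ?_⟩
  have h6 := Nat.totient_mul_prod_primeFactors f
  have h7 : ∏ i ∈ range k, (pr i - 1) * 1 ≤ 1 * ∏ i ∈ range k, pr i := by
    rw [one_mul]
    exact Finset.prod_le_prod' fun i _ => by omega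
  -- compare the first m with the first k primes
  have h8 : (∏ i ∈ range k, (pr i - 1)) * ∏ i ∈ range m, pr i ≤
      (∏ i ∈ range m, (pr i - 1)) * ∏ i ∈ range k, pr i := by
    obtain ⟨d, rfl⟩ := Nat.exists_eq_add_of_le hmk
    rw [prod_range_add, prod_range_add]
    have h9 : ∏ x ∈ range d, (pr (m + x) - 1) ≤ ∏ x ∈ range d, pr (m + x) :=
      Finset.prod_le_prod' fun i _ => by omega
    calc (∏ x ∈ range m, (pr x - 1)) * (∏ x ∈ range d, (pr (m + x) - 1)) * ∏ i ∈ range m, pr i
        = ((∏ x ∈ range m, (pr x - 1)) * ∏ i ∈ range m, pr i) *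
          (∏ x ∈ range d, (pr (m + x) - 1)) := by ring
      _ ≤ ((∏ x ∈ range m, (pr x - 1)) * ∏ i ∈ range m, pr i) *
          (∏ x ∈ range d, pr (m + x)) := Nat.mul_le_mul_left _ h9
      _ = _ := by ring
  -- assemble
  have hA : 0 < ∏ p ∈ f.primeFactors, p :=
    Finset.prod_pos fun p hp => (Nat.prime_of_mem_primeFactors hp).pos
  have hB : 0 < ∏ i ∈ range m, pr i := hpos m
  refine Nat.le_of_mul_le_mul_right ?_ (Nat.mul_pos hA hB)
  calc f * (∏ i ∈ range k, (pr i - 1)) * ((∏ p ∈ f.primeFactors, p) * ∏ i ∈ range m, pr i)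
      = f * (∏ p ∈ f.primeFactors, p) * ((∏ i ∈ range k, (pr i - 1)) * ∏ i ∈ range m, pr i) := by
        ring
    _ ≤ f * (∏ p ∈ f.primeFactors, p) *
        ((∏ i ∈ range m, (pr i - 1)) * ∏ i ∈ range k, pr i) := Nat.mul_le_mul_left _ h8
    _ = f * ((∏ p ∈ f.primeFactors, p) * ∏ i ∈ range m, (pr i - 1)) * ∏ i ∈ range k, pr i := by
        ring
    _ ≤ f * ((∏ p ∈ f.primeFactors, (p - 1)) * ∏ i ∈ range m, pr i) * ∏ i ∈ range k, pr i :=
        Nat.mul_le_mul_right _ (Nat.mul_le_mul_left _ h2)
    _ = (f * ∏ p ∈ f.primeFactors, (p - 1)) * (∏ i ∈ range m, pr i) * ∏ i ∈ range k, pr i := by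
        ring
    _ = (f.totient * ∏ p ∈ f.primeFactors, p) * (∏ i ∈ range m, pr i) * ∏ i ∈ range k, pr i := by
        rw [h6]
    _ = f.totient * (∏ i ∈ range k, pr i) * ((∏ p ∈ f.primeFactors, p) * ∏ i ∈ range m, pr i) := by
        ring


/-- The primes below `q` and their number. -/
lemma pr_eq {i q : ℕ} (hq : q.Prime) (hc : Nat.count Nat.Prime q = i) : pr i = q := by
  unfold pr
  rw [← hc]
  exact Nat.nth_count hq

lemma pr_vals : pr 0 = 2 ∧ pr 1 = 3 ∧ pr 2 = 5 ∧ pr 3 = 7 ∧ pr 4 = 11 ∧ pr 5 = 13 ∧ pr 6 = 17 ∧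
    pr 7 = 19 ∧ pr 8 = 23 ∧ pr 9 = 29 ∧ pr 10 = 31 ∧ pr 11 = 37 ∧ pr 12 = 41 ∧ pr 13 = 43 ∧
    pr 14 = 47 ∧ pr 15 = 53 ∧ pr 16 = 59 ∧ pr 17 = 61 := by
  refine ⟨?_, ?_, ?_, ?_, ?_, ?_, ?_, ?_, ?_, ?_, ?_, ?_, ?_, ?_, ?_, ?_, ?_, ?_⟩ <;>
    exact pr_eq (by norm_num) (by decide +kernel)

/-- Rows `(k, P, a, b)`: `P` is the product of the first `k + 1` primes and `a / b` is the product
of `1 - 1/p` over the first `k` primes. -/
def tbl : List (ℕ × ℕ × ℕ × ℕ) :=
  [(1, 6, 1, 2), (2, 30, 1, 3), (3, 210, 4, 15), (4, 2310, 8, 35), (5, 30030, 16, 77),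
    (6, 510510, 192, 1001), (7, 9699690, 3072, 17017), (8, 223092870, 55296, 323323),
    (9, 6469693230, 110592, 676039), (10, 200560490130, 442368, 2800733),
    (11, 7420738134810, 13271040, 86822723), (12, 304250263527210, 477757440, 3212440751),
    (13, 13082761331670030, 19110297600, 131710070791),
    (14, 614889782588491410, 802632499200, 5663533044013),
    (15, 32589158477190044730, 1605264998400, 11573306655157),
    (16, 1922760350154212639070, 6421059993600, 47183480978717),
    (17, 117288381359406970983270, 12842119987200, 95993978542907)]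

lemma phi_row {k P A B a b : ℕ} (hP : ∏ i ∈ range (k + 1), pr i = P)
    (hA : ∏ i ∈ range k, (pr i - 1) = A) (hB : ∏ i ∈ range k, pr i = B) (hab : a * B = b * A)
    {f : ℕ} (hf : 0 < f) (h : f < P) : f.primeFactors.card ≤ k ∧ a * f ≤ b * f.totient := by
  obtain ⟨h1, h2⟩ := phi_gen k f hf (by rw [hP]; exact h)
  refine ⟨h1, ?_⟩
  have hB0 : 0 < B := by
    rw [← hB]
    exact Finset.prod_pos fun i _ => (pr_prime i).pos
  rw [hA, hB] at h2
  refine Nat.le_of_mul_le_mul_right ?_ hB0
  calc a * f * B = (a * B) * f := by ring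
    _ = b * (f * A) := by rw [hab]; ring
    _ ≤ b * (f.totient * B) := Nat.mul_le_mul_left _ h2
    _ = b * f.totient * B := by ring

/-- For each row of the table and each `f` with `0 < f < P`: `f` has at most `k` primes and
`a f ≤ b φ(f)`. -/
theorem phi_tbl {k P a b : ℕ} (h : (k, P, a, b) ∈ tbl) {f : ℕ} (hf : 0 < f) (hP : f < P) :
    f.primeFactors.card ≤ k ∧ a * f ≤ b * f.totient := by
  obtain ⟨v0, v1, v2, v3, v4, v5, v6, v7, v8, v9, v10, v11, v12, v13, v14, v15, v16, v17⟩ := pr_vals
  simp only [tbl, List.mem_cons, Prod.mk.injEq, List.not_mem_nil, or_false] at h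
  rcases h with ⟨rfl, rfl, rfl, rfl⟩ | ⟨rfl, rfl, rfl, rfl⟩ | ⟨rfl, rfl, rfl, rfl⟩ |
    ⟨rfl, rfl, rfl, rfl⟩ | ⟨rfl, rfl, rfl, rfl⟩ | ⟨rfl, rfl, rfl, rfl⟩ | ⟨rfl, rfl, rfl, rfl⟩ |
    ⟨rfl, rfl, rfl, rfl⟩ | ⟨rfl, rfl, rfl, rfl⟩ | ⟨rfl, rfl, rfl, rfl⟩ | ⟨rfl, rfl, rfl, rfl⟩ |
    ⟨rfl, rfl, rfl, rfl⟩ | ⟨rfl, rfl, rfl, rfl⟩ | ⟨rfl, rfl, rfl, rfl⟩ | ⟨rfl, rfl, rfl, rfl⟩ |
    ⟨rfl, rfl, rfl, rfl⟩ | ⟨rfl, rfl, rfl, rfl⟩
  · exact phi_row (k := 1) (A := 1) (B := 2)
      (by simp only [prod_range_succ, prod_range_zero, v0, v1]; norm_num)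
      (by simp only [prod_range_succ, prod_range_zero, v0]; norm_num)
      (by simp only [prod_range_succ, prod_range_zero, v0]; norm_num) (by norm_num) hf hP
  · exact phi_row (k := 2) (A := 2) (B := 6)
      (by simp only [prod_range_succ, prod_range_zero, v0, v1, v2]; norm_num)
      (by simp only [prod_range_succ, prod_range_zero, v0, v1]; norm_num)
      (by simp only [prod_range_succ, prod_range_zero, v0, v1]; norm_num) (by norm_num) hf hP
  · exact phi_row (k := 3) (A := 8) (B := 30)
      (by simp only [prod_range_succ, prod_range_zero, v0, v1, v2, v3]; norm_num)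
      (by simp only [prod_range_succ, prod_range_zero, v0, v1, v2]; norm_num)
      (by simp only [prod_range_succ, prod_range_zero, v0, v1, v2]; norm_num) (by norm_num) hf hP
  · exact phi_row (k := 4) (A := 48) (B := 210)
      (by simp only [prod_range_succ, prod_range_zero, v0, v1, v2, v3, v4]; norm_num)
      (by simp only [prod_range_succ, prod_range_zero, v0, v1, v2, v3]; norm_num)
      (by simp only [prod_range_succ, prod_range_zero, v0, v1, v2, v3]; norm_num) (by norm_num) hf hP
  · exact phi_row (k := 5) (A := 480) (B := 2310)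
      (by simp only [prod_range_succ, prod_range_zero, v0, v1, v2, v3, v4, v5]; norm_num)
      (by simp only [prod_range_succ, prod_range_zero, v0, v1, v2, v3, v4]; norm_num)
      (by simp only [prod_range_succ, prod_range_zero, v0, v1, v2, v3, v4]; norm_num) (by norm_num) hf hP
  · exact phi_row (k := 6) (A := 5760) (B := 30030)
      (by simp only [prod_range_succ, prod_range_zero, v0, v1, v2, v3, v4, v5, v6]; norm_num)
      (by simp only [prod_range_succ, prod_range_zero, v0, v1, v2, v3, v4, v5]; norm_num)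
      (by simp only [prod_range_succ, prod_range_zero, v0, v1, v2, v3, v4, v5]; norm_num) (by norm_num) hf hP
  · exact phi_row (k := 7) (A := 92160) (B := 510510)
      (by simp only [prod_range_succ, prod_range_zero, v0, v1, v2, v3, v4, v5, v6, v7]; norm_num)
      (by simp only [prod_range_succ, prod_range_zero, v0, v1, v2, v3, v4, v5, v6]; norm_num)
      (by simp only [prod_range_succ, prod_range_zero, v0, v1, v2, v3, v4, v5, v6]; norm_num) (by norm_num) hf hP
  · exact phi_row (k := 8) (A := 1658880) (B := 9699690)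
      (by simp only [prod_range_succ, prod_range_zero, v0, v1, v2, v3, v4, v5, v6, v7, v8]; norm_num)
      (by simp only [prod_range_succ, prod_range_zero, v0, v1, v2, v3, v4, v5, v6, v7]; norm_num)
      (by simp only [prod_range_succ, prod_range_zero, v0, v1, v2, v3, v4, v5, v6, v7]; norm_num) (by norm_num) hf hP
  · exact phi_row (k := 9) (A := 36495360) (B := 223092870)
      (by simp only [prod_range_succ, prod_range_zero, v0, v1, v2, v3, v4, v5, v6, v7, v8, v9]; norm_num)
      (by simp only [prod_range_succ, prod_range_zero, v0, v1, v2, v3, v4, v5, v6, v7, v8]; norm_num)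
      (by simp only [prod_range_succ, prod_range_zero, v0, v1, v2, v3, v4, v5, v6, v7, v8]; norm_num) (by norm_num) hf hP
  · exact phi_row (k := 10) (A := 1021870080) (B := 6469693230)
      (by simp only [prod_range_succ, prod_range_zero, v0, v1, v2, v3, v4, v5, v6, v7, v8, v9, v10]; norm_num)
      (by simp only [prod_range_succ, prod_range_zero, v0, v1, v2, v3, v4, v5, v6, v7, v8, v9]; norm_num)
      (by simp only [prod_range_succ, prod_range_zero, v0, v1, v2, v3, v4, v5, v6, v7, v8, v9]; norm_num) (by norm_num) hf hP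
  · exact phi_row (k := 11) (A := 30656102400) (B := 200560490130)
      (by simp only [prod_range_succ, prod_range_zero, v0, v1, v2, v3, v4, v5, v6, v7, v8, v9, v10, v11]; norm_num)
      (by simp only [prod_range_succ, prod_range_zero, v0, v1, v2, v3, v4, v5, v6, v7, v8, v9, v10]; norm_num)
      (by simp only [prod_range_succ, prod_range_zero, v0, v1, v2, v3, v4, v5, v6, v7, v8, v9, v10]; norm_num) (by norm_num) hf hP
  · exact phi_row (k := 12) (A := 1103619686400) (B := 7420738134810)
      (by simp only [prod_range_succ, prod_range_zero, v0, v1, v2, v3, v4, v5, v6, v7, v8, v9, v10, v11, v12]; norm_num)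
      (by simp only [prod_range_succ, prod_range_zero, v0, v1, v2, v3, v4, v5, v6, v7, v8, v9, v10, v11]; norm_num)
      (by simp only [prod_range_succ, prod_range_zero, v0, v1, v2, v3, v4, v5, v6, v7, v8, v9, v10, v11]; norm_num) (by norm_num) hf hP
  · exact phi_row (k := 13) (A := 44144787456000) (B := 304250263527210)
      (by simp only [prod_range_succ, prod_range_zero, v0, v1, v2, v3, v4, v5, v6, v7, v8, v9, v10, v11, v12, v13]; norm_num)
      (by simp only [prod_range_succ, prod_range_zero, v0, v1, v2, v3, v4, v5, v6, v7, v8, v9, v10, v11, v12]; norm_num)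
      (by simp only [prod_range_succ, prod_range_zero, v0, v1, v2, v3, v4, v5, v6, v7, v8, v9, v10, v11, v12]; norm_num) (by norm_num) hf hP
  · exact phi_row (k := 14) (A := 1854081073152000) (B := 13082761331670030)
      (by simp only [prod_range_succ, prod_range_zero, v0, v1, v2, v3, v4, v5, v6, v7, v8, v9, v10, v11, v12, v13, v14]; norm_num)
      (by simp only [prod_range_succ, prod_range_zero, v0, v1, v2, v3, v4, v5, v6, v7, v8, v9, v10, v11, v12, v13]; norm_num)
      (by simp only [prod_range_succ, prod_range_zero, v0, v1, v2, v3, v4, v5, v6, v7, v8, v9, v10, v11, v12, v13]; norm_num) (by norm_num) hf hP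
  · exact phi_row (k := 15) (A := 85287729364992000) (B := 614889782588491410)
      (by simp only [prod_range_succ, prod_range_zero, v0, v1, v2, v3, v4, v5, v6, v7, v8, v9, v10, v11, v12, v13, v14, v15]; norm_num)
      (by simp only [prod_range_succ, prod_range_zero, v0, v1, v2, v3, v4, v5, v6, v7, v8, v9, v10, v11, v12, v13, v14]; norm_num)
      (by simp only [prod_range_succ, prod_range_zero, v0, v1, v2, v3, v4, v5, v6, v7, v8, v9, v10, v11, v12, v13, v14]; norm_num) (by norm_num) hf hP
  · exact phi_row (k := 16) (A := 4434961926979584000) (B := 32589158477190044730)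
      (by simp only [prod_range_succ, prod_range_zero, v0, v1, v2, v3, v4, v5, v6, v7, v8, v9, v10, v11, v12, v13, v14, v15, v16]; norm_num)
      (by simp only [prod_range_succ, prod_range_zero, v0, v1, v2, v3, v4, v5, v6, v7, v8, v9, v10, v11, v12, v13, v14, v15]; norm_num)
      (by simp only [prod_range_succ, prod_range_zero, v0, v1, v2, v3, v4, v5, v6, v7, v8, v9, v10, v11, v12, v13, v14, v15]; norm_num) (by norm_num) hf hP
  · exact phi_row (k := 17) (A := 257227791764815872000) (B := 1922760350154212639070)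
      (by simp only [prod_range_succ, prod_range_zero, v0, v1, v2, v3, v4, v5, v6, v7, v8, v9, v10, v11, v12, v13, v14, v15, v16, v17]; norm_num)
      (by simp only [prod_range_succ, prod_range_zero, v0, v1, v2, v3, v4, v5, v6, v7, v8, v9, v10, v11, v12, v13, v14, v15, v16]; norm_num)
      (by simp only [prod_range_succ, prod_range_zero, v0, v1, v2, v3, v4, v5, v6, v7, v8, v9, v10, v11, v12, v13, v14, v15, v16]; norm_num) (by norm_num) hf hP

/-! ### Counting integers coprime to `f` -/

/-- For a row of the table: the number of `x ∈ (s, t]` coprime to `f`. -/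
theorem count_cop {k P a b : ℕ} (h : (k, P, a, b) ∈ tbl) {f : ℕ} (hf : 0 < f) (hP : f < P)
    {s t : ℕ} (hst : s ≤ t) :
    a * (t - s) ≤ b * (((Ioc s t).filter (fun x => Nat.Coprime x f)).card + 2 ^ k) := by
  obtain ⟨h1, h2⟩ := phi_tbl h hf hP
  have h3 := Pool.Agent.LR2.COP f s t hf hst
  obtain ⟨c, hc⟩ : ∃ c, c = ((Ioc s t).filter (fun x => Nat.Coprime x f)).card := ⟨_, rfl⟩
  rw [← hc] at h3 ⊢
  have h4 : (2 : ℝ) ^ f.primeFactors.card ≤ 2 ^ k := pow_le_pow_right₀ (by norm_num) h1
  have hf' : (0 : ℝ) < f := by exact_mod_cast hf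
  have h5 : ((t : ℝ) - s) * (a : ℝ) ≤ b * ((c : ℝ) + 2 ^ k) := by
    have h6 : ((t : ℝ) - s) * ((f.totient : ℝ) / f) ≤ c + 2 ^ k := by linarith
    have h7 : (a : ℝ) * f ≤ b * f.totient := by exact_mod_cast h2
    have h8 : (a : ℝ) ≤ b * ((f.totient : ℝ) / f) := by
      rw [← mul_div_assoc, le_div_iff₀ hf']
      exact h7
    have h9 : (0 : ℝ) ≤ (t : ℝ) - s := by
      have : (s : ℝ) ≤ t := by exact_mod_cast hst
      linarith
    calc ((t : ℝ) - s) * (a : ℝ) ≤ ((t : ℝ) - s) * (b * ((f.totient : ℝ) / f)) :=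
          mul_le_mul_of_nonneg_left h8 h9
      _ = b * (((t : ℝ) - s) * ((f.totient : ℝ) / f)) := by ring
      _ ≤ b * ((c : ℝ) + 2 ^ k) := mul_le_mul_of_nonneg_left h6 (by positivity)
  have h10 : ((a * (t - s) : ℕ) : ℝ) ≤ ((b * (c + 2 ^ k) : ℕ) : ℝ) := by
    push_cast [Nat.cast_sub hst]
    linarith
  exact_mod_cast h10

/-! ### Sets without `j` and `2 j` -/

/-- A set `J` in `[1, m]` without pairs `j, 2 j` has at most `2 m / 3 + (log_4 m + 1) / 2`
elements. -/
theorem twofree (m : ℕ) : ∀ J : Finset ℕ, (∀ j ∈ J, 1 ≤ j ∧ j ≤ m) → (∀ j ∈ J, 2 * j ∉ J) →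
    6 * J.card ≤ 4 * m + 3 * (Nat.log 4 m + 1) := by
  induction m using Nat.strong_induction_on with
  | _ m ih =>
    intro J hJ h2
    have hsplit := Finset.card_filter_add_card_filter_not (s := J) (fun j => 4 ∣ j)
    -- the part not divisible by 4
    have hA : (J.filter (fun j => ¬ 4 ∣ j)).card ≤ (m + 1) / 2 := by
      have e1 : (J.filter (fun j => ¬ 4 ∣ j)).card ≤ (range ((m + 1) / 2)).card := by
        refine Finset.card_le_card_of_injOn (fun j => if j % 2 = 1 then j / 2 else j / 4) ?_ ?_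
        · intro j hj
          rw [mem_coe, mem_filter] at hj
          obtain ⟨h3, h4⟩ := hj
          have h5 := hJ j h3
          rw [mem_coe, mem_range]
          dsimp only
          split_ifs with h6 <;> omega
        · intro x hx y hy hxy
          rw [mem_coe, mem_filter] at hx hy
          obtain ⟨hx1, hx2⟩ := hx
          obtain ⟨hy1, hy2⟩ := hy
          have hx3 := hJ x hx1
          have hy3 := hJ y hy1
          have hx4 := h2 x hx1
          have hy4 := h2 y hy1
          dsimp only at hxy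
          by_contra hne
          split_ifs at hxy with h6 h7 h7
          · omega
          · have : y = 2 * x := by omega
            exact hx4 (this ▸ hy1)
          · have : x = 2 * y := by omega
            exact hy4 (this ▸ hx1)
          · omega
      rwa [card_range] at e1
    rcases Nat.lt_or_ge m 4 with hm | hm
    · have hB : (J.filter (fun j => 4 ∣ j)).card = 0 := by
        rw [Finset.card_eq_zero, Finset.filter_eq_empty_iff]
        intro j hj h5
        have := hJ j hj
        omega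
      have h6 : Nat.log 4 m = 0 := Nat.log_of_lt hm
      omega
    · have hB : 6 * (J.filter (fun j => 4 ∣ j)).card ≤
          4 * (m / 4) + 3 * (Nat.log 4 (m / 4) + 1) := by
        have e1 : (J.filter (fun j => 4 ∣ j)).card =
            ((J.filter (fun j => 4 ∣ j)).image (fun j => j / 4)).card := by
          rw [Finset.card_image_of_injOn]
          intro x hx y hy hxy
          rw [mem_coe, mem_filter] at hx hy
          dsimp only at hxy
          omega
        rw [e1]
        refine ih (m / 4) (by omega) _ ?_ ?_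
        · intro j hj
          rw [mem_image] at hj
          obtain ⟨i, hi, rfl⟩ := hj
          rw [mem_filter] at hi
          have := hJ i hi.1
          omega
        · intro j hj hj2
          rw [mem_image] at hj hj2
          obtain ⟨i, hi, rfl⟩ := hj
          obtain ⟨i', hi', h7⟩ := hj2
          rw [mem_filter] at hi hi'
          have h8 : i' = 2 * i := by omega
          exact h2 i hi.1 (h8 ▸ hi'.1)
      have h6 : Nat.log 4 m = Nat.log 4 (m / 4) + 1 := Nat.log_of_one_lt_of_le (by norm_num) hm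
      omega

/-- The number of even missing speeds up to `K - 3`. -/
theorem evs_card {n K M : ℕ} {V : Finset ℕ} (h : Cex n V) (hM : M = 2 * n + K)
    (hK : 3 ≤ K) (hKn : 3 * K ≤ n + 9) :
    6 * (evs M K V).card ≤ 4 * ((K - 3) / 2) + 3 * (Nat.log 4 ((K - 3) / 2) + 1) := by
  have e1 : (evs M K V).card = ((evs M K V).image (fun j => j / 2)).card := by
    rw [Finset.card_image_of_injOn]
    intro x hx y hy hxy
    rw [mem_coe, evs, mem_filter] at hx hy
    dsimp only at hxy
    obtain ⟨a, ha⟩ := hx.2.1.1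
    obtain ⟨b, hb⟩ := hy.2.1.1
    omega
  rw [e1]
  refine twofree _ _ ?_ ?_
  · intro j hj
    rw [mem_image] at hj
    obtain ⟨i, hi, rfl⟩ := hj
    rw [evs, mem_filter, mem_Icc] at hi
    obtain ⟨a, ha⟩ := hi.2.1.1
    omega
  · intro j hj hj2
    rw [mem_image] at hj hj2
    obtain ⟨i, hi, rfl⟩ := hj
    obtain ⟨i', hi', h7⟩ := hj2
    rw [evs, mem_filter, mem_Icc] at hi hi'
    obtain ⟨a, ha⟩ := hi.2.1.1
    obtain ⟨b, hb⟩ := hi'.2.1.1
    have h8 : i' = 2 * i := by omega
    have h9 : 2 * i ∈ V := h.dbl (q := i) (z := M) (by omega)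
      (Nat.coprime_comm.1 hi.2.1.2) (by omega) (by omega) hi.2.2
    exact hi'.2.2 (h8 ▸ h9)

end Pool.Agent.LR4.Phi72
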