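import Mathlib

/-!
Primality tests (Proth, Lucas, trial division) and checkers for chains of primes, for evaluation by
the kernel. `chain r s x L` checks that the entries of `L` are primes, each larger than the previous
one and at most `r / s` times the previous one.
-/

namespace Pool.Agent.LR4

/-- Proth's theorem. -/
theorem proth {k m a p : ℕ} (hp : p = k * 2 ^ m + 1) (hk0 : 0 < k) (hm : 0 < m) (hk : k < 2 ^ m)
    (h : a ^ (k * 2 ^ (m - 1)) % p + 1 = p) : p.Prime := by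
  have hkm : 0 < k * 2 ^ m := Nat.mul_pos hk0 (by positivity)
  have hp2 : 2 ≤ p := by omega
  by_contra hnp
  obtain ⟨q, hq⟩ : ∃ q, q = p.minFac := ⟨_, rfl⟩
  have hqp : q.Prime := by rw [hq]; exact Nat.minFac_prime (by omega)
  have hqd : q ∣ p := by rw [hq]; exact Nat.minFac_dvd p
  have hqq : q * q ≤ p := by
    have := Nat.minFac_sq_le_self (by omega) hnp
    rw [hq, ← sq]; exact this
  have : Fact q.Prime := ⟨hqp⟩
  have hq2 : q ≠ 2 := by
    intro h2
    rw [h2, hp] at hqd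
    obtain ⟨m', rfl⟩ : ∃ m', m = m' + 1 := ⟨m - 1, by omega⟩
    have : (2 : ℕ) ∣ k * 2 ^ (m' + 1) := ⟨k * 2 ^ m', by ring⟩
    have := (Nat.dvd_add_right this).1 hqd
    omega
  have hz : ((a : ZMod q)) ^ (k * 2 ^ (m - 1)) = -1 := by
    have h1 : ((a ^ (k * 2 ^ (m - 1)) : ℕ) : ZMod q) + 1 = 0 := by
      have h2 : (p : ZMod q) = 0 := (ZMod.natCast_eq_zero_iff p q).2 hqd
      have h3 : ((a ^ (k * 2 ^ (m - 1)) : ℕ) : ZMod q) =
          ((a ^ (k * 2 ^ (m - 1)) % p : ℕ) : ZMod q) := by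
        conv_lhs => rw [← Nat.mod_add_div (a ^ (k * 2 ^ (m - 1))) p]
        push_cast
        rw [h2, zero_mul, add_zero]
      rw [h3]
      have h4 : (((a ^ (k * 2 ^ (m - 1)) % p + 1 : ℕ)) : ZMod q) = 0 := by rw [h, h2]
      push_cast at h4
      exact h4
    push_cast at h1
    exact eq_neg_of_add_eq_zero_left h1
  set b : ZMod q := (a : ZMod q) ^ k with hb
  have hb1 : b ^ (2 ^ (m - 1)) = -1 := by rw [hb, ← pow_mul, hz]
  have hne : (-1 : ZMod q) ≠ 1 := by
    intro hc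
    have h2 : (2 : ZMod q) = 0 := by
      have := hc.symm
      linear_combination this
    have h3 : ((2 : ℕ) : ZMod q) = 0 := by exact_mod_cast h2
    rw [ZMod.natCast_eq_zero_iff] at h3
    exact hq2 ((Nat.prime_dvd_prime_iff_eq hqp Nat.prime_two).1 h3)
  have hord : orderOf b = 2 ^ (m - 1 + 1) := by
    apply orderOf_eq_prime_pow
    · rw [hb1]; exact hne
    · rw [pow_succ, pow_mul, hb1]; ring
  have hb0 : b ≠ 0 := by
    intro h0
    rw [h0, zero_pow (by positivity)] at hb1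
    have : (1 : ZMod q) = 0 := by linear_combination hb1
    exact one_ne_zero this
  have hdvd : orderOf b ∣ q - 1 := ZMod.orderOf_dvd_card_sub_one hb0
  rw [hord, show m - 1 + 1 = m by omega] at hdvd
  have hle : 2 ^ m ≤ q - 1 := Nat.le_of_dvd (by have := hqp.two_le; omega) hdvd
  have hq1 : 2 ^ m + 1 ≤ q := by have := hqp.two_le; omega
  have : (2 ^ m + 1) * (2 ^ m + 1) ≤ p := (Nat.mul_le_mul hq1 hq1).trans hqq
  rw [hp] at this
  have h5 : k * 2 ^ m ≤ 2 ^ m * 2 ^ m := Nat.mul_le_mul_right _ hk.le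
  have h6 : 0 < 2 ^ m := by positivity
  nlinarith

/-- `pwd p x f e` is `x ^ e` modulo `p` if `e < 256 ^ f`. -/
def pwd (p x : ℕ) : ℕ → ℕ → ℕ
  | 0, _ => 1
  | f + 1, e => (pwd p x f (e / 256)) ^ 256 * x ^ (e % 256) % p

theorem pwd_mod (p x f e : ℕ) (he : e < 256 ^ f) : pwd p x f e % p = x ^ e % p := by
  induction f generalizing e with
  | zero =>
    have : e = 0 := by simpa using he
    subst this
    simp [pwd]
  | succ f ih =>
    rw [pwd, Nat.mod_mod, Nat.mul_mod, Nat.pow_mod, ih (e / 256) (by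
      rw [pow_succ] at he
      omega), ← Nat.pow_mod, ← Nat.mul_mod, ← pow_mul, ← pow_add]
    congr 2
    omega

/-- Check of the Proth prime `k * 2 ^ m + 1` with witness `a`; `p` is its value. -/
def chkP (k m a p : ℕ) : Bool :=
  (p == k * 2 ^ m + 1) && decide (0 < k) && decide (k < 2 ^ m) && decide (0 < m) &&
    decide (k * 2 ^ (m - 1) < 256 ^ 20) && (pwd p a 20 (k * 2 ^ (m - 1)) % p + 1 == p)

theorem chkP_prime {k m a p : ℕ} (h : chkP k m a p = true) : p.Prime := by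
  simp only [chkP, Bool.and_eq_true, beq_iff_eq, decide_eq_true_eq] at h
  obtain ⟨⟨⟨⟨⟨h1, h2⟩, h3⟩, h4⟩, h5⟩, h6⟩ := h
  refine proth (a := a) h1 h2 h4 h3 ?_
  rw [pwd_mod _ _ _ _ h5] at h6
  exact h6

end Pool.Agent.LR4
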