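import Mathlib
import Pool.Agent.LR4.Supply

/-!
# LR4 / Wheel: primality of the entries of a list by one `gcd` with a product (wheel mod 30)
-/

set_option autoImplicit false

namespace Pool.Agent.LR4

/-- the product of `30 k + r`, `r = ±1, ±7, ±11, ±13`, as a function of `s = (30 k)²` -/
def whC (s : ℕ) : ℕ := ((s - 1) * (s - 49)) * ((s - 121) * (s - 169))

/-- product of `whC` over the `2^d` consecutive numbers starting at `lo` -/
def whR (lo : ℕ) : ℕ → ℕ
  | 0 => whC (900 * (lo * lo))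
  | d + 1 => whR lo d * whR (lo + 2 ^ d) d

theorem wh_dvd (d : ℕ) : ∀ lo k : ℕ, lo ≤ k → k < lo + 2 ^ d → whC (900 * (k * k)) ∣ whR lo d := by
  induction d with
  | zero =>
    intro lo k h1 h2
    have : k = lo := by omega
    rw [this, whR]
  | succ d ih =>
    intro lo k h1 h2
    rw [whR]
    by_cases h : k < lo + 2 ^ d
    · exact Dvd.dvd.mul_right (ih lo k h1 h) _
    · exact Dvd.dvd.mul_left (ih (lo + 2 ^ d) k (by omega) (by rw [pow_succ] at h2; omega)) _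

theorem wh_sq (k r : ℕ) : 900 * (k * k) - r * r = (30 * k + r) * (30 * k - r) := by
  have h := Nat.mul_self_sub_mul_self_eq (30 * k) r
  rw [← h]
  congr 1
  ring

theorem wh_m (m k r : ℕ) (h : m = 30 * k + r ∨ m + r = 30 * k) : m ∣ 900 * (k * k) - r * r := by
  rw [wh_sq]
  rcases h with h | h
  · rw [h]; exact Dvd.intro _ rfl
  · have : 30 * k - r = m := by omega
    rw [this]; exact Dvd.intro_left _ rfl

theorem wh_prime (m B : ℕ) (hm : m.Prime) (h17 : 17 ≤ m) (hB : m ≤ 30 * B + 13) :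
    ∃ k, 1 ≤ k ∧ k ≤ B ∧ m ∣ whC (900 * (k * k)) := by
  have c2 : m % 2 ≠ 0 := by
    intro h
    have h1 : 2 ∣ m := Nat.dvd_of_mod_eq_zero h
    have h2 := (Nat.prime_dvd_prime_iff_eq Nat.prime_two hm).1 h1
    omega
  have c3 : m % 3 ≠ 0 := by
    intro h
    have h1 : 3 ∣ m := Nat.dvd_of_mod_eq_zero h
    have h2 := (Nat.prime_dvd_prime_iff_eq Nat.prime_three hm).1 h1
    omega
  have c5 : m % 5 ≠ 0 := by
    intro h
    have h1 : 5 ∣ m := Nat.dvd_of_mod_eq_zero h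
    have h2 := (Nat.prime_dvd_prime_iff_eq Nat.prime_five hm).1 h1
    omega
  obtain ⟨k, hk⟩ : ∃ k, k = (m + 13) / 30 := ⟨_, rfl⟩
  refine ⟨k, by omega, by omega, ?_⟩
  have key : (m = 30 * k + 1 ∨ m + 1 = 30 * k) ∨ (m = 30 * k + 7 ∨ m + 7 = 30 * k) ∨
      (m = 30 * k + 11 ∨ m + 11 = 30 * k) ∨ (m = 30 * k + 13 ∨ m + 13 = 30 * k) := by
    obtain ⟨r, hr⟩ : ∃ r, r = m % 30 := ⟨_, rfl⟩
    have r2 : r % 2 ≠ 0 := by omega
    have r3 : r % 3 ≠ 0 := by omega
    have r5 : r % 5 ≠ 0 := by omega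
    have r30 : r < 30 := by omega
    clear c2 c3 c5 h17 hB
    interval_cases r <;> omega
  unfold whC
  rcases key with h | h | h | h
  · exact Dvd.dvd.mul_right (Dvd.dvd.mul_right (wh_m m k 1 h) _) _
  · exact Dvd.dvd.mul_right (Dvd.dvd.mul_left (wh_m m k 7 h) _) _
  · exact Dvd.dvd.mul_left (Dvd.dvd.mul_right (wh_m m k 11 h) _) _
  · exact Dvd.dvd.mul_left (Dvd.dvd.mul_left (wh_m m k 13 h) _) _

/-- if `P` is divisible by all blocks `1 ≤ k ≤ B` and the entries of `l` are below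
`(30 B + 14)²` and prime to `30030 P`, they are prime -/
theorem wh_list (l : List ℕ) (B BD P : ℕ) (hP : ∀ k, 1 ≤ k → k ≤ B → whC (900 * (k * k)) ∣ P)
    (h : Nat.gcd (supLprod l) (30030 * P) = 1) (hb : supBd BD l = true)
    (hBD : BD < (30 * B + 14) ^ 2) (q : ℕ) (hq : q ∈ l) : q.Prime := by
  obtain ⟨h2, hB⟩ := sup_bd_mem _ l hb q hq
  have hdvd := sup_dvd_lprod l q hq
  by_contra hn
  have hsq : Nat.minFac q ^ 2 ≤ q := Nat.minFac_sq_le_self (by omega) hn
  have hmf : (Nat.minFac q).Prime := Nat.minFac_prime (by omega)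
  obtain ⟨m, hm⟩ : ∃ m, m = Nat.minFac q := ⟨_, rfl⟩
  rw [← hm] at hsq hmf
  have hlt : m < 30 * B + 14 := by
    by_contra hge
    have : (30 * B + 14) ^ 2 ≤ m ^ 2 := Nat.pow_le_pow_left (by omega) 2
    omega
  have h3 : m ∣ 30030 * P := by
    by_cases h17 : 17 ≤ m
    · obtain ⟨k, hk1, hk2, hk3⟩ := wh_prime m B hmf h17 (by omega)
      exact Dvd.dvd.mul_left (hk3.trans (hP k hk1 hk2)) _
    · refine Dvd.dvd.mul_right ?_ _
      have hm2 := hmf.two_le
      have : m < 17 := by omega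
      interval_cases m <;> first | decide | (exfalso; revert hmf; decide)
  have h4 : m ∣ supLprod l := (hm ▸ Nat.minFac_dvd q).trans hdvd
  have h5 : m ∣ 1 := h ▸ Nat.dvd_gcd h4 h3
  exact hmf.one_lt.ne' (Nat.dvd_one.1 h5)

end Pool.Agent.LR4
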