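import Mathlib
import Pool.Agent.LR4.Proth
import Pool.Agent.LR4.Wheel

/-!
Chains of primes with small gaps, in a compact encoding, for evaluation by the kernel.
-/

set_option autoImplicit false

namespace Pool.Agent.LR4.PT

/-- Every `y ∈ [a, b)` has a prime in `(y, y + y / s]`. -/
def Cov (s a b : ℕ) : Prop := ∀ y, a ≤ y → y < b → ∃ p, Nat.Prime p ∧ y < p ∧ p ≤ y + y / s

theorem Cov.trans {s a b c : ℕ} (h1 : Cov s a b) (h2 : Cov s b c) : Cov s a c := by
  intro y h3 h4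
  rcases Nat.lt_or_ge y b with h5 | h5
  · exact h1 y h3 h5
  · exact h2 y h5 h4

/-- `fo n f` is `f n`, with `n` evaluated first. -/
def fo {α : Type} (n : ℕ) (f : ℕ → α) : α := Nat.rec (f 0) (fun k _ => f (Nat.succ k)) n

theorem fo_eq {α : Type} (n : ℕ) (f : ℕ → α) : fo n f = f n := by
  cases n <;> rfl

/-! ### Chains checked by a `gcd` -/

/-- One block of the chain: `f` digits of `d` in base 256, product `Q`. -/
def runW (s P : ℕ) : ℕ → ℕ → ℕ → ℕ → (ℕ → Bool) → Bool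
  | 0, x, _, Q, k => Nat.beq (Nat.gcd Q P) 1 && k x
  | f + 1, x, d, Q, k =>
    fo (x + x / s - d % 256) fun p =>
      Nat.blt x p && fo (Q * p) fun Q' => fo (d / 256) fun d' => runW s P f p d' Q' k

/-- All blocks. -/
def runWL (s P : ℕ) : List ℕ → ℕ → (ℕ → Bool) → Bool
  | [], x, k => k x
  | d :: l, x, k => runW s P 64 x d 1 fun y => runWL s P l y k

theorem runW_spec (s P : ℕ) : ∀ (f x d Q : ℕ) (k : ℕ → Bool), runW s P f x d Q k = true →
    ∃ z R, x ≤ z ∧ k z = true ∧ Q ∣ R ∧ Nat.gcd R P = 1 ∧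
      ∀ y, x ≤ y → y < z → ∃ p, p ∣ R ∧ y < p ∧ p ≤ y + y / s ∧ p ≤ z := by
  intro f
  induction f with
  | zero =>
    intro x d Q k h
    rw [runW, Bool.and_eq_true, Nat.beq_eq] at h
    exact ⟨x, Q, le_rfl, h.2, dvd_rfl, h.1, fun y h1 h2 => absurd h1 (by omega)⟩
  | succ f ih =>
    intro x d Q k h
    rw [runW, fo_eq, Bool.and_eq_true, Nat.blt_eq, fo_eq, fo_eq] at h
    obtain ⟨h1, h2⟩ := h
    obtain ⟨z, R, h3, h4, h5, h6, h7⟩ := ih _ _ _ _ h2
    refine ⟨z, R, by omega, h4, (Dvd.intro _ rfl).trans h5, h6, ?_⟩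
    intro y h8 h9
    rcases Nat.lt_or_ge y (x + x / s - d % 256) with h10 | h10
    · refine ⟨_, (Dvd.intro_left _ rfl).trans h5, h10, ?_, h3⟩
      have : x / s ≤ y / s := Nat.div_le_div_right h8
      omega
    · exact h7 y h10 h9

theorem wh_one (B P R q : ℕ) (hP : ∀ k, 1 ≤ k → k ≤ B → whC (900 * (k * k)) ∣ P)
    (h : Nat.gcd R (30030 * P) = 1) (hq : q ∣ R) (h2 : 2 ≤ q) (hB : q < (30 * B + 14) ^ 2) :
    q.Prime := by
  refine wh_list [q] B q P hP ?_ ?_ hB q (by simp)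
  · have : supLprod [q] = q := by simp [supLprod]
    rw [this]
    exact Nat.Coprime.coprime_dvd_left hq h
  · simp [supBd, h2]

theorem runWL_spec (s P B : ℕ) (hP : ∀ k, 1 ≤ k → k ≤ B → whC (900 * (k * k)) ∣ P) (b : ℕ)
    (hb : b < (30 * B + 14) ^ 2) : ∀ (l : List ℕ) (x : ℕ), 2 ≤ x →
    runWL s (30030 * P) l x (fun z => Nat.beq z b) = true → x ≤ b ∧ Cov s x b := by
  intro l
  induction l with
  | nil =>
    intro x hx h
    rw [runWL, Nat.beq_eq] at h
    exact ⟨h.le, fun y h1 h2 => absurd h1 (by omega)⟩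
  | cons d l ih =>
    intro x hx h
    rw [runWL] at h
    obtain ⟨z, R, h1, h2, -, h4, h5⟩ := runW_spec _ _ _ _ _ _ _ h
    obtain ⟨h6, h7⟩ := ih z (by omega) h2
    refine ⟨by omega, Cov.trans (b := z) ?_ h7⟩
    intro y h8 h9
    obtain ⟨p, h10, h11, h12, h13⟩ := h5 y h8 h9
    exact ⟨p, wh_one B P R p hP h4 h10 (by omega) (by omega), h11, h12⟩

/-- The check of a part of the chain by one product of blocks. -/
def chW (s d a b : ℕ) (l : List ℕ) : Bool :=
  fo (30030 * whR 1 d) fun P => runWL s P l a fun z => Nat.beq z b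

theorem covW {s d a b : ℕ} {l : List ℕ} (ha : 2 ≤ a) (hb : b < (30 * 2 ^ d + 14) ^ 2)
    (h : chW s d a b l = true) : Cov s a b := by
  rw [chW, fo_eq] at h
  refine (runWL_spec s (whR 1 d) (2 ^ d) (fun k h1 h2 => ?_) b hb l a ha h).2
  rcases Nat.lt_or_ge k (2 ^ d) with h3 | h3
  · exact wh_dvd d 1 k h1 (by omega)
  · exact wh_dvd d 1 k h1 (by omega)

/-! ### Chains of Proth primes -/

/-- One block: `f` digits of `d` in base `65536`. -/
def runP (s m w : ℕ) : ℕ → ℕ → ℕ → (ℕ → Bool) → Bool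
  | 0, x, _, k => k x
  | f + 1, x, d, k =>
    fo ((x + x / s - 1) / 2 ^ m - d % 65536 / 64) fun c =>
      fo (c * 2 ^ m + 1) fun p =>
        Nat.blt x p && (Nat.blt c (2 ^ m) && (Nat.beq (pwd p (d % 64) w (p / 2) + 1) p &&
          fo (d / 65536) fun d' => runP s m w f p d' k))

/-- All blocks. -/
def runPL (s m w : ℕ) : List ℕ → ℕ → (ℕ → Bool) → Bool
  | [], x, k => k x
  | d :: l, x, k => runP s m w 64 x d fun y => runPL s m w l y k

theorem pwd_lt (p x f e : ℕ) (hp : 1 < p) : pwd p x f e < p := by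
  cases f with
  | zero => rw [pwd]; exact hp
  | succ f => rw [pwd]; exact Nat.mod_lt _ (by omega)

theorem runP_spec (s m w : ℕ) (hm : 0 < m) (hw : 2 ^ (2 * m - 1) ≤ 256 ^ w) :
    ∀ (f x d : ℕ) (k : ℕ → Bool), 1 ≤ x → runP s m w f x d k = true →
    ∃ z, x ≤ z ∧ k z = true ∧ Cov s x z := by
  intro f
  induction f with
  | zero =>
    intro x d k hx h
    rw [runP] at h
    exact ⟨x, le_rfl, h, fun y h1 h2 => absurd h1 (by omega)⟩
  | succ f ih =>
    intro x d k hx h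
    rw [runP, fo_eq, fo_eq, fo_eq, Bool.and_eq_true, Bool.and_eq_true, Bool.and_eq_true,
      Nat.blt_eq, Nat.blt_eq, Nat.beq_eq] at h
    obtain ⟨h1, h2, h3, h4⟩ := h
    obtain ⟨c, hc⟩ : ∃ c, c = (x + x / s - 1) / 2 ^ m - d % 65536 / 64 := ⟨_, rfl⟩
    rw [← hc] at h1 h2 h3 h4
    obtain ⟨p, hp⟩ : ∃ p, p = c * 2 ^ m + 1 := ⟨_, rfl⟩
    rw [← hp] at h1 h3 h4
    have hc0 : 0 < c := by
      rcases Nat.eq_zero_or_pos c with h5 | h5
      · rw [h5] at hp; omega
      · exact h5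
    have hp2 : p / 2 = c * 2 ^ (m - 1) := by
      obtain ⟨m', rfl⟩ : ∃ m', m = m' + 1 := ⟨m - 1, by omega⟩
      rw [hp, pow_succ, Nat.add_sub_cancel, ← mul_assoc]
      omega
    have hprime : p.Prime := by
      refine proth (a := d % 64) hp hc0 hm h2 ?_
      rw [← hp2]
      have h6 : p / 2 < 256 ^ w := by
        refine lt_of_lt_of_le ?_ hw
        rw [hp2]
        calc c * 2 ^ (m - 1) < 2 ^ m * 2 ^ (m - 1) := Nat.mul_lt_mul_of_pos_right h2 (by positivity)
          _ = 2 ^ (2 * m - 1) := by rw [← pow_add]; congr 1; omega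
      have h7 := pwd_mod p (d % 64) w (p / 2) h6
      rw [Nat.mod_eq_of_lt (pwd_lt _ _ _ _ (by omega))] at h7
      rw [← h7]
      exact h3
    have hle : p ≤ x + x / s := by
      have h8 : c ≤ (x + x / s - 1) / 2 ^ m := by omega
      have h9 : c * 2 ^ m ≤ x + x / s - 1 :=
        (Nat.mul_le_mul_right _ h8).trans (Nat.div_mul_le_self _ _)
      omega
    obtain ⟨z, h10, h11, h12⟩ := ih _ _ _ (by omega) h4
    refine ⟨z, by omega, h11, Cov.trans (b := p) ?_ h12⟩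
    intro y h13 h14
    refine ⟨p, hprime, h14, ?_⟩
    have : x / s ≤ y / s := Nat.div_le_div_right h13
    omega

theorem runPL_spec (s m w : ℕ) (hm : 0 < m) (hw : 2 ^ (2 * m - 1) ≤ 256 ^ w) (b : ℕ) :
    ∀ (l : List ℕ) (x : ℕ), 1 ≤ x →
    runPL s m w l x (fun z => Nat.beq z b) = true → x ≤ b ∧ Cov s x b := by
  intro l
  induction l with
  | nil =>
    intro x hx h
    rw [runPL, Nat.beq_eq] at h
    exact ⟨h.le, fun y h1 h2 => absurd h1 (by omega)⟩
  | cons d l ih =>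
    intro x hx h
    rw [runPL] at h
    obtain ⟨z, h1, h2, h4⟩ := runP_spec s m w hm hw _ _ _ _ hx h
    obtain ⟨h6, h7⟩ := ih z (by omega) h2
    exact ⟨by omega, Cov.trans (b := z) h4 h7⟩

theorem covP {s m w a b : ℕ} {l : List ℕ} (ha : 1 ≤ a) (hm : 0 < m)
    (hw : 2 ^ (2 * m - 1) ≤ 256 ^ w)
    (h : runPL s m w l a (fun z => Nat.beq z b) = true) : Cov s a b :=
  (runPL_spec s m w hm hw b l a ha h).2

end Pool.Agent.LR4.PT
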