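import Mathlib
import Pool.Agent.LR4.Chk
import Pool.Agent.LR4.ChkR

/-!
Lonely runner with speeds at most `2 n`: the format of the certificate files of the finite part.
-/

namespace Pool.Agent.LR4

/-- A certificate for one `n`: `(n, K, w, fuel, stream)`. -/
def chkC (e : ℕ × ℕ × ℕ × ℕ × ℕ) : Bool := chk e.1 e.2.1 e.2.2.1 e.2.2.2.1 e.2.2.2.2

/-- A certificate for a range `m ≤ n ≤ n'` at the prime `M`: `(M, m, n', c, w, fuel, stream)`. -/
def chkD (e : ℕ × ℕ × ℕ × ℕ × ℕ × ℕ × ℕ) : Bool :=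
  R.chk e.1 e.2.1 e.2.2.1 e.2.2.2.1 e.2.2.2.2.1 e.2.2.2.2.2.1 e.2.2.2.2.2.2

end Pool.Agent.LR4
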