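import Pool.Agent.LR4.R1Defs
import Pool.Agent.LR4.ChkSound
import Pool.Agent.LR4.ChkRSound
import Pool.Agent.LR4.Fct
import Pool.Agent.LR4.Acct
import Pool.Agent.LR4.Prime1

/-!
Lonely runner with speeds at most `2 n`: the finite part, coverage of the `n` by certificates.
-/

namespace Pool.Agent.LR4

open Finset

/-! ### Primes by trial division -/

/-- No divisor among `i, …, i + d - 1` up to the square root of `p`. -/
def ndv (p d : ℕ) : ℕ → Bool :=
  Nat.rec (motive := fun _ => ℕ → Bool) (fun _ => true)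
    (fun _ ih i => ro (Nat.ble (Nat.succ p) (i * i))
      (an (Nat.ble 1 (p % i)) (force (Nat.succ i) ih))) d

/-- `p` is a prime below `(d + 2) ^ 2`. -/
def prB (p d : ℕ) : Bool :=
  an (Nat.ble 2 p) (an (Nat.ble (Nat.succ p) ((d + 2) * (d + 2))) (ndv p d 2))

theorem ndv_spec {p d : ℕ} : ∀ i, ndv p d i = true → ∀ j, i ≤ j → j < i + d → j * j ≤ p →
    p % j ≠ 0 := by
  induction d with
  | zero => intro i _ j h1 h2; omega
  | succ d ih =>
    intro i h j h1 h2 hjj
    have h' : ro (Nat.ble (Nat.succ p) (i * i))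
        (an (Nat.ble 1 (p % i)) (force (Nat.succ i) (ndv p d))) = true := h
    rw [force_eq] at h'
    rcases ro_or h' with h8 | h'
    · have h9 : p < i * i := Nat.le_of_ble_eq_true h8
      have h10 : i * i ≤ j * j := Nat.mul_le_mul h1 h1
      omega
    obtain ⟨h3, h4⟩ := an_and h'
    have h5 : 1 ≤ p % i := Nat.le_of_ble_eq_true h3
    rcases h1.eq_or_lt with h6 | h6
    · subst h6
      omega
    · exact ih (i + 1) h4 j h6 (by omega) hjj

theorem prB_prime {p d : ℕ} (h : prB p d = true) : p.Prime := by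
  unfold prB at h
  obtain ⟨h1, h⟩ := an_and h
  obtain ⟨h2, h3⟩ := an_and h
  have h1' : 2 ≤ p := Nat.le_of_ble_eq_true h1
  have h2' : p < (d + 2) * (d + 2) := Nat.le_of_ble_eq_true h2
  rw [Nat.prime_def_le_sqrt]
  refine ⟨h1', fun m hm1 hm2 hdvd => ?_⟩
  have h6 : m * m ≤ p := Nat.le_sqrt.1 hm2
  have h4 : m < d + 2 := by
    by_contra hcon
    push Not at hcon
    have h5 : (d + 2) * (d + 2) ≤ m * m := Nat.mul_le_mul hcon hcon
    omega
  exact ndv_spec 2 h3 m hm1 (by omega) h6 (Nat.mod_eq_zero_of_dvd hdvd)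

/-! ### Certificates for one `n` -/

/-- The numerical conditions of a certificate for one `n`. -/
def condC (e : ℕ × ℕ × ℕ × ℕ × ℕ) : Bool :=
  an (Nat.ble 5 e.2.1) (an (Nat.beq (e.2.1 % 2) 1) (an (Nat.ble e.2.1 e.1)
    (an (Nat.ble (3 * ((2 * e.1 + e.2.1) * (e.2.1 - 2)))
      ((2 * e.1 + 3 * e.2.1) * (e.1 + 3 - e.2.1))) (prB (2 * e.1 + e.2.1) 80))))

theorem no_of_C {e : ℕ × ℕ × ℕ × ℕ × ℕ} (h1 : chkC e = true) (h2 : condC e = true)
    {V : Finset ℕ} (h : Cex e.1 V) : False := by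
  obtain ⟨n, K, w, fuel, s⟩ := e
  unfold condC at h2
  dsimp only at h h2
  obtain ⟨g1, h2⟩ := an_and h2
  obtain ⟨g2, h2⟩ := an_and h2
  obtain ⟨g3, h2⟩ := an_and h2
  obtain ⟨g4, g5⟩ := an_and h2
  have k1 : 5 ≤ K := Nat.le_of_ble_eq_true g1
  have k2 : K % 2 = 1 := Nat.eq_of_beq_eq_true g2
  have k3 : K ≤ n := Nat.le_of_ble_eq_true g3
  have k4 : 3 * ((2 * n + K) * (K - 2)) ≤ (2 * n + 3 * K) * (n + 3 - K) :=
    Nat.le_of_ble_eq_true g4
  have k5 : (2 * n + K).Prime := prB_prime g5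
  exact chk_sound h.fct k1 k2 k3
    (acc' h.mem h.card h.no k5 rfl (by omega) k3 k4) h1

/-- The `n` with `a ≤ n < a + f` are covered: `2 n + 1` or `2 n + 3` is prime, or `n` is the next
one in the list. -/
def walkC (f : ℕ) : ℕ → List (ℕ × ℕ × ℕ × ℕ × ℕ) → Bool :=
  Nat.rec (motive := fun _ => ℕ → List (ℕ × ℕ × ℕ × ℕ × ℕ) → Bool) (fun _ _ => true)
    (fun _ ih a L => force (Nat.succ a) fun a' =>
      Bool.rec (List.rec (motive := fun _ => Bool) false
          (fun e L' _ => an (Nat.beq e.1 a) (an (condC e) (ih a' L'))) L)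
        (ih a' L) (ro (prB (2 * a + 1) 80) (prB (2 * a + 3) 80))) f

theorem walkC_spec {f : ℕ} : ∀ (a : ℕ) (L : List (ℕ × ℕ × ℕ × ℕ × ℕ)), walkC f a L = true →
    ∀ n, a ≤ n → n < a + f → (2 * n + 1).Prime ∨ (2 * n + 3).Prime ∨
      ∃ e ∈ L, e.1 = n ∧ condC e = true := by
  induction f with
  | zero => intro a L _ n h1 h2; omega
  | succ f ih =>
    intro a L h n h1 h2
    have h' : force (Nat.succ a) (fun a' => Bool.rec (List.rec (motive := fun _ => Bool) false
          (fun e L' _ => an (Nat.beq e.1 a) (an (condC e) (walkC f a' L'))) L)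
        (walkC f a' L) (ro (prB (2 * a + 1) 80) (prB (2 * a + 3) 80))) = true := h
    rw [force_eq] at h'
    cases hpr : ro (prB (2 * a + 1) 80) (prB (2 * a + 3) 80) with
    | true =>
      rw [hpr] at h'
      rcases h1.eq_or_lt with h3 | h3
      · subst h3
        rcases ro_or hpr with h4 | h4
        · exact Or.inl (prB_prime h4)
        · exact Or.inr (Or.inl (prB_prime h4))
      · exact ih (a + 1) L h' n h3 (by omega)
    | false =>
      rw [hpr] at h'
      rcases L with _ | ⟨e, L'⟩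
      · exact absurd h' (by simp)
      have h'' : an (Nat.beq e.1 a) (an (condC e) (walkC f (a + 1) L')) = true := h'
      obtain ⟨h3, h4⟩ := an_and h''
      obtain ⟨h5, h6⟩ := an_and h4
      rcases h1.eq_or_lt with h7 | h7
      · subst h7
        exact Or.inr (Or.inr ⟨e, List.mem_cons_self, Nat.eq_of_beq_eq_true h3, h5⟩)
      · rcases ih (a + 1) L' h6 n h7 (by omega) with h8 | h8 | ⟨e', he', h8⟩
        · exact Or.inl h8
        · exact Or.inr (Or.inl h8)
        · exact Or.inr (Or.inr ⟨e', List.mem_cons_of_mem _ he', h8⟩)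

/-- No counterexample for the `n` which are covered. -/
theorem small_of {f a : ℕ} {L : List (ℕ × ℕ × ℕ × ℕ × ℕ)} (hL : L.all chkC = true)
    (hw : walkC f a L = true) (ha : 4 ≤ a) {n : ℕ} {V : Finset ℕ} (h : Cex n V) (h1 : a ≤ n)
    (h2 : n < a + f) : False := by
  rcases walkC_spec a L hw n h1 h2 with h3 | h3 | ⟨e, he, h3, h4⟩
  · exact no_of_prime1 h h3
  · exact no_of_prime3 h h3 (by omega)
  · rw [List.all_eq_true] at hL
    subst h3
    exact no_of_C (hL e he) h4 h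

/-- No counterexample with `n < 4`. -/
theorem small_lt4 {n : ℕ} {V : Finset ℕ} (h : Cex n V) (hn : n < 4) : False := by
  have h2 := h.two
  have h3 : n = 2 ∨ n = 3 := by omega
  rcases h3 with rfl | rfl
  · exact no_of_prime1 h (by norm_num)
  · exact no_of_prime1 h (by norm_num)

/-! ### Certificates for ranges -/

/-- The numerical conditions of a certificate for a range. -/
def condD (e : ℕ × ℕ × ℕ × ℕ × ℕ × ℕ × ℕ) : Bool :=
  an (Nat.ble (2 * e.2.2.1 + 5) e.1) (an (Nat.beq (e.1 % 2) 1) (an (Nat.ble (5 * e.1) (11 * e.2.1))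
    (an (Nat.ble e.1 (2 * e.2.1 + 2 * e.2.2.2.1 + 4)) (prB e.1 400))))

theorem no_of_D {e : ℕ × ℕ × ℕ × ℕ × ℕ × ℕ × ℕ} (h1 : chkD e = true) (h2 : condD e = true)
    {n : ℕ} (h3 : e.2.1 ≤ n) (h4 : n ≤ e.2.2.1) {V : Finset ℕ} (h : Cex n V) : False := by
  obtain ⟨M, m, n', c, w, fuel, s⟩ := e
  unfold condD at h2
  dsimp only at h2 h3 h4
  obtain ⟨g1, h2⟩ := an_and h2
  obtain ⟨g2, h2⟩ := an_and h2
  obtain ⟨g3, h2⟩ := an_and h2
  obtain ⟨g4, g5⟩ := an_and h2
  have k1 : 2 * n' + 5 ≤ M := Nat.le_of_ble_eq_true g1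
  have k2 : M % 2 = 1 := Nat.eq_of_beq_eq_true g2
  have k3 : 5 * M ≤ 11 * m := Nat.le_of_ble_eq_true g3
  have k4 : M ≤ 2 * m + 2 * c + 4 := Nat.le_of_ble_eq_true g4
  have k5 : M.Prime := prB_prime g5
  obtain ⟨K, hK⟩ : ∃ K, M = 2 * n + K := ⟨M - 2 * n, by omega⟩
  have k6 : (2 * n + K).Prime := hK ▸ k5
  have k7 : (K - 3) / 2 ≤ c := by omega
  exact R.chk_sound h.fct h3 h4 hK (by omega) (by omega) (by omega) k7
    (acc h.mem h.card h.no k6 rfl (by omega) (by omega)) h1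

/-- The next `n` which is not yet covered. -/
def nxtD (a : ℕ) (e : ℕ × ℕ × ℕ × ℕ × ℕ × ℕ × ℕ) : ℕ :=
  Bool.rec a (Nat.succ e.2.2.1) (an (Nat.ble e.2.1 a) (an (Nat.ble a e.2.2.1) (condD e)))

/-- Walk through the list of certificates starting at `a`, up to `b`. -/
def walkD (L : List (ℕ × ℕ × ℕ × ℕ × ℕ × ℕ × ℕ)) (b : ℕ) : ℕ → Bool :=
  List.rec (motive := fun _ => ℕ → Bool) (fun a => Nat.ble (Nat.succ b) a)
    (fun e _ ih a => ro (Nat.ble (Nat.succ b) a) (force (nxtD a e) ih)) L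

theorem walkD_spec {b : ℕ} (L : List (ℕ × ℕ × ℕ × ℕ × ℕ × ℕ × ℕ)) : ∀ a, walkD L b a = true →
    ∀ n, a ≤ n → n ≤ b → ∃ e ∈ L, e.2.1 ≤ n ∧ n ≤ e.2.2.1 ∧ condD e = true := by
  induction L with
  | nil =>
    intro a h n h1 h2
    have h3 : b < a := Nat.le_of_ble_eq_true h
    omega
  | cons e L ih =>
    intro a h n h1 h2
    have h' : ro (Nat.ble (Nat.succ b) a) (force (nxtD a e) (walkD L b)) = true := h
    rw [force_eq] at h'
    rcases ro_or h' with h3 | h3
    · have h4 : b < a := Nat.le_of_ble_eq_true h3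
      omega
    cases hc : an (Nat.ble e.2.1 a) (an (Nat.ble a e.2.2.1) (condD e)) with
    | false =>
      have h4 : nxtD a e = a := by
        unfold nxtD
        rw [hc]
      rw [h4] at h3
      obtain ⟨e', he', h5⟩ := ih a h3 n h1 h2
      exact ⟨e', List.mem_cons_of_mem _ he', h5⟩
    | true =>
      have h4 : nxtD a e = e.2.2.1 + 1 := by
        unfold nxtD
        rw [hc]
      rw [h4] at h3
      obtain ⟨h5, h6⟩ := an_and hc
      obtain ⟨h7, h8⟩ := an_and h6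
      have h5' : e.2.1 ≤ a := Nat.le_of_ble_eq_true h5
      have h7' : a ≤ e.2.2.1 := Nat.le_of_ble_eq_true h7
      by_cases h9 : n ≤ e.2.2.1
      · exact ⟨e, List.mem_cons_self, by omega, h9, h8⟩
      · obtain ⟨e', he', h5⟩ := ih _ h3 n (by omega) h2
        exact ⟨e', List.mem_cons_of_mem _ he', h5⟩

/-- All the ranges in `X` are covered by the certificates in `L`. -/
def covD (L : List (ℕ × ℕ × ℕ × ℕ × ℕ × ℕ × ℕ)) (X : List (ℕ × ℕ × ℕ)) : Bool :=
  X.all (fun x => walkD L x.2.2 x.2.1)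

/-- No counterexample in a range which is covered. -/
theorem big_of {L : List (ℕ × ℕ × ℕ × ℕ × ℕ × ℕ × ℕ)} {X : List (ℕ × ℕ × ℕ)}
    (hL : L.all chkD = true) (hX : covD L X = true) {M m n' : ℕ} (hx : (M, m, n') ∈ X) {n : ℕ}
    {V : Finset ℕ} (h : Cex n V) (h1 : m ≤ n) (h2 : n ≤ n') : False := by
  unfold covD at hX
  rw [List.all_eq_true] at hX hL
  obtain ⟨e, he, h3, h4, h5⟩ := walkD_spec L m (hX _ hx) n h1 h2
  exact no_of_D (hL e he) h5 h3 h4 h

end Pool.Agent.LR4
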