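import Pool.Agent.LR4.R1a
import Pool.Agent.LR4.R1List
import Pool.Agent.LR4.R1.D001
import Pool.Agent.LR4.R1.D002
import Pool.Agent.LR4.R1.D003
import Pool.Agent.LR4.R1.D004
import Pool.Agent.LR4.R1.D005
import Pool.Agent.LR4.R1.D006
import Pool.Agent.LR4.R1.D007
import Pool.Agent.LR4.R1.D008
import Pool.Agent.LR4.R1.D009
import Pool.Agent.LR4.R1.D010
import Pool.Agent.LR4.R1.D011
import Pool.Agent.LR4.R1.D012
import Pool.Agent.LR4.R1.D013
import Pool.Agent.LR4.R1.D014
import Pool.Agent.LR4.R1.D015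
import Pool.Agent.LR4.R1.D016
import Pool.Agent.LR4.R1.D017
import Pool.Agent.LR4.R1.D018
import Pool.Agent.LR4.R1.D019
import Pool.Agent.LR4.R1.D020
import Pool.Agent.LR4.R1.D021
import Pool.Agent.LR4.R1.D022
import Pool.Agent.LR4.R1.D023
import Pool.Agent.LR4.R1.D024
import Pool.Agent.LR4.R1.D025

/-!
Lonely runner with speeds at most `2 n`: the exceptional ranges above `2600`.
-/

namespace Pool.Agent.LR4

/-- All certificates for ranges. -/
def DL : List (ℕ × ℕ × ℕ × ℕ × ℕ × ℕ × ℕ) :=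
  D001 ++ D002 ++ D003 ++ D004 ++ D005 ++ D006 ++ D007 ++ D008 ++ D009 ++ D010 ++ D011 ++
  D012 ++ D013 ++ D014 ++ D015 ++ D016 ++ D017 ++ D018 ++ D019 ++ D020 ++ D021 ++ D022 ++
  D023 ++ D024 ++ D025

theorem DL_ok : DL.all chkD = true :=
  all_app (all_app (all_app (all_app (all_app (all_app (all_app (all_app (all_app (all_app
    (all_app (all_app (all_app (all_app (all_app (all_app (all_app (all_app (all_app (all_app
    (all_app (all_app (all_app (all_app D001_ok D002_ok) D003_ok) D004_ok) D005_ok) D006_ok)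
    D007_ok) D008_ok) D009_ok) D010_ok) D011_ok) D012_ok) D013_ok) D014_ok) D015_ok) D016_ok)
    D017_ok) D018_ok) D019_ok) D020_ok) D021_ok) D022_ok) D023_ok) D024_ok) D025_ok

theorem DL_w : covD DL EX = true := by decide +kernel

/-- No counterexample in an exceptional range. -/
theorem r1big (n : ℕ) (V : Finset ℕ) (h : Cex n V) (e : ℕ × ℕ × ℕ) (he : e ∈ EX)
    (h1 : e.2.1 ≤ n) (h2 : n ≤ e.2.2) : False := by
  obtain ⟨M, m, n'⟩ := e
  exact big_of DL_ok DL_w he h h1 h2

end Pool.Agent.LR4
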