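import Mathlib
import Pool.Agent.LR4.Supply9

/-!
# LR4 / Supply9b: tolerance `10^-9` from `3 * 10^30` on, given primes in short intervals

If every interval `(x, x + x / 1000]` with `10^9 ≤ x ≤ 10^20` contains a prime, then for every
`N ≥ 3 * 10^30` there is an odd `M` in `(2N, 2N + 2N/10^9]` all of whose prime factors are at
least `10^9`; at most `4 M / 10^9` numbers below `M` are not coprime to `M`. For `N ≤ 10^41` the
number is `M = p * s * w`, `p` from the hypothesis, `s` and `w` from the tables of `Supply9`.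
-/

set_option autoImplicit false

namespace Pool.Agent.LR4

/-- numbers below `p s w` not coprime to `p s w` -/
theorem sup9b_noncop (T p s w : ℕ) (hp : p.Prime) (hs : s.Prime) (hw : w.Prime)
    (hp6 : T ≤ p) (hs6 : T ≤ s) (hw6 : T ≤ w) :
    T * ((Finset.range (p * s * w)).filter
      (fun x => ¬ Nat.Coprime x (p * s * w))).card ≤ 4 * (p * s * w) := by
  have hsub : ((Finset.range (p * s * w)).filter
      (fun x => ¬ Nat.Coprime x (p * s * w))) ⊆
      (((Finset.range (p * (s * w))).filter (fun x => p ∣ x)) ∪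
      ((Finset.range (s * (p * w))).filter (fun x => s ∣ x))) ∪
      ((Finset.range (w * (p * s))).filter (fun x => w ∣ x)) := by
    intro x hx
    rw [Finset.mem_filter, Finset.mem_range] at hx
    obtain ⟨h1, h2⟩ := hx
    rw [Finset.mem_union, Finset.mem_union, Finset.mem_filter,
      Finset.mem_filter, Finset.mem_filter, Finset.mem_range,
      Finset.mem_range, Finset.mem_range]
    have e1 : p * (s * w) = p * s * w := by ring
    have e2 : s * (p * w) = p * s * w := by ring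
    have e3 : w * (p * s) = p * s * w := by ring
    rw [e1, e2, e3]
    by_cases a1 : p ∣ x
    · exact Or.inl (Or.inl ⟨h1, a1⟩)
    by_cases a2 : s ∣ x
    · exact Or.inl (Or.inr ⟨h1, a2⟩)
    by_cases a3 : w ∣ x
    · exact Or.inr ⟨h1, a3⟩
    exfalso
    apply h2
    have c1 : Nat.Coprime x p := ((Nat.Prime.coprime_iff_not_dvd hp).2 a1).symm
    have c2 : Nat.Coprime x s := ((Nat.Prime.coprime_iff_not_dvd hs).2 a2).symm
    have c3 : Nat.Coprime x w := ((Nat.Prime.coprime_iff_not_dvd hw).2 a3).symm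
    exact (c1.mul_right c2).mul_right c3
  have hc := Finset.card_le_card hsub
  have h1 := sup_mult p (s * w) hp.pos
  have h2 := sup_mult s (p * w) hs.pos
  have h3 := sup_mult w (p * s) hw.pos
  have hun := Finset.card_union_le
      (((Finset.range (p * (s * w))).filter (fun x => p ∣ x)) ∪
      ((Finset.range (s * (p * w))).filter (fun x => s ∣ x)))
      ((Finset.range (w * (p * s))).filter (fun x => w ∣ x))
  have hun2 := Finset.card_union_le ((Finset.range (p * (s * w))).filter (fun x => p ∣ x))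
      ((Finset.range (s * (p * w))).filter (fun x => s ∣ x))
  have hall : ((Finset.range (p * s * w)).filter
      (fun x => ¬ Nat.Coprime x (p * s * w))).card ≤ (s * w + p * w) + p * s := by omega
  have g1 : T * (s * w) ≤ p * s * w := by
    calc T * (s * w) ≤ p * (s * w) := Nat.mul_le_mul_right _ hp6
      _ = p * s * w := by ring
  have g2 : T * (p * w) ≤ p * s * w := by
    calc T * (p * w) ≤ s * (p * w) := Nat.mul_le_mul_right _ hs6
      _ = p * s * w := by ring
  have g3 : T * (p * s) ≤ p * s * w := by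
    calc T * (p * s) ≤ w * (p * s) := Nat.mul_le_mul_right _ hw6
      _ = p * s * w := by ring
  calc T * ((Finset.range (p * s * w)).filter
      (fun x => ¬ Nat.Coprime x (p * s * w))).card
      ≤ T * ((s * w + p * w) + p * s) := Nat.mul_le_mul_left _ hall
    _ = T * (s * w) + T * (p * w) + T * (p * s) := by ring
    _ ≤ p * s * w + p * s * w + p * s * w := by gcongr
    _ ≤ 4 * (p * s * w) := by omega

/-- the hypothesis on primes in short intervals, `10^9 ≤ x ≤ 10^20`, ratio `1 + 1/1000` -/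
def Sup9Tab : Prop :=
  ∀ x : ℕ, 10 ^ 9 ≤ x → x ≤ 10 ^ 20 → ∃ p : ℕ, p.Prime ∧ x < p ∧ 1000 * (p - x) ≤ x

theorem supply9b (hT : Sup9Tab) (N : ℕ) (hN : 3 * 10 ^ 30 ≤ N) (hN' : N ≤ 10 ^ 41) :
    ∃ M, 2 * N < M ∧ 10 ^ 9 * (M - 2 * N) ≤ 2 * N ∧
    Odd M ∧ (∀ p, p.Prime → p ∣ M → 10 ^ 9 ≤ p) ∧
    10 ^ 9 * ((Finset.range M).filter (fun x => ¬ Nat.Coprime x M)).card ≤ 4 * M := by
  obtain ⟨D, hD⟩ : ∃ D : ℕ, D = 10000000019 * 250000000007 := ⟨_, rfl⟩
  have hDval : D = 2500000004820000000133 := by rw [hD]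
  have hDpos : 0 < D := by rw [hDval]; norm_num
  obtain ⟨Y, hY⟩ : ∃ Y, Y = 2 * N / D := ⟨_, rfl⟩
  have hY1 : Y * D ≤ 2 * N := by rw [hY]; exact Nat.div_mul_le_self _ _
  have hY2 : 2 * N < (Y + 1) * D := by
    rw [hY]
    have := Nat.div_add_mod (2 * N) D
    have h2 := Nat.mod_lt (2 * N) hDpos
    calc 2 * N = D * (2 * N / D) + 2 * N % D := this.symm
      _ < D * (2 * N / D) + D := Nat.add_lt_add_left h2 _
      _ = (2 * N / D + 1) * D := by ring
  have hYlo : 2 * 10 ^ 9 ≤ Y := by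
    by_contra h
    have h1 : (Y + 1) * D ≤ (2 * 10 ^ 9) * D := Nat.mul_le_mul_right _ (by omega)
    rw [hDval] at h1 hY2
    have h2 : (2 * 10 ^ 9) * 2500000004820000000133 ≤ 2 * (3 * 10 ^ 30) := by norm_num
    omega
  have hYhi : Y ≤ 10 ^ 20 := by
    by_contra h
    have h1 : (10 ^ 20) * D ≤ Y * D := Nat.mul_le_mul_right _ (by omega)
    rw [hDval] at h1 hY1
    omega
  obtain ⟨x, hx⟩ : ∃ x, x = 1000 * Y / 1001 := ⟨_, rfl⟩
  have hx1 : 1001 * x ≤ 1000 * Y := by omega
  have hx2 : 1000 * Y < 1001 * (x + 1) := by omega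
  have hxY : x ≤ Y := by omega
  have hxlo : 10 ^ 9 ≤ x := by omega
  obtain ⟨p, hp, hxp, hpx⟩ := hT x hxlo (hxY.trans hYhi)
  clear hYhi
  have hpY : p ≤ Y := by omega
  have hp2 : 1000 * Y + 1 ≤ 1001 * p := by omega
  -- first fine step
  have hf1 : (p * 250000000007) * 10000000019 ≤ 2 * N := by
    calc (p * 250000000007) * 10000000019 = p * D := by rw [hD]; ring
      _ ≤ Y * D := Nat.mul_le_mul_right _ hpY
      _ ≤ 2 * N := hY1
  have hf2 : 2 * N < (p * 250000000007) * 10010004629 := by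
    have h1 : (Y + 1) * 10000000019 ≤ p * 10010004629 := by
      have e1 : (2000000000 : ℕ) ≤ Y := by norm_num at hYlo; exact hYlo
      linarith
    calc 2 * N < (Y + 1) * D := hY2
      _ = ((Y + 1) * 10000000019) * 250000000007 := by rw [hD]; ring
      _ ≤ (p * 10010004629) * 250000000007 := Nat.mul_le_mul_right _ h1
      _ = (p * 250000000007) * 10010004629 := by ring
  obtain ⟨s, t, hs, ht, hst, hsr, hs1, ht1⟩ := sup_find 1000000 (p * 250000000007) (2 * N) _
    10000000019 sup9B_chk hf1 (by rw [sup9B_last]; exact hf2)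
  rw [← sup9B_eq] at hs ht
  have hsp : s.Prime := sup9B_prime s hs
  -- second fine step
  have hg1 : (p * s) * 250000000007 ≤ 2 * N := by
    calc (p * s) * 250000000007 = (p * 250000000007) * s := by ring
      _ ≤ 2 * N := hs1
  have hg2 : 2 * N < (p * s) * 250000250131 := by
    have h := sup_step (2 * N) p s t 250000000007 250000250131 1000000 1000001 ht1
      (sup9_ratio 1000000 s t hst hsr) (by norm_num) (by norm_num)
    exact h
  obtain ⟨a, w, ha, hw, haw, har, ha1, hw1⟩ := sup_find 1000000000 (p * s) (2 * N) _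
    250000000007 sup9C_chk hg1 (by rw [sup9C_last]; exact hg2)
  rw [← sup9C_eq] at ha hw
  have hwp : w.Prime := sup9C_prime w hw
  have hp9 : 10 ^ 9 ≤ p := by omega
  have hs9 : 10 ^ 9 ≤ s := le_trans (by norm_num) (sup9B_min s hs)
  have hw9 : 10 ^ 9 ≤ w := le_trans (by norm_num) (sup9C_min w hw)
  have hodd : ∀ q : ℕ, q.Prime → 10 ^ 9 ≤ q → Odd q := by
    intro q hq h
    refine hq.odd_of_ne_two ?_
    rintro rfl
    norm_num at h
  refine ⟨p * s * w, hw1, ?_, ?_, ?_, ?_⟩
  · have h1 : p * s * w - 2 * N ≤ (p * s) * (w - a) := by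
      rw [Nat.mul_sub]
      exact Nat.sub_le_sub_left ha1 _
    calc 10 ^ 9 * (p * s * w - 2 * N) ≤ 10 ^ 9 * ((p * s) * (w - a)) :=
          Nat.mul_le_mul_left _ h1
      _ = (p * s) * ((w - a) * 1000000000) := by ring
      _ ≤ (p * s) * a := Nat.mul_le_mul_left _ har
      _ ≤ 2 * N := ha1
  · exact ((hodd p hp hp9).mul (hodd s hsp hs9)).mul (hodd w hwp hw9)
  · intro r hr hrd
    rcases (Nat.Prime.dvd_mul hr).1 hrd with h | h
    · rcases (Nat.Prime.dvd_mul hr).1 h with h | h
      · rw [(Nat.prime_dvd_prime_iff_eq hr hp).1 h]; exact hp9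
      · rw [(Nat.prime_dvd_prime_iff_eq hr hsp).1 h]; exact hs9
    · rw [(Nat.prime_dvd_prime_iff_eq hr hwp).1 h]; exact hw9
  · exact sup9b_noncop (10 ^ 9) p s w hp hsp hwp hp9 hs9 hw9

/-- tolerance `10^-9` for all `N ≥ 3 * 10^30`, given the table of primes -/
theorem supply9c (hT : Sup9Tab) (N : ℕ) (hN : 3 * 10 ^ 30 ≤ N) :
    ∃ M, 2 * N < M ∧ 10 ^ 9 * (M - 2 * N) ≤ 2 * N ∧
    Odd M ∧ (∀ p, p.Prime → p ∣ M → 10 ^ 9 ≤ p) ∧
    10 ^ 9 * ((Finset.range M).filter (fun x => ¬ Nat.Coprime x M)).card ≤ 4 * M := by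
  by_cases h : N ≤ 10 ^ 41
  · exact supply9b hT N hN h
  · exact supply9 N (by
      have h1 : (10 : ℕ) ^ 40 ≤ 10 ^ 41 := Nat.pow_le_pow_right (by norm_num) (by norm_num)
      omega)

end Pool.Agent.LR4
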