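import Mathlib
import Pool.Agent.LR2.Defs

/-!
# LR4 / SupplyLog: odd numbers just above `2N` without small prime factors, tolerance `~ 1/log N`

For `k = Nat.log 2 N ≥ 64` and `y = k / 8` there is an odd `M` in `(2N, 2N + N/y]` whose prime
factors are all larger than `y` and with `∑_{p ∣ M} 1/p ≤ 2/y`. `M` is `1` modulo the primorial
of `y`; average over the progression.
-/

set_option autoImplicit false

namespace Pool.Agent.LR4

open Finset Pool.Agent.LR2

theorem slog_sq (q : ℕ) (hq : 0 < q) (N : ℕ) :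
    ∑ k ∈ Ioc q (q + N), (1 : ℝ) / ((k : ℝ) * k) ≤ 1 / q - 1 / (q + N : ℕ) := by
  induction N with
  | zero => simp
  | succ N ih =>
    have hq' : (0 : ℝ) < q := by exact_mod_cast hq
    rw [← Nat.add_assoc, Finset.sum_Ioc_succ_top (by omega)]
    have h1 : (1 : ℝ) / (((q + N + 1 : ℕ) : ℝ) * ((q + N + 1 : ℕ) : ℝ)) ≤
        1 / ((q + N : ℕ) : ℝ) - 1 / ((q + N + 1 : ℕ) : ℝ) := by
      push_cast
      have h2 : (0 : ℝ) < (q : ℝ) + N := by positivity
      rw [div_sub_div _ _ (by positivity) (by positivity), div_le_div_iff₀ (by positivity)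
        (by positivity)]
      nlinarith
    linarith

theorem slog_primes_sq (q : ℕ) (hq : 0 < q) (A : Finset ℕ) (hA : ∀ p ∈ A, q < p) :
    ∑ p ∈ A, (1 : ℝ) / ((p : ℝ) * p) ≤ 1 / q := by
  have hsub : A ⊆ Ioc q (q + A.sup id) := by
    intro p hp
    rw [mem_Ioc]
    have : p ≤ A.sup id := Finset.le_sup (f := id) hp
    exact ⟨hA p hp, by omega⟩
  calc ∑ p ∈ A, (1 : ℝ) / ((p : ℝ) * p) ≤ ∑ p ∈ Ioc q (q + A.sup id), (1 : ℝ) / ((p : ℝ) * p) :=
        Finset.sum_le_sum_of_subset_of_nonneg hsub (fun i _ _ => by positivity)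
    _ ≤ 1 / q - 1 / (q + A.sup id : ℕ) := slog_sq q hq _
    _ ≤ 1 / q := by
        have : (0 : ℝ) ≤ 1 / ((q + A.sup id : ℕ) : ℝ) := by positivity
        linarith

theorem slog_harm (N : ℕ) (A : Finset ℕ) (hA : ∀ p ∈ A, 1 ≤ p ∧ p ≤ N) :
    ∑ p ∈ A, (1 : ℝ) / p ≤ 1 + Real.log N := by
  have hsub : A ⊆ Icc 1 N := fun p hp => mem_Icc.2 (hA p hp)
  calc ∑ p ∈ A, (1 : ℝ) / p ≤ ∑ p ∈ Icc 1 N, (1 : ℝ) / p :=
        Finset.sum_le_sum_of_subset_of_nonneg hsub (fun i _ _ => by positivity)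
    _ = ((harmonic N : ℚ) : ℝ) := by
        rw [harmonic_eq_sum_Icc]
        push_cast
        exact Finset.sum_congr rfl fun i _ => by rw [one_div]
    _ ≤ 1 + Real.log N := harmonic_le_one_add_log N

/-- at most `I / p + 1` of the numbers `Q (m + i) + 1`, `i < I`, are divisible by `p` -/
theorem slog_class (Q m I p : ℕ) (hp : p.Prime) (hpQ : ¬ p ∣ Q) :
    ((range I).filter (fun i => p ∣ Q * (m + i) + 1)).card ≤ I / p + 1 := by
  by_cases hne : ((range I).filter (fun i => p ∣ Q * (m + i) + 1)).Nonempty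
  swap
  · rw [Finset.not_nonempty_iff_eq_empty.1 hne]; simp
  obtain ⟨i0, hi0⟩ := hne
  have hcop : Nat.Coprime p Q := (Nat.Prime.coprime_iff_not_dvd hp).2 hpQ
  have hcongr : ∀ i ∈ (range I).filter (fun i => p ∣ Q * (m + i) + 1), i ≡ i0 [MOD p] := by
    intro i hi
    have h1 := (mem_filter.1 hi).2
    have h2 := (mem_filter.1 hi0).2
    have h3 : Q * (m + i) + 1 ≡ Q * (m + i0) + 1 [MOD p] :=
      ((Nat.modEq_zero_iff_dvd).2 h1).trans ((Nat.modEq_zero_iff_dvd).2 h2).symm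
    have h4 : Q * (m + i) ≡ Q * (m + i0) [MOD p] := Nat.ModEq.add_right_cancel' 1 h3
    have h5 : m + i ≡ m + i0 [MOD p] := Nat.ModEq.cancel_left_of_coprime hcop h4
    exact Nat.ModEq.add_left_cancel' m h5
  have hinj : ((range I).filter (fun i => p ∣ Q * (m + i) + 1)).card ≤
      (range (I / p + 1)).card := by
    refine Finset.card_le_card_of_injOn (fun i => i / p) ?_ ?_
    · intro i hi
      have h1 := mem_range.1 (mem_filter.1 (Finset.mem_coe.1 hi)).1
      rw [Finset.mem_coe, mem_range]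
      exact Nat.lt_succ_of_le (Nat.div_le_div_right h1.le)
    · intro i hi j hj hij
      have h1 := hcongr i (Finset.mem_coe.1 hi)
      have h2 := hcongr j (Finset.mem_coe.1 hj)
      have h3 : i % p = j % p := h1.trans h2.symm
      have h4 := Nat.div_add_mod i p
      have h5 := Nat.div_add_mod j p
      simp only at hij
      rw [← h4, ← h5, hij, h3]
  simpa using hinj

/-- the average of `rsum 0` over the progression -/
theorem slog_avg (Q m I y X : ℕ) (hy : 0 < y) (hI : 0 < I)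
    (hQ : ∀ p : ℕ, p.Prime → p ≤ y → p ∣ Q) (hQ' : ∀ p : ℕ, p.Prime → p ∣ Q → p ≤ y)
    (hX : Q * (m + I) + 1 ≤ X) :
    ∃ i < I, rsum 0 (Q * (m + i) + 1) ≤ 1 / y + (1 + Real.log X) / I := by
  classical
  set P := (Icc 1 X).filter (fun p : ℕ => p.Prime ∧ y < p) with hP
  have hsum : ∑ i ∈ range I, rsum 0 (Q * (m + i) + 1) ≤ (I : ℝ) / y + (1 + Real.log X) := by
    have h1 : ∀ i ∈ range I, rsum 0 (Q * (m + i) + 1) =
        ∑ p ∈ P, if p ∣ Q * (m + i) + 1 then (1 : ℝ) / p else 0 := by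
      intro i hi
      rw [← Finset.sum_filter]
      unfold rsum
      congr 1
      ext p
      rw [mem_filter, mem_filter, hP, mem_filter, mem_Icc, Nat.mem_primeFactors]
      have hiI := mem_range.1 hi
      have hle : Q * (m + i) + 1 ≤ X := by
        refine le_trans ?_ hX
        gcongr
      constructor
      · rintro ⟨⟨h2, h3, h4⟩, h5⟩
        refine ⟨⟨⟨h2.one_lt.le, (Nat.le_of_dvd (by omega) h3).trans hle⟩, h2, ?_⟩, h3⟩
        by_contra h6
        have h7 : p ∣ Q := hQ p h2 (by omega)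
        have h8 : p ∣ 1 := (Nat.dvd_add_right (h7.mul_right _)).1 h3
        exact h2.one_lt.ne' (Nat.dvd_one.1 h8)
      · rintro ⟨⟨⟨h2, h3⟩, h4, h5⟩, h6⟩
        exact ⟨⟨h4, h6, by omega⟩, h4.pos⟩
    rw [Finset.sum_congr rfl h1, Finset.sum_comm]
    have h2 : ∀ p ∈ P, ∑ i ∈ range I, (if p ∣ Q * (m + i) + 1 then (1 : ℝ) / p else 0) ≤
        (I : ℝ) * (1 / ((p : ℝ) * p)) + 1 / p := by
      intro p hp
      obtain ⟨-, hpp, hyp⟩ := mem_filter.1 hp
      have hp0 : (0 : ℝ) < p := by exact_mod_cast hpp.pos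
      rw [← Finset.sum_filter, Finset.sum_const, nsmul_eq_mul]
      have h3 := slog_class Q m I p hpp (fun h => by have := hQ' p hpp h; omega)
      have h4 : (((range I).filter (fun i => p ∣ Q * (m + i) + 1)).card : ℝ) ≤ (I : ℝ) / p + 1 := by
        calc (((range I).filter (fun i => p ∣ Q * (m + i) + 1)).card : ℝ)
            ≤ ((I / p + 1 : ℕ) : ℝ) := by exact_mod_cast h3
          _ = ((I / p : ℕ) : ℝ) + 1 := by push_cast; ring
          _ ≤ (I : ℝ) / p + 1 := by gcongr; exact Nat.cast_div_le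
      calc _ ≤ ((I : ℝ) / p + 1) * (1 / p) := by gcongr
        _ = (I : ℝ) * (1 / ((p : ℝ) * p)) + 1 / p := by field_simp
    calc _ ≤ ∑ p ∈ P, ((I : ℝ) * (1 / ((p : ℝ) * p)) + 1 / p) := Finset.sum_le_sum h2
      _ = (I : ℝ) * ∑ p ∈ P, (1 / ((p : ℝ) * p)) + ∑ p ∈ P, (1 : ℝ) / p := by
          rw [Finset.sum_add_distrib, Finset.mul_sum]
      _ ≤ (I : ℝ) * (1 / y) + (1 + Real.log X) := by
          gcongr
          · exact slog_primes_sq y hy P (fun p hp => (mem_filter.1 hp).2.2)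
          · exact slog_harm X P (fun p hp => mem_Icc.1 (mem_filter.1 hp).1)
      _ = (I : ℝ) / y + (1 + Real.log X) := by ring
  by_contra hcon
  push Not at hcon
  have hI' : (0 : ℝ) < I := by exact_mod_cast hI
  have h2 : ∑ i ∈ range I, ((1 : ℝ) / y + (1 + Real.log X) / I) <
      ∑ i ∈ range I, rsum 0 (Q * (m + i) + 1) := by
    refine Finset.sum_lt_sum_of_nonempty ⟨0, mem_range.2 hI⟩ ?_
    intro i hi
    exact hcon i (mem_range.1 hi)
  rw [Finset.sum_const, card_range, nsmul_eq_mul] at h2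
  have h3 : (I : ℝ) * ((1 : ℝ) / y + (1 + Real.log X) / I) = (I : ℝ) / y + (1 + Real.log X) := by
    field_simp
  linarith

theorem slog_pow : ∀ j : ℕ, 32 ≤ j → (2 * j + 8) ^ 3 ≤ 2 ^ j := by
  intro j hj
  induction j, hj using Nat.le_induction with
  | base => norm_num
  | succ j hj ih =>
    have h1 : (2 * (j + 1) + 8) ^ 3 ≤ 2 * (2 * j + 8) ^ 3 := by
      nlinarith [Nat.zero_le (j * j), Nat.mul_le_mul hj hj]
    calc (2 * (j + 1) + 8) ^ 3 ≤ 2 * (2 * j + 8) ^ 3 := h1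
      _ ≤ 2 * 2 ^ j := by omega
      _ = 2 ^ (j + 1) := by ring

/-- numbers below `M` not prime to `M` -/
theorem slog_noncop (M : ℕ) (hM : 0 < M) :
    (((range M).filter (fun x => ¬ Nat.Coprime x M)).card : ℝ) ≤ rsum 0 M * M := by
  classical
  have hsub : (range M).filter (fun x => ¬ Nat.Coprime x M) ⊆
      M.primeFactors.biUnion (fun p => (range M).filter (fun x => p ∣ x)) := by
    intro x hx
    obtain ⟨h1, h2⟩ := mem_filter.1 hx
    obtain ⟨p, hp, hpx, hpM⟩ := Nat.Prime.not_coprime_iff_dvd.1 h2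
    exact mem_biUnion.2 ⟨p, Nat.mem_primeFactors.2 ⟨hp, hpM, hM.ne'⟩, mem_filter.2 ⟨h1, hpx⟩⟩
  have hcard : ∀ p ∈ M.primeFactors,
      (((range M).filter (fun x => p ∣ x)).card : ℝ) ≤ (1 / (p : ℝ)) * M := by
    intro p hp
    obtain ⟨hpp, ⟨c, hc⟩, -⟩ := Nat.mem_primeFactors.1 hp
    have hp0 : (0 : ℝ) < p := by exact_mod_cast hpp.pos
    have h3 : ((range M).filter (fun x => p ∣ x)).card ≤ c := by
      have h : (range M).filter (fun x => p ∣ x) ⊆ (range c).image (fun i => p * i) := by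
        intro x hx
        rw [mem_filter, mem_range] at hx
        obtain ⟨h1, i, rfl⟩ := hx
        rw [hc] at h1
        exact mem_image.2 ⟨i, mem_range.2 (lt_of_mul_lt_mul_left h1 (Nat.zero_le p)), rfl⟩
      exact (card_le_card h).trans (card_image_le.trans (by rw [card_range]))
    calc (((range M).filter (fun x => p ∣ x)).card : ℝ) ≤ c := by exact_mod_cast h3
      _ = (1 / (p : ℝ)) * M := by rw [hc]; push_cast; field_simp
  calc (((range M).filter (fun x => ¬ Nat.Coprime x M)).card : ℝ)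
      ≤ ((M.primeFactors.biUnion (fun p => (range M).filter (fun x => p ∣ x))).card : ℝ) := by
        exact_mod_cast card_le_card hsub
    _ ≤ ((∑ p ∈ M.primeFactors, ((range M).filter (fun x => p ∣ x)).card : ℕ) : ℝ) := by
        exact_mod_cast card_biUnion_le
    _ = ∑ p ∈ M.primeFactors, (((range M).filter (fun x => p ∣ x)).card : ℝ) := by push_cast; rfl
    _ ≤ ∑ p ∈ M.primeFactors, (1 / (p : ℝ)) * M := Finset.sum_le_sum hcard
    _ = rsum 0 M * M := by
        rw [← Finset.sum_mul]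
        congr 1
        unfold rsum
        congr 1
        ext p
        rw [mem_filter]
        constructor
        · intro h; exact ⟨h, (Nat.prime_of_mem_primeFactors h).pos⟩
        · intro h; exact h.1

theorem supplyLog (N k y : ℕ) (hk : k = Nat.log 2 N) (hk64 : 64 ≤ k) (hy : y = k / 8) :
    ∃ M, 2 * N < M ∧ y * (M - 2 * N) ≤ N ∧ Odd M ∧ (∀ p, p.Prime → p ∣ M → y < p) ∧
      rsum 0 M ≤ 2 / y ∧
      (y : ℝ) * (((range M).filter (fun x => ¬ Nat.Coprime x M)).card : ℝ) ≤ 2 * M := by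
  have hN0 : N ≠ 0 := by
    rintro rfl
    simp at hk
    omega
  have hN1 : 2 ^ k ≤ N := by rw [hk]; exact Nat.pow_log_le_self 2 hN0
  have hN2 : N < 2 ^ (k + 1) := by rw [hk]; exact Nat.lt_pow_succ_log_self (by norm_num) N
  have hy8 : 8 ≤ y := by omega
  obtain ⟨Q, hQ⟩ : ∃ Q, Q = primorial y := ⟨_, rfl⟩
  have hQ0 : 0 < Q := by rw [hQ]; exact primorial_pos y
  have hQ4 : Q ≤ 2 ^ (k / 4) := by
    calc Q ≤ 4 ^ y := by rw [hQ]; exact primorial_le_four_pow y
      _ = 2 ^ (2 * y) := by rw [pow_mul]; norm_num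
      _ ≤ 2 ^ (k / 4) := Nat.pow_le_pow_right (by norm_num) (by omega)
  have hQd : ∀ p : ℕ, p.Prime → p ≤ y → p ∣ Q := by
    intro p hp hpy
    rw [hQ]
    exact Finset.dvd_prod_of_mem _ (mem_filter.2 ⟨mem_range.2 (by omega), hp⟩)
  have hQd' : ∀ p : ℕ, p.Prime → p ∣ Q → p ≤ y := by
    intro p hp hpQ
    rw [hQ] at hpQ
    unfold primorial at hpQ
    obtain ⟨q, hq, hpq⟩ := (Prime.dvd_finsetProd_iff hp.prime _).1 hpQ
    obtain ⟨h1, h2⟩ := mem_filter.1 hq
    have h3 := (Nat.prime_dvd_prime_iff_eq hp h2).1 hpq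
    have h4 := mem_range.1 h1
    omega
  -- the length of the progression
  have hpow : (k + 4) ^ 3 ≤ 2 ^ (k / 2) := by
    calc (k + 4) ^ 3 ≤ (2 * (k / 2) + 8) ^ 3 := Nat.pow_le_pow_left (by omega) 3
      _ ≤ 2 ^ (k / 2) := slog_pow _ (by omega)
  have hkey : (y * (k + 4) + 1) * Q * y ≤ N := by
    calc (y * (k + 4) + 1) * Q * y = ((y * (k + 4) + 1) * y) * Q := by ring
      _ ≤ (k + 4) ^ 3 * 2 ^ (k / 4) := by
          refine Nat.mul_le_mul ?_ hQ4
          have h1 : y * (k + 4) + 1 ≤ (k + 4) * (k + 4) := by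
            calc y * (k + 4) + 1 ≤ y * (k + 4) + 1 * (k + 4) := by omega
              _ = (y + 1) * (k + 4) := by ring
              _ ≤ (k + 4) * (k + 4) := Nat.mul_le_mul_right _ (by omega)
          calc (y * (k + 4) + 1) * y ≤ ((k + 4) * (k + 4)) * (k + 4) :=
                Nat.mul_le_mul h1 (by omega)
            _ = (k + 4) ^ 3 := by ring
      _ ≤ 2 ^ (k / 2) * 2 ^ (k / 4) := Nat.mul_le_mul_right _ hpow
      _ = 2 ^ (k / 2 + k / 4) := by rw [pow_add]
      _ ≤ 2 ^ k := Nat.pow_le_pow_right (by norm_num) (by omega)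
      _ ≤ N := hN1
  have hkey2 : (y * (k + 4) + 1) * Q ≤ N / y := (Nat.le_div_iff_mul_le (by omega)).2 hkey
  obtain ⟨I, hI⟩ : ∃ I, I = (N / y) / Q - 1 := ⟨_, rfl⟩
  have hI1 : y * (k + 4) ≤ I := by
    have := (Nat.le_div_iff_mul_le hQ0).2 hkey2
    omega
  have hI2 : Q * I + Q ≤ N / y := by
    have h1 := Nat.div_mul_le_self (N / y) Q
    have h2 : (I + 1) ≤ (N / y) / Q := by
      have := (Nat.le_div_iff_mul_le hQ0).2 hkey2
      omega
    calc Q * I + Q = (I + 1) * Q := by ring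
      _ ≤ (N / y) / Q * Q := Nat.mul_le_mul_right _ h2
      _ ≤ N / y := h1
  have hI0 : 0 < I := lt_of_lt_of_le (by positivity) hI1
  obtain ⟨m, hm⟩ : ∃ m, m = 2 * N / Q + 1 := ⟨_, rfl⟩
  have hm1 : 2 * N < Q * m := by
    rw [hm]; exact Nat.lt_mul_div_succ _ hQ0
  have hm2 : Q * m ≤ 2 * N + Q := by
    rw [hm, Nat.mul_add, Nat.mul_one]
    have := Nat.mul_div_le (2 * N) Q
    omega
  have hNy : N / y ≤ N := Nat.div_le_self _ _
  have hX : Q * (m + I) + 1 ≤ 4 * N := by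
    have : Q * (m + I) = Q * m + Q * I := by ring
    have h8 : N / y * 8 ≤ N := by
      calc N / y * 8 ≤ N / y * y := Nat.mul_le_mul_left _ hy8
        _ ≤ N := Nat.div_mul_le_self _ _
    omega
  obtain ⟨i, hi, hr⟩ := slog_avg Q m I y (4 * N) (by omega) hI0 hQd hQd' hX
  have hyr : (0 : ℝ) < y := by exact_mod_cast (show 0 < y by omega)
  have hIr : (0 : ℝ) < I := by exact_mod_cast hI0
  have hlog : 1 + Real.log ((4 * N : ℕ) : ℝ) ≤ k + 4 := by
    have h1 : ((4 * N : ℕ) : ℝ) ≤ (2 : ℝ) ^ (k + 3) := by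
      have : 4 * N ≤ 2 ^ (k + 3) := by
        calc 4 * N ≤ 4 * 2 ^ (k + 1) := by omega
          _ = 2 ^ (k + 3) := by ring
      exact_mod_cast this
    have h2 : Real.log ((4 * N : ℕ) : ℝ) ≤ (k + 3) * Real.log 2 := by
      have h3 : (0 : ℝ) < ((4 * N : ℕ) : ℝ) := by
        have : 0 < 4 * N := by omega
        exact_mod_cast this
      calc Real.log ((4 * N : ℕ) : ℝ) ≤ Real.log ((2 : ℝ) ^ (k + 3)) := Real.log_le_log h3 h1
        _ = (k + 3) * Real.log 2 := by rw [Real.log_pow]; push_cast; ring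
    have h4 : Real.log 2 ≤ 1 := by
      have := Real.log_two_lt_d9
      linarith
    have h5 : ((k : ℝ) + 3) * Real.log 2 ≤ (k + 3) * 1 := by gcongr
    linarith
  have hterm : (1 + Real.log ((4 * N : ℕ) : ℝ)) / I ≤ 1 / y := by
    rw [div_le_div_iff₀ hIr hyr]
    have h1 : (y : ℝ) * (k + 4) ≤ I := by exact_mod_cast hI1
    nlinarith
  have hr2 : rsum 0 (Q * (m + i) + 1) ≤ 2 / y := by
    calc rsum 0 (Q * (m + i) + 1) ≤ 1 / y + (1 + Real.log ((4 * N : ℕ) : ℝ)) / I := hr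
      _ ≤ 1 / y + 1 / y := by gcongr
      _ = 2 / y := by ring
  have hgt : 2 * N < Q * (m + i) + 1 := by
    have : Q * (m + i) = Q * m + Q * i := by ring
    omega
  refine ⟨Q * (m + i) + 1, hgt, ?_, ?_, ?_, hr2, ?_⟩
  · have h1 : Q * (m + i) + 1 - 2 * N ≤ N / y := by
      have h2 : Q * (m + i) = Q * m + Q * i := by ring
      have h3 : Q * i + Q ≤ Q * I := by
        calc Q * i + Q = Q * (i + 1) := by ring
          _ ≤ Q * I := Nat.mul_le_mul_left _ hi
      omega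
    calc y * (Q * (m + i) + 1 - 2 * N) ≤ y * (N / y) := Nat.mul_le_mul_left _ h1
      _ ≤ N := Nat.mul_div_le N y
  · have h2 : 2 ∣ Q := hQd 2 Nat.prime_two (by omega)
    obtain ⟨c, hc⟩ := h2
    rw [hc]
    exact ⟨c * (m + i), by ring⟩
  · intro p hp hpd
    by_contra h
    have h1 : p ∣ Q := hQd p hp (by omega)
    have h2 : p ∣ 1 := (Nat.dvd_add_right (h1.mul_right _)).1 hpd
    exact hp.one_lt.ne' (Nat.dvd_one.1 h2)
  · have h1 := slog_noncop (Q * (m + i) + 1) (by omega)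
    have h2 : (0 : ℝ) ≤ ((Q * (m + i) + 1 : ℕ) : ℝ) := by positivity
    calc (y : ℝ) * (((range (Q * (m + i) + 1)).filter
          (fun x => ¬ Nat.Coprime x (Q * (m + i) + 1))).card : ℝ)
        ≤ y * (rsum 0 (Q * (m + i) + 1) * ((Q * (m + i) + 1 : ℕ) : ℝ)) := by gcongr
      _ ≤ y * ((2 / y) * ((Q * (m + i) + 1 : ℕ) : ℝ)) := by gcongr
      _ = 2 * ((Q * (m + i) + 1 : ℕ) : ℝ) := by field_simp

end Pool.Agent.LR4
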