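import Mathlib
import Pool.Agent.LR4.Chk

/-!
Lonely runner with speeds at most `2 n`: the kernel checker of the macroscopic table.

A cell: a unit `g` modulo `M` with `G M ≤ dd g ≤ G2 M`, `dd = 800000`, `g = ρ M` modulo `md`. The
code `c` (`|c - 512| ≤ 320`, `c ≠ 512`) denotes the residue of `(c - 512) g` modulo `M` in `(0, M)`.
Positions are `xl / dd` at the left end and `xr / dd` at the right end of the cell. `m / dd` is the
margin: `dd K ≤ m M`. Two masks: `T` (non-speeds) and `F` (speeds). The initial state of a cell: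
the code `520` (`u = 8 g`) is in `F`. All branches of the certificate must close.
-/

namespace Pool.Agent.LR4.TC

open Pool.Agent.LR4

/-- The parameters of a cell: `g0 = 512 (dd - G)`, `g02 = 512 (dd - G2)`, `mm = dd - m`,
`m2 = dd - 2 m`, `m3 = dd - 3 m`, `mt = 3 mm`, `md1 = md - 1`, `e0 = 512 (md - ρ + 1)`,
`sm` a multiple of all small `md`-smooth numbers, `Y` the mask of the allowed labels. -/
structure Par where
  (dd G G2 g0 g02 m mm m2 m3 mt md md1 rho e0 sm Y : ℕ)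

/-- Positions and quotient of a code. -/
def okc (p : Par) (c : ℕ) (k : ℕ → ℕ → ℕ → Bool) : Bool :=
  force (Nat.add (Nat.mul c p.G) p.g0) fun a =>
  force (Nat.add (Nat.mul c p.G2) p.g02) fun b =>
  force (Nat.mod a p.dd) fun xl =>
  force (Nat.mod b p.dd) fun xr =>
  force (Nat.div a p.dd) fun q =>
  an (Nat.beq q (Nat.div b p.dd)) (an (Nat.ble (nat_lit 192) c) (an (Nat.ble c (nat_lit 832))
    (an (Nat.ble p.m xl) (an (Nat.ble p.m xr) (an (Nat.ble xl p.mm) (an (Nat.ble xr p.mm)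
      (k xl xr q)))))))

/-- The residue of a code modulo `md`, up to sign. -/
def ee (p : Par) (c q : ℕ) : ℕ :=
  Nat.mod (Nat.add (Nat.add (Nat.mul c p.rho) (Nat.mul p.md1 q)) p.e0) p.md

/-- The absolute value of the determinant. -/
def det (c1 q1 c2 q2 : ℕ) (k : ℕ → Bool) : Bool :=
  force (Nat.add (Nat.mul c1 q2) (Nat.mul (nat_lit 512) (Nat.add c2 q1))) fun P =>
  force (Nat.add (Nat.mul c2 q1) (Nat.mul (nat_lit 512) (Nat.add c1 q2))) fun N =>
  force (Nat.add (Nat.sub P N) (Nat.sub N P)) k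

/-- Coprimality. -/
def cop (p : Par) (c1 q1 c2 q2 : ℕ) : Bool :=
  det c1 q1 c2 q2 fun D =>
    an (Nat.beq (Nat.mod p.sm D) (nat_lit 0))
      (Nat.beq (Nat.gcd (Nat.gcd (ee p c1 q1) (ee p c2 q2)) (Nat.gcd D p.md)) (nat_lit 1))

/-- `2 x`. -/
def dbl (x : ℕ) : ℕ := Nat.add x x

/-- Triangle `x`, `y`, `x + y`. -/
def tri (p : Par) (i j : ℕ) : Bool :=
  okc p i fun a b q => okc p j fun c d r =>
    an (Nat.ble (nat_lit 512) (Nat.add i j)) (an (Nat.ble a c) (an (Nat.ble b d) (an (Nat.ble p.dd (dbl (Nat.add a c)))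
      (an (Nat.ble p.dd (dbl (Nat.add b d)))
      (an (Nat.ble (Nat.add a c) p.mm) (an (Nat.ble (Nat.add b d) p.mm)
      (an (Nat.ble p.dd (Nat.add a (dbl c))) (an (Nat.ble p.dd (Nat.add b (dbl d)))
      (an (ro (an (Nat.ble (dbl c) p.mm) (Nat.ble (dbl d) p.mm))
        (ro (an (Nat.ble p.dd (Nat.add (dbl a) c)) (Nat.ble p.dd (Nat.add (dbl b) d)))
          (an (Nat.ble (dbl (Nat.add a (dbl c))) p.mt)
            (Nat.ble (dbl (Nat.add b (dbl d))) p.mt))))
      (cop p i q j r))))))))))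

/-- Quadruple `x`, `y`, `x + y`, `2 x + y`. -/
def t4 (p : Par) (i j : ℕ) : Bool :=
  okc p i fun a b q => okc p j fun c d r =>
    an (Nat.ble (nat_lit 512) (Nat.add i j)) (an (Nat.ble (nat_lit 1024) (Nat.add (Nat.add i i) j))
      (an (Nat.ble p.dd (dbl (Nat.add a c))) (an (Nat.ble p.dd (dbl (Nat.add b d)))
      (an (Nat.ble p.dd (Nat.add a (dbl c))) (an (Nat.ble p.dd (Nat.add b (dbl d)))
      (an (Nat.ble (Nat.add (dbl a) c) p.mm) (an (Nat.ble (Nat.add (dbl b) d) p.mm)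
      (cop p i q j r))))))))

/-- Doubling `q`, `2 q`. -/
def db (p : Par) (i : ℕ) : Bool :=
  okc p i fun a b _ =>
    an (Nat.ble (nat_lit 256) i)
      (ro (an (Nat.ble (dbl (dbl a)) p.m3) (Nat.ble (dbl (dbl b)) p.m3))
        (an (Nat.ble p.dd (Nat.add (dbl a) a)) (an (Nat.ble p.dd (Nat.add (dbl b) b))
          (an (Nat.ble (dbl a) p.mm) (Nat.ble (dbl b) p.mm)))))

/-- Triple `q`, `2 q`, `y`. -/
def d2 (p : Par) (i j : ℕ) : Bool :=
  okc p i fun a b q => okc p j fun c d r =>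
    an (Nat.ble (nat_lit 256) i) (an (Nat.ble p.dd (Nat.add a c)) (an (Nat.ble p.dd (Nat.add b d))
      (an (Nat.ble (dbl (Nat.add c (dbl a))) p.mt) (an (Nat.ble (dbl (Nat.add d (dbl b))) p.mt)
      (an (Nat.ble (dbl a) p.mm) (an (Nat.ble (dbl b) p.mm)
      (cop p j r i q)))))))

/-- Triple `q`, `2 q`, `3 q`. -/
def d3 (p : Par) (i : ℕ) : Bool :=
  okc p i fun a b _ => an (Nat.ble (nat_lit 342) i)
    (an (Nat.ble (Nat.add (dbl a) a) p.m2) (Nat.ble (Nat.add (dbl b) b) p.m2))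

/-- Code of `x + y`. -/
def cz (x y : ℕ) : ℕ := Nat.sub (Nat.add x y) (nat_lit 512)

/-- Code of `2 x`. -/
def c2 (x : ℕ) : ℕ := Nat.sub (Nat.add x x) (nat_lit 512)

/-- Code of `3 x`. -/
def c3 (x : ℕ) : ℕ := Nat.sub (Nat.add (Nat.add x x) x) (nat_lit 1024)

/-- Code of `2 x + y`. -/
def cu (x y : ℕ) : ℕ := Nat.sub (Nat.add (Nat.add x x) y) (nat_lit 1024)

/-- Code of `- x`. -/
def cn (x : ℕ) : ℕ := Nat.sub (nat_lit 1024) x

/-- The rest of the certificate: `s T F k`. -/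
abbrev Ih := ℕ → ℕ → ℕ → (ℕ → Bool) → Bool

/-- Add `z` to `F`; a conflict closes the branch. -/
def goF (z : ℕ) (ih : Ih) (s T F : ℕ) (k : ℕ → Bool) : Bool :=
  Bool.rec (force (sb F z) fun F' => ih s T F' k) (k s) (tb T z)

/-- Add `z` to `T`; a conflict closes the branch. -/
def goT (z : ℕ) (ih : Ih) (s T F : ℕ) (k : ℕ → Bool) : Bool :=
  Bool.rec (force (sb T z) fun T' => ih s T' F k) (k s) (tb F z)

/-- Add `z` and `z'` to `T`; a conflict closes the branch. -/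
def goT2 (z z' : ℕ) (ih : Ih) (s T F : ℕ) (k : ℕ → Bool) : Bool :=
  Bool.rec (Bool.rec (force (sb (sb T z) z') fun T' => ih s T' F k) (k s) (tb F z'))
    (k s) (tb F z)

/-- 0 : decision. -/
def op0 (_p : Par) (x _y : ℕ) (ih : Ih) (s T F : ℕ) (k : ℕ → Bool) : Bool :=
  force (sb T x) fun T' => ih s T' F fun s' => force (sb F x) fun F' => ih s' T F' k

/-- 1 : triangle, forces `x + y`. -/
def op1 (p : Par) (x y : ℕ) (ih : Ih) (s T F : ℕ) (k : ℕ → Bool) : Bool :=
  an (tb T x) (an (tb T y) (an (tri p x y) (force (cz x y) fun z => goF z ih s T F k)))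

/-- 2 : triangle, forces `y`. -/
def op2 (p : Par) (x y : ℕ) (ih : Ih) (s T F : ℕ) (k : ℕ → Bool) : Bool :=
  an (tb T x) (an (tb T (cz x y)) (an (tri p x y) (goF y ih s T F k)))

/-- 3 : triangle, forces `x`. -/
def op3 (p : Par) (x y : ℕ) (ih : Ih) (s T F : ℕ) (k : ℕ → Bool) : Bool :=
  an (tb T y) (an (tb T (cz x y)) (an (tri p x y) (goF x ih s T F k)))

/-- 4 : doubling, forces `2 x`. -/
def op4 (p : Par) (x _y : ℕ) (ih : Ih) (s T F : ℕ) (k : ℕ → Bool) : Bool :=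
  an (tb T x) (an (db p x) (force (c2 x) fun z => goF z ih s T F k))

/-- 5 : doubling, forces `x`. -/
def op5 (p : Par) (x _y : ℕ) (ih : Ih) (s T F : ℕ) (k : ℕ → Bool) : Bool :=
  an (tb T (c2 x)) (an (db p x) (goF x ih s T F k))

/-- 6 : triple `x`, `2 x`, `y`, forces `y`. -/
def op6 (p : Par) (x y : ℕ) (ih : Ih) (s T F : ℕ) (k : ℕ → Bool) : Bool :=
  an (tb T x) (an (tb T (c2 x)) (an (d2 p x y) (goF y ih s T F k)))

/-- 7 : triple `x`, `2 x`, `y`, forces `2 x`. -/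
def op7 (p : Par) (x y : ℕ) (ih : Ih) (s T F : ℕ) (k : ℕ → Bool) : Bool :=
  an (tb T x) (an (tb T y) (an (d2 p x y) (force (c2 x) fun z => goF z ih s T F k)))

/-- 8 : triple `x`, `2 x`, `y`, forces `x`. -/
def op8 (p : Par) (x y : ℕ) (ih : Ih) (s T F : ℕ) (k : ℕ → Bool) : Bool :=
  an (tb T (c2 x)) (an (tb T y) (an (d2 p x y) (goF x ih s T F k)))

/-- 9 : quadruple, forces `2 x + y`. -/
def op9 (p : Par) (x y : ℕ) (ih : Ih) (s T F : ℕ) (k : ℕ → Bool) : Bool :=
  an (tb T x) (an (tb T y) (an (tb T (cz x y)) (an (t4 p x y)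
    (force (cu x y) fun z => goF z ih s T F k))))

/-- 10 : quadruple, forces `x + y`. -/
def op10 (p : Par) (x y : ℕ) (ih : Ih) (s T F : ℕ) (k : ℕ → Bool) : Bool :=
  an (tb T x) (an (tb T y) (an (tb T (cu x y)) (an (t4 p x y)
    (force (cz x y) fun z => goF z ih s T F k))))

/-- 11 : quadruple, forces `y`. -/
def op11 (p : Par) (x y : ℕ) (ih : Ih) (s T F : ℕ) (k : ℕ → Bool) : Bool :=
  an (tb T x) (an (tb T (cz x y)) (an (tb T (cu x y)) (an (t4 p x y) (goF y ih s T F k))))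

/-- 12 : quadruple, forces `x`. -/
def op12 (p : Par) (x y : ℕ) (ih : Ih) (s T F : ℕ) (k : ℕ → Bool) : Bool :=
  an (tb T y) (an (tb T (cz x y)) (an (tb T (cu x y)) (an (t4 p x y) (goF x ih s T F k))))

/-- 13 : triple `x`, `2 x`, `3 x`, forces `3 x` (`y = 0`), `2 x` (`y = 1`), `x` (`y > 1`). -/
def op13 (p : Par) (x y : ℕ) (ih : Ih) (s T F : ℕ) (k : ℕ → Bool) : Bool :=
  an (d3 p x) (Nat.rec (motive := fun _ => Bool)
    (an (tb T x) (an (tb T (c2 x)) (force (c3 x) fun z => goF z ih s T F k)))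
    (fun y _ => Nat.rec (motive := fun _ => Bool)
      (an (tb T x) (an (tb T (c3 x)) (force (c2 x) fun z => goF z ih s T F k)))
      (fun _ _ => an (tb T (c2 x)) (an (tb T (c3 x)) (goF x ih s T F k))) y) y)

/-- The label of `x` is allowed. -/
def lab (p : Par) (x : ℕ) : Bool :=
  tb p.Y (Nat.add (Nat.sub x (nat_lit 512)) (Nat.sub (nat_lit 512) x))

/-- 14 : label `x`, the double consists of speeds, forces `x` and `- x` into `T`. -/
def op14 (p : Par) (x _y : ℕ) (ih : Ih) (s T F : ℕ) (k : ℕ → Bool) : Bool :=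
  an (tb F (c2 x)) (an (tb F (c2 (cn x))) (an (lab p x)
    (force (cn x) fun x' => goT2 x x' ih s T F k)))

/-- 15 : label `x`, one of `x`, `- x` is a speed, `- 2 x` is a speed, forces `2 x` into `T`. -/
def op15 (p : Par) (x _y : ℕ) (ih : Ih) (s T F : ℕ) (k : ℕ → Bool) : Bool :=
  an (tb F (c2 (cn x))) (an (ro (tb F x) (tb F (cn x))) (an (lab p x)
    (force (c2 x) fun z => goT z ih s T F k)))

/-- The type of the instructions. -/
abbrev Op := Par → ℕ → ℕ → Ih → ℕ → ℕ → ℕ → (ℕ → Bool) → Bool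

/-- The instruction with a given number. -/
def ops (i j : ℕ) : Op :=
  sel Op (sel Op op0 op1 op2 op3 i) (sel Op op4 op5 op6 op7 i) (sel Op op8 op9 op10 op11 i)
    (sel Op op12 op13 op14 op15 i) j

/-- One instruction: 4 bits for the operation, 10 bits for `x`, 10 bits for `y`. -/
def step (p : Par) (ih : Ih) (s T F : ℕ) (k : ℕ → Bool) : Bool :=
  force (Nat.land (Nat.shiftRight s (nat_lit 4)) (nat_lit 1023)) fun x =>
  force (Nat.land (Nat.shiftRight s (nat_lit 14)) (nat_lit 1023)) fun y =>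
  force (Nat.shiftRight s (nat_lit 24)) fun s' =>
  ops (Nat.land s (nat_lit 3)) (Nat.land (Nat.shiftRight s (nat_lit 2)) (nat_lit 3))
    p x y ih s' T F k

/-- Run the certificate. -/
def run (p : Par) (fuel : ℕ) : Ih :=
  Nat.rec (motive := fun _ => Ih) (fun _ _ _ _ => false) (fun _ ih => step p ih) fuel

/-- `sm`. -/
def smn : ℕ := 2 ^ 20 * 3 ^ 13 * 5 ^ 9

/-- `sm` for `md = 210`. -/
def smn7 : ℕ := 2 ^ 20 * 3 ^ 13 * 5 ^ 9 * 7 ^ 7

/-- The mask of the labels `Y91`. -/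
def yms : ℕ :=
  (List.range 161).foldl (fun s b => if 1 ≤ b ∧ (b ≤ 50 ∨ (b ≤ 100 ∧ b % 2 = 0) ∨ b % 4 = 0 ∨
    b = 130) then s + 2 ^ b else s) 0

/-- The parameters of the cell `[G, G + w]` of the class `rho` modulo `md`. -/
def mk (md rho sm yy G w : ℕ) (k : Par → Bool) : Bool :=
  force (G + w) fun G2 => force (512 * (800000 - G)) fun g0 => force (512 * (800000 - G2)) fun g02 =>
  force (512 * (md + 1 - rho)) fun e0 => force (md - 1) fun md1 =>
  k ⟨800000, G, G2, g0, g02, 1143, 798857, 797714, 796571, 2396571, md, md1, rho, e0, sm, yy⟩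

/-- One cell. -/
def cell (md rho sm yy G w s : ℕ) : Bool :=
  an (Nat.ble (G + w) 800000) (an (Nat.ble 1 w)
    (mk md rho sm yy G w fun p => run p 1000 s 0 (2 ^ 520) fun _ => true))

end Pool.Agent.LR4.TC
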