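import Pool.Agent.LR4.TabChk
import Pool.Agent.LR4.ChkSound

/-!
Lonely runner with speeds at most `2 n`: a run of the table checker is sound, against an abstract
predicate `S` on the codes (`S c`: the number with the code `c` is a speed).
-/

namespace Pool.Agent.LR4.TC

open Pool.Agent.LR4

/-- The facts used by the checker. -/
structure TF (p : Par) (S : ℕ → Prop) : Prop where
  tri : ∀ i j, tri p i j = true → ¬ S i → ¬ S j → S (cz i j)
  t4 : ∀ i j, t4 p i j = true → ¬ S i → ¬ S j → ¬ S (cz i j) → ¬ S (cu i j) → False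
  db : ∀ i, db p i = true → ¬ S i → S (c2 i)
  d2 : ∀ i j, d2 p i j = true → ¬ S i → ¬ S (c2 i) → ¬ S j → False
  d3 : ∀ i, d3 p i = true → ¬ S i → ¬ S (c2 i) → ¬ S (c3 i) → False
  lb : ∀ x, lab p x = true → S (c2 x) → S (c2 (cn x)) → ¬ S x ∧ ¬ S (cn x)

/-- The masks `T` and `F` are correct. -/
def Mk (S : ℕ → Prop) (T F : ℕ) : Prop :=
  (∀ x, T.testBit x = true → ¬ S x) ∧ ∀ x, F.testBit x = true → S x

/-- The meaning of a run with the result `b`. -/
def Rs (S : ℕ → Prop) (k : ℕ → Bool) (T F : ℕ) (b : Bool) : Prop :=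
  b = true → (∃ s', k s' = true) ∧ ¬ Mk S T F

section

variable {p : Par} {S : ℕ → Prop}

theorem Mk.sbT {T F z : ℕ} (h : Mk S T F) (hz : ¬ S z) : Mk S (sb T z) F := by
  refine ⟨fun x hx => ?_, h.2⟩
  rcases (sb_bit T z x).1 hx with h1 | h1
  · exact h.1 x h1
  · exact h1 ▸ hz

theorem Mk.sbF {T F z : ℕ} (h : Mk S T F) (hz : S z) : Mk S T (sb F z) := by
  refine ⟨h.1, fun x hx => ?_⟩
  rcases (sb_bit F z x).1 hx with h1 | h1
  · exact h.2 x h1
  · exact h1 ▸ hz

theorem Mk.ofT {T F z : ℕ} (h : Mk S T F) (hz : tb T z = true) : ¬ S z := by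
  rw [tb_eq] at hz
  exact h.1 z hz

theorem Mk.ofF {T F z : ℕ} (h : Mk S T F) (hz : tb F z = true) : S z := by
  rw [tb_eq] at hz
  exact h.2 z hz

theorem Rs.an {k : ℕ → Bool} {T F : ℕ} {a b : Bool} (h : a = true → Rs S k T F b) :
    Rs S k T F (LR4.an a b) := by
  intro hb
  rw [an_eq, Bool.and_eq_true] at hb
  exact h hb.1 hb.2

theorem Rs.goF {ih : Ih} (hih : ∀ s T F k, Rs S k T F (ih s T F k)) {s T F z : ℕ}
    {k : ℕ → Bool} (hz : Mk S T F → S z) : Rs S k T F (goF z ih s T F k) := by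
  intro hb
  unfold TC.goF at hb
  rw [force_eq] at hb
  cases h : tb T z with
  | true =>
    rw [h] at hb
    exact ⟨⟨s, hb⟩, fun hm => hm.ofT h (hz hm)⟩
  | false =>
    rw [h] at hb
    obtain ⟨h1, h2⟩ := hih _ _ _ _ hb
    exact ⟨h1, fun hm => h2 (hm.sbF (hz hm))⟩

theorem Rs.goT {ih : Ih} (hih : ∀ s T F k, Rs S k T F (ih s T F k)) {s T F z : ℕ}
    {k : ℕ → Bool} (hz : Mk S T F → ¬ S z) : Rs S k T F (goT z ih s T F k) := by
  intro hb
  unfold TC.goT at hb
  rw [force_eq] at hb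
  cases h : tb F z with
  | true =>
    rw [h] at hb
    exact ⟨⟨s, hb⟩, fun hm => hz hm (hm.ofF h)⟩
  | false =>
    rw [h] at hb
    obtain ⟨h1, h2⟩ := hih _ _ _ _ hb
    exact ⟨h1, fun hm => h2 (hm.sbT (hz hm))⟩

theorem Rs.goT2 {ih : Ih} (hih : ∀ s T F k, Rs S k T F (ih s T F k)) {s T F z z' : ℕ}
    {k : ℕ → Bool} (hz : Mk S T F → ¬ S z ∧ ¬ S z') : Rs S k T F (goT2 z z' ih s T F k) := by
  intro hb
  unfold TC.goT2 at hb
  rw [force_eq] at hb
  cases h : tb F z with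
  | true =>
    rw [h] at hb
    exact ⟨⟨s, hb⟩, fun hm => (hz hm).1 (hm.ofF h)⟩
  | false =>
    rw [h] at hb
    cases h' : tb F z' with
    | true =>
      rw [h'] at hb
      exact ⟨⟨s, hb⟩, fun hm => (hz hm).2 (hm.ofF h')⟩
    | false =>
      rw [h'] at hb
      obtain ⟨h1, h2⟩ := hih _ _ _ _ hb
      exact ⟨h1, fun hm => h2 ((hm.sbT (hz hm).1).sbT (hz hm).2)⟩

/-- The instruction `o` is sound. -/
def Sn (p : Par) (S : ℕ → Prop) (o : Op) : Prop :=
  ∀ (x y : ℕ) (ih : Ih) (s T F : ℕ) (k : ℕ → Bool), (∀ s T F k, Rs S k T F (ih s T F k)) →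
    Rs S k T F (o p x y ih s T F k)

theorem sn0 : Sn p S op0 := by
  intro x y ih s T F k hih hb
  unfold op0 at hb
  rw [force_eq] at hb
  obtain ⟨⟨s', h1⟩, h2⟩ := hih _ _ _ _ hb
  dsimp only at h1
  rw [force_eq] at h1
  obtain ⟨h3, h4⟩ := hih _ _ _ _ h1
  refine ⟨h3, fun hm => ?_⟩
  by_cases hx : S x
  · exact h4 (hm.sbF hx)
  · exact h2 (hm.sbT hx)

theorem sn1 (hf : TF p S) : Sn p S op1 := by
  intro x y ih s T F k hih
  unfold op1
  rw [force_eq]
  refine Rs.an fun h1 => Rs.an fun h2 => Rs.an fun h3 => Rs.goF hih fun hm => ?_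
  exact hf.tri x y h3 (hm.ofT h1) (hm.ofT h2)

theorem sn2 (hf : TF p S) : Sn p S op2 := by
  intro x y ih s T F k hih
  refine Rs.an fun h1 => Rs.an fun h2 => Rs.an fun h3 => Rs.goF hih fun hm => ?_
  by_contra hy
  exact hm.ofT h2 (hf.tri x y h3 (hm.ofT h1) hy)

theorem sn3 (hf : TF p S) : Sn p S op3 := by
  intro x y ih s T F k hih
  refine Rs.an fun h1 => Rs.an fun h2 => Rs.an fun h3 => Rs.goF hih fun hm => ?_
  by_contra hx
  exact hm.ofT h2 (hf.tri x y h3 hx (hm.ofT h1))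

theorem sn4 (hf : TF p S) : Sn p S op4 := by
  intro x y ih s T F k hih
  unfold op4
  rw [force_eq]
  refine Rs.an fun h1 => Rs.an fun h2 => Rs.goF hih fun hm => ?_
  exact hf.db x h2 (hm.ofT h1)

theorem sn5 (hf : TF p S) : Sn p S op5 := by
  intro x y ih s T F k hih
  refine Rs.an fun h1 => Rs.an fun h2 => Rs.goF hih fun hm => ?_
  by_contra hx
  exact hm.ofT h1 (hf.db x h2 hx)

theorem sn6 (hf : TF p S) : Sn p S op6 := by
  intro x y ih s T F k hih
  refine Rs.an fun h1 => Rs.an fun h2 => Rs.an fun h3 => Rs.goF hih fun hm => ?_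
  by_contra hy
  exact hf.d2 x y h3 (hm.ofT h1) (hm.ofT h2) hy

theorem sn7 (hf : TF p S) : Sn p S op7 := by
  intro x y ih s T F k hih
  unfold op7
  rw [force_eq]
  refine Rs.an fun h1 => Rs.an fun h2 => Rs.an fun h3 => Rs.goF hih fun hm => ?_
  by_contra hx
  exact hf.d2 x y h3 (hm.ofT h1) hx (hm.ofT h2)

theorem sn8 (hf : TF p S) : Sn p S op8 := by
  intro x y ih s T F k hih
  refine Rs.an fun h1 => Rs.an fun h2 => Rs.an fun h3 => Rs.goF hih fun hm => ?_
  by_contra hx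
  exact hf.d2 x y h3 hx (hm.ofT h1) (hm.ofT h2)

theorem sn9 (hf : TF p S) : Sn p S op9 := by
  intro x y ih s T F k hih
  unfold op9
  rw [force_eq]
  refine Rs.an fun h1 => Rs.an fun h2 => Rs.an fun h3 => Rs.an fun h4 => Rs.goF hih fun hm => ?_
  by_contra hx
  exact hf.t4 x y h4 (hm.ofT h1) (hm.ofT h2) (hm.ofT h3) hx

theorem sn10 (hf : TF p S) : Sn p S op10 := by
  intro x y ih s T F k hih
  unfold op10
  rw [force_eq]
  refine Rs.an fun h1 => Rs.an fun h2 => Rs.an fun h3 => Rs.an fun h4 => Rs.goF hih fun hm => ?_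
  by_contra hx
  exact hf.t4 x y h4 (hm.ofT h1) (hm.ofT h2) hx (hm.ofT h3)

theorem sn11 (hf : TF p S) : Sn p S op11 := by
  intro x y ih s T F k hih
  refine Rs.an fun h1 => Rs.an fun h2 => Rs.an fun h3 => Rs.an fun h4 => Rs.goF hih fun hm => ?_
  by_contra hx
  exact hf.t4 x y h4 (hm.ofT h1) hx (hm.ofT h2) (hm.ofT h3)

theorem sn12 (hf : TF p S) : Sn p S op12 := by
  intro x y ih s T F k hih
  refine Rs.an fun h1 => Rs.an fun h2 => Rs.an fun h3 => Rs.an fun h4 => Rs.goF hih fun hm => ?_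
  by_contra hx
  exact hf.t4 x y h4 hx (hm.ofT h1) (hm.ofT h2) (hm.ofT h3)

theorem sn13 (hf : TF p S) : Sn p S op13 := by
  intro x y ih s T F k hih
  unfold op13
  refine Rs.an fun h1 => ?_
  rcases y with _ | _ | y
  · refine Rs.an fun h2 => Rs.an fun h3 => ?_
    rw [force_eq]
    refine Rs.goF hih fun hm => ?_
    by_contra hx
    exact hf.d3 x h1 (hm.ofT h2) (hm.ofT h3) hx
  · refine Rs.an fun h2 => Rs.an fun h3 => ?_
    rw [force_eq]
    refine Rs.goF hih fun hm => ?_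
    by_contra hx
    exact hf.d3 x h1 (hm.ofT h2) hx (hm.ofT h3)
  · refine Rs.an fun h2 => Rs.an fun h3 => ?_
    refine Rs.goF hih fun hm => ?_
    by_contra hx
    exact hf.d3 x h1 hx (hm.ofT h2) (hm.ofT h3)

theorem sn14 (hf : TF p S) : Sn p S op14 := by
  intro x y ih s T F k hih
  unfold op14
  rw [force_eq]
  refine Rs.an fun h1 => Rs.an fun h2 => Rs.an fun h3 => Rs.goT2 hih fun hm => ?_
  exact hf.lb x h3 (hm.ofF h1) (hm.ofF h2)

theorem sn15 (hf : TF p S) : Sn p S op15 := by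
  intro x y ih s T F k hih
  unfold op15
  rw [force_eq]
  refine Rs.an fun h1 => Rs.an fun h2 => Rs.an fun h3 => Rs.goT hih fun hm hx => ?_
  obtain ⟨h4, h5⟩ := hf.lb x h3 hx (hm.ofF h1)
  rcases ro_or h2 with h6 | h6
  · exact h4 (hm.ofF h6)
  · exact h5 (hm.ofF h6)

/-- Every instruction is one of the sixteen. -/
theorem ops_cases (P : Op → Prop) (h0 : P op0) (h1 : P op1) (h2 : P op2) (h3 : P op3)
    (h4 : P op4) (h5 : P op5) (h6 : P op6) (h7 : P op7) (h8 : P op8) (h9 : P op9)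
    (h10 : P op10) (h11 : P op11) (h12 : P op12) (h13 : P op13) (h14 : P op14)
    (h15 : P op15) (i j : ℕ) : P (ops i j) := by
  rcases j with _ | _ | _ | j <;> rcases i with _ | _ | _ | i
  · exact h0
  · exact h1
  · exact h2
  · exact h3
  · exact h4
  · exact h5
  · exact h6
  · exact h7
  · exact h8
  · exact h9
  · exact h10
  · exact h11
  · exact h12
  · exact h13
  · exact h14
  · exact h15

/-- One instruction is sound. -/
theorem step_rs (hf : TF p S) {ih : Ih} (hih : ∀ s T F k, Rs S k T F (ih s T F k))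
    (s T F : ℕ) (k : ℕ → Bool) : Rs S k T F (step p ih s T F k) := by
  unfold step
  simp only [force_eq]
  exact ops_cases (Sn p S) sn0 (sn1 hf) (sn2 hf) (sn3 hf) (sn4 hf) (sn5 hf) (sn6 hf) (sn7 hf)
    (sn8 hf) (sn9 hf) (sn10 hf) (sn11 hf) (sn12 hf) (sn13 hf) (sn14 hf) (sn15 hf) _ _
    _ _ ih _ T F k hih

/-- A run is sound. -/
theorem run_rs (hf : TF p S) (fuel : ℕ) : ∀ s T F k, Rs S k T F (run p fuel s T F k) := by
  induction fuel with
  | zero =>
    intro s T F k hb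
    exact absurd hb (by simp [run])
  | succ fuel ih =>
    intro s T F k
    exact step_rs hf ih s T F k

/-- The parameters of a cell. -/
def parOf (md rho sm yy G w : ℕ) : Par :=
  ⟨800000, G, G + w, 512 * (800000 - G), 512 * (800000 - (G + w)), 1143, 798857, 797714, 796571,
    2396571, md, md - 1, rho, 512 * (md + 1 - rho), sm, yy⟩

set_option exponentiation.threshold 600 in
/-- A cell which is accepted: under the facts, `8 g` is not a speed. -/
theorem cell_rs {md rho sm yy G w s : ℕ} (hc : cell md rho sm yy G w s = true)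
    (hf : TF (parOf md rho sm yy G w) S) : G + w ≤ 800000 ∧ 1 ≤ w ∧ ¬ S 520 := by
  unfold cell at hc
  obtain ⟨h1, hc⟩ := an_and hc
  obtain ⟨h2, hc⟩ := an_and hc
  unfold mk at hc
  simp only [force_eq] at hc
  have h3 := (run_rs hf 1000 s 0 (2 ^ 520) (fun _ => true) hc).2
  refine ⟨Nat.le_of_ble_eq_true h1, Nat.le_of_ble_eq_true h2, fun hS => h3 ⟨?_, ?_⟩⟩
  · intro x hx
    simp at hx
  · intro x hx
    rw [Nat.testBit_two_pow, decide_eq_true_iff] at hx
    exact hx ▸ hS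

end

end Pool.Agent.LR4.TC
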