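import Mathlib
import Pool.Agent.LR4.TabRun
import Pool.Agent.LR4.Edges

/-!
Lonely runner with speeds at most `2 n`: the facts used by the table checker hold in a cell.

The code `c` denotes `XX g M c`, the residue of `(c - 512) g` modulo `M`.
-/

namespace Pool.Agent.LR4.TC

open Pool.Agent.LR4 Finset

/-- The number with the code `c`. -/
def XX (g M c : ℕ) : ℕ := ((((c : ℤ) - 512) * g) % M).toNat

theorem XX_eq {g M c : ℕ} {x k : ℤ} (h0 : 0 ≤ x) (h1 : x < M)
    (hx : x = ((c : ℤ) - 512) * g - k * M) : (XX g M c : ℤ) = x := by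
  have h2 : ((c : ℤ) - 512) * g = x + k * M := by linarith
  unfold XX
  rw [h2, Int.add_mul_emod_self_right, Int.emod_eq_of_lt h0 h1, Int.toNat_of_nonneg h0]

/-- The hypotheses on a cell. -/
structure CH (n K M : ℕ) (V Y : Finset ℕ) (g u md rho sm yy G w : ℕ) : Prop where
  cex : Cex n V
  hM : M = 2 * n + K
  hK3 : 3 ≤ K
  hK : 700 * K ≤ M
  hpr : ∀ p : ℕ, p.Prime → p ∣ M → 320 < p
  hodd : Odd M
  hgc : Nat.Coprime g M
  hgu : (8 * g) % M = u % M
  hno : ¬ ∃ b ∈ Y, ∃ X ∈ labL M V, (8 * X) % M = (b * u) % M ∨ (8 * X + b * u) % M = 0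
  hyy : ∀ b, tb yy b = true → b ∈ Y ∧ 1 ≤ b ∧ b ≤ 256
  hmd0 : 0 < md
  hrho : rho ≤ md + 1
  hsm : ∀ p : ℕ, p.Prime → p ∣ sm → p ∣ md
  hmdM : Nat.Coprime md M
  hrm : g % md = (rho * M) % md
  hG2 : G + w ≤ 800000
  hw : 1 ≤ w
  hl : G * M ≤ 800000 * g
  hr : 800000 * g ≤ (G + w) * M

/-- A code with its positions. -/
structure Pt (g M G w c a b q : ℕ) (x : ℤ) : Prop where
  c1 : 192 ≤ c
  c2 : c ≤ 832
  a1 : 1143 ≤ a
  a2 : a ≤ 798857
  b1 : 1143 ≤ b
  b2 : b ≤ 798857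
  d0 : c ≠ 512
  ex : x = ((c : ℤ) - 512) * g - ((q : ℤ) - 512) * M
  e : (w : ℤ) * (800000 * x) =
    a * (((G : ℤ) + w) * M - 800000 * g) + b * (800000 * g - G * M)

section

variable {n K M : ℕ} {V Y : Finset ℕ} {g u md rho sm yy G w : ℕ}
  (H : CH n K M V Y g u md rho sm yy G w)
include H

theorem okc_spec {c : ℕ} {k : ℕ → ℕ → ℕ → Bool}
    (h : okc (parOf md rho sm yy G w) c k = true) :
    ∃ (a b q : ℕ) (x : ℤ), k a b q = true ∧ Pt g M G w c a b q x := by
  unfold okc at h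
  simp only [force_eq] at h
  obtain ⟨e1, h⟩ := an_and h
  obtain ⟨e2, h⟩ := an_and h
  obtain ⟨e3, h⟩ := an_and h
  obtain ⟨e4, h⟩ := an_and h
  obtain ⟨e5, h⟩ := an_and h
  obtain ⟨e6, h⟩ := an_and h
  obtain ⟨e7, h⟩ := an_and h
  have hG2 := H.hG2
  refine ⟨_, _, _, ((c : ℤ) - 512) * g -
    (((Nat.div (Nat.add (Nat.mul c G) (512 * (800000 - G))) 800000 : ℕ) : ℤ) - 512) * M, h, ?_⟩
  have f1 : (c * G + 512 * (800000 - G)) / 800000 =
      (c * (G + w) + 512 * (800000 - (G + w))) / 800000 := Nat.eq_of_beq_eq_true e1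
  have f2 : 192 ≤ c := Nat.le_of_ble_eq_true e2
  have f3 : c ≤ 832 := Nat.le_of_ble_eq_true e3
  have f4 : 1143 ≤ (c * G + 512 * (800000 - G)) % 800000 := Nat.le_of_ble_eq_true e4
  have f5 : 1143 ≤ (c * (G + w) + 512 * (800000 - (G + w))) % 800000 :=
    Nat.le_of_ble_eq_true e5
  have f6 : (c * G + 512 * (800000 - G)) % 800000 ≤ 798857 := Nat.le_of_ble_eq_true e6
  have f7 : (c * (G + w) + 512 * (800000 - (G + w))) % 800000 ≤ 798857 :=
    Nat.le_of_ble_eq_true e7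
  have g1 := Nat.div_add_mod (c * G + 512 * (800000 - G)) 800000
  have g2 := Nat.div_add_mod (c * (G + w) + 512 * (800000 - (G + w))) 800000
  rw [← f1] at g2
  obtain ⟨q, hq⟩ : ∃ q, q = (c * G + 512 * (800000 - G)) / 800000 := ⟨_, rfl⟩
  obtain ⟨a, ha⟩ : ∃ a, a = (c * G + 512 * (800000 - G)) % 800000 := ⟨_, rfl⟩
  obtain ⟨b, hb⟩ : ∃ b, b = (c * (G + w) + 512 * (800000 - (G + w))) % 800000 := ⟨_, rfl⟩
  rw [← hq, ← ha] at g1
  rw [← hq, ← hb] at g2
  rw [← ha] at f4 f6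
  rw [← hb] at f5 f7
  have g1' : (800000 * (q : ℤ) + a) = c * G + 512 * (800000 - G) := by
    have : ((800000 * q + a : ℕ) : ℤ) = ((c * G + 512 * (800000 - G) : ℕ) : ℤ) := by rw [g1]
    push_cast [show G ≤ 800000 by omega] at this
    linarith
  have g2' : (800000 * (q : ℤ) + b) = c * (G + w) + 512 * (800000 - (G + w)) := by
    have : ((800000 * q + b : ℕ) : ℤ) = ((c * (G + w) + 512 * (800000 - (G + w)) : ℕ) : ℤ) := by
      rw [g2]
    push_cast [hG2] at this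
    linarith
  have hd0 : c ≠ 512 := by
    rintro rfl
    have h8 : (512 * G + 512 * (800000 - G)) = 512 * 800000 := by omega
    rw [h8] at ha
    norm_num at ha
    omega
  change Pt g M G w c ((c * G + 512 * (800000 - G)) % 800000)
    ((c * (G + w) + 512 * (800000 - (G + w))) % 800000)
    ((c * G + 512 * (800000 - G)) / 800000) (((c : ℤ) - 512) * g -
    ((((c * G + 512 * (800000 - G)) / 800000 : ℕ) : ℤ) - 512) * M)
  rw [← hq, ← ha, ← hb]
  have ha' : (a : ℤ) = ((c : ℤ) - 512) * G - ((q : ℤ) - 512) * 800000 := by linarith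
  have hb' : (b : ℤ) = ((c : ℤ) - 512) * (G + w) - ((q : ℤ) - 512) * 800000 := by linarith
  refine ⟨f2, f3, f4, f6, f5, f7, hd0, rfl, ?_⟩
  rw [ha', hb']
  ring

/-- Linear inequalities which hold at both ends of the cell. -/
theorem ends {i a b q j c d r : ℕ} {x y : ℤ} (hx : Pt g M G w i a b q x)
    (hy : Pt g M G w j c d r y) (α β γ : ℤ) (h1 : 0 ≤ α * a + β * c + γ)
    (h2 : 0 ≤ α * b + β * d + γ) : 0 ≤ α * (800000 * x) + β * (800000 * y) + γ * M := by
  have hP : (0 : ℤ) ≤ ((G : ℤ) + w) * M - 800000 * g := by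
    have : ((800000 * g : ℕ) : ℤ) ≤ (((G + w) * M : ℕ) : ℤ) := by exact_mod_cast H.hr
    push_cast at this
    linarith
  have hQ : (0 : ℤ) ≤ 800000 * g - G * M := by
    have : ((G * M : ℕ) : ℤ) ≤ ((800000 * g : ℕ) : ℤ) := by exact_mod_cast H.hl
    push_cast at this
    linarith
  have hw : (0 : ℤ) < w := by exact_mod_cast H.hw
  have e1 := hx.e
  have e2 := hy.e
  obtain ⟨P, hP'⟩ : ∃ P : ℤ, P = ((G : ℤ) + w) * M - 800000 * g := ⟨_, rfl⟩
  obtain ⟨Q, hQ'⟩ : ∃ Q : ℤ, Q = 800000 * g - G * M := ⟨_, rfl⟩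
  rw [← hP', ← hQ'] at e1 e2
  rw [← hP'] at hP
  rw [← hQ'] at hQ
  have hPQ : P + Q = w * M := by rw [hP', hQ']; ring
  have key : (w : ℤ) * (α * (800000 * x) + β * (800000 * y) + γ * M) =
      (α * a + β * c + γ) * P + (α * b + β * d + γ) * Q := by
    linear_combination α * e1 + β * e2 - γ * hPQ
  have h3 : 0 ≤ (w : ℤ) * (α * (800000 * x) + β * (800000 * y) + γ * M) := by
    rw [key]
    exact add_nonneg (mul_nonneg h1 hP) (mul_nonneg h2 hQ)
  exact nonneg_of_mul_nonneg_right h3 hw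

/-- The margins. -/
theorem marg {i a b q : ℕ} {x : ℤ} (hx : Pt g M G w i a b q x) :
    1143 * (M : ℤ) ≤ 800000 * x ∧ 800000 * x ≤ 798857 * M := by
  have h1 := ends H hx hx 1 0 (-1143) (by have := hx.a1; omega) (by have := hx.b1; omega)
  have h2 := ends H hx hx (-1) 0 798857 (by have := hx.a2; omega) (by have := hx.b2; omega)
  constructor <;> linarith

/-- The margins, in terms of `K`. -/
theorem margK {i a b q : ℕ} {x : ℤ} (hx : Pt g M G w i a b q x) :
    (K : ℤ) ≤ x ∧ x + K ≤ M := by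
  obtain ⟨h1, h2⟩ := marg H hx
  have h3 : (700 : ℤ) * K ≤ M := by exact_mod_cast H.hK
  constructor <;> linarith

theorem XX_pt {i a b q : ℕ} {x : ℤ} (hx : Pt g M G w i a b q x) : (XX g M i : ℤ) = x := by
  have h1 := margK H hx
  have h2 := H.hK3
  exact XX_eq (by omega) (by omega) hx.ex

/-- Coprimality with `M`. -/
theorem copM {i a b q : ℕ} {x : ℤ} (hx : Pt g M G w i a b q x) : Nat.Coprime M (XX g M i) := by
  refine Nat.Coprime.symm (Nat.Coprime.symm ?_)
  refine (Nat.coprime_of_dvd ?_)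
  intro p hp h1 h2
  have h3 : (p : ℤ) ∣ x := by
    rw [← XX_pt H hx]
    exact_mod_cast h2
  rw [hx.ex] at h3
  have h4 : (p : ℤ) ∣ M := by exact_mod_cast h1
  have h5 : (p : ℤ) ∣ ((i : ℤ) - 512) * g := by
    have := (Int.dvd_add_right (Dvd.dvd.mul_left h4 (-((q : ℤ) - 512)))).1
      (show (p : ℤ) ∣ -((q : ℤ) - 512) * M + ((i : ℤ) - 512) * g by
        have e : -((q : ℤ) - 512) * M + ((i : ℤ) - 512) * g =
          ((i : ℤ) - 512) * g - ((q : ℤ) - 512) * M := by ring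
        rw [e]; exact h3)
    exact this
  have hp' : Prime (p : ℤ) := Nat.prime_iff_prime_int.1 hp
  rcases hp'.dvd_or_dvd h5 with h6 | h6
  · have h7 := H.hpr p hp h1
    have h8 := hx.c1
    have h9 := hx.c2
    have h10 := hx.d0
    obtain ⟨e, he⟩ := h6
    rcases lt_trichotomy e 0 with h11 | h11 | h11
    · nlinarith
    · rw [h11] at he
      omega
    · nlinarith
  · have h7 : p ∣ g := by exact_mod_cast h6
    have h8 := Nat.dvd_gcd h7 h1
    rw [H.hgc] at h8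
    exact hp.one_lt.ne' (Nat.dvd_one.1 h8)

/-- Coprimality of two codes. -/
theorem cop_spec {i a b q j c d r : ℕ} {x y : ℤ} (hx : Pt g M G w i a b q x)
    (hy : Pt g M G w j c d r y) (h : cop (parOf md rho sm yy G w) i q j r = true) :
    Nat.Coprime (XX g M i) (XX g M j) := by
  refine Nat.coprime_of_dvd ?_
  intro p hp hpi hpj
  have hp' : Prime (p : ℤ) := Nat.prime_iff_prime_int.1 hp
  have hpx : (p : ℤ) ∣ x := by
    rw [← XX_pt H hx]
    exact_mod_cast hpi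
  have hpy : (p : ℤ) ∣ y := by
    rw [← XX_pt H hy]
    exact_mod_cast hpj
  unfold cop det at h
  simp only [force_eq] at h
  obtain ⟨h1, h2⟩ := an_and h
  obtain ⟨P, hP⟩ : ∃ P, P = Nat.add (Nat.mul i r) (Nat.mul 512 (Nat.add j q)) := ⟨_, rfl⟩
  obtain ⟨N, hN⟩ : ∃ N, N = Nat.add (Nat.mul j q) (Nat.mul 512 (Nat.add i r)) := ⟨_, rfl⟩
  obtain ⟨D, hD⟩ : ∃ D, D = Nat.add (Nat.sub P N) (Nat.sub N P) := ⟨_, rfl⟩
  rw [← hP, ← hN, ← hD] at h1 h2
  have hP2 : (P : ℤ) = i * r + 512 * (j + q) := by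
    have : P = i * r + 512 * (j + q) := hP
    rw [this]; push_cast; ring
  have hN2 : (N : ℤ) = j * q + 512 * (i + r) := by
    have : N = j * q + 512 * (i + r) := hN
    rw [this]; push_cast; ring
  have hD2 : D = (P - N) + (N - P) := hD
  obtain ⟨δ, hδ⟩ : ∃ δ : ℤ, δ = ((i : ℤ) - 512) * ((r : ℤ) - 512) -
    ((j : ℤ) - 512) * ((q : ℤ) - 512) := ⟨_, rfl⟩
  have hδ2 : δ = P - N := by rw [hδ, hP2, hN2]; ring
  have hDδ : (D : ℤ) = δ ∨ (D : ℤ) = -δ := by omega
  have hgx : (p : ℤ) ∣ δ * M := by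
    have e : δ * M = ((j : ℤ) - 512) * x - ((i : ℤ) - 512) * y := by
      rw [hx.ex, hy.ex, hδ]; ring
    rw [e]
    exact dvd_sub (Dvd.dvd.mul_left hpx _) (Dvd.dvd.mul_left hpy _)
  have hgy : (p : ℤ) ∣ δ * g := by
    have e : δ * g = ((r : ℤ) - 512) * x - ((q : ℤ) - 512) * y := by
      rw [hx.ex, hy.ex, hδ]; ring
    rw [e]
    exact dvd_sub (Dvd.dvd.mul_left hpx _) (Dvd.dvd.mul_left hpy _)
  have hpδ : (p : ℤ) ∣ δ := by
    rcases hp'.dvd_or_dvd hgx with h3 | h3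
    · exact h3
    · rcases hp'.dvd_or_dvd hgy with h4 | h4
      · exact h4
      · exfalso
        have h5 : p ∣ M := by exact_mod_cast h3
        have h6 : p ∣ g := by exact_mod_cast h4
        have h8 := Nat.dvd_gcd h6 h5
        rw [H.hgc] at h8
        exact hp.one_lt.ne' (Nat.dvd_one.1 h8)
  have hpD : p ∣ D := by
    have : (p : ℤ) ∣ D := by
      rcases hDδ with h3 | h3
      · rw [h3]; exact hpδ
      · rw [h3]; exact hpδ.neg_right
    exact_mod_cast this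
  have hDsm : D ∣ sm := Nat.dvd_of_mod_eq_zero (Nat.eq_of_beq_eq_true h1)
  have hpmd : p ∣ md := H.hsm p hp (hpD.trans hDsm)
  have hpM : ¬ (p : ℤ) ∣ M := by
    intro h3
    have h5 : p ∣ M := by exact_mod_cast h3
    have h8 := Nat.dvd_gcd hpmd h5
    rw [H.hmdM] at h8
    exact hp.one_lt.ne' (Nat.dvd_one.1 h8)
  have hee : ∀ (i q : ℕ) (x : ℤ), x = ((i : ℤ) - 512) * g - ((q : ℤ) - 512) * M →
      (p : ℤ) ∣ x → p ∣ ee (parOf md rho sm yy G w) i q := by
    intro i q x hx hpx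
    have h3 : ee (parOf md rho sm yy G w) i q =
      (i * rho + (md - 1) * q + 512 * (md + 1 - rho)) % md := rfl
    rw [h3, Nat.dvd_mod_iff hpmd]
    have h4 : ((i * rho + (md - 1) * q + 512 * (md + 1 - rho) : ℕ) : ℤ) =
        (((i : ℤ) - 512) * rho - ((q : ℤ) - 512)) + md * (q + 512) := by
      have := H.hmd0
      have := H.hrho
      push_cast [show 1 ≤ md by omega, show rho ≤ md + 1 by omega]
      ring
    have h5 : (p : ℤ) ∣ (((i : ℤ) - 512) * rho - ((q : ℤ) - 512)) * M := by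
      have h6 : (md : ℤ) ∣ (g : ℤ) - rho * M := by
        have := H.hrm
        have h7 : ((g : ℕ) : ℤ) % (md : ℤ) = ((rho * M : ℕ) : ℤ) % (md : ℤ) := by
          exact_mod_cast this
        have h9 := Int.ModEq.dvd (show (rho * M : ℕ) ≡ (g : ℤ) [ZMOD md] from h7.symm)
        push_cast at h9
        exact h9
      have h7 : (p : ℤ) ∣ (g : ℤ) - rho * M := (Int.natCast_dvd_natCast.2 hpmd).trans h6
      have e : (((i : ℤ) - 512) * rho - ((q : ℤ) - 512)) * M =
          x - ((i : ℤ) - 512) * ((g : ℤ) - rho * M) := by rw [hx]; ring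
      rw [e]
      exact dvd_sub hpx (Dvd.dvd.mul_left h7 _)
    have h6 : (p : ℤ) ∣ (((i : ℤ) - 512) * rho - ((q : ℤ) - 512)) := by
      rcases hp'.dvd_or_dvd h5 with h7 | h7
      · exact h7
      · exact absurd h7 hpM
    have h7 : (p : ℤ) ∣ ((i * rho + (md - 1) * q + 512 * (md + 1 - rho) : ℕ) : ℤ) := by
      rw [h4]
      exact dvd_add h6 (Dvd.dvd.mul_right (Int.natCast_dvd_natCast.2 hpmd) _)
    exact_mod_cast h7
  have h3 := hee i q x hx.ex hpx
  have h4 := hee j r y hy.ex hpy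
  have h5 := Nat.dvd_gcd (Nat.dvd_gcd h3 h4) (Nat.dvd_gcd hpD hpmd)
  have h6 : Nat.gcd (Nat.gcd (ee (parOf md rho sm yy G w) i q)
    (ee (parOf md rho sm yy G w) j r)) (Nat.gcd D md) = 1 := Nat.eq_of_beq_eq_true h2
  rw [h6] at h5
  exact hp.one_lt.ne' (Nat.dvd_one.1 h5)

omit H in
/-- The sum of two codes. -/
theorem XX_lin {i a b q j c d r e : ℕ} {x y : ℤ} (hx : Pt g M G w i a b q x)
    (hy : Pt g M G w j c d r y) (α β : ℤ) (he : (e : ℤ) - 512 = α * ((i : ℤ) - 512) +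
      β * ((j : ℤ) - 512)) (h0 : 0 ≤ α * x + β * y) (h1 : α * x + β * y < M) :
    (XX g M e : ℤ) = α * x + β * y := by
  refine XX_eq (k := α * ((q : ℤ) - 512) + β * ((r : ℤ) - 512)) h0 h1 ?_
  rw [he, hx.ex, hy.ex]
  ring

theorem f_tri (i j : ℕ) (h : tri (parOf md rho sm yy G w) i j = true) (hi : XX g M i ∉ V)
    (hj : XX g M j ∉ V) : XX g M (cz i j) ∈ V := by
  unfold tri at h
  obtain ⟨a, b, q, x, h, hx⟩ := okc_spec H h
  obtain ⟨c, d, r, y, h, hy⟩ := okc_spec H h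
  dsimp only at h
  obtain ⟨e1, h⟩ := an_and h
  obtain ⟨e2, h⟩ := an_and h
  obtain ⟨e3, h⟩ := an_and h
  obtain ⟨e4, h⟩ := an_and h
  obtain ⟨e5, h⟩ := an_and h
  obtain ⟨e6, h⟩ := an_and h
  obtain ⟨e7, h⟩ := an_and h
  obtain ⟨e8, h⟩ := an_and h
  obtain ⟨e9, h⟩ := an_and h
  obtain ⟨e10, e11⟩ := an_and h
  have g1 : 512 ≤ i + j := Nat.le_of_ble_eq_true e1
  have g2 : a ≤ c := Nat.le_of_ble_eq_true e2
  have g3 : b ≤ d := Nat.le_of_ble_eq_true e3
  have g4 : 800000 ≤ (a + c) + (a + c) := Nat.le_of_ble_eq_true e4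
  have g5 : 800000 ≤ (b + d) + (b + d) := Nat.le_of_ble_eq_true e5
  have g6 : a + c ≤ 798857 := Nat.le_of_ble_eq_true e6
  have g7 : b + d ≤ 798857 := Nat.le_of_ble_eq_true e7
  have g8 : 800000 ≤ a + (c + c) := Nat.le_of_ble_eq_true e8
  have g9 : 800000 ≤ b + (d + d) := Nat.le_of_ble_eq_true e9
  have hc := cop_spec H hx hy e11
  have kx := margK H hx
  have ky := margK H hy
  have hK3 := H.hK3
  have hM := H.hM
  have hMz : (M : ℤ) = 2 * n + K := by exact_mod_cast hM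
  have hK : (700 : ℤ) * K ≤ M := by exact_mod_cast H.hK
  have k2 := ends H hx hy (-1) 1 0 (by omega) (by omega)
  have k4 := ends H hx hy 2 2 (-800000) (by omega) (by omega)
  have k6 := ends H hx hy (-1) (-1) 798857 (by omega) (by omega)
  have k8 := ends H hx hy 1 2 (-800000) (by omega) (by omega)
  have hXi := XX_pt H hx
  have hXj := XX_pt H hy
  have hXz : (XX g M (cz i j) : ℤ) = 1 * x + 1 * y := by
    refine XX_lin hx hy 1 1 ?_ (by omega) (by omega)
    have : cz i j = i + j - 512 := rfl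
    rw [this]
    push_cast [g1]
    ring
  have hs : XX g M (cz i j) = XX g M i + XX g M j := by omega
  have hne : XX g M i ≠ XX g M j := by
    intro h12
    rw [h12, Nat.coprime_self] at hc
    omega
  have h3 : (XX g M j ≤ n ∧ 2 * n < XX g M i + 2 * XX g M j) ∨ (n < XX g M j ∧
      (2 * n < 2 * XX g M i + XX g M j ∨ XX g M i + 2 * XX g M j ≤ 3 * n + 3)) := by
    rcases ro_or e10 with e12 | e12
    · obtain ⟨e13, e14⟩ := an_and e12
      have g10 : c + c ≤ 798857 := Nat.le_of_ble_eq_true e13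
      have g11 : d + d ≤ 798857 := Nat.le_of_ble_eq_true e14
      have k10 := ends H hx hy 0 (-2) 798857 (by omega) (by omega)
      left
      constructor <;> omega
    · rcases ro_or e12 with e12 | e12
      · obtain ⟨e13, e14⟩ := an_and e12
        have g10 : 800000 ≤ (a + a) + c := Nat.le_of_ble_eq_true e13
        have g11 : 800000 ≤ (b + b) + d := Nat.le_of_ble_eq_true e14
        have k10 := ends H hx hy 2 1 (-800000) (by omega) (by omega)
        omega
      · obtain ⟨e13, e14⟩ := an_and e12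
        have g10 : (a + (c + c)) + (a + (c + c)) ≤ 2396571 := Nat.le_of_ble_eq_true e13
        have g11 : (b + (d + d)) + (b + (d + d)) ≤ 2396571 := Nat.le_of_ble_eq_true e14
        have k10 := ends H hx hy (-2) (-4) 2396571 (by omega) (by omega)
        omega
  rw [hs]
  exact H.cex.tri (by omega) (by omega) hc (by omega) (by omega) h3 hi hj

theorem f_t4 (i j : ℕ) (h : t4 (parOf md rho sm yy G w) i j = true) (hi : XX g M i ∉ V)
    (hj : XX g M j ∉ V) (hz : XX g M (cz i j) ∉ V) (hu : XX g M (cu i j) ∉ V) : False := by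
  unfold t4 at h
  obtain ⟨a, b, q, x, h, hx⟩ := okc_spec H h
  obtain ⟨c, d, r, y, h, hy⟩ := okc_spec H h
  dsimp only at h
  obtain ⟨e1, h⟩ := an_and h
  obtain ⟨e2, h⟩ := an_and h
  obtain ⟨e3, h⟩ := an_and h
  obtain ⟨e4, h⟩ := an_and h
  obtain ⟨e5, h⟩ := an_and h
  obtain ⟨e6, h⟩ := an_and h
  obtain ⟨e7, h⟩ := an_and h
  obtain ⟨e8, e9⟩ := an_and h
  have g1 : 512 ≤ i + j := Nat.le_of_ble_eq_true e1
  have g2 : 1024 ≤ (i + i) + j := Nat.le_of_ble_eq_true e2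
  have g3 : 800000 ≤ (a + c) + (a + c) := Nat.le_of_ble_eq_true e3
  have g4 : 800000 ≤ (b + d) + (b + d) := Nat.le_of_ble_eq_true e4
  have g5 : 800000 ≤ a + (c + c) := Nat.le_of_ble_eq_true e5
  have g6 : 800000 ≤ b + (d + d) := Nat.le_of_ble_eq_true e6
  have g7 : (a + a) + c ≤ 798857 := Nat.le_of_ble_eq_true e7
  have g8 : (b + b) + d ≤ 798857 := Nat.le_of_ble_eq_true e8
  have hc := cop_spec H hx hy e9
  have kx := margK H hx
  have ky := margK H hy
  have hK3 := H.hK3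
  have hM := H.hM
  have hMz : (M : ℤ) = 2 * n + K := by exact_mod_cast hM
  have hK : (700 : ℤ) * K ≤ M := by exact_mod_cast H.hK
  have k3 := ends H hx hy 2 2 (-800000) (by omega) (by omega)
  have k5 := ends H hx hy 1 2 (-800000) (by omega) (by omega)
  have k7 := ends H hx hy (-2) (-1) 798857 (by omega) (by omega)
  have hXi := XX_pt H hx
  have hXj := XX_pt H hy
  have hXz : (XX g M (cz i j) : ℤ) = 1 * x + 1 * y := by
    refine XX_lin hx hy 1 1 ?_ (by omega) (by omega)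
    have : cz i j = i + j - 512 := rfl
    rw [this]
    push_cast [g1]
    ring
  have hXu : (XX g M (cu i j) : ℤ) = 2 * x + 1 * y := by
    refine XX_lin hx hy 2 1 ?_ (by omega) (by omega)
    have : cu i j = (i + i) + j - 1024 := rfl
    rw [this]
    push_cast [g2]
    ring
  have hs : XX g M (cz i j) = XX g M i + XX g M j := by omega
  have hs2 : XX g M (cu i j) = 2 * XX g M i + XX g M j := by omega
  rw [hs] at hz
  rw [hs2] at hu
  exact hu (H.cex.T4 (by omega) (by omega) hc (by omega) (by omega) (by omega) hi hj hz)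

theorem XX_c2 {i a b q : ℕ} {x : ℤ} (hx : Pt g M G w i a b q x) (hi : 256 ≤ i)
    (h1 : 2 * x < M) : XX g M (c2 i) = 2 * XX g M i := by
  have kx := margK H hx
  have hK3 := H.hK3
  have hXi := XX_pt H hx
  have hX2 : (XX g M (c2 i) : ℤ) = 2 * x + 0 * x := by
    refine XX_lin hx hx 2 0 ?_ (by omega) (by omega)
    have : c2 i = i + i - 512 := rfl
    rw [this]
    push_cast [show 512 ≤ i + i by omega]
    ring
  omega

theorem f_db (i : ℕ) (h : db (parOf md rho sm yy G w) i = true) (hi : XX g M i ∉ V) :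
    XX g M (c2 i) ∈ V := by
  unfold db at h
  obtain ⟨a, b, q, x, h, hx⟩ := okc_spec H h
  dsimp only at h
  obtain ⟨e1, h⟩ := an_and h
  have g1 : 256 ≤ i := Nat.le_of_ble_eq_true e1
  have kx := margK H hx
  have hK3 := H.hK3
  have hM := H.hM
  have hMz : (M : ℤ) = 2 * n + K := by exact_mod_cast hM
  have hK : (700 : ℤ) * K ≤ M := by exact_mod_cast H.hK
  have hXi := XX_pt H hx
  rcases ro_or h with h | h
  · obtain ⟨e2, e3⟩ := an_and h
    have g2 : (a + a) + (a + a) ≤ 796571 := Nat.le_of_ble_eq_true e2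
    have g3 : (b + b) + (b + b) ≤ 796571 := Nat.le_of_ble_eq_true e3
    have k2 := ends H hx hx (-4) 0 796571 (by omega) (by omega)
    rw [XX_c2 H hx g1 (by omega)]
    refine H.cex.dbl (z := M) (by omega) (copM H hx) (by omega) (by omega) hi
  · obtain ⟨e2, h⟩ := an_and h
    obtain ⟨e3, h⟩ := an_and h
    obtain ⟨e4, e5⟩ := an_and h
    have g2 : 800000 ≤ (a + a) + a := Nat.le_of_ble_eq_true e2
    have g3 : 800000 ≤ (b + b) + b := Nat.le_of_ble_eq_true e3
    have g4 : a + a ≤ 798857 := Nat.le_of_ble_eq_true e4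
    have g5 : b + b ≤ 798857 := Nat.le_of_ble_eq_true e5
    have k2 := ends H hx hx 3 0 (-800000) (by omega) (by omega)
    have k4 := ends H hx hx (-2) 0 798857 (by omega) (by omega)
    rw [XX_c2 H hx g1 (by omega)]
    exact H.cex.dblHigh (by omega) (by omega) hi

theorem f_d2 (i j : ℕ) (h : d2 (parOf md rho sm yy G w) i j = true) (hi : XX g M i ∉ V)
    (hz : XX g M (c2 i) ∉ V) (hj : XX g M j ∉ V) : False := by
  unfold d2 at h
  obtain ⟨a, b, q, x, h, hx⟩ := okc_spec H h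
  obtain ⟨c, d, r, y, h, hy⟩ := okc_spec H h
  dsimp only at h
  obtain ⟨e1, h⟩ := an_and h
  obtain ⟨e2, h⟩ := an_and h
  obtain ⟨e3, h⟩ := an_and h
  obtain ⟨e4, h⟩ := an_and h
  obtain ⟨e5, h⟩ := an_and h
  obtain ⟨e6, h⟩ := an_and h
  obtain ⟨e7, e8⟩ := an_and h
  have g1 : 256 ≤ i := Nat.le_of_ble_eq_true e1
  have g2 : 800000 ≤ a + c := Nat.le_of_ble_eq_true e2
  have g3 : 800000 ≤ b + d := Nat.le_of_ble_eq_true e3
  have g4 : (c + (a + a)) + (c + (a + a)) ≤ 2396571 := Nat.le_of_ble_eq_true e4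
  have g5 : (d + (b + b)) + (d + (b + b)) ≤ 2396571 := Nat.le_of_ble_eq_true e5
  have g6 : a + a ≤ 798857 := Nat.le_of_ble_eq_true e6
  have g7 : b + b ≤ 798857 := Nat.le_of_ble_eq_true e7
  have hc := cop_spec H hy hx e8
  have kx := margK H hx
  have ky := margK H hy
  have hK3 := H.hK3
  have hM := H.hM
  have hMz : (M : ℤ) = 2 * n + K := by exact_mod_cast hM
  have hK : (700 : ℤ) * K ≤ M := by exact_mod_cast H.hK
  have k2 := ends H hx hy 1 1 (-800000) (by omega) (by omega)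
  have k4 := ends H hx hy (-4) (-2) 2396571 (by omega) (by omega)
  have k6 := ends H hx hy (-2) 0 798857 (by omega) (by omega)
  have hXi := XX_pt H hx
  have hXj := XX_pt H hy
  rw [XX_c2 H hx g1 (by omega)] at hz
  exact hj (H.cex.D2 (by omega) (by omega) hc (by omega) (by omega) hi hz)

theorem f_d3 (i : ℕ) (h : d3 (parOf md rho sm yy G w) i = true) (hi : XX g M i ∉ V)
    (hz : XX g M (c2 i) ∉ V) (hj : XX g M (c3 i) ∉ V) : False := by
  unfold d3 at h
  obtain ⟨a, b, q, x, h, hx⟩ := okc_spec H h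
  dsimp only at h
  obtain ⟨e1, h⟩ := an_and h
  obtain ⟨e2, e3⟩ := an_and h
  have g1 : 342 ≤ i := Nat.le_of_ble_eq_true e1
  have g2 : (a + a) + a ≤ 797714 := Nat.le_of_ble_eq_true e2
  have g3 : (b + b) + b ≤ 797714 := Nat.le_of_ble_eq_true e3
  have kx := margK H hx
  have hK3 := H.hK3
  have hM := H.hM
  have hMz : (M : ℤ) = 2 * n + K := by exact_mod_cast hM
  have hK : (700 : ℤ) * K ≤ M := by exact_mod_cast H.hK
  have k2 := ends H hx hx (-3) 0 797714 (by omega) (by omega)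
  have hXi := XX_pt H hx
  have hX3 : (XX g M (c3 i) : ℤ) = 3 * x + 0 * x := by
    refine XX_lin hx hx 3 0 ?_ (by omega) (by omega)
    have : c3 i = (i + i) + i - 1024 := rfl
    rw [this]
    push_cast [show 1024 ≤ (i + i) + i by omega]
    ring
  have hs : XX g M (c3 i) = 3 * XX g M i := by omega
  rw [XX_c2 H hx (by omega) (by omega)] at hz
  rw [hs] at hj
  exact hj (H.cex.D3 (z := M) (by omega) (copM H hx) (by omega) (by omega) hi hz)

/-- The label of a code. -/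
theorem lab_pt {x : ℕ} (h1 : 256 ≤ x) (h2 : x ≤ 768) (h3 : x ≠ 512) :
    ∃ (X : ℕ) (k s : ℤ), (s = 1 ∨ s = -1) ∧ 1 ≤ X ∧ 2 * X < M ∧
      (X : ℤ) = s * (((x : ℤ) - 512) * g) - k * M := by
  have hM := H.hM
  have hK := H.hK
  have hK3 := H.hK3
  have hM0 : (0 : ℤ) < M := by omega
  obtain ⟨r, hr⟩ : ∃ r : ℤ, r = (((x : ℤ) - 512) * g) % M := ⟨_, rfl⟩
  obtain ⟨q, hq⟩ : ∃ q : ℤ, q = (((x : ℤ) - 512) * g) / M := ⟨_, rfl⟩
  have hr0 : 0 ≤ r := by rw [hr]; exact Int.emod_nonneg _ hM0.ne'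
  have hr1 : r < M := by rw [hr]; exact Int.emod_lt_of_pos _ hM0
  have hrq : (M : ℤ) * q + r = ((x : ℤ) - 512) * g := by
    rw [hr, hq]; exact Int.mul_ediv_add_emod _ _
  have hne : r ≠ 0 := by
    intro h0
    have h4 : (M : ℤ) ∣ ((x : ℤ) - 512) * g := ⟨q, by rw [← hrq, h0]; ring⟩
    have h5 : IsCoprime (M : ℤ) (g : ℤ) := Nat.isCoprime_iff_coprime.2 H.hgc.symm
    have h6 := h5.dvd_of_dvd_mul_right h4
    have h7 := Int.eq_zero_of_abs_lt_dvd h6 (by rw [abs_lt]; constructor <;> omega)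
    omega
  have hodd : (2 : ℤ) * r ≠ M := by
    obtain ⟨e, he⟩ := H.hodd
    omega
  by_cases h4 : 2 * r < M
  · refine ⟨r.toNat, q, 1, Or.inl rfl, by omega, by omega, ?_⟩
    rw [Int.toNat_of_nonneg hr0, ← hrq]
    ring
  · refine ⟨((M : ℤ) - r).toNat, -q - 1, -1, Or.inr rfl, by omega, by omega, ?_⟩
    rw [Int.toNat_of_nonneg (by omega), ← hrq]
    ring

theorem f_lb (x : ℕ) (h : lab (parOf md rho sm yy G w) x = true) (h2 : XX g M (c2 x) ∈ V)
    (h3 : XX g M (c2 (cn x)) ∈ V) : XX g M x ∉ V ∧ XX g M (cn x) ∉ V := by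
  obtain ⟨b, hb⟩ : ∃ b, b = (x - 512) + (512 - x) := ⟨_, rfl⟩
  have hlab : tb yy b = true := by
    rw [hb]
    exact h
  obtain ⟨hbY, hb1, hb2⟩ := H.hyy b hlab
  have hM := H.hM
  have hK := H.hK
  have hK3 := H.hK3
  obtain ⟨X, k, s, hs, hX1, hX2, hXe⟩ := lab_pt H (x := x) (by omega) (by omega) (by omega)
  have hXM : Nat.Coprime X M := by
    refine Nat.coprime_of_dvd ?_
    intro p hp hpX hpM
    have hp' : Prime (p : ℤ) := Nat.prime_iff_prime_int.1 hp
    have h4 : (p : ℤ) ∣ M := by exact_mod_cast hpM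
    have h5 : (p : ℤ) ∣ X := by exact_mod_cast hpX
    have h6 : (p : ℤ) ∣ ((x : ℤ) - 512) * g := by
      have e : ((x : ℤ) - 512) * g = s * X + s * k * M := by
        rw [hXe]
        rcases hs with rfl | rfl <;> ring
      rw [e]
      exact dvd_add (Dvd.dvd.mul_left h5 _) (Dvd.dvd.mul_left h4 _)
    rcases hp'.dvd_or_dvd h6 with h7 | h7
    · have h8 := H.hpr p hp hpM
      have h9 := Int.eq_zero_of_abs_lt_dvd h7 (by rw [abs_lt]; constructor <;> omega)
      omega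
    · have h7 : p ∣ g := by exact_mod_cast h7
      have h8 := Nat.dvd_gcd h7 hpM
      rw [H.hgc] at h8
      exact hp.one_lt.ne' (Nat.dvd_one.1 h8)
  have hIu : X ∈ Iu M := (mem_Iu H.hodd).2 ⟨⟨hX1, hX2⟩, hXM⟩
  -- the values of the codes
  have hv : ∀ (e : ℕ) (t : ℤ), (e : ℤ) - 512 = t * (s * ((x : ℤ) - 512)) → (0 ≤ t * X) →
      t * X < M → (XX g M e : ℤ) = t * X := by
    intro e t he h4 h5
    refine XX_eq (k := t * k) h4 h5 ?_
    rw [he, hXe]; ring
  have hv' : ∀ (e : ℕ) (t : ℤ), (e : ℤ) - 512 = -t * (s * ((x : ℤ) - 512)) → (0 < t * X) →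
      t * X ≤ M → (XX g M e : ℤ) = M - t * X := by
    intro e t he h4 h5
    refine XX_eq (k := -t * k - 1) (by omega) (by omega) ?_
    rw [he, hXe]; ring
  have hcn : ((cn x : ℕ) : ℤ) = 1024 - x := by
    have : cn x = 1024 - x := rfl
    rw [this]
    push_cast [show x ≤ 1024 by omega]
    ring
  have hc2 : ((c2 x : ℕ) : ℤ) - 512 = 2 * ((x : ℤ) - 512) := by
    have : c2 x = x + x - 512 := rfl
    rw [this]
    push_cast [show 512 ≤ x + x by omega]
    ring
  have hc2n : ((c2 (cn x) : ℕ) : ℤ) - 512 = -2 * ((x : ℤ) - 512) := by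
    have h4 : cn x = 1024 - x := rfl
    have : c2 (cn x) = cn x + cn x - 512 := rfl
    rw [this]
    push_cast [show 512 ≤ cn x + cn x by omega]
    rw [hcn]
    ring
  have hvals : (2 * X ∈ V ∧ M - 2 * X ∈ V) ∧ ((XX g M x = X ∧ XX g M (cn x) = M - X) ∨
      (XX g M x = M - X ∧ XX g M (cn x) = X)) := by
    rcases hs with rfl | rfl
    · have v1 := hv (c2 x) 2 (by rw [hc2]; ring) (by omega) (by omega)
      have v2 := hv' (c2 (cn x)) 2 (by rw [hc2n]; ring) (by omega) (by omega)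
      have v3 := hv x 1 (by ring) (by omega) (by omega)
      have v4 := hv' (cn x) 1 (by rw [hcn]; ring) (by omega) (by omega)
      have w1 : XX g M (c2 x) = 2 * X := by omega
      have w2 : XX g M (c2 (cn x)) = M - 2 * X := by omega
      rw [w1] at h2
      rw [w2] at h3
      exact ⟨⟨h2, h3⟩, Or.inl ⟨by omega, by omega⟩⟩
    · have v1 := hv (c2 (cn x)) 2 (by rw [hc2n]; ring) (by omega) (by omega)
      have v2 := hv' (c2 x) 2 (by rw [hc2]; ring) (by omega) (by omega)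
      have v3 := hv (cn x) 1 (by rw [hcn]; ring) (by omega) (by omega)
      have v4 := hv' x 1 (by ring) (by omega) (by omega)
      have w1 : XX g M (c2 (cn x)) = 2 * X := by omega
      have w2 : XX g M (c2 x) = M - 2 * X := by omega
      rw [w1] at h3
      rw [w2] at h2
      exact ⟨⟨h3, h2⟩, Or.inr ⟨by omega, by omega⟩⟩
  by_contra hcon
  apply H.hno
  refine ⟨b, hbY, X, ?_, ?_⟩
  · rw [labL, mem_filter]
    refine ⟨hIu, hvals.1, fun h4 => hcon ?_⟩
    rcases hvals.2 with ⟨h5, h6⟩ | ⟨h5, h6⟩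
    · rw [h5, h6]; exact ⟨h4.1, h4.2⟩
    · rw [h5, h6]; exact ⟨h4.2, h4.1⟩
  · have hgu : (M : ℤ) ∣ 8 * (g : ℤ) - u := by
      have h4 := H.hgu
      have h5 := (Nat.modEq_iff_dvd.1 (show (u : ℕ) ≡ 8 * g [MOD M] from h4.symm))
      push_cast at h5
      exact h5
    obtain ⟨l, hl⟩ := hgu
    have hbz : ((x : ℤ) - 512) = b ∨ ((x : ℤ) - 512) = -b := by omega
    have hσ : ∃ σ : ℤ, (σ = 1 ∨ σ = -1) ∧ s * ((x : ℤ) - 512) = σ * b := by
      rcases hs with rfl | rfl <;> rcases hbz with h4 | h4 <;> rw [h4]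
      · exact ⟨1, Or.inl rfl, by ring⟩
      · exact ⟨-1, Or.inr rfl, by ring⟩
      · exact ⟨-1, Or.inr rfl, by ring⟩
      · exact ⟨1, Or.inl rfl, by ring⟩
    obtain ⟨σ, hσ, hσb⟩ := hσ
    have h8 : (8 : ℤ) * X = σ * (b * u) + (σ * b * l - 8 * k) * M := by
      have e1 : (X : ℤ) = (s * ((x : ℤ) - 512)) * g - k * M := by rw [hXe]; ring
      rw [hσb] at e1
      have e2 : (8 : ℤ) * g = u + M * l := by linarith
      rw [e1]
      linear_combination (σ * b) * e2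
    rcases hσ with rfl | rfl
    · left
      have h9 : (b * u : ℕ) ≡ 8 * X [MOD M] := by
        rw [Nat.modEq_iff_dvd]
        push_cast
        exact ⟨1 * b * l - 8 * k, by rw [h8]; ring⟩
      exact h9.symm
    · right
      have h9 : (M : ℤ) ∣ ((8 * X + b * u : ℕ) : ℤ) := by
        push_cast
        exact ⟨-1 * b * l - 8 * k, by rw [h8]; ring⟩
      exact Nat.mod_eq_zero_of_dvd (by exact_mod_cast h9)

/-- **The facts of the checker hold in a cell.** -/
theorem tf_of : TF (parOf md rho sm yy G w) (fun c => XX g M c ∈ V) where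
  tri i j h hi hj := f_tri H i j h hi hj
  t4 i j h hi hj hz hu := f_t4 H i j h hi hj hz hu
  db i h hi := f_db H i h hi
  d2 i j h hi hz hj := f_d2 H i j h hi hz hj
  d3 i h hi hz hj := f_d3 H i h hi hz hj
  lb x h h2 h3 := f_lb H x h h2 h3

/-- The speed `u` has the code `520`. -/
theorem XX_u (hu : u < M) : XX g M 520 = u := by
  have h1 : (((520 : ℕ) : ℤ) - 512) * g = ((8 * g : ℕ) : ℤ) := by push_cast; ring
  unfold XX
  rw [h1, ← Int.natCast_mod, H.hgu, Nat.mod_eq_of_lt hu]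
  simp

end

/-- An accepted cell: `u = 8 g` is not a speed. -/
theorem cell_no {n K M : ℕ} {V Y : Finset ℕ} {g u md rho sm yy G w s : ℕ}
    (hc : cell md rho sm yy G w s = true) (hcex : Cex n V) (hM : M = 2 * n + K) (hK3 : 3 ≤ K)
    (hK : 700 * K ≤ M) (hpr : ∀ p : ℕ, p.Prime → p ∣ M → 320 < p) (hodd : Odd M)
    (hgc : Nat.Coprime g M) (hgu : (8 * g) % M = u % M) (hu : u < M) (huV : u ∈ V)
    (hno : ¬ ∃ b ∈ Y, ∃ X ∈ labL M V, (8 * X) % M = (b * u) % M ∨ (8 * X + b * u) % M = 0)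
    (hyy : ∀ b, tb yy b = true → b ∈ Y ∧ 1 ≤ b ∧ b ≤ 256) (hmd0 : 0 < md) (hrho : rho ≤ md + 1)
    (hsm : ∀ p : ℕ, p.Prime → p ∣ sm → p ∣ md) (hmdM : Nat.Coprime md M)
    (hrm : g % md = (rho * M) % md) (hl : G * M ≤ 800000 * g) (hr : 800000 * g ≤ (G + w) * M) :
    False := by
  have h1 : G + w ≤ 800000 ∧ 1 ≤ w := by
    unfold cell at hc
    obtain ⟨h1, hc⟩ := an_and hc
    obtain ⟨h2, hc⟩ := an_and hc
    exact ⟨Nat.le_of_ble_eq_true h1, Nat.le_of_ble_eq_true h2⟩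
  have H : CH n K M V Y g u md rho sm yy G w := ⟨hcex, hM, hK3, hK, hpr, hodd, hgc, hgu, hno, hyy,
    hmd0, hrho, hsm, hmdM, hrm, h1.1, h1.2, hl, hr⟩
  have h2 := (cell_rs hc (tf_of H)).2.2
  apply h2
  rw [XX_u H hu]
  exact huV

end Pool.Agent.LR4.TC
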