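import Pool.Agent.LR4.TabWalk
import Pool.Agent.LR4.Mac

/-!
Lonely runner with speeds at most `2 n`: the table statement from the checked entries.
-/

namespace Pool.Agent.LR4.TC

open Pool.Agent.LR4 Finset

/-! ### Coverage by the entries -/

/-- What has to be covered: `(j, ρ, G, E)`. -/
abbrev Need := ℕ × ℕ × ℕ × ℕ

/-- The needs left by one entry. -/
def cv1 (e : Entry) (L : List Need) : List Need :=
  match L with
  | [] => []
  | d :: ds =>
    if e.1 = d.1 ∧ e.2.1 = d.2.1 ∧ e.2.2.1 ≤ d.2.2.1 ∧ d.2.2.1 < e.2.2.2.1 then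
      (if d.2.2.2 ≤ e.2.2.2.1 then ds else (d.1, d.2.1, e.2.2.2.1, d.2.2.2) :: ds)
    else d :: ds

/-- The needs left by the entries. -/
def cvs : List Entry → List Need → List Need
  | [], L => L
  | e :: A, L => cvs A (cv1 e L)

/-- The needs of the window `J`. -/
def needs (J : List (ℕ × ℕ)) : List Need :=
  [1, 3, 5, 7].flatMap fun j => (List.range 30).flatMap fun rho =>
    J.map fun a => (j, rho, 100000 * j + 100 * a.1, 100000 * j + 100 * a.2)

theorem cv1_spec {M x : ℕ} (e : Entry) (L : List Need) (d : Need) (hd : d ∈ L)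
    (h1 : d.2.2.1 * M < x) (h2 : x ≤ d.2.2.2 * M) :
    (e.1 = d.1 ∧ e.2.1 = d.2.1 ∧ e.2.2.1 * M < x ∧ x ≤ e.2.2.2.1 * M) ∨
      ∃ d' ∈ cv1 e L, d'.1 = d.1 ∧ d'.2.1 = d.2.1 ∧ d'.2.2.1 * M < x ∧ x ≤ d'.2.2.2 * M := by
  rcases L with _ | ⟨d0, ds⟩
  · exact absurd hd (List.not_mem_nil)
  have hun : cv1 e (d0 :: ds) = if e.1 = d0.1 ∧ e.2.1 = d0.2.1 ∧ e.2.2.1 ≤ d0.2.2.1 ∧
      d0.2.2.1 < e.2.2.2.1 then
      (if d0.2.2.2 ≤ e.2.2.2.1 then ds else (d0.1, d0.2.1, e.2.2.2.1, d0.2.2.2) :: ds)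
    else d0 :: ds := rfl
  rw [hun]
  split_ifs with h3 h4
  · rcases List.mem_cons.1 hd with rfl | hd
    · left
      refine ⟨h3.1, h3.2.1, ?_, ?_⟩
      · exact lt_of_le_of_lt (Nat.mul_le_mul_right M h3.2.2.1) h1
      · exact h2.trans (Nat.mul_le_mul_right M h4)
    · exact Or.inr ⟨d, hd, rfl, rfl, h1, h2⟩
  · rcases List.mem_cons.1 hd with rfl | hd
    · by_cases h5 : x ≤ e.2.2.2.1 * M
      · left
        refine ⟨h3.1, h3.2.1, ?_, h5⟩
        exact lt_of_le_of_lt (Nat.mul_le_mul_right M h3.2.2.1) h1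
      · right
        exact ⟨_, List.mem_cons_self, rfl, rfl, by simpa using h5, h2⟩
    · exact Or.inr ⟨d, List.mem_cons_of_mem _ hd, rfl, rfl, h1, h2⟩
  · exact Or.inr ⟨d, hd, rfl, rfl, h1, h2⟩

theorem cvs_spec {M x : ℕ} (A : List Entry) : ∀ (L : List Need) (d : Need), d ∈ L →
    cvs A L = [] → d.2.2.1 * M < x → x ≤ d.2.2.2 * M →
    ∃ e ∈ A, e.1 = d.1 ∧ e.2.1 = d.2.1 ∧ e.2.2.1 * M < x ∧ x ≤ e.2.2.2.1 * M := by
  induction A with
  | nil =>
    intro L d hd h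
    have h' : L = [] := h
    rw [h'] at hd
    exact absurd hd (List.not_mem_nil)
  | cons e A ih =>
    intro L d hd h h1 h2
    have h' : cvs A (cv1 e L) = [] := h
    rcases cv1_spec e L d hd h1 h2 with h3 | ⟨d', hd', e1, e2, h3, h4⟩
    · exact ⟨e, List.mem_cons_self, h3⟩
    · obtain ⟨e', he', h5, h6, h7⟩ := ih _ d' hd' h' h3 h4
      exact ⟨e', List.mem_cons_of_mem _ he', h5.trans e1, h6.trans e2, h7⟩

/-- The test of `cv1`. -/
def tst (e : Entry) (d : Need) : Bool :=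
  an (Nat.beq e.1 d.1) (an (Nat.beq e.2.1 d.2.1) (an (Nat.ble e.2.2.1 d.2.2.1)
    (Nat.ble (Nat.succ d.2.2.1) e.2.2.2.1)))

/-- The check of the coverage, for the kernel. -/
def cvb (A : List Entry) : List Need → Bool :=
  List.rec (motive := fun _ => List Need → Bool) (fun L => List.isEmpty L)
    (fun e _ ih L => List.rec (motive := fun _ => Bool) true
      (fun d ds _ => Bool.rec (ih (d :: ds))
        (Bool.rec (ih ((d.1, d.2.1, e.2.2.2.1, d.2.2.2) :: ds)) (ih ds)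
          (Nat.ble d.2.2.2 e.2.2.2.1)) (tst e d)) L) A

theorem cvs_nil (A : List Entry) : cvs A [] = [] := by
  induction A with
  | nil => rfl
  | cons e A ih => exact ih

theorem tst_iff (e : Entry) (d : Need) : tst e d = true ↔
    (e.1 = d.1 ∧ e.2.1 = d.2.1 ∧ e.2.2.1 ≤ d.2.2.1 ∧ d.2.2.1 < e.2.2.2.1) := by
  unfold tst
  simp only [an_eq, Bool.and_eq_true, Nat.beq_eq, Nat.ble_eq, Nat.succ_le_iff]

theorem cvb_spec (A : List Entry) : ∀ L, cvb A L = true → cvs A L = [] := by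
  induction A with
  | nil =>
    intro L h
    have h' : List.isEmpty L = true := h
    exact List.isEmpty_iff.1 h'
  | cons e A ih =>
    intro L h
    rcases L with _ | ⟨d, ds⟩
    · exact cvs_nil _
    have h' : Bool.rec (motive := fun _ => Bool) (cvb A (d :: ds))
        (Bool.rec (motive := fun _ => Bool) (cvb A ((d.1, d.2.1, e.2.2.2.1, d.2.2.2) :: ds))
          (cvb A ds) (Nat.ble d.2.2.2 e.2.2.2.1)) (tst e d) = true := h
    have hun : cvs (e :: A) (d :: ds) = cvs A (if e.1 = d.1 ∧ e.2.1 = d.2.1 ∧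
        e.2.2.1 ≤ d.2.2.1 ∧ d.2.2.1 < e.2.2.2.1 then
        (if d.2.2.2 ≤ e.2.2.2.1 then ds else (d.1, d.2.1, e.2.2.2.1, d.2.2.2) :: ds)
      else d :: ds) := rfl
    rw [hun]
    cases ht : tst e d with
    | false =>
      rw [ht] at h'
      rw [if_neg (by rw [← tst_iff, ht]; simp)]
      exact ih _ h'
    | true =>
      rw [ht] at h'
      rw [if_pos ((tst_iff e d).1 ht)]
      cases hb : Nat.ble d.2.2.2 e.2.2.2.1 with
      | false =>
        rw [hb] at h'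
        rw [if_neg (by
          intro h1
          rw [Nat.ble_eq_true_of_le h1] at hb
          exact Bool.noConfusion hb)]
        exact ih _ h'
      | true =>
        rw [hb] at h'
        rw [if_pos (Nat.le_of_ble_eq_true hb)]
        exact ih _ h'

/-- The needs of one class `j`. -/
def needj (J : List (ℕ × ℕ)) (j : ℕ) : List Need :=
  (List.range 30).flatMap fun rho =>
    J.map fun a => (j, rho, 100000 * j + 100 * a.1, 100000 * j + 100 * a.2)

/-- The need `d` is met by the entries `A`. -/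
def Cvd (A : List Entry) (d : Need) : Prop :=
  ∀ M x : ℕ, d.2.2.1 * M < x → x ≤ d.2.2.2 * M →
    ∃ e ∈ A, e.1 = d.1 ∧ e.2.1 = d.2.1 ∧ e.2.2.1 * M < x ∧ x ≤ e.2.2.2.1 * M

theorem cvd_of {A B : List Entry} {L : List Need} (h : cvb A L = true) (hAB : A ⊆ B) :
    ∀ d ∈ L, Cvd B d := by
  intro d hd M x h1 h2
  obtain ⟨e, he, h3⟩ := cvs_spec A L d hd (cvb_spec A L h) h1 h2
  exact ⟨e, hAB he, h3⟩

theorem cvd_all {A : List Entry} {J : List (ℕ × ℕ)}
    (h : ∀ j ∈ [1, 3, 5, 7], ∀ d ∈ needj J j, Cvd A d) : ∀ d ∈ needs J, Cvd A d := by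
  intro d hd
  unfold needs at hd
  obtain ⟨j, hj, hd⟩ := List.mem_flatMap.1 hd
  exact h j hj d hd

theorem needs_mem {J : List (ℕ × ℕ)} {j rho : ℕ} {a : ℕ × ℕ} (hj : j = 1 ∨ j = 3 ∨ j = 5 ∨ j = 7)
    (hr : rho < 30) (ha : a ∈ J) :
    ((j, rho, 100000 * j + 100 * a.1, 100000 * j + 100 * a.2) : Need) ∈ needs J := by
  unfold needs
  rw [List.mem_flatMap]
  refine ⟨j, ?_, ?_⟩
  · rcases hj with rfl | rfl | rfl | rfl <;> simp
  · rw [List.mem_flatMap]
    exact ⟨rho, List.mem_range.2 hr, List.mem_map.2 ⟨a, ha, rfl⟩⟩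

/-! ### The entry of a speed -/

/-- The conclusion of the table, for `g`. -/
def Hits (M : ℕ) (V : Finset ℕ) (yy g : ℕ) : Prop :=
  ∃ b, tb yy b = true ∧ ∃ X ∈ labL M V, (M : ℤ) ∣ (X : ℤ) - b * g ∨ (M : ℤ) ∣ (X : ℤ) + b * g

/-- The checked cells are sound for the speeds. -/
def Snd (M : ℕ) (V : Finset ℕ) (yy : ℕ) : Prop :=
  ∀ g, 0 < g → g < M → Nat.Coprime g M → (8 * g) % M ∈ V →
    ∀ c : Cd, cdk yy c = true → c.2.1 < c.1 → g ≡ c.2.1 * M [MOD c.1] →
      c.2.2.1 * M ≤ 800000 * g → 800000 * g ≤ (c.2.2.1 + c.2.2.2.1) * M → Hits M V yy g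

theorem tab_of {M yy : ℕ} {V Y : Finset ℕ} {J : List (ℕ × ℕ)} {A : List Entry}
    (hS : Snd M V yy) (hA : ∀ e ∈ A, EOK yy e) (hcov : ∀ d ∈ needs J, Cvd A d)
    (hY : ∀ b, tb yy b = true → b ∈ Y) (hJ : ∀ a ∈ J, 501 ≤ a.1 ∧ a.1 < a.2 ∧ a.2 ≤ 747)
    (hodd : Odd M) (hM1 : 1 < M) (hp : ∀ p, p.Prime → p ∣ M → 320 < p) : Tab M V Y J := by
  intro u hu huM huV hin h105
  obtain ⟨a, haJ, ha1, ha2⟩ := hin
  obtain ⟨hJ1, hJ2, hJ3⟩ := hJ a haJ
  have hM0 : 0 < M := by omega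
  have huM2 : u < M := by
    by_contra h
    have h1 : 1000 * M ≤ 1000 * u := by omega
    have h2 : a.2 * M ≤ 747 * M := Nat.mul_le_mul_right M hJ3
    omega
  have hcop : Nat.Coprime M 2310 := by
    by_contra h
    obtain ⟨p, hp1, hp2, hp3⟩ := Nat.Prime.not_coprime_iff_dvd.1 h
    have h1 := hp p hp1 hp2
    have h2 : p ∣ 2 * 3 * 5 * 7 * 11 := hp3
    rw [hp1.dvd_mul, hp1.dvd_mul, hp1.dvd_mul, hp1.dvd_mul] at h2
    rcases h2 with (((h2 | h2) | h2) | h2) | h2 <;>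
      · have := Nat.le_of_dvd (by norm_num) h2
        omega
  -- the class `j`
  obtain ⟨j, hj, g, hg⟩ : ∃ j, (j = 1 ∨ j = 3 ∨ j = 5 ∨ j = 7) ∧ ∃ g, 8 * g = u + j * M := by
    obtain ⟨r, hr⟩ := hodd
    obtain ⟨t, ht⟩ := hu
    have h1 : ∃ j, (j = 1 ∨ j = 3 ∨ j = 5 ∨ j = 7) ∧ (u + j * M) % 8 = 0 := by
      have h5 : (u + 1 * M) % 8 = 0 ∨ (u + 3 * M) % 8 = 0 ∨ (u + 5 * M) % 8 = 0 ∨
          (u + 7 * M) % 8 = 0 := by
        rcases (by omega : u % 8 = 1 ∨ u % 8 = 3 ∨ u % 8 = 5 ∨ u % 8 = 7) with h3 | h3 | h3 | h3 <;>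
          rcases (by omega : M % 8 = 1 ∨ M % 8 = 3 ∨ M % 8 = 5 ∨ M % 8 = 7) with
            h4 | h4 | h4 | h4 <;> omega
      rcases h5 with h | h | h | h
      · exact ⟨1, by simp, h⟩
      · exact ⟨3, by simp, h⟩
      · exact ⟨5, by simp, h⟩
      · exact ⟨7, by simp, h⟩
    obtain ⟨j, hj, h2⟩ := h1
    exact ⟨j, hj, (u + j * M) / 8, by omega⟩
  have hjle : j ≤ 7 := by omega
  have hjM : j * M ≤ 7 * M := Nat.mul_le_mul_right M hjle
  have hjM1 : 1 * M ≤ j * M := Nat.mul_le_mul_right M (by omega)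
  have hg0 : 0 < g := by omega
  have hgM : g < M := by omega
  have h8 : (8 * g) % M = u := by
    rw [hg, Nat.add_mul_mod_self_right, Nat.mod_eq_of_lt huM2]
  have hgc : Nat.Coprime g M := by
    have h1 : Nat.Coprime (8 * g) M := by
      have h2 : Nat.gcd (8 * g) M = Nat.gcd u M := by
        rw [← h8, ← Nat.gcd_rec, Nat.gcd_comm]
      rw [Nat.Coprime, h2]
      exact huM
    exact Nat.Coprime.coprime_mul_left h1
  -- the conclusion
  suffices hQ : Hits M V yy g by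
    obtain ⟨b, hb, X, hX, hd⟩ := hQ
    refine ⟨b, hY b hb, X, hX, ?_⟩
    have hgz : (8 : ℤ) * g = u + j * M := by exact_mod_cast hg
    rcases hd with ⟨c, hc⟩ | ⟨c, hc⟩
    · left
      have h1 : (8 * X : ℤ) ≡ b * u [ZMOD M] := by
        rw [Int.modEq_iff_dvd]
        refine ⟨-(8 * c) - b * j, ?_⟩
        have h2 : (X : ℤ) = b * g + M * c := by linarith
        rw [h2]
        linear_combination -(b : ℤ) * hgz
      exact_mod_cast h1
    · right
      have h1 : (M : ℤ) ∣ 8 * X + b * u := by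
        refine ⟨8 * c - b * j, ?_⟩
        have h2 : (X : ℤ) = M * c - b * g := by linarith
        rw [h2]
        linear_combination -(b : ℤ) * hgz
      exact Nat.mod_eq_zero_of_dvd (by exact_mod_cast h1)
  -- the residue modulo 30
  obtain ⟨rho, hrho, hgr⟩ := split_res (M := M) (md := 1) (p := 30) (rho := 0) (g := g)
    one_pos (Nat.Coprime.coprime_dvd_right (by norm_num) hcop) (by norm_num) one_pos
    (Nat.modEq_one)
  rw [one_mul, zero_add, one_mul] at hgr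
  have hpos : (100000 * j + 100 * a.1) * M < 800000 * g := by
    have h1 : (100000 * j + 100 * a.1) * M ≤ 800000 * g := by
      have h2 : (100000 * j + 100 * a.1) * M = 100000 * (j * M) + 100 * (a.1 * M) := by ring
      omega
    rcases Nat.lt_or_ge ((100000 * j + 100 * a.1) * M) (800000 * g) with h2 | h2
    · exact h2
    · exfalso
      have h3 : M ∣ 800000 * g := ⟨100000 * j + 100 * a.1, by rw [le_antisymm h2 h1]; ring⟩
      have h4 : M ∣ 800000 := Nat.Coprime.dvd_of_dvd_mul_right hgc.symm h3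
      obtain ⟨p, hp1, hp2⟩ := Nat.exists_prime_and_dvd (n := M) (by omega)
      have h5 := hp p hp1 hp2
      have h6 : p ∣ 2 ^ 8 * 5 ^ 5 := by
        have : p ∣ 800000 := hp2.trans h4
        norm_num
        exact this
      rcases hp1.dvd_mul.1 h6 with h7 | h7
      · have := Nat.le_of_dvd (by norm_num) (hp1.dvd_of_dvd_pow h7)
        omega
      · have := Nat.le_of_dvd (by norm_num) (hp1.dvd_of_dvd_pow h7)
        omega
  have hpos2 : 800000 * g ≤ (100000 * j + 100 * a.2) * M := by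
    have h2 : (100000 * j + 100 * a.2) * M = 100000 * (j * M) + 100 * (a.2 * M) := by ring
    omega
  obtain ⟨e, heA, he1, he2, he3, he4⟩ := hcov _ (needs_mem hj hrho haJ) M _ hpos hpos2
  obtain ⟨C, hC1, hck⟩ := hA e heA
  obtain ⟨j', rho', G, E, L⟩ := e
  dsimp only at he1 he2 he3 he4
  subst he1 he2
  have hck' : ck1 (lfm C) j' rho' L G E = true := hck
  -- the walk
  let Q : ℕ → Prop := fun g' => g' = g → Hits M V yy g
  have hC : HC M yy Q := by
    intro c hc hr g' h1 h2 h3 hgg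
    subst hgg
    exact hS g' hg0 hgM hgc (by rw [h8]; exact huV) c hc hr h1 h2 h3
  refine ck1_spec (Q := Q) (hl_of hC hC1) hcop hrho ?_ L G E hck' g hgr he3 he4 rfl
  intro g' rho2 h1 h2 hgg
  subst hgg
  exfalso
  apply h105
  -- `u + M` is divisible by 105
  have h3 : (g' : ℤ) ≡ rho2 * M [ZMOD 210] := by exact_mod_cast h1
  obtain ⟨c, hc⟩ := Int.modEq_iff_dvd.1 h3
  have h4 : (105 : ℤ) ∣ 8 * rho2 - j' + 1 := by
    have h5 : (105 : ℤ) ∣ (((8 * rho2 + 106 - j' : ℕ)) : ℤ) := by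
      exact_mod_cast Nat.dvd_of_mod_eq_zero h2
    rw [Nat.cast_sub (by omega)] at h5
    push_cast at h5
    obtain ⟨c, hc⟩ := h5
    exact ⟨c - 1, by linarith⟩
  obtain ⟨d, hd⟩ := h4
  have hgz : (8 : ℤ) * g' = u + j' * M := by exact_mod_cast hg
  have h5 : (105 : ℤ) ∣ ((u + M : ℕ) : ℤ) := by
    push_cast
    refine ⟨d * M - 16 * c, ?_⟩
    linear_combination -hgz - 8 * hc + (M : ℤ) * hd
  exact_mod_cast h5

end Pool.Agent.LR4.TC
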