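import Pool.Agent.LR4.TabFct
import Pool.Agent.LR4.TabFin
import Pool.Agent.LR4.Main

/-!
Lonely runner with speeds at most `2 n`: the cells of the table are sound for a counterexample;
the table statement from the checked entries.
-/

namespace Pool.Agent.LR4.TC

open Pool.Agent.LR4 Finset

/-- The small primes of `sm` divide `md`. -/
theorem mds_sm {md sm : ℕ} (hm : Mds md sm) (p : ℕ) (hp : p.Prime) (h : p ∣ sm) : p ∣ md := by
  have aux : ∀ q a : ℕ, q.Prime → p ∣ q ^ a → p = q := fun q a hq h1 =>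
    (Nat.prime_dvd_prime_iff_eq hp hq).1 (hp.dvd_of_dvd_pow h1)
  rcases hm with ⟨rfl, rfl⟩ | ⟨rfl, rfl⟩ | ⟨rfl, rfl⟩
  · unfold smn at h
    rw [hp.dvd_mul, hp.dvd_mul] at h
    rcases h with (h | h) | h
    · rw [aux 2 20 (by norm_num) h]; norm_num
    · rw [aux 3 13 (by norm_num) h]; norm_num
    · rw [aux 5 9 (by norm_num) h]; norm_num
  · unfold smn7 at h
    rw [hp.dvd_mul, hp.dvd_mul, hp.dvd_mul] at h
    rcases h with ((h | h) | h) | h
    · rw [aux 2 20 (by norm_num) h]; norm_num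
    · rw [aux 3 13 (by norm_num) h]; norm_num
    · rw [aux 5 9 (by norm_num) h]; norm_num
    · rw [aux 7 7 (by norm_num) h]; norm_num
  · unfold smn11 at h
    rw [hp.dvd_mul, hp.dvd_mul, hp.dvd_mul, hp.dvd_mul] at h
    rcases h with (((h | h) | h) | h) | h
    · rw [aux 2 20 (by norm_num) h]; norm_num
    · rw [aux 3 13 (by norm_num) h]; norm_num
    · rw [aux 5 9 (by norm_num) h]; norm_num
    · rw [aux 7 7 (by norm_num) h]; norm_num
    · rw [aux 11 6 (by norm_num) h]; norm_num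

theorem mds_md {md sm : ℕ} (hm : Mds md sm) : 0 < md ∧ md ∣ 2310 := by
  rcases hm with ⟨rfl, rfl⟩ | ⟨rfl, rfl⟩ | ⟨rfl, rfl⟩ <;> constructor <;> norm_num

/-- **The cells are sound.** -/
theorem snd_of {n K M yy : ℕ} {V : Finset ℕ} (h : Cex n V) (hM : M = 2 * n + K) (hodd : Odd M)
    (hK3 : 3 ≤ K) (hK : 700 * K ≤ M) (hp : ∀ p, p.Prime → p ∣ M → 320 < p)
    (hyy : ∀ b, tb yy b = true → 1 ≤ b ∧ b ≤ 256) : Snd M V yy := by
  intro g hg0 hgM hgc hgV c hc' hrho' hrm' hl' hr'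
  obtain ⟨sm, hm, hc⟩ := cdk_spec hc'
  obtain ⟨md, rho, G, w, s⟩ := c
  dsimp only at hrho' hrm' hl' hr' hm hc
  have hrho : rho < md := hrho'
  have hrm : g ≡ rho * M [MOD md] := hrm'
  have hl : G * M ≤ 800000 * g := hl'
  have hr : 800000 * g ≤ (G + w) * M := hr'
  by_contra hcon
  obtain ⟨hmd0, hmd⟩ := mds_md hm
  have hmdM : Nat.Coprime md M := by
    refine Nat.coprime_of_dvd ?_
    intro p hp1 hp2 hp3
    have h1 := hp p hp1 hp3
    have h2 : p ∣ 2 * 3 * 5 * 7 * 11 := hp2.trans hmd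
    rw [hp1.dvd_mul, hp1.dvd_mul, hp1.dvd_mul, hp1.dvd_mul] at h2
    rcases h2 with (((h2 | h2) | h2) | h2) | h2 <;>
      · have := Nat.le_of_dvd (by norm_num) h2
        omega
  refine cell_no (Y := (Finset.range 257).filter (fun b => tb yy b = true)) (u := (8 * g) % M)
    hc h hM hK3 hK hp hodd hgc (Nat.mod_mod _ _).symm (Nat.mod_lt _ (by omega)) hgV ?_ ?_ hmd0
    (by omega) (mds_sm hm) hmdM hrm hl hr
  · rintro ⟨b, hb, X, hX, hbX⟩
    apply hcon
    have hb2 := (Finset.mem_filter.1 hb).2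
    refine ⟨b, hb2, X, hX, ?_⟩
    have hco : IsCoprime (M : ℤ) (8 : ℤ) := by
      have h1 : Nat.Coprime M 8 := by
        have h2 : Nat.Coprime M (2 ^ 3) := Nat.Coprime.pow_right 3 (Nat.coprime_two_right.2 hodd)
        simpa using h2
      exact_mod_cast Nat.isCoprime_iff_coprime.2 h1
    have hu : (M : ℤ) ∣ 8 * (g : ℤ) - ((8 * g % M : ℕ) : ℤ) := by
      have h1 := Nat.modEq_iff_dvd.1 (Nat.mod_modEq (8 * g) M)
      push_cast at h1 ⊢
      exact h1
    rcases hbX with h1 | h1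
    · left
      have h2 := Nat.modEq_iff_dvd.1 (show (b * (8 * g % M) : ℕ) ≡ 8 * X [MOD M] from h1.symm)
      have h3 : (M : ℤ) ∣ 8 * ((X : ℤ) - b * g) := by
        have e : 8 * ((X : ℤ) - b * g) = (((8 * X : ℕ) : ℤ) - ((b * (8 * g % M) : ℕ) : ℤ)) -
            b * (8 * (g : ℤ) - ((8 * g % M : ℕ) : ℤ)) := by
          push_cast
          ring
        rw [e]
        exact dvd_sub h2 (Dvd.dvd.mul_left hu _)
      exact hco.dvd_of_dvd_mul_left h3
    · right
      have h2 : (M : ℤ) ∣ ((8 * X + b * (8 * g % M) : ℕ) : ℤ) :=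
        Int.natCast_dvd_natCast.2 (Nat.dvd_of_mod_eq_zero h1)
      have h3 : (M : ℤ) ∣ 8 * ((X : ℤ) + b * g) := by
        have e : 8 * ((X : ℤ) + b * g) = ((8 * X + b * (8 * g % M) : ℕ) : ℤ) +
            b * (8 * (g : ℤ) - ((8 * g % M : ℕ) : ℤ)) := by
          push_cast
          ring
        rw [e]
        exact dvd_add h2 (Dvd.dvd.mul_left hu _)
      exact hco.dvd_of_dvd_mul_left h3
  · intro b hb
    have h1 := hyy b hb
    exact ⟨Finset.mem_filter.2 ⟨Finset.mem_range.2 (by omega), hb⟩, h1⟩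

/-- The table statement for all parameters, from the checked entries. -/
theorem tabAll_of {yy : ℕ} {Y : Finset ℕ} {J : List (ℕ × ℕ)} {A : List Entry}
    (hA : ∀ e ∈ A, EOK yy e) (hcov : ∀ d ∈ needs J, Cvd A d)
    (hY : ∀ b, tb yy b = true → b ∈ Y) (hyy : ∀ b, tb yy b = true → 1 ≤ b ∧ b ≤ 256)
    (hJ : ∀ a ∈ J, 501 ≤ a.1 ∧ a.1 < a.2 ∧ a.2 ≤ 747) : TabAll Y J := by
  intro n K M V h hM hodd hK3 hK hp
  exact tab_of (snd_of h hM hodd hK3 hK hp hyy) hA hcov hY hJ hodd (by omega) hp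

end Pool.Agent.LR4.TC
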