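import Pool.Agent.LR4.TabRun

/-!
Lonely runner with speeds at most `2 n`: the walk through the cells of the table.

An entry `(j, ρ, G, E, L)` treats the `g` with `8 g = u + j M`, `g = ρ M` modulo `30` and
`G M < 800000 g ≤ E M`. The elements of `L` are consecutive intervals: a cell `(w, s, [])`, or a
split `(w, 0, LL)` into the seven residues modulo `210`; an interval modulo `210` may be split in the
same way into the eleven residues modulo `2310`.
-/

namespace Pool.Agent.LR4.TC

open Pool.Agent.LR4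

/-- Intervals modulo `2310`. -/
abbrev L3 := ℕ

/-- Intervals modulo `210`. -/
abbrev L2 := ℕ × List (List L3)

/-- Intervals modulo `30`. -/
abbrev L1 := ℕ × List (List L2)

/-- Entries `(j, ρ, G, E, L)`. -/
abbrev Entry := ℕ × ℕ × ℕ × ℕ × List L1

/-- `sm` for `md = 2310`. -/
def smn11 : ℕ := 2 ^ 20 * 3 ^ 13 * 5 ^ 9 * 7 ^ 7 * 11 ^ 6

/-- The leaf check: `md`, `ρ`, `G`, `w`. -/
abbrev Lf := ℕ → ℕ → ℕ → ℕ → Bool

/-- Consecutive cells. -/
def ck3 (cl : Lf) (md rho : ℕ) (L : List L3) : ℕ → ℕ → Bool :=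
  List.rec (motive := fun _ => ℕ → ℕ → Bool) (fun G E => Nat.ble E G)
    (fun w _ ih G E => an (cl md rho G w) (force (Nat.add G w) fun G' => ih G' E)) L

/-- The residues `ρ`, `ρ + d`, ... up to `R`. -/
def sp3 (cl : Lf) (md d R G E : ℕ) (LL : List (List L3)) : ℕ → Bool :=
  List.rec (motive := fun _ => ℕ → Bool) (fun rho => Nat.beq rho R)
    (fun L _ ih rho => an (ck3 cl md rho L G E) (force (Nat.add rho d) ih)) LL

/-- Consecutive intervals modulo `210`. -/
def ck2 (cl : Lf) (rho : ℕ) (L : List L2) : ℕ → ℕ → Bool :=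
  List.rec (motive := fun _ => ℕ → ℕ → Bool) (fun G E => Nat.ble E G)
    (fun e _ ih G E => force (Nat.add G e.1) fun G' =>
      an (List.rec (motive := fun _ => Bool) (cl 210 rho G e.1)
        (fun _ _ _ => sp3 cl 2310 210 (rho + 2310) G G' e.2 rho) e.2) (ih G' E)) L

/-- The residues `ρ`, `ρ + 30`, ... up to `R`. -/
def sp2 (cl : Lf) (j R G E : ℕ) (LL : List (List L2)) : ℕ → Bool :=
  List.rec (motive := fun _ => ℕ → Bool) (fun rho => Nat.beq rho R)
    (fun L _ ih rho => an (ro (Nat.beq ((8 * rho + 106 - j) % 105) 0) (ck2 cl rho L G E))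
      (force (Nat.add rho 30) ih)) LL

/-- Consecutive intervals modulo `30`. -/
def ck1 (cl : Lf) (j rho : ℕ) (L : List L1) : ℕ → ℕ → Bool :=
  List.rec (motive := fun _ => ℕ → ℕ → Bool) (fun G E => Nat.ble E G)
    (fun e _ ih G E => force (Nat.add G e.1) fun G' =>
      an (List.rec (motive := fun _ => Bool) (cl 30 rho G e.1)
        (fun _ _ _ => sp2 cl j (rho + 210) G G' e.2 rho) e.2) (ih G' E)) L

/-- Check of an entry. -/
def ckL (cl : Lf) (e : Entry) : Bool := ck1 cl e.1 e.2.1 e.2.2.2.2 e.2.2.1 e.2.2.2.1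

/-- Checked cells: `md`, `ρ`, `G`, `w`, certificate. -/
abbrev Cd := ℕ × ℕ × ℕ × ℕ × ℕ

/-- Check of a cell. -/
def cdk (yy : ℕ) (c : Cd) : Bool :=
  force c.2.1 fun rho => force c.2.2.1 fun G => force c.2.2.2.1 fun w => force c.2.2.2.2 fun s =>
    ro (an (Nat.beq c.1 30) (cell 30 rho smn yy G w s))
      (ro (an (Nat.beq c.1 210) (cell 210 rho smn7 yy G w s))
        (an (Nat.beq c.1 2310) (cell 2310 rho smn11 yy G w s)))

/-- Leaf check by membership. -/
def lfm (C : List Cd) : Lf := fun md rho G w =>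
  List.rec (motive := fun _ => Bool) false
    (fun c _ ih => ro (an (Nat.beq c.2.2.1 G) (an (Nat.beq c.2.1 rho) (an (Nat.beq c.2.2.2.1 w)
      (Nat.beq c.1 md)))) ih) C

/-- The mask of the labels: up to `50`, even up to `100`, multiples of `4` up to `160`, without `124`
and `148`, together with `106`, `122`, `130`. -/
def ymk : ℕ := 0x11101111505111515555555555557fffffffffffe

/-- The admissible moduli. -/
def Mds (md sm : ℕ) : Prop :=
  (md = 30 ∧ sm = smn) ∨ (md = 210 ∧ sm = smn7) ∨ (md = 2310 ∧ sm = smn11)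

/-- The checked cells are sound for the property `Q` of `g`. -/
def HC (M yy : ℕ) (Q : ℕ → Prop) : Prop :=
  ∀ c : Cd, cdk yy c = true → c.2.1 < c.1 → ∀ g, g ≡ c.2.1 * M [MOD c.1] →
    c.2.2.1 * M ≤ 800000 * g → 800000 * g ≤ (c.2.2.1 + c.2.2.2.1) * M → Q g

/-- The leaf check is sound for the property `Q` of `g`. -/
def HL (M : ℕ) (cl : Lf) (Q : ℕ → Prop) : Prop :=
  ∀ md rho G w, (md = 30 ∨ md = 210 ∨ md = 2310) → rho < md → cl md rho G w = true →
    ∀ g, g ≡ rho * M [MOD md] → G * M ≤ 800000 * g → 800000 * g ≤ (G + w) * M → Q g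

section

variable {M yy : ℕ} {Q : ℕ → Prop} {cl : Lf}

theorem cdk_spec {c : Cd} (h : cdk yy c = true) :
    ∃ sm, Mds c.1 sm ∧ cell c.1 c.2.1 sm yy c.2.2.1 c.2.2.2.1 c.2.2.2.2 = true := by
  unfold cdk at h
  simp only [force_eq] at h
  rcases ro_or h with h1 | h1
  · obtain ⟨h2, h3⟩ := an_and h1
    have h4 : c.1 = 30 := Nat.eq_of_beq_eq_true h2
    exact ⟨smn, Or.inl ⟨h4, rfl⟩, by rw [h4]; exact h3⟩
  rcases ro_or h1 with h1 | h1
  · obtain ⟨h2, h3⟩ := an_and h1
    have h4 : c.1 = 210 := Nat.eq_of_beq_eq_true h2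
    exact ⟨smn7, Or.inr (Or.inl ⟨h4, rfl⟩), by rw [h4]; exact h3⟩
  · obtain ⟨h2, h3⟩ := an_and h1
    have h4 : c.1 = 2310 := Nat.eq_of_beq_eq_true h2
    exact ⟨smn11, Or.inr (Or.inr ⟨h4, rfl⟩), by rw [h4]; exact h3⟩

theorem lfm_spec {md rho G w : ℕ} (C : List Cd) (h : lfm C md rho G w = true) :
    ∃ c ∈ C, c.1 = md ∧ c.2.1 = rho ∧ c.2.2.1 = G ∧ c.2.2.2.1 = w := by
  induction C with
  | nil => exact absurd (show false = true from h) (by decide)
  | cons c C ih =>
    have h' : ro (an (Nat.beq c.2.2.1 G) (an (Nat.beq c.2.1 rho) (an (Nat.beq c.2.2.2.1 w)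
      (Nat.beq c.1 md)))) (lfm C md rho G w) = true := h
    rcases ro_or h' with h1 | h1
    · obtain ⟨h2, h3⟩ := an_and h1
      obtain ⟨h3, h4⟩ := an_and h3
      obtain ⟨h4, h5⟩ := an_and h4
      exact ⟨c, List.mem_cons_self, Nat.eq_of_beq_eq_true h5, Nat.eq_of_beq_eq_true h3,
        Nat.eq_of_beq_eq_true h2, Nat.eq_of_beq_eq_true h4⟩
    · obtain ⟨c', h2, h3⟩ := ih h1
      exact ⟨c', List.mem_cons_of_mem _ h2, h3⟩

theorem hl_of {C : List Cd} (hC : HC M yy Q) (h : C.all (cdk yy) = true) : HL M (lfm C) Q := by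
  intro md rho G w _ hr hcl g h1 h2 h3
  obtain ⟨c, hc, rfl, rfl, rfl, rfl⟩ := lfm_spec C hcl
  exact hC c (List.all_eq_true.1 h c hc) hr g h1 h2 h3

theorem ck3_spec (hC : HL M cl Q) {md rho : ℕ} (hm : md = 30 ∨ md = 210 ∨ md = 2310)
    (hr : rho < md) (L : List L3) : ∀ G E, ck3 cl md rho L G E = true → ∀ g,
      g ≡ rho * M [MOD md] → G * M < 800000 * g → 800000 * g ≤ E * M → Q g := by
  induction L with
  | nil =>
    intro G E h g _ h1 h2
    have h3 : E ≤ G := Nat.le_of_ble_eq_true h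
    have h4 : E * M ≤ G * M := Nat.mul_le_mul_right M h3
    omega
  | cons e L ih =>
    intro G E h g hg h1 h2
    have h' : an (cl md rho G e) (force (G + e) fun G' => ck3 cl md rho L G' E) = true := h
    rw [force_eq] at h'
    obtain ⟨h3, h4⟩ := an_and h'
    by_cases h5 : 800000 * g ≤ (G + e) * M
    · exact hC md rho G e hm hr h3 g hg h1.le h5
    · exact ih _ E h4 g hg (by omega) h2

theorem sp3_spec {md d R G E : ℕ} (LL : List (List L3)) : ∀ rho k,
    sp3 cl md d R G E LL rho = true → rho + d * k < R → (∃ c, R = rho + d * c) →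
      ∃ L, ck3 cl md (rho + d * k) L G E = true := by
  induction LL with
  | nil =>
    intro rho k h h1 _
    have h2 : rho = R := Nat.eq_of_beq_eq_true h
    exfalso
    have : 0 ≤ d * k := Nat.zero_le _
    omega
  | cons L LL ih =>
    intro rho k h h1 hc
    have h' : an (ck3 cl md rho L G E) (force (rho + d) (sp3 cl md d R G E LL)) = true := h
    rw [force_eq] at h'
    obtain ⟨h3, h4⟩ := an_and h'
    rcases k with _ | k
    · exact ⟨L, by simpa using h3⟩
    · obtain ⟨c, hc⟩ := hc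
      rcases c with _ | c
      · exfalso
        have : 0 ≤ d * (k + 1) := Nat.zero_le _
        rw [hc] at h1
        omega
      have e1 : rho + d + d * k = rho + d * (k + 1) := by ring
      obtain ⟨L', hL'⟩ := ih (rho + d) k h4 (by rw [e1]; exact h1) ⟨c, by rw [hc]; ring⟩
      rw [e1] at hL'
      exact ⟨L', hL'⟩

/-- A residue modulo `md` splits into `p` residues modulo `md p`. -/
theorem split_res {md p rho g : ℕ} (hmd : 0 < md) (hc : Nat.Coprime M (md * p)) (hp : 0 < p)
    (hr : rho < md) (hg : g ≡ rho * M [MOD md]) :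
    ∃ k, k < p ∧ g ≡ (rho + md * k) * M [MOD md * p] := by
  have hN : 0 < md * p := Nat.mul_pos hmd hp
  obtain ⟨x, hx⟩ : ∃ x, x * M ≡ g [MOD md * p] := by
    rcases Nat.eq_or_lt_of_le (Nat.succ_le_of_lt hN) with h1 | h1
    · exact ⟨0, by rw [← h1]; exact Nat.modEq_one⟩
    · obtain ⟨m, _, hm⟩ := Nat.exists_mul_mod_eq_one_of_coprime hc h1
      refine ⟨m * g, ?_⟩
      have h2 : M * m ≡ 1 [MOD md * p] := by
        unfold Nat.ModEq
        rw [hm, Nat.mod_eq_of_lt h1]
      calc m * g * M = (M * m) * g := by ring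
        _ ≡ 1 * g [MOD md * p] := h2.mul_right g
        _ = g := one_mul g
  have hx2 : (x % (md * p)) * M ≡ g [MOD md * p] := ((Nat.mod_modEq x _).mul_right M).trans hx
  set y := x % (md * p) with hy
  have hylt : y < md * p := Nat.mod_lt _ hN
  have h3 : y * M ≡ rho * M [MOD md] := (hx2.of_mul_right p).trans hg
  have hcm : Nat.Coprime M md := Nat.Coprime.coprime_mul_right_right hc
  have h4 : y ≡ rho [MOD md] := Nat.ModEq.cancel_right_of_coprime
    (by rw [Nat.gcd_comm]; exact hcm) h3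
  have h5 : y % md = rho := by
    have h6 : y % md = rho % md := h4
    rwa [Nat.mod_eq_of_lt hr] at h6
  refine ⟨y / md, ?_, ?_⟩
  · rw [Nat.div_lt_iff_lt_mul hmd, mul_comm]
    exact hylt
  · have h6 : rho + md * (y / md) = y := by
      rw [← h5]
      exact Nat.mod_add_div y md
    rw [h6]
    exact hx2.symm

theorem ck2_spec (hC : HL M cl Q) (hM : Nat.Coprime M 2310) {rho : ℕ} (hr : rho < 210)
    (L : List L2) : ∀ G E, ck2 cl rho L G E = true → ∀ g, g ≡ rho * M [MOD 210] →
      G * M < 800000 * g → 800000 * g ≤ E * M → Q g := by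
  induction L with
  | nil =>
    intro G E h g _ h1 h2
    have h3 : E ≤ G := Nat.le_of_ble_eq_true h
    have h4 : E * M ≤ G * M := Nat.mul_le_mul_right M h3
    omega
  | cons e L ih =>
    intro G E h g hg h1 h2
    have h' : force (G + e.1) (fun G' =>
      an (List.rec (motive := fun _ => Bool) (cl 210 rho G e.1)
        (fun _ _ _ => sp3 cl 2310 210 (rho + 2310) G G' e.2 rho) e.2)
        (ck2 cl rho L G' E)) = true := h
    rw [force_eq] at h'
    obtain ⟨h3, h4⟩ := an_and h'
    by_cases h5 : 800000 * g ≤ (G + e.1) * M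
    · obtain ⟨w, LL⟩ := e
      rcases LL with _ | ⟨L0, LL⟩
      · exact hC 210 rho G w (Or.inr (Or.inl rfl)) hr h3 g hg h1.le h5
      · have h6 : sp3 cl 2310 210 (rho + 2310) G (G + w) (L0 :: LL) rho = true := h3
        obtain ⟨k, hk, hgk⟩ := split_res (M := M) (md := 210) (p := 11) (by norm_num)
          (by simpa using hM) (by norm_num) hr hg
        obtain ⟨L', hL'⟩ := sp3_spec (L0 :: LL) rho k h6 (by omega) ⟨11, by omega⟩
        exact ck3_spec hC (Or.inr (Or.inr rfl)) (by omega) L' G (G + w) hL' g hgk h1 h5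
    · exact ih _ E h4 g hg (by omega) h2

theorem sp2_spec {j R G E : ℕ} (LL : List (List L2)) : ∀ rho k,
    sp2 cl j R G E LL rho = true → rho + 30 * k < R → (∃ c, R = rho + 30 * c) →
      (8 * (rho + 30 * k) + 106 - j) % 105 = 0 ∨ ∃ L, ck2 cl (rho + 30 * k) L G E = true := by
  induction LL with
  | nil =>
    intro rho k h h1 _
    have h2 : rho = R := Nat.eq_of_beq_eq_true h
    omega
  | cons L LL ih =>
    intro rho k h h1 hc
    have h' : an (ro (Nat.beq ((8 * rho + 106 - j) % 105) 0) (ck2 cl rho L G E))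
      (force (rho + 30) (sp2 cl j R G E LL)) = true := h
    rw [force_eq] at h'
    obtain ⟨h3, h4⟩ := an_and h'
    rcases k with _ | k
    · rcases ro_or h3 with h5 | h5
      · left
        have h6 : (8 * rho + 106 - j) % 105 = 0 := Nat.eq_of_beq_eq_true h5
        simpa using h6
      · exact Or.inr ⟨L, by simpa using h5⟩
    · obtain ⟨c, hc⟩ := hc
      rcases c with _ | c
      · omega
      have e1 : rho + 30 + 30 * k = rho + 30 * (k + 1) := by ring
      have h5 := ih (rho + 30) k h4 (by omega) ⟨c, by omega⟩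
      rw [e1] at h5
      exact h5

theorem ck1_spec (hC : HL M cl Q) (hM : Nat.Coprime M 2310) {j rho : ℕ} (hr : rho < 30)
    (hQ : ∀ g rho', g ≡ rho' * M [MOD 210] → (8 * rho' + 106 - j) % 105 = 0 → Q g)
    (L : List L1) : ∀ G E, ck1 cl j rho L G E = true → ∀ g, g ≡ rho * M [MOD 30] →
      G * M < 800000 * g → 800000 * g ≤ E * M → Q g := by
  induction L with
  | nil =>
    intro G E h g _ h1 h2
    have h3 : E ≤ G := Nat.le_of_ble_eq_true h
    have h4 : E * M ≤ G * M := Nat.mul_le_mul_right M h3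
    omega
  | cons e L ih =>
    intro G E h g hg h1 h2
    have h' : force (G + e.1) (fun G' =>
      an (List.rec (motive := fun _ => Bool) (cl 30 rho G e.1)
        (fun _ _ _ => sp2 cl j (rho + 210) G G' e.2 rho) e.2)
        (ck1 cl j rho L G' E)) = true := h
    rw [force_eq] at h'
    obtain ⟨h3, h4⟩ := an_and h'
    by_cases h5 : 800000 * g ≤ (G + e.1) * M
    · obtain ⟨w, LL⟩ := e
      rcases LL with _ | ⟨L0, LL⟩
      · exact hC 30 rho G w (Or.inl rfl) hr h3 g hg h1.le h5
      · have h6 : sp2 cl j (rho + 210) G (G + w) (L0 :: LL) rho = true := h3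
        obtain ⟨k, hk, hgk⟩ := split_res (M := M) (md := 30) (p := 7) (by norm_num)
          (Nat.Coprime.coprime_dvd_right (by norm_num) hM) (by norm_num) hr hg
        rcases sp2_spec (L0 :: LL) rho k h6 (by omega) ⟨7, by omega⟩ with h7 | ⟨L', hL'⟩
        · exact hQ g _ hgk h7
        · exact ck2_spec hC hM (by omega) L' G (G + w) hL' g hgk h1 h5
    · exact ih _ E h4 g hg (by omega) h2

end

/-- The entry is checked, with the label mask `yy`. -/
def EOK (yy : ℕ) (e : Entry) : Prop :=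
  ∃ C : List Cd, C.all (cdk yy) = true ∧ ckL (lfm C) e = true

/-- The check of one cell list with the labels `ymk`. -/
def ckC : Cd → Bool := cdk ymk

theorem all_app {α : Type} {p : α → Bool} {l l' : List α} (h : l.all p = true)
    (h' : l'.all p = true) : (l ++ l').all p = true := by
  rw [List.all_append, h, h']
  rfl

theorem eok_of {C : List Cd} {A : List Entry} (h1 : C.all ckC = true)
    (h2 : A.all (ckL (lfm C)) = true) : ∀ e ∈ A, EOK ymk e :=
  fun e he => ⟨C, h1, List.all_eq_true.1 h2 e he⟩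

theorem eok_app {yy : ℕ} {A B : List Entry} (h1 : ∀ e ∈ A, EOK yy e) (h2 : ∀ e ∈ B, EOK yy e) :
    ∀ e ∈ A ++ B, EOK yy e := by
  intro e he
  rcases List.mem_append.1 he with h | h
  · exact h1 e h
  · exact h2 e h

end Pool.Agent.LR4.TC
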