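import Pool.Agent.LR4.TabSnd
import Pool.Agent.LR4.YStar

/-!
Lonely runner with speeds at most `2 n`: the table statement for the final labels and the final
window, from the checked entries.
-/

namespace Pool.Agent.LR4.TC

open Pool.Agent.LR4 Finset

theorem ymk_mem (b : ℕ) (h : tb ymk b = true) : b ∈ YS := by
  have h1 : b < 161 := by
    by_contra h2
    rw [tb_eq] at h
    have h3 : ymk < 2 ^ b := lt_of_lt_of_le (by decide +kernel : ymk < 2 ^ 161)
      (Nat.pow_le_pow_right (by norm_num) (by omega))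
    rw [Nat.testBit_lt_two_pow h3] at h
    exact Bool.noConfusion h
  have h2 : ∀ b < 161, tb ymk b = true → b ∈ YS := by decide +kernel
  exact h2 b h1 h

theorem ymk_bd (b : ℕ) (h : tb ymk b = true) : 1 ≤ b ∧ b ≤ 256 := by
  have h1 := ymk_mem b h
  rw [YS, mem_filter, mem_range] at h1
  omega

/-- The table statement, from the checked entries `A`. -/
theorem tabAll_YS {A : List Entry} (hA : ∀ e ∈ A, EOK ymk e) (hcov : ∀ d ∈ needs J0, Cvd A d) :
    TabAll YS J0 :=
  tabAll_of (yy := ymk) hA hcov ymk_mem ymk_bd (fun a ha => by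
    have h1 : ∀ a ∈ J0, 501 ≤ a.1 ∧ a.1 < a.2 ∧ a.2 ≤ 747 := by decide
    exact h1 a ha)

end Pool.Agent.LR4.TC
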